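import Mathlib

/-!
Definitions: union-intersecting families, disjoint pairs, intervals of the circle `ZMod n`.
-/

set_option autoImplicit false

open Finset

namespace Pool.Agent.Lib.MP_fffc5a_co

/-- `F` is `(u, v)`-union-intersecting. -/
def UI {α : Type*} [DecidableEq α] (u v : ℕ) (F : Finset (Finset α)) : Prop :=
  ∀ A ⊆ F, ∀ B ⊆ F, A.card = u → B.card = v → ¬ Disjoint (A.biUnion id) (B.biUnion id)

/-- The number of pairs `(G, B)` of disjoint sets, `G` in `X`, `B` in `F`. -/
def dp {α : Type*} [DecidableEq α] (X F : Finset (Finset α)) : ℕ :=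
  ((X ×ˢ F).filter fun p => Disjoint p.1 p.2).card

section circle

variable (n k : ℕ) [NeZero n]

/-- The interval `{i, i + 1, ..., i + k - 1}` of the circle. -/
def itv (i : ZMod n) : Finset (ZMod n) := univ.filter fun x => (x - i).val < k

/-- The intervals of the cyclic order `σ` which belong to `F` are those which contain the point
at position `c`. -/
def StarAt (F : Finset (Finset (ZMod n))) (σ : Equiv.Perm (ZMod n)) (c : ZMod n) : Prop :=
  ∀ i : ZMod n, (itv n k i).map σ.toEmbedding ∈ F ↔ c ∈ itv n k i

end circle

end Pool.Agent.Lib.MP_fffc5a_co
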