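import Mathlib
import Pool.Agent.Lib.MP_fffc5a_co.Defs

/-!
Definitions for the coding formula: missing sets of a star, wide families, dense `(k + 1)`-sets.
-/

set_option autoImplicit false

open Finset

namespace Pool.Agent.Lib.MP_fffc5a_co

/-- The `(k - 1)`-sets `S` avoiding `x` such that `S ∪ {x}` is missing from `F`. -/
def Miss {α : Type*} [Fintype α] [DecidableEq α] (F : Finset (Finset α)) (x : α) (k : ℕ) :
    Finset (Finset α) :=
  (powersetCard (k - 1) (univ.erase x)).filter fun S => insert x S ∉ F

/-- Any `u` distinct members of `X` have a union with at least `w` elements. -/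
def Wide {α : Type*} [DecidableEq α] (u w : ℕ) (X : Finset (Finset α)) : Prop :=
  ∀ T ⊆ X, T.card = u → w ≤ (T.biUnion id).card

/-- The `(k + 1)`-sets avoiding `x` which contain at least `u` members of `E`. -/
def Dense {α : Type*} [Fintype α] [DecidableEq α] (E : Finset (Finset α)) (u k : ℕ) (x : α) :
    Finset (Finset α) :=
  (powersetCard (k + 1) (univ.erase x)).filter fun K => u ≤ (E.filter fun s => s ⊆ K).card

/-- The `(k - 1)`-sets avoiding `x` which are disjoint from a member of `K`. -/
def Touched {α : Type*} [Fintype α] [DecidableEq α] (K : Finset (Finset α)) (k : ℕ) (x : α) :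
    Finset (Finset α) :=
  (powersetCard (k - 1) (univ.erase x)).filter fun S => ∃ W ∈ K, Disjoint S W

end Pool.Agent.Lib.MP_fffc5a_co
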