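import Mathlib
import Pool.Agent.Lib.MP_fffc5a_co.Defs
import Pool.Agent.Lib.MP_fffc5a_co.DefsC

/-!
Counting the missing sets of a star.
-/

set_option autoImplicit false

open Finset

namespace Pool.Agent.Lib.MP_fffc5a_co

theorem card_add_miss {α : Type*} [Fintype α] [DecidableEq α] {k : ℕ} (hk : 1 ≤ k)
    {F : Finset (Finset α)} (hF : ∀ s ∈ F, s.card = k) (x : α) :
    F.card + (Miss F x k).card =
      (F.filter fun s => x ∉ s).card + (Fintype.card α - 1).choose (k - 1) := by
  have h1 : F.card = (F.filter fun s => x ∈ s).card + (F.filter fun s => x ∉ s).card :=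
    (card_filter_add_card_filter_not (s := F) (fun s => x ∈ s)).symm
  have h2 : (powersetCard (k - 1) (univ.erase x)).card = (Fintype.card α - 1).choose (k - 1) := by
    rw [card_powersetCard, card_erase_of_mem (mem_univ x), card_univ]
  have h3 : (powersetCard (k - 1) (univ.erase x)).card =
      ((powersetCard (k - 1) (univ.erase x)).filter fun S => insert x S ∈ F).card +
        (Miss F x k).card :=
    (card_filter_add_card_filter_not (s := powersetCard (k - 1) (univ.erase x))
      (fun S => insert x S ∈ F)).symm
  have h4 : ((powersetCard (k - 1) (univ.erase x)).filter fun S => insert x S ∈ F).card =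
      (F.filter fun s => x ∈ s).card := by
    refine card_nbij' (fun S => insert x S) (fun s => s.erase x) ?_ ?_ ?_ ?_
    · intro S hS
      rw [mem_coe, mem_filter] at hS ⊢
      exact ⟨hS.2, mem_insert_self x S⟩
    · intro s hs
      rw [mem_coe, mem_filter] at hs ⊢
      refine ⟨?_, ?_⟩
      · rw [mem_powersetCard]
        refine ⟨?_, ?_⟩
        · intro y hy
          exact mem_erase.2 ⟨(mem_erase.1 hy).1, mem_univ y⟩
        · rw [card_erase_of_mem hs.2, hF s hs.1]
      · rw [insert_erase hs.2]
        exact hs.1
    · intro S hS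
      rw [mem_coe, mem_filter, mem_powersetCard] at hS
      have hx : x ∉ S := fun hx => (mem_erase.1 (hS.1.1 hx)).1 rfl
      exact erase_insert hx
    · intro s hs
      rw [mem_coe, mem_filter] at hs
      exact insert_erase hs.2
  omega

theorem card_disj {α : Type*} [Fintype α] [DecidableEq α] (k : ℕ) {x : α} {W : Finset α}
    (hxW : x ∉ W) :
    ((powersetCard (k - 1) (univ.erase x)).filter fun S => Disjoint S W).card =
      (Fintype.card α - 1 - W.card).choose (k - 1) := by
  have h1 : ((powersetCard (k - 1) (univ.erase x)).filter fun S => Disjoint S W) =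
      powersetCard (k - 1) ((univ.erase x) \ W) := by
    ext S
    rw [mem_filter, mem_powersetCard, mem_powersetCard, subset_sdiff]
    tauto
  have h2 : W ⊆ univ.erase x := by
    intro y hy
    refine mem_erase.2 ⟨?_, mem_univ y⟩
    rintro rfl
    exact hxW hy
  rw [h1, card_powersetCard, card_sdiff_of_subset h2, card_erase_of_mem (mem_univ x), card_univ]

theorem disj_le_miss {α : Type*} [Fintype α] [DecidableEq α] {u v : ℕ} (k : ℕ) (hv : 1 ≤ v)
    {F : Finset (Finset α)} (hUI : UI u v F) {T : Finset (Finset α)} (hT : T ⊆ F)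
    (hTu : T.card = u) {x : α} {W : Finset α} (hxW : x ∉ W) (hTW : ∀ s ∈ T, s ⊆ W) :
    ((powersetCard (k - 1) (univ.erase x)).filter fun S => Disjoint S W).card ≤
      ((Miss F x k).filter fun S => Disjoint S W).card + (v - 1) := by
  set P := (powersetCard (k - 1) (univ.erase x)).filter fun S => Disjoint S W with hP
  set P1 := P.filter fun S => insert x S ∈ F with hP1
  have h1 : P.card = P1.card + (P.filter fun S => insert x S ∉ F).card :=
    (card_filter_add_card_filter_not (s := P) (fun S => insert x S ∈ F)).symm
  have h2 : (P.filter fun S => insert x S ∉ F) = (Miss F x k).filter fun S => Disjoint S W := by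
    rw [hP]
    unfold Miss
    rw [filter_filter, filter_filter]
    refine filter_congr fun S _ => ?_
    tauto
  have hxS : ∀ S ∈ P1, x ∉ S := by
    intro S hS hx
    rw [hP1, mem_filter, hP, mem_filter, mem_powersetCard] at hS
    exact (mem_erase.1 (hS.1.1.1 hx)).1 rfl
  have h3 : P1.card ≤ v - 1 := by
    by_contra hcon
    have hv1 : v ≤ P1.card := by omega
    obtain ⟨Q, hQP, hQ⟩ := exists_subset_card_eq hv1
    have hinj : Set.InjOn (fun S : Finset α => insert x S) (Q : Set (Finset α)) := by
      intro S hS S' hS' h
      have e1 := hxS S (hQP (mem_coe.1 hS))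
      have e2 := hxS S' (hQP (mem_coe.1 hS'))
      simp only at h
      rw [← erase_insert e1, ← erase_insert e2, h]
    refine hUI T hT (Q.image fun S => insert x S) ?_ hTu ?_ ?_
    · intro s hs
      rw [mem_image] at hs
      obtain ⟨S, hS, rfl⟩ := hs
      exact (mem_filter.1 (hQP hS)).2
    · rw [card_image_of_injOn hinj, hQ]
    · rw [disjoint_left]
      intro y hy hy'
      rw [mem_biUnion] at hy hy'
      obtain ⟨s, hs, hys⟩ := hy
      obtain ⟨s', hs', hys'⟩ := hy'
      rw [mem_image] at hs'
      obtain ⟨S, hS, rfl⟩ := hs'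
      have hyW : y ∈ W := hTW s hs hys
      simp only [id] at hys'
      rcases mem_insert.1 hys' with rfl | hyS
      · exact hxW hyW
      · have := (mem_filter.1 (mem_filter.1 (hQP hS)).1).2
        exact disjoint_left.1 this hyS hyW
  rw [h1, h2]
  omega

end Pool.Agent.Lib.MP_fffc5a_co
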