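import Mathlib
import Pool.Agent.Lib.MP_fffc5a_co.Defs
import Pool.Agent.Lib.MP_fffc5a_co.DefsC
import Pool.Agent.Lib.MP_fffc5a_co.MissCard

/-!
Dense `(k + 1)`-sets: touched sets, members inside dense sets, wide remainder.
-/

set_option autoImplicit false

open Finset

namespace Pool.Agent.Lib.MP_fffc5a_co

theorem touched_le {α : Type*} [Fintype α] [DecidableEq α] {u v : ℕ} (k : ℕ) (hv : 1 ≤ v)
    {F : Finset (Finset α)} (hUI : UI u v F) {x : α} {E : Finset (Finset α)} (hE : E ⊆ F) :
    (Touched (Dense E u k x) k x).card ≤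
      (Miss F x k).card + (v - 1) * (Dense E u k x).card := by
  classical
  set P := powersetCard (k - 1) ((univ : Finset α).erase x) with hP
  have hsub : Touched (Dense E u k x) k x ⊆ Miss F x k ∪
      (Dense E u k x).biUnion fun W => (P.filter fun S => Disjoint S W) \
        ((Miss F x k).filter fun S => Disjoint S W) := by
    intro S hS
    unfold Touched at hS
    rw [mem_filter] at hS
    obtain ⟨hSP, W, hW, hd⟩ := hS
    rw [mem_union, mem_biUnion]
    by_cases hM : S ∈ Miss F x k
    · exact Or.inl hM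
    · refine Or.inr ⟨W, hW, ?_⟩
      rw [mem_sdiff, mem_filter, mem_filter]
      exact ⟨⟨hSP, hd⟩, fun h => hM h.1⟩
  refine (card_le_card hsub).trans ((card_union_le _ _).trans ?_)
  refine Nat.add_le_add_left ?_ _
  refine card_biUnion_le.trans ?_
  rw [mul_comm, ← smul_eq_mul]
  refine sum_le_card_nsmul _ _ _ fun W hW => ?_
  unfold Dense at hW
  rw [mem_filter, mem_powersetCard] at hW
  obtain ⟨⟨hWx, _⟩, hWu⟩ := hW
  obtain ⟨T, hT, hTu⟩ := exists_subset_card_eq hWu
  have hxW : x ∉ W := fun h => (notMem_erase x univ) (hWx h)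
  have h1 := disj_le_miss k hv hUI (T := T)
    (hT.trans ((filter_subset _ _).trans hE)) hTu hxW
    (fun s hs => (mem_filter.1 (hT hs)).2)
  have h2 : ((Miss F x k).filter fun S => Disjoint S W) ⊆ P.filter fun S => Disjoint S W := by
    intro S hS
    rw [mem_filter] at hS ⊢
    exact ⟨(mem_filter.1 hS.1).1, hS.2⟩
  rw [card_sdiff_of_subset h2, tsub_le_iff_left]
  exact h1

theorem adj_members_le {α : Type*} [Fintype α] [DecidableEq α] {u k : ℕ} {x : α}
    {E : Finset (Finset α)} (hE : ∀ s ∈ E, s.card = k) :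
    (E.filter fun s => ∃ K ∈ Dense E u k x, s ⊆ K).card ≤ (k + 1) * (Dense E u k x).card := by
  have hsub : (E.filter fun s => ∃ K ∈ Dense E u k x, s ⊆ K) ⊆
      (Dense E u k x).biUnion fun K => powersetCard k K := by
    intro s hs
    rw [mem_filter] at hs
    obtain ⟨hsE, K, hK, hsK⟩ := hs
    rw [mem_biUnion]
    exact ⟨K, hK, mem_powersetCard.2 ⟨hsK, hE s hsE⟩⟩
  refine (card_le_card hsub).trans (card_biUnion_le.trans ?_)
  rw [mul_comm, ← smul_eq_mul]
  refine sum_le_card_nsmul _ _ _ fun K hK => ?_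
  unfold Dense at hK
  rw [mem_filter, mem_powersetCard] at hK
  rw [card_powersetCard, hK.1.2, Nat.choose_succ_self_right]

theorem dense_card_le {α : Type*} [Fintype α] [DecidableEq α] {u k : ℕ} (hu : 1 ≤ u) {x : α}
    {E : Finset (Finset α)} (hE : ∀ s ∈ E, s.card = k) :
    (Dense E u k x).card ≤ E.card * Fintype.card α := by
  have hsub : Dense E u k x ⊆ (E ×ˢ (univ : Finset α)).image fun p => insert p.2 p.1 := by
    intro K hK
    unfold Dense at hK
    rw [mem_filter, mem_powersetCard] at hK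
    have hpos : 0 < (E.filter fun s => s ⊆ K).card := by omega
    obtain ⟨s, hs⟩ := card_pos.1 hpos
    rw [mem_filter] at hs
    obtain ⟨y, _, hy⟩ := exists_eq_insert_iff.2 ⟨hs.2, by rw [hE s hs.1, hK.1.2]⟩
    rw [mem_image]
    exact ⟨(s, y), mem_product.2 ⟨hs.1, mem_univ _⟩, hy⟩
  refine (card_le_card hsub).trans (card_image_le.trans ?_)
  rw [card_product, card_univ]

theorem wide_of_not_dense {α : Type*} [Fintype α] [DecidableEq α] {u k : ℕ} (hu : 2 ≤ u) {x : α}
    {E : Finset (Finset α)} (hE : ∀ s ∈ E, s.card = k ∧ x ∉ s) :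
    Wide u (k + 2) (E.filter fun s => ¬ ∃ K ∈ Dense E u k x, s ⊆ K) := by
  intro T hT hTu
  by_contra hlt
  push Not at hlt
  have hTE : ∀ s ∈ T, s ∈ E := fun s hs => (mem_filter.1 (hT hs)).1
  obtain ⟨s, hs, t, ht, hst⟩ := one_lt_card.1 (show 1 < T.card by omega)
  have hsU : s ⊆ T.biUnion id := subset_biUnion_of_mem id hs
  have htU : t ⊆ T.biUnion id := subset_biUnion_of_mem id ht
  have hlow : k + 1 ≤ (T.biUnion id).card := by
    by_contra h
    push Not at h
    have h1 : s = T.biUnion id := eq_of_subset_of_card_le hsU (by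
      rw [(hE s (hTE s hs)).1]; omega)
    have h2 : t = T.biUnion id := eq_of_subset_of_card_le htU (by
      rw [(hE t (hTE t ht)).1]; omega)
    exact hst (h1.trans h2.symm)
  have hcard : (T.biUnion id).card = k + 1 := by omega
  have hK : T.biUnion id ∈ Dense E u k x := by
    unfold Dense
    rw [mem_filter, mem_powersetCard]
    refine ⟨⟨?_, hcard⟩, ?_⟩
    · intro y hy
      rw [mem_erase]
      refine ⟨?_, mem_univ _⟩
      rintro rfl
      rw [mem_biUnion] at hy
      obtain ⟨r, hr, hyr⟩ := hy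
      exact (hE r (hTE r hr)).2 hyr
    · rw [← hTu]
      refine card_le_card fun r hr => ?_
      rw [mem_filter]
      exact ⟨hTE r hr, subset_biUnion_of_mem id hr⟩
  exact (mem_filter.1 (hT hs)).2 ⟨_, hK, hsU⟩

end Pool.Agent.Lib.MP_fffc5a_co
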