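import Mathlib
import Pool.Agent.Lib.MP_fffc5a_co.DefsC

/-!
Definitions for the local theorem: up and down operators on the levels of the cube, active sets,
numbers of incidences.
-/

set_option autoImplicit false

open Finset

namespace Pool.Agent.Lib.MP_fffc5a_co

/-- The up operator. -/
def Up {β : Type*} [DecidableEq β] (φ : Finset β → ℝ) (Z : Finset β) : ℝ :=
  ∑ z ∈ Z, φ (Z.erase z)

/-- The down operator. -/
def Dn {β : Type*} [Fintype β] [DecidableEq β] (φ : Finset β → ℝ) (Z : Finset β) : ℝ :=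
  ∑ z ∈ Zᶜ, φ (insert z Z)

/-- The sum of the squares on level `r`. -/
def nsq {β : Type*} [Fintype β] [DecidableEq β] (r : ℕ) (φ : Finset β → ℝ) : ℝ :=
  ∑ Z ∈ powersetCard r univ, φ Z ^ 2

/-- The indicator function of a family. -/
def ind {β : Type*} [DecidableEq β] (A : Finset (Finset β)) (Z : Finset β) : ℝ :=
  if Z ∈ A then 1 else 0

/-- The `w`-sets which contain at least `u` members of `E`. -/
def Act {β : Type*} [Fintype β] [DecidableEq β] (E : Finset (Finset β)) (u w : ℕ) :
    Finset (Finset β) :=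
  (powersetCard w univ).filter fun W => u ≤ (E.filter fun s => s ⊆ W).card

/-- The number of pairs `Y ∈ M`, `y ∈ Y \ G` with `G ⊆ Y` and `Y \ {y}` in `A`. -/
def Jp {β : Type*} [DecidableEq β] (A M : Finset (Finset β)) (G : Finset β) : ℕ :=
  ∑ Y ∈ M.filter fun Y => G ⊆ Y, ((Y \ G).filter fun y => Y.erase y ∈ A).card

/-- The number of pairs `Y ∈ M`, `y ∈ Y \ G` with `G ⊆ Y` and `Y \ {y}` not in `A`. -/
def Jn {β : Type*} [DecidableEq β] (A M : Finset (Finset β)) (G : Finset β) : ℕ :=
  ∑ Y ∈ M.filter fun Y => G ⊆ Y, ((Y \ G).filter fun y => Y.erase y ∉ A).card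

end Pool.Agent.Lib.MP_fffc5a_co
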