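import Mathlib
import Pool.Agent.Lib.MP_fffc5a_co.DefsH

/-!
Definitions for the case of a bounded gap `n - 2 k`: polynomials of low degree on the cube, cubes
inside a level.
-/

set_option autoImplicit false

open Finset

namespace Pool.Agent.Lib.MP_fffc5a_co

/-- Functions of degree at most `d` on the cube: the span of the functions which depend on at
most `d` coordinates. -/
def IsPoly (m d : ℕ) (f : (Fin m → Bool) → ℝ) : Prop :=
  f ∈ Submodule.span ℝ {g : (Fin m → Bool) → ℝ | ∃ J : Finset (Fin m), J.card ≤ d ∧
    ∀ x y : Fin m → Bool, (∀ i ∈ J, x i = y i) → g x = g y}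

/-- The sign of a bit. -/
def sg (b : Bool) : ℝ := if b then 1 else -1

/-- The member with index `δ` of the cube inside level `r` which is given by `r` pairs of
points. -/
def cset {β : Type*} [DecidableEq β] {r : ℕ} (e : Fin r × Bool → β) (δ : Fin r → Bool) :
    Finset β :=
  univ.image fun p => e (p, δ p)

end Pool.Agent.Lib.MP_fffc5a_co
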