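import Mathlib
import Pool.Agent.Lib.MP_fffc5a_co.Defs
import Pool.Agent.Lib.MP_fffc5a_co.DefsH
import Pool.Agent.Lib.MP_fffc5a_co.DefsK

set_option autoImplicit false

open Finset

namespace Pool.Agent.Lib.MP_fffc5a_co

/-! ### K6: binomial tails -/

private theorem k6_pascal (r : ℕ) (f : ℕ → ℝ) :
    ∑ s ∈ range (r + 2), ((r + 1).choose s : ℝ) * f s =
      ∑ s ∈ range (r + 1), (r.choose s : ℝ) * f s +
        ∑ s ∈ range (r + 1), (r.choose s : ℝ) * f (s + 1) := by
  rw [Finset.sum_range_succ']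
  have h1 : ∀ s ∈ range (r + 1), ((r + 1).choose (s + 1) : ℝ) * f (s + 1) =
      (r.choose s : ℝ) * f (s + 1) + (r.choose (s + 1) : ℝ) * f (s + 1) := by
    intro s _
    rw [Nat.choose_succ_succ]
    push_cast
    ring
  rw [Finset.sum_congr rfl h1, Finset.sum_add_distrib]
  have h2 : ∑ s ∈ range (r + 1), (r.choose s : ℝ) * f s =
      ∑ s ∈ range r, (r.choose (s + 1) : ℝ) * f (s + 1) + f 0 := by
    rw [Finset.sum_range_succ']
    simp
  rw [h2, Finset.sum_range_succ (fun s => (r.choose (s + 1) : ℝ) * f (s + 1)) r]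
  simp
  ring

private theorem k6_var (r : ℕ) : ∀ x : ℝ,
    ∑ s ∈ range (r + 1), (r.choose s : ℝ) * (2 * s - r + x) ^ 2 = 2 ^ r * (x ^ 2 + r) := by
  induction r with
  | zero => intro x; simp
  | succ r ih =>
    intro x
    rw [k6_pascal]
    have e1 : ∑ s ∈ range (r + 1), (r.choose s : ℝ) * (2 * s - ((r + 1 : ℕ) : ℝ) + x) ^ 2 =
        2 ^ r * ((x - 1) ^ 2 + r) := by
      rw [← ih (x - 1)]
      refine sum_congr rfl fun s _ => ?_
      push_cast
      ring
    have e2 : ∑ s ∈ range (r + 1), (r.choose s : ℝ) *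
        (2 * ((s + 1 : ℕ) : ℝ) - ((r + 1 : ℕ) : ℝ) + x) ^ 2 = 2 ^ r * ((x + 1) ^ 2 + r) := by
      rw [← ih (x + 1)]
      refine sum_congr rfl fun s _ => ?_
      push_cast
      ring
    rw [e1, e2]
    push_cast
    ring

private theorem k6_central (r : ℕ) : (2 * r + 1) * (2 * r).choose r ^ 2 ≤ 16 ^ r := by
  induction r with
  | zero => simp
  | succ r ih =>
    have h1 := Nat.succ_mul_centralBinom_succ r
    unfold Nat.centralBinom at h1
    have h2 : (r + 1) ^ 2 * ((2 * (r + 1) + 1) * (2 * (r + 1)).choose (r + 1) ^ 2) =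
        (2 * r + 3) * 4 * (2 * r + 1) * ((2 * r + 1) * (2 * r).choose r ^ 2) := by
      calc (r + 1) ^ 2 * ((2 * (r + 1) + 1) * (2 * (r + 1)).choose (r + 1) ^ 2)
          = (2 * r + 3) * ((r + 1) * (2 * (r + 1)).choose (r + 1)) ^ 2 := by ring
        _ = (2 * r + 3) * (2 * (2 * r + 1) * (2 * r).choose r) ^ 2 := by rw [h1]
        _ = _ := by ring
    have h3 : (2 * r + 3) * 4 * (2 * r + 1) * ((2 * r + 1) * (2 * r).choose r ^ 2) ≤
        (2 * r + 3) * 4 * (2 * r + 1) * 16 ^ r := Nat.mul_le_mul_left _ ih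
    have h4 : (2 * r + 3) * 4 * (2 * r + 1) * 16 ^ r ≤ (r + 1) ^ 2 * 16 ^ (r + 1) := by
      have : (2 * r + 3) * 4 * (2 * r + 1) ≤ (r + 1) ^ 2 * 16 := by nlinarith
      calc (2 * r + 3) * 4 * (2 * r + 1) * 16 ^ r ≤ (r + 1) ^ 2 * 16 * 16 ^ r :=
            Nat.mul_le_mul_right _ this
        _ = _ := by ring
    have h5 : (r + 1) ^ 2 * ((2 * (r + 1) + 1) * (2 * (r + 1)).choose (r + 1) ^ 2) ≤
        (r + 1) ^ 2 * 16 ^ (r + 1) := by
      rw [h2]
      exact h3.trans h4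
    exact Nat.le_of_mul_le_mul_left h5 (by positivity)

private theorem k6_shift (r c : ℕ) : (2 * r + c).choose r ≤ 2 ^ c * (2 * r).choose r := by
  induction c with
  | zero => simp
  | succ c ih =>
    have h1 := Nat.choose_mul_succ_eq (2 * r + c) r
    have h2 : 2 * r + c + 1 - r = r + c + 1 := by omega
    rw [h2] at h1
    have h3 : (2 * r + c + 1).choose r * (r + c + 1) ≤
        (2 * (2 * r + c).choose r) * (r + c + 1) := by
      rw [← h1]
      have : 2 * r + c + 1 ≤ 2 * (r + c + 1) := by omega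
      calc (2 * r + c).choose r * (2 * r + c + 1) ≤ (2 * r + c).choose r * (2 * (r + c + 1)) :=
            Nat.mul_le_mul_left _ this
        _ = _ := by ring
    have h4 : (2 * r + c + 1).choose r ≤ 2 * (2 * r + c).choose r :=
      Nat.le_of_mul_le_mul_right h3 (by omega)
    calc (2 * r + (c + 1)).choose r ≤ 2 * (2 * r + c).choose r := h4
      _ ≤ 2 * (2 ^ c * (2 * r).choose r) := Nat.mul_le_mul_left _ ih
      _ = _ := by ring

private theorem k6_card (r : ℕ) {R : ℝ} (hR : 0 ≤ R) (T : Finset ℕ)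
    (hT : ∀ s ∈ T, (2 * (s : ℝ) - r) ^ 2 ≤ R ^ 2) : (T.card : ℝ) ≤ R + 1 := by
  rcases T.eq_empty_or_nonempty with h | h
  · rw [h]
    simp
    linarith
  · set m := T.min' h
    have hm : m ∈ T := T.min'_mem h
    have hsub : T ⊆ Finset.Icc m (m + ⌊R⌋₊) := by
      intro s hs
      rw [Finset.mem_Icc]
      refine ⟨T.min'_le s hs, ?_⟩
      have h1 := abs_le_of_sq_le_sq' (hT s hs) hR
      have h2 := abs_le_of_sq_le_sq' (hT m hm) hR
      have h3 : ((s : ℝ) - m) ≤ R := by linarith [h1.2, h2.1]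
      have hms : m ≤ s := T.min'_le s hs
      have h4 : ((s - m : ℕ) : ℝ) ≤ R := by
        rw [Nat.cast_sub hms]
        exact h3
      have h5 : s - m ≤ ⌊R⌋₊ := Nat.le_floor h4
      omega
    have hc := Finset.card_le_card hsub
    rw [Nat.card_Icc] at hc
    have h6 : T.card ≤ ⌊R⌋₊ + 1 := by omega
    have h7 : ((⌊R⌋₊ : ℕ) : ℝ) ≤ R := Nat.floor_le hR
    have h8 : (T.card : ℝ) ≤ (⌊R⌋₊ : ℝ) + 1 := by exact_mod_cast h6
    linarith

theorem bad_sum (c : ℕ) {M : ℝ} (hM : 0 < M) : ∃ θ : ℝ, 0 < θ ∧ ∀ r : ℕ, 1 ≤ r →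
    ∑ s ∈ (range (r + 1)).filter (fun s : ℕ =>
      ¬ θ * ((2 * r + c).choose r : ℝ) ≤ 2 ^ r * ((r + c).choose s : ℝ)), (r.choose s : ℝ) ≤
      2 ^ r / M := by
  refine ⟨1 / (2 ^ c * (2 * M) * (Real.sqrt (2 * M) + 1)), by positivity, ?_⟩
  intro r hr
  set θ : ℝ := 1 / (2 ^ c * (2 * M) * (Real.sqrt (2 * M) + 1)) with hθ
  have hθpos : 0 < θ := by positivity
  set B := (range (r + 1)).filter (fun s : ℕ =>
      ¬ θ * ((2 * r + c).choose r : ℝ) ≤ 2 ^ r * ((r + c).choose s : ℝ)) with hB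
  have hr' : (1 : ℝ) ≤ r := by exact_mod_cast hr
  have hr0 : (0 : ℝ) < r := by linarith
  set q : ℝ := Real.sqrt (2 * r + 1) with hq
  have hqpos : 0 < q := Real.sqrt_pos.mpr (by positivity)
  have hq2 : q ^ 2 = 2 * r + 1 := Real.sq_sqrt (by positivity)
  have hq1 : 1 ≤ q := by
    rw [hq]
    exact Real.one_le_sqrt.mpr (by linarith)
  -- the central binomial coefficient
  have hcent : ((2 * r).choose r : ℝ) ≤ 4 ^ r / q := by
    rw [le_div_iff₀ hqpos]
    have h1 : ((2 * r + 1 : ℕ) : ℝ) * ((2 * r).choose r : ℝ) ^ 2 ≤ 16 ^ r := by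
      exact_mod_cast k6_central r
    have h2 : (((2 * r).choose r : ℝ) * q) ^ 2 ≤ (4 ^ r) ^ 2 := by
      rw [mul_pow, hq2]
      push_cast at h1
      have : ((4 : ℝ) ^ r) ^ 2 = 16 ^ r := by
        rw [← pow_mul, mul_comm, pow_mul]
        norm_num
      rw [this]
      linarith
    exact le_of_sq_le_sq h2 (by positivity)
  have hbadle : ∀ s ∈ B, (r.choose s : ℝ) ≤ θ * 2 ^ c * 2 ^ r / q := by
    intro s hs
    rw [hB, Finset.mem_filter] at hs
    have h1 := hs.2
    push Not at h1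
    have h2 : (r.choose s : ℝ) ≤ ((r + c).choose s : ℝ) := by
      exact_mod_cast Nat.choose_le_choose s (by omega)
    have h3 : ((2 * r + c).choose r : ℝ) ≤ 2 ^ c * ((2 * r).choose r : ℝ) := by
      exact_mod_cast k6_shift r c
    have h4 : (2 : ℝ) ^ r * (r.choose s : ℝ) ≤ θ * (2 ^ c * (4 ^ r / q)) := by
      calc (2 : ℝ) ^ r * (r.choose s : ℝ) ≤ 2 ^ r * ((r + c).choose s : ℝ) := by gcongr
        _ ≤ θ * ((2 * r + c).choose r : ℝ) := h1.le
        _ ≤ θ * (2 ^ c * ((2 * r).choose r : ℝ)) := by gcongr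
        _ ≤ θ * (2 ^ c * (4 ^ r / q)) := by gcongr
    have h5 : θ * (2 ^ c * (4 ^ r / q)) = 2 ^ r * (θ * 2 ^ c * 2 ^ r / q) := by
      have : (4 : ℝ) ^ r = 2 ^ r * 2 ^ r := by
        rw [← mul_pow]
        norm_num
      rw [this]
      ring
    rw [h5] at h4
    exact le_of_mul_le_mul_left h4 (by positivity)
  rw [← Finset.sum_filter_add_sum_filter_not B (fun s : ℕ => (2 * (s : ℝ) - r) ^ 2 ≤ 2 * M * r)]
  -- central part
  have hA : ∑ s ∈ B.filter (fun s : ℕ => (2 * (s : ℝ) - r) ^ 2 ≤ 2 * M * r), (r.choose s : ℝ) ≤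
      2 ^ r / (2 * M) := by
    have hcard := k6_card r (R := Real.sqrt (2 * M * r)) (Real.sqrt_nonneg _)
      (B.filter (fun s : ℕ => (2 * (s : ℝ) - r) ^ 2 ≤ 2 * M * r)) (by
        intro s hs
        rw [Finset.mem_filter] at hs
        rw [Real.sq_sqrt (by positivity)]
        exact hs.2)
    have h1 : ∑ s ∈ B.filter (fun s : ℕ => (2 * (s : ℝ) - r) ^ 2 ≤ 2 * M * r),
        (r.choose s : ℝ) ≤
        ((B.filter (fun s : ℕ => (2 * (s : ℝ) - r) ^ 2 ≤ 2 * M * r)).card : ℝ) *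
          (θ * 2 ^ c * 2 ^ r / q) := by
      rw [← nsmul_eq_mul]
      apply Finset.sum_le_card_nsmul
      intro s hs
      exact hbadle s (Finset.mem_filter.mp hs).1
    have h2 : Real.sqrt (2 * M * r) + 1 ≤ (Real.sqrt (2 * M) + 1) * q := by
      rw [Real.sqrt_mul (by positivity)]
      have h3 : Real.sqrt r ≤ q := Real.sqrt_le_sqrt (by linarith)
      have h4 := Real.sqrt_nonneg (2 * M)
      nlinarith
    calc _ ≤ _ := h1
      _ ≤ ((Real.sqrt (2 * M) + 1) * q) * (θ * 2 ^ c * 2 ^ r / q) := by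
          apply mul_le_mul_of_nonneg_right (hcard.trans h2)
          positivity
      _ = 2 ^ r / (2 * M) := by
          rw [hθ]
          have : Real.sqrt (2 * M) + 1 ≠ 0 := by positivity
          field_simp
  -- tail
  have hT : ∑ s ∈ B.filter (fun s : ℕ => ¬ (2 * (s : ℝ) - r) ^ 2 ≤ 2 * M * r),
      (r.choose s : ℝ) ≤ 2 ^ r / (2 * M) := by
    have hv := k6_var r 0
    have h1 : ∑ s ∈ B.filter (fun s : ℕ => ¬ (2 * (s : ℝ) - r) ^ 2 ≤ 2 * M * r),
        (r.choose s : ℝ) * (2 * M * r) ≤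
        ∑ s ∈ range (r + 1), (r.choose s : ℝ) * (2 * s - r + 0) ^ 2 := by
      calc _ ≤ ∑ s ∈ B.filter (fun s : ℕ => ¬ (2 * (s : ℝ) - r) ^ 2 ≤ 2 * M * r),
            (r.choose s : ℝ) * (2 * s - r + 0) ^ 2 := by
            apply Finset.sum_le_sum
            intro s hs
            have hs2 := (Finset.mem_filter.mp hs).2
            push Not at hs2
            rw [add_zero]
            exact mul_le_mul_of_nonneg_left hs2.le (by positivity)
        _ ≤ _ := by
            apply Finset.sum_le_sum_of_subset_of_nonneg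
            · intro s hs
              exact (Finset.mem_filter.mp (Finset.mem_filter.mp hs).1).1
            · intro s _ _
              positivity
    rw [hv, ← Finset.sum_mul] at h1
    rw [le_div_iff₀ (by positivity)]
    have h2 : (∑ s ∈ B.filter (fun s : ℕ => ¬ (2 * (s : ℝ) - r) ^ 2 ≤ 2 * M * r),
        (r.choose s : ℝ)) * (2 * M) * r ≤ 2 ^ r * r := by
      calc _ = (∑ s ∈ B.filter (fun s : ℕ => ¬ (2 * (s : ℝ) - r) ^ 2 ≤ 2 * M * r),
        (r.choose s : ℝ)) * (2 * M * r) := by ring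
        _ ≤ _ := h1
        _ = 2 ^ r * r := by ring
    exact le_of_mul_le_mul_right h2 hr0
  calc _ ≤ 2 ^ r / (2 * M) + 2 ^ r / (2 * M) := add_le_add hA hT
    _ = 2 ^ r / M := by
      field_simp
      ring

end Pool.Agent.Lib.MP_fffc5a_co
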