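import Mathlib
import Pool.Agent.Lib.MP_fffc5a_co.Defs
import Pool.Agent.Lib.MP_fffc5a_co.DefsC

/-!
Averaging over all sets of a given size.
-/

set_option autoImplicit false

open Finset

namespace Pool.Agent.Lib.MP_fffc5a_co

theorem e1_count {α : Type*} [Fintype α] [DecidableEq α] (G B : Finset α) (hd : Disjoint G B)
    (j : ℕ) :
    ((powersetCard (G.card + j) (univ : Finset α)).filter fun W => G ⊆ W ∧ Disjoint B W).card =
      (Fintype.card α - (G.card + B.card)).choose j := by
  have h1 : ((powersetCard (G.card + j) (univ : Finset α)).filter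
      fun W => G ⊆ W ∧ Disjoint B W) =
      (powersetCard j (univ \ (G ∪ B))).image (fun S => G ∪ S) := by
    ext W
    simp only [mem_filter, mem_powersetCard, mem_image]
    constructor
    · rintro ⟨⟨-, hW⟩, hG, hB⟩
      refine ⟨W \ G, ⟨?_, ?_⟩, union_sdiff_of_subset hG⟩
      · intro x hx
        rw [mem_sdiff] at hx
        rw [mem_sdiff, mem_union]
        refine ⟨mem_univ _, ?_⟩
        rintro (h | h)
        · exact hx.2 h
        · exact (disjoint_left.1 hB h) hx.1
      · rw [card_sdiff_of_subset hG, hW]
        omega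
    · rintro ⟨S, ⟨hS, hc⟩, rfl⟩
      have hGS : Disjoint G S := by
        rw [disjoint_left]
        intro x hx hx'
        exact (mem_sdiff.1 (hS hx')).2 (mem_union_left _ hx)
      have hBS : Disjoint B S := by
        rw [disjoint_left]
        intro x hx hx'
        exact (mem_sdiff.1 (hS hx')).2 (mem_union_right _ hx)
      refine ⟨⟨subset_univ _, ?_⟩, subset_union_left, ?_⟩
      · rw [card_union_of_disjoint hGS, hc]
      · rw [disjoint_union_right]
        exact ⟨hd.symm, hBS⟩
  rw [h1, card_image_of_injOn, card_powersetCard, card_sdiff_of_subset (subset_univ _), card_univ,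
    card_union_of_disjoint hd]
  intro S hS S' hS' hSS
  simp only [mem_coe, mem_powersetCard] at hS hS'
  simp only at hSS
  have key : ∀ T : Finset α, T ⊆ univ \ (G ∪ B) → T = (G ∪ T) \ G := by
    intro T hT
    ext x
    simp only [mem_sdiff, mem_union]
    constructor
    · intro hx
      exact ⟨Or.inr hx, fun h => (mem_sdiff.1 (hT hx)).2 (mem_union_left _ h)⟩
    · rintro ⟨h | h, h'⟩
      · exact absurd h h'
      · exact h
  rw [key S hS.1, key S' hS'.1, hSS]

theorem part_avg {α : Type*} [Fintype α] [DecidableEq α] {u v k a : ℕ} (hu : 1 ≤ u) (hv : 1 ≤ v)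
    (hn : Fintype.card α = 2 * k + a) {F : Finset (Finset α)} (hF : ∀ s ∈ F, s.card = k)
    (hUI : UI u v F) (j : ℕ) :
    dp F F * a.choose j ≤
      F.card * ((u - 1) * (k + a).choose (k + j) + (v - 1) * (k + a).choose j) := by
  set P : Finset (Finset α) := powersetCard (k + j) univ with hP
  have hx : ∀ W : Finset α, (F.filter fun G => G ⊆ W).card * (F.filter fun B => Disjoint B W).card ≤
      (u - 1) * (F.filter fun B => Disjoint B W).card +
      (v - 1) * (F.filter fun G => G ⊆ W).card := by
    intro W
    have h : (F.filter fun G => G ⊆ W).card ≤ u - 1 ∨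
        (F.filter fun B => Disjoint B W).card ≤ v - 1 := by
      by_contra hcon
      push Not at hcon
      obtain ⟨A, hA, hAc⟩ := exists_subset_card_eq
        (show u ≤ (F.filter fun G => G ⊆ W).card by omega)
      obtain ⟨B, hB, hBc⟩ := exists_subset_card_eq
        (show v ≤ (F.filter fun B => Disjoint B W).card by omega)
      refine hUI A (hA.trans (filter_subset _ _)) B (hB.trans (filter_subset _ _)) hAc hBc ?_
      rw [disjoint_biUnion_left]
      intro G hG
      rw [disjoint_biUnion_right]
      intro s hs
      have h1 := (mem_filter.1 (hA hG)).2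
      have h2 := (mem_filter.1 (hB hs)).2
      exact (h2.mono_right h1).symm
    rcases h with h | h
    · calc _ ≤ (u - 1) * (F.filter fun B => Disjoint B W).card := Nat.mul_le_mul_right _ h
        _ ≤ _ := Nat.le_add_right _ _
    · calc _ ≤ (F.filter fun G => G ⊆ W).card * (v - 1) := Nat.mul_le_mul_left _ h
        _ = (v - 1) * (F.filter fun G => G ⊆ W).card := Nat.mul_comm _ _
        _ ≤ _ := Nat.le_add_left _ _
  have hsumx : ∑ W ∈ P, (F.filter fun G => G ⊆ W).card = F.card * (k + a).choose j := by
    simp only [card_filter]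
    rw [sum_comm]
    rw [← smul_eq_mul, ← sum_const]
    refine sum_congr rfl fun G hG => ?_
    rw [← card_filter]
    have h := e1_count G ∅ (disjoint_empty_right _) j
    rw [hF G hG, hn, card_empty] at h
    have h2 : 2 * k + a - (k + 0) = k + a := by omega
    rw [h2] at h
    rw [← h]
    congr 1
    ext W
    simp [hP]
  have hsumy : ∑ W ∈ P, (F.filter fun B => Disjoint B W).card =
      F.card * (k + a).choose (k + j) := by
    simp only [card_filter]
    rw [sum_comm]
    rw [← smul_eq_mul, ← sum_const]
    refine sum_congr rfl fun B hB => ?_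
    rw [← card_filter]
    have h := e1_count ∅ B (disjoint_empty_left _) (k + j)
    rw [hF B hB, hn, card_empty] at h
    have h2 : 2 * k + a - (0 + k) = k + a := by omega
    rw [h2] at h
    rw [← h]
    congr 1
    ext W
    simp [hP]
  have hxy : dp F F * a.choose j ≤
      ∑ W ∈ P, (F.filter fun G => G ⊆ W).card * (F.filter fun B => Disjoint B W).card := by
    have h1 : ∀ W ∈ P, (F.filter fun G => G ⊆ W).card * (F.filter fun B => Disjoint B W).card =
        ((F ×ˢ F).filter fun p => p.1 ⊆ W ∧ Disjoint p.2 W).card := by
      intro W _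
      rw [← card_product, ← filter_product]
    rw [sum_congr rfl h1]
    simp only [card_filter]
    rw [sum_comm]
    unfold dp
    rw [card_filter, sum_mul]
    refine sum_le_sum fun p hp => ?_
    rw [mem_product] at hp
    split_ifs with hd
    · rw [one_mul, ← card_filter]
      have h := e1_count p.1 p.2 hd j
      rw [hF p.1 hp.1, hF p.2 hp.2, hn] at h
      have h2 : 2 * k + a - (k + k) = a := by omega
      rw [h2] at h
      rw [← h]
    · rw [zero_mul]
      exact Nat.zero_le _
  calc dp F F * a.choose j
      ≤ ∑ W ∈ P, (F.filter fun G => G ⊆ W).card * (F.filter fun B => Disjoint B W).card := hxy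
    _ ≤ ∑ W ∈ P, ((u - 1) * (F.filter fun B => Disjoint B W).card +
          (v - 1) * (F.filter fun G => G ⊆ W).card) := sum_le_sum fun W _ => hx W
    _ = (u - 1) * (F.card * (k + a).choose (k + j)) + (v - 1) * (F.card * (k + a).choose j) := by
        rw [sum_add_distrib, ← mul_sum, ← mul_sum, hsumx, hsumy]
    _ = F.card * ((u - 1) * (k + a).choose (k + j) + (v - 1) * (k + a).choose j) := by ring

end Pool.Agent.Lib.MP_fffc5a_co
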