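import Mathlib
import Pool.Agent.Lib.MP_fffc5a_co.Defs
import Pool.Agent.Lib.MP_fffc5a_co.PartAvg

/-!
The cases `n ≤ 2 k + 1` and `n = 2 k + 2`, `u = 2`.
-/

set_option autoImplicit false

open Finset

namespace Pool.Agent.Lib.MP_fffc5a_co

/-- Two or more distinct `k`-sets have at least `k + 1` elements in their union. -/
lemma two_union {α : Type*} [DecidableEq α] {k : ℕ} {T : Finset (Finset α)}
    (hT : ∀ s ∈ T, s.card = k) (h2 : 2 ≤ T.card) : k + 1 ≤ (T.biUnion id).card := by
  obtain ⟨s, hs, t, ht, hst⟩ := one_lt_card.1 (show 1 < T.card by omega)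
  by_contra hcon
  push Not at hcon
  have h1 : ∀ r ∈ T, r = T.biUnion id := by
    intro r hr
    refine eq_of_subset_of_card_le (subset_biUnion_of_mem id hr) ?_
    rw [hT r hr]
    omega
  exact hst ((h1 s hs).trans (h1 t ht).symm)

/-- For `|Y| ≤ 2 k + 1` all `k`-subsets of `Y` form a union-intersecting family. -/
lemma ui_of_small {α : Type*} [DecidableEq α] {u v k : ℕ} (hu : 2 ≤ u) (hv : 2 ≤ v)
    {Y : Finset α} (hY : Y.card ≤ 2 * k + 1) : UI u v (powersetCard k Y) := by
  intro A hA B hB hAu hBv hd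
  have h1 := two_union (k := k) (T := A) (fun s hs => (mem_powersetCard.1 (hA hs)).2) (by omega)
  have h2 := two_union (k := k) (T := B) (fun s hs => (mem_powersetCard.1 (hB hs)).2) (by omega)
  have h3 : (A.biUnion id) ∪ (B.biUnion id) ⊆ Y := by
    refine union_subset (biUnion_subset.2 fun s hs => ?_) (biUnion_subset.2 fun s hs => ?_)
    · exact (mem_powersetCard.1 (hA hs)).1
    · exact (mem_powersetCard.1 (hB hs)).1
  have h4 := card_le_card h3
  rw [card_union_of_disjoint hd] at h4
  omega

/-- The upper bound for `n = 2 k + 2`, `u = 2`. -/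
theorem bal_two {α : Type*} [Fintype α] [DecidableEq α] {k v : ℕ} (hv : 2 ≤ v)
    (hvk : 2 * (v - 1) ≤ k + 2) (hn : Fintype.card α = 2 * k + 2) {F : Finset (Finset α)}
    (hF : ∀ s ∈ F, s.card = k) (hUI : UI 2 v F) : F.card ≤ (2 * k + 1).choose k := by
  set P : Finset (Finset α) := powersetCard (k + 1) univ with hP
  have hsum : ∑ W ∈ P, (F.filter fun G => G ⊆ W).card = F.card * (k + 2) := by
    simp only [card_filter]
    rw [sum_comm, ← smul_eq_mul, ← sum_const]
    refine sum_congr rfl fun G hG => ?_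
    rw [← card_filter]
    have h := e1_count G ∅ (disjoint_empty_right _) 1
    rw [hF G hG, hn, card_empty] at h
    have h2 : 2 * k + 2 - (k + 0) = k + 2 := by omega
    rw [h2, Nat.choose_one_right] at h
    rw [← h]
    congr 1
    ext W
    simp [hP]
  have hsum' : ∑ W ∈ P, (F.filter fun G => G ⊆ Wᶜ).card = F.card * (k + 2) := by
    rw [← hsum]
    refine sum_bij' (fun W _ => Wᶜ) (fun W _ => Wᶜ) ?_ ?_ ?_ ?_ ?_
    · intro W hW
      rw [hP, mem_powersetCard] at hW ⊢
      exact ⟨subset_univ _, by rw [card_compl, hn, hW.2]; omega⟩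
    · intro W hW
      rw [hP, mem_powersetCard] at hW ⊢
      exact ⟨subset_univ _, by rw [card_compl, hn, hW.2]; omega⟩
    · intro W _
      exact compl_compl W
    · intro W _
      exact compl_compl W
    · intro W _
      rfl
  have hle : ∀ W ∈ P, (F.filter fun G => G ⊆ W).card + (F.filter fun G => G ⊆ Wᶜ).card ≤
      k + 2 := by
    intro W hW
    rw [hP, mem_powersetCard] at hW
    have hWc : Wᶜ.card = k + 1 := by rw [card_compl, hn, hW.2]; omega
    have hmax : ∀ X : Finset α, X.card = k + 1 → (F.filter fun G => G ⊆ X).card ≤ k + 1 := by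
      intro X hX
      have h1 : (F.filter fun G => G ⊆ X) ⊆ powersetCard k X := by
        intro G hG
        rw [mem_filter] at hG
        exact mem_powersetCard.2 ⟨hG.2, hF G hG.1⟩
      have h2 := card_le_card h1
      rw [card_powersetCard, hX, Nat.choose_succ_self_right] at h2
      exact h2
    have hno : ∀ X : Finset α, ¬ (2 ≤ (F.filter fun G => G ⊆ X).card ∧
        v ≤ (F.filter fun G => G ⊆ Xᶜ).card) := by
      rintro X ⟨h1, h2⟩
      obtain ⟨A, hA, hAc⟩ := exists_subset_card_eq h1
      obtain ⟨B, hB, hBc⟩ := exists_subset_card_eq h2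
      refine hUI A (hA.trans (filter_subset _ _)) B (hB.trans (filter_subset _ _)) hAc hBc ?_
      have h3 : A.biUnion id ⊆ X := biUnion_subset.2 fun s hs => (mem_filter.1 (hA hs)).2
      have h4 : B.biUnion id ⊆ Xᶜ := biUnion_subset.2 fun s hs => (mem_filter.1 (hB hs)).2
      exact disjoint_of_subset_left h3 (disjoint_of_subset_right h4 disjoint_compl_right)
    have h1 := hno W
    have h2 := hno Wᶜ
    rw [compl_compl] at h2
    have h3 := hmax W hW.2
    have h4 := hmax Wᶜ hWc
    omega
  have h1 : 2 * (F.card * (k + 2)) ≤ P.card * (k + 2) := by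
    calc 2 * (F.card * (k + 2)) = ∑ W ∈ P, ((F.filter fun G => G ⊆ W).card +
          (F.filter fun G => G ⊆ Wᶜ).card) := by
          rw [sum_add_distrib, hsum, hsum']; ring
      _ ≤ ∑ _W ∈ P, (k + 2) := sum_le_sum hle
      _ = P.card * (k + 2) := by rw [sum_const, smul_eq_mul]
  have h2 : P.card = 2 * (2 * k + 1).choose k := by
    rw [hP, card_powersetCard, card_univ, hn]
    have h3 : 2 * k + 2 = (2 * k + 1) + 1 := by omega
    rw [h3, Nat.choose_succ_succ]
    have h4 : (2 * k + 1).choose (k + 1) = (2 * k + 1).choose k := Nat.choose_symm_half k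
    rw [h4]
    ring
  rw [h2] at h1
  have h3 : F.card * (2 * (k + 2)) ≤ (2 * k + 1).choose k * (2 * (k + 2)) := by
    calc F.card * (2 * (k + 2)) = 2 * (F.card * (k + 2)) := by ring
      _ ≤ _ := h1
      _ = (2 * k + 1).choose k * (2 * (k + 2)) := by ring
  exact le_of_mul_le_mul_right h3 (by omega)

end Pool.Agent.Lib.MP_fffc5a_co
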