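import Mathlib
import Pool.Agent.Lib.MP_fffc5a_co.Defs
import Pool.Agent.Lib.MP_fffc5a_co.DefsH
import Pool.Agent.Lib.MP_fffc5a_co.DefsK

/-!
Hypercontractivity for polynomials of degree at most `d` on the cube.
-/

set_option autoImplicit false

open Finset

namespace Pool.Agent.Lib.MP_fffc5a_co

theorem k4_sum {n : ℕ} (G : (Fin (n + 1) → Bool) → ℝ) :
    ∑ x, G x = ∑ x : Fin n → Bool, (G (Fin.cons false x) + G (Fin.cons true x)) := by
  have h1 : ∑ x, G x = ∑ p : Bool × (Fin n → Bool), G (Fin.cons p.1 p.2) := by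
    symm
    exact Fintype.sum_equiv (Fin.consEquiv fun _ => Bool) _ _ fun p => rfl
  rw [h1, Fintype.sum_prod_type, Fintype.sum_bool, ← Finset.sum_add_distrib]
  refine Finset.sum_congr rfl fun x _ => ?_
  rw [add_comm]

/-- the coordinates of the smaller cube -/
def k4_sh {m : ℕ} (J : Finset (Fin (m + 1))) : Finset (Fin m) :=
  univ.filter fun i => i.succ ∈ J

theorem k4_card {m : ℕ} (J : Finset (Fin (m + 1))) : (k4_sh J).card ≤ (J.erase 0).card := by
  rw [← Finset.card_map ⟨Fin.succ, Fin.succ_injective m⟩]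
  refine Finset.card_le_card fun x hx => ?_
  rw [Finset.mem_map] at hx
  obtain ⟨i, hi, rfl⟩ := hx
  rw [k4_sh, Finset.mem_filter] at hi
  rw [Finset.mem_erase]
  exact ⟨Fin.succ_ne_zero i, hi.2⟩

theorem k4_agree {m : ℕ} {J : Finset (Fin (m + 1))} (b : Bool) {x y : Fin m → Bool}
    (h : ∀ i ∈ k4_sh J, x i = y i) :
    ∀ i ∈ J, (Fin.cons b x : Fin (m + 1) → Bool) i = (Fin.cons b y : Fin (m + 1) → Bool) i := by
  intro i hi
  refine Fin.cases (fun _ => ?_) (fun j hj => ?_) i hi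
  · rw [Fin.cons_zero, Fin.cons_zero]
  · rw [Fin.cons_succ, Fin.cons_succ]
    exact h j (by rw [k4_sh, Finset.mem_filter]; exact ⟨Finset.mem_univ _, hj⟩)

theorem k4_even {m d : ℕ} {f : (Fin (m + 1) → Bool) → ℝ} (hf : IsPoly (m + 1) d f) :
    IsPoly m d (fun y => (1 / 2) * f (Fin.cons false y) + (1 / 2) * f (Fin.cons true y)) := by
  unfold IsPoly at hf ⊢
  refine Submodule.span_induction (p := fun f _ =>
    (fun y : Fin m → Bool => (1 / 2 : ℝ) * f (Fin.cons false y) + (1 / 2) * f (Fin.cons true y)) ∈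
      Submodule.span ℝ {g : (Fin m → Bool) → ℝ | ∃ J : Finset (Fin m), J.card ≤ d ∧
        ∀ x y : Fin m → Bool, (∀ i ∈ J, x i = y i) → g x = g y}) ?_ ?_ ?_ ?_ hf
  · rintro g ⟨J, hJ, hg⟩
    refine Submodule.subset_span ⟨k4_sh J, (k4_card J).trans ((Finset.card_erase_le).trans hJ), ?_⟩
    intro x y hxy
    simp only
    rw [hg _ _ (k4_agree false hxy), hg _ _ (k4_agree true hxy)]
  · convert Submodule.zero_mem _ using 1
    ext y
    simp
  · intro a b _ _ ha hb
    convert Submodule.add_mem _ ha hb using 1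
    ext y
    simp only [Pi.add_apply]
    ring
  · intro c a _ ha
    convert Submodule.smul_mem _ c ha using 1
    ext y
    simp only [Pi.smul_apply, smul_eq_mul]
    ring

theorem k4_odd {m d : ℕ} {f : (Fin (m + 1) → Bool) → ℝ} (hf : IsPoly (m + 1) (d + 1) f) :
    IsPoly m d (fun y => (1 / 2) * f (Fin.cons true y) - (1 / 2) * f (Fin.cons false y)) := by
  unfold IsPoly at hf ⊢
  refine Submodule.span_induction (p := fun f _ =>
    (fun y : Fin m → Bool => (1 / 2 : ℝ) * f (Fin.cons true y) - (1 / 2) * f (Fin.cons false y)) ∈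
      Submodule.span ℝ {g : (Fin m → Bool) → ℝ | ∃ J : Finset (Fin m), J.card ≤ d ∧
        ∀ x y : Fin m → Bool, (∀ i ∈ J, x i = y i) → g x = g y}) ?_ ?_ ?_ ?_ hf
  · rintro g ⟨J, hJ, hg⟩
    by_cases h0 : (0 : Fin (m + 1)) ∈ J
    · refine Submodule.subset_span ⟨k4_sh J, ?_, ?_⟩
      · have := k4_card J
        rw [Finset.card_erase_of_mem h0] at this
        omega
      · intro x y hxy
        simp only
        rw [hg _ _ (k4_agree false hxy), hg _ _ (k4_agree true hxy)]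
    · convert Submodule.zero_mem _ using 1
      ext y
      have : g (Fin.cons true y) = g (Fin.cons false y) := by
        refine hg _ _ fun i hi => ?_
        refine Fin.cases (fun h => absurd h h0) (fun j _ => ?_) i hi
        rw [Fin.cons_succ, Fin.cons_succ]
      simp only [this, Pi.zero_apply]
      ring
  · convert Submodule.zero_mem _ using 1
    ext y
    simp
  · intro a b _ _ ha hb
    convert Submodule.add_mem _ ha hb using 1
    ext y
    simp only [Pi.add_apply]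
    ring
  · intro c a _ ha
    convert Submodule.smul_mem _ c ha using 1
    ext y
    simp only [Pi.smul_apply, smul_eq_mul]
    ring

theorem k4_const {m : ℕ} {f : (Fin m → Bool) → ℝ} (hf : IsPoly m 0 f) :
    ∀ x y, f x = f y := by
  unfold IsPoly at hf
  refine Submodule.span_induction (p := fun f _ => ∀ x y, f x = f y) ?_ ?_ ?_ ?_ hf
  · rintro g ⟨J, hJ, hg⟩ x y
    have hJ' : J = ∅ := Finset.card_eq_zero.mp (Nat.le_zero.mp hJ)
    refine hg x y fun i hi => ?_
    rw [hJ'] at hi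
    exact absurd hi (Finset.notMem_empty i)
  · intro x y
    rfl
  · intro a b _ _ ha hb x y
    simp only [Pi.add_apply, ha x y, hb x y]
  · intro c a _ ha x y
    simp only [Pi.smul_apply, ha x y]

theorem bonami_poly (m d : ℕ) {f : (Fin m → Bool) → ℝ} (hf : IsPoly m d f) :
    2 ^ m * ∑ x, f x ^ 4 ≤ 9 ^ d * (∑ x, f x ^ 2) ^ 2 := by
  induction m generalizing d with
  | zero =>
    simp only [Fintype.sum_unique, pow_zero, one_mul]
    have h9 : (1 : ℝ) ≤ 9 ^ d := one_le_pow₀ (by norm_num)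
    have h4 : (0 : ℝ) ≤ (f default ^ 2) ^ 2 := by positivity
    nlinarith
  | succ n ih =>
    set g : (Fin n → Bool) → ℝ :=
      fun y => (1 / 2) * f (Fin.cons false y) + (1 / 2) * f (Fin.cons true y) with hg
    set h : (Fin n → Bool) → ℝ :=
      fun y => (1 / 2) * f (Fin.cons true y) - (1 / 2) * f (Fin.cons false y) with hh
    have ihg : 2 ^ n * ∑ x, g x ^ 4 ≤ 9 ^ d * (∑ x, g x ^ 2) ^ 2 := ih d (k4_even hf)
    set G := ∑ x, (g x) ^ 2 with hG
    set H := ∑ x, (h x) ^ 2 with hH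
    have hG0 : 0 ≤ G := Finset.sum_nonneg fun x _ => sq_nonneg _
    have hH0 : 0 ≤ H := Finset.sum_nonneg fun x _ => sq_nonneg _
    have hFsum : ∑ x, (f x) ^ 2 = 2 * (G + H) := by
      rw [k4_sum, hG, hH, ← Finset.sum_add_distrib, Finset.mul_sum]
      refine Finset.sum_congr rfl fun x _ => ?_
      simp only [hg, hh]
      ring
    set X := ∑ x, (g x) ^ 2 * (h x) ^ 2 with hX
    have hLHS : ∑ x, (f x) ^ 4 = 2 * (∑ x, (g x) ^ 4 + 6 * X + ∑ x, (h x) ^ 4) := by
      rw [k4_sum, hX, Finset.mul_sum, ← Finset.sum_add_distrib,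
        ← Finset.sum_add_distrib, Finset.mul_sum]
      refine Finset.sum_congr rfl fun x _ => ?_
      simp only [hg, hh]
      ring
    have h5 : (2 : ℝ) ^ (n + 1) * (2 * (∑ x, (g x) ^ 4 + 6 * X + ∑ x, (h x) ^ 4)) =
        4 * ((2 ^ n * ∑ x, (g x) ^ 4) + 6 * (2 ^ n * X) + (2 ^ n * ∑ x, (h x) ^ 4)) := by ring
    rw [hFsum, hLHS, h5]
    cases d with
    | zero =>
      have hz : ∀ x, h x = 0 := by
        intro x
        have := k4_const hf (Fin.cons true x) (Fin.cons false x)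
        simp only [hh, this]
        ring
      have hX0 : X = 0 := by
        rw [hX]
        refine Finset.sum_eq_zero fun x _ => ?_
        rw [hz x]
        ring
      have hH4 : ∑ x, (h x) ^ 4 = 0 := by
        refine Finset.sum_eq_zero fun x _ => ?_
        rw [hz x]
        ring
      rw [hX0, hH4]
      simp only [pow_zero, one_mul] at ihg ⊢
      nlinarith [mul_nonneg hG0 hH0]
    | succ d =>
      have ihh : 2 ^ n * ∑ x, h x ^ 4 ≤ 9 ^ d * (∑ x, h x ^ 2) ^ 2 := ih d (k4_odd hf)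
      have hCS : ((2 : ℝ) ^ n * X) ^ 2 ≤ (3 ^ (d + 1) * 3 ^ d * (G * H)) ^ 2 := by
        have h1 := Finset.sum_mul_sq_le_sq_mul_sq univ (fun x => (g x) ^ 2)
          (fun x => (h x) ^ 2)
        have h2 : ∀ a : (Fin n → Bool) → ℝ, ∑ x, ((a x) ^ 2) ^ 2 = ∑ x, (a x) ^ 4 := by
          intro a
          refine Finset.sum_congr rfl fun x _ => ?_
          ring
        rw [h2, h2] at h1
        have hA0 : 0 ≤ (2 : ℝ) ^ n * ∑ x, (h x) ^ 4 := by positivity
        have e9 : (9 : ℝ) = 3 ^ 2 := by norm_num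
        calc ((2 : ℝ) ^ n * X) ^ 2 = 2 ^ n * 2 ^ n * X ^ 2 := by ring
          _ ≤ 2 ^ n * 2 ^ n * ((∑ x, (g x) ^ 4) * ∑ x, (h x) ^ 4) :=
            mul_le_mul_of_nonneg_left h1 (by positivity)
          _ = (2 ^ n * ∑ x, (g x) ^ 4) * (2 ^ n * ∑ x, (h x) ^ 4) := by ring
          _ ≤ (9 ^ (d + 1) * G ^ 2) * (9 ^ d * H ^ 2) := mul_le_mul ihg ihh hA0 (by positivity)
          _ = _ := by
            rw [e9, ← pow_mul, ← pow_mul]
            ring
      have hX2 : (2 : ℝ) ^ n * X ≤ 3 ^ (d + 1) * 3 ^ d * (G * H) := by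
        have hX0 : 0 ≤ X := Finset.sum_nonneg fun x _ => by positivity
        exact (pow_le_pow_iff_left₀ (by positivity) (by positivity) two_ne_zero).mp hCS
      have e3 : 6 * ((3 : ℝ) ^ (d + 1) * 3 ^ d * (G * H)) = 9 ^ (d + 1) * (2 * (G * H)) := by
        have e9 : (9 : ℝ) = 3 ^ 2 := by norm_num
        rw [e9, ← pow_mul]
        ring
      have h9 : (9 : ℝ) ^ d * H ^ 2 ≤ 9 ^ (d + 1) * H ^ 2 := by
        refine mul_le_mul_of_nonneg_right ?_ (sq_nonneg _)
        exact pow_le_pow_right₀ (by norm_num) (Nat.le_succ d)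
      have h8 : (9 : ℝ) ^ (d + 1) * (2 * (G + H)) ^ 2 =
          4 * (9 ^ (d + 1) * G ^ 2 + 9 ^ (d + 1) * (2 * (G * H)) + 9 ^ (d + 1) * H ^ 2) := by
        ring
      rw [h8]
      linarith

theorem cube_holder (m d : ℕ) {f g : (Fin m → Bool) → ℝ} (hg : IsPoly m d g)
    (hf : ∀ x, f x = 0 ∨ f x = 1) :
    2 ^ m * (∑ x, g x * f x) ^ 4 ≤ 9 ^ d * (∑ x, g x ^ 2) ^ 2 * (∑ x, f x) ^ 3 := by
  have hb := bonami_poly m d hg
  have hff : ∀ x, f x ^ 2 = f x := by
    intro x
    rcases hf x with h | h <;> rw [h] <;> norm_num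
  have hf0 : ∀ x, 0 ≤ f x := by
    intro x
    rcases hf x with h | h <;> rw [h] <;> norm_num
  set F := ∑ x, f x with hF
  have hF0 : 0 ≤ F := Finset.sum_nonneg fun x _ => hf0 x
  have h1 : (∑ x, g x * f x) ^ 2 ≤ (∑ x, g x ^ 2 * f x) * F := by
    have h := Finset.sum_mul_sq_le_sq_mul_sq univ (fun x => g x * f x) f
    have e1 : ∑ x, (fun x => g x * f x) x * f x = ∑ x, g x * f x := by
      refine Finset.sum_congr rfl fun x _ => ?_
      simp only
      rw [mul_assoc, ← pow_two, hff]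
    have e2 : ∑ x, ((fun x => g x * f x) x) ^ 2 = ∑ x, g x ^ 2 * f x := by
      refine Finset.sum_congr rfl fun x _ => ?_
      simp only
      rw [mul_pow, hff]
    have e3 : ∑ x, f x ^ 2 = F := by
      rw [hF]
      exact Finset.sum_congr rfl fun x _ => hff x
    rw [e1, e2, e3] at h
    exact h
  have h2 : (∑ x, g x ^ 2 * f x) ^ 2 ≤ (∑ x, g x ^ 4) * F := by
    have h := Finset.sum_mul_sq_le_sq_mul_sq univ (fun x => g x ^ 2) f
    have e2 : ∑ x, ((fun x => g x ^ 2) x) ^ 2 = ∑ x, g x ^ 4 := by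
      refine Finset.sum_congr rfl fun x _ => ?_
      simp only
      ring
    have e3 : ∑ x, f x ^ 2 = F := by
      rw [hF]
      exact Finset.sum_congr rfl fun x _ => hff x
    rw [e2, e3] at h
    exact h
  have h3 : (∑ x, g x * f x) ^ 4 ≤ (∑ x, g x ^ 4) * F ^ 3 := by
    calc (∑ x, g x * f x) ^ 4 = ((∑ x, g x * f x) ^ 2) ^ 2 := by ring
      _ ≤ ((∑ x, g x ^ 2 * f x) * F) ^ 2 := pow_le_pow_left₀ (sq_nonneg _) h1 2
      _ = (∑ x, g x ^ 2 * f x) ^ 2 * F ^ 2 := by ring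
      _ ≤ ((∑ x, g x ^ 4) * F) * F ^ 2 := mul_le_mul_of_nonneg_right h2 (sq_nonneg _)
      _ = (∑ x, g x ^ 4) * F ^ 3 := by ring
  calc 2 ^ m * (∑ x, g x * f x) ^ 4 ≤ 2 ^ m * ((∑ x, g x ^ 4) * F ^ 3) :=
        mul_le_mul_of_nonneg_left h3 (by positivity)
    _ = (2 ^ m * ∑ x, g x ^ 4) * F ^ 3 := by ring
    _ ≤ (9 ^ d * (∑ x, g x ^ 2) ^ 2) * F ^ 3 := mul_le_mul_of_nonneg_right hb (by positivity)

end Pool.Agent.Lib.MP_fffc5a_co
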