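import Mathlib
import Pool.Agent.Lib.MP_fffc5a_co.Defs
import Pool.Agent.Lib.MP_fffc5a_co.DefsC

set_option autoImplicit false

/-!
Double counting bound for wide families.
-/

open Finset

namespace Pool.Agent.Lib.MP_fffc5a_co

theorem code_bound {α : Type*} [DecidableEq α] {u k a h : ℕ} (hu : 1 ≤ u)
    {Y : Finset α} (hY : Y.card = k + a) {G : Finset (Finset α)}
    (hG : ∀ s ∈ G, s ⊆ Y ∧ s.card = k) (hW : ∀ T ⊆ G, T.card = u → k + a ≤ (T.biUnion id).card + h) :
    G.card * a.choose (h + 1) ≤ (u - 1) * (k + a).choose (h + 1) := by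
  classical
  have key := Finset.card_mul_le_card_mul (s := G) (t := powersetCard (h + 1) Y)
    (m := a.choose (h + 1)) (n := u - 1) (fun s Z => Disjoint s Z) ?_ ?_
  · rw [card_powersetCard, hY] at key
    calc G.card * a.choose (h + 1) ≤ (k + a).choose (h + 1) * (u - 1) := key
      _ = _ := mul_comm _ _
  · intro s hs
    obtain ⟨h1, h2⟩ := hG s hs
    have h3 : (Y \ s).card = a := by
      rw [card_sdiff_of_subset h1, hY, h2]
      omega
    rw [← h3, ← card_powersetCard]
    refine card_le_card fun Z hZ => ?_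
    rw [mem_powersetCard] at hZ
    rw [mem_bipartiteAbove, mem_powersetCard]
    refine ⟨⟨hZ.1.trans sdiff_subset, hZ.2⟩, ?_⟩
    exact (disjoint_sdiff (s := s) (t := Y)).mono_right hZ.1
  · intro Z hZ
    rw [mem_powersetCard] at hZ
    by_contra hcon
    have h4 : u ≤ (bipartiteBelow (fun s Z => Disjoint s Z) G Z).card := by omega
    obtain ⟨T, hT1, hT2⟩ := exists_subset_card_eq h4
    have hTG : T ⊆ G := fun s hs => ((mem_bipartiteBelow _).1 (hT1 hs)).1
    have h5 := hW T hTG hT2
    have h6 : T.biUnion id ⊆ Y \ Z := by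
      intro y hy
      rw [mem_biUnion] at hy
      obtain ⟨s, hs, hys⟩ := hy
      rw [mem_sdiff]
      refine ⟨(hG s (hTG hs)).1 hys, fun hyZ => ?_⟩
      exact (Finset.disjoint_left.1 ((mem_bipartiteBelow _).1 (hT1 hs)).2) hys hyZ
    have h7 := card_le_card h6
    rw [card_sdiff_of_subset hZ.1, hY, hZ.2] at h7
    have h8 := card_le_card hZ.1
    rw [hY, hZ.2] at h8
    omega

end Pool.Agent.Lib.MP_fffc5a_co
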