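import Mathlib
import Pool.Agent.Lib.MP_fffc5a_co.Defs
import Pool.Agent.Lib.MP_fffc5a_co.DefsC

set_option autoImplicit false

/-!
Lower bound: a star together with a wide family.
-/

open Finset

namespace Pool.Agent.Lib.MP_fffc5a_co

theorem code_lower {α : Type*} [Fintype α] [DecidableEq α] {u v k : ℕ} (hk : 1 ≤ k) (hu : 2 ≤ u)
    (huv : u ≤ v) {x : α} {E : Finset (Finset α)} (hE : ∀ s ∈ E, s.card = k ∧ x ∉ s)
    (hW : Wide u (Fintype.card α - k) E) :
    ∃ F : Finset (Finset α), (∀ s ∈ F, s.card = k) ∧ UI u v F ∧
      F.card = (Fintype.card α - 1).choose (k - 1) + E.card := by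
  have hYc : ((univ : Finset α).erase x).card = Fintype.card α - 1 := by
    rw [Finset.card_erase_of_mem (mem_univ x), Finset.card_univ]
  let S : Finset (Finset α) := (powersetCard (k - 1) ((univ : Finset α).erase x)).image (insert x)
  have hS : ∀ s ∈ S, x ∈ s ∧ s.card = k := by
    intro s hs
    simp only [S, mem_image, mem_powersetCard] at hs
    obtain ⟨t, ⟨ht1, ht2⟩, rfl⟩ := hs
    have hxt : x ∉ t := fun h => absurd (ht1 h) (Finset.notMem_erase x _)
    refine ⟨mem_insert_self x t, ?_⟩
    rw [card_insert_of_notMem hxt, ht2]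
    omega
  have hScard : S.card = (Fintype.card α - 1).choose (k - 1) := by
    rw [Finset.card_image_of_injOn, card_powersetCard, hYc]
    intro s hs t ht hst
    rw [mem_coe, mem_powersetCard] at hs ht
    have hxs : x ∉ s := fun h => absurd (hs.1 h) (Finset.notMem_erase x _)
    have hxt : x ∉ t := fun h => absurd (ht.1 h) (Finset.notMem_erase x _)
    have h1 : (insert x s).erase x = (insert x t).erase x := by rw [hst]
    rwa [Finset.erase_insert hxs, Finset.erase_insert hxt] at h1
  -- a family contained in `E` with at least `u` members, against a family with two members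
  have key : ∀ A B : Finset (Finset α), A ⊆ E → u ≤ A.card → B ⊆ S ∪ E → 2 ≤ B.card →
      ¬ Disjoint (A.biUnion id) (B.biUnion id) := by
    intro A B hA hAu hB hB2 hd
    obtain ⟨T, hTA, hTu⟩ := exists_subset_card_eq hAu
    have hTU := hW T (hTA.trans hA) hTu
    have hTAU : T.biUnion id ⊆ A.biUnion id := biUnion_subset_biUnion_of_subset_left _ hTA
    have hcard : ((A.biUnion id)ᶜ).card ≤ k := by
      have := card_le_card hTAU
      rw [Finset.card_compl]
      omega
    have hall : ∀ b ∈ B, b = (A.biUnion id)ᶜ := by
      intro b hb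
      have hbk : b.card = k := by
        rcases Finset.mem_union.1 (hB hb) with h | h
        · exact (hS b h).2
        · exact (hE b h).1
      apply Finset.eq_of_subset_of_card_le
      · intro y hy
        rw [mem_compl]
        intro hyE
        exact (Finset.disjoint_left.1 hd) hyE (mem_biUnion.2 ⟨b, hb, hy⟩)
      · rw [hbk]
        exact hcard
    have h1 : B.card ≤ 1 := by
      rw [Finset.card_le_one]
      intro a ha b hb
      rw [hall a ha, hall b hb]
    omega
  refine ⟨S ∪ E, ?_, ?_, ?_⟩
  · intro s hs
    rcases Finset.mem_union.1 hs with h | h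
    · exact (hS s h).2
    · exact (hE s h).1
  · intro A hA B hB hAu hBv
    by_cases h1 : A ⊆ E
    · exact key A B h1 (by omega) hB (by omega)
    · by_cases h2 : B ⊆ E
      · intro hd
        exact key B A h2 (by omega) hA (by omega) hd.symm
      · rw [Finset.not_subset] at h1 h2
        obtain ⟨a, ha, haE⟩ := h1
        obtain ⟨b, hb, hbE⟩ := h2
        have ha' : a ∈ S := (Finset.mem_union.1 (hA ha)).resolve_right haE
        have hb' : b ∈ S := (Finset.mem_union.1 (hB hb)).resolve_right hbE
        rw [Finset.not_disjoint_iff]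
        exact ⟨x, mem_biUnion.2 ⟨a, ha, (hS a ha').1⟩, mem_biUnion.2 ⟨b, hb, (hS b hb').1⟩⟩
  · rw [Finset.card_union_of_disjoint, hScard]
    rw [Finset.disjoint_left]
    intro s hs hsE
    exact (hE s hsE).2 (hS s hs).1

end Pool.Agent.Lib.MP_fffc5a_co
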