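import Mathlib
import Pool.Agent.Lib.MP_fffc5a_co.Defs
import Pool.Agent.Lib.MP_fffc5a_co.DefsC

/-!
Wide families with `u = 2` of at most three members.
-/

set_option autoImplicit false

open Finset

namespace Pool.Agent.Lib.MP_fffc5a_co

theorem e17_pair {α : Type*} [DecidableEq α] {w k : ℕ} {E : Finset (Finset α)}
    (hE : ∀ s ∈ E, s.card = k) (hW : Wide 2 w E) {A B : Finset α} (hA : A ∈ E) (hB : B ∈ E)
    (hAB : A ≠ B) : w + (A ∩ B).card ≤ 2 * k := by
  have h1 := hW {A, B} (by
    intro s hs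
    rcases Finset.mem_insert.1 hs with rfl | hs
    · exact hA
    · rw [Finset.mem_singleton.1 hs]
      exact hB) (Finset.card_pair hAB)
  have h2 : ({A, B} : Finset (Finset α)).biUnion id = A ∪ B := by
    rw [Finset.biUnion_insert, Finset.singleton_biUnion]
    rfl
  rw [h2] at h1
  have h3 := Finset.card_union_add_card_inter A B
  rw [hE A hA, hE B hB] at h3
  omega

theorem code_three_le {α : Type*} [DecidableEq α] {n k : ℕ} (hk : 1 ≤ k) (hn : 14 * k ≤ 5 * n)
    {Y : Finset α} (hY : Y.card < n) {E : Finset (Finset α)}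
    (hE : ∀ s ∈ E, s ⊆ Y ∧ s.card = k) (hW : Wide 2 (n - k) E) : E.card ≤ 3 := by
  by_contra hcon
  obtain ⟨T, hTE, hT⟩ := Finset.exists_subset_card_eq (show 4 ≤ E.card by omega)
  obtain ⟨D, T', hD, rfl, hT'⟩ := Finset.card_eq_succ.1 hT
  obtain ⟨A, B, C, hAB, hAC, hBC, rfl⟩ := Finset.card_eq_three.1 hT'
  have hDE : D ∈ E := hTE (by simp)
  have hAE : A ∈ E := hTE (by simp)
  have hBE : B ∈ E := hTE (by simp)
  have hCE : C ∈ E := hTE (by simp)
  simp only [Finset.mem_insert, Finset.mem_singleton, not_or] at hD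
  have hE' : ∀ s ∈ E, s.card = k := fun s hs => (hE s hs).2
  have p1 := e17_pair hE' hW hAE hBE hAB
  have p2 := e17_pair hE' hW hAE hCE hAC
  have p3 := e17_pair hE' hW hBE hCE hBC
  have p4 := e17_pair hE' hW hAE hDE (Ne.symm hD.1)
  have p5 := e17_pair hE' hW hBE hDE (Ne.symm hD.2.1)
  have p6 := e17_pair hE' hW hCE hDE (Ne.symm hD.2.2)
  have u1 := Finset.card_union_add_card_inter A B
  have u2 := Finset.card_union_add_card_inter (A ∪ B) C
  have u3 := Finset.card_union_add_card_inter (A ∪ B ∪ C) D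
  have i1 : ((A ∪ B) ∩ C).card ≤ (A ∩ C).card + (B ∩ C).card := by
    rw [Finset.union_inter_distrib_right]
    exact Finset.card_union_le _ _
  have i2 : ((A ∪ B ∪ C) ∩ D).card ≤ (A ∩ D).card + (B ∩ D).card + (C ∩ D).card := by
    rw [Finset.union_inter_distrib_right, Finset.union_inter_distrib_right]
    refine (Finset.card_union_le _ _).trans ?_
    exact Nat.add_le_add_right (Finset.card_union_le _ _) _
  have hsub : A ∪ B ∪ C ∪ D ⊆ Y :=
    Finset.union_subset (Finset.union_subset (Finset.union_subset (hE A hAE).1 (hE B hBE).1)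
      (hE C hCE).1) (hE D hDE).1
  have hle := Finset.card_le_card hsub
  rw [hE' A hAE, hE' B hBE] at u1
  rw [hE' C hCE] at u2
  rw [hE' D hDE] at u3
  omega

/-- An interval of `Fin m`. -/
def e17_I (m k a : ℕ) : Finset (Fin m) := univ.filter fun i => a ≤ i.val ∧ i.val < a + k

theorem e17_I_map (m k a : ℕ) (h : a + k ≤ m) :
    (e17_I m k a).map Fin.valEmbedding = Finset.Ico a (a + k) := by
  ext x
  simp only [Finset.mem_map, e17_I, Finset.mem_filter, Finset.mem_univ, true_and,
    Fin.valEmbedding_apply, Finset.mem_Ico]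
  constructor
  · rintro ⟨i, hi, rfl⟩
    exact hi
  · intro hx
    exact ⟨⟨x, by omega⟩, hx, rfl⟩

theorem e17_I_card (m k a : ℕ) (h : a + k ≤ m) : (e17_I m k a).card = k := by
  rw [← Finset.card_map Fin.valEmbedding, e17_I_map m k a h, Nat.card_Ico]
  omega

theorem e17_I_inter (m k a b : ℕ) (ha : a + k ≤ m) (hb : b + k ≤ m) :
    (e17_I m k a ∩ e17_I m k b).card = min (a + k) (b + k) - max a b := by
  rw [← Finset.card_map Fin.valEmbedding, Finset.map_inter, e17_I_map m k a ha,
    e17_I_map m k b hb, Finset.Ico_inter_Ico, Nat.card_Ico]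

theorem e17_I_ne (m k a b : ℕ) (hk : 1 ≤ k) (hab : a < b) (ha : a + k ≤ m) (hb : b + k ≤ m) :
    e17_I m k a ≠ e17_I m k b := by
  intro h
  have h1 := e17_I_inter m k a b ha hb
  rw [h, Finset.inter_self, e17_I_card m k b hb] at h1
  omega

theorem e17_union (m k a b : ℕ) (ha : a + k ≤ m) (hb : b + k ≤ m) :
    (e17_I m k a ∪ e17_I m k b).card = 2 * k - (min (a + k) (b + k) - max a b) := by
  have h := Finset.card_union_add_card_inter (e17_I m k a) (e17_I m k b)
  rw [e17_I_card m k a ha, e17_I_card m k b hb, e17_I_inter m k a b ha hb] at h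
  omega

theorem code_three_exists {n k : ℕ} (hn : 2 * k < n) (hn' : n < 3 * k) :
    ∃ E : Finset (Finset (Fin (n - 1))), (∀ s ∈ E, s.card = k) ∧ E.card = 3 ∧
      Wide 2 (n - k) E := by
  have hk : 2 ≤ k := by omega
  have b0 : 0 + k ≤ n - 1 := by omega
  have b1 : (n - 2 * k) + k ≤ n - 1 := by omega
  have b2 : (n - 1 - k) + k ≤ n - 1 := by omega
  have n1 := e17_I_ne (n - 1) k 0 (n - 2 * k) (by omega) (by omega) b0 b1
  have n2 := e17_I_ne (n - 1) k 0 (n - 1 - k) (by omega) (by omega) b0 b2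
  have n3 := e17_I_ne (n - 1) k (n - 2 * k) (n - 1 - k) (by omega) (by omega) b1 b2
  have c1 := e17_union (n - 1) k 0 (n - 2 * k) b0 b1
  have c2 := e17_union (n - 1) k 0 (n - 1 - k) b0 b2
  have c3 := e17_union (n - 1) k (n - 2 * k) (n - 1 - k) b1 b2
  refine ⟨{e17_I (n - 1) k 0, e17_I (n - 1) k (n - 2 * k), e17_I (n - 1) k (n - 1 - k)},
    ?_, ?_, ?_⟩
  · intro s hs
    simp only [Finset.mem_insert, Finset.mem_singleton] at hs
    rcases hs with rfl | rfl | rfl
    · exact e17_I_card _ _ _ b0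
    · exact e17_I_card _ _ _ b1
    · exact e17_I_card _ _ _ b2
  · exact Finset.card_eq_three.2 ⟨_, _, _, n1, n2, n3, rfl⟩
  · intro T hT hc
    obtain ⟨A, B, hAB, rfl⟩ := Finset.card_eq_two.1 hc
    have h2 : ({A, B} : Finset (Finset (Fin (n - 1)))).biUnion id = A ∪ B := by
      rw [Finset.biUnion_insert, Finset.singleton_biUnion]
      rfl
    rw [h2]
    have hA := hT (show A ∈ ({A, B} : Finset (Finset (Fin (n - 1)))) by simp)
    have hB := hT (show B ∈ ({A, B} : Finset (Finset (Fin (n - 1)))) by simp)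
    simp only [Finset.mem_insert, Finset.mem_singleton] at hA hB
    rcases hA with rfl | rfl | rfl <;> rcases hB with rfl | rfl | rfl
    · exact absurd rfl hAB
    · rw [c1]; omega
    · rw [c2]; omega
    · rw [Finset.union_comm, c1]; omega
    · exact absurd rfl hAB
    · rw [c3]; omega
    · rw [Finset.union_comm, c2]; omega
    · rw [Finset.union_comm, c3]; omega
    · exact absurd rfl hAB

end Pool.Agent.Lib.MP_fffc5a_co
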