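import Mathlib
import Pool.Agent.Lib.MP_fffc5a_co.Defs

/-!
Lower bound at `n ≤ (u + 1) k`: a star together with `u` sets whose union is large.
-/

set_option autoImplicit false

open Finset

namespace Pool.Agent.Lib.MP_fffc5a_co

/-- `j` distinct `k`-subsets of `Y` with a union of size at least `min (j * k) |Y|`. -/
theorem d2_exists_sets {α : Type*} [DecidableEq α] {k : ℕ} (hk : 1 ≤ k) {Y : Finset α}
    (hY : k + 1 ≤ Y.card) (j : ℕ) (hj : j ≤ k) :
    ∃ E : Finset (Finset α), (∀ s ∈ E, s ⊆ Y ∧ s.card = k) ∧ E.card = j ∧
      min (j * k) Y.card ≤ (E.biUnion id).card := by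
  induction j with
  | zero =>
    exact ⟨∅, by simp, by simp, by simp⟩
  | succ j ih =>
    obtain ⟨E, hE, hEj, hEU⟩ := ih (by omega)
    have hUY : E.biUnion id ⊆ Y := by
      intro y hy
      rw [mem_biUnion] at hy
      obtain ⟨s, hs, hy⟩ := hy
      exact (hE s hs).1 hy
    by_cases hU : E.biUnion id = Y
    · -- any new set
      have h1 : ¬ powersetCard k Y ⊆ E := by
        intro h
        have h2 := Finset.card_le_card h
        rw [card_powersetCard, hEj] at h2
        have h3 : (k + 1).choose k ≤ Y.card.choose k := Nat.choose_le_choose k hY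
        rw [Nat.choose_succ_self_right] at h3
        omega
      rw [Finset.not_subset] at h1
      obtain ⟨s, hs, hsE⟩ := h1
      rw [mem_powersetCard] at hs
      refine ⟨insert s E, ?_, ?_, ?_⟩
      · intro t ht
        rw [mem_insert] at ht
        rcases ht with rfl | ht
        · exact hs
        · exact hE t ht
      · rw [card_insert_of_notMem hsE, hEj]
      · refine (min_le_right _ _).trans ?_
        apply Finset.card_le_card
        rw [biUnion_insert, hU]
        exact subset_union_right
    · -- take as many new points as possible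
      have hW : (Y \ E.biUnion id).Nonempty := by
        rw [Finset.sdiff_nonempty]
        intro h
        exact hU (Finset.Subset.antisymm hUY h)
      have hWcard : (Y \ E.biUnion id).card = Y.card - (E.biUnion id).card :=
        Finset.card_sdiff_of_subset hUY
      obtain ⟨W', hW'1, hW'2⟩ := Finset.exists_subset_card_eq
        (show min k (Y \ E.biUnion id).card ≤ (Y \ E.biUnion id).card from min_le_right _ _)
      obtain ⟨s, hs1, hs2, hs3⟩ := Finset.exists_subsuperset_card_eq
        (hW'1.trans Finset.sdiff_subset) (show W'.card ≤ k by rw [hW'2]; exact min_le_left _ _)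
        (show k ≤ Y.card by omega)
      have hW'0 : W'.Nonempty := by
        rw [← Finset.card_pos, hW'2]
        have := hW.card_pos
        omega
      have hsE : s ∉ E := by
        intro h
        obtain ⟨y, hy⟩ := hW'0
        have h1 := hW'1 hy
        rw [mem_sdiff] at h1
        apply h1.2
        rw [mem_biUnion]
        exact ⟨s, h, hs1 hy⟩
      refine ⟨insert s E, ?_, ?_, ?_⟩
      · intro t ht
        rw [mem_insert] at ht
        rcases ht with rfl | ht
        · exact ⟨hs2, hs3⟩
        · exact hE t ht
      · rw [card_insert_of_notMem hsE, hEj]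
      · have h1 : W' ∪ E.biUnion id ⊆ (insert s E).biUnion id := by
          rw [biUnion_insert]
          exact Finset.union_subset_union_left hs1
        have h2 := Finset.card_le_card h1
        have h3 : Disjoint W' (E.biUnion id) := by
          rw [Finset.disjoint_left]
          intro y hy
          exact (mem_sdiff.1 (hW'1 hy)).2
        rw [Finset.card_union_of_disjoint h3, hW'2, hWcard] at h2
        have h4 : (E.biUnion id).card ≤ Y.card := Finset.card_le_card hUY
        have h5 : (j + 1) * k = j * k + k := by ring
        rw [h5]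
        omega

theorem lower_plus {α : Type*} [Fintype α] [DecidableEq α] {u v k : ℕ}
    (hu : 2 ≤ u) (huk : u ≤ k) (huv : u ≤ v) (hn : 2 * k ≤ Fintype.card α)
    (hn' : Fintype.card α ≤ (u + 1) * k) :
    ∃ F : Finset (Finset α), (∀ s ∈ F, s.card = k) ∧ UI u v F ∧
      F.card = (Fintype.card α - 1).choose (k - 1) + u := by
  have hα : Nonempty α := by
    rw [← Fintype.card_pos_iff]
    omega
  obtain ⟨x⟩ := hα
  have hYc : ((univ : Finset α).erase x).card = Fintype.card α - 1 := by
    rw [Finset.card_erase_of_mem (mem_univ x), Finset.card_univ]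
  obtain ⟨E, hE, hEu, hEU⟩ := d2_exists_sets (show 1 ≤ k by omega)
    (show k + 1 ≤ ((univ : Finset α).erase x).card by rw [hYc]; omega) u huk
  have hxE : ∀ s ∈ E, x ∉ s := by
    intro s hs hx
    exact absurd ((hE s hs).1 hx) (Finset.notMem_erase x _)
  have hEU' : Fintype.card α - k ≤ (E.biUnion id).card := by
    refine le_trans ?_ hEU
    rw [hYc]
    have h5 : (u + 1) * k = u * k + k := by ring
    rw [h5] at hn'
    omega
  let S : Finset (Finset α) := (powersetCard (k - 1) ((univ : Finset α).erase x)).image (insert x)
  have hS : ∀ s ∈ S, x ∈ s ∧ s.card = k := by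
    intro s hs
    simp only [S, mem_image, mem_powersetCard] at hs
    obtain ⟨t, ⟨ht1, ht2⟩, rfl⟩ := hs
    have hxt : x ∉ t := fun h => absurd (ht1 h) (Finset.notMem_erase x _)
    refine ⟨mem_insert_self x t, ?_⟩
    rw [card_insert_of_notMem hxt, ht2]
    omega
  have hScard : S.card = (Fintype.card α - 1).choose (k - 1) := by
    rw [Finset.card_image_of_injOn, card_powersetCard, hYc]
    intro s hs t ht hst
    rw [mem_coe, mem_powersetCard] at hs ht
    have hxs : x ∉ s := fun h => absurd (hs.1 h) (Finset.notMem_erase x _)
    have hxt : x ∉ t := fun h => absurd (ht.1 h) (Finset.notMem_erase x _)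
    have h1 : (insert x s).erase x = (insert x t).erase x := by rw [hst]
    rwa [Finset.erase_insert hxs, Finset.erase_insert hxt] at h1
  -- a family contained in `E` with at least `u` members, against a family with two members
  have key : ∀ A B : Finset (Finset α), A ⊆ E → u ≤ A.card → B ⊆ S ∪ E → 2 ≤ B.card →
      ¬ Disjoint (A.biUnion id) (B.biUnion id) := by
    intro A B hA hAu hB hB2 hd
    have hAE : A = E := Finset.eq_of_subset_of_card_le hA (by rw [hEu]; exact hAu)
    rw [hAE] at hd
    have hcard : ((E.biUnion id)ᶜ).card ≤ k := by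
      rw [Finset.card_compl]
      omega
    have hall : ∀ b ∈ B, b = (E.biUnion id)ᶜ := by
      intro b hb
      have hbk : b.card = k := by
        rcases Finset.mem_union.1 (hB hb) with h | h
        · exact (hS b h).2
        · exact (hE b h).2
      apply Finset.eq_of_subset_of_card_le
      · intro y hy
        rw [mem_compl]
        intro hyE
        exact (Finset.disjoint_left.1 hd) hyE (mem_biUnion.2 ⟨b, hb, hy⟩)
      · rw [hbk]
        exact hcard
    have h1 : B.card ≤ 1 := by
      rw [Finset.card_le_one]
      intro a ha b hb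
      rw [hall a ha, hall b hb]
    omega
  refine ⟨S ∪ E, ?_, ?_, ?_⟩
  · intro s hs
    rcases Finset.mem_union.1 hs with h | h
    · exact (hS s h).2
    · exact (hE s h).2
  · intro A hA B hB hAu hBv
    by_cases h1 : A ⊆ E
    · exact key A B h1 (by omega) hB (by omega)
    · by_cases h2 : B ⊆ E
      · intro hd
        exact key B A h2 (by omega) hA (by omega) hd.symm
      · rw [Finset.not_subset] at h1 h2
        obtain ⟨a, ha, haE⟩ := h1
        obtain ⟨b, hb, hbE⟩ := h2
        have ha' : a ∈ S := (Finset.mem_union.1 (hA ha)).resolve_right haE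
        have hb' : b ∈ S := (Finset.mem_union.1 (hB hb)).resolve_right hbE
        rw [Finset.not_disjoint_iff]
        exact ⟨x, mem_biUnion.2 ⟨a, ha, (hS a ha').1⟩, mem_biUnion.2 ⟨b, hb, (hS b hb').1⟩⟩
  · rw [Finset.card_union_of_disjoint, hScard, hEu]
    rw [Finset.disjoint_left]
    intro s hs hsE
    exact hxE s hsE (hS s hs).1

end Pool.Agent.Lib.MP_fffc5a_co
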