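import Mathlib
import Pool.Agent.Lib.MP_fffc5a_co.Defs

set_option autoImplicit false

open Finset

namespace Pool.Agent.Lib.MP_fffc5a_co

lemma b3_inter {α : Type*} [DecidableEq α] {G G' Y : Finset α} (hG : G ⊆ Y) :
    ∑ y ∈ Y, (if y ∈ G then (1 : ℤ) else 0) * (if y ∈ G' then (1 : ℤ) else 0)
      = ((G ∩ G').card : ℤ) := by
  have h1 : ∀ y ∈ Y, (if y ∈ G then (1 : ℤ) else 0) * (if y ∈ G' then (1 : ℤ) else 0)
      = if y ∈ G ∩ G' then (1 : ℤ) else 0 := by
    intro y _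
    by_cases h : y ∈ G <;> by_cases h' : y ∈ G' <;> simp [h, h']
  rw [Finset.sum_congr rfl h1, Finset.sum_boole, Finset.filter_mem_eq_inter,
    Finset.inter_eq_right.2 (Finset.inter_subset_left.trans hG)]

lemma b3_card {α : Type*} [DecidableEq α] {G Y : Finset α} (hG : G ⊆ Y) :
    ∑ y ∈ Y, (if y ∈ G then (1 : ℤ) else 0) = (G.card : ℤ) := by
  rw [Finset.sum_boole, Finset.filter_mem_eq_inter, Finset.inter_eq_right.2 hG]

theorem overlap {α : Type*} [DecidableEq α] {k : ℕ} (hk : 1 ≤ k) {E : Finset (Finset α)}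
    {Y : Finset α} (hE : ∀ s ∈ E, s.card = k ∧ s ⊆ Y) (he : k + 2 ≤ 2 * E.card) :
    ∃ G ∈ E, ∃ G' ∈ E, G ≠ G' ∧ k ^ 2 ≤ ((G ∩ G').card + 2) * Y.card := by
  by_contra hcon
  push Not at hcon
  set d : α → ℤ := fun y => ∑ G ∈ E, (if y ∈ G then (1 : ℤ) else 0) with hd
  have h1 : ∑ y ∈ Y, d y = E.card * k := by
    have e1 : ∀ G ∈ E, ∑ y ∈ Y, (if y ∈ G then (1 : ℤ) else 0) = (k : ℤ) := by
      intro G hG
      rw [b3_card (hE G hG).2, (hE G hG).1]
    rw [hd, Finset.sum_comm, Finset.sum_congr rfl e1, Finset.sum_const, nsmul_eq_mul]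
  have h2 : ∑ G ∈ E, ∑ G' ∈ E, ((G ∩ G').card : ℤ) = ∑ y ∈ Y, d y ^ 2 := by
    have e1 : ∀ y ∈ Y, d y ^ 2 = ∑ G ∈ E, ∑ G' ∈ E,
        (if y ∈ G then (1 : ℤ) else 0) * (if y ∈ G' then (1 : ℤ) else 0) := by
      intro y _
      rw [pow_two, hd, Finset.sum_mul_sum]
    rw [Finset.sum_congr rfl e1]
    symm
    rw [Finset.sum_comm]
    refine Finset.sum_congr rfl fun G hG => ?_
    rw [Finset.sum_comm]
    refine Finset.sum_congr rfl fun G' _ => ?_
    exact b3_inter (hE G hG).2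
  have h3 : (∑ y ∈ Y, d y) ^ 2 ≤ Y.card * ∑ y ∈ Y, d y ^ 2 := sq_sum_le_card_mul_sum_sq
  have h4 : ∀ G ∈ E, ∑ G' ∈ E, ((G ∩ G').card : ℤ)
      = k + ∑ G' ∈ E.erase G, ((G ∩ G').card : ℤ) := by
    intro G hG
    rw [← Finset.add_sum_erase E _ hG, Finset.inter_self, (hE G hG).1]
  have h5 : ∀ G ∈ E, (Y.card : ℤ) * ∑ G' ∈ E.erase G, ((G ∩ G').card : ℤ)
      ≤ (E.card - 1) * ((k : ℤ) ^ 2 - 1 - 2 * Y.card) := by
    intro G hG
    rw [Finset.mul_sum]
    have h6 : ∀ G' ∈ E.erase G, (Y.card : ℤ) * ((G ∩ G').card : ℤ)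
        ≤ (k : ℤ) ^ 2 - 1 - 2 * Y.card := by
      intro G' hG'
      rw [Finset.mem_erase] at hG'
      have h7 := hcon G hG G' hG'.2 (Ne.symm hG'.1)
      have h8 : (((G ∩ G').card : ℤ) + 2) * Y.card < (k : ℤ) ^ 2 := by exact_mod_cast h7
      linarith
    have h9 := Finset.sum_le_sum h6
    rw [Finset.sum_const, Finset.card_erase_of_mem hG, nsmul_eq_mul] at h9
    have h10 : 1 ≤ E.card := Finset.card_pos.2 ⟨G, hG⟩
    rw [Nat.cast_sub h10, Nat.cast_one] at h9
    exact h9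
  have h6 : (Y.card : ℤ) * ∑ y ∈ Y, d y ^ 2
      ≤ E.card * (Y.card * k + (E.card - 1) * ((k : ℤ) ^ 2 - 1 - 2 * Y.card)) := by
    rw [← h2, Finset.mul_sum]
    have h7 : ∀ G ∈ E, (Y.card : ℤ) * ∑ G' ∈ E, ((G ∩ G').card : ℤ)
        ≤ Y.card * k + (E.card - 1) * ((k : ℤ) ^ 2 - 1 - 2 * Y.card) := by
      intro G hG
      rw [h4 G hG, mul_add]
      have := h5 G hG
      linarith
    have h9 := Finset.sum_le_sum h7
    rwa [Finset.sum_const, nsmul_eq_mul] at h9
  rw [h1] at h3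
  have h7 : ((E.card : ℤ) * k) ^ 2
      ≤ E.card * (Y.card * k + (E.card - 1) * ((k : ℤ) ^ 2 - 1 - 2 * Y.card)) := h3.trans h6
  have h8 : (0 : ℤ) < E.card := by
    have : 0 < E.card := by omega
    exact_mod_cast this
  have h9 : (E.card : ℤ) * k ^ 2
      ≤ Y.card * k + (E.card - 1) * ((k : ℤ) ^ 2 - 1 - 2 * Y.card) := by
    refine le_of_mul_le_mul_left ?_ h8
    calc (E.card : ℤ) * (E.card * k ^ 2) = ((E.card : ℤ) * k) ^ 2 := by ring
      _ ≤ _ := h7
  have h10 : (0 : ℤ) ≤ 2 * (E.card - 1) - k := by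
    have : (k : ℤ) + 2 ≤ 2 * E.card := by exact_mod_cast he
    linarith
  have h11 : (0 : ℤ) ≤ Y.card := Int.natCast_nonneg _
  have h12 : (1 : ℤ) ≤ k := by exact_mod_cast hk
  have h13 : (0 : ℤ) ≤ Y.card * (2 * (E.card - 1) - k) := mul_nonneg h11 h10
  nlinarith

theorem union_le {α : Type*} [DecidableEq α] {k : ℕ} {T : Finset (Finset α)}
    (hT : ∀ s ∈ T, s.card = k) {G G' : Finset α} (hG : G ∈ T) (hG' : G' ∈ T) (hne : G ≠ G') :
    (T.biUnion id).card + (G ∩ G').card ≤ T.card * k := by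
  have hG'2 : G' ∈ T.erase G := Finset.mem_erase.2 ⟨hne.symm, hG'⟩
  have h1 : T.biUnion id ⊆ (G ∪ G') ∪ ((T.erase G).erase G').biUnion id := by
    intro x hx
    rw [Finset.mem_biUnion] at hx
    obtain ⟨s, hs, hxs⟩ := hx
    rw [Finset.mem_union, Finset.mem_union, Finset.mem_biUnion]
    by_cases h : s = G
    · exact Or.inl (Or.inl (h ▸ hxs))
    · by_cases h' : s = G'
      · exact Or.inl (Or.inr (h' ▸ hxs))
      · exact Or.inr ⟨s, Finset.mem_erase.2 ⟨h', Finset.mem_erase.2 ⟨h, hs⟩⟩, hxs⟩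
  have h2 : (((T.erase G).erase G').biUnion id).card ≤ ((T.erase G).erase G').card * k := by
    refine Finset.card_biUnion_le_card_mul _ _ _ fun s hs => ?_
    exact (hT s (Finset.mem_of_mem_erase (Finset.mem_of_mem_erase hs))).le
  have h3 := Finset.card_union_add_card_inter G G'
  rw [hT G hG, hT G' hG'] at h3
  have h4 : ((T.erase G).erase G').card + 2 = T.card := by
    rw [Finset.card_erase_of_mem hG'2, Finset.card_erase_of_mem hG]
    have h5 : 1 < T.card := Finset.one_lt_card.2 ⟨G, hG, G', hG', hne⟩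
    omega
  have h5 := (Finset.card_le_card h1).trans (Finset.card_union_le _ _)
  rw [← h4, add_mul]
  omega

/-- if every `u` members of `E` have a union of size at least `u * k`, then `|E| * k ≤ |Y|` -/
theorem card_mul_le_of_unions {α : Type*} [DecidableEq α] {u k : ℕ} (hu : 2 ≤ u)
    {E : Finset (Finset α)} {Y : Finset α} (hE : ∀ s ∈ E, s.card = k ∧ s ⊆ Y)
    (hEu : u ≤ E.card) (h : ∀ T ⊆ E, T.card = u → u * k ≤ (T.biUnion id).card) :
    E.card * k ≤ Y.card := by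
  have h1 : (E : Set (Finset α)).PairwiseDisjoint id := by
    intro G hG G' hG' hne
    have hsub : ({G, G'} : Finset (Finset α)) ⊆ E := by
      intro s hs
      rw [Finset.mem_insert, Finset.mem_singleton] at hs
      rcases hs with rfl | rfl
      · exact hG
      · exact hG'
    obtain ⟨T, hT1, hT2, hT3⟩ := Finset.exists_subsuperset_card_eq hsub
      (by rw [Finset.card_pair hne]; exact hu) hEu
    have h2 := union_le (k := k) (fun s hs => (hE s (hT2 hs)).1)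
      (hT1 (Finset.mem_insert_self G _))
      (hT1 (Finset.mem_insert_of_mem (Finset.mem_singleton_self G'))) hne
    have h3 := h T hT2 hT3
    rw [hT3] at h2
    have h4 : (G ∩ G').card = 0 := by omega
    rw [Finset.card_eq_zero] at h4
    exact Finset.disjoint_iff_inter_eq_empty.2 h4
  have h2 : (E.biUnion id).card = E.card * k := by
    rw [Finset.card_biUnion (fun s hs t ht hst => h1 hs ht hst), Finset.sum_const_nat]
    intro s hs
    exact (hE s hs).1
  rw [← h2]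
  refine Finset.card_le_card ?_
  intro x hx
  rw [Finset.mem_biUnion] at hx
  obtain ⟨s, hs, hxs⟩ := hx
  exact (hE s hs).2 hxs

end Pool.Agent.Lib.MP_fffc5a_co
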