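import Mathlib
import Pool.Agent.Lib.MP_fffc5a_co.Defs
import Pool.Agent.Lib.MP_fffc5a_co.DefsC
import Pool.Agent.Lib.MP_fffc5a_co.LowerPlus
import Pool.Agent.Lib.MP_fffc5a_co.Overlap

/-!
Values of the constant weight code numbers at and beyond `u * k`.
-/

set_option autoImplicit false

open Finset

namespace Pool.Agent.Lib.MP_fffc5a_co

theorem code_card_lt {α : Type*} [DecidableEq α] {u w k : ℕ} {E : Finset (Finset α)}
    (hE : ∀ s ∈ E, s.card = k) (hW : Wide u w E) (huw : u * k < w) : E.card ≤ u - 1 := by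
  by_contra hno
  obtain ⟨T, hT, hTu⟩ := Finset.exists_subset_card_eq (show u ≤ E.card by omega)
  have h1 := hW T hT hTu
  have h2 : (T.biUnion id).card ≤ T.card * k :=
    Finset.card_biUnion_le_card_mul _ _ _ fun s hs => (hE s (hT hs)).le
  rw [hTu] at h2
  omega

theorem code_card_eq {α : Type*} [DecidableEq α] {u k : ℕ} (hu : 2 ≤ u) (hk : 1 ≤ k)
    {Y : Finset α} (hY : Y.card < (u + 1) * k) {E : Finset (Finset α)}
    (hE : ∀ s ∈ E, s ⊆ Y ∧ s.card = k) (hW : Wide u (u * k) E) : E.card ≤ u := by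
  rcases Nat.lt_or_ge E.card u with h | h
  · exact h.le
  · have h1 := card_mul_le_of_unions hu (fun s hs => ⟨(hE s hs).2, (hE s hs).1⟩) h hW
    have h2 : E.card < u + 1 := Nat.lt_of_mul_lt_mul_right (h1.trans_lt hY)
    omega

theorem code_exists {α : Type*} [DecidableEq α] {u k : ℕ} (hu : 1 ≤ u) (huk : u ≤ k)
    {Y : Finset α} (hY : k + 1 ≤ Y.card) :
    ∃ E : Finset (Finset α), (∀ s ∈ E, s ⊆ Y ∧ s.card = k) ∧ E.card = u ∧
      Wide u (min (u * k) Y.card) E := by
  obtain ⟨E, hE, hEu, hEU⟩ := d2_exists_sets (hu.trans huk) hY u huk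
  refine ⟨E, hE, hEu, fun T hT hTu => ?_⟩
  have h1 : T = E := Finset.eq_of_subset_of_card_le hT (by rw [hTu, hEu])
  rw [h1]
  exact hEU

end Pool.Agent.Lib.MP_fffc5a_co
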