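import Mathlib
import Pool.Agent.Lib.MP_fffc5a_co.Defs
import Pool.Agent.Lib.MP_fffc5a_co.DefsH
import Pool.Agent.Lib.MP_fffc5a_co.DefsK

/-!
Sums over all permutations of functions of one or two members of a random cube.
-/

set_option autoImplicit false

open Finset

namespace Pool.Agent.Lib.MP_fffc5a_co

/-- the number of permutations which map the fibres of `f` to the fibres of `f'` -/
private theorem k5_count {α ι : Type*} [Fintype α] [DecidableEq α] [Fintype ι] [DecidableEq ι]
    (f f' : α → ι)
    (h : ∀ i, Fintype.card {a // f a = i} = Fintype.card {a // f' a = i}) :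
    (univ.filter fun σ : Equiv.Perm α => ∀ x, f' (σ x) = f x).card =
      ∏ i, (Fintype.card {a // f a = i}).factorial := by
  classical
  -- a permutation with `f' ∘ τ = f`
  obtain ⟨τ, hτ⟩ : ∃ τ : Equiv.Perm α, ∀ x, f' (τ x) = f x := by
    let e : ∀ i, {a // f a = i} ≃ {a // f' a = i} := fun i => Fintype.equivOfCardEq (h i)
    refine ⟨(Equiv.sigmaFiberEquiv f).symm.trans
      ((Equiv.sigmaCongrRight e).trans (Equiv.sigmaFiberEquiv f')), fun x => ?_⟩
    exact (e (f x) ⟨x, rfl⟩).2
  rw [← DomMulAct.stabilizer_card f, Fintype.card_subtype]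
  symm
  apply Finset.card_bij (fun σ _ => τ * σ)
  · intro σ hσ
    rw [mem_filter] at hσ ⊢
    refine ⟨mem_univ _, fun x => ?_⟩
    rw [Equiv.Perm.mul_apply, hτ]
    exact congrFun hσ.2 x
  · intro σ _ σ' _ h
    exact mul_left_cancel h
  · intro σ hσ
    rw [mem_filter] at hσ
    refine ⟨τ⁻¹ * σ, ?_, mul_inv_cancel_left τ σ⟩
    rw [mem_filter]
    refine ⟨mem_univ _, ?_⟩
    funext x
    rw [Function.comp_apply, ← hτ, Equiv.Perm.mul_apply]
    simp [hσ.2]

private theorem k5_map_iff {β : Type*} [DecidableEq β] (σ : Equiv.Perm β) (S Z : Finset β) :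
    (∀ x, (σ x ∈ Z ↔ x ∈ S)) ↔ S.map σ.toEmbedding = Z := by
  constructor
  · intro h
    ext y
    rw [mem_map]
    constructor
    · rintro ⟨x, hx, rfl⟩
      exact (h x).mpr hx
    · intro hy
      refine ⟨σ.symm y, ?_, by simp⟩
      rw [← h]
      simpa using hy
  · intro h x
    rw [← h]
    exact mem_map' σ.toEmbedding

private theorem k5_one {β : Type*} [Fintype β] [DecidableEq β] {r : ℕ} {S Z : Finset β}
    (hS : S.card = r) (hZ : Z.card = r) :
    (univ.filter fun σ : Equiv.Perm β => S.map σ.toEmbedding = Z).card =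
      r.factorial * (Fintype.card β - r).factorial := by
  classical
  have h1 : ∀ A : Finset β, A.card = r → ∀ b : Bool,
      Fintype.card {a // (decide (a ∈ A)) = b} = if b then r else Fintype.card β - r := by
    intro A hA b
    rw [Fintype.card_subtype]
    cases b
    · simp only [decide_eq_false_iff_not, Bool.false_eq_true, if_false]
      rw [← hA, ← card_compl]
      congr 1
      ext x
      simp
    · simp only [decide_eq_true_eq, if_true]
      rw [← hA]
      congr 1
      ext x
      simp
  have h2 := k5_count (fun x => decide (x ∈ S)) (fun x => decide (x ∈ Z)) (by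
    intro i
    rw [h1 S hS, h1 Z hZ])
  rw [Fintype.prod_bool, h1 S hS, h1 S hS] at h2
  simp only [if_true, Bool.false_eq_true, if_false] at h2
  rw [← h2]
  congr 1
  ext σ
  simp only [mem_filter, mem_univ, true_and, decide_eq_decide]
  exact (k5_map_iff σ S Z).symm

private theorem k5_two {β : Type*} [Fintype β] [DecidableEq β] {r s : ℕ} {S S' Z Z' : Finset β}
    (hS : S.card = r) (hS' : S'.card = r) (hZ : Z.card = r) (hZ' : Z'.card = r)
    (h1 : (S \ S').card = s) (h2 : (Z \ Z').card = s) :
    (univ.filter fun σ : Equiv.Perm β => S.map σ.toEmbedding = Z ∧ S'.map σ.toEmbedding = Z').card =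
      (r - s).factorial * s.factorial * (s.factorial * (Fintype.card β - r - s).factorial) := by
  classical
  have h3 : ∀ A A' : Finset β, A.card = r → A'.card = r → (A \ A').card = s → ∀ b : Bool × Bool,
      Fintype.card {a // (decide (a ∈ A), decide (a ∈ A')) = b} =
        if b.1 then (if b.2 then r - s else s) else (if b.2 then s else Fintype.card β - r - s) := by
    rintro A A' hA hA' hAA ⟨b, b'⟩
    have e1 := card_sdiff_add_card_inter A A'
    have e2 := card_sdiff_add_card_inter A' A
    rw [inter_comm A' A] at e2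
    rw [Fintype.card_subtype]
    cases b <;> cases b' <;>
      simp only [Prod.mk.injEq, decide_eq_false_iff_not, decide_eq_true_eq, Bool.false_eq_true,
        if_false, if_true]
    · have e3 : (univ.filter fun x => x ∉ A ∧ x ∉ A') = (A ∪ A')ᶜ := by
        ext x
        simp
      rw [e3, card_compl]
      have e4 := card_union_add_card_inter A A'
      omega
    · have e3 : (univ.filter fun x => x ∉ A ∧ x ∈ A') = A' \ A := by
        ext x
        simp [and_comm]
      rw [e3]
      omega
    · have e3 : (univ.filter fun x => x ∈ A ∧ x ∉ A') = A \ A' := by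
        ext x
        simp
      rw [e3, hAA]
    · have e3 : (univ.filter fun x => x ∈ A ∧ x ∈ A') = A ∩ A' := by
        ext x
        simp
      rw [e3]
      omega
  have h4 := k5_count (fun x => (decide (x ∈ S), decide (x ∈ S')))
    (fun x => (decide (x ∈ Z), decide (x ∈ Z'))) (by
    intro i
    rw [h3 S S' hS hS' h1, h3 Z Z' hZ hZ' h2])
  rw [Fintype.prod_prod_type, Fintype.prod_bool, Fintype.prod_bool, Fintype.prod_bool,
    h3 S S' hS hS' h1, h3 S S' hS hS' h1, h3 S S' hS hS' h1, h3 S S' hS hS' h1] at h4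
  simp only [if_true, Bool.false_eq_true, if_false] at h4
  rw [← h4]
  congr 1
  ext σ
  simp only [mem_filter, mem_univ, true_and, Prod.mk.injEq, decide_eq_decide]
  rw [forall_and, k5_map_iff, k5_map_iff]

private theorem k5_cset_map {β : Type*} [DecidableEq β] {r : ℕ} (e : Fin r × Bool → β)
    (σ : Equiv.Perm β) (δ : Fin r → Bool) :
    cset (fun q => σ (e q)) δ = (cset e δ).map σ.toEmbedding := by
  unfold cset
  ext y
  simp only [mem_image, mem_univ, true_and, mem_map, Equiv.coe_toEmbedding]
  constructor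
  · rintro ⟨p, rfl⟩
    exact ⟨e (p, δ p), ⟨p, rfl⟩, rfl⟩
  · rintro ⟨x, ⟨p, rfl⟩, rfl⟩
    exact ⟨p, rfl⟩

private theorem k5_cset_card {β : Type*} [DecidableEq β] {r : ℕ} {e : Fin r × Bool → β}
    (he : Function.Injective e) (δ : Fin r → Bool) : (cset e δ).card = r := by
  unfold cset
  rw [card_image_of_injective _ (fun p p' h => (Prod.mk.inj (he h)).1), card_univ,
    Fintype.card_fin]

private theorem k5_cset_sdiff {β : Type*} [DecidableEq β] {r : ℕ} {e : Fin r × Bool → β}
    (he : Function.Injective e) (δ δ' : Fin r → Bool) :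
    (cset e δ \ cset e δ').card = (univ.filter fun p => δ p ≠ δ' p).card := by
  have h1 : cset e δ \ cset e δ' =
      (univ.filter fun p => δ p ≠ δ' p).image fun p => e (p, δ p) := by
    unfold cset
    ext y
    simp only [mem_sdiff, mem_image, mem_univ, true_and, mem_filter]
    constructor
    · rintro ⟨⟨p, rfl⟩, h2⟩
      refine ⟨p, ?_, rfl⟩
      intro h3
      exact h2 ⟨p, by rw [h3]⟩
    · rintro ⟨p, h2, rfl⟩
      refine ⟨⟨p, rfl⟩, ?_⟩
      rintro ⟨p', h3⟩
      have h4 := Prod.mk.inj (he h3)
      apply h2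
      rw [← h4.2, h4.1]
  rw [h1, card_image_of_injective _ (fun p p' h => (Prod.mk.inj (he h)).1)]

theorem cube_single {β : Type*} [Fintype β] [DecidableEq β] {r : ℕ} {e : Fin r × Bool → β}
    (he : Function.Injective e) (φ : Finset β → ℝ) (δ : Fin r → Bool) :
    ∑ σ : Equiv.Perm β, φ (cset (fun q => σ (e q)) δ) =
      r.factorial * (Fintype.card β - r).factorial * ∑ Z ∈ powersetCard r univ, φ Z := by
  classical
  have hS := k5_cset_card he δ
  have h1 : ∀ σ ∈ (univ : Finset (Equiv.Perm β)),
      (cset e δ).map σ.toEmbedding ∈ powersetCard r (univ : Finset β) := by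
    intro σ _
    rw [mem_powersetCard, card_map]
    exact ⟨subset_univ _, hS⟩
  have h2 : ∑ σ : Equiv.Perm β, φ (cset (fun q => σ (e q)) δ) =
      ∑ σ : Equiv.Perm β, φ ((cset e δ).map σ.toEmbedding) :=
    sum_congr rfl fun σ _ => by rw [k5_cset_map]
  rw [h2, ← sum_fiberwise_of_maps_to h1, mul_sum]
  refine sum_congr rfl fun Z hZ => ?_
  have h3 : ∀ σ ∈ univ.filter (fun σ : Equiv.Perm β => (cset e δ).map σ.toEmbedding = Z),
      φ ((cset e δ).map σ.toEmbedding) = φ Z := by
    intro σ hσ
    rw [mem_filter] at hσ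
    rw [hσ.2]
  rw [sum_congr rfl h3, sum_const, nsmul_eq_mul, k5_one hS (mem_powersetCard.mp hZ).2]
  push_cast
  ring

private theorem k5_pair {β : Type*} [Fintype β] [DecidableEq β] {r : ℕ} {e : Fin r × Bool → β}
    (he : Function.Injective e) (Φ : Finset β → Finset β → ℝ) (δ δ' : Fin r → Bool) :
    ∑ σ : Equiv.Perm β, Φ (cset (fun q => σ (e q)) δ) (cset (fun q => σ (e q)) δ') =
      ∑ Z ∈ powersetCard r univ, ∑ Z' ∈ powersetCard r univ,
        if (univ.filter fun p => δ p ≠ δ' p).card = (Z \ Z').card then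
          (((r - (Z \ Z').card).factorial * (Z \ Z').card.factorial * ((Z \ Z').card.factorial *
            (Fintype.card β - r - (Z \ Z').card).factorial) : ℕ) : ℝ) * Φ Z Z' else 0 := by
  classical
  have hS := k5_cset_card he δ
  have hS' := k5_cset_card he δ'
  have hd := k5_cset_sdiff he δ δ'
  have h1 : ∀ σ ∈ (univ : Finset (Equiv.Perm β)),
      ((cset e δ).map σ.toEmbedding, (cset e δ').map σ.toEmbedding) ∈
        powersetCard r (univ : Finset β) ×ˢ powersetCard r (univ : Finset β) := by
    intro σ _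
    rw [mem_product, mem_powersetCard, mem_powersetCard, card_map, card_map]
    exact ⟨⟨subset_univ _, hS⟩, ⟨subset_univ _, hS'⟩⟩
  have h2 : ∑ σ : Equiv.Perm β, Φ (cset (fun q => σ (e q)) δ) (cset (fun q => σ (e q)) δ') =
      ∑ σ : Equiv.Perm β, Φ ((cset e δ).map σ.toEmbedding) ((cset e δ').map σ.toEmbedding) :=
    sum_congr rfl fun σ _ => by rw [k5_cset_map, k5_cset_map]
  rw [h2, ← sum_fiberwise_of_maps_to h1, sum_product]
  refine sum_congr rfl fun Z hZ => sum_congr rfl fun Z' hZ' => ?_
  have h3 : ∀ σ ∈ univ.filter (fun σ : Equiv.Perm β =>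
      ((cset e δ).map σ.toEmbedding, (cset e δ').map σ.toEmbedding) = (Z, Z')),
      Φ ((cset e δ).map σ.toEmbedding) ((cset e δ').map σ.toEmbedding) = Φ Z Z' := by
    intro σ hσ
    rw [mem_filter, Prod.mk.injEq] at hσ
    rw [hσ.2.1, hσ.2.2]
  rw [sum_congr rfl h3, sum_const, nsmul_eq_mul]
  have h4 : (univ.filter (fun σ : Equiv.Perm β =>
      ((cset e δ).map σ.toEmbedding, (cset e δ').map σ.toEmbedding) = (Z, Z'))) =
      univ.filter (fun σ : Equiv.Perm β =>
        (cset e δ).map σ.toEmbedding = Z ∧ (cset e δ').map σ.toEmbedding = Z') := by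
    ext σ
    simp only [mem_filter, Prod.mk.injEq]
  rw [h4]
  split_ifs with h5
  · rw [k5_two hS hS' (mem_powersetCard.mp hZ).2 (mem_powersetCard.mp hZ').2
      (hd.trans h5) rfl]
  · have h6 : (univ.filter (fun σ : Equiv.Perm β =>
        (cset e δ).map σ.toEmbedding = Z ∧ (cset e δ').map σ.toEmbedding = Z')) = ∅ := by
      rw [filter_eq_empty_iff]
      rintro σ _ ⟨h7, h8⟩
      apply h5
      rw [← hd, ← h7, ← h8, ← Finset.map_sdiff, card_map]
    rw [h6, card_empty, Nat.cast_zero, zero_mul]

private theorem k5_ham (r s : ℕ) : ∑ δ : Fin r → Bool, ∑ δ' : Fin r → Bool,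
    (if (univ.filter fun p => δ p ≠ δ' p).card = s then (1 : ℝ) else 0) = 2 ^ r * r.choose s := by
  classical
  have h1 : ∀ δ : Fin r → Bool, ∑ δ' : Fin r → Bool,
      (if (univ.filter fun p => δ p ≠ δ' p).card = s then (1 : ℝ) else 0) = r.choose s := by
    intro δ
    rw [sum_boole]
    norm_cast
    have h2 : (powersetCard s (univ : Finset (Fin r))).card = r.choose s := by
      rw [card_powersetCard, card_univ, Fintype.card_fin]
    rw [← h2]
    apply card_bij (fun δ' _ => univ.filter fun p => δ p ≠ δ' p)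
    · intro δ' hδ'
      rw [mem_filter] at hδ'
      rw [mem_powersetCard]
      exact ⟨subset_univ _, hδ'.2⟩
    · intro δ₁ _ δ₂ _ h3
      funext p
      have h4 := Finset.ext_iff.mp h3 p
      simp only [mem_filter, mem_univ, true_and] at h4
      revert h4
      cases δ p <;> cases δ₁ p <;> cases δ₂ p <;> simp
    · intro D hD
      rw [mem_powersetCard] at hD
      refine ⟨fun p => if p ∈ D then !(δ p) else δ p, ?_, ?_⟩
      · rw [mem_filter]
        refine ⟨mem_univ _, ?_⟩
        rw [← hD.2]
        congr 1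
        ext p
        simp only [mem_filter, mem_univ, true_and]
        by_cases h5 : p ∈ D <;> simp [h5]
      · ext p
        simp only [mem_filter, mem_univ, true_and]
        by_cases h5 : p ∈ D <;> simp [h5]
  rw [sum_congr rfl (fun δ _ => h1 δ), sum_const, card_univ, Fintype.card_fun, Fintype.card_bool,
    Fintype.card_fin, nsmul_eq_mul]
  push_cast
  rfl

theorem cube_pairs {β : Type*} [Fintype β] [DecidableEq β] {r : ℕ} {e : Fin r × Bool → β}
    (he : Function.Injective e) (Φ : Finset β → Finset β → ℝ) :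
    ∑ σ : Equiv.Perm β, ∑ δ : Fin r → Bool, ∑ δ' : Fin r → Bool,
      Φ (cset (fun q => σ (e q)) δ) (cset (fun q => σ (e q)) δ') =
      2 ^ r * r.factorial * ∑ Z ∈ powersetCard r univ, ∑ Z' ∈ powersetCard r univ,
        ((Z \ Z').card.factorial : ℝ) * (Fintype.card β - r - (Z \ Z').card).factorial *
          Φ Z Z' := by
  classical
  rw [sum_comm]
  have h1 : ∀ δ ∈ (univ : Finset (Fin r → Bool)), ∑ σ : Equiv.Perm β, ∑ δ' : Fin r → Bool,
      Φ (cset (fun q => σ (e q)) δ) (cset (fun q => σ (e q)) δ') =
      ∑ δ' : Fin r → Bool, ∑ Z ∈ powersetCard r univ, ∑ Z' ∈ powersetCard r univ,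
        if (univ.filter fun p => δ p ≠ δ' p).card = (Z \ Z').card then
          (((r - (Z \ Z').card).factorial * (Z \ Z').card.factorial * ((Z \ Z').card.factorial *
            (Fintype.card β - r - (Z \ Z').card).factorial) : ℕ) : ℝ) * Φ Z Z' else 0 := by
    intro δ _
    rw [sum_comm]
    exact sum_congr rfl fun δ' _ => k5_pair he Φ δ δ'
  rw [sum_congr rfl h1]
  have h2 : ∑ δ : Fin r → Bool, ∑ δ' : Fin r → Bool, ∑ Z ∈ powersetCard r (univ : Finset β),
      ∑ Z' ∈ powersetCard r (univ : Finset β),
        (if (univ.filter fun p => δ p ≠ δ' p).card = (Z \ Z').card then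
          (((r - (Z \ Z').card).factorial * (Z \ Z').card.factorial * ((Z \ Z').card.factorial *
            (Fintype.card β - r - (Z \ Z').card).factorial) : ℕ) : ℝ) * Φ Z Z' else 0) =
      ∑ Z ∈ powersetCard r (univ : Finset β), ∑ Z' ∈ powersetCard r (univ : Finset β),
        ∑ δ : Fin r → Bool, ∑ δ' : Fin r → Bool,
        (if (univ.filter fun p => δ p ≠ δ' p).card = (Z \ Z').card then
          (((r - (Z \ Z').card).factorial * (Z \ Z').card.factorial * ((Z \ Z').card.factorial *
            (Fintype.card β - r - (Z \ Z').card).factorial) : ℕ) : ℝ) * Φ Z Z' else 0) := by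
    have h3 : ∀ δ ∈ (univ : Finset (Fin r → Bool)),
        ∑ δ' : Fin r → Bool, ∑ Z ∈ powersetCard r (univ : Finset β),
      ∑ Z' ∈ powersetCard r (univ : Finset β),
        (if (univ.filter fun p => δ p ≠ δ' p).card = (Z \ Z').card then
          (((r - (Z \ Z').card).factorial * (Z \ Z').card.factorial * ((Z \ Z').card.factorial *
            (Fintype.card β - r - (Z \ Z').card).factorial) : ℕ) : ℝ) * Φ Z Z' else 0) =
        ∑ Z ∈ powersetCard r (univ : Finset β), ∑ Z' ∈ powersetCard r (univ : Finset β),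
        ∑ δ' : Fin r → Bool,
        (if (univ.filter fun p => δ p ≠ δ' p).card = (Z \ Z').card then
          (((r - (Z \ Z').card).factorial * (Z \ Z').card.factorial * ((Z \ Z').card.factorial *
            (Fintype.card β - r - (Z \ Z').card).factorial) : ℕ) : ℝ) * Φ Z Z' else 0) := by
      intro δ _
      rw [sum_comm]
      exact sum_congr rfl fun Z _ => sum_comm
    rw [sum_congr rfl h3, sum_comm]
    exact sum_congr rfl fun Z _ => sum_comm
  rw [h2, mul_sum]
  refine sum_congr rfl fun Z hZ => ?_
  rw [mul_sum]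
  refine sum_congr rfl fun Z' hZ' => ?_
  have hs : (Z \ Z').card ≤ r := by
    rw [← (mem_powersetCard.mp hZ).2]
    exact card_le_card sdiff_subset
  set s := (Z \ Z').card with hsdef
  have h4 : ∀ δ ∈ (univ : Finset (Fin r → Bool)), ∀ δ' ∈ (univ : Finset (Fin r → Bool)),
      (if (univ.filter fun p => δ p ≠ δ' p).card = s then
          (((r - s).factorial * s.factorial * (s.factorial *
            (Fintype.card β - r - s).factorial) : ℕ) : ℝ) * Φ Z Z' else 0) =
      (if (univ.filter fun p => δ p ≠ δ' p).card = s then (1 : ℝ) else 0) *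
        ((((r - s).factorial * s.factorial * (s.factorial *
            (Fintype.card β - r - s).factorial) : ℕ) : ℝ) * Φ Z Z') := by
    intro δ _ δ' _
    split_ifs
    · rw [one_mul]
    · rw [zero_mul]
  rw [sum_congr rfl (fun δ hδ => sum_congr rfl (h4 δ hδ))]
  simp only [← sum_mul]
  rw [k5_ham]
  have h5 : r.choose s * s.factorial * (r - s).factorial = r.factorial :=
    Nat.choose_mul_factorial_mul_factorial hs
  have h6 : (r.factorial : ℝ) = r.choose s * s.factorial * (r - s).factorial := by
    exact_mod_cast h5.symm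
  rw [h6]
  push_cast
  ring

end Pool.Agent.Lib.MP_fffc5a_co
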