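import Mathlib
import Pool.Agent.Lib.MP_fffc5a_co.Defs
import Pool.Agent.Lib.MP_fffc5a_co.DefsH
import Pool.Agent.Lib.MP_fffc5a_co.DefsK

/-! The iterated up operator as a sum over subsets. -/

set_option autoImplicit false

open Finset

namespace Pool.Agent.Lib.MP_fffc5a_co

theorem up_iter_formula {β : Type*} [DecidableEq β] (ψ : Finset β → ℝ) (m d : ℕ)
    (Z : Finset β) (hZ : Z.card = d + m) :
    (Up^[m] ψ) Z = m.factorial * ∑ J ∈ powersetCard d Z, ψ J := by
  induction m generalizing Z with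
  | zero =>
    rw [Nat.add_zero] at hZ
    rw [← hZ, powersetCard_self]
    simp
  | succ m ih =>
    rw [Function.iterate_succ_apply']
    have h1 : Up (Up^[m] ψ) Z =
        ∑ z ∈ Z, m.factorial * ∑ J ∈ powersetCard d (Z.erase z), ψ J := by
      unfold Up
      refine sum_congr rfl fun z hz => ?_
      exact ih _ (by rw [card_erase_of_mem hz, hZ]; omega)
    have h2 : ∑ z ∈ Z, ∑ J ∈ powersetCard d (Z.erase z), ψ J =
        ∑ J ∈ powersetCard d Z, ∑ z ∈ Z \ J, ψ J := by
      refine sum_comm' fun z J => ?_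
      rw [mem_powersetCard, mem_powersetCard, mem_sdiff]
      constructor
      · rintro ⟨hz, hJ, hc⟩
        exact ⟨⟨hz, fun h => (mem_erase.1 (hJ h)).1 rfl⟩, hJ.trans (erase_subset _ _), hc⟩
      · rintro ⟨⟨hz, hzJ⟩, hJ, hc⟩
        exact ⟨hz, fun a ha => mem_erase.2 ⟨fun h => hzJ (h ▸ ha), hJ ha⟩, hc⟩
    have h3 : ∑ J ∈ powersetCard d Z, ∑ z ∈ Z \ J, ψ J =
        (m + 1 : ℝ) * ∑ J ∈ powersetCard d Z, ψ J := by
      rw [mul_sum]
      refine sum_congr rfl fun J hJ => ?_
      rw [mem_powersetCard] at hJ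
      have h4 : (Z \ J).card = m + 1 := by
        rw [card_sdiff_of_subset hJ.1, hZ, hJ.2]
        omega
      rw [sum_const, h4, nsmul_eq_mul]
      push_cast
      ring
    rw [h1, ← mul_sum, h2, h3, Nat.factorial_succ]
    push_cast
    ring

end Pool.Agent.Lib.MP_fffc5a_co
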