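import Mathlib
import Pool.Agent.Lib.MP_fffc5a_co.Defs
import Pool.Agent.Lib.MP_fffc5a_co.DefsH
import Pool.Agent.Lib.MP_fffc5a_co.DefsK
import Pool.Agent.Lib.MP_fffc5a_co.UpFormula

/-!
The restriction to a cube of a function in the range of the iterated up operator is a polynomial
of low degree.
-/

set_option autoImplicit false

open Finset

namespace Pool.Agent.Lib.MP_fffc5a_co

theorem cube_poly {β : Type*} [DecidableEq β] {r d : ℕ} (hdr : d ≤ r)
    {e : Fin r × Bool → β} (he : Function.Injective e) (ψ : Finset β → ℝ) :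
    IsPoly r d (fun δ => (Up^[r - d] ψ) (cset e δ)) := by
  have hinj : ∀ δ : Fin r → Bool, Function.Injective fun p : Fin r => e (p, δ p) := by
    intro δ p q hpq
    exact (Prod.ext_iff.mp (he hpq)).1
  have hcs : ∀ δ : Fin r → Bool, cset e δ = univ.map ⟨fun p => e (p, δ p), hinj δ⟩ := by
    intro δ
    rw [Finset.map_eq_image]
    rfl
  have hval : (fun δ : Fin r → Bool => (Up^[r - d] ψ) (cset e δ)) =
      fun δ => ((r - d).factorial : ℝ) *
        ∑ T ∈ powersetCard d (univ : Finset (Fin r)), ψ (T.image fun p => e (p, δ p)) := by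
    funext δ
    have hcard : (cset e δ).card = d + (r - d) := by
      rw [hcs δ, Finset.card_map, Finset.card_univ, Fintype.card_fin]
      omega
    rw [up_iter_formula ψ (r - d) d _ hcard, hcs δ, Finset.powersetCard_map, Finset.sum_map]
    congr 1
    refine Finset.sum_congr rfl fun T _ => ?_
    congr 1
    change T.map _ = _
    rw [Finset.map_eq_image]
    rfl
  unfold IsPoly
  rw [hval]
  have hsum : (fun δ : Fin r → Bool => ((r - d).factorial : ℝ) *
        ∑ T ∈ powersetCard d (univ : Finset (Fin r)), ψ (T.image fun p => e (p, δ p))) =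
      ((r - d).factorial : ℝ) • ∑ T ∈ powersetCard d (univ : Finset (Fin r)),
        (fun δ : Fin r → Bool => ψ (T.image fun p => e (p, δ p))) := by
    funext δ
    simp only [Pi.smul_apply, Finset.sum_apply, smul_eq_mul]
  rw [hsum]
  refine Submodule.smul_mem _ _ (Submodule.sum_mem _ fun T hT => Submodule.subset_span ?_)
  refine ⟨T, (Finset.mem_powersetCard.mp hT).2.le, fun x y hxy => ?_⟩
  have h1 : (T.image fun p => e (p, x p)) = T.image fun p => e (p, y p) := by
    refine Finset.image_congr fun p hp => ?_
    rw [hxy p hp]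
  simp only
  rw [h1]

end Pool.Agent.Lib.MP_fffc5a_co
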