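import Mathlib
import Pool.Agent.Lib.MP_fffc5a_co.Defs
import Pool.Agent.Lib.MP_fffc5a_co.DefsC
import Pool.Agent.Lib.MP_fffc5a_co.DefsH
import Pool.Agent.Lib.MP_fffc5a_co.DefsK
import Pool.Agent.Lib.MP_fffc5a_co.CubePairs

/-!
Second moment of the number of members of a family in a random cube.
-/

set_option autoImplicit false

open Finset

namespace Pool.Agent.Lib.MP_fffc5a_co

/-- The number of `r`-sets at distance `s` from `Z`. -/
theorem k7_count {β : Type*} [Fintype β] [DecidableEq β] {r c : ℕ}
    (hN : Fintype.card β = 2 * r + c) {A : Finset (Finset β)} (hA : ∀ s ∈ A, s.card = r)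
    {Z : Finset β} (hZ : Z.card = r) (s : ℕ) :
    (A.filter (fun Z' => (Z \ Z').card = s)).card ≤ r.choose s * (r + c).choose s := by
  have h1 : (A.filter (fun Z' => (Z \ Z').card = s)).card ≤
      (powersetCard s Z ×ˢ powersetCard s Zᶜ).card := by
    refine card_le_card_of_injOn (fun Z' => (Z \ Z', Z' \ Z)) ?_ ?_
    · intro Z' hZ'
      rw [mem_coe, mem_filter] at hZ'
      rw [mem_coe, mem_product, mem_powersetCard, mem_powersetCard]
      refine ⟨⟨sdiff_subset, hZ'.2⟩, ?_, ?_⟩
      · intro x hx
        rw [mem_sdiff] at hx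
        exact mem_compl.mpr hx.2
      · have h2 : (Z' \ Z).card = (Z \ Z').card := card_sdiff_comm (by rw [hA Z' hZ'.1, hZ])
        rw [h2, hZ'.2]
    · intro X hX Y hY hXY
      simp only [Prod.mk.injEq] at hXY
      have e1 : ∀ W : Finset β, W = (Z \ (Z \ W)) ∪ (W \ Z) := by
        intro W
        ext x
        simp only [mem_union, mem_sdiff]
        tauto
      rw [e1 X, e1 Y, hXY.1, hXY.2]
  rw [card_product, card_powersetCard, card_powersetCard, hZ, card_compl, hZ, hN] at h1
  have e : 2 * r + c - r = r + c := by omega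
  rwa [e] at h1

/-- The sum over the members of `A` for one fixed member. -/
theorem k7_one {β : Type*} [Fintype β] [DecidableEq β] {r c : ℕ}
    (hN : Fintype.card β = 2 * r + c)
    {A : Finset (Finset β)} (hA : ∀ s ∈ A, s.card = r) {θ M : ℝ} (hθ : 0 < θ)
    (hbad : ∑ s ∈ (range (r + 1)).filter (fun s : ℕ =>
      ¬ θ * ((2 * r + c).choose r : ℝ) ≤ 2 ^ r * ((r + c).choose s : ℝ)), (r.choose s : ℝ) ≤
      2 ^ r / M) {Z : Finset β} (hZ : Z.card = r) :
    ∑ Z' ∈ A, ((Z \ Z').card.factorial : ℝ) * (r + c - (Z \ Z').card).factorial ≤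
      (r + c).factorial * 2 ^ r * (A.card / (θ * (2 * r + c).choose r) + 1 / M) := by
  set P : ℕ → Prop := fun s => θ * ((2 * r + c).choose r : ℝ) ≤ 2 ^ r * ((r + c).choose s : ℝ) with hP
  classical
  have hC : (0 : ℝ) < ((2 * r + c).choose r : ℝ) := by
    exact_mod_cast Nat.choose_pos (by omega)
  have hle : ∀ Z' : Finset β, (Z \ Z').card ≤ r := fun Z' => by
    rw [← hZ]
    exact card_le_card sdiff_subset
  have hfac : ∀ s ≤ r + c, ((r + c).choose s : ℝ) * (s.factorial * (r + c - s).factorial) =
      (r + c).factorial := by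
    intro s hs
    have := Nat.choose_mul_factorial_mul_factorial hs
    rw [← mul_assoc]
    exact_mod_cast this
  rw [← sum_filter_add_sum_filter_not A (fun Z' => P (Z \ Z').card)]
  have hgood : ∑ Z' ∈ A.filter (fun Z' => P (Z \ Z').card),
      ((Z \ Z').card.factorial : ℝ) * (r + c - (Z \ Z').card).factorial ≤
      A.card * ((r + c).factorial * 2 ^ r / (θ * (2 * r + c).choose r)) := by
    have h1 : ∀ Z' ∈ A.filter (fun Z' => P (Z \ Z').card),
        ((Z \ Z').card.factorial : ℝ) * (r + c - (Z \ Z').card).factorial ≤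
        (r + c).factorial * 2 ^ r / (θ * (2 * r + c).choose r) := by
      intro Z' hZ'
      have hp := (mem_filter.mp hZ').2
      rw [hP] at hp
      set s := (Z \ Z').card with hs
      have hs2 : s ≤ r + c := (hle Z').trans (by omega)
      have h2 := hfac s hs2
      rw [le_div_iff₀ (by positivity)]
      have h3 : (0 : ℝ) ≤ (s.factorial : ℝ) * (r + c - s).factorial := by positivity
      calc (s.factorial : ℝ) * (r + c - s).factorial * (θ * (2 * r + c).choose r)
          ≤ (s.factorial : ℝ) * (r + c - s).factorial * (2 ^ r * (r + c).choose s) :=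
            mul_le_mul_of_nonneg_left hp h3
        _ = ((r + c).choose s : ℝ) * (s.factorial * (r + c - s).factorial) * 2 ^ r := by ring
        _ = (r + c).factorial * 2 ^ r := by rw [h2]
    calc ∑ Z' ∈ A.filter (fun Z' => P (Z \ Z').card),
          ((Z \ Z').card.factorial : ℝ) * (r + c - (Z \ Z').card).factorial
        ≤ ∑ Z' ∈ A.filter (fun Z' => P (Z \ Z').card),
          ((r + c).factorial * 2 ^ r / (θ * (2 * r + c).choose r) : ℝ) := sum_le_sum h1
      _ = (A.filter (fun Z' => P (Z \ Z').card)).card *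
          ((r + c).factorial * 2 ^ r / (θ * (2 * r + c).choose r) : ℝ) := by
          rw [sum_const, nsmul_eq_mul]
      _ ≤ _ := by
          refine mul_le_mul_of_nonneg_right ?_ (by positivity)
          exact_mod_cast card_filter_le _ _
  have hbad2 : ∑ Z' ∈ A.filter (fun Z' => ¬ P (Z \ Z').card),
      ((Z \ Z').card.factorial : ℝ) * (r + c - (Z \ Z').card).factorial ≤
      (r + c).factorial * (2 ^ r / M) := by
    have h1 : ∑ Z' ∈ A.filter (fun Z' => ¬ P (Z \ Z').card),
        ((Z \ Z').card.factorial : ℝ) * (r + c - (Z \ Z').card).factorial =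
        ∑ s ∈ (range (r + 1)).filter (fun s => ¬ P s),
          ∑ Z' ∈ (A.filter (fun Z' => ¬ P (Z \ Z').card)).filter (fun Z' => (Z \ Z').card = s),
            ((Z \ Z').card.factorial : ℝ) * (r + c - (Z \ Z').card).factorial := by
      symm
      apply sum_fiberwise_of_maps_to
      intro Z' hZ'
      rw [mem_filter, mem_range]
      exact ⟨Nat.lt_succ_of_le (hle Z'), (mem_filter.mp hZ').2⟩
    rw [h1]
    have h2 : ∀ s ∈ (range (r + 1)).filter (fun s => ¬ P s),
        ∑ Z' ∈ (A.filter (fun Z' => ¬ P (Z \ Z').card)).filter (fun Z' => (Z \ Z').card = s),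
            ((Z \ Z').card.factorial : ℝ) * (r + c - (Z \ Z').card).factorial ≤
          (r + c).factorial * (r.choose s : ℝ) := by
      intro s hs
      have hs1 : s ≤ r := by
        have := mem_range.mp (mem_filter.mp hs).1
        omega
      have h3 : ∑ Z' ∈ (A.filter (fun Z' => ¬ P (Z \ Z').card)).filter (fun Z' => (Z \ Z').card = s),
            ((Z \ Z').card.factorial : ℝ) * (r + c - (Z \ Z').card).factorial =
          ((A.filter (fun Z' => ¬ P (Z \ Z').card)).filter (fun Z' => (Z \ Z').card = s)).card *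
            ((s.factorial : ℝ) * (r + c - s).factorial) := by
        rw [← nsmul_eq_mul, ← sum_const]
        refine sum_congr rfl fun Z' hZ' => ?_
        rw [(mem_filter.mp hZ').2]
      rw [h3]
      have h4 : (((A.filter (fun Z' => ¬ P (Z \ Z').card)).filter
          (fun Z' => (Z \ Z').card = s)).card : ℝ) ≤ r.choose s * (r + c).choose s := by
        have h5 : ((A.filter (fun Z' => ¬ P (Z \ Z').card)).filter
          (fun Z' => (Z \ Z').card = s)).card ≤ (A.filter (fun Z' => (Z \ Z').card = s)).card := by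
          apply card_le_card
          intro Z' hZ'
          rw [mem_filter, mem_filter] at hZ'
          exact mem_filter.mpr ⟨hZ'.1.1, hZ'.2⟩
        exact_mod_cast h5.trans (k7_count hN hA hZ s)
      calc (((A.filter (fun Z' => ¬ P (Z \ Z').card)).filter (fun Z' => (Z \ Z').card = s)).card : ℝ) *
            ((s.factorial : ℝ) * (r + c - s).factorial)
          ≤ (r.choose s * (r + c).choose s : ℝ) * ((s.factorial : ℝ) * (r + c - s).factorial) :=
            mul_le_mul_of_nonneg_right h4 (by positivity)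
        _ = (r.choose s : ℝ) * (((r + c).choose s : ℝ) * (s.factorial * (r + c - s).factorial)) := by
            ring
        _ = _ := by rw [hfac s (by omega)]; ring
    refine (sum_le_sum h2).trans ?_
    rw [← mul_sum]
    exact mul_le_mul_of_nonneg_left hbad (by positivity)
  refine (add_le_add hgood hbad2).trans (le_of_eq ?_)
  ring

theorem cube_second {β : Type*} [Fintype β] [DecidableEq β] {r c : ℕ}
    (hN : Fintype.card β = 2 * r + c) {e : Fin r × Bool → β} (he : Function.Injective e)
    {A : Finset (Finset β)} (hA : ∀ s ∈ A, s.card = r) {θ M : ℝ} (hθ : 0 < θ) (hM : 0 < M)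
    (hbad : ∑ s ∈ (range (r + 1)).filter (fun s : ℕ =>
      ¬ θ * ((2 * r + c).choose r : ℝ) ≤ 2 ^ r * ((r + c).choose s : ℝ)), (r.choose s : ℝ) ≤
      2 ^ r / M) :
    ∑ σ : Equiv.Perm β, (∑ δ : Fin r → Bool, ind A (cset (fun q => σ (e q)) δ)) ^ 2 ≤
      4 ^ r * (r.factorial * (r + c).factorial) *
        (A.card * (A.card / (θ * (2 * r + c).choose r) + 1 / M)) := by
  have h1 : ∑ σ : Equiv.Perm β, (∑ δ : Fin r → Bool, ind A (cset (fun q => σ (e q)) δ)) ^ 2 =
      ∑ σ : Equiv.Perm β, ∑ δ : Fin r → Bool, ∑ δ' : Fin r → Bool,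
        (fun Z Z' => ind A Z * ind A Z') (cset (fun q => σ (e q)) δ)
          (cset (fun q => σ (e q)) δ') := by
    refine sum_congr rfl fun σ _ => ?_
    rw [sq, sum_mul_sum]
  rw [h1, cube_pairs he (fun Z Z' => ind A Z * ind A Z')]
  have hsub : A ⊆ powersetCard r univ := by
    intro Z hZ
    rw [mem_powersetCard]
    exact ⟨subset_univ _, hA Z hZ⟩
  have h2 : ∑ Z ∈ powersetCard r univ, ∑ Z' ∈ powersetCard r univ,
        ((Z \ Z').card.factorial : ℝ) * (Fintype.card β - r - (Z \ Z').card).factorial *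
          (ind A Z * ind A Z') =
      ∑ Z ∈ A, ∑ Z' ∈ A, ((Z \ Z').card.factorial : ℝ) * (r + c - (Z \ Z').card).factorial := by
    symm
    have e0 : Fintype.card β - r = r + c := by omega
    rw [e0]
    calc ∑ Z ∈ A, ∑ Z' ∈ A, ((Z \ Z').card.factorial : ℝ) * (r + c - (Z \ Z').card).factorial
        = ∑ Z ∈ A, ∑ Z' ∈ powersetCard r univ, ((Z \ Z').card.factorial : ℝ) *
            (r + c - (Z \ Z').card).factorial * (ind A Z * ind A Z') := by
          refine sum_congr rfl fun Z hZ => ?_
          have hZ1 : ind A Z = 1 := by simp [ind, hZ]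
          rw [← sum_subset hsub]
          · refine sum_congr rfl fun Z' hZ' => ?_
            have hZ2 : ind A Z' = 1 := by simp [ind, hZ']
            rw [hZ1, hZ2, mul_one, mul_one]
          · intro Z' _ hZ'
            have hZ2 : ind A Z' = 0 := by simp [ind, hZ']
            rw [hZ2, mul_zero, mul_zero]
      _ = _ := by
          refine sum_subset hsub ?_
          intro Z _ hZ
          have hZ2 : ind A Z = 0 := by simp [ind, hZ]
          refine sum_eq_zero fun Z' _ => ?_
          rw [hZ2, zero_mul, mul_zero]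
  rw [h2]
  have h3 : ∑ Z ∈ A, ∑ Z' ∈ A, ((Z \ Z').card.factorial : ℝ) * (r + c - (Z \ Z').card).factorial ≤
      A.card * ((r + c).factorial * 2 ^ r * (A.card / (θ * (2 * r + c).choose r) + 1 / M)) := by
    refine (sum_le_sum fun Z hZ => k7_one hN hA hθ hbad (hA Z hZ)).trans (le_of_eq ?_)
    rw [sum_const, nsmul_eq_mul]
  refine (mul_le_mul_of_nonneg_left h3 (by positivity)).trans (le_of_eq ?_)
  have h4 : (4 : ℝ) ^ r = 2 ^ r * 2 ^ r := by
    rw [← mul_pow]
    norm_num
  rw [h4]
  ring

end Pool.Agent.Lib.MP_fffc5a_co
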