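import Mathlib
import Pool.Agent.Lib.MP_fffc5a_co.Defs

/-!
Koevari-Sos-Turan by blocks.
-/

set_option autoImplicit false

open Finset

namespace Pool.Agent.Lib.MP_fffc5a_co

theorem common_nbrs {α : Type*} [DecidableEq α] {u v : ℕ} (hv : 1 ≤ v) {F : Finset (Finset α)}
    (hUI : UI u v F) {T : Finset (Finset α)} (hT : T ⊆ F) (hTu : T.card = u) :
    (F.filter fun B => ∀ G ∈ T, Disjoint G B).card ≤ v - 1 := by
  by_contra hcon
  obtain ⟨B, hB, hBv⟩ := Finset.exists_subset_card_eq
    (show v ≤ (F.filter fun B => ∀ G ∈ T, Disjoint G B).card by omega)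
  refine hUI T hT B (hB.trans (Finset.filter_subset _ _)) hTu hBv ?_
  rw [Finset.disjoint_biUnion_left]
  intro G hG
  rw [Finset.disjoint_biUnion_right]
  intro s hs
  exact (Finset.mem_filter.1 (hB hs)).2 G hG

theorem kst_dp_left {α : Type*} [DecidableEq α] (X F : Finset (Finset α)) :
    dp X F = ∑ G ∈ X, (F.filter fun B => Disjoint G B).card := by
  unfold dp
  rw [Finset.card_filter, Finset.sum_product]
  refine Finset.sum_congr rfl fun G _ => ?_
  rw [Finset.card_filter]

theorem kst_dp_right {α : Type*} [DecidableEq α] (X F : Finset (Finset α)) :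
    dp X F = ∑ B ∈ F, (X.filter fun G => Disjoint G B).card := by
  unfold dp
  rw [Finset.card_filter, Finset.sum_product_right]
  refine Finset.sum_congr rfl fun G _ => ?_
  rw [Finset.card_filter]

theorem kst_choose {u : ℕ} (hu : 1 ≤ u) (d : ℕ) : d ≤ (u - 1) + d.choose u := by
  induction d with
  | zero => omega
  | succ d ih =>
    obtain ⟨w, rfl⟩ : ∃ w, u = w + 1 := ⟨u - 1, by omega⟩
    rw [Nat.choose_succ_succ']
    rcases Nat.lt_or_ge d w with h | h
    · omega
    · have := Nat.choose_pos h
      omega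

theorem kst_small {α : Type*} [DecidableEq α] {u v : ℕ} (hu : 1 ≤ u) (hv : 1 ≤ v)
    {F : Finset (Finset α)} (hUI : UI u v F) {b : ℕ} {X : Finset (Finset α)}
    (hX : X ⊆ F) (hXb : X.card ≤ b) :
    dp X F ≤ (u - 1) * F.card + (v - 1) * b ^ u := by
  have h1 : dp X F ≤ ∑ B ∈ F, ((u - 1) + ((X.filter fun G => Disjoint G B).card).choose u) := by
    rw [kst_dp_right]
    exact Finset.sum_le_sum fun B _ => kst_choose hu _
  have h2 : ∑ B ∈ F, ((X.filter fun G => Disjoint G B).card).choose u =
      ∑ T ∈ X.powersetCard u, (F.filter fun B => ∀ G ∈ T, Disjoint G B).card := by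
    have h3 : ∀ B ∈ F, ((X.filter fun G => Disjoint G B).card).choose u =
        ((X.powersetCard u).filter fun T => ∀ G ∈ T, Disjoint G B).card := by
      intro B _
      rw [← Finset.card_powersetCard]
      congr 1
      ext T
      simp only [Finset.mem_powersetCard, Finset.mem_filter]
      constructor
      · rintro ⟨h, hc⟩
        exact ⟨⟨h.trans (Finset.filter_subset _ _), hc⟩, fun G hG => (Finset.mem_filter.1 (h hG)).2⟩
      · rintro ⟨⟨h, hc⟩, hd⟩
        exact ⟨fun G hG => Finset.mem_filter.2 ⟨h hG, hd G hG⟩, hc⟩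
    rw [Finset.sum_congr rfl h3]
    exact (Finset.sum_card_bipartiteAbove_eq_sum_card_bipartiteBelow
      (fun T B => ∀ G ∈ T, Disjoint G B) (s := X.powersetCard u) (t := F)).symm
  have h4 : ∑ T ∈ X.powersetCard u, (F.filter fun B => ∀ G ∈ T, Disjoint G B).card ≤
      (v - 1) * b ^ u := by
    calc ∑ T ∈ X.powersetCard u, (F.filter fun B => ∀ G ∈ T, Disjoint G B).card
        ≤ ∑ _T ∈ X.powersetCard u, (v - 1) := by
          refine Finset.sum_le_sum fun T hT => ?_
          rw [Finset.mem_powersetCard] at hT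
          exact common_nbrs hv hUI (hT.1.trans hX) hT.2
      _ = (X.card.choose u) * (v - 1) := by
          rw [Finset.sum_const, Finset.card_powersetCard, smul_eq_mul]
      _ ≤ b ^ u * (v - 1) := by
          refine Nat.mul_le_mul_right _ ?_
          exact (Nat.choose_le_pow _ _).trans (Nat.pow_le_pow_left hXb u)
      _ = (v - 1) * b ^ u := Nat.mul_comm _ _
  rw [Finset.sum_add_distrib, Finset.sum_const, smul_eq_mul, h2] at h1
  calc dp X F ≤ _ := h1
    _ ≤ F.card * (u - 1) + (v - 1) * b ^ u := Nat.add_le_add_left h4 _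
    _ = _ := by rw [Nat.mul_comm]

theorem block_bound {α : Type*} [DecidableEq α] {u v : ℕ} (hu : 1 ≤ u) (hv : 1 ≤ v)
    {F : Finset (Finset α)} (hUI : UI u v F) {b : ℕ} (hb : 1 ≤ b) {X : Finset (Finset α)}
    (hX : X ⊆ F) :
    b * dp X F ≤ (X.card + b) * ((u - 1) * F.card + (v - 1) * b ^ u) := by
  induction hn : X.card using Nat.strong_induction_on generalizing X with
  | _ n ih =>
    rcases Nat.lt_or_ge b n with h | h
    · obtain ⟨X1, hX1, hc1⟩ := Finset.exists_subset_card_eq (show b ≤ X.card by omega)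
      have hc2 : (X \ X1).card = n - b := by
        rw [Finset.card_sdiff_of_subset hX1, hn, hc1]
      have hsplit : dp X F = dp X1 F + dp (X \ X1) F := by
        rw [kst_dp_left, kst_dp_left, kst_dp_left, add_comm]
        exact (Finset.sum_sdiff hX1).symm
      have i1 := kst_small hu hv hUI (hX1.trans hX) (le_of_eq hc1)
      have i2 := ih (n - b) (by omega) (X := X \ X1) (Finset.sdiff_subset.trans hX) hc2
      have hnb : n - b + b = n := by omega
      rw [hnb] at i2
      rw [hsplit, Nat.mul_add, Nat.add_mul, Nat.add_comm]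
      exact Nat.add_le_add i2 (Nat.mul_le_mul_left _ i1)
    · have i1 := kst_small hu hv hUI hX (show X.card ≤ b by omega)
      calc b * dp X F ≤ b * ((u - 1) * F.card + (v - 1) * b ^ u) := Nat.mul_le_mul_left _ i1
        _ ≤ _ := Nat.mul_le_mul_right _ (by omega)

end Pool.Agent.Lib.MP_fffc5a_co
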