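import Mathlib
import Pool.Agent.Lib.MP_fffc5a_co.Defs
import Pool.Agent.Lib.MP_fffc5a_co.Kst

set_option autoImplicit false

open Finset

namespace Pool.Agent.Lib.MP_fffc5a_co

theorem dp_le {α : Type*} [DecidableEq α] (F : Finset (Finset α)) (x : α) :
    dp F F ≤ 2 * dp (F.filter fun s => x ∉ s) F := by
  classical
  unfold dp
  have h1 : ((F ×ˢ F).filter fun p => Disjoint p.1 p.2) ⊆
      (((F.filter fun s => x ∉ s) ×ˢ F).filter fun p => Disjoint p.1 p.2) ∪
      ((((F.filter fun s => x ∉ s) ×ˢ F).filter fun p => Disjoint p.1 p.2).image Prod.swap) := by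
    rintro ⟨a, b⟩ h
    simp only [mem_filter, mem_product] at h
    obtain ⟨⟨ha, hb⟩, hd⟩ := h
    rw [mem_union, mem_image]
    by_cases hx : x ∈ a
    · right
      refine ⟨(b, a), ?_, rfl⟩
      simp only [mem_filter, mem_product]
      exact ⟨⟨⟨hb, fun hxb => (Finset.disjoint_left.1 hd) hx hxb⟩, ha⟩, hd.symm⟩
    · left
      simp only [mem_filter, mem_product]
      exact ⟨⟨⟨ha, hx⟩, hb⟩, hd⟩
  calc _ ≤ _ := card_le_card h1
    _ ≤ _ := card_union_le _ _
    _ ≤ _ := by
      have := card_image_le (s := ((F.filter fun s => x ∉ s) ×ˢ F).filter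
        fun p => Disjoint p.1 p.2) (f := Prod.swap)
      omega

/-- the `k`-sets that contain `x` and avoid `U` -/
theorem b2_card {α : Type*} [Fintype α] [DecidableEq α] {k : ℕ} (x : α)
    {U : Finset α} (hx : x ∉ U) :
    (((univ \ insert x U).powersetCard (k - 1)).image (insert x)).card =
      (Fintype.card α - 1 - U.card).choose (k - 1) := by
  rw [card_image_of_injOn, card_powersetCard, card_sdiff_of_subset (subset_univ _),
    card_univ, card_insert_of_notMem hx]
  · congr 1
    omega
  · intro s hs t ht hst
    rw [mem_coe, mem_powersetCard] at hs ht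
    have h1 : x ∉ s := fun h => by
      have := hs.1 h
      simp at this
    have h2 : x ∉ t := fun h => by
      have := ht.1 h
      simp at this
    change insert x s = insert x t at hst
    rw [← erase_insert h1, ← erase_insert h2, hst]

theorem b2_mem {α : Type*} [Fintype α] [DecidableEq α] {k : ℕ} (x : α)
    (U : Finset α) {s : Finset α} (hs : s.card = k) (hxs : x ∈ s) (hd : Disjoint s U) :
    s ∈ ((univ \ insert x U).powersetCard (k - 1)).image (insert x) := by
  rw [mem_image]
  refine ⟨s.erase x, ?_, insert_erase hxs⟩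
  rw [mem_powersetCard]
  refine ⟨?_, by rw [card_erase_of_mem hxs, hs]⟩
  intro y hy
  rw [mem_erase] at hy
  simp only [mem_sdiff, mem_univ, true_and, mem_insert, not_or]
  exact ⟨hy.1, fun h => (Finset.disjoint_left.1 hd) hy.2 h⟩

theorem missing_bound {α : Type*} [Fintype α] [DecidableEq α] {u v k : ℕ} (hk : 1 ≤ k)
    (hv : 1 ≤ v) {F : Finset (Finset α)} (hF : ∀ s ∈ F, s.card = k) (hUI : UI u v F) (x : α)
    {T : Finset (Finset α)} (hT : T ⊆ F.filter fun s => x ∉ s) (hTu : T.card = u) :
    (Fintype.card α - 1 - (T.biUnion id).card).choose (k - 1) + (F.filter fun s => x ∈ s).card ≤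
      (Fintype.card α - 1).choose (k - 1) + (v - 1) := by
  classical
  have hxU : x ∉ T.biUnion id := by
    simp only [mem_biUnion, id_eq, not_exists, not_and]
    intro s hs
    exact (mem_filter.1 (hT hs)).2
  have hTF : T ⊆ F := fun s hs => (mem_filter.1 (hT hs)).1
  set U := T.biUnion id with hU
  set D := ((univ \ insert x U).powersetCard (k - 1)).image (insert x) with hD
  set M := ((univ \ insert x (∅ : Finset α)).powersetCard (k - 1)).image (insert x) with hM
  have hDc : D.card = (Fintype.card α - 1 - U.card).choose (k - 1) := b2_card x hxU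
  have hMc : M.card = (Fintype.card α - 1).choose (k - 1) := by
    rw [hM, b2_card x (by simp)]
    simp
  have hDM : D ⊆ M := by
    apply image_subset_image
    apply powersetCard_mono
    apply sdiff_subset_sdiff (Subset.refl _)
    apply insert_subset_insert
    simp
  have hFM : (F.filter fun s => x ∈ s) ⊆ M := by
    intro s hs
    rw [mem_filter] at hs
    exact b2_mem x ∅ (hF s hs.1) hs.2 (by simp)
  have hnb := common_nbrs hv hUI hTF hTu
  have hint : (D ∩ F.filter fun s => x ∈ s).card ≤ v - 1 := by
    refine le_trans (card_le_card ?_) hnb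
    intro s hs
    rw [mem_inter, mem_filter] at hs
    simp only [mem_filter]
    refine ⟨hs.2.1, ?_⟩
    intro G hG
    have h1 := hs.1
    rw [hD, mem_image] at h1
    obtain ⟨t, ht, rfl⟩ := h1
    rw [mem_powersetCard] at ht
    rw [Finset.disjoint_right]
    intro y hy hyG
    have hyU : y ∈ U := by
      rw [hU, mem_biUnion]
      exact ⟨G, hG, hyG⟩
    rw [mem_insert] at hy
    rcases hy with hy | hy
    · rw [hy] at hyU; exact hxU hyU
    · have := ht.1 hy
      simp only [mem_sdiff, mem_univ, true_and, mem_insert, not_or] at this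
      exact this.2 hyU
  have hsum := card_union_add_card_inter D (F.filter fun s => x ∈ s)
  have hsub : (D ∪ F.filter fun s => x ∈ s).card ≤ M.card :=
    card_le_card (union_subset hDM hFM)
  omega

theorem card_star_le {α : Type*} [Fintype α] [DecidableEq α] {k : ℕ} (hk : 1 ≤ k)
    {F : Finset (Finset α)} (hF : ∀ s ∈ F, s.card = k) (x : α) :
    (F.filter fun s => x ∈ s).card ≤ (Fintype.card α - 1).choose (k - 1) := by
  classical
  have h1 := b2_card (k := k) x (U := (∅ : Finset α)) (by simp)
  simp only [card_empty, Nat.sub_zero] at h1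
  rw [← h1]
  apply card_le_card
  intro s hs
  rw [mem_filter] at hs
  exact b2_mem x ∅ (hF s hs.1) hs.2 (by simp)

end Pool.Agent.Lib.MP_fffc5a_co
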