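import Mathlib
import Pool.Agent.Lib.MP_fffc5a_co.Defs

/-!
Arithmetic of the intervals `itv n k i` of the circle `ZMod n`.
-/

set_option autoImplicit false

open Finset

namespace Pool.Agent.Lib.MP_fffc5a_co

theorem mem_itv {n k : ℕ} [NeZero n] (i x : ZMod n) : x ∈ itv n k i ↔ (x - i).val < k := by
  simp [itv]

theorem card_itv {n k : ℕ} [NeZero n] (hk : k ≤ n) (i : ZMod n) : (itv n k i).card = k := by
  have h : (Finset.range k).card = (itv n k i).card := by
    apply Finset.card_bij (fun (a : ℕ) (_ : a ∈ Finset.range k) => (a : ZMod n) + i)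
    · intro a ha
      have ha' : a < n := lt_of_lt_of_le (Finset.mem_range.mp ha) hk
      rw [mem_itv, add_sub_cancel_right, ZMod.val_natCast_of_lt ha']
      exact Finset.mem_range.mp ha
    · intro a ha b hb hab
      have ha' : a < n := lt_of_lt_of_le (Finset.mem_range.mp ha) hk
      have hb' : b < n := lt_of_lt_of_le (Finset.mem_range.mp hb) hk
      have h1 : ((a : ℕ) : ZMod n) = (b : ℕ) := add_right_cancel hab
      have h2 := congrArg ZMod.val h1
      rwa [ZMod.val_natCast_of_lt ha', ZMod.val_natCast_of_lt hb'] at h2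
    · intro x hx
      rw [mem_itv] at hx
      refine ⟨(x - i).val, Finset.mem_range.mpr hx, ?_⟩
      rw [ZMod.natCast_zmod_val, sub_add_cancel]
  rw [← h, Finset.card_range]

theorem val_of_not_disjoint_itv {n k : ℕ} [NeZero n] {i j : ZMod n}
    (h : ¬ Disjoint (itv n k i) (itv n k j)) : (j - i).val < k ∨ (i - j).val < k := by
  rw [Finset.not_disjoint_iff] at h
  obtain ⟨x, hi, hj⟩ := h
  rw [mem_itv] at hi hj
  rcases le_total (x - j).val (x - i).val with hle | hle
  · left
    have h1 : j - i = (((x - i).val - (x - j).val : ℕ) : ZMod n) := by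
      rw [Nat.cast_sub hle, ZMod.natCast_zmod_val, ZMod.natCast_zmod_val]
      ring
    have h2 : (x - i).val - (x - j).val < n :=
      lt_of_le_of_lt (Nat.sub_le _ _) (ZMod.val_lt _)
    rw [h1, ZMod.val_natCast_of_lt h2]
    omega
  · right
    have h1 : i - j = (((x - j).val - (x - i).val : ℕ) : ZMod n) := by
      rw [Nat.cast_sub hle, ZMod.natCast_zmod_val, ZMod.natCast_zmod_val]
      ring
    have h2 : (x - j).val - (x - i).val < n :=
      lt_of_le_of_lt (Nat.sub_le _ _) (ZMod.val_lt _)
    rw [h1, ZMod.val_natCast_of_lt h2]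
    omega

theorem map_itv_rot {n k : ℕ} [NeZero n] (i a : ZMod n) :
    (itv n k i).map (Equiv.addRight a).toEmbedding = itv n k (i + a) := by
  ext x
  rw [Finset.mem_map, mem_itv]
  constructor
  · rintro ⟨y, hy, rfl⟩
    rw [mem_itv] at hy
    have h1 : (Equiv.addRight a).toEmbedding y - (i + a) = y - i := by
      simp only [Equiv.coe_toEmbedding, Equiv.coe_addRight]
      ring
    rw [h1]
    exact hy
  · intro hx
    refine ⟨x - a, ?_, ?_⟩
    · rw [mem_itv]
      have h1 : x - a - i = x - (i + a) := by ring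
      rw [h1]
      exact hx
    · simp

end Pool.Agent.Lib.MP_fffc5a_co
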