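import Mathlib
import Pool.Agent.Lib.MP_fffc5a_co.Defs

set_option autoImplicit false

open Finset

namespace Pool.Agent.Lib.MP_fffc5a_co

theorem a8_fibre_eq {n : ℕ} [NeZero n] (x : ZMod n) :
    (univ.filter fun σ : Equiv.Perm (ZMod n) => σ 0 = x).card =
      (univ.filter fun σ : Equiv.Perm (ZMod n) => σ 0 = 0).card := by
  refine card_nbij' (fun σ => Equiv.swap x 0 * σ) (fun σ => Equiv.swap x 0 * σ) ?_ ?_ ?_ ?_
  · intro σ hσ
    simp only [coe_filter, mem_univ, true_and, Set.mem_ofPred_eq] at hσ ⊢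
    rw [Equiv.Perm.mul_apply, hσ, Equiv.swap_apply_left]
  · intro σ hσ
    simp only [coe_filter, mem_univ, true_and, Set.mem_ofPred_eq] at hσ ⊢
    rw [Equiv.Perm.mul_apply, hσ, Equiv.swap_apply_right]
  · intro σ _
    simp only
    rw [← mul_assoc, Equiv.swap_mul_self, one_mul]
  · intro σ _
    simp only
    rw [← mul_assoc, Equiv.swap_mul_self, one_mul]

theorem a8_fibre {n : ℕ} [NeZero n] (x : ZMod n) :
    (univ.filter fun σ : Equiv.Perm (ZMod n) => σ 0 = x).card = (n - 1).factorial := by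
  have hn : 0 < n := Nat.pos_of_ne_zero (NeZero.ne n)
  have h1 : ∑ y : ZMod n, (univ.filter fun σ : Equiv.Perm (ZMod n) => σ 0 = y).card =
      n.factorial := by
    have h2 := card_eq_sum_card_fiberwise (s := (univ : Finset (Equiv.Perm (ZMod n))))
      (t := (univ : Finset (ZMod n))) (f := fun σ => σ 0) (fun _ _ => mem_coe.mpr (mem_univ _))
    rw [← h2, card_univ, Fintype.card_perm, ZMod.card]
  rw [a8_fibre_eq x]
  have h3 : n * (univ.filter fun σ : Equiv.Perm (ZMod n) => σ 0 = 0).card = n.factorial := by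
    rw [← h1, sum_congr rfl (fun y _ => a8_fibre_eq y), sum_const, card_univ, ZMod.card,
      smul_eq_mul]
  have h4 : n.factorial = n * (n - 1).factorial := (Nat.mul_factorial_pred hn.ne').symm
  rw [h4] at h3
  exact Nat.eq_of_mul_eq_mul_left hn h3

open Classical in
theorem card_point_le {n : ℕ} [NeZero n] (g : Equiv.Perm (ZMod n) → Prop) (x : ZMod n) :
    (univ.filter fun σ : Equiv.Perm (ZMod n) => σ 0 = x ∧ g σ).card ≤ (n - 1).factorial := by
  rw [← a8_fibre x]
  apply card_le_card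
  intro σ hσ
  rw [mem_filter] at hσ ⊢
  exact ⟨hσ.1, hσ.2.1⟩

open Classical in
theorem a8_pairs {β : Type*} (A : Finset β) (g : β → Prop) :
    ∑ σ ∈ A, ∑ τ ∈ A, (if ¬ (g σ ↔ g τ) then 1 else 0) =
      2 * ((A.filter g).card * (A.card - (A.filter g).card)) := by
  have hsplit : A.card - (A.filter g).card = (A.filter fun σ => ¬ g σ).card := by
    have := card_filter_add_card_filter_not (s := A) g
    omega
  have h1 : ∀ σ ∈ A, ∑ τ ∈ A, (if ¬ (g σ ↔ g τ) then 1 else 0) =
      if g σ then (A.filter fun σ => ¬ g σ).card else (A.filter g).card := by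
    intro σ _
    by_cases hg : g σ
    · simp only [hg, true_iff, if_true]
      rw [← card_filter]
    · simp only [hg, false_iff, not_not, if_false]
      rw [← card_filter]
  rw [sum_congr rfl h1, sum_ite, sum_const, sum_const, hsplit, smul_eq_mul, smul_eq_mul]
  ring

open Classical in
theorem mean_bound {n : ℕ} [NeZero n] (g : Equiv.Perm (ZMod n) → Prop) (D : ℕ)
    (hD : ∀ π : Equiv.Perm (ZMod n), π 0 = 0 →
      (univ.filter fun σ => ¬ (g σ ↔ g (σ * π))).card ≤ D) :
    2 * ∑ x : ZMod n, (univ.filter fun σ : Equiv.Perm (ZMod n) => σ 0 = x ∧ g σ).card *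
      ((n - 1).factorial - (univ.filter fun σ : Equiv.Perm (ZMod n) => σ 0 = x ∧ g σ).card) ≤
      (n - 1).factorial * D := by
  -- the sum over all permutations which fix `0`
  have hS : ∑ π ∈ univ.filter (fun π : Equiv.Perm (ZMod n) => π 0 = 0),
      (univ.filter fun σ => ¬ (g σ ↔ g (σ * π))).card ≤ (n - 1).factorial * D := by
    calc ∑ π ∈ univ.filter (fun π : Equiv.Perm (ZMod n) => π 0 = 0),
        (univ.filter fun σ => ¬ (g σ ↔ g (σ * π))).card
        ≤ ∑ _π ∈ univ.filter (fun π : Equiv.Perm (ZMod n) => π 0 = 0), D :=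
          sum_le_sum fun π hπ => hD π (mem_filter.mp hπ).2
      _ = (n - 1).factorial * D := by
          rw [sum_const, smul_eq_mul, a8_fibre]
  refine le_trans (le_of_eq ?_) hS
  have h1 : ∑ π ∈ univ.filter (fun π : Equiv.Perm (ZMod n) => π 0 = 0),
      (univ.filter fun σ => ¬ (g σ ↔ g (σ * π))).card =
      ∑ σ : Equiv.Perm (ZMod n), ∑ τ ∈ univ.filter (fun τ : Equiv.Perm (ZMod n) => τ 0 = σ 0),
        (if ¬ (g σ ↔ g τ) then 1 else 0) := by
    simp only [card_filter]
    rw [sum_comm]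
    refine sum_congr rfl fun σ _ => ?_
    refine sum_nbij' (fun π => σ * π) (fun τ => σ⁻¹ * τ) ?_ ?_ ?_ ?_ ?_
    · intro π hπ
      rw [mem_filter] at hπ ⊢
      refine ⟨mem_univ _, ?_⟩
      rw [Equiv.Perm.mul_apply, hπ.2]
    · intro τ hτ
      rw [mem_filter] at hτ ⊢
      refine ⟨mem_univ _, ?_⟩
      rw [Equiv.Perm.mul_apply, hτ.2, ← Equiv.Perm.mul_apply, inv_mul_cancel]
      rfl
    · intro π _
      rw [inv_mul_cancel_left]
    · intro τ _
      rw [mul_inv_cancel_left]
    · intro π _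
      rfl
  rw [h1]
  -- group by the value at `0`
  have h2 : ∑ σ : Equiv.Perm (ZMod n), ∑ τ ∈ univ.filter
        (fun τ : Equiv.Perm (ZMod n) => τ 0 = σ 0), (if ¬ (g σ ↔ g τ) then 1 else 0) =
      ∑ x : ZMod n, ∑ σ ∈ univ.filter (fun σ : Equiv.Perm (ZMod n) => σ 0 = x),
        ∑ τ ∈ univ.filter (fun τ : Equiv.Perm (ZMod n) => τ 0 = x),
          (if ¬ (g σ ↔ g τ) then 1 else 0) := by
    rw [← sum_fiberwise (s := (univ : Finset (Equiv.Perm (ZMod n)))) (g := fun σ => σ 0)]
    refine sum_congr rfl fun x _ => sum_congr rfl fun σ hσ => ?_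
    rw [(mem_filter.mp hσ).2]
  rw [h2, mul_sum]
  refine sum_congr rfl fun x _ => ?_
  rw [a8_pairs, a8_fibre, filter_filter]

end Pool.Agent.Lib.MP_fffc5a_co
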