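import Mathlib
import Pool.Agent.Lib.MP_fffc5a_co.Defs

/-!
Intersecting families of intervals on the circle `ZMod n` (Katona).
-/

set_option autoImplicit false

open Finset

namespace Pool.Agent.Lib.MP_fffc5a_co

theorem a1_sub {n : ℕ} [NeZero n] (a b : ZMod n) :
    (a - b).val = if b.val ≤ a.val then a.val - b.val else n + a.val - b.val := by
  split_ifs with h
  · exact ZMod.val_sub h
  · have h1 : (b - a).val = b.val - a.val := ZMod.val_sub (by omega)
    have h2 : a - b = -(b - a) := by ring
    have h3 : b - a ≠ 0 := by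
      intro h0
      rw [h0] at h1
      simp at h1
      omega
    rw [h2, ZMod.neg_val, if_neg h3, h1]
    have := ZMod.val_lt b
    omega

theorem a1_nat {n : ℕ} [NeZero n] {r : ℕ} (h : r < n) : ((r : ℕ) : ZMod n).val = r :=
  ZMod.val_cast_of_lt h

theorem a1_zero {n k : ℕ} [NeZero n] (hk : 1 ≤ k) (hn : 2 * k + 1 ≤ n)
    (J : Finset (ZMod n)) (h0 : (0 : ZMod n) ∈ J)
    (hJ : ∀ i ∈ J, ∀ j ∈ J, (j - i).val < k ∨ (i - j).val < k) :
    J.card ≤ k ∧ (J.card = k → ∃ c : ZMod n, ∀ i, i ∈ J ↔ (c - i).val < k) := by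
  have hpos : ∀ x ∈ J, x.val < k ∨ n - k + 1 ≤ x.val := by
    intro x hx
    have h1 := hJ 0 h0 x hx
    rw [sub_zero] at h1
    rcases h1 with h1 | h1
    · exact Or.inl h1
    · rw [a1_sub, ZMod.val_zero] at h1
      split_ifs at h1 with h2
      · left; omega
      · right
        have := ZMod.val_lt x
        omega
  -- two elements at distance `n - k` or `n - k - 1`
  have hfar : ∀ x ∈ J, ∀ y ∈ J, x.val < k → y.val ≠ x.val + (n - k) ∧
      (1 ≤ x.val → y.val ≠ x.val - 1 + (n - k)) := by
    intro x hx y hy hxk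
    have h1 := hJ x hx y hy
    rw [a1_sub y x, a1_sub x y] at h1
    have hy' := ZMod.val_lt y
    constructor
    · intro h2
      rw [h2] at h1
      split_ifs at h1 <;> omega
    · intro h3 h2
      rw [h2] at h1
      split_ifs at h1 <;> omega
  set f : ZMod n → ℕ := fun x => if x.val < k then x.val else x.val - (n - k) with hf
  have hmaps : ∀ x ∈ J, f x ∈ range k := by
    intro x hx
    rw [mem_range]
    simp only [hf]
    have := ZMod.val_lt x
    split_ifs with h
    · exact h
    · omega
  have hinj : Set.InjOn f (J : Set (ZMod n)) := by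
    intro x hx y hy hxy
    have hx' := hpos x hx
    have hy' := hpos y hy
    simp only [hf] at hxy
    apply ZMod.val_injective n
    have a1 := (hfar x hx y hy)
    have a2 := (hfar y hy x hx)
    split_ifs at hxy with h1 h2 h2
    · exact hxy
    · have := (a1 h1).1
      omega
    · have := (a2 h2).1
      omega
    · omega
  have hcard : J.card ≤ k := by
    have := Finset.card_le_card_of_injOn f hmaps hinj
    simpa using this
  refine ⟨hcard, fun hJk => ?_⟩
  have himg : J.image f = range k := by
    apply Finset.eq_of_subset_of_card_le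
    · intro r hr
      obtain ⟨x, hx, rfl⟩ := mem_image.mp hr
      exact hmaps x hx
    · rw [Finset.card_image_of_injOn hinj, hJk, card_range]
  -- the alternatives
  have halt : ∀ r < k, ((r : ℕ) : ZMod n) ∈ J ∨ ((r + (n - k) : ℕ) : ZMod n) ∈ J := by
    intro r hr
    have h1 : r ∈ J.image f := by rw [himg, mem_range]; exact hr
    obtain ⟨x, hx, hxr⟩ := mem_image.mp h1
    simp only [hf] at hxr
    split_ifs at hxr with h2
    · left
      rw [← hxr, ZMod.natCast_zmod_val]
      exact hx
    · right
      have h3 := hpos x hx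
      have h4 : r + (n - k) = x.val := by omega
      rw [h4, ZMod.natCast_zmod_val]
      exact hx
  have hnb : ∀ r < k, ((r : ℕ) : ZMod n) ∈ J → ((r + (n - k) : ℕ) : ZMod n) ∉ J := by
    intro r hr h1 h2
    have h3 := (hfar _ h1 _ h2 (by rw [a1_nat (by omega)]; exact hr)).1
    rw [a1_nat (by omega), a1_nat (by omega)] at h3
    exact h3 rfl
  have hstep : ∀ r, r + 1 < k → ((r + (n - k) : ℕ) : ZMod n) ∈ J → ((r + 1 : ℕ) : ZMod n) ∉ J := by
    intro r hr h1 h2
    have h3 := (hfar _ h2 _ h1 (by rw [a1_nat (by omega)]; exact hr)).2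
    rw [a1_nat (by omega), a1_nat (by omega)] at h3
    exact h3 (by omega) (by omega)
  classical
  have hex : ∃ r, ¬ (r < k ∧ ((r : ℕ) : ZMod n) ∈ J) := ⟨k, by omega⟩
  set m := Nat.find hex with hm
  have hm1 := Nat.find_spec hex
  rw [← hm] at hm1
  have hlt : ∀ r < m, r < k ∧ ((r : ℕ) : ZMod n) ∈ J := by
    intro r hr
    have := Nat.find_min hex (m := r) hr
    push Not at this
    exact this
  have hmpos : 1 ≤ m := by
    by_contra hcon
    have hm0 : m = 0 := by omega
    rw [hm0] at hm1
    apply hm1
    refine ⟨by omega, ?_⟩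
    simpa using h0
  have hmk : m ≤ k := by
    by_contra hcon
    have := (hlt k (by omega)).1
    omega
  have hge : ∀ r, m ≤ r → r < k → ((r : ℕ) : ZMod n) ∉ J := by
    intro r hr
    induction r, hr using Nat.le_induction with
    | base =>
      intro h1 h2
      exact hm1 ⟨h1, h2⟩
    | succ r hr ih =>
      intro h1
      have h2 := ih (by omega)
      have h3 := (halt r (by omega)).resolve_left h2
      exact hstep r h1 h3
  refine ⟨((m - 1 : ℕ) : ZMod n), fun i => ?_⟩
  have hi := ZMod.val_lt i
  rw [a1_sub, a1_nat (by omega : m - 1 < n)]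
  constructor
  · intro hiJ
    rcases hpos i hiJ with h1 | h1
    · have h2 : i.val < m := by
        by_contra hcon
        apply hge i.val (by omega) h1
        rw [ZMod.natCast_zmod_val]
        exact hiJ
      rw [if_pos (by omega)]
      omega
    · have h2 : m ≤ i.val - (n - k) := by
        by_contra hcon
        have h3 := hlt (i.val - (n - k)) (by omega)
        apply hnb _ h3.1 h3.2
        have h4 : i.val - (n - k) + (n - k) = i.val := by omega
        rw [h4, ZMod.natCast_zmod_val]
        exact hiJ
      rw [if_neg (by omega)]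
      omega
  · intro h1
    split_ifs at h1 with h2
    · have h3 := (hlt i.val (by omega)).2
      rwa [ZMod.natCast_zmod_val] at h3
    · have h3 := hge (i.val - (n - k)) (by omega) (by omega)
      have h4 := (halt (i.val - (n - k)) (by omega)).resolve_left h3
      have h5 : i.val - (n - k) + (n - k) = i.val := by omega
      rwa [h5, ZMod.natCast_zmod_val] at h4

theorem katona_circle {n k : ℕ} [NeZero n] (hk : 1 ≤ k) (hn : 2 * k + 1 ≤ n)
    (J : Finset (ZMod n))
    (hJ : ∀ i ∈ J, ∀ j ∈ J, (j - i).val < k ∨ (i - j).val < k) :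
    J.card ≤ k ∧ (J.card = k → ∃ c : ZMod n, ∀ i, i ∈ J ↔ (c - i).val < k) := by
  rcases J.eq_empty_or_nonempty with rfl | ⟨i0, hi0⟩
  · refine ⟨by simp, fun h => ?_⟩
    rw [card_empty] at h
    omega
  · have h1 := a1_zero hk hn (J.map (Equiv.subRight i0).toEmbedding)
      (by rw [mem_map]; exact ⟨i0, hi0, by simp⟩) (by
        intro i hi j hj
        obtain ⟨i', hi', rfl⟩ := mem_map.mp hi
        obtain ⟨j', hj', rfl⟩ := mem_map.mp hj
        simpa using hJ i' hi' j' hj')
    rw [card_map] at h1
    refine ⟨h1.1, fun h => ?_⟩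
    obtain ⟨c, hc⟩ := h1.2 h
    refine ⟨c + i0, fun i => ?_⟩
    have h2 := hc (i - i0)
    have h3 : i - i0 ∈ J.map (Equiv.subRight i0).toEmbedding ↔ i ∈ J := by
      rw [mem_map]
      constructor
      · rintro ⟨x, hx, hxi⟩
        have : x = i := by simpa using hxi
        rwa [← this]
      · intro hi
        exact ⟨i, hi, by simp⟩
    rw [← h3, h2]
    have h4 : c - (i - i0) = c + i0 - i := by ring
    rw [h4]

end Pool.Agent.Lib.MP_fffc5a_co
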