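import Mathlib
import Pool.Agent.Lib.MP_fffc5a_co.Defs

/-!
Uniformity of the image of a `k`-set under a permutation.
-/

set_option autoImplicit false

open Finset

namespace Pool.Agent.Lib.MP_fffc5a_co

theorem a3_exists_perm {α : Type*} [Fintype α] [DecidableEq α] {A B : Finset α}
    (h : A.card = B.card) : ∃ π : Equiv.Perm α, A.map π.toEmbedding = B := by
  let e : {x // x ∈ A} ≃ {x // x ∈ B} := Finset.equivOfCardEq h
  refine ⟨e.extendSubtype, ?_⟩
  apply Finset.eq_of_subset_of_card_le
  · intro y hy
    obtain ⟨x, hx, rfl⟩ := mem_map.mp hy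
    exact e.extendSubtype_mem x hx
  · rw [card_map, h]

theorem a3_fiber {α : Type*} [Fintype α] [DecidableEq α] (s : Finset α) {A B : Finset α}
    (h : A.card = B.card) :
    (univ.filter fun σ : Equiv.Perm α => s.map σ.toEmbedding = A).card =
      (univ.filter fun σ : Equiv.Perm α => s.map σ.toEmbedding = B).card := by
  obtain ⟨π, hπ⟩ := a3_exists_perm h
  apply Finset.card_bij (fun σ _ => π * σ)
  · intro σ hσ
    rw [mem_filter] at hσ ⊢
    refine ⟨mem_univ _, ?_⟩
    rw [← hπ, ← hσ.2, map_map]
    rfl
  · intro σ _ τ _ h1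
    exact mul_left_cancel h1
  · intro τ hτ
    rw [mem_filter] at hτ
    refine ⟨π⁻¹ * τ, ?_, by simp⟩
    rw [mem_filter]
    refine ⟨mem_univ _, ?_⟩
    apply Finset.map_injective π.toEmbedding
    rw [hπ, ← hτ.2, map_map]
    congr 1
    ext x
    simp

theorem unif_one {α : Type*} [Fintype α] [DecidableEq α] {k : ℕ} (F : Finset (Finset α))
    (hF : ∀ s ∈ F, s.card = k) (s : Finset α) (hs : s.card = k) :
    (univ.filter fun σ : Equiv.Perm α => s.map σ.toEmbedding ∈ F).card *
      (Fintype.card α).choose k = F.card * (Fintype.card α).factorial := by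
  set c := (univ.filter fun σ : Equiv.Perm α => s.map σ.toEmbedding = s).card with hc
  have hfib : ∀ A : Finset α, A.card = k →
      (univ.filter fun σ : Equiv.Perm α => s.map σ.toEmbedding = A).card = c := by
    intro A hA
    exact a3_fiber s (by rw [hA, hs])
  have h1 : (univ.filter fun σ : Equiv.Perm α => s.map σ.toEmbedding ∈ F).card = F.card * c := by
    rw [Finset.card_eq_sum_card_fiberwise (f := fun σ : Equiv.Perm α => s.map σ.toEmbedding)
      (t := F) (by intro σ hσ; simpa using hσ)]
    rw [Finset.sum_congr rfl (g := fun _ => c)]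
    · simp
    · intro A hA
      rw [← hfib A (hF A hA)]
      congr 1
      ext σ
      simp only [mem_filter, mem_univ, true_and]
      constructor
      · exact fun h => h.2
      · intro h
        exact ⟨by rw [h]; exact hA, h⟩
  have h2 : (Fintype.card α).factorial = (Fintype.card α).choose k * c := by
    rw [← Fintype.card_perm, ← Finset.card_univ]
    rw [Finset.card_eq_sum_card_fiberwise (f := fun σ : Equiv.Perm α => s.map σ.toEmbedding)
      (t := powersetCard k univ) (by intro σ _; simp [mem_powersetCard, hs])]
    rw [Finset.sum_congr rfl (g := fun _ => c)]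
    · simp [card_powersetCard]
    · intro A hA
      rw [← hfib A (mem_powersetCard.mp hA).2]
  rw [h1, h2]
  ring

end Pool.Agent.Lib.MP_fffc5a_co
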