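import Mathlib
import Pool.Agent.Lib.MP_fffc5a_co.Defs

/-!
Uniformity of `(σ(s), σ(t))` over all permutations, for disjoint `k`-sets `s`, `t`.
-/

set_option autoImplicit false

open Finset

namespace Pool.Agent.Lib.MP_fffc5a_co

/-- A permutation which maps a pair of disjoint sets to another one. -/
theorem exists_perm_pair {α : Type*} [Fintype α] [DecidableEq α] {A B A' B' : Finset α}
    (hA : A.card = A'.card) (hB : B.card = B'.card) (hAB : Disjoint A B)
    (hAB' : Disjoint A' B') :
    ∃ τ : Equiv.Perm α, A.map τ.toEmbedding = A' ∧ B.map τ.toEmbedding = B' := by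
  classical
  let eA : A ≃ A' := Finset.equivOfCardEq hA
  let eB : B ≃ B' := Finset.equivOfCardEq hB
  let e : {x // x ∈ A ∪ B} ≃ {x // x ∈ A' ∪ B'} :=
    (Equiv.Finset.union A B hAB).symm.trans
      ((Equiv.sumCongr eA eB).trans (Equiv.Finset.union A' B' hAB'))
  refine ⟨e.extendSubtype, ?_, ?_⟩
  · apply Finset.eq_of_subset_of_card_le
    · intro y hy
      rw [Finset.mem_map] at hy
      obtain ⟨x, hx, rfl⟩ := hy
      have h1 : x ∈ A ∪ B := Finset.mem_union_left _ hx
      have h2 : e.extendSubtype x = e ⟨x, h1⟩ := Equiv.extendSubtype_apply_of_mem e x h1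
      have h3 : (Equiv.Finset.union A B hAB).symm ⟨x, h1⟩ = Sum.inl ⟨x, hx⟩ := by
        rw [Equiv.symm_apply_eq]
        rfl
      change e.extendSubtype x ∈ A'
      rw [h2]
      change ((Equiv.Finset.union A' B' hAB') ((Equiv.sumCongr eA eB)
        ((Equiv.Finset.union A B hAB).symm ⟨x, h1⟩)) : α) ∈ A'
      rw [h3]
      exact (eA ⟨x, hx⟩).2
    · rw [Finset.card_map, hA]
  · apply Finset.eq_of_subset_of_card_le
    · intro y hy
      rw [Finset.mem_map] at hy
      obtain ⟨x, hx, rfl⟩ := hy
      have h1 : x ∈ A ∪ B := Finset.mem_union_right _ hx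
      have h2 : e.extendSubtype x = e ⟨x, h1⟩ := Equiv.extendSubtype_apply_of_mem e x h1
      have h3 : (Equiv.Finset.union A B hAB).symm ⟨x, h1⟩ = Sum.inr ⟨x, hx⟩ := by
        rw [Equiv.symm_apply_eq]
        rfl
      change e.extendSubtype x ∈ B'
      rw [h2]
      change ((Equiv.Finset.union A' B' hAB') ((Equiv.sumCongr eA eB)
        ((Equiv.Finset.union A B hAB).symm ⟨x, h1⟩)) : α) ∈ B'
      rw [h3]
      exact (eB ⟨x, hx⟩).2
    · rw [Finset.card_map, hB]

/-- The number of ordered pairs of disjoint `k`-sets. -/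
theorem card_disj_pairs {α : Type*} [Fintype α] [DecidableEq α] (k : ℕ) :
    (((powersetCard k (univ : Finset α)) ×ˢ (powersetCard k (univ : Finset α))).filter
      fun p => Disjoint p.1 p.2).card =
      (Fintype.card α).choose k * (Fintype.card α - k).choose k := by
  classical
  have h1 : (((powersetCard k (univ : Finset α)) ×ˢ (powersetCard k (univ : Finset α))).filter
      fun p => Disjoint p.1 p.2) =
      (powersetCard k (univ : Finset α)).biUnion
        fun A => (powersetCard k (Aᶜ)).image fun B => (A, B) := by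
    ext ⟨A, B⟩
    simp only [mem_filter, mem_product, mem_powersetCard, mem_biUnion, mem_image, Prod.mk.injEq,
      subset_univ, true_and]
    constructor
    · rintro ⟨⟨hA, hB⟩, hd⟩
      exact ⟨A, hA, B, ⟨Finset.subset_compl_iff_disjoint_left.2 hd, hB⟩, rfl, rfl⟩
    · rintro ⟨A', hA', B', ⟨hB', hB''⟩, rfl, rfl⟩
      exact ⟨⟨hA', hB''⟩, Finset.subset_compl_iff_disjoint_left.1 hB'⟩
  rw [h1, Finset.card_biUnion]
  · have h2 : ∀ A ∈ powersetCard k (univ : Finset α),
        ((powersetCard k (Aᶜ)).image fun B => (A, B)).card = (Fintype.card α - k).choose k := by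
      intro A hA
      rw [mem_powersetCard] at hA
      rw [Finset.card_image_of_injective _ (fun B B' h => (Prod.mk.inj h).2),
        card_powersetCard, card_compl, hA.2]
    rw [Finset.sum_congr rfl h2, Finset.sum_const, card_powersetCard, card_univ, smul_eq_mul]
  · intro A _ A' _ hne
    rw [Function.onFun, Finset.disjoint_left]
    rintro ⟨C, D⟩ h h'
    simp only [mem_image, Prod.mk.injEq] at h h'
    obtain ⟨_, _, rfl, _⟩ := h
    obtain ⟨_, _, h'', _⟩ := h'
    exact hne h''.symm

theorem unif_two {α : Type*} [Fintype α] [DecidableEq α] {k : ℕ} (F : Finset (Finset α))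
    (hF : ∀ s ∈ F, s.card = k) (s t : Finset α) (hs : s.card = k) (ht : t.card = k)
    (hst : Disjoint s t) :
    (univ.filter fun σ : Equiv.Perm α =>
      s.map σ.toEmbedding ∈ F ∧ t.map σ.toEmbedding ∈ F).card *
      ((Fintype.card α).choose k * (Fintype.card α - k).choose k) =
      dp F F * (Fintype.card α).factorial := by
  classical
  -- the number of permutations which map `(s, t)` to `p`
  let N : Finset α × Finset α → ℕ := fun p =>
    (univ.filter fun σ : Equiv.Perm α =>
      s.map σ.toEmbedding = p.1 ∧ t.map σ.toEmbedding = p.2).card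
  have hN : ∀ p : Finset α × Finset α, p.1.card = k → p.2.card = k → Disjoint p.1 p.2 →
      N p = N (s, t) := by
    rintro ⟨A, B⟩ hA hB hd
    obtain ⟨τ, h1, h2⟩ := exists_perm_pair (hs.trans hA.symm) (ht.trans hB.symm) hst hd
    have h3 : ∀ (C : Finset α) (σ : Equiv.Perm α),
        C.map (τ * σ).toEmbedding = (C.map σ.toEmbedding).map τ.toEmbedding := by
      intro C σ
      rw [Finset.map_map]
      rfl
    symm
    apply Finset.card_bij (fun σ _ => τ * σ)
    · intro σ hσ
      simp only [mem_filter, mem_univ, true_and] at hσ ⊢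
      rw [h3, h3, hσ.1, hσ.2]
      exact ⟨h1, h2⟩
    · intro σ _ σ' _ h
      exact mul_left_cancel h
    · intro σ hσ
      simp only [mem_filter, mem_univ, true_and] at hσ
      refine ⟨τ⁻¹ * σ, ?_, mul_inv_cancel_left τ σ⟩
      simp only [mem_filter, mem_univ, true_and]
      have h4 : ∀ C : Finset α, (C.map (τ⁻¹ * σ).toEmbedding).map τ.toEmbedding =
          C.map σ.toEmbedding := by
        intro C
        rw [← h3, mul_inv_cancel_left]
      constructor
      · apply Finset.map_injective τ.toEmbedding
        rw [h4, h1]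
        exact hσ.1
      · apply Finset.map_injective τ.toEmbedding
        rw [h4, h2]
        exact hσ.2
  -- fibre counting for an arbitrary family
  have hG : ∀ G : Finset (Finset α), (∀ u ∈ G, u.card = k) →
      (univ.filter fun σ : Equiv.Perm α =>
        s.map σ.toEmbedding ∈ G ∧ t.map σ.toEmbedding ∈ G).card = dp G G * N (s, t) := by
    intro G hGk
    have h1 : (univ.filter fun σ : Equiv.Perm α =>
        s.map σ.toEmbedding ∈ G ∧ t.map σ.toEmbedding ∈ G).card =
        ∑ p ∈ (G ×ˢ G).filter (fun p => Disjoint p.1 p.2),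
          ((univ.filter fun σ : Equiv.Perm α =>
            s.map σ.toEmbedding ∈ G ∧ t.map σ.toEmbedding ∈ G).filter
              fun σ => (s.map σ.toEmbedding, t.map σ.toEmbedding) = p).card := by
      apply Finset.card_eq_sum_card_fiberwise
      intro σ hσ
      simp only [coe_filter, mem_univ, true_and, Set.mem_setOf_eq] at hσ
      simp only [coe_filter, mem_product, Set.mem_setOf_eq]
      exact ⟨hσ, (Finset.disjoint_map _).2 hst⟩
    rw [h1, dp]
    rw [Finset.card_eq_sum_ones, Finset.sum_mul]
    apply Finset.sum_congr rfl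
    rintro ⟨A, B⟩ hp
    simp only [mem_filter, mem_product] at hp
    rw [one_mul, ← hN (A, B) (hGk _ hp.1.1) (hGk _ hp.1.2) hp.2]
    congr 1
    ext σ
    simp only [mem_filter, mem_univ, true_and, Prod.mk.injEq]
    constructor
    · rintro ⟨_, h⟩
      exact h
    · rintro ⟨h, h'⟩
      rw [h, h']
      exact ⟨hp.1, rfl, rfl⟩
  have hall := hG (powersetCard k univ) (fun u hu => (mem_powersetCard.1 hu).2)
  have huniv : (univ.filter fun σ : Equiv.Perm α =>
        s.map σ.toEmbedding ∈ powersetCard k (univ : Finset α) ∧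
        t.map σ.toEmbedding ∈ powersetCard k (univ : Finset α)).card =
        (Fintype.card α).factorial := by
    rw [Finset.filter_true_of_mem, Finset.card_univ, Fintype.card_perm]
    intro σ _
    simp only [mem_powersetCard, subset_univ, card_map, true_and]
    exact ⟨hs, ht⟩
  have hdp : dp (powersetCard k (univ : Finset α)) (powersetCard k (univ : Finset α)) =
      (Fintype.card α).choose k * (Fintype.card α - k).choose k := card_disj_pairs k
  rw [huniv, hdp] at hall
  rw [hG F hF, hall]
  ring

end Pool.Agent.Lib.MP_fffc5a_co
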