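import Mathlib
import Pool.Agent.Lib.MP_fffc5a_co.Defs
import Pool.Agent.Lib.MP_fffc5a_co.Katona
import Pool.Agent.Lib.MP_fffc5a_co.Itv
import Pool.Agent.Lib.MP_fffc5a_co.Unif1
import Pool.Agent.Lib.MP_fffc5a_co.Unif2

set_option autoImplicit false

open Finset

namespace Pool.Agent.Lib.MP_fffc5a_co

/-! A6 NonStar.lean -/

open Classical in
/-- the intervals of the cyclic order which belong to the family -/
noncomputable def a6J {n : ℕ} [NeZero n] (k : ℕ) (F : Finset (Finset (ZMod n)))
    (σ : Equiv.Perm (ZMod n)) : Finset (ZMod n) :=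
  univ.filter fun i => (itv n k i).map σ.toEmbedding ∈ F

open Classical in
/-- cyclic orders with two disjoint intervals in the family -/
noncomputable def a6B {n : ℕ} [NeZero n] (k : ℕ) (F : Finset (Finset (ZMod n))) :
    Finset (Equiv.Perm (ZMod n)) :=
  univ.filter fun σ => ∃ i j, Disjoint (itv n k i) (itv n k j) ∧
    (itv n k i).map σ.toEmbedding ∈ F ∧ (itv n k j).map σ.toEmbedding ∈ F

theorem a6_B_card {n k : ℕ} [NeZero n] (hn : 2 * k + 1 ≤ n)
    (F : Finset (Finset (ZMod n))) (hF : ∀ s ∈ F, s.card = k) :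
    (a6B k F).card * (n.choose k * (n - k).choose k) ≤ n ^ 2 * (dp F F * n.factorial) := by
  classical
  have hsub : a6B k F ⊆ ((univ : Finset (ZMod n × ZMod n)).filter
      fun p => Disjoint (itv n k p.1) (itv n k p.2)).biUnion
      fun p => univ.filter fun σ : Equiv.Perm (ZMod n) =>
        (itv n k p.1).map σ.toEmbedding ∈ F ∧ (itv n k p.2).map σ.toEmbedding ∈ F := by
    intro σ hσ
    unfold a6B at hσ
    obtain ⟨i, j, h1, h2, h3⟩ := (mem_filter.1 hσ).2
    exact mem_biUnion.2 ⟨(i, j), mem_filter.2 ⟨mem_univ _, h1⟩, mem_filter.2 ⟨mem_univ _, h2, h3⟩⟩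
  have h1 : (a6B k F).card ≤ ∑ p ∈ (univ : Finset (ZMod n × ZMod n)).filter
      (fun p => Disjoint (itv n k p.1) (itv n k p.2)),
      (univ.filter fun σ : Equiv.Perm (ZMod n) =>
        (itv n k p.1).map σ.toEmbedding ∈ F ∧ (itv n k p.2).map σ.toEmbedding ∈ F).card :=
    (card_le_card hsub).trans card_biUnion_le
  have hkn : k ≤ n := by omega
  have h2 : ∀ p ∈ (univ : Finset (ZMod n × ZMod n)).filter
      (fun p => Disjoint (itv n k p.1) (itv n k p.2)),
      (univ.filter fun σ : Equiv.Perm (ZMod n) =>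
        (itv n k p.1).map σ.toEmbedding ∈ F ∧ (itv n k p.2).map σ.toEmbedding ∈ F).card *
        (n.choose k * (n - k).choose k) = dp F F * n.factorial := by
    intro p hp
    have h3 := unif_two F hF (itv n k p.1) (itv n k p.2) (card_itv hkn _) (card_itv hkn _)
      (mem_filter.1 hp).2
    rw [ZMod.card] at h3
    convert h3 using 2
  calc (a6B k F).card * (n.choose k * (n - k).choose k)
      ≤ (∑ p ∈ (univ : Finset (ZMod n × ZMod n)).filter
        (fun p => Disjoint (itv n k p.1) (itv n k p.2)),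
        (univ.filter fun σ : Equiv.Perm (ZMod n) =>
        (itv n k p.1).map σ.toEmbedding ∈ F ∧ (itv n k p.2).map σ.toEmbedding ∈ F).card) *
        (n.choose k * (n - k).choose k) := Nat.mul_le_mul_right _ h1
    _ = ∑ p ∈ (univ : Finset (ZMod n × ZMod n)).filter
        (fun p => Disjoint (itv n k p.1) (itv n k p.2)), dp F F * n.factorial := by
        rw [sum_mul]
        exact sum_congr rfl h2
    _ = ((univ : Finset (ZMod n × ZMod n)).filter
        (fun p => Disjoint (itv n k p.1) (itv n k p.2))).card * (dp F F * n.factorial) := by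
        rw [sum_const, smul_eq_mul]
    _ ≤ n ^ 2 * (dp F F * n.factorial) := by
        apply Nat.mul_le_mul_right
        refine (card_le_univ _).trans ?_
        rw [Fintype.card_prod, ZMod.card, sq]

theorem a6_J_le {n k : ℕ} [NeZero n] (hk : 1 ≤ k) (hn : 2 * k + 1 ≤ n)
    (F : Finset (Finset (ZMod n))) {σ : Equiv.Perm (ZMod n)} (hσ : σ ∉ a6B k F) :
    (a6J k F σ).card ≤ k ∧ ((a6J k F σ).card = k → ∃ c, StarAt n k F σ c) := by
  classical
  have hJ : ∀ i ∈ a6J k F σ, ∀ j ∈ a6J k F σ, (j - i).val < k ∨ (i - j).val < k := by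
    intro i hi j hj
    apply val_of_not_disjoint_itv
    intro hd
    apply hσ
    unfold a6J at hi hj
    exact mem_filter.2 ⟨mem_univ _, i, j, hd, (mem_filter.1 hi).2, (mem_filter.1 hj).2⟩
  obtain ⟨h1, h2⟩ := katona_circle hk hn _ hJ
  refine ⟨h1, fun h => ?_⟩
  obtain ⟨c, hc⟩ := h2 h
  refine ⟨c, fun i => ?_⟩
  rw [mem_itv, ← hc i]
  unfold a6J
  simp

open Classical in
/-- summation over all cyclic orders -/
theorem a6_sum {n k : ℕ} [NeZero n] (hk : 1 ≤ k) (hn : 2 * k + 1 ≤ n)
    (F : Finset (Finset (ZMod n))) (hF : ∀ s ∈ F, s.card = k)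
    (hL : (n - 1).choose (k - 1) ≤ F.card) :
    k * n.factorial ≤ ∑ σ : Equiv.Perm (ZMod n), (a6J k F σ).card := by
  have hkn : k ≤ n := by omega
  have hpos : 0 < n.choose k := Nat.choose_pos hkn
  have h1 : ∑ σ : Equiv.Perm (ZMod n), (a6J k F σ).card =
      ∑ i : ZMod n, (univ.filter fun σ : Equiv.Perm (ZMod n) =>
        (itv n k i).map σ.toEmbedding ∈ F).card := by
    unfold a6J
    simp only [card_filter]
    exact sum_comm
  have h2 : (∑ i : ZMod n, (univ.filter fun σ : Equiv.Perm (ZMod n) =>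
        (itv n k i).map σ.toEmbedding ∈ F).card) * n.choose k =
      n * (F.card * n.factorial) := by
    rw [sum_mul]
    have h3 : ∀ i ∈ (univ : Finset (ZMod n)), (univ.filter fun σ : Equiv.Perm (ZMod n) =>
        (itv n k i).map σ.toEmbedding ∈ F).card * n.choose k = F.card * n.factorial := by
      intro i _
      have h4 := unif_one F hF (itv n k i) (card_itv hkn _)
      rw [ZMod.card] at h4
      convert h4 using 3
    rw [sum_congr rfl h3, sum_const, smul_eq_mul, card_univ, ZMod.card]
  have h5 : n * (n - 1).choose (k - 1) = k * n.choose k := by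
    obtain ⟨m, rfl⟩ : ∃ m, n = m + 1 := ⟨n - 1, by omega⟩
    obtain ⟨l, rfl⟩ : ∃ l, k = l + 1 := ⟨k - 1, by omega⟩
    have := Nat.add_one_mul_choose_eq m l
    simp only [Nat.add_sub_cancel]
    rw [this, mul_comm]
  apply Nat.le_of_mul_le_mul_right _ hpos
  rw [h1, h2]
  calc k * n.factorial * n.choose k = (k * n.choose k) * n.factorial := by ring
    _ = n * ((n - 1).choose (k - 1) * n.factorial) := by rw [← h5]; ring
    _ ≤ n * (F.card * n.factorial) :=
        Nat.mul_le_mul_left _ (Nat.mul_le_mul_right _ hL)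

open Classical in
theorem nonstar_bound {n k : ℕ} [NeZero n] (hk : 1 ≤ k) (hn : 2 * k + 1 ≤ n)
    (F : Finset (Finset (ZMod n))) (hF : ∀ s ∈ F, s.card = k)
    (hL : (n - 1).choose (k - 1) ≤ F.card) :
    (univ.filter fun σ : Equiv.Perm (ZMod n) => ¬ ∃ c, StarAt n k F σ c).card *
      (n.choose k * (n - k).choose k) ≤ n ^ 3 * (dp F F * n.factorial) := by
  set NS := univ.filter fun σ : Equiv.Perm (ZMod n) => ¬ ∃ c, StarAt n k F σ c with hNS
  set M := n.choose k * (n - k).choose k with hM
  have hcard : (univ : Finset (Equiv.Perm (ZMod n))).card = n.factorial := by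
    rw [card_univ, Fintype.card_perm, ZMod.card]
  -- pointwise
  have hpt : ∀ σ ∈ (univ : Finset (Equiv.Perm (ZMod n))),
      (a6J k F σ).card + (if σ ∈ NS \ a6B k F then 1 else 0) ≤
        k + (if σ ∈ a6B k F then n - k else 0) := by
    intro σ _
    by_cases hB : σ ∈ a6B k F
    · rw [if_pos hB, if_neg (fun h => (mem_sdiff.1 h).2 hB)]
      have : (a6J k F σ).card ≤ n := by
        refine (card_le_univ _).trans ?_
        rw [ZMod.card]
      omega
    · rw [if_neg hB]
      obtain ⟨h1, h2⟩ := a6_J_le hk hn F hB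
      by_cases hN : σ ∈ NS
      · rw [if_pos (mem_sdiff.2 ⟨hN, hB⟩)]
        have h3 : (a6J k F σ).card ≠ k := fun h => (mem_filter.1 hN).2 (h2 h)
        omega
      · rw [if_neg (fun h => hN (mem_sdiff.1 h).1)]
        omega
  have hsum := sum_le_sum hpt
  rw [sum_add_distrib, sum_add_distrib, sum_const, smul_eq_mul, hcard, ← card_filter,
    sum_ite_mem, univ_inter, sum_const, smul_eq_mul] at hsum
  have hf : (univ.filter fun σ => σ ∈ NS \ a6B k F) = NS \ a6B k F := by
    ext σ; simp
  rw [hf] at hsum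
  have hlow := a6_sum hk hn F hF hL
  have h1 : (NS \ a6B k F).card ≤ (a6B k F).card * (n - k) := by
    rw [mul_comm n.factorial k] at hsum
    omega
  have h2 : NS.card ≤ (a6B k F).card + (NS \ a6B k F).card := by
    have h3 : NS ⊆ a6B k F ∪ (NS \ a6B k F) := by
      intro σ hσ
      by_cases hB : σ ∈ a6B k F
      · exact mem_union_left _ hB
      · exact mem_union_right _ (mem_sdiff.2 ⟨hσ, hB⟩)
    exact (card_le_card h3).trans (card_union_le _ _)
  have h4 : NS.card ≤ (a6B k F).card * n := by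
    have h5 : (a6B k F).card * (n - k) + (a6B k F).card ≤ (a6B k F).card * n := by
      rw [← Nat.mul_succ]
      exact Nat.mul_le_mul_left _ (by omega)
    omega
  calc NS.card * M ≤ (a6B k F).card * n * M := Nat.mul_le_mul_right _ h4
    _ = n * ((a6B k F).card * M) := by ring
    _ ≤ n * (n ^ 2 * (dp F F * n.factorial)) :=
        Nat.mul_le_mul_left _ (a6_B_card hn F hF)
    _ = n ^ 3 * (dp F F * n.factorial) := by ring

end Pool.Agent.Lib.MP_fffc5a_co
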