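import Mathlib
import Pool.Agent.Lib.MP_fffc5a_co.Defs

set_option autoImplicit false

open Finset

namespace Pool.Agent.Lib.MP_fffc5a_co

open Classical in
/-- the number of permutations on which `g` changes under right multiplication by `π` -/
noncomputable def a7_d {n : ℕ} [NeZero n] (g : Equiv.Perm (ZMod n) → Prop)
    (π : Equiv.Perm (ZMod n)) : ℕ := (univ.filter fun σ => ¬ (g σ ↔ g (σ * π))).card

lemma a7_d_one {n : ℕ} [NeZero n] (g : Equiv.Perm (ZMod n) → Prop) : a7_d g 1 = 0 := by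
  classical
  unfold a7_d
  rw [Finset.card_eq_zero, Finset.filter_eq_empty_iff]
  intro σ _
  simp

lemma a7_d_mul {n : ℕ} [NeZero n] (g : Equiv.Perm (ZMod n) → Prop)
    (π ρ : Equiv.Perm (ZMod n)) : a7_d g (π * ρ) ≤ a7_d g π + a7_d g ρ := by
  classical
  have h1 : (univ.filter fun σ : Equiv.Perm (ZMod n) =>
      ¬ (g (σ * π) ↔ g (σ * π * ρ))).card = a7_d g ρ := by
    unfold a7_d
    refine Finset.card_bij (fun σ _ => σ * π) ?_ ?_ ?_
    · intro σ hσ
      simpa using hσ
    · intro σ _ τ _ h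
      exact mul_right_cancel h
    · intro τ hτ
      refine ⟨τ * π⁻¹, ?_, by simp⟩
      simpa using hτ
  rw [← h1]
  unfold a7_d
  refine (Finset.card_le_card ?_).trans (Finset.card_union_le _ _)
  intro σ hσ
  simp only [Finset.mem_filter, Finset.mem_univ, true_and, Finset.mem_union, mul_assoc] at hσ ⊢
  tauto

lemma a7_cast_ne {n : ℕ} [NeZero n] {a b : ℕ} (ha : a < n) (hb : b < n) (h : a ≠ b) :
    (a : ZMod n) ≠ (b : ZMod n) := by
  intro hc
  apply h
  have := congrArg ZMod.val hc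
  rwa [ZMod.val_natCast_of_lt ha, ZMod.val_natCast_of_lt hb] at this

lemma a7_swap {n : ℕ} [NeZero n] (g : Equiv.Perm (ZMod n) → Prop) (D : ℕ)
    (hD : ∀ a : ZMod n, a ≠ 0 → a + 1 ≠ 0 → a7_d g (Equiv.swap a (a + 1)) ≤ D)
    (a : ℕ) (ha : 1 ≤ a) (m : ℕ) (hm : a + (m + 1) < n) :
    a7_d g (Equiv.swap (a : ZMod n) ((a + (m + 1) : ℕ) : ZMod n)) ≤ (2 * m + 1) * D := by
  induction m with
  | zero =>
    have h1 : ((a + (0 + 1) : ℕ) : ZMod n) = (a : ZMod n) + 1 := by push_cast; ring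
    rw [h1, Nat.mul_zero, zero_add, one_mul]
    refine hD _ ?_ ?_
    · have := a7_cast_ne (n := n) (a := a) (b := 0) (by omega) (by omega) (by omega)
      simpa using this
    · rw [← h1]
      have := a7_cast_ne (n := n) (a := a + (0 + 1)) (b := 0) (by omega) (by omega) (by omega)
      simpa using this
  | succ m ih =>
    have ih' := ih (by omega)
    set b : ZMod n := ((a + (m + 1) : ℕ) : ZMod n) with hb
    have h1 : ((a + (m + 1 + 1) : ℕ) : ZMod n) = b + 1 := by rw [hb]; push_cast; ring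
    have hab : (a : ZMod n) ≠ b := a7_cast_ne (by omega) (by omega) (by omega)
    have hab1 : (a : ZMod n) ≠ b + 1 := by
      rw [← h1]
      exact a7_cast_ne (by omega) (by omega) (by omega)
    have hb0 : b ≠ 0 := by
      have := a7_cast_ne (n := n) (a := a + (m + 1)) (b := 0) (by omega) (by omega) (by omega)
      rwa [Nat.cast_zero] at this
    have hb1 : b + 1 ≠ 0 := by
      rw [← h1]
      have := a7_cast_ne (n := n) (a := a + (m + 1 + 1)) (b := 0) (by omega) (by omega) (by omega)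
      simpa using this
    have h2 : Equiv.swap (a : ZMod n) (b + 1)
        = Equiv.swap b (b + 1) * Equiv.swap (a : ZMod n) b * Equiv.swap b (b + 1) := by
      rw [Equiv.mul_swap_eq_swap_mul (Equiv.swap b (b + 1)) (a : ZMod n) b,
        Equiv.swap_apply_left, Equiv.swap_apply_of_ne_of_ne hab hab1,
        mul_assoc, Equiv.swap_mul_self, mul_one]
    rw [h1, h2]
    calc a7_d g (Equiv.swap b (b + 1) * Equiv.swap (a : ZMod n) b * Equiv.swap b (b + 1))
        ≤ a7_d g (Equiv.swap b (b + 1) * Equiv.swap (a : ZMod n) b)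
          + a7_d g (Equiv.swap b (b + 1)) := a7_d_mul g _ _
      _ ≤ (a7_d g (Equiv.swap b (b + 1)) + a7_d g (Equiv.swap (a : ZMod n) b))
          + a7_d g (Equiv.swap b (b + 1)) := by gcongr; exact a7_d_mul g _ _
      _ ≤ (D + (2 * m + 1) * D) + D := by
          gcongr
          · exact hD b hb0 hb1
          · exact hD b hb0 hb1
      _ = (2 * (m + 1) + 1) * D := by ring

lemma a7_swap' {n : ℕ} [NeZero n] (g : Equiv.Perm (ZMod n) → Prop) (D : ℕ)
    (hD : ∀ a : ZMod n, a ≠ 0 → a + 1 ≠ 0 → a7_d g (Equiv.swap a (a + 1)) ≤ D)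
    (x y : ZMod n) (hx : x ≠ 0) (_hy : y ≠ 0) (hxy : x.val < y.val) :
    a7_d g (Equiv.swap x y) ≤ 2 * n * D := by
  have hx1 : 1 ≤ x.val := Nat.one_le_iff_ne_zero.2 fun h => hx ((ZMod.val_eq_zero x).1 h)
  have hy1 := ZMod.val_lt y
  obtain ⟨m, hm⟩ : ∃ m, y.val = x.val + (m + 1) := ⟨y.val - x.val - 1, by omega⟩
  have h := a7_swap g D hD x.val hx1 m (by omega)
  rw [← hm, ZMod.natCast_zmod_val, ZMod.natCast_zmod_val] at h
  refine h.trans (Nat.mul_le_mul_right _ ?_)
  omega

lemma a7_swap'' {n : ℕ} [NeZero n] (g : Equiv.Perm (ZMod n) → Prop) (D : ℕ)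
    (hD : ∀ a : ZMod n, a ≠ 0 → a + 1 ≠ 0 → a7_d g (Equiv.swap a (a + 1)) ≤ D)
    (x y : ZMod n) (hx : x ≠ 0) (hy : y ≠ 0) : a7_d g (Equiv.swap x y) ≤ 2 * n * D := by
  rcases lt_trichotomy x.val y.val with h | h | h
  · exact a7_swap' g D hD x y hx hy h
  · have : x = y := ZMod.val_injective n h
    rw [this, Equiv.swap_self]
    have h1 : a7_d g (Equiv.refl (ZMod n)) = 0 := a7_d_one g
    rw [h1]
    exact Nat.zero_le _
  · rw [Equiv.swap_comm]
    exact a7_swap' g D hD y x hy hx h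

lemma a7_main {n : ℕ} [NeZero n] (g : Equiv.Perm (ZMod n) → Prop) (D : ℕ)
    (hD : ∀ a : ZMod n, a ≠ 0 → a + 1 ≠ 0 → a7_d g (Equiv.swap a (a + 1)) ≤ D) (s : ℕ)
    (π : Equiv.Perm (ZMod n)) (hs : π.support.card ≤ s) (hπ : π 0 = 0) :
    a7_d g π ≤ s * (2 * n * D) := by
  classical
  induction s generalizing π with
  | zero =>
    have h1 : π = 1 := by
      rw [← Equiv.Perm.card_support_eq_zero]
      omega
    rw [h1, a7_d_one]
    exact Nat.zero_le _
  | succ s ih =>
    by_cases h1 : π = 1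
    · rw [h1, a7_d_one]
      exact Nat.zero_le _
    · obtain ⟨x, hx⟩ : ∃ x, π x ≠ x := by
        by_contra hcon
        push Not at hcon
        exact h1 (Equiv.ext hcon)
      have hx0 : x ≠ 0 := fun h => hx (by rw [h, hπ])
      have hx1 : π x ≠ 0 := fun h => hx0 (π.injective (by rw [h, hπ]))
      have h2 := Equiv.Perm.card_support_swap_mul hx
      have h3 : (Equiv.swap x (π x) * π) 0 = 0 := by
        rw [Equiv.Perm.mul_apply, hπ, Equiv.swap_apply_of_ne_of_ne hx0.symm hx1.symm]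
      have h4 := ih (Equiv.swap x (π x) * π) (by omega) h3
      have h5 : π = Equiv.swap x (π x) * (Equiv.swap x (π x) * π) := by
        rw [← mul_assoc, Equiv.swap_mul_self, one_mul]
      calc a7_d g π = a7_d g (Equiv.swap x (π x) * (Equiv.swap x (π x) * π)) := by rw [← h5]
        _ ≤ a7_d g (Equiv.swap x (π x)) + a7_d g (Equiv.swap x (π x) * π) := a7_d_mul g _ _
        _ ≤ 2 * n * D + s * (2 * n * D) := by
            gcongr
            exact a7_swap'' g D hD x (π x) hx0 hx1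
        _ = (s + 1) * (2 * n * D) := by ring

open Classical in
theorem path_bound {n : ℕ} [NeZero n] (g : Equiv.Perm (ZMod n) → Prop) (D : ℕ)
    (hD : ∀ a : ZMod n, a ≠ 0 → a + 1 ≠ 0 →
      (univ.filter fun σ => ¬ (g σ ↔ g (σ * Equiv.swap a (a + 1)))).card ≤ D)
    (π : Equiv.Perm (ZMod n)) (hπ : π 0 = 0) :
    (univ.filter fun σ => ¬ (g σ ↔ g (σ * π))).card ≤ 2 * n ^ 2 * D := by
  have h1 : π.support.card ≤ n := by
    have := Finset.card_le_univ π.support
    rwa [ZMod.card] at this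
  have h2 := a7_main g D (fun a ha hb => by
    have := hD a ha hb
    unfold a7_d
    convert this) n π h1 hπ
  unfold a7_d at h2
  calc _ = _ := by congr
    _ ≤ _ := h2
    _ = 2 * n ^ 2 * D := by ring

end Pool.Agent.Lib.MP_fffc5a_co
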