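import Mathlib
import Pool.Agent.Lib.MP_fffc5a_co.Defs

/-!
Rotation: the centre is at every position equally often.
-/

set_option autoImplicit false

open Finset

namespace Pool.Agent.Lib.MP_fffc5a_co

lemma a5_mem {n k : ℕ} [NeZero n] (i x : ZMod n) : x ∈ itv n k i ↔ (x - i).val < k := by
  simp [itv]

lemma a5_map {n k : ℕ} [NeZero n] (i a : ZMod n) :
    (itv n k i).map (Equiv.addRight a).toEmbedding = itv n k (i + a) := by
  ext x
  rw [Finset.mem_map]
  constructor
  · rintro ⟨y, hy, rfl⟩
    rw [a5_mem] at hy ⊢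
    have h1 : (Equiv.addRight a).toEmbedding y = y + a := rfl
    rw [h1, add_sub_add_right_eq_sub]
    exact hy
  · intro hx
    refine ⟨x - a, ?_, ?_⟩
    · rw [a5_mem] at hx ⊢
      have h1 : x - a - i = x - (i + a) := by ring
      rw [h1]
      exact hx
    · show x - a + a = x
      ring

/-- the centre is unique -/
lemma a5_unique {n k : ℕ} [NeZero n] (hk : 1 ≤ k) (hn : 2 * k + 1 ≤ n)
    {F : Finset (Finset (ZMod n))} {σ : Equiv.Perm (ZMod n)} {c c' : ZMod n}
    (h : StarAt n k F σ c) (h' : StarAt n k F σ c') : c = c' := by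
  have key : ∀ i, c ∈ itv n k i ↔ c' ∈ itv n k i := fun i => (h i).symm.trans (h' i)
  have h1 : (c' - c).val < k := by
    have := (key c).mp (by rw [a5_mem, sub_self, ZMod.val_zero]; omega)
    rwa [a5_mem] at this
  have hv : ((k - 1 : ℕ) : ZMod n).val = k - 1 := ZMod.val_cast_of_lt (by omega)
  have h2 : (c' - c + ((k - 1 : ℕ) : ZMod n)).val < k := by
    have := (key (c - ((k - 1 : ℕ) : ZMod n))).mp (by
      rw [a5_mem, sub_sub_cancel, hv]
      omega)
    rw [a5_mem] at this
    have h3 : c' - c + ((k - 1 : ℕ) : ZMod n) = c' - (c - ((k - 1 : ℕ) : ZMod n)) := by ring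
    rw [h3]
    exact this
  rw [ZMod.val_add_of_lt (by rw [hv]; omega), hv] at h2
  have h3 : (c' - c).val = 0 := by omega
  rw [ZMod.val_eq_zero, sub_eq_zero] at h3
  exact h3.symm

lemma a5_rot {n k : ℕ} [NeZero n] (F : Finset (Finset (ZMod n))) (σ : Equiv.Perm (ZMod n))
    (c : ZMod n) : StarAt n k F (σ * Equiv.addRight c) 0 ↔ StarAt n k F σ c := by
  have h1 : ∀ i : ZMod n, (itv n k i).map (σ * Equiv.addRight c).toEmbedding =
      (itv n k (i + c)).map σ.toEmbedding := by
    intro i
    rw [← a5_map, Finset.map_map]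
    rfl
  have h2 : ∀ i : ZMod n, (0 : ZMod n) ∈ itv n k i ↔ c ∈ itv n k (i + c) := by
    intro i
    rw [a5_mem, a5_mem]
    have h3 : (0 : ZMod n) - i = c - (i + c) := by ring
    rw [h3]
  constructor
  · intro h i
    have h3 := h (i - c)
    rw [h1, h2, sub_add_cancel] at h3
    exact h3
  · intro h i
    rw [h1, h2]
    exact h (i + c)

open Classical in
/-- rotation: the centre is at every position equally often -/
theorem card_star_rot {n k : ℕ} [NeZero n] (hk : 1 ≤ k) (hn : 2 * k + 1 ≤ n)
    (F : Finset (Finset (ZMod n))) (P : ZMod n → Prop) :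
    (univ.filter fun σ : Equiv.Perm (ZMod n) => ∃ c, StarAt n k F σ c ∧ P (σ c)).card =
      n * (univ.filter fun σ : Equiv.Perm (ZMod n) => StarAt n k F σ 0 ∧ P (σ 0)).card := by
  have h1 : (univ.filter fun σ : Equiv.Perm (ZMod n) => ∃ c, StarAt n k F σ c ∧ P (σ c)) =
      (univ : Finset (ZMod n)).biUnion (fun c => univ.filter fun σ : Equiv.Perm (ZMod n) =>
        StarAt n k F σ c ∧ P (σ c)) := by
    ext σ
    simp
  rw [h1, Finset.card_biUnion]
  · have h2 : ∀ c ∈ (univ : Finset (ZMod n)),
        (univ.filter fun σ : Equiv.Perm (ZMod n) => StarAt n k F σ c ∧ P (σ c)).card =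
        (univ.filter fun σ : Equiv.Perm (ZMod n) => StarAt n k F σ 0 ∧ P (σ 0)).card := by
      intro c _
      refine Finset.card_bij (fun σ _ => σ * Equiv.addRight c) ?_ ?_ ?_
      · intro σ hσ
        rw [Finset.mem_filter] at hσ ⊢
        refine ⟨Finset.mem_univ _, (a5_rot F σ c).mpr hσ.2.1, ?_⟩
        have h3 : (σ * Equiv.addRight c) 0 = σ c := by
          rw [Equiv.Perm.mul_apply]
          congr 1
          exact zero_add c
        rw [h3]
        exact hσ.2.2
      · intro σ _ τ _ h
        exact mul_right_cancel h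
      · intro τ hτ
        rw [Finset.mem_filter] at hτ
        refine ⟨τ * (Equiv.addRight c)⁻¹, ?_, by group⟩
        have h4 : τ * (Equiv.addRight c)⁻¹ * Equiv.addRight c = τ := by group
        rw [Finset.mem_filter]
        refine ⟨Finset.mem_univ _, ?_, ?_⟩
        · rw [← a5_rot, h4]
          exact hτ.2.1
        · have h3 : (τ * (Equiv.addRight c)⁻¹) c = τ 0 := by
            rw [Equiv.Perm.mul_apply]
            congr 1
            rw [Equiv.Perm.inv_eq_iff_eq]
            exact (zero_add c).symm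
          rw [h3]
          exact hτ.2.2
    rw [Finset.sum_congr rfl h2, Finset.sum_const, Finset.card_univ, ZMod.card, smul_eq_mul]
  · intro c _ c' _ hne
    rw [Function.onFun, Finset.disjoint_left]
    intro σ hσ hσ'
    rw [Finset.mem_filter] at hσ hσ'
    exact hne (a5_unique hk hn hσ.2.1 hσ'.2.1)

end Pool.Agent.Lib.MP_fffc5a_co
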