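import Mathlib
import Pool.Agent.Lib.MP_fffc5a_co.Defs

set_option autoImplicit false

open Finset

namespace Pool.Agent.Lib.MP_fffc5a_co

theorem a4_mem_itv {n k : ℕ} [NeZero n] (i x : ZMod n) : x ∈ itv n k i ↔ (x - i).val < k := by
  unfold itv
  rw [mem_filter]
  exact ⟨fun h => h.2, fun h => ⟨mem_univ _, h⟩⟩

theorem starAt_unique {n k : ℕ} [NeZero n] (hk : 1 ≤ k) (hn : 2 * k + 1 ≤ n)
    {F : Finset (Finset (ZMod n))} {σ : Equiv.Perm (ZMod n)} {c c' : ZMod n}
    (h : StarAt n k F σ c) (h' : StarAt n k F σ c') : c = c' := by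
  have key : ∀ i : ZMod n, (c - i).val < k ↔ (c' - i).val < k := by
    intro i
    rw [← a4_mem_itv, ← a4_mem_itv, ← h i, ← h' i]
  have h1 := key c
  rw [sub_self, ZMod.val_zero] at h1
  have ht : (c' - c).val < k := h1.mp (by omega)
  have h2 := key (c - ((k - 1 : ℕ) : ZMod n))
  have e1 : c - (c - ((k - 1 : ℕ) : ZMod n)) = ((k - 1 : ℕ) : ZMod n) := by ring
  have e2 : c' - (c - ((k - 1 : ℕ) : ZMod n)) = (c' - c) + ((k - 1 : ℕ) : ZMod n) := by ring
  rw [e1, e2, ZMod.val_natCast, ZMod.val_add, ZMod.val_natCast, Nat.mod_eq_of_lt (by omega : k - 1 < n),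
    Nat.mod_eq_of_lt (by omega : (c' - c).val + (k - 1) < n)] at h2
  have h3 := h2.mp (by omega)
  have h4 : (c' - c).val = 0 := by omega
  rw [ZMod.val_eq_zero, sub_eq_zero] at h4
  exact h4.symm

theorem a4_map_swap {n k : ℕ} [NeZero n] (σ : Equiv.Perm (ZMod n)) (a b i : ZMod n)
    (hi : a ∈ itv n k i ↔ b ∈ itv n k i) :
    (itv n k i).map (σ * Equiv.swap a b).toEmbedding = (itv n k i).map σ.toEmbedding := by
  have h1 : (itv n k i).map (Equiv.swap a b).toEmbedding = itv n k i := by
    ext x
    rw [mem_map_equiv, Equiv.symm_swap]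
    by_cases hxa : x = a
    · rw [hxa, Equiv.swap_apply_left]
      exact hi.symm
    · by_cases hxb : x = b
      · rw [hxb, Equiv.swap_apply_right]
        exact hi
      · rw [Equiv.swap_apply_of_ne_of_ne hxa hxb]
  have h2 : (itv n k i).map (σ * Equiv.swap a b).toEmbedding =
      ((itv n k i).map (Equiv.swap a b).toEmbedding).map σ.toEmbedding := by
    rw [map_map]
    rfl
  rw [h2, h1]

theorem a4_arith (n k t E : ℕ) (hk : 1 ≤ k) (hn : 2 * k + 1 ≤ n) (ht0 : 1 ≤ t) (htn : t < n)
    (hE : E < n) (hE0 : E ≠ 0) (hE1 : E + 1 ≠ n)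
    (h : ∀ X < n, ∀ Y < n, (X + t = Y ∨ X + t = Y + n) → X ≠ E → X ≠ E + k → X + n ≠ E + k →
      (X < k ↔ Y < k)) : False := by
  have a1 := h 0 (by omega) t htn (by omega)
  have a2 := h (n - t) (by omega) 0 (by omega) (by omega)
  have a5 := h (n - 1) (by omega) (t - 1) (by omega) (by omega)
  have a6 := h (n - t - 1) (by omega) (n - 1) (by omega) (by omega)
  by_cases c1 : k - 1 + t < n
  · have a3 := h (k - 1) (by omega) (k - 1 + t) (by omega) (by omega)
    by_cases c2 : k + t < n
    · have a4 := h k (by omega) (k + t) (by omega) (by omega)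
      by_cases c3 : n - t + (k - 1) < n
      · have a7 := h (n - t + (k - 1)) (by omega) (k - 1) (by omega) (by omega)
        by_cases c4 : n - t + k < n
        · have a8 := h (n - t + k) (by omega) k (by omega) (by omega)
          omega
        · have a8 := h (n - t + k - n) (by omega) k (by omega) (by omega)
          omega
      · have a7 := h (n - t + (k - 1) - n) (by omega) (k - 1) (by omega) (by omega)
        have a8 := h (n - t + k - n) (by omega) k (by omega) (by omega)
        omega
    · have a4 := h k (by omega) (k + t - n) (by omega) (by omega)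
      by_cases c3 : n - t + (k - 1) < n
      · have a7 := h (n - t + (k - 1)) (by omega) (k - 1) (by omega) (by omega)
        by_cases c4 : n - t + k < n
        · have a8 := h (n - t + k) (by omega) k (by omega) (by omega)
          omega
        · have a8 := h (n - t + k - n) (by omega) k (by omega) (by omega)
          omega
      · have a7 := h (n - t + (k - 1) - n) (by omega) (k - 1) (by omega) (by omega)
        have a8 := h (n - t + k - n) (by omega) k (by omega) (by omega)
        omega
  · have a3 := h (k - 1) (by omega) (k - 1 + t - n) (by omega) (by omega)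
    have a4 := h k (by omega) (k + t - n) (by omega) (by omega)
    by_cases c3 : n - t + (k - 1) < n
    · have a7 := h (n - t + (k - 1)) (by omega) (k - 1) (by omega) (by omega)
      by_cases c4 : n - t + k < n
      · have a8 := h (n - t + k) (by omega) k (by omega) (by omega)
        omega
      · have a8 := h (n - t + k - n) (by omega) k (by omega) (by omega)
        omega
    · have a7 := h (n - t + (k - 1) - n) (by omega) (k - 1) (by omega) (by omega)
      have a8 := h (n - t + k - n) (by omega) k (by omega) (by omega)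
      omega

theorem a4_add_val {n : ℕ} [NeZero n] (x y : ZMod n) :
    x.val + y.val = (x + y).val ∨ x.val + y.val = (x + y).val + n := by
  have hx := ZMod.val_lt x
  have hy := ZMod.val_lt y
  rw [ZMod.val_add]
  rcases lt_or_ge (x.val + y.val) n with h | h
  · left
    rw [Nat.mod_eq_of_lt h]
  · right
    rw [Nat.mod_eq_sub_mod h, Nat.mod_eq_of_lt (by omega)]
    omega

/-- Corrected form: the centre `c` is at neither of the two swapped positions. -/
theorem starAt_swap {n k : ℕ} [NeZero n] (hk : 1 ≤ k) (hn : 2 * k + 1 ≤ n)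
    {F : Finset (Finset (ZMod n))} {σ : Equiv.Perm (ZMod n)} {c c' a : ZMod n}
    (hc : c ≠ a) (hc1 : c ≠ a + 1) (h : StarAt n k F σ c)
    (h' : StarAt n k F (σ * Equiv.swap a (a + 1)) c') : c' = c := by
  by_contra hne
  have hd : c' - c ≠ 0 := sub_ne_zero.mpr hne
  -- intervals which contain both or none of `a`, `a + 1`
  have key : ∀ i : ZMod n, (a ∈ itv n k i ↔ a + 1 ∈ itv n k i) →
      ((c - i).val < k ↔ (c' - i).val < k) := by
    intro i hi
    have h1 := h i
    have h2 := h' i
    rw [a4_map_swap σ a (a + 1) i hi] at h2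
    rw [← a4_mem_itv, ← a4_mem_itv, ← h1, ← h2]
  have hone : (1 : ZMod n).val = 1 := by
    have : Fact (1 < n) := ⟨by omega⟩
    exact ZMod.val_one n
  have hkv : ((k : ℕ) : ZMod n).val = k := by
    rw [ZMod.val_natCast, Nat.mod_eq_of_lt (by omega)]
  refine a4_arith n k (c' - c).val (c - a - 1).val hk hn ?_ (ZMod.val_lt _) (ZMod.val_lt _) ?_ ?_ ?_
  · have : (c' - c).val ≠ 0 := by
      rw [Ne, ZMod.val_eq_zero]
      exact hd
    omega
  · rw [Ne, ZMod.val_eq_zero]
    intro h0
    apply hc1
    linear_combination h0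
  · intro h0
    apply hc
    have h1 := a4_add_val (c - a - 1) 1
    rw [hone] at h1
    have h2 : (c - a - 1 + 1).val < n := ZMod.val_lt _
    have h3 : (c - a - 1 + 1).val = 0 := by omega
    rw [ZMod.val_eq_zero] at h3
    linear_combination h3
  · intro X hX Y hY hXY hXE hXE1 hXE2
    have hXv : ((X : ℕ) : ZMod n).val = X := by
      rw [ZMod.val_natCast, Nat.mod_eq_of_lt hX]
    have hYv : ((X : ZMod n) + (c' - c)).val = Y := by
      have h1 := a4_add_val (X : ZMod n) (c' - c)
      rw [hXv] at h1
      have h2 : ((X : ZMod n) + (c' - c)).val < n := ZMod.val_lt _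
      omega
    have hi : a ∈ itv n k (c - X) ↔ a + 1 ∈ itv n k (c - X) := by
      rw [a4_mem_itv, a4_mem_itv]
      set y : ZMod n := a - (c - X) with hy
      have e1 : a + 1 - (c - X) = y + 1 := by
        rw [hy]
        ring
      rw [e1]
      -- y = X - E - 1
      have h1 := a4_add_val y 1
      rw [hone] at h1
      have h2 := ZMod.val_lt y
      have h3 := ZMod.val_lt (y + 1)
      have h4 := a4_add_val (y + 1) (c - a - 1)
      have e2 : y + 1 + (c - a - 1) = (X : ZMod n) := by
        rw [hy]
        ring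
      have h5 := ZMod.val_lt (c - a - 1)
      rw [e2, hXv] at h4
      omega
    have hfin := key (c - X) hi
    have e3 : c - (c - (X : ZMod n)) = X := by ring
    have e4 : c' - (c - (X : ZMod n)) = (X : ZMod n) + (c' - c) := by ring
    rw [e3, e4, hXv, hYv] at hfin
    exact hfin

end Pool.Agent.Lib.MP_fffc5a_co
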