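import Mathlib
import Pool.Agent.Lib.MP_fffc5a_co.Defs
import Pool.Agent.Lib.MP_fffc5a_co.Itv
import Pool.Agent.Lib.MP_fffc5a_co.Unif1
import Pool.Agent.Lib.MP_fffc5a_co.SwapStep
import Pool.Agent.Lib.MP_fffc5a_co.Rot
import Pool.Agent.Lib.MP_fffc5a_co.NonStar
import Pool.Agent.Lib.MP_fffc5a_co.Path
import Pool.Agent.Lib.MP_fffc5a_co.Mean

/-!
Robust Erdos-Ko-Rado: a family of `k`-sets of size at least `C(n-1,k-1)` with few disjoint pairs is
close to a star.
-/

set_option autoImplicit false

open Finset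

namespace Pool.Agent.Lib.MP_fffc5a_co

open Classical in
lemma st_swap_count {n k : ℕ} [NeZero n] (hk : 1 ≤ k) (hn : 2 * k + 1 ≤ n)
    (F : Finset (Finset (ZMod n))) (a : ZMod n) (ha : a ≠ 0) (ha' : a + 1 ≠ 0) :
    (univ.filter fun σ : Equiv.Perm (ZMod n) =>
      ¬ (StarAt n k F σ 0 ↔ StarAt n k F (σ * Equiv.swap a (a + 1)) 0)).card ≤
    2 * (univ.filter fun σ : Equiv.Perm (ZMod n) => ¬ ∃ c, StarAt n k F σ c).card := by
  set N := univ.filter fun σ : Equiv.Perm (ZMod n) => ¬ ∃ c, StarAt n k F σ c with hN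
  set s := Equiv.swap a (a + 1) with hs
  have hss : ∀ σ : Equiv.Perm (ZMod n), σ * s * s = σ := by
    intro σ
    rw [mul_assoc, hs, Equiv.swap_mul_self, mul_one]
  have h1 : (univ.filter fun σ : Equiv.Perm (ZMod n) =>
      ¬ (StarAt n k F σ 0 ↔ StarAt n k F (σ * s) 0)) ⊆
      N ∪ N.image (fun σ => σ * s) := by
    intro σ hσ
    rw [mem_filter] at hσ
    rw [mem_union, mem_image]
    by_contra hcon
    push Not at hcon
    obtain ⟨h2, h3⟩ := hcon
    apply hσ.2
    have h4 : ∃ c, StarAt n k F σ c := by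
      by_contra h5
      exact h2 (mem_filter.2 ⟨mem_univ _, h5⟩)
    have h5 : ∃ c, StarAt n k F (σ * s) c := by
      by_contra h6
      exact h3 (σ * s) (mem_filter.2 ⟨mem_univ _, h6⟩) (hss σ)
    constructor
    · intro h6
      obtain ⟨c, hc⟩ := h5
      have := starAt_swap hk hn ha.symm ha'.symm h6 hc
      rwa [this] at hc
    · intro h6
      obtain ⟨c, hc⟩ := h4
      have h7 : StarAt n k F (σ * s * s) c := by rw [hss]; exact hc
      have := starAt_swap hk hn ha.symm ha'.symm h6 h7
      rwa [this] at hc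
  refine (card_le_card h1).trans ((card_union_le _ _).trans ?_)
  rw [two_mul]
  exact Nat.add_le_add_left card_image_le _

open Classical in
theorem stability_zmod {n k : ℕ} [NeZero n] (hk : 1 ≤ k) (hn : 2 * k + 1 ≤ n)
    (F : Finset (Finset (ZMod n))) (hF : ∀ s ∈ F, s.card = k)
    (hL : (n - 1).choose (k - 1) ≤ F.card) :
    ∃ x : ZMod n, (F.filter fun s => x ∉ s).card * (n - k).choose k ≤ 3 * n ^ 6 * dp F F := by
  set NS := (univ.filter fun σ : Equiv.Perm (ZMod n) => ¬ ∃ c, StarAt n k F σ c).card with hNS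
  set G : ZMod n → ℕ := fun x =>
    (univ.filter fun σ : Equiv.Perm (ZMod n) => σ 0 = x ∧ StarAt n k F σ 0).card with hG
  set T := (n - 1).factorial with hT
  have hn0 : 0 < n := by omega
  have hnT : n * T = n.factorial := Nat.mul_factorial_pred hn0.ne'
  have hcardperm : Fintype.card (Equiv.Perm (ZMod n)) = n.factorial := by
    rw [Fintype.card_perm, ZMod.card]
  -- path and mean
  have h1 : ∀ π : Equiv.Perm (ZMod n), π 0 = 0 →
      (univ.filter fun σ => ¬ (StarAt n k F σ 0 ↔ StarAt n k F (σ * π) 0)).card ≤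
        2 * n ^ 2 * (2 * NS) :=
    fun π hπ => path_bound (fun σ => StarAt n k F σ 0) (2 * NS)
      (fun a ha ha' => st_swap_count hk hn F a ha ha') π hπ
  have h2 : 2 * ∑ x : ZMod n, G x * (T - G x) ≤ T * (2 * n ^ 2 * (2 * NS)) :=
    mean_bound (fun σ => StarAt n k F σ 0) _ h1
  have hGT : ∀ x, G x ≤ T := fun x => card_point_le (fun σ => StarAt n k F σ 0) x
  -- the total
  have h3 : n * ∑ x : ZMod n, G x + NS = n.factorial := by
    have h4 := card_star_rot hk hn F (fun _ => True)
    have h5 : ∑ x : ZMod n, G x = (univ.filter fun σ : Equiv.Perm (ZMod n) =>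
        StarAt n k F σ 0 ∧ True).card := by
      rw [hG]
      simp only
      rw [card_eq_sum_card_fiberwise (f := fun σ : Equiv.Perm (ZMod n) => σ 0) (t := univ)
        (fun _ _ => mem_coe.2 (mem_univ _))]
      refine sum_congr rfl fun x _ => ?_
      rw [filter_filter]
      congr 1
      ext σ
      simp only [mem_filter, mem_univ, true_and, and_true]
      exact and_comm
    have h6 : (univ.filter fun σ : Equiv.Perm (ZMod n) => ∃ c, StarAt n k F σ c).card =
        n * (univ.filter fun σ : Equiv.Perm (ZMod n) => StarAt n k F σ 0 ∧ True).card := by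
      refine (congrArg Finset.card ?_).trans
        (h4.trans (congrArg (n * ·) (congrArg Finset.card ?_)))
      · ext σ; simp
      · ext σ; simp
    rw [h5, ← h6, hNS, ← hcardperm, ← card_univ]
    exact card_filter_add_card_filter_not _
  -- the maximum
  obtain ⟨x, -, hx⟩ := exists_max_image (univ : Finset (ZMod n)) G ⟨0, mem_univ _⟩
  have hx' : ∀ y, G y ≤ G x := fun y => hx y (mem_univ _)
  have h4 : n * (T - G x) ≤ 3 * n ^ 3 * NS := by
    have hS : (n : ℤ) * ∑ y : ZMod n, (G y : ℤ) + NS = n * T := by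
      have : ((n * ∑ x : ZMod n, G x + NS : ℕ) : ℤ) = ((n * T : ℕ) : ℤ) := by rw [h3, hnT]
      push_cast at this
      exact this
    have h5 : 2 * ∑ y : ZMod n, (G y : ℤ) * ((T : ℤ) - G y) ≤ T * (2 * n ^ 2 * (2 * NS)) := by
      have : ((2 * ∑ x : ZMod n, G x * (T - G x) : ℕ) : ℤ) ≤
          ((T * (2 * n ^ 2 * (2 * NS)) : ℕ) : ℤ) := by exact_mod_cast h2
      push_cast at this
      refine le_trans (le_of_eq ?_) this
      congr 1
      refine sum_congr rfl fun y _ => ?_
      rw [Nat.cast_sub (hGT y)]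
    have h6 : ∑ y : ZMod n, (G y : ℤ) * (G y) ≤ G x * T := by
      have h7 : ∑ y : ZMod n, (G y : ℤ) ≤ T := by
        have h8 : (n : ℤ) * ∑ y : ZMod n, (G y : ℤ) ≤ n * T := by
          have : (0 : ℤ) ≤ NS := by positivity
          linarith
        exact le_of_mul_le_mul_left h8 (by exact_mod_cast hn0)
      calc ∑ y : ZMod n, (G y : ℤ) * (G y) ≤ ∑ y : ZMod n, (G x : ℤ) * (G y) := by
            refine sum_le_sum fun y _ => ?_
            exact mul_le_mul_of_nonneg_right (by exact_mod_cast hx' y) (by positivity)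
        _ = G x * ∑ y : ZMod n, (G y : ℤ) := by rw [mul_sum]
        _ ≤ G x * T := mul_le_mul_of_nonneg_left h7 (by positivity)
    have h7 : ∑ y : ZMod n, (G y : ℤ) * ((T : ℤ) - G y) =
        T * ∑ y : ZMod n, (G y : ℤ) - ∑ y : ZMod n, (G y : ℤ) * (G y) := by
      rw [mul_sum, ← sum_sub_distrib]
      refine sum_congr rfl fun y _ => ?_
      ring
    have hTpos : (0 : ℤ) < T := by exact_mod_cast Nat.factorial_pos _
    have h8 : (T : ℤ) * (2 * (∑ y : ZMod n, (G y : ℤ) - G x)) ≤ T * (2 * n ^ 2 * (2 * NS)) := by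
      rw [h7] at h5
      linarith
    have h9 := le_of_mul_le_mul_left h8 hTpos
    have h10 : (n : ℤ) * ((T : ℤ) - G x) ≤ 3 * n ^ 3 * NS := by
      have h11 : (n : ℤ) * (2 * (∑ y : ZMod n, (G y : ℤ) - G x)) ≤ n * (2 * n ^ 2 * (2 * NS)) :=
        mul_le_mul_of_nonneg_left h9 (by positivity)
      have h12 : (NS : ℤ) ≤ n ^ 3 * NS := by
        have h13 : (1 : ℤ) ≤ n ^ 3 := one_le_pow₀ (by exact_mod_cast hn0)
        have h14 : (0 : ℤ) ≤ NS := by positivity
        nlinarith
      nlinarith
    have h11 : ((n * (T - G x) : ℕ) : ℤ) ≤ ((3 * n ^ 3 * NS : ℕ) : ℤ) := by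
      push_cast
      rw [Nat.cast_sub (hGT x)]
      exact h10
    exact_mod_cast h11
  -- the members which do not contain `x`
  refine ⟨x, ?_⟩
  set E := F.filter fun s => x ∉ s with hE
  have hitv : (itv n k 0).card = k := card_itv (by omega) 0
  have h5 := unif_one E (fun s hs => hF s (mem_filter.1 hs).1) (itv n k 0) hitv
  rw [ZMod.card] at h5
  have h6 : (univ.filter fun σ : Equiv.Perm (ZMod n) =>
      (itv n k 0).map σ.toEmbedding ∈ E).card + n * G x ≤ n.factorial := by
    have h7 := card_star_rot hk hn F (fun y => y = x)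
    have h8 : G x = (univ.filter fun σ : Equiv.Perm (ZMod n) =>
        StarAt n k F σ 0 ∧ σ 0 = x).card := by
      rw [hG]
      simp only
      congr 1
      ext σ
      simp only [mem_filter, mem_univ, true_and]
      exact and_comm
    have h7' : (univ.filter fun σ : Equiv.Perm (ZMod n) => ∃ c, StarAt n k F σ c ∧ σ c = x).card =
        n * (univ.filter fun σ : Equiv.Perm (ZMod n) => StarAt n k F σ 0 ∧ σ 0 = x).card := by
      refine (congrArg Finset.card ?_).trans
        (h7.trans (congrArg (n * ·) (congrArg Finset.card ?_)))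
      · ext σ; simp
      · ext σ; simp
    rw [h8, ← h7', ← hcardperm, ← card_univ, ← card_union_of_disjoint]
    · exact card_le_card (subset_univ _)
    · rw [disjoint_left]
      intro σ h9 h10
      rw [mem_filter] at h9 h10
      obtain ⟨c, hc, hcx⟩ := h10.2
      have h11 := (mem_filter.1 h9.2)
      have h12 := (hc 0).1 h11.1
      apply h11.2
      rw [mem_map]
      exact ⟨c, h12, hcx⟩
  have h7 : (univ.filter fun σ : Equiv.Perm (ZMod n) =>
      (itv n k 0).map σ.toEmbedding ∈ E).card ≤ 3 * n ^ 3 * NS := by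
    refine le_trans ?_ h4
    rw [Nat.mul_sub, hnT]
    omega
  have h8 := nonstar_bound hk hn F hF hL
  have h9 : n.factorial * (E.card * (n - k).choose k) ≤ n.factorial * (3 * n ^ 6 * dp F F) := by
    calc n.factorial * (E.card * (n - k).choose k)
        = (E.card * n.factorial) * (n - k).choose k := by ring
      _ = (univ.filter fun σ : Equiv.Perm (ZMod n) =>
          (itv n k 0).map σ.toEmbedding ∈ E).card * n.choose k * (n - k).choose k := by
          rw [← h5]
      _ ≤ 3 * n ^ 3 * NS * n.choose k * (n - k).choose k := by gcongr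
      _ = 3 * n ^ 3 * (NS * (n.choose k * (n - k).choose k)) := by ring
      _ ≤ 3 * n ^ 3 * (n ^ 3 * (dp F F * n.factorial)) := by gcongr
      _ = n.factorial * (3 * n ^ 6 * dp F F) := by ring
  exact le_of_mul_le_mul_left h9 (Nat.factorial_pos _)

/-- robust Erdos-Ko-Rado on any finite ground set -/
theorem stability {α : Type*} [Fintype α] [DecidableEq α] {k : ℕ} (hk : 1 ≤ k)
    (hn : 2 * k + 1 ≤ Fintype.card α) (F : Finset (Finset α)) (hF : ∀ s ∈ F, s.card = k)
    (hL : (Fintype.card α - 1).choose (k - 1) ≤ F.card) :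
    ∃ x : α, (F.filter fun s => x ∉ s).card * (Fintype.card α - k).choose k ≤
      3 * (Fintype.card α) ^ 6 * dp F F := by
  classical
  set n := Fintype.card α with hcard
  have hn0 : n ≠ 0 := by omega
  have : NeZero n := ⟨hn0⟩
  have e : α ≃ ZMod n := Fintype.equivOfCardEq (by rw [ZMod.card])
  set φ : Finset α ↪ Finset (ZMod n) := (mapEmbedding e.toEmbedding).toEmbedding with hφ
  have hφa : ∀ s, φ s = s.map e.toEmbedding := fun s => rfl
  obtain ⟨y, hy⟩ := stability_zmod hk hn (F.map φ)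
    (by
      intro s hs
      obtain ⟨t, ht, rfl⟩ := mem_map.1 hs
      rw [hφa, card_map]
      exact hF t ht)
    (by rw [card_map]; exact hL)
  refine ⟨e.symm y, ?_⟩
  have h1 : ((F.map φ).filter fun s => y ∉ s) = (F.filter fun s => e.symm y ∉ s).map φ := by
    rw [filter_map]
    congr 1
    ext s
    simp only [mem_filter, Function.comp, hφa, mem_map, Equiv.coe_toEmbedding]
    refine and_congr_right fun _ => not_congr ?_
    constructor
    · rintro ⟨a, ha, rfl⟩
      simpa using ha
    · intro h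
      exact ⟨_, h, by simp⟩
  have h2 : dp (F.map φ) (F.map φ) = dp F F := by
    unfold dp
    rw [← card_map (φ.prodMap φ)]
    congr 1
    ext ⟨p, q⟩
    simp only [mem_filter, mem_product, mem_map]
    constructor
    · rintro ⟨⟨⟨a, ha, rfl⟩, ⟨b, hb, rfl⟩⟩, hd⟩
      refine ⟨(a, b), ⟨⟨ha, hb⟩, ?_⟩, rfl⟩
      rw [hφa, hφa] at hd
      simpa using hd
    · rintro ⟨⟨a, b⟩, ⟨⟨ha, hb⟩, hd⟩, heq⟩
      simp only [Function.Embedding.coe_prodMap, Prod.map_apply, Prod.mk.injEq] at heq
      obtain ⟨rfl, rfl⟩ := heq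
      refine ⟨⟨⟨a, ha, rfl⟩, ⟨b, hb, rfl⟩⟩, ?_⟩
      rw [hφa, hφa]
      simpa using hd
  rw [h1, card_map, h2] at hy
  exact hy

end Pool.Agent.Lib.MP_fffc5a_co
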