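import Mathlib
import Pool.Agent.Lib.MP_fffc5a_co.Defs

set_option autoImplicit false

open Finset

namespace Pool.Agent.Lib.MP_fffc5a_co

/-- `3 u^u ≥ 4 (u+1)^(u-1)` for `u ≥ 2` -/
theorem c0_base {u : ℕ} (hu : 2 ≤ u) : 4 * (u + 1) ^ (u - 1) ≤ 3 * u ^ u := by
  induction u, hu using Nat.le_induction with
  | base => norm_num
  | succ u hu ih =>
    have h1 : u + 1 - 1 = u := by omega
    rw [h1]
    have hpos : 0 < (u + 1) ^ (u - 1) := by positivity
    refine Nat.le_of_mul_le_mul_right ?_ hpos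
    calc 4 * (u + 1 + 1) ^ u * (u + 1) ^ (u - 1)
        = (4 * (u + 1) ^ (u - 1)) * (u + 2) ^ u := by ring
      _ ≤ (3 * u ^ u) * (u + 2) ^ u := Nat.mul_le_mul_right _ ih
      _ = 3 * (u * (u + 2)) ^ u := by rw [mul_pow]; ring
      _ ≤ 3 * ((u + 1) ^ 2) ^ u := by
          refine Nat.mul_le_mul_left _ (Nat.pow_le_pow_left ?_ _)
          nlinarith
      _ = 3 * (u + 1) ^ (u + 1) * (u + 1) ^ (u - 1) := by
          rw [← pow_mul, mul_assoc, ← pow_add]
          congr 2
          omega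

/-- real form of the factor inequality -/
theorem c0_real {u : ℕ} (hu : 2 ≤ u) {k z : ℝ} (hz : 0 ≤ z) (hzk : z ≤ k) (hk : 0 < k) :
    4 * ((u * k + z) ^ (u - 1) * z) ≤ 3 * (((u : ℝ) - 1) * k + z) ^ u := by
  have hu' : (2 : ℝ) ≤ u := by exact_mod_cast hu
  have hw : 0 < (u : ℝ) * k + z := by positivity
  set w : ℝ := (u : ℝ) * k + z with hwdef
  -- x = (w - k) / w, r = z / w
  set x : ℝ := (((u : ℝ) - 1) * k + z) / w with hx
  set r : ℝ := z / w with hr
  have hu1 : (0 : ℝ) < u + 1 := by positivity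
  have hu0 : (0 : ℝ) < u := by linarith
  set r0 : ℝ := 1 / ((u : ℝ) + 1) with hr0
  set x0 : ℝ := (u : ℝ) / ((u : ℝ) + 1) with hx0
  have hx0pos : 0 < x0 := by positivity
  have hx0le : x0 ≤ 1 := by
    rw [hx0, div_le_one hu1]; linarith
  have hrr : r ≤ r0 := by
    rw [hr, hr0, div_le_div_iff₀ hw hu1]
    nlinarith
  have hrnn : 0 ≤ r := by positivity
  -- x in terms of r
  have hxr : x = x0 + (r - r0) / u := by
    rw [hx, hx0, hr, hr0]
    field_simp
    ring
  have hxa : x = x0 * (1 + (r - r0) / (u * x0)) := by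
    rw [hxr]
    field_simp
  have hxnn : 0 ≤ x := by
    rw [hx]
    apply div_nonneg _ hw.le
    nlinarith
  have ha : -2 ≤ (r - r0) / (u * x0) := by
    have h3 : 0 ≤ 1 + (r - r0) / (u * x0) := by
      by_contra hcon
      push Not at hcon
      have : x < 0 := by rw [hxa]; exact mul_neg_of_pos_of_neg hx0pos hcon
      linarith
    linarith
  have hbern := one_add_mul_le_pow ha u
  have hxu : x0 ^ u + x0 ^ (u - 1) * (r - r0) ≤ x ^ u := by
    rw [hxa, mul_pow]
    have hpow : x0 ^ u = x0 ^ (u - 1) * x0 := by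
      rw [← pow_succ]; congr 1; omega
    calc x0 ^ u + x0 ^ (u - 1) * (r - r0) = x0 ^ u * (1 + u * ((r - r0) / (u * x0))) := by
          rw [hpow]; field_simp
      _ ≤ _ := mul_le_mul_of_nonneg_left hbern (by positivity)
  have hx0u : 4 / 3 * r0 ≤ x0 ^ u := by
    have hb := c0_base hu
    have hb' : (4 : ℝ) * ((u : ℝ) + 1) ^ (u - 1) ≤ 3 * (u : ℝ) ^ u := by exact_mod_cast hb
    rw [hr0, hx0, div_pow]
    have hpow : ((u : ℝ) + 1) ^ u = ((u : ℝ) + 1) ^ (u - 1) * (u + 1) := by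
      rw [← pow_succ]; congr 1; omega
    rw [hpow, div_mul_div_comm, mul_one, div_le_div_iff₀ (by positivity) (by positivity)]
    nlinarith
  have hx0p : x0 ^ (u - 1) ≤ 1 := pow_le_one₀ hx0pos.le hx0le
  have hmain : 4 / 3 * r ≤ x ^ u := by
    have : x0 ^ (u - 1) * (r0 - r) ≤ 1 * (r0 - r) :=
      mul_le_mul_of_nonneg_right hx0p (by linarith)
    nlinarith
  -- multiply by w^u
  have hpoww : w ^ u = w ^ (u - 1) * w := by
    rw [← pow_succ]; congr 1; omega
  have h1 : x ^ u * w ^ u = (((u : ℝ) - 1) * k + z) ^ u := by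
    rw [← mul_pow, hx, div_mul_cancel₀ _ hw.ne']
  have h2 : r * w ^ u = w ^ (u - 1) * z := by
    rw [hpoww, hr]
    field_simp
  have h3 : 4 / 3 * r * w ^ u ≤ x ^ u * w ^ u :=
    mul_le_mul_of_nonneg_right hmain (by positivity)
  rw [h1] at h3
  rw [← h2]
  linarith

theorem factor_ineq {u k i : ℕ} (hu : 2 ≤ u) (hi : i < k) :
    4 * (((u + 1) * k - i) ^ (u - 1) * (k - i)) ≤ 3 * (u * k - i) ^ u := by
  obtain ⟨z, hz⟩ : ∃ z, k = i + z := ⟨k - i, by omega⟩
  obtain ⟨u', rfl⟩ : ∃ u', u = u' + 1 := ⟨u - 1, by omega⟩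
  have h1 : (u' + 1 + 1) * k - i = (u' + 1) * k + z := by
    have : (u' + 1 + 1) * k = (u' + 1) * k + k := by ring
    omega
  have h2 : (u' + 1) * k - i = u' * k + z := by
    have : (u' + 1) * k = u' * k + k := by ring
    omega
  have h3 : k - i = z := by omega
  rw [h1, h2, h3]
  have hreal := c0_real hu (k := (k : ℝ)) (z := (z : ℝ)) (by positivity)
    (by exact_mod_cast (by omega : z ≤ k)) (by exact_mod_cast (by omega : 0 < k))
  have : ((4 * (((u' + 1) * k + z) ^ (u' + 1 - 1) * z) : ℕ) : ℝ) ≤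
      ((3 * (u' * k + z) ^ (u' + 1) : ℕ) : ℝ) := by
    push_cast
    push_cast at hreal
    have h4 : ((u' : ℝ) + 1 - 1) = u' := by ring
    rw [h4] at hreal
    exact hreal
  exact_mod_cast this

/-- at `n = (u + 1) k` -/
theorem base_ineq {u k : ℕ} (hu : 2 ≤ u) :
    4 ^ k * ((u + 1) * k).choose k ^ (u - 1) ≤ 3 ^ k * (u * k).choose k ^ u := by
  have hprod : ∏ i ∈ range k, (4 * (((u + 1) * k - i) ^ (u - 1) * (k - i))) ≤
      ∏ i ∈ range k, (3 * (u * k - i) ^ u) :=
    Finset.prod_le_prod' fun i hi => factor_ineq hu (Finset.mem_range.mp hi)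
  have hd1 : ∏ i ∈ range k, ((u + 1) * k - i) = k.factorial * ((u + 1) * k).choose k := by
    rw [← Nat.descFactorial_eq_prod_range, Nat.descFactorial_eq_factorial_mul_choose]
  have hd2 : ∏ i ∈ range k, (u * k - i) = k.factorial * (u * k).choose k := by
    rw [← Nat.descFactorial_eq_prod_range, Nat.descFactorial_eq_factorial_mul_choose]
  have hd3 : ∏ i ∈ range k, (k - i) = k.factorial := by
    rw [← Nat.descFactorial_eq_prod_range, Nat.descFactorial_self]
  rw [Finset.prod_mul_distrib, Finset.prod_mul_distrib, Finset.prod_mul_distrib,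
    Finset.prod_pow, Finset.prod_pow, Finset.prod_const, Finset.prod_const, Finset.card_range,
    hd1, hd2, hd3] at hprod
  have hpos : 0 < k.factorial ^ u := by positivity
  refine Nat.le_of_mul_le_mul_right ?_ hpos
  have hpow : k.factorial ^ u = k.factorial ^ (u - 1) * k.factorial := by
    rw [← pow_succ]; congr 1; omega
  calc 4 ^ k * ((u + 1) * k).choose k ^ (u - 1) * k.factorial ^ u
      = 4 ^ k * ((k.factorial * ((u + 1) * k).choose k) ^ (u - 1) * k.factorial) := by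
        rw [hpow, mul_pow]; ring
    _ ≤ 3 ^ k * (k.factorial * (u * k).choose k) ^ u := hprod
    _ = 3 ^ k * (u * k).choose k ^ u * k.factorial ^ u := by rw [mul_pow]; ring

end Pool.Agent.Lib.MP_fffc5a_co
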