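import Mathlib
import Pool.Agent.Lib.MP_fffc5a_co.Fac

/-!
Monotonicity in `n` of the quotient `C(n-k,k)^u / C(n,k)^(u-1)`.
-/

set_option autoImplicit false

open Finset

namespace Pool.Agent.Lib.MP_fffc5a_co

theorem step_ineq {u k n : ℕ} (hu : 2 ≤ u) (hk : 1 ≤ k) (hn : 2 * k ≤ n) :
    (n + 1 + k) * ((n - k).choose k ^ u * (n + 1).choose k ^ (u - 1)) ≤
      (n + 1) * ((n + 1 - k).choose k ^ u * n.choose k ^ (u - 1)) := by
  obtain ⟨q, rfl⟩ : ∃ q, n = q + 2 * k := ⟨n - 2 * k, by omega⟩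
  obtain ⟨w, rfl⟩ : ∃ w, u = w + 1 := ⟨u - 1, by omega⟩
  have h1 := Nat.choose_mul_succ_eq (q + 2 * k) k
  have h2 := Nat.choose_mul_succ_eq (q + 2 * k - k) k
  have e1 : q + 2 * k + 1 - k = q + 1 + k := by omega
  have e2 : q + 2 * k - k = q + k := by omega
  have e3 : q + k + 1 - k = q + 1 := by omega
  have e4 : w + 1 - 1 = w := by omega
  rw [e1] at h1
  rw [e2, e3] at h2
  rw [e1, e2, e4]
  have e5 : q + 1 + k = q + k + 1 := by omega
  rw [e5] at h1 ⊢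
  set A := (q + k).choose k with hA
  set A' := (q + k + 1).choose k with hA'
  set B := (q + 2 * k).choose k with hB
  set B' := (q + 2 * k + 1).choose k with hB'
  -- h1 : B * (q+2k+1) = B' * (q+k+1), h2 : A * (q+k+1) = A' * (q+1)
  have hpos : 0 < (q + 1) ^ (w + 1) * (q + k + 1) ^ w := by positivity
  apply Nat.le_of_mul_le_mul_left _ hpos
  have k1 : (q + 1) * (q + 2 * k + 1) ≤ (q + k + 1) * (q + k + 1) := by nlinarith
  have k2 : (q + 2 * k + 1 + k) * (q + 1) ≤ (q + 2 * k + 1) * (q + k + 1) := by nlinarith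
  have k3 : ((q + 1) * (q + 2 * k + 1)) ^ w ≤ ((q + k + 1) * (q + k + 1)) ^ w :=
    Nat.pow_le_pow_left k1 w
  have k4 := Nat.mul_le_mul k2 k3
  calc (q + 1) ^ (w + 1) * (q + k + 1) ^ w * ((q + 2 * k + 1 + k) * (A ^ (w + 1) * B' ^ w))
      = (q + 2 * k + 1 + k) * (q + 1) * ((q + 1) ^ w * (B' * (q + k + 1)) ^ w) * A ^ (w + 1) := by
        rw [mul_pow]; ring
    _ = (q + 2 * k + 1 + k) * (q + 1) * ((q + 1) * (q + 2 * k + 1)) ^ w * (A ^ (w + 1) * B ^ w) := by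
        rw [← h1, mul_pow, mul_pow]; ring
    _ ≤ (q + 2 * k + 1) * (q + k + 1) * ((q + k + 1) * (q + k + 1)) ^ w * (A ^ (w + 1) * B ^ w) :=
        Nat.mul_le_mul_right _ k4
    _ = (q + 2 * k + 1) * (A * (q + k + 1)) ^ (w + 1) * (q + k + 1) ^ w * B ^ w := by
        rw [mul_pow, mul_pow]; ring
    _ = (q + 1) ^ (w + 1) * (q + k + 1) ^ w * ((q + 2 * k + 1) * (A' ^ (w + 1) * B ^ w)) := by
        rw [h2, mul_pow]; ring

theorem c3_bern (n : ℕ) : ∀ m : ℕ, m ≤ n → (n + 1) ^ m * (n - m) ≤ n ^ (m + 1) := by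
  intro m
  induction m with
  | zero => intro _; simp
  | succ m ih =>
    intro h
    have h1 := ih (by omega)
    obtain ⟨q, rfl⟩ : ∃ q, n = q + (m + 1) := ⟨n - (m + 1), by omega⟩
    have e1 : q + (m + 1) - m = q + 1 := by omega
    have e2 : q + (m + 1) - (m + 1) = q := by omega
    rw [e1] at h1
    rw [e2]
    calc (q + (m + 1) + 1) ^ (m + 1) * q = (q + (m + 1) + 1) ^ m * ((q + (m + 1) + 1) * q) := by ring
      _ ≤ (q + (m + 1) + 1) ^ m * ((q + 1) * (q + (m + 1))) := by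
          apply Nat.mul_le_mul_left
          nlinarith
      _ = (q + (m + 1) + 1) ^ m * (q + 1) * (q + (m + 1)) := by ring
      _ ≤ (q + (m + 1)) ^ (m + 1) * (q + (m + 1)) := Nat.mul_le_mul_right _ h1
      _ = (q + (m + 1)) ^ (m + 1 + 1) := by ring

theorem pow_step {m k n : ℕ} (hk : 2 * m + 2 ≤ k) (hn : 2 * k ≤ n) :
    (n + 1) * (n + 1) ^ m ≤ (n + 1 + k) * n ^ m := by
  have h1 := c3_bern n m (by omega)
  obtain ⟨q, hq⟩ : ∃ q, n = q + m := ⟨n - m, by omega⟩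
  have e1 : n - m = q := by omega
  rw [e1] at h1
  have hqpos : 0 < q := by omega
  apply Nat.le_of_mul_le_mul_left _ hqpos
  have h2 : (n + 1) * n ≤ (n + 1 + k) * q := by
    obtain ⟨r, hr⟩ : ∃ r, k = r + (2 * m + 2) := ⟨k - (2 * m + 2), by omega⟩
    obtain ⟨s, hs⟩ : ∃ s, n = s + 2 * k := ⟨n - 2 * k, by omega⟩
    have h3 : q = s + 2 * k - m := by omega
    have h4 : q = s + 2 * r + 3 * m + 4 := by omega
    have h5 : n = s + 2 * r + 4 * m + 4 := by omega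
    rw [h5, h4, hr]
    nlinarith [Nat.zero_le (s * r), Nat.zero_le (s * m), Nat.zero_le (r * m), Nat.zero_le s,
      Nat.zero_le r, Nat.zero_le m, Nat.zero_le (r * r), Nat.zero_le (m * m), Nat.zero_le (s * s)]
  calc q * ((n + 1) * (n + 1) ^ m) = (n + 1) * ((n + 1) ^ m * q) := by ring
    _ ≤ (n + 1) * n ^ (m + 1) := Nat.mul_le_mul_left _ h1
    _ = ((n + 1) * n) * n ^ m := by ring
    _ ≤ ((n + 1 + k) * q) * n ^ m := Nat.mul_le_mul_right _ h2
    _ = q * ((n + 1 + k) * n ^ m) := by ring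

theorem c3_large (a m : ℕ) : ∃ k₀ : ℕ, ∀ k, k₀ ≤ k → (a * k) ^ m * 3 ^ k ≤ 4 ^ k := by
  have h1 : Filter.Tendsto (fun k : ℕ => (k : ℝ) ^ m / (4 / 3 : ℝ) ^ k) Filter.atTop (nhds 0) :=
    tendsto_pow_const_div_const_pow_of_one_lt m (by norm_num)
  have h2 : Filter.Tendsto (fun k : ℕ => (a : ℝ) ^ m * ((k : ℝ) ^ m / (4 / 3 : ℝ) ^ k))
      Filter.atTop (nhds 0) := by
    simpa using h1.const_mul ((a : ℝ) ^ m)
  have h3 := h2.eventually (gt_mem_nhds (show (0 : ℝ) < 1 by norm_num))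
  obtain ⟨k₀, hk₀⟩ := Filter.eventually_atTop.mp h3
  refine ⟨k₀, fun k hk => ?_⟩
  have h4 := hk₀ k hk
  have h5 : ((a : ℝ) * k) ^ m * 3 ^ k ≤ 4 ^ k := by
    have h6 : (a : ℝ) ^ m * ((k : ℝ) ^ m / (4 / 3 : ℝ) ^ k) = ((a : ℝ) * k) ^ m * 3 ^ k / 4 ^ k := by
      rw [div_pow, mul_pow]
      field_simp
    rw [h6, div_lt_one (by positivity)] at h4
    exact h4.le
  exact_mod_cast h5

/-- for all `n ≥ (u + 1) k` -/
theorem all_ineq {u : ℕ} (hu : 2 ≤ u) (m : ℕ) : ∃ k₀ : ℕ, ∀ k, k₀ ≤ k → ∀ n, (u + 1) * k ≤ n →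
    n ^ m * n.choose k ^ (u - 1) ≤ (n - k).choose k ^ u := by
  obtain ⟨k₁, hk₁⟩ := c3_large (u + 1) m
  refine ⟨max k₁ (2 * m + 2), fun k hk n hn => ?_⟩
  have hka : k₁ ≤ k := le_trans (le_max_left _ _) hk
  have hkb : 2 * m + 2 ≤ k := le_trans (le_max_right _ _) hk
  induction n, hn using Nat.le_induction with
  | base =>
    have h1 := hk₁ k hka
    have h2 := base_ineq (k := k) hu
    have e1 : (u + 1) * k - k = u * k := by
      have : (u + 1) * k = u * k + k := by ring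
      omega
    rw [e1]
    have hpos : 0 < 3 ^ k := by positivity
    apply Nat.le_of_mul_le_mul_left _ hpos
    calc 3 ^ k * (((u + 1) * k) ^ m * ((u + 1) * k).choose k ^ (u - 1))
        = (((u + 1) * k) ^ m * 3 ^ k) * ((u + 1) * k).choose k ^ (u - 1) := by ring
      _ ≤ 4 ^ k * ((u + 1) * k).choose k ^ (u - 1) := Nat.mul_le_mul_right _ h1
      _ ≤ 3 ^ k * (u * k).choose k ^ u := h2
  | succ n hn ih =>
    have hn2 : 2 * k ≤ n := by nlinarith
    have h1 := step_ineq (u := u) hu (by omega : 1 ≤ k) hn2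
    have h2 := pow_step hkb hn2
    have hB : 0 < n.choose k := Nat.choose_pos (by omega)
    have hpos : 0 < (n + 1) * n.choose k ^ (u - 1) := by positivity
    apply Nat.le_of_mul_le_mul_left _ hpos
    calc (n + 1) * n.choose k ^ (u - 1) * ((n + 1) ^ m * (n + 1).choose k ^ (u - 1))
        = ((n + 1) * (n + 1) ^ m) * (n.choose k ^ (u - 1) * (n + 1).choose k ^ (u - 1)) := by ring
      _ ≤ ((n + 1 + k) * n ^ m) * (n.choose k ^ (u - 1) * (n + 1).choose k ^ (u - 1)) :=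
          Nat.mul_le_mul_right _ h2
      _ = (n + 1 + k) * (n ^ m * n.choose k ^ (u - 1)) * (n + 1).choose k ^ (u - 1) := by ring
      _ ≤ (n + 1 + k) * ((n - k).choose k ^ u) * (n + 1).choose k ^ (u - 1) := by gcongr
      _ = (n + 1 + k) * ((n - k).choose k ^ u * (n + 1).choose k ^ (u - 1)) := by ring
      _ ≤ (n + 1) * ((n + 1 - k).choose k ^ u * n.choose k ^ (u - 1)) := h1
      _ = (n + 1) * n.choose k ^ (u - 1) * (n + 1 - k).choose k ^ u := by ring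

end Pool.Agent.Lib.MP_fffc5a_co
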