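import Mathlib
import Pool.Agent.Lib.MP_fffc5a_co.Defs
import Pool.Agent.Lib.MP_fffc5a_co.Stab
import Pool.Agent.Lib.MP_fffc5a_co.Kst
import Pool.Agent.Lib.MP_fffc5a_co.Miss
import Pool.Agent.Lib.MP_fffc5a_co.Step

/-!
The case `u = 1`.
-/

set_option autoImplicit false

open Finset

namespace Pool.Agent.Lib.MP_fffc5a_co

lemma dg_dp_le {α : Type*} [DecidableEq α] {v : ℕ} (hv : 1 ≤ v) {F : Finset (Finset α)}
    (hUI : UI 1 v F) {X : Finset (Finset α)} (hX : X ⊆ F) : dp X F ≤ X.card * (v - 1) := by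
  unfold dp
  have h1 : ((X ×ˢ F).filter fun p => Disjoint p.1 p.2) =
      X.biUnion fun G => (F.filter fun B => Disjoint G B).image fun B => (G, B) := by
    ext ⟨G, B⟩
    simp only [mem_filter, mem_product, mem_biUnion, mem_image, Prod.mk.injEq]
    constructor
    · rintro ⟨⟨h1, h2⟩, h3⟩
      exact ⟨G, h1, B, ⟨h2, h3⟩, rfl, rfl⟩
    · rintro ⟨G', h1, B', ⟨h2, h3⟩, rfl, rfl⟩
      exact ⟨⟨h1, h2⟩, h3⟩
  rw [h1]
  refine card_biUnion_le_card_mul _ _ _ fun G hG => card_image_le.trans ?_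
  have h2 := common_nbrs hv hUI (T := {G}) (singleton_subset_iff.2 (hX hG)) (card_singleton G)
  refine le_trans (card_le_card ?_) h2
  intro B hB
  rw [mem_filter] at hB ⊢
  exact ⟨hB.1, fun G' hG' => by rw [mem_singleton.1 hG']; exact hB.2⟩

theorem degree_upper {n k v : ℕ} (hk : 1 ≤ k) (hn : 2 * k < n) (hv : 1 ≤ v)
    (h : 6 * n ^ 6 * (v - 1) < (n - k).choose k) (F : Finset (Finset (Fin n)))
    (hF : ∀ s ∈ F, s.card = k) (hUI : UI 1 v F) : F.card ≤ (n - 1).choose (k - 1) := by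
  by_contra hcon
  push Not at hcon
  obtain ⟨x, hx⟩ := stability (α := Fin n) hk (by rw [Fintype.card_fin]; omega) F hF
    (by rw [Fintype.card_fin]; omega)
  rw [Fintype.card_fin] at hx
  set E := F.filter fun s => x ∉ s with hE
  have hEF : E ⊆ F := filter_subset _ _
  have h1 : dp F F ≤ 2 * dp E F := dp_le F x
  have h2 : dp E F ≤ E.card * (v - 1) := dg_dp_le hv hUI hEF
  have h3 : E.card * (n - k).choose k ≤ E.card * (6 * n ^ 6 * (v - 1)) := by
    calc E.card * (n - k).choose k ≤ 3 * n ^ 6 * dp F F := hx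
      _ ≤ 3 * n ^ 6 * (2 * (E.card * (v - 1))) := by gcongr; omega
      _ = E.card * (6 * n ^ 6 * (v - 1)) := by ring
  have h4 : E.card = 0 := by
    by_contra h4
    have := le_of_mul_le_mul_left h3 (Nat.pos_of_ne_zero h4)
    omega
  have h5 : (F.filter fun s => x ∈ s).card + E.card = F.card :=
    card_filter_add_card_filter_not _
  have h6 := card_star_le (α := Fin n) hk hF x
  rw [Fintype.card_fin] at h6
  omega

lemma dg_choose_step {k n : ℕ} (hn : 2 * k ≤ n) :
    (n + 1 + k) * (n - k).choose k ≤ (n + 1) * (n + 1 - k).choose k := by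
  obtain ⟨m, rfl⟩ : ∃ m, n = m + 2 * k := ⟨n - 2 * k, by omega⟩
  have e1 : m + 2 * k - k = m + k := by omega
  have e2 : m + 2 * k + 1 - k = m + k + 1 := by omega
  rw [e1, e2]
  have h1 : (m + k + 1).choose k * (m + 1) = (m + k).choose k * (m + k + 1) := by
    have := Nat.add_one_mul_choose_eq (m + k) k
    have h2 := Nat.choose_mul_succ_eq (m + k) k
    have h3 : m + k + 1 - k = m + 1 := by omega
    rw [h3] at h2
    rw [← h2]
  have h2 : (m + 2 * k + 1 + k) * (m + k).choose k * (m + 1) ≤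
      (m + 2 * k + 1) * (m + k + 1).choose k * (m + 1) := by
    rw [mul_assoc (m + 2 * k + 1) _ (m + 1), h1]
    have h3 : (m + 2 * k + 1 + k) * (m + 1) ≤ (m + 2 * k + 1) * (m + k + 1) := by nlinarith
    calc (m + 2 * k + 1 + k) * (m + k).choose k * (m + 1)
        = (m + k).choose k * ((m + 2 * k + 1 + k) * (m + 1)) := by ring
      _ ≤ (m + k).choose k * ((m + 2 * k + 1) * (m + k + 1)) := by gcongr
      _ = (m + 2 * k + 1) * ((m + k).choose k * (m + k + 1)) := by ring
  exact le_of_mul_le_mul_right h2 (Nat.succ_pos m)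

theorem degree_num (v : ℕ) : ∃ k₀ : ℕ, ∀ k, k₀ ≤ k → ∀ n, 2 * k + 7 ≤ n →
    6 * n ^ 6 * (v - 1) < (n - k).choose k := by
  refine ⟨6 * 9 ^ 6 * 5040 * v + 14, fun k hk n hn => ?_⟩
  induction n, hn using Nat.le_induction with
  | base =>
    have e : 2 * k + 7 - k = k + 7 := by omega
    rw [e, Nat.choose_symm_add (a := k) (b := 7)]
    have h1 : k ^ 7 < (k + 7).choose 7 * 5040 := by
      have h2 : (k + 7).choose 7 * 5040 = (k + 7).descFactorial 7 := by
        rw [Nat.descFactorial_eq_factorial_mul_choose]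
        have : Nat.factorial 7 = 5040 := by decide
        rw [this]; ring
      rw [h2]
      have h3 := Nat.pow_sub_lt_descFactorial (n := k + 7) (k := 7) (by norm_num) (by omega)
      have h4 : k ^ 7 ≤ (k + 7 + 1 - 7) ^ 7 := Nat.pow_le_pow_left (by omega) 7
      omega
    have h2 : (2 * k + 7) ^ 6 ≤ (9 * k) ^ 6 := Nat.pow_le_pow_left (by omega) 6
    have h3 : 6 * (2 * k + 7) ^ 6 * (v - 1) * 5040 ≤ k ^ 7 := by
      calc 6 * (2 * k + 7) ^ 6 * (v - 1) * 5040 ≤ 6 * (9 * k) ^ 6 * v * 5040 := by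
            gcongr; omega
        _ = (6 * 9 ^ 6 * 5040 * v) * k ^ 6 := by ring
        _ ≤ k * k ^ 6 := by gcongr; omega
        _ = k ^ 7 := by ring
    omega
  | succ n hn ih =>
    have h1 := dg_choose_step (k := k) (n := n) (by omega)
    have h2 := pow_step (m := 6) (k := k) (n := n) (by omega) (by omega)
    have h3 : (n + 1) * (6 * (n + 1) ^ 6 * (v - 1)) < (n + 1) * (n + 1 - k).choose k := by
      calc (n + 1) * (6 * (n + 1) ^ 6 * (v - 1)) = 6 * (v - 1) * ((n + 1) * (n + 1) ^ 6) := by ring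
        _ ≤ 6 * (v - 1) * ((n + 1 + k) * n ^ 6) := by gcongr
        _ = (n + 1 + k) * (6 * n ^ 6 * (v - 1)) := by ring
        _ < (n + 1 + k) * (n - k).choose k := by
            apply Nat.mul_lt_mul_of_pos_left ih; omega
        _ ≤ _ := h1
    exact lt_of_mul_lt_mul_left h3 (Nat.zero_le _)

end Pool.Agent.Lib.MP_fffc5a_co
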