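import Mathlib
import Pool.Agent.Lib.MP_fffc5a_co.Defs
import Pool.Agent.Lib.MP_fffc5a_co.DefsC
import Pool.Agent.Lib.MP_fffc5a_co.MissCard
import Pool.Agent.Lib.MP_fffc5a_co.CodeBound

/-!
One level of the descent: disjoint `u`-subsets of `X` with union of a given size.
-/

set_option autoImplicit false

open Finset

namespace Pool.Agent.Lib.MP_fffc5a_co

theorem level {α : Type*} [Fintype α] [DecidableEq α] {u v k a h : ℕ} (hu : 1 ≤ u) (hv : 1 ≤ v)
    (hvk : 2 * v ≤ k + 2) (hk : 1 ≤ k) (hh : 1 ≤ h) (hn : Fintype.card α = 2 * k + a)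
    {F : Finset (Finset α)} (hF : ∀ s ∈ F, s.card = k) (hUI : UI u v F) {x : α}
    {X : Finset (Finset α)} (hXF : X ⊆ F.filter fun s => x ∉ s)
    (hX : ∀ T ⊆ X, T.card = u → k + a ≤ (T.biUnion id).card + h)
    {D : Finset (Finset (Finset α))}
    (hD : ∀ T ∈ D, T ⊆ X ∧ T.card = u ∧ (T.biUnion id).card + h = k + a)
    (hdisj : (D : Set (Finset (Finset α))).PairwiseDisjoint id) :
    u * D.card * ((k - 1 + h).choose h * a.choose (h + 1)) ≤
      2 * (u - 1) * (k + a).choose (h + 1) * (Miss F x k).card := by
  have hXx : ∀ s ∈ X, x ∉ s := fun s hs => (mem_filter.1 (hXF hs)).2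
  have hXF' : X ⊆ F := fun s hs => (mem_filter.1 (hXF hs)).1
  -- each `T`
  have hT : ∀ T ∈ D, (k - 1 + h).choose h ≤
      2 * ((Miss F x k).filter fun S => Disjoint S (T.biUnion id)).card := by
    intro T hTD
    obtain ⟨hTX, hTu, hTc⟩ := hD T hTD
    have hxU : x ∉ T.biUnion id := by
      intro hx
      rw [mem_biUnion] at hx
      obtain ⟨s, hs, hxs⟩ := hx
      exact hXx s (hTX hs) hxs
    have h1 := card_disj k hxU
    have h2 := disj_le_miss k hv hUI (hTX.trans hXF') hTu hxU
      (fun s hs => subset_biUnion_of_mem id hs)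
    rw [h1, hn] at h2
    have e1 : 2 * k + a - 1 - (T.biUnion id).card = k - 1 + h := by omega
    rw [e1] at h2
    have e2 : (k - 1 + h).choose (k - 1) = (k - 1 + h).choose h := by
      rw [← Nat.choose_symm_of_eq_add (show k - 1 + h = k - 1 + h from rfl)]
    rw [e2] at h2
    have e3 : k ≤ (k - 1 + h).choose h := by
      calc k = (k - 1 + 1).choose (k - 1) := by
            rw [Nat.sub_add_cancel hk]
            conv_lhs => rw [← Nat.choose_one_right k]
            exact Nat.choose_symm_of_eq_add (by omega)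
        _ ≤ (k - 1 + h).choose (k - 1) := Nat.choose_le_choose _ (by omega)
        _ = (k - 1 + h).choose h := e2
    omega
  -- double counting
  have hsum1 : D.card * (k - 1 + h).choose h ≤
      2 * ∑ S ∈ Miss F x k, (D.filter fun T => Disjoint S (T.biUnion id)).card := by
    have h1 : ∑ T ∈ D, ((Miss F x k).filter fun S => Disjoint S (T.biUnion id)).card =
        ∑ S ∈ Miss F x k, (D.filter fun T => Disjoint S (T.biUnion id)).card := by
      simp only [card_filter]
      exact sum_comm
    rw [← h1, mul_sum, ← smul_eq_mul, ← sum_const]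
    exact sum_le_sum hT
  have hS : ∀ S ∈ Miss F x k, u * (D.filter fun T => Disjoint S (T.biUnion id)).card *
      a.choose (h + 1) ≤ (u - 1) * (k + a).choose (h + 1) := by
    intro S hS
    unfold Miss at hS
    rw [mem_filter, mem_powersetCard] at hS
    obtain ⟨⟨hS1, hS2⟩, -⟩ := hS
    have hxS : x ∉ S := fun hx => (mem_erase.1 (hS1 hx)).1 rfl
    set D' := D.filter fun T => Disjoint S (T.biUnion id) with hD'
    have hD'D : ∀ T ∈ D', T ∈ D := fun T hT => (mem_filter.1 hT).1
    have hG : (D'.biUnion id).card = u * D'.card := by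
      rw [card_biUnion]
      · have h5 : ∀ T ∈ D', (id T : Finset (Finset α)).card = u :=
          fun T hT => (hD T (hD'D T hT)).2.1
        rw [sum_congr rfl h5, sum_const, smul_eq_mul, mul_comm]
      · intro T hT T' hT' hne
        exact hdisj (hD'D T hT) (hD'D T' hT') hne
    have hY : (univ \ insert x S).card = k + a := by
      rw [card_sdiff_of_subset (subset_univ _), card_univ, card_insert_of_notMem hxS, hS2, hn]
      omega
    rw [← hG]
    refine code_bound hu hY ?_ ?_
    · intro s hs
      rw [mem_biUnion] at hs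
      obtain ⟨T, hT, hsT⟩ := hs
      simp only [id] at hsT
      have hsX : s ∈ X := (hD T (hD'D T hT)).1 hsT
      refine ⟨?_, hF s (hXF' hsX)⟩
      intro y hy
      rw [mem_sdiff]
      refine ⟨mem_univ y, ?_⟩
      intro hyi
      rcases mem_insert.1 hyi with rfl | hyS
      · exact hXx s hsX hy
      · have h3 := (mem_filter.1 hT).2
        refine disjoint_left.1 h3 hyS ?_
        rw [mem_biUnion]
        exact ⟨s, hsT, hy⟩
    · intro T' hT' hT'u
      refine hX T' ?_ hT'u
      intro s hs
      have := hT' hs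
      rw [mem_biUnion] at this
      obtain ⟨T, hT, hsT⟩ := this
      exact (hD T (hD'D T hT)).1 hsT
  have hsum2 : u * (∑ S ∈ Miss F x k, (D.filter fun T => Disjoint S (T.biUnion id)).card) *
      a.choose (h + 1) ≤ (Miss F x k).card * ((u - 1) * (k + a).choose (h + 1)) := by
    rw [mul_sum, sum_mul, ← smul_eq_mul (Miss F x k).card, ← sum_const]
    exact sum_le_sum hS
  calc u * D.card * ((k - 1 + h).choose h * a.choose (h + 1))
      = u * (D.card * (k - 1 + h).choose h) * a.choose (h + 1) := by ring
    _ ≤ u * (2 * ∑ S ∈ Miss F x k, (D.filter fun T => Disjoint S (T.biUnion id)).card) *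
        a.choose (h + 1) := by gcongr
    _ = 2 * (u * (∑ S ∈ Miss F x k, (D.filter fun T => Disjoint S (T.biUnion id)).card) *
        a.choose (h + 1)) := by ring
    _ ≤ 2 * ((Miss F x k).card * ((u - 1) * (k + a).choose (h + 1))) := by gcongr
    _ = 2 * (u - 1) * (k + a).choose (h + 1) * (Miss F x k).card := by ring

end Pool.Agent.Lib.MP_fffc5a_co
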