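import Mathlib
import Pool.Agent.Lib.MP_fffc5a_co.Defs
import Pool.Agent.Lib.MP_fffc5a_co.DefsC
import Pool.Agent.Lib.MP_fffc5a_co.Level

/-!
The descent: from a family without `u` members with small union to a wide family.
-/

set_option autoImplicit false

open Finset

namespace Pool.Agent.Lib.MP_fffc5a_co

theorem e12_max {α : Type*} [Fintype α] [DecidableEq α] {u w h : ℕ} (hu : 1 ≤ u)
    (X : Finset (Finset α)) (hX : ∀ T ⊆ X, T.card = u → w ≤ (T.biUnion id).card + (h + 1)) :
    ∃ D : Finset (Finset (Finset α)),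
      (∀ T ∈ D, T ⊆ X ∧ T.card = u ∧ (T.biUnion id).card + (h + 1) = w) ∧
      (D : Set (Finset (Finset α))).PairwiseDisjoint id ∧
      ∀ T ⊆ X \ D.biUnion id, T.card = u → w ≤ (T.biUnion id).card + h := by
  classical
  set 𝒟 : Finset (Finset (Finset (Finset α))) := (powerset (powersetCard u X)).filter fun D =>
    (∀ T ∈ D, (T.biUnion id).card + (h + 1) = w) ∧
      (D : Set (Finset (Finset α))).PairwiseDisjoint id with h𝒟
  have hne : 𝒟.Nonempty := ⟨∅, by
    rw [h𝒟, mem_filter]
    exact ⟨empty_mem_powerset _, by simp, by simp⟩⟩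
  obtain ⟨D, hD, hmax⟩ := exists_max_image 𝒟 card hne
  rw [h𝒟, mem_filter, mem_powerset] at hD
  obtain ⟨hDX, hDw, hDd⟩ := hD
  refine ⟨D, fun T hT => ⟨(mem_powersetCard.1 (hDX hT)).1, (mem_powersetCard.1 (hDX hT)).2,
    hDw T hT⟩, hDd, ?_⟩
  intro T hT hTu
  have hTX : T ⊆ X := hT.trans sdiff_subset
  by_contra hcon
  have hTw : (T.biUnion id).card + (h + 1) = w := by
    have := hX T hTX hTu
    omega
  have hTD : ∀ T' ∈ D, Disjoint T T' := by
    intro T' hT'
    rw [disjoint_left]
    intro s hs hs'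
    have h1 := (mem_sdiff.1 (hT hs)).2
    exact h1 (mem_biUnion.2 ⟨T', hT', hs'⟩)
  have hTnD : T ∉ D := by
    intro hTD'
    have h1 := hTD T hTD'
    rw [disjoint_self_iff_empty] at h1
    rw [h1, card_empty] at hTu
    omega
  have hins : insert T D ∈ 𝒟 := by
    rw [h𝒟, mem_filter, mem_powerset]
    refine ⟨?_, ?_, ?_⟩
    · intro T' hT'
      rcases mem_insert.1 hT' with rfl | hT'
      · exact mem_powersetCard.2 ⟨hTX, hTu⟩
      · exact hDX hT'
    · intro T' hT'
      rcases mem_insert.1 hT' with rfl | hT'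
      · exact hTw
      · exact hDw T' hT'
    · rw [coe_insert, Set.pairwiseDisjoint_insert]
      exact ⟨hDd, fun T' hT' _ => hTD T' hT'⟩
  have h2 := hmax _ hins
  rw [card_insert_of_notMem hTnD] at h2
  omega

theorem descend {α : Type*} [Fintype α] [DecidableEq α] {u v k a : ℕ} (hu : 1 ≤ u) (hv : 1 ≤ v)
    (hvk : 2 * v ≤ k + 2) (hk : 1 ≤ k) (hn : Fintype.card α = 2 * k + a)
    {F : Finset (Finset α)} (hF : ∀ s ∈ F, s.card = k) (hUI : UI u v F) {x : α} (h : ℕ)
    (ha : h + 1 ≤ a) (X : Finset (Finset α)) (hXF : X ⊆ F.filter fun s => x ∉ s)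
    (hX : ∀ T ⊆ X, T.card = u → k + a ≤ (T.biUnion id).card + h) :
    ∃ X₀ ⊆ X, Wide u (k + a) X₀ ∧
      (X.card : ℝ) ≤ X₀.card + (Miss F x k).card *
        (2 * (u - 1 : ℕ) * ∑ i ∈ Icc 1 h, ((k + a).choose (i + 1) : ℝ) /
          (a.choose (i + 1) * (k - 1 + i).choose i)) := by
  induction h generalizing X with
  | zero =>
    refine ⟨X, Subset.refl _, ?_, ?_⟩
    · intro T hT hTu
      simpa using hX T hT hTu
    · simp
  | succ h ih =>
    obtain ⟨D, hD, hDd, hmax⟩ := e12_max hu X hX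
    have hX'X : X \ D.biUnion id ⊆ X := sdiff_subset
    obtain ⟨X₀, hX₀, hW, hle⟩ := ih (by omega) (X \ D.biUnion id) (hX'X.trans hXF) hmax
    refine ⟨X₀, hX₀.trans hX'X, hW, ?_⟩
    have hlev := level hu hv hvk hk (show 1 ≤ h + 1 by omega) hn hF hUI hXF hX hD hDd
    have hU : (D.biUnion id).card = u * D.card := by
      rw [card_biUnion]
      · have h5 : ∀ T ∈ D, (id T : Finset (Finset α)).card = u := fun T hT => (hD T hT).2.1
        rw [sum_congr rfl h5, sum_const, smul_eq_mul, mul_comm]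
      · intro T hT T' hT' hne
        exact hDd hT hT' hne
    have hsub : D.biUnion id ⊆ X := by
      intro s hs
      rw [mem_biUnion] at hs
      obtain ⟨T, hT, hsT⟩ := hs
      exact (hD T hT).1 hsT
    have hcard : X.card = (X \ D.biUnion id).card + u * D.card := by
      rw [← hU, card_sdiff_of_subset hsub]
      have := card_le_card hsub
      omega
    have hA : (0 : ℝ) < a.choose (h + 1 + 1) := by
      exact_mod_cast Nat.choose_pos (by omega)
    have hB : (0 : ℝ) < (k - 1 + (h + 1)).choose (h + 1) := by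
      exact_mod_cast Nat.choose_pos (by omega)
    have hlevR : (u * D.card : ℝ) * (((k - 1 + (h + 1)).choose (h + 1) : ℝ) *
        a.choose (h + 1 + 1)) ≤
        2 * (u - 1 : ℕ) * (k + a).choose (h + 1 + 1) * (Miss F x k).card := by
      exact_mod_cast hlev
    have hterm : (u * D.card : ℝ) ≤ (Miss F x k).card * (2 * (u - 1 : ℕ) *
        (((k + a).choose (h + 1 + 1) : ℝ) /
          (a.choose (h + 1 + 1) * (k - 1 + (h + 1)).choose (h + 1)))) := by
      have e1 : ((Miss F x k).card : ℝ) * (2 * (u - 1 : ℕ) *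
        (((k + a).choose (h + 1 + 1) : ℝ) /
          (a.choose (h + 1 + 1) * (k - 1 + (h + 1)).choose (h + 1)))) =
          (2 * (u - 1 : ℕ) * (k + a).choose (h + 1 + 1) * (Miss F x k).card) /
          (((k - 1 + (h + 1)).choose (h + 1) : ℝ) * a.choose (h + 1 + 1)) := by
        field_simp
      rw [e1, le_div_iff₀ (by positivity)]
      exact hlevR
    have hcardR : (X.card : ℝ) = (X \ D.biUnion id).card + (u * D.card : ℝ) := by
      exact_mod_cast hcard
    rw [hcardR, sum_Icc_succ_top (by omega), mul_add, mul_add]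
    linarith

end Pool.Agent.Lib.MP_fffc5a_co
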