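import Mathlib
import Pool.Agent.Lib.MP_fffc5a_co.Defs
import Pool.Agent.Lib.MP_fffc5a_co.DefsH
import Pool.Agent.Lib.MP_fffc5a_co.DefsK

/-!
The number of disjoint pairs of a `(2, v)`-union-intersecting family on `2 k + 3` points.
-/

set_option autoImplicit false

open Finset

namespace Pool.Agent.Lib.MP_fffc5a_co

/-- number of members inside `X` -/
def k18_f {β : Type*} [DecidableEq β] (F : Finset (Finset β)) (X : Finset β) : ℕ :=
  (F.filter fun s => s ⊆ X).card

section

variable {β : Type*} [Fintype β] [DecidableEq β] {k v : ℕ} {F : Finset (Finset β)}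

theorem k18_UI (hUI : UI 2 v F) (hv : 1 ≤ v) {X : Finset β} (hX : 2 ≤ k18_f F X) :
    k18_f F Xᶜ ≤ v - 1 := by
  by_contra hcon
  have h1 : v ≤ k18_f F Xᶜ := by omega
  obtain ⟨A, hA, hA2⟩ := exists_subset_card_eq hX
  obtain ⟨B, hB, hB2⟩ := exists_subset_card_eq h1
  refine hUI A (hA.trans (filter_subset _ _)) B (hB.trans (filter_subset _ _)) hA2 hB2 ?_
  rw [Finset.disjoint_biUnion_left]
  intro a ha
  rw [Finset.disjoint_biUnion_right]
  intro b hb
  have h2 : a ⊆ X := (mem_filter.mp (hA ha)).2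
  have h3 : b ⊆ Xᶜ := (mem_filter.mp (hB hb)).2
  exact Disjoint.mono h2 h3 disjoint_compl_right

theorem k18_erase (hF : ∀ s ∈ F, s.card = k) {Z : Finset β} (hZ : Z.card = k + 2) :
    ∑ z ∈ Z, k18_f F (Z.erase z) = 2 * k18_f F Z := by
  have h1 : ∀ z ∈ Z, k18_f F (Z.erase z) =
      ∑ s ∈ F.filter (fun s => s ⊆ Z), if z ∉ s then 1 else 0 := by
    intro z _
    unfold k18_f
    rw [← card_filter, filter_filter]
    congr 1
    ext s
    simp only [mem_filter, subset_erase]
  rw [sum_congr rfl h1, sum_comm]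
  have h2 : ∀ s ∈ F.filter (fun s => s ⊆ Z), ∑ z ∈ Z, (if z ∉ s then 1 else 0) = 2 := by
    intro s hs
    rw [mem_filter] at hs
    rw [← card_filter]
    have h3 : Z.filter (fun z => z ∉ s) = Z \ s := by
      ext z; simp only [mem_filter, mem_sdiff]
    rw [h3, card_sdiff_of_subset hs.2, hZ, hF s hs.1]
    omega
  rw [sum_congr rfl h2, sum_const, smul_eq_mul, mul_comm]
  rfl

theorem k18_le (hF : ∀ s ∈ F, s.card = k) {X : Finset β} (hX : X.card = k + 1) :
    k18_f F X ≤ k + 1 := by
  have h1 : F.filter (fun s => s ⊆ X) ⊆ powersetCard k X := by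
    intro s hs
    rw [mem_filter] at hs
    rw [mem_powersetCard]
    exact ⟨hs.2, hF s hs.1⟩
  calc k18_f F X ≤ (powersetCard k X).card := card_le_card h1
    _ = k + 1 := by
      rw [card_powersetCard, hX, Nat.choose_succ_self_right]

theorem k18_three (hN : Fintype.card β = 2 * k + 3) (hF : ∀ s ∈ F, s.card = k) :
    3 * dp F F ≤ ∑ W ∈ powersetCard (k + 1) univ, k18_f F W * k18_f F Wᶜ := by
  have h1 : ∀ W : Finset β, k18_f F W * k18_f F Wᶜ =
      ∑ p ∈ F ×ˢ F, if p.1 ⊆ W ∧ p.2 ⊆ Wᶜ then 1 else 0 := by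
    intro W
    rw [← card_filter, k18_f, k18_f, ← card_product]
    congr 1
    ext p
    simp only [mem_product, mem_filter]
    tauto
  simp only [h1]
  rw [sum_comm]
  have h2 : 3 * dp F F = ∑ p ∈ F ×ˢ F, if Disjoint p.1 p.2 then 3 else 0 := by
    rw [← sum_filter, sum_const, smul_eq_mul, mul_comm]
    rfl
  rw [h2]
  apply sum_le_sum
  intro p hp
  rw [mem_product] at hp
  split_ifs with h
  · rw [← card_filter]
    have h3 : ((p.1 ∪ p.2)ᶜ).card = 3 := by
      rw [card_compl, hN, card_union_of_disjoint h, hF _ hp.1, hF _ hp.2]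
      omega
    rw [← h3]
    apply card_le_card_of_injOn (fun x => insert x p.1)
    · intro x hx
      simp only [mem_coe, mem_compl, mem_union, not_or] at hx
      simp only [mem_coe, mem_filter, mem_powersetCard, subset_univ, true_and]
      refine ⟨by rw [card_insert_of_notMem hx.1, hF _ hp.1], subset_insert _ _, ?_⟩
      intro y hy
      rw [mem_compl, mem_insert, not_or]
      refine ⟨?_, fun h4 => disjoint_left.mp h h4 hy⟩
      rintro rfl
      exact hx.2 hy
    · intro x hx x' hx' hxx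
      simp only [mem_coe, mem_compl, mem_union, not_or] at hx hx'
      simp only at hxx
      have h4 : x ∈ insert x' p.1 := by
        rw [← hxx]; exact mem_insert_self _ _
      rw [mem_insert] at h4
      rcases h4 with h4 | h4
      · exact h4
      · exact absurd h4 hx.1
  · exact Nat.zero_le _

theorem k18_sum (hN : Fintype.card β = 2 * k + 3) (hF : ∀ s ∈ F, s.card = k) :
    ∑ W ∈ powersetCard (k + 1) univ, k18_f F W ≤ (k + 3) * F.card := by
  have h1 : ∀ W : Finset β, k18_f F W = ∑ s ∈ F, if s ⊆ W then 1 else 0 := by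
    intro W
    rw [← card_filter]; rfl
  simp only [h1]
  rw [sum_comm, mul_comm, ← smul_eq_mul, ← sum_const]
  apply sum_le_sum
  intro s hs
  rw [← card_filter]
  have h2 : (powersetCard (k + 1) (univ : Finset β)).filter (fun W => s ⊆ W) ⊆
      sᶜ.image (fun x => insert x s) := by
    intro W hW
    rw [mem_filter, mem_powersetCard] at hW
    obtain ⟨⟨-, hc⟩, hsW⟩ := hW
    have h3 : (W \ s).card = 1 := by
      rw [card_sdiff_of_subset hsW, hc, hF s hs]; omega
    obtain ⟨x, hx⟩ := card_eq_one.mp h3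
    rw [mem_image]
    have hxm : x ∈ W \ s := by rw [hx]; exact mem_singleton_self _
    rw [mem_sdiff] at hxm
    refine ⟨x, mem_compl.mpr hxm.2, ?_⟩
    ext y
    rw [mem_insert]
    constructor
    · rintro (rfl | h4)
      · exact hxm.1
      · exact hsW h4
    · intro hy
      by_cases h5 : y ∈ s
      · exact Or.inr h5
      · left
        have : y ∈ W \ s := mem_sdiff.mpr ⟨hy, h5⟩
        rw [hx, mem_singleton] at this
        exact this
  calc _ ≤ (sᶜ.image (fun x => insert x s)).card := card_le_card h2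
    _ ≤ sᶜ.card := card_image_le
    _ = k + 3 := by rw [card_compl, hN, hF s hs]; omega

/-- number of points `s` outside `W` with at least two members in the rest of the complement -/
def k18_h {β : Type*} [Fintype β] [DecidableEq β] (F : Finset (Finset β)) (W : Finset β) : ℕ :=
  (univ.filter fun s : β => s ∉ W ∧ 1 ≤ k18_f F W ∧ 2 ≤ k18_f F (Wᶜ.erase s)).card

theorem k18_point (hUI : UI 2 v F) (hv : 1 ≤ v) (hN : Fintype.card β = 2 * k + 3)
    (hF : ∀ s ∈ F, s.card = k) {W : Finset β} (hW : W.card = k + 1) :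
    k18_f F W * k18_f F Wᶜ ≤ (v - 1) * k18_f F W + (k + 2) + (k + 1) * k18_h F W := by
  rcases Nat.lt_or_ge (k18_f F W) 2 with h | h
  · rcases Nat.eq_zero_or_pos (k18_f F W) with h0 | h0
    · rw [h0]; simp
    · have h1 : k18_f F W = 1 := by omega
      rw [h1, one_mul, mul_one]
      have hT : (Wᶜ).card = k + 2 := by rw [card_compl, hN, hW]; omega
      have h2 := k18_erase hF hT
      have h3 : ∑ z ∈ Wᶜ, k18_f F (Wᶜ.erase z) ≤
          ∑ z ∈ Wᶜ, (1 + (if 2 ≤ k18_f F (Wᶜ.erase z) then (k + 1) else 0)) := by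
        apply sum_le_sum
        intro z hz
        split_ifs with h4
        · have := k18_le hF (X := Wᶜ.erase z) (by rw [card_erase_of_mem hz, hT]; rfl)
          omega
        · omega
      rw [sum_add_distrib, sum_const, hT, smul_eq_mul, mul_one, ← sum_filter, sum_const,
        smul_eq_mul] at h3
      have h5 : ((Wᶜ).filter (fun z => 2 ≤ k18_f F (Wᶜ.erase z))).card = k18_h F W := by
        unfold k18_h
        congr 1
        ext z
        simp only [mem_filter, mem_compl, mem_univ, true_and]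
        constructor
        · rintro ⟨a, b⟩; exact ⟨a, h0, b⟩
        · rintro ⟨a, -, b⟩; exact ⟨a, b⟩
      rw [h5, mul_comm (k18_h F W)] at h3
      omega
  · have h1 := k18_UI hUI hv h
    calc k18_f F W * k18_f F Wᶜ ≤ k18_f F W * (v - 1) := Nat.mul_le_mul_left _ h1
      _ = (v - 1) * k18_f F W := mul_comm _ _
      _ ≤ _ := by omega

theorem k18_hsum (hUI : UI 2 v F) (hv : 1 ≤ v) (hF : ∀ s ∈ F, s.card = k) :
    ∑ W ∈ powersetCard (k + 1) (univ : Finset β), k18_h F W ≤
      2 * (v - 1) * (Fintype.card β).choose (k + 2) := by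
  have h1 : ∑ W ∈ powersetCard (k + 1) (univ : Finset β), k18_h F W =
      ((powersetCard (k + 1) (univ : Finset β) ×ˢ (univ : Finset β)).filter (fun p =>
        p.2 ∉ p.1 ∧ 1 ≤ k18_f F p.1 ∧ 2 ≤ k18_f F (p.1ᶜ.erase p.2))).card := by
    rw [card_filter, sum_product]
    refine sum_congr rfl fun W _ => ?_
    rw [← card_filter]
    rfl
  have h2 : ((powersetCard (k + 1) (univ : Finset β) ×ˢ (univ : Finset β)).filter (fun p =>
        p.2 ∉ p.1 ∧ 1 ≤ k18_f F p.1 ∧ 2 ≤ k18_f F (p.1ᶜ.erase p.2))).card ≤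
      ((powersetCard (k + 2) (univ : Finset β) ×ˢ (univ : Finset β)).filter (fun p =>
        p.2 ∈ p.1 ∧ 1 ≤ k18_f F (p.1.erase p.2) ∧ 2 ≤ k18_f F p.1ᶜ)).card := by
    apply card_le_card_of_injOn (fun p : Finset β × β => (insert p.2 p.1, p.2))
    · intro p hp
      simp only [mem_coe, mem_filter, mem_product, mem_powersetCard, subset_univ, true_and,
        mem_univ, and_true] at hp ⊢
      obtain ⟨hc, hn, h3, h4⟩ := hp
      refine ⟨by rw [card_insert_of_notMem hn, hc], mem_insert_self _ _, ?_, ?_⟩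
      · rw [erase_insert hn]; exact h3
      · rw [compl_insert]; exact h4
    · intro p hp q hq hpq
      simp only [mem_coe, mem_filter, mem_product, mem_powersetCard, subset_univ, true_and,
        mem_univ, and_true] at hp hq
      simp only [Prod.mk.injEq] at hpq
      obtain ⟨h3, h4⟩ := hpq
      have h5 : p.1 = q.1 := by
        rw [← erase_insert hp.2.1, h3, h4, erase_insert hq.2.1]
      exact Prod.ext h5 h4
  have h3 : ((powersetCard (k + 2) (univ : Finset β) ×ˢ (univ : Finset β)).filter (fun p =>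
        p.2 ∈ p.1 ∧ 1 ≤ k18_f F (p.1.erase p.2) ∧ 2 ≤ k18_f F p.1ᶜ)).card =
      ∑ Z ∈ powersetCard (k + 2) (univ : Finset β), ((univ : Finset β).filter (fun z =>
        z ∈ Z ∧ 1 ≤ k18_f F (Z.erase z) ∧ 2 ≤ k18_f F Zᶜ)).card := by
    rw [card_filter, sum_product]
    refine sum_congr rfl fun W _ => ?_
    rw [← card_filter]
  rw [h1]
  refine h2.trans ?_
  rw [h3]
  have h4 : ∀ Z ∈ powersetCard (k + 2) (univ : Finset β), ((univ : Finset β).filter (fun z =>
        z ∈ Z ∧ 1 ≤ k18_f F (Z.erase z) ∧ 2 ≤ k18_f F Zᶜ)).card ≤ 2 * (v - 1) := by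
    intro Z hZ
    rw [mem_powersetCard] at hZ
    by_cases h5 : 2 ≤ k18_f F Zᶜ
    · have h6 := k18_UI hUI hv h5
      rw [compl_compl] at h6
      have h7 := k18_erase hF hZ.2
      have h8 : ((univ : Finset β).filter (fun z =>
          z ∈ Z ∧ 1 ≤ k18_f F (Z.erase z) ∧ 2 ≤ k18_f F Zᶜ)).card ≤
          ∑ z ∈ Z, k18_f F (Z.erase z) := by
        have h9 : (univ : Finset β).filter (fun z =>
            z ∈ Z ∧ 1 ≤ k18_f F (Z.erase z) ∧ 2 ≤ k18_f F Zᶜ) =
            Z.filter (fun z => 1 ≤ k18_f F (Z.erase z)) := by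
          ext z
          simp only [mem_filter, mem_univ, true_and]
          constructor
          · rintro ⟨a, b, -⟩; exact ⟨a, b⟩
          · rintro ⟨a, b⟩; exact ⟨a, b, h5⟩
        rw [h9, card_filter]
        apply sum_le_sum
        intro z _
        split_ifs with h10
        · exact h10
        · exact Nat.zero_le _
      omega
    · have h6 : (univ : Finset β).filter (fun z =>
          z ∈ Z ∧ 1 ≤ k18_f F (Z.erase z) ∧ 2 ≤ k18_f F Zᶜ) = ∅ := by
        rw [filter_eq_empty_iff]
        rintro z _ ⟨-, -, h7⟩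
        exact h5 h7
      rw [h6]
      simp
  calc _ ≤ ∑ Z ∈ powersetCard (k + 2) (univ : Finset β), 2 * (v - 1) := sum_le_sum h4
    _ = 2 * (v - 1) * (Fintype.card β).choose (k + 2) := by
      rw [sum_const, card_powersetCard, card_univ, smul_eq_mul, mul_comm]

end

theorem dp_three {β : Type*} [Fintype β] [DecidableEq β] {k v : ℕ} (hv : 1 ≤ v)
    (hN : Fintype.card β = 2 * k + 3) {F : Finset (Finset β)} (hF : ∀ s ∈ F, s.card = k)
    (hUI : UI 2 v F) :
    3 * dp F F ≤ (v - 1) * ((k + 3) * F.card) + (k + 2) * (2 * k + 3).choose (k + 1) +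
      2 * (v - 1) * (k + 1) * (2 * k + 3).choose (k + 2) := by
  have h1 := k18_three hN hF
  have h2 : ∑ W ∈ powersetCard (k + 1) (univ : Finset β), k18_f F W * k18_f F Wᶜ ≤
      ∑ W ∈ powersetCard (k + 1) (univ : Finset β),
        ((v - 1) * k18_f F W + (k + 2) + (k + 1) * k18_h F W) := by
    apply sum_le_sum
    intro W hW
    rw [mem_powersetCard] at hW
    exact k18_point hUI hv hN hF hW.2
  rw [sum_add_distrib, sum_add_distrib, ← mul_sum, ← mul_sum, sum_const, card_powersetCard,
    card_univ, hN, smul_eq_mul] at h2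
  have h3 := Nat.mul_le_mul_left (v - 1) (k18_sum hN hF)
  have h4 := Nat.mul_le_mul_left (k + 1) (k18_hsum (β := β) hUI hv hF)
  rw [hN] at h4
  calc 3 * dp F F ≤ _ := h1
    _ ≤ _ := h2
    _ ≤ (v - 1) * ((k + 3) * F.card) + (2 * k + 3).choose (k + 1) * (k + 2) +
        (k + 1) * (2 * (v - 1) * (2 * k + 3).choose (k + 2)) :=
        Nat.add_le_add (Nat.add_le_add_right h3 _) h4
    _ = _ := by ring

end Pool.Agent.Lib.MP_fffc5a_co
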