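import Mathlib
import Pool.Agent.Lib.MP_fffc5a_co.Defs
import Pool.Agent.Lib.MP_fffc5a_co.DefsH
import Pool.Agent.Lib.MP_fffc5a_co.DefsK
import Pool.Agent.Lib.MP_fffc5a_co.PartAvg
import Pool.Agent.Lib.MP_fffc5a_co.Deg
import Pool.Agent.Lib.MP_fffc5a_co.DpThree

/-!
K19: a union-intersecting family of size at least `C(n-1,k-1)` has few disjoint pairs.
-/

set_option autoImplicit false

open Finset

namespace Pool.Agent.Lib.MP_fffc5a_co

lemma k19_choose {k : ℕ} (hk : 1 ≤ k) :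
    (2 * k + 3).choose (k + 1) ≤ 12 * (2 * k + 2).choose (k - 1) := by
  obtain ⟨m, rfl⟩ : ∃ m, k = m + 1 := ⟨k - 1, by omega⟩
  have e1 : 2 * (m + 1) + 3 = (2 * (m + 1) + 2) + 1 := by ring
  have h1 : (2 * (m + 1) + 2 + 1) * (2 * (m + 1) + 2).choose (m + 1) =
      (2 * (m + 1) + 3).choose (m + 2) * (m + 2) :=
    Nat.add_one_mul_choose_eq (2 * (m + 1) + 2) (m + 1)
  have h2 : (2 * (m + 1) + 2).choose (m + 1) * (m + 1) =
      (2 * (m + 1) + 2).choose m * (2 * (m + 1) + 2 - m) :=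
    Nat.choose_succ_right_eq (2 * (m + 1) + 2) m
  have e2 : 2 * (m + 1) + 2 - m = m + 4 := by omega
  rw [e2] at h2
  have e3 : m + 1 + 1 = m + 2 := rfl
  have e4 : m + 1 - 1 = m := rfl
  rw [e3, e4]
  generalize (2 * (m + 1) + 2).choose (m + 1) = X at h1 h2
  generalize (2 * (m + 1) + 2).choose m = Y at h2 ⊢
  generalize (2 * (m + 1) + 3).choose (m + 2) = Z at h1 ⊢
  have h3 : Z * ((m + 2) * (m + 1)) = (2 * m + 5) * (m + 4) * Y := by
    calc Z * ((m + 2) * (m + 1)) = (Z * (m + 2)) * (m + 1) := by ring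
      _ = (2 * (m + 1) + 2 + 1) * (X * (m + 1)) := by rw [← h1]; ring
      _ = (2 * m + 5) * (m + 4) * Y := by rw [h2]; ring
  have h4 : (2 * m + 5) * (m + 4) ≤ 12 * ((m + 2) * (m + 1)) := by nlinarith
  have h5 : Z * ((m + 2) * (m + 1)) ≤ (12 * Y) * ((m + 2) * (m + 1)) := by
    rw [h3]
    calc (2 * m + 5) * (m + 4) * Y ≤ 12 * ((m + 2) * (m + 1)) * Y := Nat.mul_le_mul_right _ h4
      _ = (12 * Y) * ((m + 2) * (m + 1)) := by ring
  exact Nat.le_of_mul_le_mul_right h5 (by positivity)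

lemma k19_one {u v a : ℕ} (hv : 1 ≤ v) (hu : u = 1) (hua : u + 1 ≤ a) :
    ∃ C₁ k₀ : ℕ, ∀ k : ℕ, k₀ ≤ k → ∀ (β : Type) [Fintype β] [DecidableEq β],
    Fintype.card β = 2 * k + a → ∀ F : Finset (Finset β), (∀ s ∈ F, s.card = k) → UI u v F →
    (2 * k + a - 1).choose (k - 1) ≤ F.card → dp F F ≤ C₁ * k ^ (a - 2) * F.card := by
  subst hu
  refine ⟨v - 1, 1, ?_⟩
  intro k hk β _ _ _ F _ hUI _
  have h1 := dg_dp_le hv hUI (Subset.refl F)
  have h2 : 1 ≤ k ^ (a - 2) := Nat.one_le_pow _ _ hk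
  calc dp F F ≤ F.card * (v - 1) := h1
    _ = (v - 1) * 1 * F.card := by ring
    _ ≤ (v - 1) * k ^ (a - 2) * F.card := by gcongr

lemma k19_three {u v a : ℕ} (hv : 1 ≤ v) (hu : u = 2) (ha : a = 3) :
    ∃ C₁ k₀ : ℕ, ∀ k : ℕ, k₀ ≤ k → ∀ (β : Type) [Fintype β] [DecidableEq β],
    Fintype.card β = 2 * k + a → ∀ F : Finset (Finset β), (∀ s ∈ F, s.card = k) → UI u v F →
    (2 * k + a - 1).choose (k - 1) ≤ F.card → dp F F ≤ C₁ * k ^ (a - 2) * F.card := by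
  subst hu ha
  refine ⟨52 * v + 36, 1, ?_⟩
  intro k hk β _ _ hN F hF hUI hL
  have h1 := dp_three hv hN hF hUI
  have e1 : 2 * k + 3 - 1 = 2 * k + 2 := by omega
  rw [e1] at hL
  have h2 : (2 * k + 3).choose (k + 1) ≤ 12 * F.card :=
    (k19_choose hk).trans (Nat.mul_le_mul_left _ hL)
  have h3 : (2 * k + 3).choose (k + 2) ≤ 12 * F.card := by
    have : (2 * k + 3).choose (k + 2) = (2 * k + 3).choose (k + 1) :=
      Nat.choose_symm_of_eq_add (by omega)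
    rw [this]
    exact h2
  have h4 : (v - 1) * ((k + 3) * F.card) ≤ v * ((4 * k) * F.card) := by
    have : v - 1 ≤ v := Nat.sub_le _ _
    have h5 : k + 3 ≤ 4 * k := by omega
    gcongr
  have h5 : (k + 2) * (2 * k + 3).choose (k + 1) ≤ (3 * k) * (12 * F.card) := by
    have : k + 2 ≤ 3 * k := by omega
    gcongr
  have h6 : 2 * (v - 1) * (k + 1) * (2 * k + 3).choose (k + 2) ≤
      2 * v * (2 * k) * (12 * F.card) := by
    have : v - 1 ≤ v := Nat.sub_le _ _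
    have h5 : k + 1 ≤ 2 * k := by omega
    gcongr
  have e2 : (3 : ℕ) - 2 = 1 := rfl
  rw [e2, pow_one]
  nlinarith [Nat.zero_le (k * F.card), Nat.zero_le (v * (k * F.card))]

lemma k19_four {u v a : ℕ} (hu : 1 ≤ u) (hv : 1 ≤ v) (ha : 4 ≤ a) :
    ∃ C₁ k₀ : ℕ, ∀ k : ℕ, k₀ ≤ k → ∀ (β : Type) [Fintype β] [DecidableEq β],
    Fintype.card β = 2 * k + a → ∀ F : Finset (Finset β), (∀ s ∈ F, s.card = k) → UI u v F →
    (2 * k + a - 1).choose (k - 1) ≤ F.card → dp F F ≤ C₁ * k ^ (a - 2) * F.card := by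
  refine ⟨(u + v) * 2 ^ (a - 2), a, ?_⟩
  intro k hk β _ _ hN F hF hUI _
  have h1 := part_avg hu hv hN hF hUI 2
  have h2 : 1 ≤ a.choose 2 := Nat.choose_pos (by omega)
  have h3 : (k + a).choose (k + 2) ≤ (2 * k) ^ (a - 2) := by
    have e1 : (k + a).choose (k + 2) = (k + a).choose (a - 2) :=
      Nat.choose_symm_of_eq_add (by omega)
    rw [e1]
    refine (Nat.choose_le_pow (k + a) (a - 2)).trans ?_
    exact Nat.pow_le_pow_left (by omega) _
  have h4 : (k + a).choose 2 ≤ (2 * k) ^ (a - 2) := by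
    refine (Nat.choose_le_pow (k + a) 2).trans ?_
    refine (Nat.pow_le_pow_left (show k + a ≤ 2 * k by omega) 2).trans ?_
    exact Nat.pow_le_pow_right (by omega) (by omega)
  calc dp F F = dp F F * 1 := (mul_one _).symm
    _ ≤ dp F F * a.choose 2 := Nat.mul_le_mul_left _ h2
    _ ≤ F.card * ((u - 1) * (k + a).choose (k + 2) + (v - 1) * (k + a).choose 2) := h1
    _ ≤ F.card * (u * (2 * k) ^ (a - 2) + v * (2 * k) ^ (a - 2)) := by
        have h5 : u - 1 ≤ u := Nat.sub_le _ _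
        have h6 : v - 1 ≤ v := Nat.sub_le _ _
        gcongr
    _ = (u + v) * 2 ^ (a - 2) * k ^ (a - 2) * F.card := by
        rw [mul_pow]
        ring

theorem dp_bound (u v a : ℕ) (hu : 1 ≤ u) (huv : u ≤ v) (hua : u + 1 ≤ a) :
    ∃ C₁ k₀ : ℕ, ∀ k : ℕ, k₀ ≤ k → ∀ (β : Type) [Fintype β] [DecidableEq β],
    Fintype.card β = 2 * k + a → ∀ F : Finset (Finset β), (∀ s ∈ F, s.card = k) → UI u v F →
    (2 * k + a - 1).choose (k - 1) ≤ F.card → dp F F ≤ C₁ * k ^ (a - 2) * F.card := by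
  have hv : 1 ≤ v := hu.trans huv
  rcases Nat.lt_or_ge a 4 with ha | ha
  · rcases Nat.lt_or_ge u 2 with h | h
    · exact k19_one hv (by omega) hua
    · exact k19_three hv (by omega) (by omega)
  · exact k19_four hu hv ha

end Pool.Agent.Lib.MP_fffc5a_co
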