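import Mathlib
import Pool.Agent.Lib.MP_fffc5a_co.Defs
import Pool.Agent.Lib.MP_fffc5a_co.DefsH
import Pool.Agent.Lib.MP_fffc5a_co.DefsK

/-!
Endgame: a family which is almost constant on the sets avoiding a point and has few disjoint pairs
has few members avoiding the point.
-/

set_option autoImplicit false

open Finset

namespace Pool.Agent.Lib.MP_fffc5a_co

theorem k16_count {β : Type*} [Fintype β] [DecidableEq β] {k a : ℕ}
    (hN : Fintype.card β = 2 * k + a) (ha : 1 ≤ a) (x : β) {G : Finset β}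
    (hG : G ∈ powersetCard k (univ.erase x)) :
    ((powersetCard k (univ.erase x)).filter fun B => Disjoint G B).card =
      (k + a - 1).choose k := by
  rw [mem_powersetCard] at hG
  have e : ((powersetCard k (univ.erase x)).filter fun B => Disjoint G B) =
      powersetCard k ((univ.erase x) \ G) := by
    ext B
    simp only [mem_filter, mem_powersetCard, subset_sdiff]
    constructor
    · rintro ⟨⟨h1, h2⟩, h3⟩
      exact ⟨⟨h1, h3.symm⟩, h2⟩
    · rintro ⟨⟨h1, h3⟩, h2⟩
      exact ⟨⟨h1, h2⟩, h3.symm⟩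
  rw [e, card_powersetCard, card_sdiff_of_subset hG.1, card_erase_of_mem (mem_univ x), card_univ,
    hN, hG.2]
  congr 1
  omega

theorem k16_dp_left {β : Type*} [Fintype β] [DecidableEq β] {k a : ℕ}
    (hN : Fintype.card β = 2 * k + a) (ha : 1 ≤ a) (x : β) {X : Finset (Finset β)}
    (hX : X ⊆ powersetCard k (univ.erase x)) :
    dp X (powersetCard k (univ.erase x)) = X.card * (k + a - 1).choose k := by
  unfold dp
  rw [card_filter, sum_product, ← smul_eq_mul, ← sum_const]
  apply sum_congr rfl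
  intro G hG
  rw [← k16_count hN ha x (hX hG), card_filter]

theorem k16_dp_right {β : Type*} [Fintype β] [DecidableEq β] {k a : ℕ}
    (hN : Fintype.card β = 2 * k + a) (ha : 1 ≤ a) (x : β) {X : Finset (Finset β)}
    (hX : X ⊆ powersetCard k (univ.erase x)) :
    dp (powersetCard k (univ.erase x)) X = X.card * (k + a - 1).choose k := by
  unfold dp
  rw [card_filter, sum_product_right, ← smul_eq_mul, ← sum_const]
  apply sum_congr rfl
  intro G hG
  rw [← k16_count hN ha x (hX hG), card_filter]
  apply sum_congr rfl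
  intro B _
  simp only [disjoint_comm]

theorem k16_choose (k a : ℕ) (ha : 1 ≤ a) :
    k ^ (a - 1) ≤ (a - 1).factorial * (k + a - 1).choose k := by
  have h1 : (k + a - 1).choose k = (k + a - 1).choose (a - 1) := by
    apply Nat.choose_symm_of_eq_add
    omega
  rw [h1, ← Nat.descFactorial_eq_factorial_mul_choose]
  refine le_trans ?_ (Nat.pow_sub_le_descFactorial _ _)
  apply Nat.pow_le_pow_left
  omega

theorem endgame (a C₁ : ℕ) (ha : 2 ≤ a) : ∃ k₀ : ℕ, ∀ k : ℕ, k₀ ≤ k →
    ∀ (β : Type) [Fintype β] [DecidableEq β], Fintype.card β = 2 * k + a →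
    ∀ F : Finset (Finset β), (∀ s ∈ F, s.card = k) →
    dp F F ≤ C₁ * k ^ (a - 2) * F.card → ∀ (x : β) (c δ : ℝ), δ ≤ 1 / 16 →
    ∑ Z ∈ (powersetCard k univ).filter (fun Z => x ∉ Z), (ind F Z - c) ^ 2 ≤
      δ * ((2 * k + a).choose k : ℝ) →
    ((F.filter fun s => x ∉ s).card : ℝ) ≤ 4 * δ * ((2 * k + a).choose k : ℝ) := by
  classical
  refine ⟨4 * C₁ * (a - 1).factorial + 1, ?_⟩
  intro k hk β _ _ hN F hF hdp x c δ hδ hsum
  have hk1 : 1 ≤ k := by omega
  set P : Finset (Finset β) := powersetCard k (univ.erase x) with hP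
  set F' := F.filter (fun s => x ∉ s) with hF'
  have hPset : (powersetCard k univ).filter (fun Z => x ∉ Z) = P := by
    ext Z
    simp only [hP, mem_filter, mem_powersetCard, subset_univ, true_and, subset_erase]
    tauto
  have hF'P : F' ⊆ P := by
    intro s hs
    rw [hF', mem_filter] at hs
    rw [hP, mem_powersetCard, subset_erase]
    exact ⟨⟨subset_univ _, hs.2⟩, hF s hs.1⟩
  have hPF : P.filter (fun Z => Z ∈ F) = F' := by
    ext Z
    rw [hF', mem_filter, mem_filter]
    constructor
    · rintro ⟨h1, h2⟩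
      rw [← hPset, mem_filter] at h1
      exact ⟨h2, h1.2⟩
    · rintro ⟨h1, h2⟩
      exact ⟨hF'P (mem_filter.mpr ⟨h1, h2⟩), h1⟩
  set N0 : ℕ := (2 * k + a - 1).choose k with hN0
  have hPcard : P.card = N0 := by
    rw [hP, card_powersetCard, card_erase_of_mem (mem_univ x), card_univ, hN]
  have hle : F'.card ≤ N0 := by
    rw [← hPcard]
    exact card_le_card hF'P
  -- C(2k+a,k) ≤ 2 N0
  set C0 : ℕ := (2 * k + a).choose k with hC0
  have hC0le : C0 ≤ 2 * N0 := by
    have h1 : C0 = (2 * k + a - 1).choose (k - 1) + N0 := by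
      exact Nat.choose_eq_choose_pred_add (by omega) (by omega)
    have h2 : (2 * k + a - 1).choose (k - 1) ≤ N0 := by
      rw [hN0]
      have h3 := Nat.choose_le_succ_of_lt_half_left (r := k - 1) (n := 2 * k + a - 1) (by omega)
      have e2 : k - 1 + 1 = k := by omega
      rw [e2] at h3
      exact h3
    omega
  have hN0C : N0 ≤ C0 := Nat.choose_le_choose k (by omega)
  have hsum2 : (F'.card : ℝ) * (1 - c) ^ 2 + ((N0 : ℝ) - F'.card) * c ^ 2 ≤ δ * C0 := by
    refine le_trans (le_of_eq ?_) hsum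
    rw [hPset, ← sum_filter_add_sum_filter_not P (fun Z => Z ∈ F)]
    have h1 : ∑ Z ∈ P.filter (fun Z => Z ∈ F), (ind F Z - c) ^ 2 = F'.card * (1 - c) ^ 2 := by
      rw [hPF, ← nsmul_eq_mul, ← sum_const]
      apply sum_congr rfl
      intro Z hZ
      have : Z ∈ F := (mem_filter.mp hZ).1
      simp only [ind, if_pos this]
    have h2 : ∑ Z ∈ P.filter (fun Z => ¬ Z ∈ F), (ind F Z - c) ^ 2 =
        ((N0 : ℝ) - F'.card) * c ^ 2 := by
      have h3 : (P.filter (fun Z => ¬ Z ∈ F)).card + F'.card = N0 := by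
        rw [← hPcard, ← hPF, add_comm]
        exact card_filter_add_card_filter_not (s := P) (fun Z => Z ∈ F)
      have h4 : ((N0 : ℝ) - F'.card) = ((P.filter (fun Z => ¬ Z ∈ F)).card : ℝ) := by
        rw [← h3]
        push_cast
        ring
      rw [h4, ← nsmul_eq_mul, ← sum_const]
      apply sum_congr rfl
      intro Z hZ
      have : Z ∉ F := (mem_filter.mp hZ).2
      simp only [ind, if_neg this]
      ring
    rw [h1, h2]
  have hN0pos : (0 : ℝ) < N0 := by
    have : 0 < N0 := Nat.choose_pos (by omega)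
    exact_mod_cast this
  have hC0pos : (0 : ℝ) < C0 := by
    have : 0 < C0 := Nat.choose_pos (by omega)
    exact_mod_cast this
  set f : ℝ := (F'.card : ℝ) with hf
  have hf0 : 0 ≤ f := by positivity
  have hfN : f ≤ N0 := Nat.cast_le.mpr hle
  have hprod : f * (N0 - f) ≤ δ * C0 * N0 := by
    have h1 : f * (N0 - f) ≤ (f * (1 - c) ^ 2 + (N0 - f) * c ^ 2) * N0 := by
      nlinarith [sq_nonneg (f * (1 - c) - (N0 - f) * c)]
    exact h1.trans (mul_le_mul_of_nonneg_right hsum2 hN0pos.le)
  have hδ0 : 0 ≤ δ := by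
    by_contra hcon
    push Not at hcon
    have h1 : 0 ≤ f * (1 - c) ^ 2 + (N0 - f) * c ^ 2 := by
      have : 0 ≤ (N0 : ℝ) - f := by linarith
      positivity
    have h2 : δ * C0 < 0 := mul_neg_of_neg_of_pos hcon hC0pos
    linarith
  have hC0le' : (C0 : ℝ) ≤ 2 * N0 := by exact_mod_cast hC0le
  rcases le_or_gt f (N0 / 2) with hcase | hcase
  · have h1 : f * (N0 / 2) ≤ δ * C0 * N0 := by
      refine le_trans ?_ hprod
      apply mul_le_mul_of_nonneg_left _ hf0
      linarith
    have h2 : f ≤ 2 * (δ * C0) := by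
      have h3 : f * N0 ≤ (2 * (δ * C0)) * N0 := by linarith
      exact le_of_mul_le_mul_right h3 hN0pos
    have h4 : 0 ≤ δ * C0 := by positivity
    linarith
  · exfalso
    have h1 : (N0 / 2) * (N0 - f) ≤ δ * C0 * N0 := by
      refine le_trans ?_ hprod
      apply mul_le_mul_of_nonneg_right hcase.le
      linarith
    have h2 : N0 - f ≤ 2 * (δ * C0) := by
      have h3 : (N0 - f) * N0 ≤ (2 * (δ * C0)) * N0 := by linarith
      exact le_of_mul_le_mul_right h3 hN0pos
    have h3 : δ * C0 ≤ N0 / 8 := by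
      calc δ * C0 ≤ 1 / 16 * (2 * N0) := mul_le_mul hδ hC0le' hC0pos.le (by norm_num)
        _ = N0 / 8 := by ring
    have h4 : (N0 : ℝ) - f ≤ N0 / 4 := by linarith
    set D : ℕ := (k + a - 1).choose k with hD
    have hdpP : dp P P = N0 * D := by
      rw [← hPcard]
      exact k16_dp_left hN (by omega) x (subset_refl _)
    have hdp1 : dp (P \ F') P = (P \ F').card * D := k16_dp_left hN (by omega) x sdiff_subset
    have hdp2 : dp P (P \ F') = (P \ F').card * D := k16_dp_right hN (by omega) x sdiff_subset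
    have hcardsd : (P \ F').card + F'.card = N0 := by
      rw [card_sdiff_of_subset hF'P, hPcard]
      omega
    have hunion : dp P P ≤ dp F F + dp (P \ F') P + dp P (P \ F') := by
      unfold dp
      have hsub : (P ×ˢ P).filter (fun p => Disjoint p.1 p.2) ⊆
          ((F ×ˢ F).filter (fun p => Disjoint p.1 p.2) ∪
            ((P \ F') ×ˢ P).filter (fun p => Disjoint p.1 p.2)) ∪
            (P ×ˢ (P \ F')).filter (fun p => Disjoint p.1 p.2) := by
        intro p hp
        simp only [mem_filter, mem_product] at hp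
        simp only [mem_union, mem_filter, mem_product, mem_sdiff]
        by_cases q1 : p.1 ∈ F'
        · by_cases q2 : p.2 ∈ F'
          · left; left
            exact ⟨⟨(mem_filter.mp q1).1, (mem_filter.mp q2).1⟩, hp.2⟩
          · right
            exact ⟨⟨hp.1.1, hp.1.2, q2⟩, hp.2⟩
        · left; right
          exact ⟨⟨⟨hp.1.1, q1⟩, hp.1.2⟩, hp.2⟩
      exact (card_le_card hsub).trans ((card_union_le _ _).trans
        (Nat.add_le_add_right (card_union_le _ _) _))
    rw [hdpP, hdp1, hdp2] at hunion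
    have hFcard : F.card ≤ C0 := by
      rw [hC0, ← hN, ← card_univ, ← card_powersetCard]
      apply card_le_card
      intro s hs
      rw [mem_powersetCard]
      exact ⟨subset_univ _, hF s hs⟩
    have hreal : (N0 : ℝ) * D ≤ C₁ * k ^ (a - 2) * (2 * N0) + 2 * ((N0 / 4) * D) := by
      have g1 : (N0 : ℝ) * D ≤ (dp F F : ℝ) + ((P \ F').card : ℝ) * D +
          ((P \ F').card : ℝ) * D := by exact_mod_cast hunion
      have g2 : ((P \ F').card : ℝ) = N0 - f := by
        rw [hf, ← hcardsd]
        push_cast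
        ring
      have g3 : (dp F F : ℝ) ≤ C₁ * k ^ (a - 2) * (2 * N0) := by
        calc (dp F F : ℝ) ≤ C₁ * k ^ (a - 2) * F.card := by exact_mod_cast hdp
          _ ≤ C₁ * k ^ (a - 2) * (2 * N0) := by
            apply mul_le_mul_of_nonneg_left _ (by positivity)
            calc (F.card : ℝ) ≤ C0 := by exact_mod_cast hFcard
              _ ≤ 2 * N0 := hC0le'
      have g4 : ((P \ F').card : ℝ) * D ≤ (N0 / 4) * D := by
        rw [g2]
        exact mul_le_mul_of_nonneg_right h4 (by positivity)
      linarith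
    have hD4 : (D : ℝ) ≤ 4 * C₁ * k ^ (a - 2) := by
      have g : (N0 : ℝ) * D ≤ N0 * (4 * C₁ * k ^ (a - 2)) := by linarith
      exact le_of_mul_le_mul_left g hN0pos
    have hD4' : D ≤ 4 * C₁ * k ^ (a - 2) := by exact_mod_cast hD4
    have hch := k16_choose k a (by omega)
    have hpow : k ^ (a - 1) = k ^ (a - 2) * k := by
      rw [← pow_succ]
      congr 1
      omega
    have hkp : 0 < k ^ (a - 2) := by positivity
    have hfin : k ^ (a - 2) * k ≤ k ^ (a - 2) * (4 * C₁ * (a - 1).factorial) := by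
      calc k ^ (a - 2) * k = k ^ (a - 1) := hpow.symm
        _ ≤ (a - 1).factorial * D := hch
        _ ≤ (a - 1).factorial * (4 * C₁ * k ^ (a - 2)) := Nat.mul_le_mul_left _ hD4'
        _ = k ^ (a - 2) * (4 * C₁ * (a - 1).factorial) := by ring
    have := Nat.le_of_mul_le_mul_left hfin hkp
    omega

end Pool.Agent.Lib.MP_fffc5a_co
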