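import Mathlib
import Pool.Agent.Lib.MP_fffc5a_co.Defs
import Pool.Agent.Lib.MP_fffc5a_co.DefsC
import Pool.Agent.Lib.MP_fffc5a_co.PartAvg

/-!
The bound for the number of extra members, from the averaging over sets of size `k + a / 2`.
-/

set_option autoImplicit false

open Finset

namespace Pool.Agent.Lib.MP_fffc5a_co

theorem e2_choose_one (k a j : ℕ) (hj : j ≤ a) :
    (k + a).choose (k + j) * (k + j).choose k = (k + a).choose k * a.choose j := by
  have h := Nat.choose_mul (n := k + a) (k := k + j) (s := k) (by omega)
  have h1 : k + a - k = a := by omega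
  have h2 : k + j - k = j := by omega
  rw [h1, h2] at h
  exact h

theorem e2_choose_two (k a j : ℕ) (hj : j ≤ a) :
    (k + a).choose j * (k + a - j).choose k = (k + a).choose k * a.choose j := by
  have h := Nat.choose_mul (n := k + a) (k := k + j) (s := j) (by omega)
  have h1 : k + j - j = k := by omega
  rw [h1] at h
  rw [← h, ← e2_choose_one k a j hj]
  congr 1
  have h3 := Nat.choose_symm (show k ≤ k + j by omega)
  have h4 : k + j - k = j := by omega
  rw [h4] at h3
  exact h3

theorem extras_le {α : Type*} [Fintype α] [DecidableEq α] {u v k a : ℕ} (hu : 1 ≤ u) (hv : 1 ≤ v)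
    (huv : u + v ≤ k + 2) (hn : Fintype.card α = 2 * k + a) {F : Finset (Finset α)}
    (hF : ∀ s ∈ F, s.card = k) (hUI : UI u v F) {e c : ℕ}
    (he : e * (k + a).choose k ≤ c * dp F F) :
    e * (k + a / 2).choose k ≤ c * (k * (2 * k + a).choose k) := by
  set j := a / 2 with hj
  have hja : j ≤ a := by omega
  have h1 := part_avg hu hv hn hF hUI j
  have hQ : (k + j).choose k ≤ (k + a - j).choose k := Nat.choose_le_choose k (by omega)
  set Q := (k + j).choose k with hQd
  set P := (k + a).choose k * a.choose j with hP
  have hPpos : 0 < P := Nat.mul_pos (Nat.choose_pos (by omega)) (Nat.choose_pos hja)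
  have h2 : ((u - 1) * (k + a).choose (k + j) + (v - 1) * (k + a).choose j) * Q ≤ k * P := by
    have h3 : (k + a).choose (k + j) * Q = P := e2_choose_one k a j hja
    have h4 : (k + a).choose j * Q ≤ P := by
      rw [hP, ← e2_choose_two k a j hja]
      exact Nat.mul_le_mul_left _ hQ
    calc ((u - 1) * (k + a).choose (k + j) + (v - 1) * (k + a).choose j) * Q
        = (u - 1) * ((k + a).choose (k + j) * Q) + (v - 1) * ((k + a).choose j * Q) := by ring
      _ ≤ (u - 1) * P + (v - 1) * P := by
          rw [h3]
          exact Nat.add_le_add_left (Nat.mul_le_mul_left _ h4) _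
      _ = (u - 1 + (v - 1)) * P := by ring
      _ ≤ k * P := Nat.mul_le_mul_right _ (by omega)
  have hFc : F.card ≤ (2 * k + a).choose k := by
    have h5 : F ⊆ powersetCard k univ := by
      intro s hs
      rw [mem_powersetCard]
      exact ⟨subset_univ _, hF s hs⟩
    have h6 := card_le_card h5
    rwa [card_powersetCard, card_univ, hn] at h6
  have h7 : e * Q * P ≤ c * (k * (2 * k + a).choose k) * P := by
    calc e * Q * P = e * (k + a).choose k * (a.choose j * Q) := by rw [hP]; ring
      _ ≤ c * dp F F * (a.choose j * Q) := Nat.mul_le_mul_right _ he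
      _ = c * (dp F F * a.choose j) * Q := by ring
      _ ≤ c * (F.card * ((u - 1) * (k + a).choose (k + j) + (v - 1) * (k + a).choose j)) * Q :=
          Nat.mul_le_mul_right _ (Nat.mul_le_mul_left _ h1)
      _ = c * F.card * (((u - 1) * (k + a).choose (k + j) + (v - 1) * (k + a).choose j) * Q) := by
          ring
      _ ≤ c * F.card * (k * P) := Nat.mul_le_mul_left _ h2
      _ ≤ c * (2 * k + a).choose k * (k * P) :=
          Nat.mul_le_mul_right _ (Nat.mul_le_mul_left _ hFc)
      _ = c * (k * (2 * k + a).choose k) * P := by ring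
  exact Nat.le_of_mul_le_mul_right h7 hPpos

end Pool.Agent.Lib.MP_fffc5a_co
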