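import Mathlib
import Pool.Agent.Lib.MP_fffc5a_co.Defs
import Pool.Agent.Lib.MP_fffc5a_co.DefsH
import Pool.Agent.Lib.MP_fffc5a_co.DefsK
import Pool.Agent.Lib.MP_fffc5a_co.BonamiPoly

/-!
A function on the cube with values zero and one which is close to an affine function is close to a
function of one coordinate: the form with fourth powers of the coefficients.
-/

set_option autoImplicit false

open Finset

namespace Pool.Agent.Lib.MP_fffc5a_co

theorem k11_moments {m : ℕ} (b : Fin m → ℝ) :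
    ∑ δ : Fin m → Bool, (∑ p, b p * sg (δ p)) ^ 2 = 2 ^ m * ∑ p, b p ^ 2 ∧
    ∑ δ : Fin m → Bool, (∑ p, b p * sg (δ p)) ^ 4 =
      2 ^ m * (3 * (∑ p, b p ^ 2) ^ 2 - 2 * ∑ p, b p ^ 4) := by
  induction m with
  | zero => simp
  | succ n ih =>
    obtain ⟨i2, i4⟩ := ih (fun p => b p.succ)
    have hf : ∀ y : Fin n → Bool, ∑ p, b p * sg ((Fin.cons false y : Fin (n + 1) → Bool) p) =
        (∑ p : Fin n, b p.succ * sg (y p)) - b 0 := by
      intro y
      rw [Fin.sum_univ_succ]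
      simp only [Fin.cons_zero, Fin.cons_succ, sg]
      simp
      ring
    have ht : ∀ y : Fin n → Bool, ∑ p, b p * sg ((Fin.cons true y : Fin (n + 1) → Bool) p) =
        (∑ p : Fin n, b p.succ * sg (y p)) + b 0 := by
      intro y
      rw [Fin.sum_univ_succ]
      simp only [Fin.cons_zero, Fin.cons_succ, sg]
      simp
      ring
    have hcard : ∑ _y : Fin n → Bool, (1 : ℝ) = 2 ^ n := by
      simp
    constructor
    · rw [k4_sum]
      have e : ∀ y : Fin n → Bool,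
          (∑ p, b p * sg ((Fin.cons false y : Fin (n + 1) → Bool) p)) ^ 2 +
          (∑ p, b p * sg ((Fin.cons true y : Fin (n + 1) → Bool) p)) ^ 2 =
          2 * (∑ p : Fin n, b p.succ * sg (y p)) ^ 2 + (2 * b 0 ^ 2) * 1 := by
        intro y
        rw [hf, ht]
        ring
      rw [Finset.sum_congr rfl fun y _ => e y, Finset.sum_add_distrib, ← Finset.mul_sum,
        ← Finset.mul_sum, hcard, i2, Fin.sum_univ_succ]
      ring
    · rw [k4_sum]
      have e : ∀ y : Fin n → Bool,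
          (∑ p, b p * sg ((Fin.cons false y : Fin (n + 1) → Bool) p)) ^ 4 +
          (∑ p, b p * sg ((Fin.cons true y : Fin (n + 1) → Bool) p)) ^ 4 =
          2 * (∑ p : Fin n, b p.succ * sg (y p)) ^ 4 +
          (12 * b 0 ^ 2) * (∑ p : Fin n, b p.succ * sg (y p)) ^ 2 + (2 * b 0 ^ 4) * 1 := by
        intro y
        rw [hf, ht]
        ring
      rw [Finset.sum_congr rfl fun y _ => e y, Finset.sum_add_distrib, Finset.sum_add_distrib,
        ← Finset.mul_sum, ← Finset.mul_sum, ← Finset.mul_sum, hcard, i2, i4, Fin.sum_univ_succ,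
        Fin.sum_univ_succ]
      ring

theorem k11_sg_not (c : Bool) : sg (!c) = - sg c := by
  cases c <;> simp [sg]

theorem k11_odd {m : ℕ} (F : (Fin m → Bool) → ℝ) (h : ∀ δ, F (fun p => !(δ p)) = - F δ) :
    ∑ δ, F δ = 0 := by
  have h1 : ∑ δ, F δ = ∑ δ : Fin m → Bool, F (fun p => !(δ p)) := by
    refine Fintype.sum_equiv
      ⟨fun δ p => !(δ p), fun δ p => !(δ p), fun δ => by ext p; simp, fun δ => by ext p; simp⟩
      _ _ fun δ => ?_
    simp
  have h2 : ∑ δ : Fin m → Bool, F (fun p => !(δ p)) = - ∑ δ, F δ := by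
    rw [← Finset.sum_neg_distrib]
    exact Finset.sum_congr rfl fun δ _ => h δ
  linarith

theorem k11_poly {m : ℕ} (a c : ℝ) (b : Fin m → ℝ) :
    IsPoly m 2 (fun δ => (∑ p, b p * sg (δ p)) ^ 2 + a * (∑ p, b p * sg (δ p)) + c) := by
  have e : (fun δ : Fin m → Bool =>
      (∑ p, b p * sg (δ p)) ^ 2 + a * (∑ p, b p * sg (δ p)) + c) =
      (∑ p, ∑ p', fun δ : Fin m → Bool => (b p * sg (δ p)) * (b p' * sg (δ p'))) +
      (∑ p, fun δ : Fin m → Bool => a * (b p * sg (δ p))) + (fun _ => c) := by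
    ext δ
    simp only [Pi.add_apply, Finset.sum_apply]
    rw [pow_two, Finset.sum_mul_sum, Finset.mul_sum]
  unfold IsPoly
  rw [e]
  refine Submodule.add_mem _ (Submodule.add_mem _ ?_ ?_) ?_
  · refine Submodule.sum_mem _ fun p _ => Submodule.sum_mem _ fun p' _ => ?_
    refine Submodule.subset_span ⟨{p, p'}, Finset.card_le_two, fun x y h => ?_⟩
    simp only
    rw [h p (by simp), h p' (by simp)]
  · refine Submodule.sum_mem _ fun p _ => ?_
    refine Submodule.subset_span ⟨{p}, by simp, fun x y h => ?_⟩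
    simp only
    rw [h p (by simp)]
  · exact Submodule.subset_span ⟨∅, by simp, fun x y _ => rfl⟩

/-- the interpolation between the norms -/
theorem k11_interp {m : ℕ} {q : (Fin m → Bool) → ℝ} (hq : IsPoly m 2 q) :
    2 ^ m * ∑ δ, q δ ^ 2 ≤ 81 * (∑ δ, |q δ|) ^ 2 := by
  have hB : 2 ^ m * ∑ δ, q δ ^ 4 ≤ 9 ^ 2 * (∑ δ, q δ ^ 2) ^ 2 := bonami_poly m 2 hq
  set Q1 := ∑ δ, |q δ| with hQ1
  set Q2 := ∑ δ, q δ ^ 2 with hQ2
  set Q3 := ∑ δ, |q δ| ^ 3 with hQ3
  set Q4 := ∑ δ, q δ ^ 4 with hQ4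
  have h1 : 0 ≤ Q1 := Finset.sum_nonneg fun x _ => abs_nonneg _
  have h2 : 0 ≤ Q2 := Finset.sum_nonneg fun x _ => sq_nonneg _
  have h3 : 0 ≤ Q3 := Finset.sum_nonneg fun x _ => by positivity
  have h4 : 0 ≤ Q4 := Finset.sum_nonneg fun x _ => by positivity
  have hA : Q2 ^ 2 ≤ Q1 * Q3 := by
    have h := Finset.sum_sq_le_sum_mul_sum_of_sq_le_mul univ (f := fun δ => |q δ|)
      (g := fun δ => |q δ| ^ 3) (r := fun δ => q δ ^ 2) (fun δ _ => abs_nonneg _)
      (fun δ _ => by positivity) (fun δ _ => by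
        have : |q δ| * |q δ| ^ 3 = (|q δ| ^ 2) ^ 2 := by ring
        rw [this, sq_abs])
    exact h
  have hC : Q3 ^ 2 ≤ Q2 * Q4 := by
    have h := Finset.sum_sq_le_sum_mul_sum_of_sq_le_mul univ (f := fun δ => q δ ^ 2)
      (g := fun δ => q δ ^ 4) (r := fun δ => |q δ| ^ 3) (fun δ _ => by positivity)
      (fun δ _ => by positivity) (fun δ _ => by
        have e4 : q δ ^ 4 = (|q δ| ^ 2) ^ 2 := by rw [sq_abs]; ring
        have e5 : (|q δ| ^ 3) ^ 2 = q δ ^ 2 * q δ ^ 4 := by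
          rw [e4, ← sq_abs (q δ)]
          ring
        exact e5.le)
    exact h
  rcases h2.eq_or_lt with h0 | hpos
  · rw [← h0]
    simp only [mul_zero]
    positivity
  · have hN : (0 : ℝ) < 2 ^ m := by positivity
    have k1 : Q2 ^ 2 * Q2 ^ 2 ≤ (Q1 * Q3) * (Q1 * Q3) :=
      mul_le_mul hA hA (by positivity) (by positivity)
    have k2 : (Q1 * Q3) * (Q1 * Q3) ≤ Q1 ^ 2 * (Q2 * Q4) := by
      have : (Q1 * Q3) * (Q1 * Q3) = Q1 ^ 2 * Q3 ^ 2 := by ring
      rw [this]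
      exact mul_le_mul_of_nonneg_left hC (by positivity)
    have k3 : 2 ^ m * (Q2 ^ 2 * Q2 ^ 2) ≤ Q1 ^ 2 * Q2 * (2 ^ m * Q4) := by
      calc 2 ^ m * (Q2 ^ 2 * Q2 ^ 2) ≤ 2 ^ m * (Q1 ^ 2 * (Q2 * Q4)) :=
            mul_le_mul_of_nonneg_left (k1.trans k2) hN.le
        _ = _ := by ring
    have k4 : Q1 ^ 2 * Q2 * (2 ^ m * Q4) ≤ Q1 ^ 2 * Q2 * (9 ^ 2 * Q2 ^ 2) :=
      mul_le_mul_of_nonneg_left hB (by positivity)
    have k5 : Q2 ^ 3 * (2 ^ m * Q2) ≤ Q2 ^ 3 * (81 * Q1 ^ 2) := by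
      calc Q2 ^ 3 * (2 ^ m * Q2) = 2 ^ m * (Q2 ^ 2 * Q2 ^ 2) := by ring
        _ ≤ _ := k3.trans k4
        _ = _ := by ring
    exact le_of_mul_le_mul_left k5 (by positivity)

theorem fkn_cube {m : ℕ} {f : (Fin m → Bool) → ℝ} (hf : ∀ δ, f δ = 0 ∨ f δ = 1) (b₀ : ℝ)
    (b : Fin m → ℝ) (hb : ∑ p, b p ^ 2 ≤ 9) :
    2 ^ m * ((∑ p, b p ^ 2) ^ 2 - ∑ p, b p ^ 4) ≤
      162 * ∑ δ, (f δ - b₀ - ∑ p, b p * sg (δ p)) ^ 2 := by
  obtain ⟨m2, m4⟩ := k11_moments b
  set B := ∑ p, b p ^ 2 with hB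
  set C := ∑ p, b p ^ 4 with hC
  set L : (Fin m → Bool) → ℝ := fun δ => ∑ p, b p * sg (δ p) with hL
  set D : (Fin m → Bool) → ℝ := fun δ => f δ - b₀ - L δ with hD
  have hgoal : ∑ δ, (f δ - b₀ - ∑ p, b p * sg (δ p)) ^ 2 = ∑ δ, D δ ^ 2 := rfl
  rw [hgoal]
  have m2' : ∑ δ, L δ ^ 2 = 2 ^ m * B := m2
  have m4' : ∑ δ, L δ ^ 4 = 2 ^ m * (3 * B ^ 2 - 2 * C) := m4
  set W := ∑ δ, D δ ^ 2 with hW
  have hN : (0 : ℝ) < 2 ^ m := by positivity
  have hB0 : 0 ≤ B := Finset.sum_nonneg fun x _ => sq_nonneg _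
  have hC0 : 0 ≤ C := Finset.sum_nonneg fun x _ => by positivity
  have hW0 : 0 ≤ W := Finset.sum_nonneg fun x _ => sq_nonneg _
  have hcard : ∑ _y : Fin m → Bool, (1 : ℝ) = 2 ^ m := by simp
  rcases le_total W (2 ^ m) with hWN | hWN
  · -- the main case
    set q : (Fin m → Bool) → ℝ := fun δ => L δ ^ 2 + (2 * b₀ - 1) * L δ + (b₀ ^ 2 - b₀) with hq
    have hqP : IsPoly m 2 q := k11_poly (2 * b₀ - 1) (b₀ ^ 2 - b₀) b
    have hint := k11_interp hqP
    have hqD : ∀ δ, |q δ| ≤ |D δ| + D δ ^ 2 := by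
      intro δ
      have e : L δ = f δ - b₀ - D δ := by
        simp only [hD]
        ring
      rcases hf δ with h | h
      · have e2 : q δ = D δ + D δ ^ 2 := by
          simp only [hq]
          rw [e, h]
          ring
        rw [e2]
        exact (abs_add_le _ _).trans (by rw [abs_of_nonneg (sq_nonneg (D δ))])
      · have e2 : q δ = - D δ + D δ ^ 2 := by
          simp only [hq]
          rw [e, h]
          ring
        rw [e2]
        exact (abs_add_le _ _).trans (by rw [abs_of_nonneg (sq_nonneg (D δ)), abs_neg])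
    set A := ∑ δ, |D δ| with hA
    have hA0 : 0 ≤ A := Finset.sum_nonneg fun x _ => abs_nonneg _
    have hA2 : A ^ 2 ≤ 2 ^ m * W := by
      have h := Finset.sum_mul_sq_le_sq_mul_sq univ (fun δ => |D δ|) (fun _ => (1 : ℝ))
      simp only [mul_one, one_pow, sq_abs] at h
      rw [hcard] at h
      calc A ^ 2 ≤ (∑ δ, D δ ^ 2) * 2 ^ m := h
        _ = 2 ^ m * W := by ring
    have hQ1 : ∑ δ, |q δ| ≤ A + W := by
      rw [hA, hW, ← Finset.sum_add_distrib]
      exact Finset.sum_le_sum fun δ _ => hqD δ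
    have hQ0 : 0 ≤ ∑ δ, |q δ| := Finset.sum_nonneg fun x _ => abs_nonneg _
    have hQ1sq : (∑ δ, |q δ|) ^ 2 ≤ 4 * (2 ^ m * W) := by
      have h1 : (∑ δ, |q δ|) ^ 2 ≤ (A + W) ^ 2 := pow_le_pow_left₀ hQ0 hQ1 2
      have h2 : (A + W) ^ 2 ≤ 2 * (A ^ 2 + W ^ 2) := by nlinarith [sq_nonneg (A - W)]
      have h3 : W ^ 2 ≤ 2 ^ m * W := by
        rw [pow_two]
        exact mul_le_mul_of_nonneg_right hWN hW0
      linarith
    have hQ2 : ∑ δ, q δ ^ 2 ≤ 324 * W := by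
      have : 2 ^ m * ∑ δ, q δ ^ 2 ≤ 2 ^ m * (324 * W) := by
        calc 2 ^ m * ∑ δ, q δ ^ 2 ≤ 81 * (∑ δ, |q δ|) ^ 2 := hint
          _ ≤ 81 * (4 * (2 ^ m * W)) := by linarith
          _ = _ := by ring
      exact le_of_mul_le_mul_left this hN
    -- the lower bound
    have hLodd : ∀ δ : Fin m → Bool, L (fun p => !(δ p)) = - L δ := by
      intro δ
      simp only [hL]
      rw [← Finset.sum_neg_distrib]
      refine Finset.sum_congr rfl fun p _ => ?_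
      rw [k11_sg_not]
      ring
    have s1 : ∑ δ, L δ = 0 := k11_odd L hLodd
    have s3 : ∑ δ, L δ ^ 3 = 0 := by
      refine k11_odd (fun δ => L δ ^ 3) fun δ => ?_
      rw [hLodd]
      ring
    set a := 2 * b₀ - 1 with ha
    set c := b₀ ^ 2 - b₀ with hc
    have hexp : ∑ δ, q δ ^ 2 = 2 ^ m * (3 * B ^ 2 - 2 * C) + (a ^ 2 + 2 * c) * (2 ^ m * B) +
        c ^ 2 * 2 ^ m := by
      have e : ∀ δ, q δ ^ 2 = L δ ^ 4 + (2 * a) * L δ ^ 3 + (a ^ 2 + 2 * c) * L δ ^ 2 +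
          (2 * a * c) * L δ + c ^ 2 * 1 := by
        intro δ
        have e0 : q δ = L δ ^ 2 + a * L δ + c := rfl
        rw [e0]
        ring
      rw [Finset.sum_congr rfl fun δ _ => e δ, Finset.sum_add_distrib, Finset.sum_add_distrib,
        Finset.sum_add_distrib, Finset.sum_add_distrib, ← Finset.mul_sum, ← Finset.mul_sum,
        ← Finset.mul_sum, ← Finset.mul_sum, hcard, m2', m4', s1, s3]
      ring
    have hlow : 2 ^ m * (2 * (B ^ 2 - C)) ≤ ∑ δ, q δ ^ 2 := by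
      rw [hexp]
      have : 2 ^ m * (3 * B ^ 2 - 2 * C) + (a ^ 2 + 2 * c) * (2 ^ m * B) + c ^ 2 * 2 ^ m =
          2 ^ m * (2 * (B ^ 2 - C)) + 2 ^ m * ((B + c) ^ 2 + a ^ 2 * B) := by ring
      rw [this]
      have : 0 ≤ (2 : ℝ) ^ m * ((B + c) ^ 2 + a ^ 2 * B) := by positivity
      linarith
    linarith
  · -- the trivial case
    have h1 : B ^ 2 - C ≤ 81 := by nlinarith
    calc 2 ^ m * (B ^ 2 - C) ≤ 2 ^ m * 81 := mul_le_mul_of_nonneg_left h1 hN.le
      _ ≤ 162 * W := by linarith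

end Pool.Agent.Lib.MP_fffc5a_co
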