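import Mathlib
import Pool.Agent.Lib.MP_fffc5a_co.Defs
import Pool.Agent.Lib.MP_fffc5a_co.DefsH
import Pool.Agent.Lib.MP_fffc5a_co.DefsK

/-!
Sums over all permutations of a function of the images of two different points.
-/

set_option autoImplicit false

open Finset

namespace Pool.Agent.Lib.MP_fffc5a_co

theorem k13_exists {β : Type*} [Fintype β] [DecidableEq β] {i j : β} (hij : i ≠ j) (a b : β)
    (hab : a ≠ b) : ∃ τ : Equiv.Perm β, τ i = a ∧ τ j = b := by
  refine ⟨Equiv.swap (Equiv.swap i a j) b * Equiv.swap i a, ?_, ?_⟩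
  · rw [Equiv.Perm.mul_apply, Equiv.swap_apply_left]
    apply Equiv.swap_apply_of_ne_of_ne _ hab
    intro h
    have h1 : Equiv.swap i a i = Equiv.swap i a j := by rw [Equiv.swap_apply_left]; exact h
    exact hij ((Equiv.swap i a).injective h1)
  · rw [Equiv.Perm.mul_apply, Equiv.swap_apply_left]

theorem k13_fiber {β : Type*} [Fintype β] [DecidableEq β] {i j : β} (hij : i ≠ j) (a b : β)
    (hab : a ≠ b) : (univ.filter (fun σ : Equiv.Perm β => (σ i, σ j) = (a, b))).card =
      (univ.filter (fun σ : Equiv.Perm β => σ i = i ∧ σ j = j)).card := by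
  obtain ⟨τ, h1, h2⟩ := k13_exists hij a b hab
  symm
  refine Finset.card_equiv (Equiv.mulLeft τ) fun σ => ?_
  simp only [mem_filter, mem_univ, true_and, Equiv.coe_mulLeft, Equiv.Perm.mul_apply,
    Prod.mk.injEq]
  constructor
  · rintro ⟨h3, h4⟩
    rw [h3, h4]
    exact ⟨h1, h2⟩
  · rintro ⟨h3, h4⟩
    exact ⟨τ.injective (by rw [h3, h1]), τ.injective (by rw [h4, h2])⟩

theorem k13_sum_aux {β : Type*} [Fintype β] [DecidableEq β] {i j : β} (hij : i ≠ j)
    (g : β × β → ℝ) : ∑ σ : Equiv.Perm β, g (σ i, σ j) =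
      (univ.filter (fun σ : Equiv.Perm β => σ i = i ∧ σ j = j)).card *
        ∑ p : β × β, (if p.1 = p.2 then 0 else g p) := by
  rw [← Finset.sum_fiberwise univ (fun σ : Equiv.Perm β => (σ i, σ j)), mul_sum]
  refine sum_congr rfl fun p _ => ?_
  have h1 : ∑ σ ∈ univ.filter (fun σ : Equiv.Perm β => (σ i, σ j) = p), g (σ i, σ j) =
      ∑ σ ∈ univ.filter (fun σ : Equiv.Perm β => (σ i, σ j) = p), g p := by
    refine sum_congr rfl fun σ hσ => ?_
    rw [mem_filter] at hσ
    rw [hσ.2]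
  rw [h1, sum_const, nsmul_eq_mul]
  split_ifs with h
  · have h2 : univ.filter (fun σ : Equiv.Perm β => (σ i, σ j) = p) = ∅ := by
      rw [filter_eq_empty_iff]
      intro σ _ h3
      rw [← h3] at h
      exact hij (σ.injective h)
    rw [h2]
    simp
  · rw [← k13_fiber hij p.1 p.2 h]

theorem k13_card {β : Type*} [Fintype β] [DecidableEq β] {i j : β} (hij : i ≠ j) :
    ((univ.filter (fun σ : Equiv.Perm β => σ i = i ∧ σ j = j)).card : ℝ) =
      ((Fintype.card β - 2).factorial : ℝ) := by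
  have h := k13_sum_aux hij (fun _ => (1 : ℝ))
  rw [sum_const, card_univ, Fintype.card_perm, nsmul_eq_mul, mul_one] at h
  have hN : 2 ≤ Fintype.card β := by
    have : ({i, j} : Finset β).card ≤ Fintype.card β := card_le_univ _
    rwa [card_pair hij] at this
  obtain ⟨n, hn⟩ : ∃ n, Fintype.card β = n + 2 := ⟨_, (Nat.sub_add_cancel hN).symm⟩
  have h2 : ∑ p : β × β, (if p.1 = p.2 then (0 : ℝ) else 1) = (n + 2) * (n + 1) := by
    rw [Fintype.sum_prod_type]
    have h3 : ∀ x : β, ∑ y : β, (if x = y then (0 : ℝ) else 1) = n + 1 := by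
      intro x
      have h4 : ∀ y : β, (if x = y then (0 : ℝ) else 1) = 1 - (if x = y then 1 else 0) := by
        intro y
        split_ifs <;> norm_num
      simp only [h4, sum_sub_distrib, sum_ite_eq, mem_univ, if_true, sum_const, card_univ, hn,
        nsmul_eq_mul, mul_one]
      push_cast
      ring
    simp only [h3, sum_const, card_univ, hn, nsmul_eq_mul]
    push_cast
    ring
  rw [h2, hn] at h
  rw [hn, Nat.add_sub_cancel]
  have h5 : ((n + 2).factorial : ℝ) = (n + 2) * ((n + 1) * n.factorial) := by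
    rw [Nat.factorial_succ, Nat.factorial_succ]
    push_cast
    ring
  rw [h5] at h
  have h6 : ((n : ℝ) + 2) * (n + 1) ≠ 0 := by positivity
  apply mul_right_cancel₀ h6
  linarith

theorem k13_sum {β : Type*} [Fintype β] [DecidableEq β] {i j : β} (hij : i ≠ j)
    (g : β → β → ℝ) (hg : ∀ a, g a a = 0) : ∑ σ : Equiv.Perm β, g (σ i) (σ j) =
      (Fintype.card β - 2).factorial * ∑ a, ∑ b, g a b := by
  have h := k13_sum_aux hij (fun p => g p.1 p.2)
  rw [k13_card hij] at h
  simp only at h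
  rw [h, Fintype.sum_prod_type]
  congr 1
  refine sum_congr rfl fun a _ => sum_congr rfl fun b _ => ?_
  split_ifs with h1
  · simp only at h1
    rw [h1, hg]
  · rfl

theorem perm_two_sq {β : Type*} [Fintype β] [DecidableEq β] (y : β → ℝ) (hy : ∑ i, y i = 0)
    {i j : β} (hij : i ≠ j) :
    ∑ σ : Equiv.Perm β, (y (σ i) - y (σ j)) ^ 2 =
      (Fintype.card β - 2).factorial * (2 * Fintype.card β * ∑ i, y i ^ 2) := by
  rw [k13_sum hij (fun a b => (y a - y b) ^ 2) (fun a => by simp)]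
  congr 1
  have h1 : ∀ a b, (y a - y b) ^ 2 = y a ^ 2 - 2 * y a * y b + y b ^ 2 := fun a b => by ring
  simp only [h1, sum_add_distrib, sum_sub_distrib, ← mul_sum, hy, sum_const, card_univ,
    nsmul_eq_mul, mul_zero, sub_zero]
  ring

theorem perm_two_four {β : Type*} [Fintype β] [DecidableEq β] (y : β → ℝ)
    (hy : ∑ i, y i = 0) {i j : β} (hij : i ≠ j) :
    ∑ σ : Equiv.Perm β, (y (σ i) - y (σ j)) ^ 4 =
      (Fintype.card β - 2).factorial *
        (2 * Fintype.card β * ∑ i, y i ^ 4 + 6 * (∑ i, y i ^ 2) ^ 2) := by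
  rw [k13_sum hij (fun a b => (y a - y b) ^ 4) (fun a => by simp)]
  congr 1
  have h1 : ∀ a b, (y a - y b) ^ 4 = y a ^ 4 - (4 * y a ^ 3) * y b + (6 * y a ^ 2) * y b ^ 2
      - (y a) * (4 * y b ^ 3) + y b ^ 4 := fun a b => by ring
  simp only [h1, sum_add_distrib, sum_sub_distrib, ← mul_sum, ← sum_mul, hy, sum_const,
    card_univ, nsmul_eq_mul, mul_zero, zero_mul, sub_zero]
  ring

end Pool.Agent.Lib.MP_fffc5a_co
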