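import Mathlib
import Pool.Agent.Lib.MP_fffc5a_co.Defs
import Pool.Agent.Lib.MP_fffc5a_co.DefsH
import Pool.Agent.Lib.MP_fffc5a_co.DefsK
import Pool.Agent.Lib.MP_fffc5a_co.CubePairs
import Pool.Agent.Lib.MP_fffc5a_co.FknCube
import Pool.Agent.Lib.MP_fffc5a_co.PermTwo

set_option autoImplicit false

open Finset

namespace Pool.Agent.Lib.MP_fffc5a_co

/-- half difference on the pair `p` -/
noncomputable def k14_b {β : Type*} {k : ℕ} (y : β → ℝ) (e : Fin k × Bool → β) (p : Fin k) : ℝ :=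
  (y (e (p, true)) - y (e (p, false))) / 2

/-- half sum on the pair `p` -/
noncomputable def k14_s {β : Type*} {k : ℕ} (y : β → ℝ) (e : Fin k × Bool → β) (p : Fin k) : ℝ :=
  (y (e (p, true)) + y (e (p, false))) / 2

theorem k14_sum_cset {β : Type*} [DecidableEq β] {k : ℕ} (y : β → ℝ) {e : Fin k × Bool → β}
    (he : Function.Injective e) (δ : Fin k → Bool) :
    ∑ i ∈ cset e δ, y i = ∑ p, k14_s y e p + ∑ p, k14_b y e p * sg (δ p) := by
  unfold cset
  rw [Finset.sum_image, ← Finset.sum_add_distrib]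
  · refine Finset.sum_congr rfl (fun p _ => ?_)
    unfold k14_s k14_b sg
    cases δ p
    · simp only [Bool.false_eq_true, if_false]
      ring
    · simp only [if_true]
      ring
  · intro p _ q _ hpq
    exact (Prod.ext_iff.1 (he hpq)).1

theorem k14_bsq {β : Type*} [Fintype β] [DecidableEq β] {k : ℕ} (y : β → ℝ)
    {e : Fin k × Bool → β} (he : Function.Injective e) :
    ∑ p, k14_b y e p ^ 2 ≤ (∑ i, y i ^ 2) / 2 := by
  have h1 : ∀ p, k14_b y e p ^ 2 ≤ (y (e (p, true)) ^ 2 + y (e (p, false)) ^ 2) / 2 := by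
    intro p
    unfold k14_b
    nlinarith [sq_nonneg (y (e (p, true)) + y (e (p, false)))]
  have h2 : ∑ p : Fin k, (y (e (p, true)) ^ 2 + y (e (p, false)) ^ 2) =
      ∑ q : Fin k × Bool, y (e q) ^ 2 := by
    rw [Fintype.sum_prod_type]
    refine Finset.sum_congr rfl (fun p _ => ?_)
    rw [Fintype.sum_bool]
  have h3 : ∑ q : Fin k × Bool, y (e q) ^ 2 ≤ ∑ i, y i ^ 2 := by
    calc ∑ q : Fin k × Bool, y (e q) ^ 2 = ∑ i ∈ univ.image e, y i ^ 2 := by
          rw [Finset.sum_image (fun a _ b _ hab => he hab)]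
      _ ≤ ∑ i, y i ^ 2 :=
          Finset.sum_le_sum_of_subset_of_nonneg (subset_univ _) (fun _ _ _ => sq_nonneg _)
  calc ∑ p, k14_b y e p ^ 2 ≤ ∑ p : Fin k, (y (e (p, true)) ^ 2 + y (e (p, false)) ^ 2) / 2 :=
        Finset.sum_le_sum (fun p _ => h1 p)
    _ = (∑ p : Fin k, (y (e (p, true)) ^ 2 + y (e (p, false)) ^ 2)) / 2 := by
        rw [Finset.sum_div]
    _ ≤ (∑ i, y i ^ 2) / 2 := by
        rw [h2]
        linarith

theorem fkn_ineq {β : Type*} [Fintype β] [DecidableEq β] {k a : ℕ} (hk : 1 ≤ k) (ha : 1 ≤ a)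
    (hN : Fintype.card β = 2 * k + a) (F : Finset (Finset β)) (c : ℝ) {y : β → ℝ}
    (hy : ∑ i, y i = 0) (hY : ∑ i, y i ^ 2 ≤ 18) :
    (k * (∑ i, y i ^ 2) / (2 * (2 * k + a - 1 : ℝ))) ^ 2 ≤
      k * (2 * (2 * k + a : ℝ) * (∑ i, y i ^ 4) + 6 * (∑ i, y i ^ 2) ^ 2) /
        (16 * (2 * k + a : ℝ) * (2 * k + a - 1)) +
      162 * ((∑ Z ∈ powersetCard k univ, (ind F Z - c - ∑ i ∈ Z, y i) ^ 2) /
        ((2 * k + a).choose k : ℝ)) := by
  classical
  -- the injection
  obtain ⟨e, he⟩ : ∃ e : Fin k × Bool → β, Function.Injective e := by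
    have h1 : Fintype.card (Fin k × Bool) ≤ Fintype.card β := by
      rw [Fintype.card_prod, Fintype.card_fin, Fintype.card_bool, hN]
      omega
    obtain ⟨f⟩ := Function.Embedding.nonempty_of_card_le h1
    exact ⟨f, f.injective⟩
  set Y : ℝ := ∑ i, y i ^ 2 with hYdef
  set Y4 : ℝ := ∑ i, y i ^ 4 with hY4def
  set G : Finset β → ℝ := fun Z => (ind F Z - c - ∑ i ∈ Z, y i) ^ 2 with hG
  set SG : ℝ := ∑ Z ∈ powersetCard k univ, G Z with hSG
  have hinj : ∀ σ : Equiv.Perm β, Function.Injective (fun q => σ (e q)) :=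
    fun σ a b hab => he (σ.injective hab)
  set N : ℕ := Fintype.card β with hNdef
  -- the inequality on every cube
  have hcube : ∀ σ : Equiv.Perm β,
      2 ^ k * ((∑ p, k14_b y (fun q => σ (e q)) p ^ 2) ^ 2 -
        ∑ p, k14_b y (fun q => σ (e q)) p ^ 4) ≤
      162 * ∑ δ : Fin k → Bool, G (cset (fun q => σ (e q)) δ) := by
    intro σ
    have h1 := fkn_cube (m := k) (f := fun δ => ind F (cset (fun q => σ (e q)) δ))
      (fun δ => by
        unfold ind
        split_ifs
        · exact Or.inr rfl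
        · exact Or.inl rfl)
      (c + ∑ p, k14_s y (fun q => σ (e q)) p) (k14_b y (fun q => σ (e q)))
      ((k14_bsq y (hinj σ)).trans (by linarith))
    refine h1.trans (le_of_eq ?_)
    congr 1
    refine Finset.sum_congr rfl (fun δ _ => ?_)
    rw [hG]
    simp only
    rw [k14_sum_cset y (hinj σ) δ]
    ring
  have hne : ∀ p : Fin k, e (p, true) ≠ e (p, false) := by
    intro p h
    have := he h
    simp at this
  -- sums over the permutations
  have hs2 : ∑ σ : Equiv.Perm β, ∑ p, k14_b y (fun q => σ (e q)) p ^ 2 =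
      k * ((N - 2).factorial * (2 * N * Y)) / 4 := by
    rw [Finset.sum_comm]
    have h1 : ∀ p : Fin k, ∑ σ : Equiv.Perm β, k14_b y (fun q => σ (e q)) p ^ 2 =
        (N - 2).factorial * (2 * N * Y) / 4 := by
      intro p
      rw [← perm_two_sq y hy (hne p), Finset.sum_div]
      refine Finset.sum_congr rfl (fun σ _ => ?_)
      unfold k14_b
      ring
    simp only [h1]
    rw [Finset.sum_const, Finset.card_univ, Fintype.card_fin, nsmul_eq_mul]
    ring
  have hs4 : ∑ σ : Equiv.Perm β, ∑ p, k14_b y (fun q => σ (e q)) p ^ 4 =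
      k * ((N - 2).factorial * (2 * N * Y4 + 6 * Y ^ 2)) / 16 := by
    rw [Finset.sum_comm]
    have h1 : ∀ p : Fin k, ∑ σ : Equiv.Perm β, k14_b y (fun q => σ (e q)) p ^ 4 =
        (N - 2).factorial * (2 * N * Y4 + 6 * Y ^ 2) / 16 := by
      intro p
      rw [← perm_two_four y hy (hne p), Finset.sum_div]
      refine Finset.sum_congr rfl (fun σ _ => ?_)
      unfold k14_b
      ring
    simp only [h1]
    rw [Finset.sum_const, Finset.card_univ, Fintype.card_fin, nsmul_eq_mul]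
    ring
  have hsG : ∑ σ : Equiv.Perm β, ∑ δ : Fin k → Bool, G (cset (fun q => σ (e q)) δ) =
      2 ^ k * (k.factorial * (N - k).factorial * SG) := by
    rw [Finset.sum_comm]
    simp only [cube_single he G]
    rw [Finset.sum_const, Finset.card_univ, nsmul_eq_mul, Fintype.card_fun, Fintype.card_bool,
      Fintype.card_fin]
    push_cast
    ring
  -- summed inequality
  have hsum : ∑ σ : Equiv.Perm β, (∑ p, k14_b y (fun q => σ (e q)) p ^ 2) ^ 2 ≤
      k * ((N - 2).factorial * (2 * N * Y4 + 6 * Y ^ 2)) / 16 +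
        162 * (k.factorial * (N - k).factorial * SG) := by
    have h1 := Finset.sum_le_sum (fun σ (_ : σ ∈ (univ : Finset (Equiv.Perm β))) => hcube σ)
    rw [← Finset.mul_sum, ← Finset.mul_sum, Finset.sum_sub_distrib, hs4, hsG] at h1
    have h2 : (0 : ℝ) < 2 ^ k := by positivity
    have h3 : (2 : ℝ) ^ k * (∑ σ : Equiv.Perm β, (∑ p, k14_b y (fun q => σ (e q)) p ^ 2) ^ 2 -
        k * ((N - 2).factorial * (2 * N * Y4 + 6 * Y ^ 2)) / 16) ≤
        2 ^ k * (162 * (k.factorial * (N - k).factorial * SG)) := by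
      calc _ ≤ _ := h1
        _ = _ := by ring
    have h4 := le_of_mul_le_mul_left h3 h2
    linarith
  -- Cauchy-Schwarz
  have hcs : (∑ σ : Equiv.Perm β, ∑ p, k14_b y (fun q => σ (e q)) p ^ 2) ^ 2 ≤
      (N.factorial : ℝ) * ∑ σ : Equiv.Perm β, (∑ p, k14_b y (fun q => σ (e q)) p ^ 2) ^ 2 := by
    have h1 := sq_sum_le_card_mul_sum_sq (s := (univ : Finset (Equiv.Perm β)))
      (f := fun σ => ∑ p, k14_b y (fun q => σ (e q)) p ^ 2)
    rw [Finset.card_univ, Fintype.card_perm] at h1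
    exact h1
  rw [hs2] at hcs
  have hN2 : 2 ≤ N := by omega
  have hNR : (N : ℝ) = 2 * k + a := by
    rw [hN]
    push_cast
    ring
  have hk1 : (1 : ℝ) ≤ k := by exact_mod_cast hk
  have ha1 : (1 : ℝ) ≤ a := by exact_mod_cast ha
  have hNpos : (0 : ℝ) < N := by
    rw [hNR]
    linarith
  have hN1pos : (0 : ℝ) < (N : ℝ) - 1 := by
    rw [hNR]
    linarith
  have hfac : (N.factorial : ℝ) = N * (N - 1) * (N - 2).factorial := by
    obtain ⟨m, hm⟩ : ∃ m, N = m + 2 := ⟨N - 2, by omega⟩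
    rw [hm]
    have : m + 2 - 2 = m := by omega
    rw [this, Nat.factorial_succ, Nat.factorial_succ]
    push_cast
    ring
  have hf2 : (0 : ℝ) < (N - 2).factorial := by exact_mod_cast Nat.factorial_pos _
  have hNf : (0 : ℝ) < N.factorial := by exact_mod_cast Nat.factorial_pos _
  have hch : (k.factorial : ℝ) * (N - k).factorial * ((2 * k + a).choose k : ℝ) =
      N.factorial := by
    have h1 := Nat.choose_mul_factorial_mul_factorial (n := N) (k := k) (by omega)
    rw [← hN]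
    rw [← h1]
    push_cast
    ring
  have hchpos : (0 : ℝ) < ((2 * k + a).choose k : ℝ) := by
    exact_mod_cast Nat.choose_pos (by omega)
  -- conclusion: multiply by `N!`
  have h5 : (k * ((N - 2).factorial * (2 * N * Y)) / 4 : ℝ) ^ 2 ≤
      (N.factorial : ℝ) * (k * ((N - 2).factorial * (2 * N * Y4 + 6 * Y ^ 2)) / 16 +
        162 * (k.factorial * (N - k).factorial * SG)) :=
    hcs.trans (mul_le_mul_of_nonneg_left hsum hNf.le)
  have h6 : (k * Y / (2 * (2 * k + a - 1 : ℝ))) ^ 2 =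
      (k * ((N - 2).factorial * (2 * N * Y)) / 4 : ℝ) ^ 2 / (N.factorial : ℝ) ^ 2 := by
    rw [hfac, ← hNR]
    field_simp
    ring
  have h7 : k * (2 * (2 * k + a : ℝ) * Y4 + 6 * Y ^ 2) /
        (16 * (2 * k + a : ℝ) * (2 * k + a - 1)) + 162 * (SG / ((2 * k + a).choose k : ℝ)) =
      (N.factorial : ℝ) * (k * ((N - 2).factorial * (2 * N * Y4 + 6 * Y ^ 2)) / 16 +
        162 * (k.factorial * (N - k).factorial * SG)) / (N.factorial : ℝ) ^ 2 := by
    have h8 : SG / ((2 * k + a).choose k : ℝ) =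
        (k.factorial * (N - k).factorial * SG) / N.factorial := by
      rw [← hch]
      field_simp
    rw [h8, ← hNR]
    have h9 : k * (2 * (N : ℝ) * Y4 + 6 * Y ^ 2) / (16 * (N : ℝ) * (N - 1)) =
        (k * ((N - 2).factorial * (2 * N * Y4 + 6 * Y ^ 2)) / 16) / N.factorial := by
      rw [hfac]
      field_simp
    rw [h9]
    field_simp
  rw [h6, h7]
  exact div_le_div_of_nonneg_right h5 (by positivity)

end Pool.Agent.Lib.MP_fffc5a_co
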