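import Mathlib
import Pool.Agent.Lib.MP_fffc5a_co.Defs
import Pool.Agent.Lib.MP_fffc5a_co.DefsC
import Pool.Agent.Lib.MP_fffc5a_co.DefsH

/-!
Sums of iterated up and down operators over levels.
-/

set_option autoImplicit false

open Finset

namespace Pool.Agent.Lib.MP_fffc5a_co

theorem up_nonneg {β : Type*} [DecidableEq β] {φ : Finset β → ℝ} (h : ∀ Z, 0 ≤ φ Z) (j : ℕ)
    (Z : Finset β) : 0 ≤ (Up^[j] φ) Z := by
  induction j generalizing Z with
  | zero => exact h Z
  | succ j ih =>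
    rw [Function.iterate_succ_apply']
    exact Finset.sum_nonneg fun z _ => ih _

theorem dn_nonneg {β : Type*} [Fintype β] [DecidableEq β] {φ : Finset β → ℝ} (h : ∀ Z, 0 ≤ φ Z)
    (j : ℕ) (Z : Finset β) : 0 ≤ (Dn^[j] φ) Z := by
  induction j generalizing Z with
  | zero => exact h Z
  | succ j ih =>
    rw [Function.iterate_succ_apply']
    exact Finset.sum_nonneg fun z _ => ih _

/-- Double counting of the pairs `z ∈ Z`. -/
theorem h3_swap {β : Type*} [Fintype β] [DecidableEq β] (r : ℕ) (f : Finset β → β → ℝ) :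
    ∑ J ∈ powersetCard r univ, ∑ z ∈ Jᶜ, f (insert z J) z =
      ∑ Z ∈ powersetCard (r + 1) univ, ∑ z ∈ Z, f Z z := by
  rw [Finset.sum_sigma', Finset.sum_sigma']
  refine Finset.sum_bij' (fun p _ => ⟨insert p.2 p.1, p.2⟩) (fun p _ => ⟨p.1.erase p.2, p.2⟩)
    ?_ ?_ ?_ ?_ ?_
  · rintro ⟨J, z⟩ h
    simp only [mem_sigma, mem_powersetCard_univ, mem_compl] at h ⊢
    exact ⟨by rw [card_insert_of_notMem h.2, h.1], mem_insert_self _ _⟩
  · rintro ⟨Z, z⟩ h
    simp only [mem_sigma, mem_powersetCard_univ, mem_compl] at h ⊢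
    refine ⟨?_, by simp⟩
    rw [card_erase_of_mem h.2, h.1]
    rfl
  · rintro ⟨J, z⟩ h
    simp only [mem_sigma, mem_powersetCard_univ, mem_compl] at h
    simp [erase_insert h.2]
  · rintro ⟨Z, z⟩ h
    simp only [mem_sigma, mem_powersetCard_univ] at h
    simp [insert_erase h.2]
  · rintro ⟨J, z⟩ h
    rfl

theorem h3_sum_dn {β : Type*} [Fintype β] [DecidableEq β] (d : ℕ) (φ : Finset β → ℝ) :
    ∑ J ∈ powersetCard d univ, Dn φ J = ((d : ℝ) + 1) * ∑ Z ∈ powersetCard (d + 1) univ, φ Z := by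
  have h := h3_swap (β := β) d (fun Z _ => φ Z)
  have e1 : ∑ J ∈ powersetCard d univ, Dn φ J =
      ∑ J ∈ powersetCard d univ, ∑ z ∈ Jᶜ, φ (insert z J) := rfl
  rw [e1, h, Finset.mul_sum]
  refine Finset.sum_congr rfl fun Z hZ => ?_
  rw [Finset.sum_const, mem_powersetCard_univ.1 hZ, nsmul_eq_mul]
  push_cast
  ring

theorem h3_sum_up {β : Type*} [Fintype β] [DecidableEq β] (r : ℕ) (φ : Finset β → ℝ) :
    ∑ Z ∈ powersetCard (r + 1) univ, Up φ Z =
      ((Fintype.card β : ℝ) - r) * ∑ J ∈ powersetCard r univ, φ J := by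
  have h := h3_swap (β := β) r (fun Z z => φ (Z.erase z))
  have e1 : ∑ Z ∈ powersetCard (r + 1) univ, Up φ Z =
      ∑ Z ∈ powersetCard (r + 1) univ, ∑ z ∈ Z, φ (Z.erase z) := rfl
  rw [e1, ← h, Finset.mul_sum]
  refine Finset.sum_congr rfl fun J hJ => ?_
  have hc : J.card = r := mem_powersetCard_univ.1 hJ
  have hle : r ≤ Fintype.card β := by rw [← hc]; exact Finset.card_le_univ J
  have e2 : ∑ z ∈ Jᶜ, φ ((insert z J).erase z) = ∑ z ∈ Jᶜ, φ J := by
    refine Finset.sum_congr rfl fun z hz => ?_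
    rw [erase_insert (mem_compl.1 hz)]
  rw [e2, Finset.sum_const, card_compl, hc, nsmul_eq_mul, Nat.cast_sub hle]

theorem sum_dn_iter {β : Type*} [Fintype β] [DecidableEq β] (m d : ℕ) (φ : Finset β → ℝ) :
    (d.factorial : ℝ) * ∑ J ∈ powersetCard d univ, (Dn^[m] φ) J =
      (d + m).factorial * ∑ Z ∈ powersetCard (d + m) univ, φ Z := by
  induction m generalizing φ with
  | zero => simp
  | succ m ih =>
    have e : (Dn^[m + 1] φ) = Dn^[m] (Dn φ) := Function.iterate_succ_apply _ _ _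
    rw [e, ih (Dn φ), h3_sum_dn, ← mul_assoc, ← add_assoc, Nat.factorial_succ]
    push_cast
    ring

theorem sum_up_iter {β : Type*} [Fintype β] [DecidableEq β] (j r : ℕ)
    (hr : r + j ≤ Fintype.card β) (φ : Finset β → ℝ) :
    ∑ Z ∈ powersetCard (r + j) univ, (Up^[j] φ) Z =
      ((Fintype.card β - r).descFactorial j : ℝ) * ∑ Z ∈ powersetCard r univ, φ Z := by
  induction j with
  | zero => simp
  | succ j ih =>
    have hr' : r + j ≤ Fintype.card β := by omega
    have e : ∀ Z, (Up^[j + 1] φ) Z = Up (Up^[j] φ) Z := fun Z => by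
      rw [Function.iterate_succ_apply']
    simp_rw [e]
    rw [← add_assoc, h3_sum_up, ih hr', Nat.descFactorial_succ]
    have h1 : ((Fintype.card β - r - j : ℕ) : ℝ) = (Fintype.card β : ℝ) - ((r + j : ℕ) : ℝ) := by
      rw [Nat.sub_sub, Nat.cast_sub hr']
    rw [Nat.cast_mul, h1]
    ring

theorem nsq_le_sq {β : Type*} [Fintype β] [DecidableEq β] {φ : Finset β → ℝ} (h : ∀ Z, 0 ≤ φ Z)
    (r : ℕ) : nsq r φ ≤ (∑ Z ∈ powersetCard r univ, φ Z) ^ 2 := by
  have h1 : nsq r φ ≤ ∑ Z ∈ powersetCard r univ, φ Z * ∑ W ∈ powersetCard r univ, φ W := by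
    refine Finset.sum_le_sum fun Z hZ => ?_
    rw [sq]
    exact mul_le_mul_of_nonneg_left
      (Finset.single_le_sum (f := fun W => φ W) (fun W _ => h W) hZ) (h Z)
  rw [← Finset.sum_mul] at h1
  rw [sq]
  exact h1

theorem up_iter_ind {β : Type*} [Fintype β] [DecidableEq β] {k : ℕ} {A : Finset (Finset β)}
    (hA : ∀ s ∈ A, s.card = k) (j : ℕ) {Z : Finset β} (hZ : Z.card = k + j) :
    (Up^[j] (ind A)) Z = j.factorial * ((A.filter fun s => s ⊆ Z).card : ℝ) := by
  induction j generalizing Z with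
  | zero =>
    have hf : (A.filter fun s => s ⊆ Z) = if Z ∈ A then {Z} else ∅ := by
      ext s
      simp only [mem_filter]
      constructor
      · rintro ⟨hs, hsZ⟩
        have hc := hA s hs
        have hsz : s = Z := Finset.eq_of_subset_of_card_le hsZ (by omega)
        subst hsz
        simp [hs]
      · intro hs
        by_cases hZA : Z ∈ A
        · rw [if_pos hZA, mem_singleton] at hs
          subst hs
          exact ⟨hZA, Subset.refl _⟩
        · rw [if_neg hZA] at hs
          simp at hs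
    rw [hf]
    by_cases hZA : Z ∈ A
    · simp [ind, hZA]
    · simp [ind, hZA]
  | succ j ih =>
    rw [Function.iterate_succ_apply']
    have e1 : Up (Up^[j] (ind A)) Z = ∑ z ∈ Z, (Up^[j] (ind A)) (Z.erase z) := rfl
    have e2 : ∑ z ∈ Z, (Up^[j] (ind A)) (Z.erase z) =
        ∑ z ∈ Z, (j.factorial : ℝ) * ((A.filter fun s => s ⊆ Z.erase z).card : ℝ) := by
      refine Finset.sum_congr rfl fun z hz => ?_
      exact ih (by rw [card_erase_of_mem hz, hZ]; omega)
    have e3 : ∑ z ∈ Z, (A.filter fun s => s ⊆ Z.erase z).card =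
        (j + 1) * (A.filter fun s => s ⊆ Z).card := by
      have c1 : ∀ z ∈ Z, (A.filter fun s => s ⊆ Z.erase z).card =
          ∑ s ∈ A.filter fun s => s ⊆ Z, if z ∉ s then 1 else 0 := by
        intro z hz
        rw [← Finset.card_filter, Finset.filter_filter]
        congr 1
        ext s
        simp only [mem_filter, subset_erase]
      rw [Finset.sum_congr rfl c1, Finset.sum_comm]
      have c2 : ∀ s ∈ A.filter fun s => s ⊆ Z, (∑ z ∈ Z, if z ∉ s then 1 else 0) = j + 1 := by
        intro s hs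
        rw [mem_filter] at hs
        rw [← Finset.card_filter]
        have : (Z.filter fun z => z ∉ s) = Z \ s := by
          ext z; simp [mem_sdiff]
        rw [this, card_sdiff_of_subset hs.2, hZ, hA s hs.1]
        omega
      rw [Finset.sum_congr rfl c2, Finset.sum_const, smul_eq_mul, mul_comm]
    rw [e1, e2, ← Finset.mul_sum, ← Nat.cast_sum, e3, Nat.factorial_succ]
    push_cast
    ring

end Pool.Agent.Lib.MP_fffc5a_co
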