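import Mathlib
import Pool.Agent.Lib.MP_fffc5a_co.Defs
import Pool.Agent.Lib.MP_fffc5a_co.DefsH
import Pool.Agent.Lib.MP_fffc5a_co.DefsK

open Finset

namespace Pool.Agent.Lib.MP_fffc5a_co

theorem k12_one {β : Type*} [DecidableEq β] (s : Finset β) (x : β) (hx : x ∈ s) (n : ℕ) :
    ((powersetCard (n + 1) s).filter (fun Z => x ∈ Z)).card = (s.card - 1).choose n := by
  have h1 : (powersetCard (n + 1) s).filter (fun Z => x ∈ Z) =
      (powersetCard n (s.erase x)).image (insert x) := by
    ext Z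
    simp only [mem_filter, mem_powersetCard, mem_image]
    constructor
    · rintro ⟨⟨h1, h2⟩, h3⟩
      refine ⟨Z.erase x, ⟨erase_subset_erase x h1, ?_⟩, insert_erase h3⟩
      rw [card_erase_of_mem h3, h2]
      rfl
    · rintro ⟨Y, ⟨h1, h2⟩, rfl⟩
      have h3 : x ∉ Y := fun h => (mem_erase.1 (h1 h)).1 rfl
      refine ⟨⟨?_, ?_⟩, mem_insert_self x Y⟩
      · rw [insert_subset_iff]
        exact ⟨hx, h1.trans (erase_subset x s)⟩
      · rw [card_insert_of_notMem h3, h2]
  rw [h1, card_image_of_injOn, card_powersetCard, card_erase_of_mem hx]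
  intro Y hY Y' hY' h
  have hY1 : x ∉ Y := fun h => (mem_erase.1 ((mem_powersetCard.1 (mem_coe.1 hY)).1 h)).1 rfl
  have hY2 : x ∉ Y' := fun h => (mem_erase.1 ((mem_powersetCard.1 (mem_coe.1 hY')).1 h)).1 rfl
  have h2 : (insert x Y).erase x = (insert x Y').erase x := congrArg (fun t => t.erase x) h
  rwa [erase_insert hY1, erase_insert hY2] at h2

theorem k12_two {β : Type*} [DecidableEq β] (s : Finset β) (x y : β) (hx : x ∈ s) (hy : y ∈ s)
    (hxy : x ≠ y) (n : ℕ) (hn : n + 2 ≤ s.card) :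
    ((powersetCard (n + 1) s).filter (fun Z => x ∈ Z ∧ y ∈ Z)).card + (s.card - 2).choose n =
      (s.card - 1).choose n := by
  have h1 : (powersetCard (n + 1) s).filter (fun Z => x ∈ Z ∧ y ∈ Z) =
      ((powersetCard n (s.erase x)).filter (fun Z => y ∈ Z)).image (insert x) := by
    ext Z
    simp only [mem_filter, mem_powersetCard, mem_image]
    constructor
    · rintro ⟨⟨h1, h2⟩, h3, h4⟩
      refine ⟨Z.erase x, ⟨⟨erase_subset_erase x h1, ?_⟩, mem_erase.2 ⟨hxy.symm, h4⟩⟩,
        insert_erase h3⟩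
      rw [card_erase_of_mem h3, h2]
      rfl
    · rintro ⟨Y, ⟨⟨h1, h2⟩, h4⟩, rfl⟩
      have h3 : x ∉ Y := fun h => (mem_erase.1 (h1 h)).1 rfl
      refine ⟨⟨?_, ?_⟩, mem_insert_self x Y, mem_insert_of_mem h4⟩
      · rw [insert_subset_iff]
        exact ⟨hx, h1.trans (erase_subset x s)⟩
      · rw [card_insert_of_notMem h3, h2]
  have h2 : (((powersetCard n (s.erase x)).filter (fun Z => y ∈ Z)).image (insert x)).card =
      ((powersetCard n (s.erase x)).filter (fun Z => y ∈ Z)).card := by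
    apply card_image_of_injOn
    intro Y hY Y' hY' h
    have hY1 : x ∉ Y := fun h =>
      (mem_erase.1 ((mem_powersetCard.1 (mem_filter.1 (mem_coe.1 hY)).1).1 h)).1 rfl
    have hY2 : x ∉ Y' := fun h =>
      (mem_erase.1 ((mem_powersetCard.1 (mem_filter.1 (mem_coe.1 hY')).1).1 h)).1 rfl
    have h2 : (insert x Y).erase x = (insert x Y').erase x := congrArg (fun t => t.erase x) h
    rwa [erase_insert hY1, erase_insert hY2] at h2
  rw [h1, h2]
  cases n with
  | zero =>
    have h3 : (powersetCard 0 (s.erase x)).filter (fun Z => y ∈ Z) = ∅ := by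
      rw [powersetCard_zero]
      ext Z
      simp only [mem_filter, mem_singleton]
      constructor
      · rintro ⟨rfl, h⟩
        exact absurd h (notMem_empty y)
      · intro h
        exact absurd h (notMem_empty Z)
    rw [h3]
    simp
  | succ n =>
    rw [k12_one (s.erase x) y (mem_erase.2 ⟨hxy.symm, hy⟩) n, card_erase_of_mem hx]
    obtain ⟨m, hm⟩ : ∃ m, s.card = m + 2 := ⟨s.card - 2, by omega⟩
    rw [hm]
    show (m + 1 - 1).choose n + (m + 2 - 2).choose (n + 1) = (m + 1).choose (n + 1)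
    rw [Nat.choose_succ_succ]
    rfl

theorem slice_var {β : Type*} [Fintype β] [DecidableEq β] {k : ℕ} (hk : 1 ≤ k)
    (hN : k + 1 ≤ Fintype.card β) (z : β → ℝ) (hz : ∑ i, z i = 0) :
    ∑ Z ∈ powersetCard k univ, (∑ i ∈ Z, z i) ^ 2 =
      (Fintype.card β - 2).choose (k - 1) * ∑ i, z i ^ 2 := by
  obtain ⟨n, rfl⟩ : ∃ n, k = n + 1 := ⟨k - 1, by omega⟩
  have hcard : (univ : Finset β).card = Fintype.card β := card_univ
  set N := Fintype.card β with hNdef
  -- the counts
  have hc : ∀ i j : β, (((powersetCard (n + 1) (univ : Finset β)).filter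
      (fun Z => i ∈ Z ∧ j ∈ Z)).card : ℝ) =
      (((N - 1).choose n : ℕ) : ℝ) - (if i = j then 0 else (((N - 2).choose n : ℕ) : ℝ)) := by
    intro i j
    by_cases hij : i = j
    · subst hij
      rw [if_pos rfl, sub_zero]
      have := k12_one (univ : Finset β) i (mem_univ i) n
      rw [hcard] at this
      rw [← this]
      simp only [and_self]
    · rw [if_neg hij]
      have := k12_two (univ : Finset β) i j (mem_univ i) (mem_univ j) hij n (by rw [hcard]; omega)
      rw [hcard] at this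
      rw [← this]
      push_cast
      ring
  have h1 : ∀ Z ∈ powersetCard (n + 1) (univ : Finset β), (∑ i ∈ Z, z i) ^ 2 =
      ∑ i, ∑ j, z i * z j * (if i ∈ Z ∧ j ∈ Z then 1 else 0) := by
    intro Z _
    rw [sq, sum_mul_sum, ← sum_filter_add_sum_filter_not univ (fun i => i ∈ Z)]
    have e1 : ∑ x ∈ univ.filter (fun i => i ∉ Z), ∑ j, z x * z j *
        (if x ∈ Z ∧ j ∈ Z then 1 else 0) = 0 := by
      apply sum_eq_zero
      intro x hx
      apply sum_eq_zero
      intro j _
      rw [if_neg (fun h => (mem_filter.1 hx).2 h.1), mul_zero]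
    rw [e1, add_zero, filter_mem_eq_inter, univ_inter]
    apply sum_congr rfl
    intro i hi
    rw [← sum_filter_add_sum_filter_not univ (fun j => j ∈ Z)]
    have e2 : ∑ x ∈ univ.filter (fun j => j ∉ Z), z i * z x *
        (if i ∈ Z ∧ x ∈ Z then 1 else 0) = 0 := by
      apply sum_eq_zero
      intro j hj
      rw [if_neg (fun h => (mem_filter.1 hj).2 h.2), mul_zero]
    rw [e2, add_zero, filter_mem_eq_inter, univ_inter]
    apply sum_congr rfl
    intro j hj
    rw [if_pos ⟨hi, hj⟩, mul_one]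
  rw [sum_congr rfl h1, sum_comm]
  have h2 : ∀ i : β, ∑ Z ∈ powersetCard (n + 1) (univ : Finset β), ∑ j, z i * z j *
      (if i ∈ Z ∧ j ∈ Z then 1 else 0) = (((N - 2).choose n : ℕ) : ℝ) * z i ^ 2 := by
    intro i
    rw [sum_comm]
    have h3 : ∀ j : β, ∑ Z ∈ powersetCard (n + 1) (univ : Finset β), z i * z j *
        (if i ∈ Z ∧ j ∈ Z then (1 : ℝ) else 0) =
        z i * z j * ((((N - 1).choose n : ℕ) : ℝ) -
          (if i = j then 0 else (((N - 2).choose n : ℕ) : ℝ))) := by
      intro j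
      rw [← mul_sum, ← hc i j, ← sum_filter, sum_const, nsmul_eq_mul, mul_one]
    simp only [h3]
    have h4 : ∀ j : β, z i * z j * ((((N - 1).choose n : ℕ) : ℝ) -
          (if i = j then 0 else (((N - 2).choose n : ℕ) : ℝ))) =
        z i * ((((N - 1).choose n : ℕ) : ℝ) - (((N - 2).choose n : ℕ) : ℝ)) * z j +
          (if i = j then z i * z j * (((N - 2).choose n : ℕ) : ℝ) else 0) := by
      intro j
      split_ifs
      · ring
      · ring
    simp only [h4]
    rw [sum_add_distrib, ← mul_sum, hz, mul_zero, zero_add, sum_ite_eq]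
    simp only [mem_univ, if_true]
    ring
  simp only [h2]
  rw [← mul_sum]
  rfl

theorem slice_var_le {β : Type*} [Fintype β] [DecidableEq β] {k : ℕ} (hk : 1 ≤ k)
    (hN : k + 1 ≤ Fintype.card β) (z : β → ℝ) :
    ∑ Z ∈ powersetCard k univ, (∑ i ∈ Z, z i - k / Fintype.card β * ∑ i, z i) ^ 2 ≤
      (Fintype.card β - 2).choose (k - 1) * ∑ i, z i ^ 2 := by
  have hN0 : (Fintype.card β : ℝ) ≠ 0 := by
    have : 0 < Fintype.card β := by omega
    positivity
  set m : ℝ := (∑ i, z i) / Fintype.card β with hm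
  have hsum : ∑ i, (z i - m) = 0 := by
    rw [sum_sub_distrib, sum_const, nsmul_eq_mul, card_univ, hm]
    field_simp
    ring
  have h1 := slice_var hk hN (fun i => z i - m) hsum
  have h2 : ∀ Z ∈ powersetCard k (univ : Finset β),
      (∑ i ∈ Z, z i - k / Fintype.card β * ∑ i, z i) ^ 2 = (∑ i ∈ Z, (z i - m)) ^ 2 := by
    intro Z hZ
    rw [sum_sub_distrib, sum_const, (mem_powersetCard.1 hZ).2, nsmul_eq_mul, hm]
    congr 1
    field_simp
  rw [sum_congr rfl h2, h1]
  apply mul_le_mul_of_nonneg_left _ (Nat.cast_nonneg _)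
  have h3 : ∑ i, (z i - m) ^ 2 = ∑ i, z i ^ 2 - Fintype.card β * m ^ 2 := by
    have h4 : ∀ i, (z i - m) ^ 2 = (z i ^ 2 - 2 * m * z i) + m ^ 2 := fun i => by ring
    simp only [h4]
    rw [sum_add_distrib, sum_sub_distrib, ← mul_sum, sum_const, nsmul_eq_mul, card_univ]
    have h5 : ∑ i, z i = Fintype.card β * m := by
      rw [hm]
      field_simp
    rw [h5]
    ring
  rw [h3]
  have : 0 ≤ (Fintype.card β : ℝ) * m ^ 2 := by positivity
  linarith

end Pool.Agent.Lib.MP_fffc5a_co
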