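import Mathlib
import Pool.Agent.Lib.MP_fffc5a_co.Defs
import Pool.Agent.Lib.MP_fffc5a_co.DefsH
import Pool.Agent.Lib.MP_fffc5a_co.DefsK
import Pool.Agent.Lib.MP_fffc5a_co.OpSums
import Pool.Agent.Lib.MP_fffc5a_co.SliceVar
import Pool.Agent.Lib.MP_fffc5a_co.FknIneq

/-!
A function on the slice which is close to a Boolean function and to a linear function is almost
constant on the sets which avoid one point.
-/

set_option autoImplicit false

open Finset

namespace Pool.Agent.Lib.MP_fffc5a_co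

theorem k15_sum_zero {β : Type*} [Fintype β] [DecidableEq β] (y : β → ℝ) (hy : ∑ i, y i = 0)
    (k : ℕ) : ∑ Z ∈ powersetCard k univ, ∑ i ∈ Z, y i = 0 := by
  induction k with
  | zero => simp
  | succ k ih =>
    rw [← h3_swap (β := β) k (fun _ z => y z)]
    have h : ∀ J : Finset β, ∑ z ∈ Jᶜ, y z = -∑ z ∈ J, y z := by
      intro J
      have := Finset.sum_add_sum_compl J y
      rw [hy] at this
      linarith
    rw [Finset.sum_congr rfl fun J _ => h J, Finset.sum_neg_distrib, ih, neg_zero]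

/-- the numerical core -/
theorem k15_core {k a : ℕ} (hk1 : 1 ≤ k) (ha : 1 ≤ a) {Y Q W : ℝ} (hY0 : 0 ≤ Y)
    (hQ0 : 0 ≤ Q) (hY18 : Y ≤ 18)
    (h : (k * Y / (2 * (2 * k + a - 1 : ℝ))) ^ 2 ≤
      k * (2 * (2 * k + a : ℝ) * Q + 6 * Y ^ 2) /
        (16 * (2 * k + a : ℝ) * (2 * k + a - 1)) + 162 * W) :
    Y ^ 2 - Q ≤ 324 * (a + 1) / k + 2592 * W := by
  have hk : (1 : ℝ) ≤ k := by exact_mod_cast hk1
  have ha' : (1 : ℝ) ≤ a := by exact_mod_cast ha
  set K : ℝ := (k : ℝ) with hK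
  set A : ℝ := (a : ℝ) with hA
  set n1 : ℝ := 2 * K + A - 1 with hn1
  have hn1pos : 0 < n1 := by rw [hn1]; linarith
  have hNpos : 0 < 2 * K + A := by linarith
  have hKpos : 0 < K := by linarith
  have e1 : (K * Y / (2 * n1)) ^ 2 * 16 = (2 * K / n1) ^ 2 * Y ^ 2 := by
    field_simp
    ring
  have e2 : K * (2 * (2 * K + A) * Q + 6 * Y ^ 2) / (16 * (2 * K + A) * n1) * 16 =
      (2 * K / n1) * Q + 6 * K * Y ^ 2 / ((2 * K + A) * n1) := by
    field_simp
  have h2 : (2 * K / n1) ^ 2 * Y ^ 2 ≤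
      (2 * K / n1) * Q + 6 * K * Y ^ 2 / ((2 * K + A) * n1) + 2592 * W := by
    rw [← e1, ← e2]
    linarith
  -- `2K/n1 ≤ 1`
  have r1 : 2 * K / n1 ≤ 1 := by rw [div_le_one hn1pos, hn1]; linarith
  have r2 : (2 * K / n1) * Q ≤ Q := mul_le_of_le_one_left hQ0 r1
  -- `6 K Y²/(N n1) ≤ 3/2 Y²/K`
  have r3 : 6 * K * Y ^ 2 / ((2 * K + A) * n1) ≤ (3 / 2) * Y ^ 2 / K := by
    rw [div_le_div_iff₀ (by positivity) hKpos]
    have h3 : (2 * K) * (2 * K) ≤ (2 * K + A) * n1 :=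
      mul_le_mul (by linarith) (by rw [hn1]; linarith) (by linarith) hNpos.le
    have h4 : 0 ≤ (3 / 2) * Y ^ 2 := by positivity
    have h5 := mul_le_mul_of_nonneg_left h3 h4
    calc 6 * K * Y ^ 2 * K = 3 / 2 * Y ^ 2 * (2 * K * (2 * K)) := by ring
      _ ≤ _ := h5
  -- `(2K/n1)² ≥ 1 - (A-1)/K`
  have r4 : 1 - (A - 1) / K ≤ (2 * K / n1) ^ 2 := by
    have h3 : 2 * K / n1 = 1 - (A - 1) / n1 := by
      rw [eq_sub_iff_add_eq, ← add_div, div_eq_one_iff_eq hn1pos.ne', hn1]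
      ring
    have h4 : (A - 1) / n1 ≤ (A - 1) / (2 * K) :=
      div_le_div_of_nonneg_left (by linarith) (by linarith) (by rw [hn1]; linarith)
    have h5 : (A - 1) / (2 * K) = (1 / 2) * ((A - 1) / K) := by field_simp
    rw [h3]
    have h6 := sq_nonneg ((A - 1) / n1)
    have h7 : (1 - (A - 1) / n1) ^ 2 = 1 - 2 * ((A - 1) / n1) + ((A - 1) / n1) ^ 2 := by ring
    rw [h7]
    linarith
  have r5 : (1 - (A - 1) / K) * Y ^ 2 ≤ (2 * K / n1) ^ 2 * Y ^ 2 :=
    mul_le_mul_of_nonneg_right r4 (sq_nonneg _)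
  have r6 : Y ^ 2 ≤ 324 := by
    have := pow_le_pow_left₀ hY0 hY18 2
    norm_num at this
    exact this
  have r7 : (A - 1) / K * Y ^ 2 + (3 / 2) * Y ^ 2 / K ≤ 324 * (A + 1) / K := by
    have e : (A - 1) / K * Y ^ 2 + (3 / 2) * Y ^ 2 / K = ((A + 1 / 2) * Y ^ 2) / K := by
      field_simp; ring
    rw [e]
    refine div_le_div_of_nonneg_right ?_ hKpos.le
    have h1 : (A + 1 / 2) * Y ^ 2 ≤ (A + 1 / 2) * 324 :=
      mul_le_mul_of_nonneg_left r6 (by linarith)
    linarith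
  have r8 : (1 - (A - 1) / K) * Y ^ 2 = Y ^ 2 - (A - 1) / K * Y ^ 2 := by ring
  rw [r8] at r5
  linarith

/-- the ratio of binomial coefficients -/
theorem k15_choose {k a : ℕ} (hk1 : 1 ≤ k) (hak : a ≤ k) :
    (2 * k + a).choose k ≤ 5 * (2 * k + a - 2).choose (k - 1) ∧
      (2 * k + a - 2).choose (k - 1) ≤ (2 * k + a).choose k := by
  obtain ⟨j, rfl⟩ : ∃ j, k = j + 1 := ⟨k - 1, by omega⟩
  have e0 : 2 * (j + 1) + a = (2 * j + a) + 1 + 1 := by ring
  have e1 : 2 * (j + 1) + a - 2 = 2 * j + a := by omega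
  rw [e1, e0, Nat.add_sub_cancel, Nat.choose_succ_succ, Nat.choose_succ_succ,
    Nat.succ_eq_add_one]
  have h1 : (2 * j + a).choose (j + 1) ≤ 2 * (2 * j + a).choose j := by
    have h := Nat.choose_succ_right_eq (2 * j + a) j
    have h2 : (2 * j + a) - j ≤ 2 * (j + 1) := by omega
    have h3 : (2 * j + a).choose (j + 1) * (j + 1) ≤ (2 * (2 * j + a).choose j) * (j + 1) := by
      rw [h]
      calc (2 * j + a).choose j * (2 * j + a - j) ≤ (2 * j + a).choose j * (2 * (j + 1)) :=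
            Nat.mul_le_mul_left _ h2
        _ = _ := by ring
    exact Nat.le_of_mul_le_mul_right h3 (Nat.succ_pos j)
  have h2 : (2 * j + a + 1).choose j ≤ 2 * (2 * j + a).choose j := by
    cases j with
    | zero => simp
    | succ i =>
      rw [Nat.choose_succ_succ, Nat.succ_eq_add_one]
      have : (2 * (i + 1) + a).choose i ≤ (2 * (i + 1) + a).choose (i + 1) :=
        Nat.choose_le_succ_of_lt_half_left (by omega)
      omega
  constructor
  · omega
  · omega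

theorem k15_pt {t i : ℝ} (hi : i = 0 ∨ i = 1) : (t - 1 / 2) ^ 2 ≤ 1 / 2 + 2 * (i - t) ^ 2 := by
  rcases hi with rfl | rfl
  · nlinarith [sq_nonneg (t + 1 / 2)]
  · nlinarith [sq_nonneg (t - 3 / 2)]

theorem k15_two (s t : ℝ) : (s + t) ^ 2 ≤ 2 * s ^ 2 + 2 * t ^ 2 := by
  nlinarith [sq_nonneg (s - t)]

theorem fkn_slice (a : ℕ) (ha : 1 ≤ a) {ε : ℝ} (hε : 0 < ε) : ∃ δ : ℝ, 0 < δ ∧ ∃ k₀ : ℕ,
    ∀ k : ℕ, k₀ ≤ k → ∀ (β : Type) [Fintype β] [DecidableEq β], Fintype.card β = 2 * k + a →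
    ∀ (F : Finset (Finset β)) (γ : β → ℝ),
    ∑ Z ∈ powersetCard k univ, (ind F Z - ∑ i ∈ Z, γ i) ^ 2 ≤
      δ * ((2 * k + a).choose k : ℝ) →
    ∃ (x : β) (c : ℝ), ∑ Z ∈ (powersetCard k univ).filter (fun Z => x ∉ Z),
      (ind F Z - c) ^ 2 ≤ ε * ((2 * k + a).choose k : ℝ) := by
  set δ : ℝ := min (3 / 4) (min (ε / 4) (ε ^ 2 / 16 / 5184)) with hδdef
  have hδ : 0 < δ := by
    rw [hδdef]
    refine lt_min (by norm_num) (lt_min (by linarith) (by positivity))
  have hδ1 : δ ≤ 3 / 4 := min_le_left _ _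
  have hδ2 : δ ≤ ε / 4 := (min_le_right _ _).trans (min_le_left _ _)
  have hδ3 : δ ≤ ε ^ 2 / 16 / 5184 := (min_le_right _ _).trans (min_le_right _ _)
  obtain ⟨k1, hk1⟩ := exists_nat_gt (324 * ((a : ℝ) + 1) * 32 / ε ^ 2)
  refine ⟨δ, hδ, max (max a 1) k1, ?_⟩
  intro k hk β _ _ hN F γ hF
  have hak : a ≤ k := le_trans (le_trans (le_max_left _ _) (le_max_left _ _)) hk
  have hk1' : 1 ≤ k := le_trans (le_trans (le_max_right _ _) (le_max_left _ _)) hk
  have hkk : (k1 : ℝ) ≤ k := by exact_mod_cast le_trans (le_max_right _ _) hk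
  have hkR : (1 : ℝ) ≤ k := by exact_mod_cast hk1'
  have hNR : (Fintype.card β : ℝ) = 2 * k + a := by rw [hN]; push_cast; ring
  have hNpos : (0 : ℝ) < Fintype.card β := by rw [hNR]; positivity
  -- the mean and the centred coefficients
  set mn : ℝ := (∑ i, γ i) / Fintype.card β with hmn
  set y : β → ℝ := fun i => γ i - mn with hydef
  have hy : ∑ i, y i = 0 := by
    rw [hydef]
    simp only [Finset.sum_sub_distrib, Finset.sum_const, Finset.card_univ, nsmul_eq_mul]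
    rw [hmn]
    field_simp
    ring
  set c' : ℝ := k * mn with hc'
  have hsum : ∀ Z ∈ powersetCard k (univ : Finset β), ∑ i ∈ Z, γ i = c' + ∑ i ∈ Z, y i := by
    intro Z hZ
    have hc := (mem_powersetCard.1 hZ).2
    rw [hydef]
    simp only [Finset.sum_sub_distrib, Finset.sum_const, nsmul_eq_mul, hc]
    ring
  set C : ℝ := ((2 * k + a).choose k : ℝ) with hC
  have hCpos : 0 < C := by
    rw [hC]; exact_mod_cast Nat.choose_pos (by omega)
  set E : ℝ := ∑ Z ∈ powersetCard k univ, (ind F Z - c' - ∑ i ∈ Z, y i) ^ 2 with hE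
  have hEδ : E ≤ δ * C := by
    refine le_trans (le_of_eq ?_) hF
    refine Finset.sum_congr rfl fun Z hZ => ?_
    rw [hsum Z hZ]
    ring
  have hE0 : 0 ≤ E := Finset.sum_nonneg fun _ _ => sq_nonneg _
  set Y : ℝ := ∑ i, y i ^ 2 with hY
  have hY0 : 0 ≤ Y := Finset.sum_nonneg fun _ _ => sq_nonneg _
  set Q : ℝ := ∑ i, y i ^ 4 with hQ
  have hQ0 : 0 ≤ Q := Finset.sum_nonneg fun _ _ => by positivity
  set C2 : ℝ := ((Fintype.card β - 2).choose (k - 1) : ℝ) with hC2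
  have hch := k15_choose hk1' hak
  have hCC2 : C ≤ 5 * C2 := by
    rw [hC, hC2, hN]
    exact_mod_cast hch.1
  have hC2C : C2 ≤ C := by
    rw [hC, hC2, hN]
    exact_mod_cast hch.2
  have hC2pos : 0 < C2 := by linarith
  have hcardlev : ((powersetCard k (univ : Finset β)).card : ℝ) = C := by
    rw [card_powersetCard, card_univ, hN]
  have hk1N : k + 1 ≤ Fintype.card β := by omega
  -- bound for `Y`
  have hvar := slice_var hk1' hk1N y hy
  have hYle : C2 * Y ≤ C / 2 + 2 * E := by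
    rw [← hvar]
    have hzero := k15_sum_zero y hy k
    have h1 : ∑ Z ∈ powersetCard k univ, (∑ i ∈ Z, y i) ^ 2 ≤
        ∑ Z ∈ powersetCard k univ, (∑ i ∈ Z, y i + (c' - 1 / 2)) ^ 2 := by
      have e : ∑ Z ∈ powersetCard k (univ : Finset β), (∑ i ∈ Z, y i + (c' - 1 / 2)) ^ 2 =
          ∑ Z ∈ powersetCard k (univ : Finset β), (∑ i ∈ Z, y i) ^ 2 +
            2 * (c' - 1 / 2) * ∑ Z ∈ powersetCard k (univ : Finset β), ∑ i ∈ Z, y i +
            ∑ Z ∈ powersetCard k (univ : Finset β), (c' - 1 / 2) ^ 2 := by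
        rw [Finset.mul_sum, ← Finset.sum_add_distrib, ← Finset.sum_add_distrib]
        refine Finset.sum_congr rfl fun Z _ => ?_
        ring
      rw [e, hzero]
      have : 0 ≤ ∑ Z ∈ powersetCard k (univ : Finset β), (c' - 1 / 2) ^ 2 :=
        Finset.sum_nonneg fun _ _ => sq_nonneg _
      linarith
    refine h1.trans ?_
    have h2 : ∀ Z ∈ powersetCard k (univ : Finset β), (∑ i ∈ Z, y i + (c' - 1 / 2)) ^ 2 ≤
        1 / 2 + 2 * (ind F Z - c' - ∑ i ∈ Z, y i) ^ 2 := by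
      intro Z _
      have hi : ind F Z = 0 ∨ ind F Z = 1 := by
        unfold ind; split_ifs <;> simp
      have := k15_pt (t := ∑ i ∈ Z, y i + c') hi
      have e1 : ∑ i ∈ Z, y i + (c' - 1 / 2) = ∑ i ∈ Z, y i + c' - 1 / 2 := by ring
      have e2 : ind F Z - c' - ∑ i ∈ Z, y i = ind F Z - (∑ i ∈ Z, y i + c') := by ring
      rw [e1, e2]
      exact this
    refine (Finset.sum_le_sum h2).trans (le_of_eq ?_)
    rw [Finset.sum_add_distrib, Finset.sum_const, nsmul_eq_mul, hcardlev, ← Finset.mul_sum]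
    ring
  have hY18 : Y ≤ 18 := by
    have hE2 : E ≤ 3 / 4 * C := hEδ.trans (mul_le_mul_of_nonneg_right hδ1 hCpos.le)
    have h1 : C2 * Y ≤ C2 * 10 := by linarith
    have := le_of_mul_le_mul_left h1 hC2pos
    linarith
  -- the inequality on the slice
  have hfk := fkn_ineq hk1' ha hN F c' hy hY18
  have hcore := k15_core (k := k) (a := a) (Y := Y) (Q := Q) (W := E / C) hk1' ha hY0 hQ0 hY18 hfk
  have hW : E / C ≤ δ := by rw [div_le_iff₀ hCpos]; exact hEδ
  have hs : Y ^ 2 - Q ≤ (ε / 4) ^ 2 := by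
    have h1 : 324 * ((a : ℝ) + 1) / k ≤ ε ^ 2 / 32 := by
      rw [div_le_div_iff₀ (by linarith) (by norm_num)]
      have h2 : 324 * ((a : ℝ) + 1) * 32 / ε ^ 2 < k := lt_of_lt_of_le hk1 hkk
      rw [div_lt_iff₀ (by positivity)] at h2
      linarith
    have h3 : 2592 * (E / C) ≤ ε ^ 2 / 32 := by
      have := mul_le_mul_of_nonneg_left (hW.trans hδ3) (show (0 : ℝ) ≤ 2592 by norm_num)
      linarith
    have h4 : (ε / 4) ^ 2 = ε ^ 2 / 32 + ε ^ 2 / 32 := by ring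
    rw [h4]
    linarith
  -- the heavy point
  have : Nonempty β := Fintype.card_pos_iff.1 (by omega)
  obtain ⟨x, -, hx⟩ := Finset.exists_max_image (univ : Finset β) (fun i => y i ^ 2)
    univ_nonempty
  set z : β → ℝ := fun i => if i = x then 0 else y i with hz
  have hQx : Q ≤ y x ^ 2 * Y := by
    rw [hQ, hY, Finset.mul_sum]
    refine Finset.sum_le_sum fun i _ => ?_
    have := hx i (mem_univ i)
    calc y i ^ 4 = y i ^ 2 * y i ^ 2 := by ring
      _ ≤ y x ^ 2 * y i ^ 2 := mul_le_mul_of_nonneg_right this (sq_nonneg _)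
  have hR : ∑ i, z i ^ 2 = Y - y x ^ 2 := by
    rw [hY, ← Finset.add_sum_erase univ (fun i => y i ^ 2) (mem_univ x),
      ← Finset.add_sum_erase univ (fun i => z i ^ 2) (mem_univ x)]
    have h1 : ∑ i ∈ univ.erase x, z i ^ 2 = ∑ i ∈ univ.erase x, y i ^ 2 := by
      refine Finset.sum_congr rfl fun i hi => ?_
      rw [hz]
      simp only
      rw [if_neg (Finset.ne_of_mem_erase hi)]
    rw [h1, hz]
    simp only [if_true]
    ring
  set R : ℝ := ∑ i, z i ^ 2 with hRdef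
  have hR0 : 0 ≤ R := Finset.sum_nonneg fun _ _ => sq_nonneg _
  have hRle : R ≤ ε / 4 := by
    have h1 : R ^ 2 ≤ (ε / 4) ^ 2 := by
      have h2 : R ≤ Y := by rw [hR]; linarith [sq_nonneg (y x)]
      have h3 : R ^ 2 ≤ R * Y := by rw [sq]; exact mul_le_mul_of_nonneg_left h2 hR0
      have h4 : R * Y = Y ^ 2 - y x ^ 2 * Y := by rw [hR]; ring
      linarith
    exact (pow_le_pow_iff_left₀ hR0 (by positivity) two_ne_zero).1 h1
  have hvz := slice_var_le hk1' hk1N z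
  refine ⟨x, c' + k / Fintype.card β * ∑ i, z i, ?_⟩
  have hpt : ∀ Z ∈ (powersetCard k (univ : Finset β)).filter (fun Z => x ∉ Z),
      (ind F Z - (c' + k / Fintype.card β * ∑ i, z i)) ^ 2 ≤
        2 * (ind F Z - c' - ∑ i ∈ Z, y i) ^ 2 +
        2 * (∑ i ∈ Z, z i - k / Fintype.card β * ∑ i, z i) ^ 2 := by
    intro Z hZ
    have hxZ := (mem_filter.1 hZ).2
    have h1 : ∑ i ∈ Z, y i = ∑ i ∈ Z, z i := by
      refine Finset.sum_congr rfl fun i hi => ?_
      rw [hz]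
      simp only
      rw [if_neg (by rintro rfl; exact hxZ hi)]
    rw [h1]
    have e : ind F Z - (c' + k / Fintype.card β * ∑ i, z i) = (ind F Z - c' - ∑ i ∈ Z, z i) +
      (∑ i ∈ Z, z i - k / Fintype.card β * ∑ i, z i) := by ring
    rw [e]
    exact k15_two _ _
  calc ∑ Z ∈ (powersetCard k univ).filter (fun Z => x ∉ Z),
        (ind F Z - (c' + k / Fintype.card β * ∑ i, z i)) ^ 2
      ≤ ∑ Z ∈ (powersetCard k univ).filter (fun Z => x ∉ Z),
        (2 * (ind F Z - c' - ∑ i ∈ Z, y i) ^ 2 +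
        2 * (∑ i ∈ Z, z i - k / Fintype.card β * ∑ i, z i) ^ 2) := Finset.sum_le_sum hpt
    _ ≤ ∑ Z ∈ powersetCard k (univ : Finset β),
        (2 * (ind F Z - c' - ∑ i ∈ Z, y i) ^ 2 +
        2 * (∑ i ∈ Z, z i - k / Fintype.card β * ∑ i, z i) ^ 2) :=
        Finset.sum_le_sum_of_subset_of_nonneg (filter_subset _ _) fun _ _ _ => by positivity
    _ = 2 * E + 2 * ∑ Z ∈ powersetCard k (univ : Finset β),
        (∑ i ∈ Z, z i - k / Fintype.card β * ∑ i, z i) ^ 2 := by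
        rw [Finset.sum_add_distrib, ← Finset.mul_sum, ← Finset.mul_sum]
    _ ≤ 2 * (ε / 4 * C) + 2 * (C * (ε / 4)) := by
        have h1 : E ≤ ε / 4 * C := hEδ.trans (mul_le_mul_of_nonneg_right hδ2 hCpos.le)
        have h2 : C2 * R ≤ C * (ε / 4) := mul_le_mul hC2C hRle hR0 hCpos.le
        have h3 := hvz.trans h2
        linarith
    _ = ε * C := by ring

end Pool.Agent.Lib.MP_fffc5a_co
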