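import Mathlib
import Pool.Agent.Lib.MP_fffc5a_co.Defs

set_option autoImplicit false

open Finset

namespace Pool.Agent.Lib.MP_fffc5a_co

theorem four_step (i : ℕ) (hi : 9 ≤ i) :
    9 * (4 * i).choose i ≤ (4 * (i + 1)).choose (i + 1) := by
  have h1 := Nat.choose_mul_succ_eq (4 * i) i
  have h2 := Nat.choose_mul_succ_eq (4 * i + 1) i
  have h3 := Nat.choose_mul_succ_eq (4 * i + 2) i
  have h4 := Nat.add_one_mul_choose_eq (4 * i + 3) i
  have e1 : 4 * i + 1 - i = 3 * i + 1 := by omega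
  have e2 : 4 * i + 1 + 1 - i = 3 * i + 2 := by omega
  have e3 : 4 * i + 2 + 1 - i = 3 * i + 3 := by omega
  rw [e1] at h1
  rw [e2] at h2
  rw [e3] at h3
  have e4 : 4 * (i + 1) = 4 * i + 3 + 1 := by ring
  rw [e4]
  set a := (4 * i).choose i
  set b := (4 * i + 1).choose i
  set c := (4 * i + 2).choose i
  set d := (4 * i + 3).choose i
  set e := (4 * i + 3 + 1).choose (i + 1)
  have h2' : b * (4 * i + 2) = c * (3 * i + 2) := h2
  have h3' : c * (4 * i + 3) = d * (3 * i + 3) := h3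
  have h4' : (4 * i + 4) * d = e * (i + 1) := h4
  have key : a * ((4 * i + 1) * (4 * i + 2) * (4 * i + 3) * (4 * i + 4))
      = e * ((3 * i + 1) * (3 * i + 2) * (3 * i + 3) * (i + 1)) := by
    calc a * ((4 * i + 1) * (4 * i + 2) * (4 * i + 3) * (4 * i + 4))
        = (a * (4 * i + 1)) * (4 * i + 2) * (4 * i + 3) * (4 * i + 4) := by ring
      _ = (b * (3 * i + 1)) * (4 * i + 2) * (4 * i + 3) * (4 * i + 4) := by rw [h1]
      _ = (b * (4 * i + 2)) * (3 * i + 1) * (4 * i + 3) * (4 * i + 4) := by ring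
      _ = (c * (3 * i + 2)) * (3 * i + 1) * (4 * i + 3) * (4 * i + 4) := by rw [h2']
      _ = (c * (4 * i + 3)) * (3 * i + 1) * (3 * i + 2) * (4 * i + 4) := by ring
      _ = (d * (3 * i + 3)) * (3 * i + 1) * (3 * i + 2) * (4 * i + 4) := by rw [h3']
      _ = ((4 * i + 4) * d) * (3 * i + 1) * (3 * i + 2) * (3 * i + 3) := by ring
      _ = (e * (i + 1)) * (3 * i + 1) * (3 * i + 2) * (3 * i + 3) := by rw [h4']
      _ = _ := by ring
  have hpoly : 9 * ((3 * i + 1) * (3 * i + 2) * (3 * i + 3) * (i + 1))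
      ≤ (4 * i + 1) * (4 * i + 2) * (4 * i + 3) * (4 * i + 4) := by
    obtain ⟨m, rfl⟩ : ∃ m, i = 9 + m := ⟨i - 9, by omega⟩
    ring_nf
    nlinarith [Nat.zero_le m, Nat.zero_le (m ^ 2), Nat.zero_le (m ^ 3), Nat.zero_le (m ^ 4)]
  have hpos : 0 < (3 * i + 1) * (3 * i + 2) * (3 * i + 3) * (i + 1) := by positivity
  refine Nat.le_of_mul_le_mul_right ?_ hpos
  calc 9 * a * ((3 * i + 1) * (3 * i + 2) * (3 * i + 3) * (i + 1))
      = a * (9 * ((3 * i + 1) * (3 * i + 2) * (3 * i + 3) * (i + 1))) := by ring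
    _ ≤ a * ((4 * i + 1) * (4 * i + 2) * (4 * i + 3) * (4 * i + 4)) :=
        Nat.mul_le_mul_left _ hpoly
    _ = e * ((3 * i + 1) * (3 * i + 2) * (3 * i + 3) * (i + 1)) := key

theorem four_aux (W : ℕ) (hW : 9 ^ 9 ≤ W) (i : ℕ) : 9 ^ i ≤ (4 * i).choose i * W := by
  rcases le_total i 9 with hi | hi
  · have h1 : 1 ≤ (4 * i).choose i := Nat.choose_pos (by omega)
    calc 9 ^ i ≤ 9 ^ 9 := Nat.pow_le_pow_right (by norm_num) hi
      _ ≤ W := hW
      _ = 1 * W := by ring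
      _ ≤ (4 * i).choose i * W := Nat.mul_le_mul_right _ h1
  · induction i, hi using Nat.le_induction with
    | base =>
      have h1 : 1 ≤ (4 * 9).choose 9 := Nat.choose_pos (by omega)
      exact hW.trans ((one_mul W).symm.le.trans (Nat.mul_le_mul_right W h1))
    | succ i hi ih =>
      calc 9 ^ (i + 1) = 9 * 9 ^ i := by ring
        _ ≤ 9 * ((4 * i).choose i * W) := Nat.mul_le_mul_left _ ih
        _ = (9 * (4 * i).choose i) * W := by ring
        _ ≤ (4 * (i + 1)).choose (i + 1) * W := Nat.mul_le_mul_right _ (four_step i hi)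

theorem choose_four (i : ℕ) : 9 ^ i ≤ (4 * i).choose i * 9 ^ 9 :=
  four_aux _ le_rfl i

/-- `s + t ≥ k + j - 3` -/
theorem st_ge {u k n t j : ℕ} (hu : 2 ≤ u) (hn : (u + 1) * k ≤ n) (hk : 1 ≤ k)
    (hj : (u + 1) * j ≤ k) (ht : k ^ 2 ≤ (t + 2) * (n - 1)) :
    k + j ≤ n - 1 - u * k + t + 3 := by
  obtain ⟨r, rfl⟩ : ∃ r, n = (u + 1) * k + r := ⟨n - (u + 1) * k, by omega⟩
  have e0 : (u + 1) * k = u * k + k := by ring
  have e1 : (u + 1) * k + r - 1 - u * k = k - 1 + r := by omega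
  rw [e1]
  by_contra hcon
  push Not at hcon
  have h1 : r + t + 2 < j := by omega
  have h2 : (u + 1) * k + r - 1 ≤ (u + 1) * k + r := Nat.sub_le _ _
  have h3 : k ^ 2 ≤ (t + 2) * ((u + 1) * k + r) :=
    ht.trans (Nat.mul_le_mul_left _ h2)
  have h4 : t + 2 + r + 1 ≤ j := by omega
  -- `k ^ 2 ≥ (u + 1) j k ≥ (u + 1) (t + 2 + r + 1) k`
  have h5 : (u + 1) * (t + 2 + r + 1) * k ≤ k ^ 2 := by
    calc (u + 1) * (t + 2 + r + 1) * k ≤ (u + 1) * j * k := by gcongr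
      _ ≤ k * k := Nat.mul_le_mul_right _ hj
      _ = k ^ 2 := by ring
  have h6 : t + 2 < k := by nlinarith
  have h7 : (t + 2) * ((u + 1) * k + r) < (u + 1) * (t + 2 + r + 1) * k := by
    have h8 : (t + 2) * r ≤ k * r := Nat.mul_le_mul_right _ h6.le
    have h9 : (u + 1) * (t + 2 + r + 1) * k
        = (t + 2) * ((u + 1) * k) + (u + 1) * (r + 1) * k := by ring
    have h10 : k * r < (u + 1) * (r + 1) * k := by
      calc k * r < k * (r + 1) := Nat.mul_lt_mul_of_pos_left (Nat.lt_succ_self r) (by omega)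
        _ = 1 * (r + 1) * k := by ring
        _ ≤ (u + 1) * (r + 1) * k := by gcongr; omega
    rw [h9]
    nlinarith
  omega

end Pool.Agent.Lib.MP_fffc5a_co
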