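import Mathlib
import Pool.Agent.Lib.MP_fffc5a_co.Defs
import Pool.Agent.Lib.MP_fffc5a_co.DefsC
import Pool.Agent.Lib.MP_fffc5a_co.DefsH

/-!
The up and down operators are adjoint, their commutator, and the square norm of `Up φ`.
-/

set_option autoImplicit false

open Finset

namespace Pool.Agent.Lib.MP_fffc5a_co

theorem up_dn_adj {β : Type*} [Fintype β] [DecidableEq β] (r : ℕ) (φ ψ : Finset β → ℝ) :
    ∑ Z ∈ powersetCard (r + 1) univ, Up φ Z * ψ Z = ∑ Z ∈ powersetCard r univ, φ Z * Dn ψ Z := by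
  have h1 : ∑ Z ∈ powersetCard (r + 1) univ, Up φ Z * ψ Z =
      ∑ Z ∈ powersetCard (r + 1) univ, ∑ z ∈ Z, φ (Z.erase z) * ψ Z := by
    refine Finset.sum_congr rfl fun Z _ => ?_
    rw [Up, Finset.sum_mul]
  have h2 : ∑ Z ∈ powersetCard r univ, φ Z * Dn ψ Z =
      ∑ Z ∈ powersetCard r univ, ∑ z ∈ Zᶜ, φ Z * ψ (insert z Z) := by
    refine Finset.sum_congr rfl fun Z _ => ?_
    rw [Dn, Finset.mul_sum]
  rw [h1, h2, Finset.sum_sigma', Finset.sum_sigma']
  refine Finset.sum_bij' (fun p _ => ⟨p.1.erase p.2, p.2⟩) (fun p _ => ⟨insert p.2 p.1, p.2⟩)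
    ?_ ?_ ?_ ?_ ?_
  · rintro ⟨Z, z⟩ h
    simp only [mem_sigma, mem_powersetCard_univ] at h
    simp only [mem_sigma, mem_powersetCard_univ, mem_compl, mem_erase, ne_eq, not_true_eq_false,
      false_and, not_false_eq_true, and_true]
    rw [card_erase_of_mem h.2, h.1]
    rfl
  · rintro ⟨Z, z⟩ h
    simp only [mem_sigma, mem_powersetCard_univ, mem_compl] at h
    simp only [mem_sigma, mem_powersetCard_univ, mem_insert, true_or, and_true]
    rw [card_insert_of_notMem h.2, h.1]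
  · rintro ⟨Z, z⟩ h
    simp only [mem_sigma, mem_powersetCard_univ] at h
    simp only [insert_erase h.2]
  · rintro ⟨Z, z⟩ h
    simp only [mem_sigma, mem_powersetCard_univ, mem_compl] at h
    simp only [erase_insert h.2]
  · rintro ⟨Z, z⟩ h
    simp only [mem_sigma, mem_powersetCard_univ] at h
    simp only [insert_erase h.2]

theorem dn_up_comm {β : Type*} [Fintype β] [DecidableEq β] (φ : Finset β → ℝ) (Z : Finset β) :
    Dn (Up φ) Z = Up (Dn φ) Z + ((Fintype.card β : ℝ) - 2 * Z.card) * φ Z := by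
  have h1 : Dn (Up φ) Z =
      (Zᶜ.card : ℝ) * φ Z + ∑ y ∈ Zᶜ, ∑ z ∈ Z, φ (insert y (Z.erase z)) := by
    rw [Dn, ← nsmul_eq_mul, ← Finset.sum_const, ← Finset.sum_add_distrib]
    refine Finset.sum_congr rfl fun y hy => ?_
    rw [mem_compl] at hy
    rw [Up, Finset.sum_insert hy, erase_insert hy]
    congr 1
    refine Finset.sum_congr rfl fun z hz => ?_
    rw [erase_insert_of_ne]
    rintro rfl
    exact hy hz
  have h2 : Up (Dn φ) Z =
      (Z.card : ℝ) * φ Z + ∑ z ∈ Z, ∑ y ∈ Zᶜ, φ (insert y (Z.erase z)) := by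
    rw [Up, ← nsmul_eq_mul, ← Finset.sum_const, ← Finset.sum_add_distrib]
    refine Finset.sum_congr rfl fun z hz => ?_
    have hz' : z ∉ Zᶜ := by simpa using hz
    rw [Dn, compl_erase, Finset.sum_insert hz', insert_erase hz]
  have h3 : (Zᶜ.card : ℝ) = (Fintype.card β : ℝ) - Z.card := by
    have := Finset.card_add_card_compl Z
    have h : ((Z.card + Zᶜ.card : ℕ) : ℝ) = (Fintype.card β : ℝ) := by rw [this]
    push_cast at h
    linarith
  rw [h1, h2, Finset.sum_comm, h3]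
  ring

theorem nsq_up {β : Type*} [Fintype β] [DecidableEq β] (r : ℕ) (φ : Finset β → ℝ) :
    nsq (r + 2) (Up φ) = ((Fintype.card β : ℝ) - 2 * (r + 1)) * nsq (r + 1) φ + nsq r (Dn φ) := by
  have h1 : nsq (r + 2) (Up φ) = ∑ Z ∈ powersetCard (r + 1 + 1) univ, Up φ Z * Up φ Z := by
    rw [nsq]
    refine Finset.sum_congr rfl fun Z _ => ?_
    ring
  rw [h1, up_dn_adj]
  have h2 : ∑ Z ∈ powersetCard (r + 1) univ, φ Z * Dn (Up φ) Z =
      ∑ Z ∈ powersetCard (r + 1) univ,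
        (((Fintype.card β : ℝ) - 2 * (r + 1)) * φ Z ^ 2 + Up (Dn φ) Z * φ Z) := by
    refine Finset.sum_congr rfl fun Z hZ => ?_
    rw [mem_powersetCard_univ] at hZ
    rw [dn_up_comm, hZ]
    push_cast
    ring
  rw [h2, Finset.sum_add_distrib, ← Finset.mul_sum, up_dn_adj, nsq, nsq]
  congr 1
  refine Finset.sum_congr rfl fun Z _ => ?_
  ring

end Pool.Agent.Lib.MP_fffc5a_co
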