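import Mathlib
import Pool.Agent.Lib.MP_fffc5a_co.Defs
import Pool.Agent.Lib.MP_fffc5a_co.DefsH
import Pool.Agent.Lib.MP_fffc5a_co.DefsK
import Pool.Agent.Lib.MP_fffc5a_co.OpAdj

/-!
The orthogonal projection of a function on a level onto the functions of low degree.
-/

set_option autoImplicit false

open Finset

namespace Pool.Agent.Lib.MP_fffc5a_co

/-- The iterated operators are adjoint. -/
theorem k1_adj_iter {β : Type*} [Fintype β] [DecidableEq β] (m d : ℕ) (ψ h : Finset β → ℝ) :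
    ∑ Z ∈ powersetCard (d + m) univ, (Up^[m] ψ) Z * h Z =
      ∑ J ∈ powersetCard d univ, ψ J * (Dn^[m] h) J := by
  induction m generalizing h with
  | zero => rfl
  | succ m ih =>
    have e : (Dn^[m + 1] h) = Dn^[m] (Dn h) := Function.iterate_succ_apply _ _ _
    rw [e, ← ih (Dn h), ← add_assoc, ← up_dn_adj]
    refine Finset.sum_congr rfl fun Z _ => ?_
    rw [Function.iterate_succ_apply']

theorem orth_of_dn {β : Type*} [Fintype β] [DecidableEq β] {d r : ℕ} (hdr : d ≤ r)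
    {h : Finset β → ℝ} (hh : ∀ J : Finset β, J.card = d → (Dn^[r - d] h) J = 0)
    (ψ : Finset β → ℝ) : ∑ Z ∈ powersetCard r univ, (Up^[r - d] ψ) Z * h Z = 0 := by
  have h1 := k1_adj_iter (r - d) d ψ h
  rw [Nat.add_sub_cancel' hdr] at h1
  rw [h1]
  refine Finset.sum_eq_zero fun J hJ => ?_
  rw [hh J (mem_powersetCard_univ.1 hJ), mul_zero]

/-- The up operator as a linear map. -/
def k1_upL (β : Type*) [DecidableEq β] : (Finset β → ℝ) →ₗ[ℝ] (Finset β → ℝ) where
  toFun := Up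
  map_add' a b := by
    funext Z
    simp only [Up, Pi.add_apply, Finset.sum_add_distrib]
  map_smul' c a := by
    funext Z
    simp only [Up, Pi.smul_apply, smul_eq_mul, RingHom.id_apply, Finset.mul_sum]

theorem k1_upL_pow {β : Type*} [DecidableEq β] (m : ℕ) (ψ : Finset β → ℝ) :
    (k1_upL β ^ m) ψ = Up^[m] ψ := by
  rw [Module.End.pow_apply]
  rfl

theorem proj {β : Type*} [Fintype β] [DecidableEq β] {d r : ℕ} (hdr : d ≤ r)
    (φ : Finset β → ℝ) : ∃ ψ : Finset β → ℝ, ∀ J : Finset β, J.card = d →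
      (Dn^[r - d] (fun Z => φ Z - (Up^[r - d] ψ) Z)) J = 0 := by
  classical
  let S : Type _ := {Z : Finset β // Z ∈ powersetCard r (univ : Finset β)}
  let R : (Finset β → ℝ) →ₗ[ℝ] EuclideanSpace ℝ S :=
    (WithLp.linearEquiv 2 ℝ (S → ℝ)).symm.toLinearMap ∘ₗ
      (LinearMap.funLeft ℝ ℝ (fun Z : S => Z.1))
  have hR : ∀ (f : Finset β → ℝ) (Z : S), R f Z = f Z.1 := fun f Z => rfl
  let T : (Finset β → ℝ) →ₗ[ℝ] EuclideanSpace ℝ S := R ∘ₗ (k1_upL β ^ (r - d))
  have hT : ∀ (f : Finset β → ℝ) (Z : S), T f Z = (Up^[r - d] f) Z.1 := by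
    intro f Z
    change R ((k1_upL β ^ (r - d)) f) Z = _
    rw [hR, k1_upL_pow]
  obtain ⟨y, hy, z, hz, hyz⟩ := Submodule.exists_add_mem_mem_orthogonal (K := LinearMap.range T) (R φ)
  obtain ⟨ψ, rfl⟩ := hy
  refine ⟨ψ, fun J hJ => ?_⟩
  have hzv : ∀ Z : S, z Z = φ Z.1 - (Up^[r - d] ψ) Z.1 := by
    intro Z
    have h1 : R φ Z = (T ψ + z) Z := by rw [hyz]
    rw [hR, PiLp.add_apply, hT] at h1
    linarith
  have key : ∀ f : Finset β → ℝ, ∑ Z ∈ powersetCard r univ, (Up^[r - d] f) Z *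
      (φ Z - (Up^[r - d] ψ) Z) = 0 := by
    intro f
    have h1 : inner ℝ (T f) z = 0 :=
      (Submodule.mem_orthogonal _ _).1 hz (T f) ⟨f, rfl⟩
    rw [PiLp.inner_apply] at h1
    rw [← Finset.sum_coe_sort, ← h1]
    refine Finset.sum_congr rfl fun Z _ => ?_
    rw [hT, hzv]
    simp only [RCLike.inner_apply, conj_trivial]
    ring
  have h2 := key (fun Z => if Z = J then 1 else 0)
  have h3 := k1_adj_iter (r - d) d (fun Z => if Z = J then (1 : ℝ) else 0)
    (fun Z => φ Z - (Up^[r - d] ψ) Z)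
  rw [Nat.add_sub_cancel' hdr, h2] at h3
  rw [Finset.sum_eq_single J] at h3
  · simpa using h3.symm
  · intro b _ hb
    simp [hb]
  · intro hJ'
    exact absurd (mem_powersetCard_univ.2 hJ) hJ'

end Pool.Agent.Lib.MP_fffc5a_co
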