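import Mathlib
import Pool.Agent.Lib.MP_fffc5a_co.Defs
import Pool.Agent.Lib.MP_fffc5a_co.DefsC
import Pool.Agent.Lib.MP_fffc5a_co.DefsH
import Pool.Agent.Lib.MP_fffc5a_co.OpAdj

/-!
The spectral inequality for the up operator, by induction on the level.
-/

set_option autoImplicit false

open Finset

namespace Pool.Agent.Lib.MP_fffc5a_co

theorem h2_nsq_nonneg {β : Type*} [Fintype β] [DecidableEq β] (r : ℕ) (φ : Finset β → ℝ) :
    0 ≤ nsq r φ := Finset.sum_nonneg fun _ _ => sq_nonneg _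

theorem h2_quad {F G L C : ℝ} (hF : 0 ≤ F) (hL : 0 < L) (hC : 0 ≤ C)
    (h : G ^ 2 ≤ F * (L * G + C)) : G ≤ L * F + C / L := by
  by_cases h1 : G ≤ L * F
  · have : 0 ≤ C / L := div_nonneg hC hL.le
    linarith
  · push Not at h1
    have hG : 0 < G := lt_of_le_of_lt (mul_nonneg hL.le hF) h1
    have h2 : F ≤ G / L := by
      rw [le_div_iff₀ hL]
      linarith
    have h3 : F * C ≤ G / L * C := mul_le_mul_of_nonneg_right h2 hC
    have h4 : G * G ≤ G * (L * F + C / L) := by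
      calc G * G = G ^ 2 := (sq G).symm
        _ ≤ F * (L * G + C) := h
        _ = G * (L * F) + F * C := by ring
        _ ≤ G * (L * F) + G / L * C := by linarith
        _ = G * (L * F + C / L) := by ring
    exact le_of_mul_le_mul_left h4 hG

theorem spec {β : Type*} [Fintype β] [DecidableEq β] (d r : ℕ) (hdr : d + 1 ≤ r)
    (hr : r + d + 1 ≤ Fintype.card β) (φ : Finset β → ℝ) :
    nsq (r + 1) (Up φ) ≤ ((r : ℝ) - d) * ((Fintype.card β : ℝ) - r - d - 1) * nsq r φ +
      (∏ s ∈ Ico (d + 1) r, (((s : ℝ) - d) * ((Fintype.card β : ℝ) - s - d - 1)))⁻¹ *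
        nsq d (Dn^[r - d] φ) := by
  induction r, hdr using Nat.le_induction generalizing φ with
  | base =>
    have h := nsq_up d φ
    have e1 : d + 1 - d = 1 := by omega
    rw [e1, Finset.Ico_self, Finset.prod_empty, inv_one, one_mul, Function.iterate_one, h]
    apply le_of_eq
    push_cast
    ring
  | succ r hdr ih =>
    have hr' : r + d + 1 ≤ Fintype.card β := by omega
    have hNr : (r : ℝ) + d + 2 ≤ (Fintype.card β : ℝ) := by
      have : r + d + 2 ≤ Fintype.card β := by omega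
      exact_mod_cast this
    have hdrR : (d : ℝ) + 1 ≤ r := by exact_mod_cast hdr
    have ihψ := ih hr' (Dn φ)
    set N : ℝ := (Fintype.card β : ℝ) with hN
    set L : ℝ := ((r : ℝ) - d) * (N - r - d - 1) with hLdef
    have hL : 0 < L := mul_pos (by linarith) (by linarith)
    have hP : 0 < ∏ s ∈ Ico (d + 1) r, (((s : ℝ) - d) * (N - s - d - 1)) := by
      refine Finset.prod_pos fun s hs => ?_
      rw [mem_Ico] at hs
      have h1 : (d : ℝ) + 1 ≤ s := by exact_mod_cast hs.1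
      have h2 : (s : ℝ) + 1 ≤ r := by exact_mod_cast hs.2
      exact mul_pos (by linarith) (by linarith)
    set P : ℝ := ∏ s ∈ Ico (d + 1) r, (((s : ℝ) - d) * (N - s - d - 1)) with hPdef
    set E : ℝ := nsq d (Dn^[r - d] (Dn φ)) with hE
    have hEeq : nsq d (Dn^[r + 1 - d] φ) = E := by
      have : r + 1 - d = (r - d) + 1 := by omega
      rw [this, Function.iterate_succ_apply]
    have hE0 : 0 ≤ E := h2_nsq_nonneg _ _
    have hF0 : 0 ≤ nsq (r + 1) φ := h2_nsq_nonneg _ _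
    have hadj : nsq r (Dn φ) = ∑ Z ∈ powersetCard (r + 1) univ, Up (Dn φ) Z * φ Z := by
      rw [up_dn_adj]
      exact Finset.sum_congr rfl fun Z _ => by rw [sq]
    have hCS : nsq r (Dn φ) ^ 2 ≤ nsq (r + 1) (Up (Dn φ)) * nsq (r + 1) φ := by
      rw [hadj]
      exact Finset.sum_mul_sq_le_sq_mul_sq _ _ _
    have hG2 : nsq r (Dn φ) ^ 2 ≤ nsq (r + 1) φ * (L * nsq r (Dn φ) + P⁻¹ * E) := by
      calc nsq r (Dn φ) ^ 2 ≤ nsq (r + 1) (Up (Dn φ)) * nsq (r + 1) φ := hCS
        _ ≤ (L * nsq r (Dn φ) + P⁻¹ * E) * nsq (r + 1) φ :=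
            mul_le_mul_of_nonneg_right ihψ hF0
        _ = nsq (r + 1) φ * (L * nsq r (Dn φ) + P⁻¹ * E) := by ring
    have hG := h2_quad hF0 hL (mul_nonneg (inv_nonneg.2 hP.le) hE0) hG2
    have hprod : ∏ s ∈ Ico (d + 1) (r + 1), (((s : ℝ) - d) * (N - s - d - 1)) = P * L := by
      rw [Finset.prod_Ico_succ_top hdr]
    rw [hEeq, hprod, nsq_up r φ, ← hN]
    have e3 : (P * L)⁻¹ * E = P⁻¹ * E / L := by
      rw [mul_inv]
      field_simp
    rw [e3]
    have e4 : (((r + 1 : ℕ) : ℝ) - d) * (N - ((r + 1 : ℕ) : ℝ) - d - 1) = L + (N - 2 * (r + 1)) := by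
      rw [hLdef]
      push_cast
      ring
    rw [e4]
    linarith

end Pool.Agent.Lib.MP_fffc5a_co
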