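import Mathlib
import Pool.Agent.Lib.MP_fffc5a_co.Defs
import Pool.Agent.Lib.MP_fffc5a_co.DefsH
import Pool.Agent.Lib.MP_fffc5a_co.DefsK
import Pool.Agent.Lib.MP_fffc5a_co.OpAdj
import Pool.Agent.Lib.MP_fffc5a_co.Spec
import Pool.Agent.Lib.MP_fffc5a_co.OpSums

/-!
The iterated up operator on a level: the trivial bound, and the bound for functions which are
orthogonal to all functions of degree at most `d`.
-/

set_option autoImplicit false

open Finset

namespace Pool.Agent.Lib.MP_fffc5a_co

/-- The commutator of the iterated down operator with the up operator. -/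
theorem k2_dn_up {β : Type*} [Fintype β] [DecidableEq β] (m : ℕ) (h : Finset β → ℝ)
    (Z : Finset β) : (Dn^[m + 1] (Up h)) Z = Up (Dn^[m + 1] h) Z +
      ((m : ℝ) + 1) * ((Fintype.card β : ℝ) - 2 * Z.card - m) * (Dn^[m] h) Z := by
  induction m generalizing Z with
  | zero =>
    rw [Function.iterate_succ_apply', Function.iterate_succ_apply', Function.iterate_zero_apply,
      Function.iterate_zero_apply, dn_up_comm]
    push_cast
    ring
  | succ m ih =>
    rw [Function.iterate_succ_apply' Dn (m + 1) (Up h),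
      Function.iterate_succ_apply' Dn (m + 1) h]
    have e1 : Dn (Dn^[m + 1] (Up h)) Z = Dn (Up (Dn^[m + 1] h)) Z +
        ((m : ℝ) + 1) * ((Fintype.card β : ℝ) - 2 * (Z.card + 1) - m) * (Dn^[m + 1] h) Z := by
      rw [Function.iterate_succ_apply' Dn m h]
      simp only [Dn]
      rw [Finset.mul_sum, ← Finset.sum_add_distrib]
      refine Finset.sum_congr rfl fun z hz => ?_
      have h1 := ih (insert z Z)
      rw [card_insert_of_notMem (mem_compl.1 hz)] at h1
      rw [← Function.iterate_succ_apply' Dn m h]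
      rw [h1]
      push_cast
      ring
    rw [e1, dn_up_comm]
    push_cast
    ring

theorem dn_up_zero {β : Type*} [Fintype β] [DecidableEq β] {d m : ℕ} {h : Finset β → ℝ}
    (hh : ∀ J : Finset β, J.card = d → (Dn^[m] h) J = 0) :
    ∀ J : Finset β, J.card = d → (Dn^[m + 1] (Up h)) J = 0 := by
  intro J hJ
  rw [k2_dn_up, hh J hJ, mul_zero, add_zero]
  refine Finset.sum_eq_zero fun z hz => ?_
  rw [Function.iterate_succ_apply']
  refine Finset.sum_eq_zero fun w hw => ?_
  refine hh _ ?_
  rw [card_insert_of_notMem (mem_compl.1 hw), card_erase_of_mem hz, hJ]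
  have := card_pos.2 ⟨z, hz⟩
  omega

theorem up_orth {β : Type*} [Fintype β] [DecidableEq β] {d r : ℕ} (hdr : d + 1 ≤ r) (j : ℕ)
    (hr : r + j + d ≤ Fintype.card β) {h : Finset β → ℝ}
    (hh : ∀ J : Finset β, J.card = d → (Dn^[r - d] h) J = 0) :
    nsq (r + j) (Up^[j] h) ≤
      (∏ i ∈ range j, (((r : ℝ) + i - d) * ((Fintype.card β : ℝ) - r - i - d - 1))) *
        nsq r h := by
  have hz : ∀ j : ℕ, ∀ J : Finset β, J.card = d → (Dn^[r + j - d] (Up^[j] h)) J = 0 := by
    intro j
    induction j with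
    | zero => exact hh
    | succ j ih =>
      have e : r + (j + 1) - d = (r + j - d) + 1 := by omega
      rw [e, Function.iterate_succ_apply' Up]
      exact dn_up_zero ih
  induction j with
  | zero => simp
  | succ j ih =>
    have ih' := ih (by omega)
    have hs := spec d (r + j) (by omega) (by omega) (Up^[j] h)
    have h0 : nsq d (Dn^[r + j - d] (Up^[j] h)) = 0 := by
      unfold nsq
      refine Finset.sum_eq_zero fun J hJ => ?_
      rw [hz j J (mem_powersetCard_univ.1 hJ)]
      norm_num
    rw [h0, mul_zero, add_zero] at hs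
    rw [Function.iterate_succ_apply' Up, ← add_assoc, Finset.prod_range_succ]
    refine hs.trans ?_
    have h1 : (0 : ℝ) ≤ ((r : ℝ) + j - d) * ((Fintype.card β : ℝ) - r - j - d - 1) := by
      refine mul_nonneg ?_ ?_
      · have : (d : ℝ) + 1 ≤ r := by exact_mod_cast hdr
        have : (0 : ℝ) ≤ (j : ℝ) := Nat.cast_nonneg j
        linarith
      · have : ((r + (j + 1) + d : ℕ) : ℝ) ≤ (Fintype.card β : ℝ) := by exact_mod_cast hr
        push_cast at this
        linarith
    have h2 := mul_le_mul_of_nonneg_left ih' h1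
    have e1 : (((r + j : ℕ) : ℝ) - d) * ((Fintype.card β : ℝ) - ((r + j : ℕ) : ℝ) - d - 1) =
        ((r : ℝ) + j - d) * ((Fintype.card β : ℝ) - r - j - d - 1) := by
      push_cast
      ring
    rw [e1]
    refine h2.trans (le_of_eq ?_)
    ring

theorem k2_up_one {β : Type*} [Fintype β] [DecidableEq β] (r : ℕ) (φ : Finset β → ℝ) :
    nsq (r + 1) (Up φ) ≤ ((r : ℝ) + 1) * ((Fintype.card β : ℝ) - r) * nsq r φ := by
  have h1 : nsq (r + 1) (Up φ) ≤
      ∑ Z ∈ powersetCard (r + 1) univ, ((r : ℝ) + 1) * Up (fun Z => φ Z ^ 2) Z := by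
    refine Finset.sum_le_sum fun Z hZ => ?_
    have h2 := sq_sum_le_card_mul_sum_sq (s := Z) (f := fun z => φ (Z.erase z))
    rw [mem_powersetCard_univ.1 hZ] at h2
    push_cast at h2
    exact h2
  refine h1.trans (le_of_eq ?_)
  rw [← Finset.mul_sum, h3_sum_up]
  unfold nsq
  ring

theorem up_trivial {β : Type*} [Fintype β] [DecidableEq β] (r j : ℕ)
    (hr : r + j ≤ Fintype.card β) (φ : Finset β → ℝ) :
    nsq (r + j) (Up^[j] φ) ≤
      (∏ i ∈ range j, (((r : ℝ) + 1 + i) * ((Fintype.card β : ℝ) - r - i))) * nsq r φ := by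
  induction j with
  | zero => simp
  | succ j ih =>
    have ih' := ih (by omega)
    have hs := k2_up_one (r + j) (Up^[j] φ)
    rw [Function.iterate_succ_apply' Up, ← add_assoc, Finset.prod_range_succ]
    refine hs.trans ?_
    have h1 : (0 : ℝ) ≤ ((r : ℝ) + 1 + j) * ((Fintype.card β : ℝ) - r - j) := by
      refine mul_nonneg (by positivity) ?_
      have : ((r + (j + 1) : ℕ) : ℝ) ≤ (Fintype.card β : ℝ) := by exact_mod_cast hr
      push_cast at this
      linarith
    have h2 := mul_le_mul_of_nonneg_left ih' h1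
    have e1 : (((r + j : ℕ) : ℝ) + 1) * ((Fintype.card β : ℝ) - ((r + j : ℕ) : ℝ)) =
        ((r : ℝ) + 1 + j) * ((Fintype.card β : ℝ) - r - j) := by
      push_cast
      ring
    rw [e1]
    refine h2.trans (le_of_eq ?_)
    ring

end Pool.Agent.Lib.MP_fffc5a_co
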