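import Mathlib
import Pool.Agent.Lib.MP_fffc5a_co.Defs
import Pool.Agent.Lib.MP_fffc5a_co.DefsH
import Pool.Agent.Lib.MP_fffc5a_co.DefsK
import Pool.Agent.Lib.MP_fffc5a_co.Proj
import Pool.Agent.Lib.MP_fffc5a_co.UpOrth
import Pool.Agent.Lib.MP_fffc5a_co.UpFormula

set_option autoImplicit false

open Finset

namespace Pool.Agent.Lib.MP_fffc5a_co

/-- the Kneser operator -/
noncomputable def k10_K {β : Type*} [Fintype β] [DecidableEq β] (k : ℕ) (φ : Finset β → ℝ)
    (X : Finset β) : ℝ := ∑ Y ∈ powersetCard k Xᶜ, φ Y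

theorem k10_symm {β : Type*} [Fintype β] [DecidableEq β] (k : ℕ) (φ χ : Finset β → ℝ) :
    ∑ X ∈ powersetCard k univ, φ X * k10_K k χ X =
      ∑ X ∈ powersetCard k univ, k10_K k φ X * χ X := by
  unfold k10_K
  simp only [Finset.mul_sum, Finset.sum_mul]
  rw [Finset.sum_comm' (s := powersetCard k (univ : Finset β))
    (t := fun X => powersetCard k Xᶜ) (t' := powersetCard k (univ : Finset β))
    (s' := fun Y => powersetCard k Yᶜ)]
  intro X Y
  simp only [Finset.mem_powersetCard, Finset.subset_univ, true_and, Finset.subset_compl_iff_disjoint_right]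
  constructor
  · rintro ⟨h1, h2, h3⟩
    exact ⟨⟨h2.symm, h1⟩, h3⟩
  · rintro ⟨⟨h1, h2⟩, h3⟩
    exact ⟨h2, h1.symm, h3⟩

theorem k10_dp {β : Type*} [Fintype β] [DecidableEq β] {k : ℕ} {F : Finset (Finset β)}
    (hF : ∀ s ∈ F, s.card = k) :
    (dp F F : ℝ) = ∑ X ∈ powersetCard k univ, ind F X * k10_K k (ind F) X := by
  have h1 : (dp F F : ℝ) = ∑ X ∈ F, ∑ Y ∈ F, if Disjoint X Y then (1 : ℝ) else 0 := by
    unfold dp
    rw [Finset.card_filter]
    push_cast
    rw [Finset.sum_product]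
  have h2 : ∀ X ∈ F, ∑ Y ∈ F, (if Disjoint X Y then (1 : ℝ) else 0) = k10_K k (ind F) X := by
    intro X _
    unfold k10_K ind
    rw [← Finset.sum_filter, ← Finset.sum_filter]
    refine Finset.sum_congr ?_ (fun _ _ => rfl)
    ext Y
    simp only [Finset.mem_filter, Finset.mem_powersetCard, Finset.subset_compl_iff_disjoint_right]
    constructor
    · rintro ⟨h3, h4⟩
      exact ⟨⟨h4.symm, hF Y h3⟩, h3⟩
    · rintro ⟨⟨h3, -⟩, h4⟩
      exact ⟨h4, h3.symm⟩
  rw [h1, Finset.sum_congr rfl h2]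
  have h3 : ∀ X ∈ powersetCard k (univ : Finset β), ind F X * k10_K k (ind F) X =
      if X ∈ F then k10_K k (ind F) X else 0 := by
    intro X _
    by_cases h : X ∈ F
    · rw [ind, if_pos h, if_pos h, one_mul]
    · rw [ind, if_neg h, if_neg h, zero_mul]
  rw [Finset.sum_congr rfl h3, ← Finset.sum_filter]
  refine Finset.sum_congr ?_ (fun _ _ => rfl)
  ext X
  simp only [Finset.mem_filter, Finset.mem_powersetCard, Finset.subset_univ, true_and]
  exact ⟨fun h => ⟨hF X h, h⟩, fun h => h.2⟩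

/-- double counting of the `k`-subsets through a point -/
theorem k10_count {β : Type*} [DecidableEq β] {k : ℕ} (hk : 1 ≤ k) (S : Finset β)
    (γ : β → ℝ) : ∑ Y ∈ powersetCard k S, ∑ i ∈ Y, γ i =
      ((S.card - 1).choose (k - 1) : ℝ) * ∑ i ∈ S, γ i := by
  rw [Finset.sum_comm' (t' := S) (s' := fun i => (powersetCard k S).filter (fun Y => i ∈ Y))]
  · rw [Finset.mul_sum]
    refine Finset.sum_congr rfl (fun i hi => ?_)
    rw [Finset.sum_const, nsmul_eq_mul]
    congr 2
    have h1 : ((powersetCard k S).filter (fun Y => i ∈ Y)) =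
        (powersetCard (k - 1) (S.erase i)).image (insert i) := by
      ext Y
      simp only [Finset.mem_filter, Finset.mem_powersetCard, Finset.mem_image]
      constructor
      · rintro ⟨⟨h2, h3⟩, h4⟩
        refine ⟨Y.erase i, ⟨Finset.erase_subset_erase i h2, ?_⟩, Finset.insert_erase h4⟩
        rw [Finset.card_erase_of_mem h4, h3]
      · rintro ⟨Z, ⟨h2, h3⟩, rfl⟩
        have h4 : i ∉ Z := fun h => Finset.notMem_erase i S (h2 h)
        refine ⟨⟨Finset.insert_subset hi (h2.trans (Finset.erase_subset i S)), ?_⟩,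
          Finset.mem_insert_self i Z⟩
        rw [Finset.card_insert_of_notMem h4, h3]
        omega
    rw [h1, Finset.card_image_of_injOn, Finset.card_powersetCard, Finset.card_erase_of_mem hi]
    intro A hA B hB hAB
    have hA' : i ∉ A := fun h => Finset.notMem_erase i S ((Finset.mem_powersetCard.1 hA).1 h)
    have hB' : i ∉ B := fun h => Finset.notMem_erase i S ((Finset.mem_powersetCard.1 hB).1 h)
    have h2 := congrArg (fun T => Finset.erase T i) hAB
    simp only [Finset.erase_insert hA', Finset.erase_insert hB'] at h2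
    exact h2
  · intro Y i
    simp only [Finset.mem_filter]
    constructor
    · rintro ⟨h1, h2⟩
      exact ⟨⟨h1, h2⟩, (Finset.mem_powersetCard.1 h1).1 h2⟩
    · rintro ⟨⟨h1, h2⟩, -⟩
      exact ⟨h1, h2⟩

theorem k10_prod (m a : ℕ) :
    ∏ i ∈ range a, (((m : ℝ) + 1 + i) * ((m : ℝ) + a - i)) =
      ((a.factorial : ℝ) * ((m + a).choose a : ℝ)) ^ 2 := by
  rw [Finset.prod_mul_distrib, sq]
  congr 1
  · have h1 := Nat.ascFactorial_eq_prod_range (m + 1) a
    have h2 : ((m + 1).ascFactorial a : ℝ) = ∏ i ∈ range a, ((m : ℝ) + 1 + i) := by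
      rw [h1]
      push_cast
      rfl
    rw [← h2]
    have h3 := Nat.ascFactorial_eq_factorial_mul_choose m a
    rw [h3]
    push_cast
    rfl
  · have h1 := Nat.descFactorial_eq_prod_range (m + a) a
    have h2 : ((m + a).descFactorial a : ℝ) = ∏ i ∈ range a, ((m : ℝ) + a - i) := by
      rw [h1]
      push_cast
      refine Finset.prod_congr rfl (fun i hi => ?_)
      have hi' := Finset.mem_range.1 hi
      rw [Nat.cast_sub (by omega)]
      push_cast
      ring
    rw [← h2, Nat.descFactorial_eq_factorial_mul_choose]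
    push_cast
    rfl

theorem hoffman {β : Type*} [Fintype β] [DecidableEq β] {k a : ℕ} (hk : 2 ≤ k) (ha : 1 ≤ a)
    (hN : Fintype.card β = 2 * k + a) {F : Finset (Finset β)} (hF : ∀ s ∈ F, s.card = k)
    {ψ : Finset β → ℝ} (hh : ∀ J : Finset β, J.card = 1 →
      (Dn^[k - 1] (fun Z => ind F Z - (Up^[k - 1] ψ) Z)) J = 0) :
    ((k + a - 1).choose a : ℝ) *
        ((F.card : ℝ) ^ 2 / ((2 * k + a - 1).choose (k - 1) : ℝ) - F.card) +
      ((k + a - 2).choose (a - 1) : ℝ) * nsq k (fun Z => ind F Z - (Up^[k - 1] ψ) Z) ≤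
      dp F F := by
  classical
  set g : Finset β → ℝ := Up^[k - 1] ψ with hg
  set h : Finset β → ℝ := fun Z => ind F Z - g Z with hhdef
  set γ : β → ℝ := fun i => ((k - 1).factorial : ℝ) * ψ {i} with hγ
  set Γ : ℝ := ∑ i, γ i with hΓ
  set P : Finset (Finset β) := powersetCard k univ with hP
  have hPmem : ∀ X, X ∈ P ↔ X.card = k := by
    intro X
    rw [hP, Finset.mem_powersetCard]
    simp
  have hform : ∀ (χ : Finset β → ℝ) (Z : Finset β), Z.card = k →
      (Up^[k - 1] χ) Z = ∑ i ∈ Z, ((k - 1).factorial : ℝ) * χ {i} := by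
    intro χ Z hZ
    rw [up_iter_formula χ (k - 1) 1 Z (by omega), Finset.powersetCard_one, Finset.sum_map,
      Finset.mul_sum]
    rfl
  have hgform : ∀ Z ∈ P, g Z = ∑ i ∈ Z, γ i := fun Z hZ => hform ψ Z ((hPmem Z).1 hZ)
  -- orthogonality
  have hhg : ∑ Z ∈ P, h Z * g Z = 0 := by
    have h1 := orth_of_dn (d := 1) (r := k) (by omega) hh ψ
    rw [← h1]
    exact Finset.sum_congr rfl (fun Z _ => mul_comm _ _)
  have hh1 : ∑ Z ∈ P, h Z = 0 := by
    have h1 := orth_of_dn (d := 1) (r := k) (by omega) hh (fun _ => 1)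
    have h2 : ∀ Z ∈ P, (Up^[k - 1] (fun _ => (1 : ℝ))) Z * h Z =
        ((k - 1).factorial * k : ℝ) * h Z := by
      intro Z hZ
      rw [hform (fun _ => 1) Z ((hPmem Z).1 hZ), Finset.sum_const, nsmul_eq_mul,
        (hPmem Z).1 hZ]
      ring
    have h3 : ∑ Z ∈ P, (Up^[k - 1] (fun _ => (1 : ℝ))) Z * h Z =
        ((k - 1).factorial * k : ℝ) * ∑ Z ∈ P, h Z := by
      rw [Finset.sum_congr rfl h2, Finset.mul_sum]
    rw [h1] at h3
    have h4 : ((k - 1).factorial * k : ℝ) ≠ 0 := by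
      have : (0 : ℝ) < (k - 1).factorial := by exact_mod_cast Nat.factorial_pos _
      have : (0 : ℝ) < k := by exact_mod_cast (by omega : 0 < k)
      positivity
    exact (mul_eq_zero.1 h3.symm).resolve_left h4
  have hfgh : ∀ Z, ind F Z = g Z + h Z := by
    intro Z
    rw [hhdef]
    ring
  -- the sum of `g`
  set L : ℝ := ((2 * k + a - 1).choose (k - 1) : ℝ) with hL
  have hLpos : 0 < L := by
    rw [hL]
    exact_mod_cast Nat.choose_pos (by omega)
  have hsg : ∑ Z ∈ P, g Z = L * Γ := by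
    rw [Finset.sum_congr rfl hgform, hP, k10_count (by omega) univ γ, Finset.card_univ, hN]
  have hsf : ∑ Z ∈ P, ind F Z = F.card := by
    unfold ind
    rw [← Finset.sum_filter, Finset.sum_const, nsmul_eq_mul, mul_one]
    congr 2
    ext X
    rw [Finset.mem_filter, hPmem]
    exact ⟨fun h => h.2, fun h => ⟨hF X h, h⟩⟩
  have hFL : (F.card : ℝ) = L * Γ := by
    rw [← hsf, Finset.sum_congr rfl (fun Z _ => hfgh Z), Finset.sum_add_distrib, hsg, hh1,
      add_zero]
  -- norms
  have hsf2 : ∑ Z ∈ P, ind F Z ^ 2 = F.card := by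
    rw [← hsf]
    refine Finset.sum_congr rfl (fun Z _ => ?_)
    unfold ind
    split_ifs <;> norm_num
  have hnorm : (F.card : ℝ) = ∑ Z ∈ P, g Z ^ 2 + nsq k h := by
    rw [← hsf2]
    unfold nsq
    have h1 : ∀ Z ∈ P, ind F Z ^ 2 = g Z ^ 2 + 2 * (h Z * g Z) + h Z ^ 2 := by
      intro Z _
      rw [hfgh Z]
      ring
    rw [Finset.sum_congr rfl h1, Finset.sum_add_distrib, Finset.sum_add_distrib,
      ← Finset.mul_sum, hhg]
    ring
  -- the Kneser operator on `g`
  set C : ℝ := ((k + a - 1).choose a : ℝ) with hC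
  have hKg : ∀ X ∈ P, k10_K k g X = C * (Γ - g X) := by
    intro X hX
    have hXk := (hPmem X).1 hX
    have h1 : k10_K k g X = ∑ Y ∈ powersetCard k Xᶜ, ∑ i ∈ Y, γ i := by
      unfold k10_K
      refine Finset.sum_congr rfl (fun Y hY => ?_)
      exact hgform Y ((hPmem Y).2 (Finset.mem_powersetCard.1 hY).2)
    rw [h1, k10_count (by omega), Finset.card_compl, hN, hXk]
    have h2 : 2 * k + a - k - 1 = k + a - 1 := by omega
    have h3 : (k + a - 1).choose (k - 1) = (k + a - 1).choose a := by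
      have := Nat.choose_symm (n := k + a - 1) (k := a) (by omega)
      rw [← this]
      congr 1
      omega
    have h4 : ∑ i ∈ Xᶜ, γ i = Γ - g X := by
      rw [hgform X hX, hΓ, ← Finset.sum_add_sum_compl X γ]
      ring
    rw [h2, h3, h4]
  have hgKg : ∑ X ∈ P, g X * k10_K k g X = C * (Γ * (L * Γ) - ∑ Z ∈ P, g Z ^ 2) := by
    have h1 : ∀ X ∈ P, g X * k10_K k g X = C * (Γ * g X - g X ^ 2) := by
      intro X hX
      rw [hKg X hX]
      ring
    rw [Finset.sum_congr rfl h1, ← Finset.mul_sum, Finset.sum_sub_distrib, ← Finset.mul_sum, hsg]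
  have hhKg : ∑ X ∈ P, h X * k10_K k g X = 0 := by
    have h1 : ∀ X ∈ P, h X * k10_K k g X = C * (Γ * h X - h X * g X) := by
      intro X hX
      rw [hKg X hX]
      ring
    rw [Finset.sum_congr rfl h1, ← Finset.mul_sum, Finset.sum_sub_distrib, ← Finset.mul_sum,
      hh1, hhg]
    ring
  have hgKh : ∑ X ∈ P, g X * k10_K k h X = 0 := by
    rw [hP, k10_symm]
    rw [← hP, ← hhKg]
    exact Finset.sum_congr rfl (fun X _ => mul_comm _ _)
  have hKadd : ∀ X, k10_K k (ind F) X = k10_K k g X + k10_K k h X := by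
    intro X
    unfold k10_K
    rw [← Finset.sum_add_distrib]
    exact Finset.sum_congr rfl (fun Y _ => hfgh Y)
  have hdp : (dp F F : ℝ) = C * (Γ * (L * Γ) - ∑ Z ∈ P, g Z ^ 2) +
      ∑ X ∈ P, h X * k10_K k h X := by
    rw [k10_dp hF]
    have h1 : ∀ X ∈ P, ind F X * k10_K k (ind F) X = g X * k10_K k g X +
        h X * k10_K k g X + g X * k10_K k h X + h X * k10_K k h X := by
      intro X _
      rw [hKadd, hfgh X]
      ring
    rw [← hP, Finset.sum_congr rfl h1, Finset.sum_add_distrib, Finset.sum_add_distrib,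
      Finset.sum_add_distrib, hgKg, hhKg, hgKh]
    ring
  -- the norm of `K h`
  set D : ℝ := ((k + a - 2).choose a : ℝ) with hD
  have hD0 : 0 ≤ D := Nat.cast_nonneg _
  have hafac : (0 : ℝ) < a.factorial := by exact_mod_cast Nat.factorial_pos _
  have hKh : ∀ X ∈ P, (a.factorial : ℝ) * k10_K k h X = (Up^[a] h) Xᶜ := by
    intro X hX
    have hXk := (hPmem X).1 hX
    rw [up_iter_formula h a k Xᶜ (by rw [Finset.card_compl, hN, hXk]; omega)]
    rfl
  have hKh2 : (a.factorial : ℝ) ^ 2 * ∑ X ∈ P, k10_K k h X ^ 2 = nsq (k + a) (Up^[a] h) := by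
    rw [Finset.mul_sum]
    unfold nsq
    refine Finset.sum_nbij' (fun X => Xᶜ) (fun W => Wᶜ) ?_ ?_ ?_ ?_ ?_
    · intro X hX
      rw [Finset.mem_powersetCard]
      refine ⟨Finset.subset_univ _, ?_⟩
      rw [Finset.card_compl, hN, (hPmem X).1 hX]
      omega
    · intro W hW
      rw [hPmem, Finset.card_compl, hN, (Finset.mem_powersetCard.1 hW).2]
      omega
    · intro X _
      exact compl_compl X
    · intro W _
      exact compl_compl W
    · intro X hX
      rw [← hKh X hX]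
      ring
  have hup := up_orth (d := 1) (r := k) (by omega) a (by omega) hh
  have hprod : (∏ i ∈ range a, (((k : ℝ) + i - (1 : ℕ)) *
      ((Fintype.card β : ℝ) - k - i - (1 : ℕ) - 1))) = ((a.factorial : ℝ) * D) ^ 2 := by
    obtain ⟨m, rfl⟩ : ∃ m, k = m + 2 := ⟨k - 2, by omega⟩
    have h1 : m + 2 + a - 2 = m + a := by omega
    rw [hD, h1, ← k10_prod m a]
    refine Finset.prod_congr rfl (fun i _ => ?_)
    rw [hN]
    push_cast
    ring
  have hKhle : ∑ X ∈ P, k10_K k h X ^ 2 ≤ D ^ 2 * nsq k h := by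
    have h1 : (a.factorial : ℝ) ^ 2 * ∑ X ∈ P, k10_K k h X ^ 2 ≤
        (a.factorial : ℝ) ^ 2 * (D ^ 2 * nsq k h) := by
      rw [hKh2]
      refine hup.trans (le_of_eq ?_)
      rw [hprod]
      ring
    exact le_of_mul_le_mul_left h1 (by positivity)
  have hnsq0 : 0 ≤ nsq k h := Finset.sum_nonneg (fun _ _ => sq_nonneg _)
  have hcs : (∑ X ∈ P, h X * k10_K k h X) ^ 2 ≤ (D * nsq k h) ^ 2 := by
    calc (∑ X ∈ P, h X * k10_K k h X) ^ 2 ≤
          (∑ X ∈ P, h X ^ 2) * ∑ X ∈ P, k10_K k h X ^ 2 :=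
          Finset.sum_mul_sq_le_sq_mul_sq P h (k10_K k h)
      _ ≤ nsq k h * (D ^ 2 * nsq k h) := mul_le_mul_of_nonneg_left hKhle hnsq0
      _ = (D * nsq k h) ^ 2 := by ring
  have hlow : -(D * nsq k h) ≤ ∑ X ∈ P, h X * k10_K k h X := by
    have h1 := abs_le_of_sq_le_sq hcs (by positivity)
    exact (abs_le.1 h1).1
  -- Pascal
  have hpas : C = ((k + a - 2).choose (a - 1) : ℝ) + D := by
    have h1 : (k + a - 1).choose a = (k + a - 2).choose (a - 1) + (k + a - 2).choose a := by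
      obtain ⟨b, rfl⟩ : ∃ b, a = b + 1 := ⟨a - 1, by omega⟩
      have h2 : k + (b + 1) - 1 = (k + (b + 1) - 2) + 1 := by omega
      rw [h2, Nat.choose_succ_succ]
      rfl
    rw [hC, hD, h1]
    push_cast
    ring
  have hfin : (F.card : ℝ) ^ 2 / L = Γ * (L * Γ) := by
    rw [hFL]
    field_simp
  have hg2 : ∑ Z ∈ P, g Z ^ 2 = F.card - nsq k h := by
    linarith
  rw [hdp, hfin, hg2]
  have h9 : C * (Γ * (L * Γ) - (F.card - nsq k h)) =
      C * (Γ * (L * Γ) - F.card) + C * nsq k h := by ring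
  have h10 : C * nsq k h = ((k + a - 2).choose (a - 1) : ℝ) * nsq k h + D * nsq k h := by
    rw [hpas]
    ring
  rw [h9, h10]
  linarith

end Pool.Agent.Lib.MP_fffc5a_co
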