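import Mathlib
import Pool.Agent.Lib.MP_fffc5a_co.DefsC
import Pool.Agent.Lib.MP_fffc5a_co.DefsH

/-!
Task H10: incidences of extras and inactive sets; extras in no active set are wide.
-/

set_option autoImplicit false

open Finset

namespace Pool.Agent.Lib.MP_fffc5a_co

theorem h10_inner {β : Type*} [DecidableEq β] (P : Finset β → Prop) [DecidablePred P]
    (G Y : Finset β) :
    (if G ⊆ Y then ((Y \ G).filter fun y => P (Y.erase y)).card else 0) =
      ∑ y ∈ Y.filter fun y => P (Y.erase y), if G ⊆ Y.erase y then 1 else 0 := by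
  classical
  by_cases h : G ⊆ Y
  · rw [if_pos h, ← card_filter]
    congr 1
    ext y
    simp only [mem_filter, mem_sdiff, subset_erase]
    tauto
  · rw [if_neg h]
    symm
    apply sum_eq_zero
    intro y _
    rw [if_neg]
    intro hy
    exact h (hy.trans (erase_subset _ _))

theorem incid {β : Type*} [Fintype β] [DecidableEq β] {u k a : ℕ} (hk : 1 ≤ k)
    {E M : Finset (Finset β)} (hM : ∀ Y ∈ M, Y.card = k + a) :
    ∑ G ∈ E, Jn (Act E u (k + a - 1)) M G ≤ (u - 1) * Jn (Act E u (k + a - 1)) M ∅ := by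
  classical
  have key : ∀ G : Finset β, Jn (Act E u (k + a - 1)) M G =
      ∑ Y ∈ M, ∑ y ∈ Y.filter fun y => Y.erase y ∉ Act E u (k + a - 1),
        if G ⊆ Y.erase y then 1 else 0 := by
    intro G
    unfold Jn
    rw [sum_filter]
    apply sum_congr rfl
    intro Y _
    exact h10_inner (fun Z => Z ∉ Act E u (k + a - 1)) G Y
  rw [sum_congr rfl (fun G _ => key G), sum_comm]
  unfold Jn
  rw [filter_true_of_mem (fun Y _ => empty_subset _), mul_sum]
  apply sum_le_sum
  intro Y hY
  rw [sum_comm, sdiff_empty]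
  calc ∑ y ∈ Y.filter (fun y => Y.erase y ∉ Act E u (k + a - 1)),
        ∑ G ∈ E, (if G ⊆ Y.erase y then 1 else 0)
      ≤ ∑ _y ∈ Y.filter (fun y => Y.erase y ∉ Act E u (k + a - 1)), (u - 1) := by
        apply sum_le_sum
        intro y hy
        rw [mem_filter] at hy
        obtain ⟨hyY, hy⟩ := hy
        rw [← card_filter]
        have hc : (Y.erase y).card = k + a - 1 := by
          rw [card_erase_of_mem hyY, hM Y hY]
        unfold Act at hy
        rw [mem_filter, mem_powersetCard] at hy
        push Not at hy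
        have := hy ⟨subset_univ _, hc⟩
        omega
    _ = (u - 1) * (Y.filter fun y => Y.erase y ∉ Act E u (k + a - 1)).card := by
        rw [sum_const, smul_eq_mul, mul_comm]

theorem wide_of_inactive {β : Type*} [Fintype β] [DecidableEq β] {u w : ℕ} (hu : 1 ≤ u)
    (hw : w ≤ Fintype.card β) {E : Finset (Finset β)} :
    Wide u (w + 1) (E.filter fun G => ¬ ∃ W ∈ Act E u w, G ⊆ W) := by
  classical
  intro T hT hTc
  by_contra hlt
  push Not at hlt
  have hle : (T.biUnion id).card ≤ w := by omega
  obtain ⟨W, hTW, -, hW⟩ := exists_subsuperset_card_eq (subset_univ (T.biUnion id)) hle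
    (by rw [card_univ]; exact hw)
  have hne : T.Nonempty := by
    rw [← card_pos]
    omega
  obtain ⟨G, hG⟩ := hne
  have hsub : ∀ G ∈ T, G ⊆ W := by
    intro G hG
    exact (subset_biUnion_of_mem id hG).trans hTW
  have hact : W ∈ Act E u w := by
    unfold Act
    rw [mem_filter, mem_powersetCard]
    refine ⟨⟨subset_univ _, hW⟩, ?_⟩
    rw [← hTc]
    apply card_le_card
    intro s hs
    rw [mem_filter]
    exact ⟨(mem_filter.1 (hT hs)).1, hsub s hs⟩
  exact (mem_filter.1 (hT hG)).2 ⟨W, hact, hsub G hG⟩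

end Pool.Agent.Lib.MP_fffc5a_co
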