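import Mathlib
import Pool.Agent.Lib.MP_fffc5a_co.Defs
import Pool.Agent.Lib.MP_fffc5a_co.DefsC

/-!
Powers of `(k + a - 1) / (k + 1)` beat polynomials.
-/

set_option autoImplicit false

open Finset

namespace Pool.Agent.Lib.MP_fffc5a_co

theorem e8_real (u D k a t : ℕ) (hu : 2 ≤ u) (hD : 1 ≤ D) (hk : 16 * D ^ 2 ≤ k) (hk3 : 3 ≤ k)
    (hau : a ≤ (u - 1) * k) (hC : ((8 * D * u : ℕ) : ℝ) * (k * Real.log k) ≤ (a : ℝ) ^ 2)
    (ht : a / D ≤ t) : k ^ 2 * (k + 1) ^ t ≤ (k + a - 1) ^ t := by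
  have hD' : (1 : ℝ) ≤ (D : ℝ) := by exact_mod_cast hD
  have hu' : (2 : ℝ) ≤ (u : ℝ) := by exact_mod_cast hu
  have hk3' : (3 : ℝ) ≤ (k : ℝ) := by exact_mod_cast hk3
  have hlog : 1 ≤ Real.log k := by
    rw [Real.le_log_iff_exp_le (by linarith)]
    have h1 := Real.exp_one_lt_d9
    linarith
  have hk16 : 16 * (D : ℝ) ^ 2 ≤ (k : ℝ) := by exact_mod_cast hk
  have hak : (k : ℝ) ≤ (a : ℝ) ^ 2 := by
    refine le_trans ?_ hC
    push_cast
    have h1 : (1 : ℝ) ≤ 8 * D * u := by nlinarith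
    have h2 : (k : ℝ) ≤ k * Real.log k := by nlinarith
    nlinarith
  have ha4 : 4 * D ≤ a := by
    have h1 : (4 * (D : ℝ)) ^ 2 ≤ (a : ℝ) ^ 2 := by nlinarith
    have h2 : 4 * (D : ℝ) ≤ (a : ℝ) := by
      refine le_of_sq_le_sq ?_ ?_
      · exact h1
      · positivity
    exact_mod_cast h2
  have ha4' : 4 * (D : ℝ) ≤ (a : ℝ) := by exact_mod_cast ha4
  have hcast : ((k + a - 1 : ℕ) : ℝ) = (k : ℝ) + a - 1 := by
    rw [Nat.cast_sub (by omega)]
    push_cast
    ring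
  have hau' : (a : ℝ) ≤ ((u : ℝ) - 1) * k := by
    have h1 : ((a : ℕ) : ℝ) ≤ (((u - 1) * k : ℕ) : ℝ) := by exact_mod_cast hau
    rw [Nat.cast_mul, Nat.cast_sub (by omega)] at h1
    simpa using h1
  -- the exponent
  have htr : (a : ℝ) / (2 * D) ≤ (t : ℝ) := by
    have h1 : a < D * (t + 1) := by
      have h2 := Nat.lt_div_mul_add (a := a) (b := D) (by omega)
      calc a < a / D * D + D := h2
        _ ≤ t * D + D := by
          have := Nat.mul_le_mul_right D ht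
          omega
        _ = D * (t + 1) := by ring
    have h3 : (a : ℝ) < D * (t + 1) := by exact_mod_cast h1
    rw [div_le_iff₀ (by positivity)]
    nlinarith
  set B : ℝ := (k : ℝ) + a - 1 with hB
  set K : ℝ := (k : ℝ) + 1 with hK
  have hKpos : 0 < K := by positivity
  have hBpos : 0 < B := by
    rw [hB]
    nlinarith
  have hBu : B ≤ u * k := by
    rw [hB]
    linarith
  have hlogB : (a - 2 : ℝ) / B ≤ Real.log (B / K) := by
    have h1 := Real.one_sub_inv_le_log_of_pos (div_pos hBpos hKpos)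
    refine le_trans (le_of_eq ?_) h1
    rw [inv_div]
    field_simp
    rw [hB, hK]
    ring
  have h5 : 2 * Real.log k ≤ t * Real.log (B / K) := by
    have h6 : (a : ℝ) / 2 / (u * k) ≤ Real.log (B / K) := by
      refine le_trans ?_ hlogB
      rw [div_le_div_iff₀ (by positivity) hBpos]
      have h7 : (a : ℝ) / 2 ≤ a - 2 := by linarith
      exact mul_le_mul h7 hBu hBpos.le (by linarith)
    calc 2 * Real.log k ≤ (a : ℝ) / (2 * D) * ((a : ℝ) / 2 / (u * k)) := by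
          rw [div_div, div_mul_div_comm, le_div_iff₀ (by positivity)]
          push_cast at hC
          calc 2 * Real.log k * (2 * (D : ℝ) * (2 * (u * k))) = 8 * D * u * (k * Real.log k) := by
                ring
            _ ≤ (a : ℝ) ^ 2 := hC
            _ = a * a := by ring
      _ ≤ t * Real.log (B / K) := mul_le_mul htr h6 (by positivity) (by positivity)
  have h8 : (k : ℝ) ^ 2 ≤ (B / K) ^ t := by
    have h9 : Real.log ((k : ℝ) ^ 2) ≤ Real.log ((B / K) ^ t) := by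
      rw [Real.log_pow, Real.log_pow]
      exact_mod_cast h5
    exact (Real.log_le_log_iff (by positivity) (by positivity)).1 h9
  have h10 : (k : ℝ) ^ 2 * K ^ t ≤ B ^ t := by
    rw [div_pow, le_div_iff₀ (by positivity)] at h8
    exact h8
  have h11 : ((k ^ 2 * (k + 1) ^ t : ℕ) : ℝ) ≤ (((k + a - 1) ^ t : ℕ) : ℝ) := by
    rw [Nat.cast_pow, hcast]
    push_cast
    exact h10
  exact_mod_cast h11

theorem kk_pow (u D : ℕ) (hu : 2 ≤ u) (hD : 1 ≤ D) : ∃ C k₀ : ℕ, ∀ k, k₀ ≤ k → ∀ a : ℕ,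
    a ≤ (u - 1) * k → (C : ℝ) * (k * Real.log k) ≤ (a : ℝ) ^ 2 → ∀ t, a / D ≤ t →
    3 * ((2 * k + a - 1) * (k + a - 1)) * (k + 1) ^ t ≤ (k + 1) * (k + a - 1) ^ t := by
  refine ⟨8 * D * u, max (3 * (u * (u + 1))) (max (16 * D ^ 2) 3), ?_⟩
  intro k hk a hau hC t ht
  have hk1 : 3 * (u * (u + 1)) ≤ k := le_trans (le_max_left _ _) hk
  have hk2 : 16 * D ^ 2 ≤ k := le_trans (le_trans (le_max_left _ _) (le_max_right _ _)) hk
  have hk3 : 3 ≤ k := le_trans (le_trans (le_max_right _ _) (le_max_right _ _)) hk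
  have h := e8_real u D k a t hu hD hk2 hk3 hau hC ht
  obtain ⟨w, rfl⟩ : ∃ w, u = w + 1 := ⟨u - 1, by omega⟩
  have hw : w + 1 - 1 = w := by omega
  rw [hw] at hau
  have h1 : 2 * k + a - 1 ≤ (w + 1 + 1) * k := by
    have : (w + 1 + 1) * k = 2 * k + w * k := by ring
    omega
  have h2 : k + a - 1 ≤ (w + 1) * k := by
    have : (w + 1) * k = k + w * k := by ring
    omega
  calc 3 * ((2 * k + a - 1) * (k + a - 1)) * (k + 1) ^ t
      ≤ 3 * (((w + 1 + 1) * k) * ((w + 1) * k)) * (k + 1) ^ t :=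
        Nat.mul_le_mul_right _ (Nat.mul_le_mul_left _ (Nat.mul_le_mul h1 h2))
    _ = (3 * ((w + 1) * (w + 1 + 1))) * (k ^ 2 * (k + 1) ^ t) := by ring
    _ ≤ k * (k ^ 2 * (k + 1) ^ t) := Nat.mul_le_mul_right _ hk1
    _ ≤ (k + 1) * (k + a - 1) ^ t := Nat.mul_le_mul (by omega) h

end Pool.Agent.Lib.MP_fffc5a_co
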