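import Mathlib
import Pool.Agent.Lib.MP_fffc5a_co.Defs
import Pool.Agent.Lib.MP_fffc5a_co.DefsC

/-!
The ratio of two binomial coefficients, by induction.
-/

set_option autoImplicit false

open Finset

namespace Pool.Agent.Lib.MP_fffc5a_co

theorem e7_ratio (k a' t : ℕ) (ht : t ≤ k) :
    (2 * k + a' + 1 - t).choose (k + a') * (k * (k + 1)) * (k + a' + 1) ^ t ≤
      (2 * k + a' + 1 - t - 1).choose (k - 1) * ((2 * k + a' + 1) * (k + a' + 1)) * (k + 1) ^ t := by
  induction t with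
  | zero =>
    rcases Nat.eq_zero_or_pos k with hk | hk
    · subst hk
      simp
    obtain ⟨m, rfl⟩ : ∃ m, k = m + 1 := ⟨k - 1, by omega⟩
    have e1 : 2 * (m + 1) + a' + 1 - 0 = 2 * m + a' + 2 + 1 := by omega
    have e2 : 2 * (m + 1) + a' + 1 - 0 - 1 = 2 * m + a' + 2 := by omega
    have e3 : m + 1 - 1 = m := by omega
    have e4 : 2 * (m + 1) + a' + 1 = 2 * m + a' + 2 + 1 := by omega
    rw [e2, e1, e3, e4, pow_zero, pow_zero, mul_one, mul_one]
    have h1 : (2 * m + a' + 2 + 1).choose (m + 1 + a') = (2 * m + a' + 2 + 1).choose (m + 1 + 1) := by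
      rw [← Nat.choose_symm (show m + 1 + 1 ≤ 2 * m + a' + 2 + 1 by omega)]
      congr 1
      omega
    have h2 := Nat.add_one_mul_choose_eq (2 * m + a' + 2) (m + 1)
    have h3 := Nat.choose_succ_right_eq (2 * m + a' + 2) m
    have e5 : 2 * m + a' + 2 - m = m + 1 + a' + 1 := by omega
    rw [e5] at h3
    rw [h1]
    refine le_of_eq ?_
    calc (2 * m + a' + 2 + 1).choose (m + 1 + 1) * ((m + 1) * (m + 1 + 1))
        = ((2 * m + a' + 2 + 1).choose (m + 1 + 1) * (m + 1 + 1)) * (m + 1) := by ring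
      _ = ((2 * m + a' + 2 + 1) * (2 * m + a' + 2).choose (m + 1)) * (m + 1) := by rw [← h2]
      _ = (2 * m + a' + 2 + 1) * ((2 * m + a' + 2).choose (m + 1) * (m + 1)) := by ring
      _ = (2 * m + a' + 2 + 1) * ((2 * m + a' + 2).choose m * (m + 1 + a' + 1)) := by rw [h3]
      _ = _ := by ring
  | succ t ih =>
    have ih := ih (by omega)
    obtain ⟨s, rfl⟩ : ∃ s, k = t + 1 + s := ⟨k - (t + 1), by omega⟩
    have e1 : 2 * (t + 1 + s) + a' + 1 - t - 1 = t + 2 * s + a' + 1 + 1 := by omega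
    have e2 : 2 * (t + 1 + s) + a' + 1 - t = t + 2 * s + a' + 2 + 1 := by omega
    have e3 : t + 1 + s - 1 = t + s := by omega
    have e4 : 2 * (t + 1 + s) + a' + 1 - (t + 1) - 1 = t + 2 * s + a' + 1 := by omega
    have e5 : 2 * (t + 1 + s) + a' + 1 - (t + 1) = t + 2 * s + a' + 2 := by omega
    rw [e1, e2, e3] at ih
    rw [e4, e5, e3]
    set X := (t + 1 + s) * (t + 1 + s + 1) with hX
    set Y := (2 * (t + 1 + s) + a' + 1) * (t + 1 + s + a' + 1) with hY
    set b := t + 1 + s + a' + 1 with hb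
    have h1 := Nat.choose_mul_succ_eq (t + 2 * s + a' + 2) (t + 1 + s + a')
    have e6 : t + 2 * s + a' + 2 + 1 - (t + 1 + s + a') = s + 2 := by omega
    rw [e6] at h1
    have h2 := Nat.choose_mul_succ_eq (t + 2 * s + a' + 1) (t + s)
    have e7 : t + 2 * s + a' + 1 + 1 - (t + s) = s + a' + 2 := by omega
    rw [e7] at h2
    have h3 : (s + 2) * (t + 2 * s + a' + 1 + 1) * b ≤
        (t + 1 + s + 1) * (t + 2 * s + a' + 2 + 1) * (s + a' + 2) := by
      have h4 : (s + 2) * b ≤ (t + 1 + s + 1) * (s + a' + 2) := by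
        rw [hb]
        nlinarith [Nat.zero_le (t * a'), Nat.zero_le (t * s)]
      calc (s + 2) * (t + 2 * s + a' + 1 + 1) * b
          = ((s + 2) * b) * (t + 2 * s + a' + 1 + 1) := by ring
        _ ≤ ((t + 1 + s + 1) * (s + a' + 2)) * (t + 2 * s + a' + 2 + 1) :=
            Nat.mul_le_mul h4 (by omega)
        _ = _ := by ring
    have hpos : 0 < (t + 2 * s + a' + 2 + 1) * (s + a' + 2) := by positivity
    refine Nat.le_of_mul_le_mul_right ?_ hpos
    calc (t + 2 * s + a' + 2).choose (t + 1 + s + a') * X * b ^ (t + 1) *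
          ((t + 2 * s + a' + 2 + 1) * (s + a' + 2))
        = ((t + 2 * s + a' + 2).choose (t + 1 + s + a') * (t + 2 * s + a' + 2 + 1)) * X * b ^ t *
          (b * (s + a' + 2)) := by ring
      _ = ((t + 2 * s + a' + 2 + 1).choose (t + 1 + s + a') * (s + 2)) * X * b ^ t *
          (b * (s + a' + 2)) := by rw [h1]
      _ = ((t + 2 * s + a' + 2 + 1).choose (t + 1 + s + a') * X * b ^ t) *
          ((s + 2) * b * (s + a' + 2)) := by ring
      _ ≤ ((t + 2 * s + a' + 1 + 1).choose (t + s) * Y * (t + 1 + s + 1) ^ t) *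
          ((s + 2) * b * (s + a' + 2)) := Nat.mul_le_mul_right _ ih
      _ = ((t + 2 * s + a' + 1 + 1).choose (t + s) * (s + a' + 2)) * Y * (t + 1 + s + 1) ^ t *
          ((s + 2) * b) := by ring
      _ = ((t + 2 * s + a' + 1).choose (t + s) * (t + 2 * s + a' + 1 + 1)) * Y *
          (t + 1 + s + 1) ^ t * ((s + 2) * b) := by rw [← h2]
      _ = ((t + 2 * s + a' + 1).choose (t + s) * Y * (t + 1 + s + 1) ^ t) *
          ((s + 2) * (t + 2 * s + a' + 1 + 1) * b) := by ring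
      _ ≤ ((t + 2 * s + a' + 1).choose (t + s) * Y * (t + 1 + s + 1) ^ t) *
          ((t + 1 + s + 1) * (t + 2 * s + a' + 2 + 1) * (s + a' + 2)) :=
            Nat.mul_le_mul_left _ h3
      _ = _ := by ring

theorem kk_ratio {k a : ℕ} (ha : 2 ≤ a) (t : ℕ) (ht : t ≤ k) :
    (2 * k + a - 1 - t).choose (k + a - 2) * (k * (k + 1)) * (k + a - 1) ^ t ≤
      (2 * k + a - 1 - t - 1).choose (k - 1) * ((2 * k + a - 1) * (k + a - 1)) * (k + 1) ^ t := by
  obtain ⟨a', rfl⟩ : ∃ a', a = a' + 2 := ⟨a - 2, by omega⟩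
  have h := e7_ratio k a' t ht
  have e1 : 2 * k + (a' + 2) - 1 = 2 * k + a' + 1 := by omega
  have e2 : k + (a' + 2) - 2 = k + a' := by omega
  have e3 : k + (a' + 2) - 1 = k + a' + 1 := by omega
  rw [e1, e2, e3]
  exact h

end Pool.Agent.Lib.MP_fffc5a_co
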