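import Mathlib
import Pool.Agent.Lib.MP_fffc5a_co.Defs
import Pool.Agent.Lib.MP_fffc5a_co.DefsC

/-!
The numerical inequality at the top: exponential growth beats polynomial growth.
-/

set_option autoImplicit false

open Finset

namespace Pool.Agent.Lib.MP_fffc5a_co

theorem e6_down {N k B : ℕ} (y : ℕ) (hN : k + 1 ≤ N) (hy : y ≤ k)
    (h : ∀ i < y, N - i ≤ (k + 1 - i) * B) :
    N.choose (k + 1) ≤ (N - y).choose (k + 1 - y) * B ^ y := by
  induction y with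
  | zero => simp
  | succ y ih =>
    have h1 := ih (by omega) (fun i hi => h i (by omega))
    have h2 := h y (by omega)
    obtain ⟨m, hm⟩ : ∃ m, N - y = m + 1 := ⟨N - y - 1, by omega⟩
    obtain ⟨j, hj⟩ : ∃ j, k + 1 - y = j + 1 := ⟨k - y, by omega⟩
    have hm' : N - (y + 1) = m := by omega
    have hj' : k + 1 - (y + 1) = j := by omega
    rw [hm', hj']
    rw [hm, hj] at h1 h2
    have h3 : (m + 1).choose (j + 1) ≤ m.choose j * B := by
      have h4 := Nat.add_one_mul_choose_eq m j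
      have h5 : (m + 1) * (m + 1).choose (j + 1) ≤ (m + 1) * (m.choose j * B) := by
        calc (m + 1) * (m + 1).choose (j + 1) ≤ ((j + 1) * B) * (m + 1).choose (j + 1) :=
              Nat.mul_le_mul_right _ h2
          _ = ((m + 1).choose (j + 1) * (j + 1)) * B := by ring
          _ = ((m + 1) * m.choose j) * B := by rw [h4]
          _ = (m + 1) * (m.choose j * B) := by ring
      exact Nat.le_of_mul_le_mul_left h5 (by omega)
    calc N.choose (k + 1) ≤ (m + 1).choose (j + 1) * B ^ y := h1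
      _ ≤ (m.choose j * B) * B ^ y := Nat.mul_le_mul_right _ h3
      _ = m.choose j * B ^ (y + 1) := by ring

theorem e6_choose_ge {k : ℕ} {q : ℝ} (hq : 0 ≤ q) (j : ℕ)
    (h : ∀ i : ℕ, 1 ≤ i → i ≤ j → q * i ≤ k + i) : q ^ j ≤ ((k + j).choose k : ℝ) := by
  induction j with
  | zero => simp
  | succ j ih =>
    have h1 := ih (fun i hi hij => h i hi (by omega))
    have h2 := h (j + 1) (by omega) le_rfl
    have h3 : (k + j).choose k = (k + j).choose j := by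
      rw [Nat.choose_symm_add]
    have h4 : (k + (j + 1)).choose k = (k + j + 1).choose (j + 1) := by
      rw [Nat.choose_symm_add]
      rfl
    have h5 := Nat.add_one_mul_choose_eq (k + j) j
    rw [h3] at h1
    rw [h4]
    have h6 : ((k : ℝ) + j + 1) * ((k + j).choose j : ℝ) =
        ((k + j + 1).choose (j + 1) : ℝ) * (j + 1) := by exact_mod_cast h5
    push_cast at h2
    have h7 : (0 : ℝ) ≤ (k + j).choose j := Nat.cast_nonneg _
    have h8 : q ^ (j + 1) * ((j : ℝ) + 1) ≤ ((k + j + 1).choose (j + 1) : ℝ) * (j + 1) := by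
      rw [← h6, pow_succ]
      calc q ^ j * q * ((j : ℝ) + 1) = q ^ j * (q * ((j : ℝ) + 1)) := by ring
        _ ≤ ((k + j).choose j : ℝ) * (q * ((j : ℝ) + 1)) := by gcongr
        _ ≤ ((k + j).choose j : ℝ) * (k + (j + 1)) := by gcongr
        _ = _ := by ring
    exact le_of_mul_le_mul_right h8 (by positivity)

theorem e6_two {k a : ℕ} (hk : 1 ≤ k) (ha : 3 ≤ a) :
    (2 * k + a).choose k ≤ 2 * (2 * k + a - 1).choose (k + 1) := by
  obtain ⟨j, rfl⟩ : ∃ j, k = j + 1 := ⟨k - 1, by omega⟩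
  have h1 : 2 * (j + 1) + a = (2 * (j + 1) + a - 1) + 1 := by omega
  have h2 : (2 * (j + 1) + a).choose (j + 1) =
      (2 * (j + 1) + a - 1).choose j + (2 * (j + 1) + a - 1).choose (j + 1) := by
    conv_lhs => rw [h1]
    rw [Nat.choose_succ_succ]
  have h3 : (2 * (j + 1) + a - 1).choose j ≤ (2 * (j + 1) + a - 1).choose (j + 1) :=
    Nat.choose_le_succ_of_lt_half_left (by omega)
  have h4 : (2 * (j + 1) + a - 1).choose (j + 1) ≤ (2 * (j + 1) + a - 1).choose (j + 1 + 1) :=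
    Nat.choose_le_succ_of_lt_half_left (by omega)
  omega

theorem kk_top (u : ℕ) (hu : 2 ≤ u) : ∃ D k₀ : ℕ, 1 ≤ D ∧ ∀ k, k₀ ≤ k → ∀ a, a ≤ (u - 1) * k →
    k ≤ a ^ 2 →
    3 * (2 * k + a) ^ 7 * (k * (2 * k + a).choose k) <
      (2 * k + a - 1 - a / D).choose (k + a - 2) * (k + a / 2).choose k := by
  have hu' : (2 : ℝ) ≤ u := by exact_mod_cast hu
  obtain ⟨q, hq⟩ : ∃ q : ℝ, q = ((u : ℝ) + 1) / (u - 1) := ⟨_, rfl⟩
  have hq1 : 1 < q := by
    rw [hq, lt_div_iff₀ (by linarith)]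
    linarith
  obtain ⟨E, hE⟩ : ∃ E : ℕ, ((2 * ((u : ℝ) + 1)) ^ 4) ≤ q ^ E := by
    obtain ⟨E, hE⟩ := pow_unbounded_of_one_lt ((2 * ((u : ℝ) + 1)) ^ 4) hq1
    exact ⟨E, hE.le⟩
  obtain ⟨D, hD⟩ : ∃ D : ℕ, D = E + 8 * u := ⟨_, rfl⟩
  have hD1 : 1 ≤ D := by omega
  have hDE : ((2 * ((u : ℝ) + 1)) ^ 4) ≤ q ^ D := by
    refine hE.trans (pow_le_pow_right₀ hq1.le (by omega))
  -- exponential beats polynomial
  have ht := tendsto_pow_const_div_const_pow_of_one_lt 64 hq1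
  obtain ⟨K, hK⟩ : ∃ K : ℝ, K = (6 * ((u : ℝ) + 1) ^ 7) ^ 4 * q ^ 2 := ⟨_, rfl⟩
  have hK0 : 0 < K := by rw [hK]; positivity
  have hev := ht.eventually (gt_mem_nhds (show (0 : ℝ) < 1 / K by positivity))
  obtain ⟨a₀, ha₀⟩ := Filter.eventually_atTop.1 hev
  refine ⟨D, (max a₀ 3) ^ 2 + 8, hD1, ?_⟩
  intro k hk a hak hka
  have hk1 : 1 ≤ k := by omega
  have ha3 : max a₀ 3 ≤ a := by
    by_contra hc
    push Not at hc
    have : a ^ 2 < (max a₀ 3) ^ 2 := Nat.pow_lt_pow_left hc (by norm_num)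
    omega
  have ha3' : 3 ≤ a := (le_max_right _ _).trans ha3
  have haa : a₀ ≤ a := (le_max_left _ _).trans ha3
  have hfin := ha₀ a haa
  obtain ⟨y, hy⟩ : ∃ y, y = a / D := ⟨_, rfl⟩
  obtain ⟨j, hj⟩ : ∃ j, j = a / 2 := ⟨_, rfl⟩
  rw [← hy, ← hj]
  have hyD : D * y ≤ a := by rw [hy]; exact Nat.mul_div_le a D
  have hy8 : 8 * y ≤ k := by
    have h1 : u * (8 * y) ≤ u * k := by
      calc u * (8 * y) = (8 * u) * y := by ring
        _ ≤ D * y := Nat.mul_le_mul_right _ (by omega)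
        _ ≤ a := hyD
        _ ≤ (u - 1) * k := hak
        _ ≤ u * k := Nat.mul_le_mul_right _ (by omega)
    exact Nat.le_of_mul_le_mul_left h1 (by omega)
  have hn : 2 * k + a ≤ (u + 1) * k := by
    have : (u + 1) * k = (u - 1) * k + 2 * k := by
      obtain ⟨w, rfl⟩ : ∃ w, u = w + 1 := ⟨u - 1, by omega⟩
      simp only [Nat.add_sub_cancel]
      ring
    omega
  -- the binomial coefficient at the top
  have c1 := e6_down (N := 2 * k + a - 1) (k := k) (B := 2 * (u + 1)) y (by omega) (by omega)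
    (by
      intro i hi
      have h1 : k ≤ (k + 1 - i) * 2 := by omega
      have h2 : k * (u + 1) ≤ (k + 1 - i) * (2 * (u + 1)) := by
        calc k * (u + 1) ≤ ((k + 1 - i) * 2) * (u + 1) := Nat.mul_le_mul_right _ h1
          _ = _ := by ring
      have h3 : k * (u + 1) = (u + 1) * k := by ring
      omega)
  have c2 : (2 * k + a - 1 - y).choose (k + a - 2) = (2 * k + a - 1 - y).choose (k + 1 - y) := by
    apply Nat.choose_symm_of_eq_add
    omega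
  have c3 := e6_two hk1 ha3'
  have c4 : q ^ j ≤ ((k + j).choose k : ℝ) := by
    apply e6_choose_ge (by linarith)
    intro i hi hij
    have h1 : 2 * i ≤ (u - 1) * k := by omega
    have h2 : 2 * (i : ℝ) ≤ ((u : ℝ) - 1) * k := by
      have : ((2 * i : ℕ) : ℝ) ≤ (((u - 1) * k : ℕ) : ℝ) := by exact_mod_cast h1
      rw [Nat.cast_mul, Nat.cast_mul, Nat.cast_sub (by omega)] at this
      simpa using this
    rw [hq, div_mul_eq_mul_div, div_le_iff₀ (by linarith)]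
    nlinarith
  rw [c2]
  obtain ⟨A, hA⟩ : ∃ A, A = (2 * k + a - 1 - y).choose (k + 1 - y) := ⟨_, rfl⟩
  rw [← hA] at c1 ⊢
  -- the numerical inequality
  have d1 : (6 * ((2 * k + a : ℕ) : ℝ) ^ 7 * k * (2 * ((u : ℝ) + 1)) ^ y) < q ^ j := by
    have hnR : ((2 * k + a : ℕ) : ℝ) ≤ ((u : ℝ) + 1) * k := by exact_mod_cast hn
    have hkR : (k : ℝ) ≤ (a : ℝ) ^ 2 := by exact_mod_cast hka
    have haR : (0 : ℝ) ≤ a := Nat.cast_nonneg _
    have e1 : 6 * ((2 * k + a : ℕ) : ℝ) ^ 7 * k ≤ 6 * ((u : ℝ) + 1) ^ 7 * (a : ℝ) ^ 16 := by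
      calc 6 * ((2 * k + a : ℕ) : ℝ) ^ 7 * k ≤ 6 * (((u : ℝ) + 1) * k) ^ 7 * k := by gcongr
        _ = 6 * ((u : ℝ) + 1) ^ 7 * (k : ℝ) ^ 8 := by ring
        _ ≤ 6 * ((u : ℝ) + 1) ^ 7 * ((a : ℝ) ^ 2) ^ 8 := by gcongr
        _ = _ := by ring
    have e2 : ((2 * ((u : ℝ) + 1)) ^ y) ^ 4 ≤ q ^ a := by
      calc ((2 * ((u : ℝ) + 1)) ^ y) ^ 4 = ((2 * ((u : ℝ) + 1)) ^ 4) ^ y := by
            rw [← pow_mul, ← pow_mul, mul_comm y 4]
        _ ≤ (q ^ D) ^ y := by gcongr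
        _ = q ^ (D * y) := by rw [← pow_mul]
        _ ≤ q ^ a := pow_le_pow_right₀ hq1.le hyD
    have e3 : (6 * ((2 * k + a : ℕ) : ℝ) ^ 7 * k * (2 * ((u : ℝ) + 1)) ^ y) ^ 4 < (q ^ j) ^ 4 := by
      have f1 : (a : ℝ) ^ 64 * K < q ^ a := by
        rw [div_lt_div_iff₀ (by positivity) hK0] at hfin
        linarith
      have f2 : (q ^ a) * (q ^ a) ≤ (q ^ j) ^ 4 * q ^ 2 := by
        rw [← pow_add, ← pow_mul, ← pow_add]
        apply pow_le_pow_right₀ hq1.le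
        omega
      have f3 : (6 * ((2 * k + a : ℕ) : ℝ) ^ 7 * k * (2 * ((u : ℝ) + 1)) ^ y) ^ 4 * q ^ 2 <
          (q ^ j) ^ 4 * q ^ 2 := by
        calc (6 * ((2 * k + a : ℕ) : ℝ) ^ 7 * k * (2 * ((u : ℝ) + 1)) ^ y) ^ 4 * q ^ 2
            = (6 * ((2 * k + a : ℕ) : ℝ) ^ 7 * k) ^ 4 * ((2 * ((u : ℝ) + 1)) ^ y) ^ 4 *
              q ^ 2 := by rw [mul_pow]
          _ ≤ (6 * ((u : ℝ) + 1) ^ 7 * (a : ℝ) ^ 16) ^ 4 * q ^ a * q ^ 2 := by gcongr
          _ = (a : ℝ) ^ 64 * K * q ^ a := by rw [hK]; ring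
          _ < q ^ a * q ^ a := by
            have : 0 < q ^ a := by positivity
            gcongr
          _ ≤ _ := f2
      exact lt_of_mul_lt_mul_right f3 (by positivity)
    exact lt_of_pow_lt_pow_left₀ 4 (by positivity) e3
  -- conclusion
  have hApos : (0 : ℝ) < A := by
    rw [hA]
    exact_mod_cast Nat.choose_pos (by omega)
  have g1 : ((2 * k + a).choose k : ℝ) ≤ 2 * (A * (2 * ((u : ℝ) + 1)) ^ y) := by
    have : (2 * k + a).choose k ≤ 2 * (A * (2 * (u + 1)) ^ y) := by omega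
    exact_mod_cast this
  have g2 : (3 * ((2 * k + a : ℕ) : ℝ) ^ 7 * (k * ((2 * k + a).choose k : ℝ))) <
      A * ((k + j).choose k : ℝ) := by
    calc (3 * ((2 * k + a : ℕ) : ℝ) ^ 7 * (k * ((2 * k + a).choose k : ℝ)))
        ≤ 3 * ((2 * k + a : ℕ) : ℝ) ^ 7 * (k * (2 * (A * (2 * ((u : ℝ) + 1)) ^ y))) := by gcongr
      _ = A * (6 * ((2 * k + a : ℕ) : ℝ) ^ 7 * k * (2 * ((u : ℝ) + 1)) ^ y) := by ring
      _ < A * q ^ j := by gcongr
      _ ≤ A * ((k + j).choose k : ℝ) := by gcongr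
  exact_mod_cast g2

end Pool.Agent.Lib.MP_fffc5a_co
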