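import Mathlib
import Pool.Agent.Lib.MP_fffc5a_co.Defs
import Pool.Agent.Lib.MP_fffc5a_co.DefsC
import Pool.Agent.Lib.MP_fffc5a_co.KKTop
import Pool.Agent.Lib.MP_fffc5a_co.KKRatio
import Pool.Agent.Lib.MP_fffc5a_co.KKPow

/-!
The numerical inequality used with the Kruskal-Katona theorem.
-/

set_option autoImplicit false

open Finset

namespace Pool.Agent.Lib.MP_fffc5a_co

theorem e9_sq (C k a : ℕ) (hk : 3 ≤ k) (hC : ((C + 1 : ℕ) : ℝ) * (k * Real.log k) ≤ (a : ℝ) ^ 2) :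
    k ≤ a ^ 2 ∧ (C : ℝ) * (k * Real.log k) ≤ (a : ℝ) ^ 2 := by
  have hk3' : (3 : ℝ) ≤ (k : ℝ) := by exact_mod_cast hk
  have hlog : 1 ≤ Real.log k := by
    rw [Real.le_log_iff_exp_le (by linarith)]
    have h1 := Real.exp_one_lt_d9
    linarith
  have hkl : (k : ℝ) ≤ k * Real.log k := by nlinarith
  have hCn : (0 : ℝ) ≤ (C : ℝ) := Nat.cast_nonneg _
  push_cast at hC
  have hmul : 0 ≤ (C : ℝ) * (k * Real.log k) := by positivity
  constructor
  · have h2 : (k : ℝ) ≤ (a : ℝ) ^ 2 := by nlinarith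
    exact_mod_cast h2
  · nlinarith

theorem kk_num (u : ℕ) (hu : 2 ≤ u) : ∃ C k₀ : ℕ, ∀ k, k₀ ≤ k → ∀ a : ℕ, a ≤ (u - 1) * k →
    (C : ℝ) * (k * Real.log k) ≤ (a : ℝ) ^ 2 → ∀ y, k + a - 2 ≤ y →
    y.choose (k + a - 2) * (k + a / 2).choose k ≤
      3 * (2 * k + a) ^ 7 * (k * (2 * k + a).choose k) →
    3 * k * (y + 1).choose (k + a - 2) ≤ y.choose (k - 1) := by
  obtain ⟨D, k₁, hD, h6⟩ := kk_top u hu
  obtain ⟨C, k₂, h8⟩ := kk_pow u D hu hD
  refine ⟨C + 1, max k₁ (max k₂ 3), ?_⟩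
  intro k hk a hau hC y hy hyc
  have hk1 : k₁ ≤ k := le_trans (le_max_left _ _) hk
  have hk2 : k₂ ≤ k := le_trans (le_trans (le_max_left _ _) (le_max_right _ _)) hk
  have hk3 : 3 ≤ k := le_trans (le_trans (le_max_right _ _) (le_max_right _ _)) hk
  obtain ⟨hka, hC'⟩ := e9_sq C k a hk3 hC
  have ha2 : 2 ≤ a := by
    by_contra hcon
    have h1 : a ≤ 1 := by omega
    have h2 : a ^ 2 ≤ 1 ^ 2 := Nat.pow_le_pow_left h1 2
    omega
  have htop := h6 k hk1 a hau hka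
  have hylt : y < 2 * k + a - 1 - a / D := by
    by_contra hcon
    push Not at hcon
    have h1 : (2 * k + a - 1 - a / D).choose (k + a - 2) ≤ y.choose (k + a - 2) :=
      Nat.choose_le_choose _ hcon
    have h2 := Nat.mul_le_mul_right ((k + a / 2).choose k) h1
    omega
  obtain ⟨q, hq⟩ : ∃ q, q = a / D := ⟨_, rfl⟩
  rw [← hq] at hylt
  obtain ⟨t, ht⟩ : ∃ t, y + 1 + t = 2 * k + a - 1 := ⟨2 * k + a - 1 - (y + 1), by omega⟩
  have htk : t ≤ k := by omega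
  have ht0 : a / D ≤ t := by
    rw [← hq]
    omega
  have h7 := kk_ratio (k := k) ha2 t htk
  have h9 := h8 k hk2 a hau hC' t ht0
  have e1 : 2 * k + a - 1 - t = y + 1 := by omega
  have e2 : y + 1 - 1 = y := by omega
  rw [e1, e2] at h7
  have hpos : 0 < (k + 1) * (k + a - 1) ^ t := by
    have : 0 < k + a - 1 := by omega
    positivity
  refine Nat.le_of_mul_le_mul_right ?_ hpos
  calc 3 * k * (y + 1).choose (k + a - 2) * ((k + 1) * (k + a - 1) ^ t)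
      = 3 * ((y + 1).choose (k + a - 2) * (k * (k + 1)) * (k + a - 1) ^ t) := by ring
    _ ≤ 3 * (y.choose (k - 1) * ((2 * k + a - 1) * (k + a - 1)) * (k + 1) ^ t) :=
        Nat.mul_le_mul_left _ h7
    _ = y.choose (k - 1) * (3 * ((2 * k + a - 1) * (k + a - 1)) * (k + 1) ^ t) := by ring
    _ ≤ y.choose (k - 1) * ((k + 1) * (k + a - 1) ^ t) := Nat.mul_le_mul_left _ h9

end Pool.Agent.Lib.MP_fffc5a_co
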