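import Mathlib
import Pool.Agent.Lib.MP_fffc5a_co.Defs
import Pool.Agent.Lib.MP_fffc5a_co.DefsC

set_option autoImplicit false

/-!
Kruskal-Katona for the sets disjoint from a member of a family.
-/

open Finset
open scoped FinsetFamily

namespace Pool.Agent.Lib.MP_fffc5a_co

theorem kk_touched {α : Type*} [Fintype α] [DecidableEq α] {k a : ℕ} (hk : 1 ≤ k) (ha : 1 ≤ a)
    (hn : Fintype.card α = 2 * k + a) {x : α} {K : Finset (Finset α)}
    (hK : K ⊆ powersetCard (k + 1) (univ.erase x)) {y : ℕ} (hy : k + a - 2 ≤ y)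
    (hy' : y ≤ 2 * k + a - 1) (hKy : y.choose (k + a - 2) ≤ K.card) :
    y.choose (k - 1) ≤ (Touched K k x).card := by
  classical
  have hN : (univ.erase x : Finset α).card = 2 * k + a - 1 := by
    rw [card_erase_of_mem (mem_univ x), card_univ, hn]
  let e : (univ.erase x : Finset α) ≃ Fin (2 * k + a - 1) := Finset.equivFinOfCardEq hN
  let f : Fin (2 * k + a - 1) → α := fun j => (e.symm j : α)
  have hfinj : Function.Injective f := fun i j hij => e.symm.injective (Subtype.ext hij)
  have hfx : ∀ j, f j ∈ (univ.erase x : Finset α) := fun j => (e.symm j).2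
  have hfs : ∀ z ∈ (univ.erase x : Finset α), ∃ j, f j = z := fun z hz =>
    ⟨e ⟨z, hz⟩, by simp [f]⟩
  have hKm : ∀ W ∈ K, W ⊆ univ.erase x ∧ W.card = k + 1 := fun W hW => mem_powersetCard.1 (hK hW)
  -- the complements
  let g : Finset α → Finset (Fin (2 * k + a - 1)) := fun W => univ.filter fun j => f j ∉ W
  have hgcard : ∀ W ∈ K, (g W).card = k + a - 2 := by
    intro W hW
    obtain ⟨h1, h2⟩ := hKm W hW
    have h3 : (g W).map ⟨f, hfinj⟩ = (univ.erase x) \ W := by
      ext z
      rw [mem_map, mem_sdiff]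
      constructor
      · rintro ⟨j, hj, rfl⟩
        rw [mem_filter] at hj
        exact ⟨hfx j, hj.2⟩
      · rintro ⟨hz, hzW⟩
        obtain ⟨j, hj⟩ := hfs z hz
        refine ⟨j, ?_, hj⟩
        rw [mem_filter]
        refine ⟨mem_univ _, ?_⟩
        rw [hj]
        exact hzW
    have h4 := congrArg Finset.card h3
    rw [card_map, card_sdiff_of_subset h1, hN, h2] at h4
    omega
  have hginj : Set.InjOn g K := by
    intro W hW W' hW' hgg
    obtain ⟨h1, -⟩ := hKm W hW
    obtain ⟨h1', -⟩ := hKm W' hW'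
    ext z
    constructor
    · intro hz
      obtain ⟨j, rfl⟩ := hfs z (h1 hz)
      by_contra hc
      have h5 : j ∈ g W' := mem_filter.2 ⟨mem_univ _, hc⟩
      have hgg' : g W = g W' := hgg
      rw [← hgg'] at h5
      exact (mem_filter.1 h5).2 hz
    · intro hz
      obtain ⟨j, rfl⟩ := hfs z (h1' hz)
      by_contra hc
      have h5 : j ∈ g W := mem_filter.2 ⟨mem_univ _, hc⟩
      have hgg' : g W = g W' := hgg
      rw [hgg'] at h5
      exact (mem_filter.1 h5).2 hz
  have hsized : ((K.image g : Finset (Finset (Fin (2 * k + a - 1)))) :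
      Set (Finset (Fin (2 * k + a - 1)))).Sized (k + a - 2) := by
    intro A hA
    rw [mem_coe, mem_image] at hA
    obtain ⟨W, hW, rfl⟩ := hA
    exact hgcard W hW
  have hcard : y.choose (k + a - 2) ≤ (K.image g).card := by
    rw [card_image_of_injOn hginj]
    exact hKy
  have key := Finset.kruskal_katona_lovasz_form (i := a - 1) (by omega) hy hy' hsized hcard
  have h6 : k + a - 2 - (a - 1) = k - 1 := by omega
  rw [h6] at key
  refine key.trans ?_
  refine Finset.card_le_card_of_injOn (fun t => t.map ⟨f, hfinj⟩) ?_ ?_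
  · intro t ht
    rw [mem_coe, mem_shadow_iterate_iff_exists_mem_card_add] at ht
    obtain ⟨s, hs, hts, hcs⟩ := ht
    rw [mem_image] at hs
    obtain ⟨W, hW, rfl⟩ := hs
    rw [hgcard W hW] at hcs
    rw [mem_coe]
    unfold Touched
    rw [mem_filter, mem_powersetCard]
    refine ⟨⟨?_, ?_⟩, W, hW, ?_⟩
    · intro z hz
      rw [mem_map] at hz
      obtain ⟨j, -, rfl⟩ := hz
      exact hfx j
    · rw [card_map]
      omega
    · rw [Finset.disjoint_left]
      intro z hz hzW
      rw [mem_map] at hz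
      obtain ⟨j, hj, rfl⟩ := hz
      exact (mem_filter.1 (hts hj)).2 hzW
  · intro s _ t _ hst
    exact Finset.map_injective _ hst

end Pool.Agent.Lib.MP_fffc5a_co
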