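import Mathlib
import Pool.Agent.Lib.MP_fffc5a_co.DefsK
import Pool.Agent.Lib.MP_fffc5a_co.BonamiPoly
import Pool.Agent.Lib.MP_fffc5a_co.CubePairs
import Pool.Agent.Lib.MP_fffc5a_co.BadSum
import Pool.Agent.Lib.MP_fffc5a_co.CubeSecond
import Pool.Agent.Lib.MP_fffc5a_co.CubePoly

/-!
The level inequality: a small family of `r`-sets in a ground set of size `2 r + c` has a small
projection on the functions of low degree.
-/

set_option autoImplicit false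

open Finset

namespace Pool.Agent.Lib.MP_fffc5a_co

theorem sum_holder {ι : Type*} (s : Finset ι) {B G X : ι → ℝ} {K : ℝ} (hK : 0 ≤ K)
    (hG : ∀ i ∈ s, 0 ≤ G i) (hX : ∀ i ∈ s, 0 ≤ X i)
    (h : ∀ i ∈ s, B i ^ 4 ≤ K * G i ^ 2 * X i ^ 3) :
    (∑ i ∈ s, B i) ^ 4 ≤ K * (∑ i ∈ s, G i) ^ 2 * (∑ i ∈ s, X i) * ∑ i ∈ s, X i ^ 2 := by
  have hB : ∀ i ∈ s, B i ^ 2 ≤ G i * (Real.sqrt K * (X i * Real.sqrt (X i))) := by
    intro i hi
    have h1 : 0 ≤ G i * (Real.sqrt K * (X i * Real.sqrt (X i))) := by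
      have := hG i hi
      have := hX i hi
      positivity
    have h2 : (B i ^ 2) ^ 2 ≤ (G i * (Real.sqrt K * (X i * Real.sqrt (X i)))) ^ 2 := by
      have e1 : (G i * (Real.sqrt K * (X i * Real.sqrt (X i)))) ^ 2 = K * G i ^ 2 * X i ^ 3 := by
        have h3 := Real.sq_sqrt hK
        have h4 := Real.sq_sqrt (hX i hi)
        calc (G i * (Real.sqrt K * (X i * Real.sqrt (X i)))) ^ 2
            = G i ^ 2 * (Real.sqrt K ^ 2 * (X i ^ 2 * Real.sqrt (X i) ^ 2)) := by ring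
          _ = K * G i ^ 2 * X i ^ 3 := by rw [h3, h4]; ring
      rw [e1, ← pow_mul]
      exact h i hi
    exact le_of_sq_le_sq h2 h1
  have hS : 0 ≤ ∑ i ∈ s, X i * Real.sqrt (X i) := sum_nonneg fun i hi => by
    have := hX i hi
    positivity
  have hG0 : 0 ≤ ∑ i ∈ s, G i := sum_nonneg hG
  have h1 : (∑ i ∈ s, B i) ^ 2 ≤ (∑ i ∈ s, G i) *
      (Real.sqrt K * ∑ i ∈ s, X i * Real.sqrt (X i)) := by
    rw [mul_sum (s := s) (a := Real.sqrt K)]
    refine sum_sq_le_sum_mul_sum_of_sq_le_mul s hG (fun i hi => ?_) hB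
    have := hX i hi
    positivity
  have h2 : (∑ i ∈ s, X i * Real.sqrt (X i)) ^ 2 ≤ (∑ i ∈ s, X i) * ∑ i ∈ s, X i ^ 2 := by
    refine sum_sq_le_sum_mul_sum_of_sq_le_mul s hX (fun i _ => sq_nonneg _) (fun i hi => ?_)
    have h4 := Real.sq_sqrt (hX i hi)
    rw [mul_pow, h4]
    exact le_of_eq (by ring)
  calc (∑ i ∈ s, B i) ^ 4 = ((∑ i ∈ s, B i) ^ 2) ^ 2 := by ring
    _ ≤ ((∑ i ∈ s, G i) * (Real.sqrt K * ∑ i ∈ s, X i * Real.sqrt (X i))) ^ 2 :=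
        pow_le_pow_left₀ (sq_nonneg _) h1 2
    _ = K * (∑ i ∈ s, G i) ^ 2 * (∑ i ∈ s, X i * Real.sqrt (X i)) ^ 2 := by
        rw [mul_pow, mul_pow, Real.sq_sqrt hK]
        ring
    _ ≤ K * (∑ i ∈ s, G i) ^ 2 * ((∑ i ∈ s, X i) * ∑ i ∈ s, X i ^ 2) :=
        mul_le_mul_of_nonneg_left h2 (by positivity)
    _ = K * (∑ i ∈ s, G i) ^ 2 * (∑ i ∈ s, X i) * ∑ i ∈ s, X i ^ 2 := by ring

private theorem k9_sum_ind {β : Type*} [Fintype β] [DecidableEq β] {r : ℕ}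
    {A : Finset (Finset β)} (hA : ∀ s ∈ A, s.card = r) :
    ∑ Z ∈ powersetCard r univ, ind A Z = (A.card : ℝ) := by
  unfold ind
  rw [← sum_filter]
  have h1 : (powersetCard r (univ : Finset β)).filter (fun Z => Z ∈ A) = A := by
    ext Z
    rw [mem_filter, mem_powersetCard]
    exact ⟨fun h => h.2, fun h => ⟨⟨subset_univ _, hA Z h⟩, h⟩⟩
  rw [h1, sum_const, nsmul_eq_mul, mul_one]

private theorem k9_sum_cube {β : Type*} [Fintype β] [DecidableEq β] {r c : ℕ}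
    (hN : Fintype.card β = 2 * r + c) {e : Fin r × Bool → β}
    (he : Function.Injective e) (φ : Finset β → ℝ) :
    ∑ σ : Equiv.Perm β, ∑ δ : Fin r → Bool, φ (cset (fun q => σ (e q)) δ) =
      2 ^ r * ((r.factorial * (r + c).factorial : ℝ) * ∑ Z ∈ powersetCard r univ, φ Z) := by
  rw [sum_comm]
  have h1 : ∀ δ : Fin r → Bool, ∑ σ : Equiv.Perm β, φ (cset (fun q => σ (e q)) δ) =
      (r.factorial * (r + c).factorial : ℝ) * ∑ Z ∈ powersetCard r univ, φ Z := by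
    intro δ
    rw [cube_single he φ δ, hN]
    have h2 : 2 * r + c - r = r + c := by omega
    rw [h2]
  rw [sum_congr rfl fun δ _ => h1 δ, sum_const, nsmul_eq_mul]
  congr 1
  rw [card_univ, Fintype.card_fun, Fintype.card_bool, Fintype.card_fin]
  push_cast
  rfl

theorem level_ineq (d c : ℕ) : ∃ ε : ℝ, 0 < ε ∧ ∃ r₀ : ℕ, ∀ r : ℕ, r₀ ≤ r →
    ∀ (β : Type) [Fintype β] [DecidableEq β], Fintype.card β = 2 * r + c →
    ∀ A : Finset (Finset β), (∀ s ∈ A, s.card = r) →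
    (A.card : ℝ) ≤ ε * ((2 * r + c).choose r : ℝ) → ∀ ψ : Finset β → ℝ,
    (∑ Z ∈ powersetCard r univ, (Up^[r - d] ψ) Z * ind A Z = nsq r (Up^[r - d] ψ)) →
    nsq r (Up^[r - d] ψ) ≤ (A.card : ℝ) / 2 := by
  obtain ⟨θ, hθ, hbad⟩ := bad_sum c (show (0 : ℝ) < 8 * 9 ^ d by positivity)
  refine ⟨θ / (8 * 9 ^ d), by positivity, d + 1, ?_⟩
  intro r hr β _ _ hN A hA hAε ψ hψ
  have hr1 : 1 ≤ r := by omega
  have hdr : d ≤ r := by omega
  obtain ⟨e, he⟩ : ∃ e : Fin r × Bool → β, Function.Injective e := by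
    have h1 : Fintype.card (Fin r × Bool) ≤ Fintype.card β := by
      rw [Fintype.card_prod, Fintype.card_fin, Fintype.card_bool, hN]
      omega
    obtain ⟨e⟩ := Function.Embedding.nonempty_of_card_le h1
    exact ⟨e, e.injective⟩
  obtain ⟨g, hg⟩ : ∃ g : Finset β → ℝ, g = Up^[r - d] ψ := ⟨_, rfl⟩
  rw [← hg] at hψ ⊢
  obtain ⟨q, hq⟩ : ∃ q : ℝ, q = nsq r g := ⟨_, rfl⟩
  obtain ⟨P, hP⟩ : ∃ P : ℝ, P = (r.factorial * (r + c).factorial : ℝ) := ⟨_, rfl⟩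
  have hPpos : 0 < P := by rw [hP]; positivity
  have hq0 : 0 ≤ q := by
    rw [hq]
    exact sum_nonneg fun Z _ => sq_nonneg _
  have hcard0 : (0 : ℝ) ≤ A.card := Nat.cast_nonneg _
  have hCpos : (0 : ℝ) < ((2 * r + c).choose r : ℝ) := by
    exact_mod_cast Nat.choose_pos (by omega)
  rw [← hq] at hψ ⊢
  -- Hölder on every cube
  have hcube : ∀ σ ∈ (univ : Finset (Equiv.Perm β)),
      (∑ δ : Fin r → Bool, g (cset (fun q => σ (e q)) δ) * ind A (cset (fun q => σ (e q)) δ)) ^ 4 ≤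
      9 ^ d / 2 ^ r * (∑ δ : Fin r → Bool, g (cset (fun q => σ (e q)) δ) ^ 2) ^ 2 *
        (∑ δ : Fin r → Bool, ind A (cset (fun q => σ (e q)) δ)) ^ 3 := by
    intro σ _
    have hinj : Function.Injective (fun q => σ (e q)) := σ.injective.comp he
    have h1 : IsPoly r d (fun δ => g (cset (fun q => σ (e q)) δ)) := by
      rw [hg]
      exact cube_poly hdr hinj ψ
    have h2 := cube_holder r d (f := fun δ => ind A (cset (fun q => σ (e q)) δ)) h1 (by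
      intro δ
      show ind A _ = 0 ∨ ind A _ = 1
      unfold ind
      split_ifs
      · exact Or.inr rfl
      · exact Or.inl rfl)
    have h3 : (0 : ℝ) < 2 ^ r := by positivity
    have h4 : (9 : ℝ) ^ d / 2 ^ r * (∑ δ : Fin r → Bool, g (cset (fun q => σ (e q)) δ) ^ 2) ^ 2 *
        (∑ δ : Fin r → Bool, ind A (cset (fun q => σ (e q)) δ)) ^ 3 =
        (9 ^ d * (∑ δ : Fin r → Bool, g (cset (fun q => σ (e q)) δ) ^ 2) ^ 2 *
        (∑ δ : Fin r → Bool, ind A (cset (fun q => σ (e q)) δ)) ^ 3) / 2 ^ r := by ring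
    rw [h4, le_div_iff₀ h3, mul_comm]
    exact h2
  have hmain := sum_holder (univ : Finset (Equiv.Perm β)) (K := 9 ^ d / 2 ^ r) (by positivity)
    (fun σ _ => sum_nonneg fun δ _ => sq_nonneg _)
    (fun σ _ => sum_nonneg fun δ _ => by
      show 0 ≤ ind A _
      unfold ind
      split_ifs
      · exact zero_le_one
      · exact le_rfl) hcube
  have hB := k9_sum_cube hN he (fun Z => g Z * ind A Z)
  have hG := k9_sum_cube hN he (fun Z => g Z ^ 2)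
  have hX := k9_sum_cube hN he (fun Z => ind A Z)
  have hX2 := cube_second hN he hA hθ (show (0 : ℝ) < 8 * 9 ^ d by positivity) (hbad r hr1)
  rw [← hP] at hB hG hX hX2
  rw [hψ] at hB
  have hG' : ∑ Z ∈ powersetCard r univ, g Z ^ 2 = q := by rw [hq]; rfl
  rw [hG'] at hG
  rw [k9_sum_ind hA] at hX
  rw [hB, hG, hX] at hmain
  -- the last factor
  have hη : (A.card : ℝ) / (θ * (2 * r + c).choose r) + 1 / (8 * 9 ^ d) ≤ 1 / (4 * 9 ^ d) := by
    have h1 : (A.card : ℝ) / (θ * (2 * r + c).choose r) ≤ 1 / (8 * 9 ^ d) := by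
      rw [div_le_iff₀ (by positivity)]
      refine hAε.trans (le_of_eq ?_)
      field_simp
    have h2 : (1 : ℝ) / (8 * 9 ^ d) + 1 / (8 * 9 ^ d) = 1 / (4 * 9 ^ d) := by
      field_simp
      norm_num
    linarith
  have hX3 : ∑ σ : Equiv.Perm β, (∑ δ : Fin r → Bool, ind A (cset (fun q => σ (e q)) δ)) ^ 2 ≤
      4 ^ r * P * (A.card * (1 / (4 * 9 ^ d))) := by
    refine hX2.trans ?_
    apply mul_le_mul_of_nonneg_left _ (by positivity)
    exact mul_le_mul_of_nonneg_left hη hcard0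
  have h1 : (2 ^ r * (P * q)) ^ 4 ≤ 9 ^ d / 2 ^ r * (2 ^ r * (P * q)) ^ 2 *
      (2 ^ r * (P * A.card)) * (4 ^ r * P * (A.card * (1 / (4 * 9 ^ d)))) := by
    refine hmain.trans ?_
    exact mul_le_mul_of_nonneg_left hX3 (by positivity)
  have h4r : (4 : ℝ) ^ r = 2 ^ r * 2 ^ r := by
    rw [← mul_pow]
    norm_num
  have h2 : (9 : ℝ) ^ d / 2 ^ r * (2 ^ r * (P * q)) ^ 2 *
      (2 ^ r * (P * A.card)) * (4 ^ r * P * (A.card * (1 / (4 * 9 ^ d)))) =
      (2 ^ r) ^ 4 * P ^ 4 * (q ^ 2 * (A.card / 2) ^ 2) := by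
    rw [h4r]
    field_simp
    ring
  have h3 : (2 ^ r * (P * q)) ^ 4 = (2 ^ r) ^ 4 * P ^ 4 * (q ^ 2 * q ^ 2) := by ring
  rw [h2, h3] at h1
  have h4 : q ^ 2 * q ^ 2 ≤ q ^ 2 * ((A.card : ℝ) / 2) ^ 2 :=
    le_of_mul_le_mul_left h1 (by positivity)
  rcases hq0.eq_or_lt with h5 | h5
  · rw [← h5]
    positivity
  · have h6 : q ^ 2 ≤ ((A.card : ℝ) / 2) ^ 2 := le_of_mul_le_mul_left h4 (by positivity)
    exact le_of_sq_le_sq h6 (by positivity)

end Pool.Agent.Lib.MP_fffc5a_co
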