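import Mathlib
import Pool.Agent.Lib.MP_fffc5a_co.Defs
import Pool.Agent.Lib.MP_fffc5a_co.DefsC
import Pool.Agent.Lib.MP_fffc5a_co.DefsH

/-!
Double counts of the incidences between a family of `w`-sets and a family of `(w + 1)`-sets.
-/

set_option autoImplicit false

open Finset

namespace Pool.Agent.Lib.MP_fffc5a_co

theorem jn_add_jp {β : Type*} [DecidableEq β] {k a : ℕ} (A : Finset (Finset β))
    {M : Finset (Finset β)} (hM : ∀ Y ∈ M, Y.card = k + a) {G : Finset β} (hG : G.card = k) :
    Jn A M G + Jp A M G = a * (M.filter fun Y => G ⊆ Y).card := by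
  unfold Jn Jp
  rw [← Finset.sum_add_distrib]
  have h : ∀ Y ∈ M.filter fun Y => G ⊆ Y, ((Y \ G).filter fun y => Y.erase y ∉ A).card +
      ((Y \ G).filter fun y => Y.erase y ∈ A).card = a := by
    intro Y hY
    rw [mem_filter] at hY
    rw [add_comm, Finset.card_filter_add_card_filter_not, Finset.card_sdiff_of_subset hY.2,
      hM Y hY.1, hG]
    omega
  rw [Finset.sum_congr rfl h, Finset.sum_const, smul_eq_mul, mul_comm]

theorem jp_eq {β : Type*} [Fintype β] [DecidableEq β] {w : ℕ} {A M : Finset (Finset β)}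
    (hA : ∀ s ∈ A, s.card = w) (hM : ∀ Y ∈ M, Y.card = w + 1) :
    Jp A M ∅ = ∑ W ∈ A, (Wᶜ.filter fun z => insert z W ∈ M).card := by
  unfold Jp
  rw [← Finset.card_sigma, ← Finset.card_sigma]
  refine Finset.card_bij' (fun x _ => ⟨x.1.erase x.2, x.2⟩) (fun x _ => ⟨insert x.2 x.1, x.2⟩)
    ?_ ?_ ?_ ?_
  · rintro ⟨Y, y⟩ h
    simp only [mem_sigma, mem_filter, mem_sdiff, notMem_empty, not_false_eq_true, and_true,
      mem_compl] at h ⊢
    refine ⟨h.2.2, ?_, ?_⟩
    · simp
    · rw [Finset.insert_erase h.2.1]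
      exact h.1.1
  · rintro ⟨W, z⟩ h
    simp only [mem_sigma, mem_filter, mem_sdiff, notMem_empty, not_false_eq_true, and_true,
      mem_compl] at h ⊢
    refine ⟨⟨h.2.2, empty_subset _⟩, mem_insert_self _ _, ?_⟩
    rw [Finset.erase_insert h.2.1]
    exact h.1
  · rintro ⟨Y, y⟩ h
    simp only [mem_sigma, mem_filter, mem_sdiff, notMem_empty, not_false_eq_true, and_true] at h
    simp only [Finset.insert_erase h.2.1]
  · rintro ⟨W, z⟩ h
    simp only [mem_sigma, mem_filter, mem_compl] at h
    simp only [Finset.erase_insert h.2.1]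

theorem jp_lower {β : Type*} [Fintype β] [DecidableEq β] {w k v : ℕ} (hv : 1 ≤ v)
    {A M : Finset (Finset β)}
    (hN : Fintype.card β = w + k) (hA : ∀ s ∈ A, s.card = w) (hM : ∀ Y ∈ M, Y.card = w + 1)
    (h : ∀ W ∈ A, (Wᶜ.filter fun z => insert z W ∉ M).card ≤ v - 1) :
    A.card * k ≤ Jp A M ∅ + A.card * (v - 1) := by
  rw [jp_eq hA hM, ← smul_eq_mul, ← Finset.sum_const, ← smul_eq_mul, ← Finset.sum_const,
    ← Finset.sum_add_distrib]
  apply Finset.sum_le_sum
  intro W hW
  have h1 := h W hW
  have h2 := Finset.card_filter_add_card_filter_not (s := Wᶜ) (fun z => insert z W ∈ M)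
  have h3 : (Wᶜ).card = k := by
    rw [Finset.card_compl, hN, hA W hW]
    omega
  omega

theorem jp_upper {β : Type*} [Fintype β] [DecidableEq β] {w k : ℕ}
    {A M : Finset (Finset β)} (hN : Fintype.card β = w + k) (hA : ∀ s ∈ A, s.card = w)
    (hM : ∀ Y ∈ M, Y.card = w + 1) :
    Jp A M ∅ ≤ A.card * k := by
  rw [jp_eq hA hM, ← smul_eq_mul, ← Finset.sum_const]
  apply Finset.sum_le_sum
  intro W hW
  have h3 : (Wᶜ).card = k := by
    rw [Finset.card_compl, hN, hA W hW]
    omega
  rw [← h3]
  exact Finset.card_le_card (Finset.filter_subset _ _)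

theorem h6_le_choose (c : ℕ) : c ≤ 1 + c.choose 2 := by
  cases c with
  | zero => omega
  | succ c =>
    rw [Nat.choose_succ_succ' c 1, Nat.choose_one_right]
    omega

theorem jp_choose {β : Type*} [Fintype β] [DecidableEq β] {w : ℕ} {A M : Finset (Finset β)}
    (hA : ∀ s ∈ A, s.card = w) (hM : ∀ Y ∈ M, Y.card = w + 1) :
    Jp A M ∅ ≤ M.card + A.card.choose 2 := by
  have h1 : ∀ Y ∈ M, ((Y \ ∅).filter fun y => Y.erase y ∈ A).card ≤
      1 + (powersetCard 2 (A.filter fun W => W ⊆ Y)).card := by
    intro Y _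
    rw [Finset.card_powersetCard]
    refine le_trans ?_ (h6_le_choose _)
    apply Finset.card_le_card_of_injOn (fun y => Y.erase y)
    · intro y hy
      simp only [coe_filter, mem_sdiff, notMem_empty, not_false_eq_true, and_true,
        Set.mem_setOf_eq] at hy ⊢
      exact ⟨hy.2, Finset.erase_subset _ _⟩
    · intro y hy z hz hyz
      simp only [coe_filter, mem_sdiff, notMem_empty, not_false_eq_true, and_true,
        Set.mem_setOf_eq] at hy hz
      by_contra hne
      have h2 : z ∈ Y.erase y := Finset.mem_erase.2 ⟨fun h => hne h.symm, hz.1⟩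
      have h3 : z ∈ Y.erase z := by
        have : Y.erase y = Y.erase z := hyz
        rwa [this] at h2
      exact Finset.notMem_erase z Y h3
  have hdis : (M : Set (Finset β)).PairwiseDisjoint
      (fun Y => powersetCard 2 (A.filter fun W => W ⊆ Y)) := by
    intro Y hY Y' hY' hne
    rw [Function.onFun, Finset.disjoint_left]
    intro P hP hP'
    rw [mem_powersetCard] at hP hP'
    obtain ⟨W, W', hWW, rfl⟩ := Finset.card_eq_two.1 hP.2
    have e1 := mem_filter.1 (hP.1 (mem_insert_self W {W'}))
    have e2 := mem_filter.1 (hP.1 (mem_insert_of_mem (mem_singleton_self W')))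
    have e3 := mem_filter.1 (hP'.1 (mem_insert_self W {W'}))
    have e4 := mem_filter.1 (hP'.1 (mem_insert_of_mem (mem_singleton_self W')))
    have hcard : w + 1 ≤ (W ∪ W').card := by
      have h5 : W ⊂ W ∪ W' := by
        refine ⟨subset_union_left, fun h => hWW ?_⟩
        have h6 : W' ⊆ W := subset_union_right.trans h
        exact (Finset.eq_of_subset_of_card_le h6 (by rw [hA W e1.1, hA W' e2.1])).symm
      have h7 := Finset.card_lt_card h5
      rw [hA W e1.1] at h7
      omega
    have h8 : W ∪ W' = Y :=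
      Finset.eq_of_subset_of_card_le (union_subset e1.2 e2.2) (by rw [hM Y hY]; exact hcard)
    have h9 : W ∪ W' = Y' :=
      Finset.eq_of_subset_of_card_le (union_subset e3.2 e4.2) (by rw [hM Y' hY']; exact hcard)
    exact hne (h8.symm.trans h9)
  unfold Jp
  have h10 : (M.filter fun Y => ∅ ⊆ Y) = M := by
    apply Finset.filter_true_of_mem
    intro Y _
    exact empty_subset _
  rw [h10]
  calc ∑ Y ∈ M, ((Y \ ∅).filter fun y => Y.erase y ∈ A).card
      ≤ ∑ Y ∈ M, (1 + (powersetCard 2 (A.filter fun W => W ⊆ Y)).card) := Finset.sum_le_sum h1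
    _ = M.card + (M.biUnion fun Y => powersetCard 2 (A.filter fun W => W ⊆ Y)).card := by
        rw [Finset.sum_add_distrib, Finset.sum_const, smul_eq_mul, mul_one,
          Finset.card_biUnion (fun Y hY Y' hY' hne => hdis hY hY' hne)]
    _ ≤ M.card + A.card.choose 2 := by
        apply Nat.add_le_add_left
        rw [← Finset.card_powersetCard]
        apply Finset.card_le_card
        intro P hP
        rw [mem_biUnion] at hP
        obtain ⟨Y, _, hP⟩ := hP
        exact Finset.powersetCard_mono (Finset.filter_subset _ _) hP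

end Pool.Agent.Lib.MP_fffc5a_co
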