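import Mathlib
import Pool.Agent.Lib.MP_fffc5a_co.Defs
import Pool.Agent.Lib.MP_fffc5a_co.DefsC
import Pool.Agent.Lib.MP_fffc5a_co.DefsH

/-!
H7: numeric inequalities for the link lemma.
-/

set_option autoImplicit false

open Finset

namespace Pool.Agent.Lib.MP_fffc5a_co

theorem link_num {x y q θ η c : ℝ} (hx0 : 0 < x) (hx1 : x ≤ 1) (hy0 : 0 ≤ y) (hy1 : y ≤ 1)
    (hc : 1 ≤ c) (hθ : 0 ≤ θ) (hη : 0 ≤ η) (hcθ : 8 * c * θ ≤ 1) (hηθ : η ≤ θ)
    (h1 : x * (1 - θ) ≤ q) (h2 : y - η ≤ q) (hxb : 8 * c * η ≤ x)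
    (h3 : q ≤ x * y + (1 - 1 / (2 * c)) * ((x * (1 - y) + y * (1 - x)) / 2)) :
    1 - x ≤ 8 * c * θ := by
  have hc0 : 0 < c := by linarith
  obtain ⟨S, hS⟩ : ∃ S, S = (x * (1 - y) + y * (1 - x)) / 2 := ⟨_, rfl⟩
  rw [← hS] at h3
  have e1 : S = (x + y) / 2 - x * y := by rw [hS]; ring
  have e2 : S / (2 * c) ≤ (θ * x + η) / 2 := by
    have : (1 - 1 / (2 * c)) * S = S - S / (2 * c) := by ring
    rw [this] at h3
    linarith
  have e3 : S ≤ c * (θ * x + η) := by
    have h2c : (0 : ℝ) < 2 * c := by linarith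
    rw [div_le_iff₀ h2c] at e2
    have : (θ * x + η) / 2 * (2 * c) = c * (θ * x + η) := by ring
    linarith
  have hxy : 0 ≤ x * (1 - y) := mul_nonneg hx0.le (by linarith)
  have hyx : 0 ≤ y * (1 - x) := mul_nonneg hy0 (by linarith)
  have e4 : x * (1 - y) + y * (1 - x) ≤ 2 * c * θ * x + 2 * c * η := by
    have : x * (1 - y) + y * (1 - x) = 2 * S := by rw [hS]; ring
    rw [this]
    have : 2 * c * θ * x + 2 * c * η = 2 * (c * (θ * x + η)) := by ring
    rw [this]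
    linarith
  have e5 : 2 * c * θ * x ≤ x / 4 := by
    have := mul_le_mul_of_nonneg_right hcθ hx0.le
    linarith
  have e6 : x * (1 - y) ≤ x * (1 / 2) := by linarith
  have e7 : 1 - y ≤ 1 / 2 := le_of_mul_le_mul_left e6 hx0
  have e8 : 1 / 2 * (1 - x) ≤ y * (1 - x) :=
    mul_le_mul_of_nonneg_right (by linarith) (by linarith)
  have e9 : 2 * c * θ * x ≤ 2 * c * θ := by
    have : 0 ≤ 2 * c * θ := by positivity
    have := mul_le_mul_of_nonneg_left hx1 this
    linarith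
  have e10 : 2 * c * η ≤ 2 * c * θ := mul_le_mul_of_nonneg_left hηθ (by positivity)
  linarith

theorem link_small {u v k a w p t : ℕ} (hu : 2 ≤ u) (huv : u ≤ v) (hau : 8 * u ≤ a)
    (hak : 64 * a * v ≤ k) (hw1 : 1 ≤ w) (hw : w ≤ 32 * a * (u - 1)) (hp : w * k ≤ p + w * (v - 1))
    (ht : p ≤ t + w.choose 2) : 2 * (u - 1) * (k + a) + p ≤ a * t := by
  obtain ⟨U, rfl⟩ : ∃ U, u = U + 1 := ⟨u - 1, by omega⟩
  obtain ⟨V, rfl⟩ : ∃ V, v = V + 1 := ⟨v - 1, by omega⟩
  simp only [Nat.add_sub_cancel] at *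
  have hUR : (1 : ℝ) ≤ U := by exact_mod_cast (by omega : 1 ≤ U)
  have hUV : (U : ℝ) ≤ V := by exact_mod_cast (by omega : U ≤ V)
  have haU : 8 * ((U : ℝ) + 1) ≤ a := by exact_mod_cast hau
  have hakR : 64 * (a : ℝ) * (V + 1) ≤ k := by exact_mod_cast hak
  have hw1R : (1 : ℝ) ≤ w := by exact_mod_cast hw1
  have hwR : (w : ℝ) ≤ 32 * a * U := by exact_mod_cast hw
  have hpR : (w : ℝ) * k ≤ p + w * V := by exact_mod_cast hp
  have hch : ((w.choose 2 : ℕ) : ℝ) = w * (w - 1) / 2 := by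
    rw [Nat.cast_choose_two]
  have htR : (p : ℝ) ≤ t + w * (w - 1) / 2 := by
    rw [← hch]; exact_mod_cast ht
  have ha16 : (16 : ℝ) ≤ a := by linarith
  have ha0 : (0 : ℝ) < a := by linarith
  have hV0 : (0 : ℝ) ≤ V := by linarith
  have haV : (a : ℝ) * U ≤ a * V := mul_le_mul_of_nonneg_left hUV ha0.le
  have hak1 : 64 * (a : ℝ) * V + 64 * a ≤ k := by linarith
  have hVk : 1024 * ((V : ℝ) + 1) ≤ k := by
    have : 64 * 16 * ((V : ℝ) + 1) ≤ 64 * (a : ℝ) * (V + 1) :=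
      mul_le_mul_of_nonneg_right (by linarith) (by linarith)
    linarith
  have hk0 : (0 : ℝ) < k := by linarith
  -- p ≥ w (1023/1024) k
  have h1 : (w : ℝ) * (1023 / 1024 * k) ≤ p := by
    have : (w : ℝ) * V ≤ w * (k / 1024) := mul_le_mul_of_nonneg_left (by linarith) (by linarith)
    linarith
  -- choose term
  have h2 : (w : ℝ) * (w - 1) / 2 ≤ w * (16 * a * U) := by
    have : (w : ℝ) * (w - 1) ≤ w * (32 * a * U) := mul_le_mul_of_nonneg_left (by linarith) (by linarith)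
    linarith
  have h3 : (w : ℝ) * (16 * a * U) ≤ w * (k / 4) :=
    mul_le_mul_of_nonneg_left (by linarith) (by linarith)
  have h4 : (p : ℝ) - w * (k / 4) ≤ t := by linarith
  have h5 : (a : ℝ) * (p - w * (k / 4)) ≤ a * t := mul_le_mul_of_nonneg_left h4 ha0.le
  have h6 : (a - 1 : ℝ) * (w * (1023 / 1024 * k)) ≤ (a - 1) * p :=
    mul_le_mul_of_nonneg_left h1 (by linarith)
  have h7 : (15 / 16 * a : ℝ) * (w * (1023 / 1024 * k)) ≤ (a - 1) * (w * (1023 / 1024 * k)) :=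
    mul_le_mul_of_nonneg_right (by linarith) (by positivity)
  have h8 : (a : ℝ) * k ≤ (a * k) * w := by
    have : 0 ≤ (a : ℝ) * k := by positivity
    have := mul_le_mul_of_nonneg_left hw1R this
    linarith
  have h9 : 2 * (U : ℝ) * (k + a) ≤ 1 / 2 * (a * k) := by
    have b1 : 2 * (U : ℝ) * (k + a) ≤ (a / 4) * (k + a) :=
      mul_le_mul_of_nonneg_right (by linarith) (by linarith)
    have b2 : (a : ℝ) ≤ k := by linarith [mul_nonneg ha0.le hV0]
    have b3 : (a : ℝ) / 4 * (k + a) ≤ a / 4 * (k + k) :=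
      mul_le_mul_of_nonneg_left (by linarith) (by linarith)
    linarith
  have h10 : 2 * (U : ℝ) * (k + a) + p ≤ a * t := by
    have e1 : (15 / 16 * a : ℝ) * (w * (1023 / 1024 * k)) = 15345 / 16384 * (a * k * w) := by ring
    have e2 : (a : ℝ) * (p - w * (k / 4)) = a * p - 1 / 4 * (a * k * w) := by ring
    rw [e1] at h7
    rw [e2] at h5
    have e3 : ((a : ℝ) - 1) * p = a * p - p := by ring
    rw [e3] at h6
    have h11 : 0 ≤ (a : ℝ) * k := by positivity
    linarith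
  exact_mod_cast h10

theorem link_eta {u v k a : ℕ} (hu : 2 ≤ u) (huv : u ≤ v) (hau : 8 * u ≤ a)
    (hak : 64 * a * v ≤ k) :
    (2 * (u - 1 : ℕ) * (k + a) : ℝ) / (a * (k + a - 1).choose a) ≤ ((v - 1 : ℕ) : ℝ) / k := by
  have hv1 : 1 ≤ v := by omega
  have hak' : 64 * a ≤ k := by nlinarith
  have hk0 : 0 < k := by omega
  -- the identity
  have hid : a * (k + a - 1).choose a = k * (k + a - 1).choose (a - 1) := by
    obtain ⟨b, rfl⟩ : ∃ b, a = b + 1 := ⟨a - 1, by omega⟩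
    have h := Nat.choose_succ_right_eq (k + (b + 1) - 1) b
    have e : k + (b + 1) - 1 - b = k := by omega
    rw [e] at h
    rw [Nat.add_sub_cancel, mul_comm (b + 1), h, mul_comm]
  have hidR : (a : ℝ) * ((k + a - 1).choose a : ℝ) = k * ((k + a - 1).choose (a - 1) : ℝ) := by
    exact_mod_cast hid
  have hCpos : 0 < (k + a - 1).choose (a - 1) := Nat.choose_pos (by omega)
  have hkR : (0 : ℝ) < k := by exact_mod_cast hk0
  have hCR : (0 : ℝ) < ((k + a - 1).choose (a - 1) : ℝ) := by exact_mod_cast hCpos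
  rw [hidR, div_le_div_iff₀ (mul_pos hkR hCR) hkR]
  -- choose bound
  have hch : 2 * (k + a) ≤ (k + a - 1).choose (a - 1) := by
    have h1 : (k + a - 1).choose (a - 1) = (k + a - 1).choose k := by
      apply Nat.choose_symm_of_eq_add
      omega
    rw [h1]
    have h2 : (k + 2).choose k ≤ (k + a - 1).choose k := Nat.choose_le_choose k (by omega)
    have h3 : (k + 2).choose k = (k + 2).choose 2 := by
      apply Nat.choose_symm_of_eq_add
      omega
    have h4 : (k + 2).choose 2 = (k + 2) * (k + 1) / 2 := by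
      rw [Nat.choose_two_right]
      rfl
    have h5 : 2 * (k + a) ≤ (k + 2) * (k + 1) / 2 := by
      rw [Nat.le_div_iff_mul_le (by norm_num)]
      nlinarith
    omega
  have hnat : 2 * (u - 1) * (k + a) * k ≤ (v - 1) * (k * (k + a - 1).choose (a - 1)) := by
    have h1 : (u - 1) ≤ (v - 1) := by omega
    calc 2 * (u - 1) * (k + a) * k = (u - 1) * (k * (2 * (k + a))) := by ring
      _ ≤ (v - 1) * (k * (k + a - 1).choose (a - 1)) :=
        Nat.mul_le_mul h1 (Nat.mul_le_mul_left k hch)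
  exact_mod_cast hnat

end Pool.Agent.Lib.MP_fffc5a_co
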