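import Mathlib
import Pool.Agent.Lib.MP_fffc5a_co.Defs
import Pool.Agent.Lib.MP_fffc5a_co.DefsC
import Pool.Agent.Lib.MP_fffc5a_co.DefsH
import Pool.Agent.Lib.MP_fffc5a_co.Spec
import Pool.Agent.Lib.MP_fffc5a_co.OpSums

/-!
The spectral inequality for functions with sum zero.
-/

set_option autoImplicit false

open Finset

namespace Pool.Agent.Lib.MP_fffc5a_co

theorem spec_zero {β : Type*} [Fintype β] [DecidableEq β] (r : ℕ) (hr1 : 1 ≤ r)
    (hr : r + 1 ≤ Fintype.card β) (φ : Finset β → ℝ)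
    (h0 : ∑ Z ∈ powersetCard r univ, φ Z = 0) :
    nsq (r + 1) (Up φ) ≤ (r : ℝ) * ((Fintype.card β : ℝ) - r - 1) * nsq r φ := by
  have h1 := spec (β := β) 0 r (by omega) (by omega) φ
  have h2 := sum_dn_iter (β := β) r 0 φ
  rw [Nat.zero_add, h0, mul_zero] at h2
  simp only [Nat.factorial_zero, Nat.cast_one, one_mul, powersetCard_zero, sum_singleton] at h2
  have h3 : nsq 0 (Dn^[r - 0] φ) = 0 := by
    unfold nsq
    rw [Nat.sub_zero, powersetCard_zero, sum_singleton, h2]
    norm_num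
  rw [h3, mul_zero, add_zero] at h1
  simpa using h1

end Pool.Agent.Lib.MP_fffc5a_co
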