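import Mathlib
import Pool.Agent.Lib.MP_fffc5a_co.Defs
import Pool.Agent.Lib.MP_fffc5a_co.DefsC
import Pool.Agent.Lib.MP_fffc5a_co.DefsH
import Pool.Agent.Lib.MP_fffc5a_co.OpAdj
import Pool.Agent.Lib.MP_fffc5a_co.SpecZero

/-!
The bound for the number of incidences between a family of `r`-sets and a family of
`(r + 1)`-sets.
-/

set_option autoImplicit false

open Finset

namespace Pool.Agent.Lib.MP_fffc5a_co

/-- The number of incidences as a scalar product. -/
theorem h5_jp {β : Type*} [Fintype β] [DecidableEq β] {r : ℕ} {A Y : Finset (Finset β)}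
    (hY : ∀ s ∈ Y, s.card = r) :
    (Jp A Y ∅ : ℝ) = ∑ Z ∈ powersetCard r univ, Up (ind A) Z * ind Y Z := by
  unfold Jp
  have hf : (Y.filter fun Y => ∅ ⊆ Y) = Y := by
    apply filter_true_of_mem
    intro s _; exact empty_subset s
  rw [hf]
  push_cast
  have h1 : ∑ Z ∈ powersetCard r univ, Up (ind A) Z * ind Y Z =
      ∑ Z ∈ Y, Up (ind A) Z := by
    have hsub : Y ⊆ powersetCard r univ := by
      intro s hs; rw [mem_powersetCard]; exact ⟨subset_univ s, hY s hs⟩
    rw [← sum_subset hsub]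
    · refine sum_congr rfl fun Z hZ => ?_
      rw [ind, if_pos hZ, mul_one]
    · intro Z _ hZ
      rw [ind, if_neg hZ, mul_zero]
  rw [h1]
  refine sum_congr rfl fun Z _ => ?_
  rw [sdiff_empty, card_filter]
  push_cast
  rfl

theorem h5_sum_ind {β : Type*} [Fintype β] [DecidableEq β] {r : ℕ} {A : Finset (Finset β)}
    (hA : ∀ s ∈ A, s.card = r) : ∑ Z ∈ powersetCard r univ, ind A Z = (A.card : ℝ) := by
  have hsub : A ⊆ powersetCard r univ := by
    intro s hs; rw [mem_powersetCard]; exact ⟨subset_univ s, hA s hs⟩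
  rw [← sum_subset hsub]
  · rw [card_eq_sum_ones]
    push_cast
    refine sum_congr rfl fun Z hZ => ?_
    rw [ind, if_pos hZ]
  · intro Z _ hZ
    rw [ind, if_neg hZ]

theorem h5_card_le {β : Type*} [Fintype β] [DecidableEq β] {r : ℕ} {A : Finset (Finset β)}
    (hA : ∀ s ∈ A, s.card = r) : A.card ≤ (Fintype.card β).choose r := by
  have hsub : A ⊆ powersetCard r univ := by
    intro s hs; rw [mem_powersetCard]; exact ⟨subset_univ s, hA s hs⟩
  have := card_le_card hsub
  rwa [card_powersetCard, card_univ] at this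

/-- The square norm of the centred indicator function. -/
theorem h5_nsq {β : Type*} [Fintype β] [DecidableEq β] {r : ℕ} {A : Finset (Finset β)}
    (hA : ∀ s ∈ A, s.card = r) {x : ℝ} (hx : x * (Fintype.card β).choose r = A.card) :
    nsq r (fun Z => ind A Z - x) = (Fintype.card β).choose r * (x * (1 - x)) := by
  unfold nsq
  have h1 : ∀ Z : Finset β, (ind A Z - x) ^ 2 = ind A Z * (1 - 2 * x) + x ^ 2 := by
    intro Z
    unfold ind
    split_ifs <;> ring
  simp only [h1]
  rw [sum_add_distrib, ← sum_mul, h5_sum_ind hA, sum_const, card_powersetCard, card_univ,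
    nsmul_eq_mul, ← hx]
  ring

/-- The square norm of the centred indicator function. -/
theorem h5_sum_zero {β : Type*} [Fintype β] [DecidableEq β] {r : ℕ} {A : Finset (Finset β)}
    (hA : ∀ s ∈ A, s.card = r) {x : ℝ} (hx : x * (Fintype.card β).choose r = A.card) :
    ∑ Z ∈ powersetCard r univ, (ind A Z - x) = 0 := by
  rw [sum_sub_distrib, h5_sum_ind hA, sum_const, card_powersetCard, card_univ,
    nsmul_eq_mul, ← hx]
  ring

/-- The scalar product of the centred functions. -/
theorem h5_prod {β : Type*} [Fintype β] [DecidableEq β] {r : ℕ}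
    {A Y : Finset (Finset β)} (hr : r + 1 ≤ Fintype.card β) (hA : ∀ s ∈ A, s.card = r)
    (hY : ∀ s ∈ Y, s.card = r + 1) {x y : ℝ} (hx : x * (Fintype.card β).choose r = A.card)
    (hy : y * (Fintype.card β).choose (r + 1) = Y.card) :
    (Jp A Y ∅ : ℝ) = ((r + 1) * (Fintype.card β).choose (r + 1)) * (x * y) +
      ∑ Z ∈ powersetCard (r + 1) univ, Up (fun Z => ind A Z - x) Z * (ind Y Z - y) := by
  have hK : ((Fintype.card β).choose (r + 1) : ℝ) * (r + 1) =
      (Fintype.card β).choose r * ((Fintype.card β : ℝ) - r) := by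
    have h := Nat.choose_succ_right_eq (Fintype.card β) r
    have h2 : (((Fintype.card β).choose (r + 1) * (r + 1) : ℕ) : ℝ) =
        (((Fintype.card β).choose r * (Fintype.card β - r) : ℕ) : ℝ) := by rw [h]
    rw [Nat.cast_mul, Nat.cast_mul, Nat.cast_sub (by omega)] at h2
    push_cast at h2
    exact h2
  have hUp : ∀ Z ∈ powersetCard (r + 1) (univ : Finset β),
      Up (fun Z => ind A Z - x) Z = Up (ind A) Z - (r + 1) * x := by
    intro Z hZ
    rw [mem_powersetCard] at hZ
    unfold Up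
    rw [sum_sub_distrib, sum_const, hZ.2, nsmul_eq_mul]
    push_cast
    ring
  have hUp1 : ∑ Z ∈ powersetCard (r + 1) univ, Up (ind A) Z =
      ((Fintype.card β : ℝ) - r) * A.card := by
    have h := up_dn_adj (β := β) r (ind A) (fun _ => 1)
    simp only [mul_one] at h
    rw [h, ← h5_sum_ind hA, mul_sum]
    refine sum_congr rfl fun Z hZ => ?_
    rw [mem_powersetCard] at hZ
    unfold Dn
    rw [sum_const, card_compl, hZ.2, nsmul_eq_mul, mul_one, Nat.cast_sub (by omega)]
    ring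
  have h1 : ∑ Z ∈ powersetCard (r + 1) univ, Up (fun Z => ind A Z - x) Z * (ind Y Z - y) =
      ∑ Z ∈ powersetCard (r + 1) univ, (Up (ind A) Z * ind Y Z - y * Up (ind A) Z
        - (r + 1) * x * (ind Y Z - y)) := by
    refine sum_congr rfl fun Z hZ => ?_
    rw [hUp Z hZ]
    ring
  rw [h1, sum_sub_distrib, sum_sub_distrib, ← mul_sum, ← mul_sum, h5_sum_zero hY hy, hUp1,
    ← h5_jp hY, ← hx]
  linear_combination (-(x * y)) * hK

theorem pair_bound {β : Type*} [Fintype β] [DecidableEq β] {r : ℕ} (hr1 : 1 ≤ r)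
    (hr : r + 1 ≤ Fintype.card β) {A Y : Finset (Finset β)} (hA : ∀ s ∈ A, s.card = r)
    (hY : ∀ s ∈ Y, s.card = r + 1) {x y : ℝ} (hx : x * (Fintype.card β).choose r = A.card)
    (hy : y * (Fintype.card β).choose (r + 1) = Y.card) :
    (Jp A Y ∅ : ℝ) ≤ ((r + 1) * (Fintype.card β).choose (r + 1)) *
      (x * y + (1 - 1 / (2 * (r + 1))) * ((x * (1 - y) + y * (1 - x)) / 2)) := by
  rw [h5_prod hr hA hY hx hy]
  set N := Fintype.card β with hN
  set C := ((N.choose r : ℕ) : ℝ) with hC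
  set D := ((N.choose (r + 1) : ℕ) : ℝ) with hD
  have hCpos : 0 < C := by
    rw [hC]; exact_mod_cast Nat.choose_pos (by omega)
  have hDpos : 0 < D := by
    rw [hD]; exact_mod_cast Nat.choose_pos hr
  have hx0 : 0 ≤ x := by
    by_contra h
    push Not at h
    have : x * C < 0 := mul_neg_of_neg_of_pos h hCpos
    rw [hx] at this
    have h2 : (0 : ℝ) ≤ A.card := Nat.cast_nonneg _
    linarith
  have hx1 : x ≤ 1 := by
    have h1 : (A.card : ℝ) ≤ C := by rw [hC]; exact_mod_cast h5_card_le hA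
    rw [← hx] at h1
    by_contra h
    push Not at h
    have : 1 * C < x * C := mul_lt_mul_of_pos_right h hCpos
    linarith
  have hy0 : 0 ≤ y := by
    by_contra h
    push Not at h
    have : y * D < 0 := mul_neg_of_neg_of_pos h hDpos
    rw [hy] at this
    have h2 : (0 : ℝ) ≤ Y.card := Nat.cast_nonneg _
    linarith
  have hy1 : y ≤ 1 := by
    have h1 : (Y.card : ℝ) ≤ D := by rw [hD]; exact_mod_cast h5_card_le hY
    rw [← hy] at h1
    by_contra h
    push Not at h
    have : 1 * D < y * D := mul_lt_mul_of_pos_right h hDpos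
    linarith
  have hK : D * (r + 1) = C * ((N : ℝ) - r) := by
    have h := Nat.choose_succ_right_eq N r
    have h2 : ((N.choose (r + 1) * (r + 1) : ℕ) : ℝ) =
        ((N.choose r * (N - r) : ℕ) : ℝ) := by rw [h]
    rw [Nat.cast_mul, Nat.cast_mul, Nat.cast_sub (by omega)] at h2
    push_cast at h2
    exact h2
  set f : Finset β → ℝ := fun Z => ind A Z - x with hf
  set g : Finset β → ℝ := fun Z => ind Y Z - y with hg
  have hs0 : ∑ Z ∈ powersetCard r univ, f Z = 0 := h5_sum_zero hA hx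
  have hs := spec_zero r hr1 hr f hs0
  have hnf : nsq r f = C * (x * (1 - x)) := h5_nsq hA hx
  have hng : nsq (r + 1) g = D * (y * (1 - y)) := h5_nsq hY hy
  have hcs : (∑ Z ∈ powersetCard (r + 1) univ, Up f Z * g Z) ^ 2 ≤
      nsq (r + 1) (Up f) * nsq (r + 1) g := sum_mul_sq_le_sq_mul_sq _ _ _
  have hr0 : (1 : ℝ) ≤ r := by exact_mod_cast hr1
  have hNr : (r : ℝ) + 1 ≤ N := by exact_mod_cast hr
  have hxx : 0 ≤ x * (1 - x) := mul_nonneg hx0 (by linarith)
  have hyy : 0 ≤ y * (1 - y) := mul_nonneg hy0 (by linarith)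
  -- main square estimate
  set S : ℝ := (x * (1 - y) + y * (1 - x)) / 2 with hS
  have hS0 : 0 ≤ S := by
    have h1 : 0 ≤ x * (1 - y) := mul_nonneg hx0 (by linarith)
    have h2 : 0 ≤ y * (1 - x) := mul_nonneg hy0 (by linarith)
    rw [hS]; linarith
  have hSS : x * (1 - x) * (y * (1 - y)) ≤ S ^ 2 := by
    rw [hS]
    nlinarith [sq_nonneg (x * (1 - y) - y * (1 - x))]
  have hq : (r : ℝ) * ((N : ℝ) - r - 1) * (C * D) ≤
      ((r + 1) * D * (1 - 1 / (2 * (r + 1)))) ^ 2 := by
    have h1 : C * ((N : ℝ) - r - 1) ≤ D * (r + 1) := by rw [hK]; nlinarith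
    have h2 : (r : ℝ) * (D * (D * (r + 1))) ≤ ((r + 1) * D * (1 - 1 / (2 * (r + 1)))) ^ 2 := by
      have h3 : ((r : ℝ) + 1) * D * (1 - 1 / (2 * (r + 1))) = D * (r + 1 / 2) := by
        have : (r : ℝ) + 1 ≠ 0 := by linarith
        field_simp
        ring
      rw [h3]
      nlinarith [mul_pos hDpos hDpos]
    calc (r : ℝ) * ((N : ℝ) - r - 1) * (C * D) = (r * D) * (C * ((N : ℝ) - r - 1)) := by ring
      _ ≤ (r * D) * (D * (r + 1)) := mul_le_mul_of_nonneg_left h1 (by positivity)
      _ = (r : ℝ) * (D * (D * (r + 1))) := by ring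
      _ ≤ _ := h2
  have hfac : 0 ≤ (1 : ℝ) - 1 / (2 * (r + 1)) := by
    have : 1 / (2 * ((r : ℝ) + 1)) ≤ 1 := by
      rw [div_le_one (by linarith)]; linarith
    linarith
  have hfin : (∑ Z ∈ powersetCard (r + 1) univ, Up f Z * g Z) ^ 2 ≤
      ((r + 1) * D * (1 - 1 / (2 * (r + 1))) * S) ^ 2 := by
    calc (∑ Z ∈ powersetCard (r + 1) univ, Up f Z * g Z) ^ 2
        ≤ nsq (r + 1) (Up f) * nsq (r + 1) g := hcs
      _ ≤ ((r : ℝ) * ((N : ℝ) - r - 1) * nsq r f) * nsq (r + 1) g := by
          refine mul_le_mul_of_nonneg_right hs ?_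
          rw [hng]; positivity
      _ = ((r : ℝ) * ((N : ℝ) - r - 1) * (C * D)) * (x * (1 - x) * (y * (1 - y))) := by
          rw [hnf, hng]; ring
      _ ≤ ((r : ℝ) * ((N : ℝ) - r - 1) * (C * D)) * S ^ 2 := by
          refine mul_le_mul_of_nonneg_left hSS ?_
          have : 0 ≤ (N : ℝ) - r - 1 := by linarith
          positivity
      _ ≤ ((r + 1) * D * (1 - 1 / (2 * (r + 1)))) ^ 2 * S ^ 2 :=
          mul_le_mul_of_nonneg_right hq (sq_nonneg S)
      _ = _ := by ring
  have hle := (le_abs_self _).trans (abs_le_of_sq_le_sq hfin (by positivity))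
  have : ((r : ℝ) + 1) * D * (x * y + (1 - 1 / (2 * (r + 1))) * S) =
      (r + 1) * D * (x * y) + (r + 1) * D * (1 - 1 / (2 * (r + 1))) * S := by ring
  rw [this]
  linarith

end Pool.Agent.Lib.MP_fffc5a_co
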