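import Mathlib
import Pool.Agent.Lib.MP_fffc5a_co.Defs
import Pool.Agent.Lib.MP_fffc5a_co.DefsC
import Pool.Agent.Lib.MP_fffc5a_co.DefsH
import Pool.Agent.Lib.MP_fffc5a_co.LinkNum
import Pool.Agent.Lib.MP_fffc5a_co.LinkCount
import Pool.Agent.Lib.MP_fffc5a_co.PairBound

/-!
H8: the link lemma.
-/

set_option autoImplicit false

open Finset

namespace Pool.Agent.Lib.MP_fffc5a_co

private theorem h8_card_le {β : Type*} [Fintype β] [DecidableEq β] {m : ℕ}
    {A : Finset (Finset β)} (hA : ∀ s ∈ A, s.card = m) : A.card ≤ (Fintype.card β).choose m := by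
  have : A ⊆ powersetCard m univ := fun s hs =>
    mem_powersetCard.2 ⟨subset_univ _, hA s hs⟩
  calc A.card ≤ (powersetCard m (univ : Finset β)).card := card_le_card this
    _ = (Fintype.card β).choose m := by rw [card_powersetCard, card_univ]

theorem link_lemma {β : Type*} [Fintype β] [DecidableEq β] {u v k a : ℕ} (hu : 2 ≤ u)
    (huv : u ≤ v) (hau : 8 * u ≤ a) (hak : 64 * a * v ≤ k) (hN : Fintype.card β = k + a - 1)
    {A M : Finset (Finset β)} (hA : ∀ s ∈ A, s.card = a - 1) (hM : ∀ Y ∈ M, Y.card = a)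
    (hne : A.Nonempty) (h : ∀ W ∈ A, (Wᶜ.filter fun z => insert z W ∉ M).card ≤ v - 1) :
    2 * (u - 1) * (k + a) ≤ Jn A M ∅ ∨
      (1 - 8 * a * v / k : ℝ) * (k + a - 1).choose (a - 1) ≤ A.card := by
  have ha16 : 16 ≤ a := by omega
  have hv2 : 2 ≤ v := by omega
  have hak' : 64 * a ≤ k := by nlinarith
  have hk0 : 0 < k := by omega
  have hM' : ∀ Y ∈ M, Y.card = (a - 1) + 1 := fun Y hY => by rw [hM Y hY]; omega
  have hN' : Fintype.card β = (a - 1) + k := by rw [hN]; omega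
  by_cases hJ : 2 * (u - 1) * (k + a) ≤ Jn A M ∅
  · exact Or.inl hJ
  right
  push Not at hJ
  have hw1 : 1 ≤ A.card := hne.card_pos
  -- counts
  have c1 : Jn A M ∅ + Jp A M ∅ = a * M.card := by
    have := jn_add_jp (k := 0) (a := a) A (M := M) (fun Y hY => by rw [hM Y hY]; omega)
      (G := ∅) rfl
    rw [this, filter_true_of_mem fun Y _ => empty_subset Y]
  have c2 := jp_lower (k := k) (v := v) (by omega) hN' hA hM' h
  have c3 := jp_choose hA hM'
  have c4 := jp_upper hN' hA hM'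
  have hid : a * (k + a - 1).choose a = k * (k + a - 1).choose (a - 1) := by
    obtain ⟨b, rfl⟩ : ∃ b, a = b + 1 := ⟨a - 1, by omega⟩
    have h := Nat.choose_succ_right_eq (k + (b + 1) - 1) b
    have e : k + (b + 1) - 1 - b = k := by omega
    rw [e] at h
    rw [Nat.add_sub_cancel, mul_comm (b + 1), h, mul_comm]
  have hidR : (a : ℝ) * ((k + a - 1).choose a : ℝ) = k * ((k + a - 1).choose (a - 1) : ℝ) := by
    exact_mod_cast hid
  obtain ⟨C, hC⟩ : ∃ C : ℝ, C = ((k + a - 1).choose (a - 1) : ℝ) := ⟨_, rfl⟩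
  obtain ⟨D, hD⟩ : ∃ D : ℝ, D = ((k + a - 1).choose a : ℝ) := ⟨_, rfl⟩
  have hC0 : 0 < C := by rw [hC]; exact_mod_cast Nat.choose_pos (by omega)
  have hD0 : 0 < D := by rw [hD]; exact_mod_cast Nat.choose_pos (by omega)
  have hkR : (0 : ℝ) < k := by exact_mod_cast hk0
  have haR : (0 : ℝ) < a := by exact_mod_cast (by omega : 0 < a)
  rw [← hC, ← hD] at hidR
  obtain ⟨w, hw⟩ : ∃ w : ℝ, w = (A.card : ℝ) := ⟨_, rfl⟩
  obtain ⟨t, ht⟩ : ∃ t : ℝ, t = (M.card : ℝ) := ⟨_, rfl⟩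
  obtain ⟨p, hp⟩ : ∃ p : ℝ, p = (Jp A M ∅ : ℝ) := ⟨_, rfl⟩
  obtain ⟨J₀, hJ₀⟩ : ∃ J₀ : ℝ, J₀ = 2 * ((u - 1 : ℕ) : ℝ) * (k + a) := ⟨_, rfl⟩
  have hJ₀0 : 0 ≤ J₀ := by rw [hJ₀]; positivity
  have hw1R : 1 ≤ w := by rw [hw]; exact_mod_cast hw1
  have hwC : w ≤ C := by
    rw [hw, hC, ← hN]; exact_mod_cast h8_card_le hA
  have htD : t ≤ D := by
    rw [ht, hD, ← hN]; exact_mod_cast h8_card_le hM
  have ht0 : 0 ≤ t := by rw [ht]; positivity
  have hp0 : 0 ≤ p := by rw [hp]; positivity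
  have hpb := pair_bound (r := a - 1) (by omega) (by rw [hN]; omega) hA hM' (x := w / C)
    (y := t / D) (by rw [hN, ← hC, hw]; field_simp)
    (by rw [hN, show a - 1 + 1 = a by omega, ← hD, ht]; field_simp)
  have hcast : ((a - 1 : ℕ) : ℝ) + 1 = a := by
    have : 1 ≤ a := by omega
    push_cast [this]
    ring
  rw [hcast, hN, show a - 1 + 1 = a by omega, ← hD, ← hp] at hpb
  have hK0 : 0 < (a : ℝ) * D := mul_pos haR hD0
  obtain ⟨q, hq⟩ : ∃ q : ℝ, q = p / (a * D) := ⟨_, rfl⟩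
  have hqp : p = a * D * q := by rw [hq]; field_simp
  have hpb' : q ≤ w / C * (t / D) + (1 - 1 / (2 * (a : ℝ))) *
      ((w / C * (1 - t / D) + t / D * (1 - w / C)) / 2) := by
    rw [hqp] at hpb
    exact le_of_mul_le_mul_left hpb hK0
  -- h1
  have h1 : w / C * (1 - ((v - 1 : ℕ) : ℝ) / k) ≤ q := by
    rw [hq, le_div_iff₀ hK0, hidR]
    have e1 : w / C * (1 - ((v - 1 : ℕ) : ℝ) / k) * (k * C) = w * k - w * ((v - 1 : ℕ) : ℝ) := by
      field_simp
    rw [e1]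
    have c2' : w * k ≤ p + w * ((v - 1 : ℕ) : ℝ) := by
      rw [hw, hp]; exact_mod_cast c2
    linarith
  have h2 : t / D - J₀ / (a * D) ≤ q := by
    rw [hq, sub_le_iff_le_add, ← add_div, div_le_div_iff₀ hD0 hK0]
    have c1' : (a : ℝ) * t ≤ p + J₀ := by
      have hJR : (Jn A M ∅ : ℝ) ≤ J₀ := by
        rw [hJ₀]; exact_mod_cast hJ.le
      have : (Jn A M ∅ : ℝ) + p = a * t := by
        rw [hp, ht]; exact_mod_cast c1
      linarith
    calc t * (a * D) = (a * t) * D := by ring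
      _ ≤ (p + J₀) * D := mul_le_mul_of_nonneg_right c1' hD0.le
  have hη : J₀ / (a * D) ≤ ((v - 1 : ℕ) : ℝ) / k := by
    rw [hJ₀, hD]; exact link_eta hu huv hau hak
  have hη0 : 0 ≤ J₀ / (a * D) := by positivity
  have hθ0 : 0 ≤ ((v - 1 : ℕ) : ℝ) / k := by positivity
  have hvR : ((v - 1 : ℕ) : ℝ) ≤ v := by exact_mod_cast Nat.sub_le v 1
  have hakR : 64 * (a : ℝ) * v ≤ k := by exact_mod_cast hak
  have hcθ : 8 * (a : ℝ) * (((v - 1 : ℕ) : ℝ) / k) ≤ 1 := by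
    have e1 : 8 * (a : ℝ) * (((v - 1 : ℕ) : ℝ) / k) = (8 * a * ((v - 1 : ℕ) : ℝ)) / k := by ring
    rw [e1, div_le_one hkR]
    have : 8 * (a : ℝ) * ((v - 1 : ℕ) : ℝ) ≤ 8 * a * v :=
      mul_le_mul_of_nonneg_left hvR (by positivity)
    have h0 : 0 ≤ (a : ℝ) * v := by positivity
    linarith
  by_cases hxb : 8 * (a : ℝ) * (J₀ / (a * D)) ≤ w / C
  · have hres := link_num (x := w / C) (y := t / D) (q := q) (θ := ((v - 1 : ℕ) : ℝ) / k)
      (η := J₀ / (a * D)) (c := a) (by positivity) ((div_le_one hC0).2 hwC) (by positivity)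
      ((div_le_one hD0).2 htD) (by exact_mod_cast (by omega : 1 ≤ a)) hθ0 hη0 hcθ hη h1 h2 hxb
      hpb'
    have e1 : 8 * (a : ℝ) * (((v - 1 : ℕ) : ℝ) / k) ≤ 8 * a * v / k := by
      have e2 : 8 * (a : ℝ) * (((v - 1 : ℕ) : ℝ) / k) = (8 * a * ((v - 1 : ℕ) : ℝ)) / k := by
        ring
      rw [e2]
      exact div_le_div_of_nonneg_right (mul_le_mul_of_nonneg_left hvR (by positivity)) hkR.le
    have e3 : 1 - 8 * (a : ℝ) * v / k ≤ w / C := by linarith
    rw [le_div_iff₀ hC0] at e3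
    rw [← hw, ← hC]
    exact e3
  · exfalso
    push Not at hxb
    -- w < 32 a (u-1)
    have e1 : 8 * (a : ℝ) * (J₀ / (a * D)) = 8 * a * J₀ / (k * C) := by
      rw [hidR]; ring
    rw [e1, div_lt_div_iff₀ hC0 (mul_pos hkR hC0)] at hxb
    have e2 : w * k < 8 * a * J₀ := by
      have : w * k * C < 8 * a * J₀ * C := by
        calc w * k * C = w * (k * C) := by ring
          _ < 8 * a * J₀ * C := hxb
      exact lt_of_mul_lt_mul_right this hC0.le
    have e3 : w * k < (32 * a * ((u - 1 : ℕ) : ℝ)) * k := by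
      have hak1 : (a : ℝ) ≤ k := by exact_mod_cast (by omega : a ≤ k)
      have : 8 * (a : ℝ) * J₀ ≤ (32 * a * ((u - 1 : ℕ) : ℝ)) * k := by
        rw [hJ₀]
        have h0 : 0 ≤ 16 * (a : ℝ) * ((u - 1 : ℕ) : ℝ) := by positivity
        have := mul_le_mul_of_nonneg_left hak1 h0
        nlinarith
      linarith
    have e4 : w < 32 * a * ((u - 1 : ℕ) : ℝ) := lt_of_mul_lt_mul_right e3 hkR.le
    have e5 : A.card ≤ 32 * a * (u - 1) := by
      have : ((A.card : ℕ) : ℝ) < ((32 * a * (u - 1) : ℕ) : ℝ) := by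
        push_cast
        rw [← hw]; exact e4
      exact_mod_cast this.le
    have e6 := link_small hu huv hau hak hw1 e5 c2 c3
    omega

end Pool.Agent.Lib.MP_fffc5a_co
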