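import Mathlib
import Pool.Agent.Lib.MP_fffc5a_co.Defs
import Pool.Agent.Lib.MP_fffc5a_co.DefsC
import Pool.Agent.Lib.MP_fffc5a_co.DefsH
import Pool.Agent.Lib.MP_fffc5a_co.LinkNum
import Pool.Agent.Lib.MP_fffc5a_co.LinkCount
import Pool.Agent.Lib.MP_fffc5a_co.PairBound

/-!
K20: the link lemma for a bounded gap.
-/

set_option autoImplicit false

open Finset

namespace Pool.Agent.Lib.MP_fffc5a_co

private theorem k20_ak {a v k : ℕ} (ha : 1 ≤ a) (hv : 1 ≤ v) (hak : 10 * (a * v) ^ 2 ≤ k) :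
    10 * (a * v) ≤ k := by
  have h1 : 1 ≤ a * v := Nat.mul_pos ha hv
  nlinarith

private theorem k20_small {u v k a w p t : ℕ} (hu : 2 ≤ u) (huv : u ≤ v) (hau : u + 1 ≤ a)
    (hak : 10 * (a * v) ^ 2 ≤ k) (hw1 : 1 ≤ w) (hw : w ≤ 16 * a * (u - 1))
    (hp : w * k ≤ p + w * (v - 1)) (ht : p ≤ t + w.choose 2) :
    (u - 1) * (k + a) + p ≤ a * t := by
  obtain ⟨U, rfl⟩ : ∃ U, u = U + 1 := ⟨u - 1, by omega⟩
  obtain ⟨V, rfl⟩ : ∃ V, v = V + 1 := ⟨v - 1, by omega⟩
  simp only [Nat.add_sub_cancel] at *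
  have hUR : (1 : ℝ) ≤ U := by exact_mod_cast (by omega : 1 ≤ U)
  have hUV : (U : ℝ) ≤ V := by exact_mod_cast (by omega : U ≤ V)
  have haU : (U : ℝ) + 2 ≤ a := by exact_mod_cast (by omega : U + 2 ≤ a)
  have hakR : 10 * ((a : ℝ) * (V + 1)) ^ 2 ≤ k := by exact_mod_cast hak
  have hw1R : (1 : ℝ) ≤ w := by exact_mod_cast hw1
  have hwR : (w : ℝ) ≤ 16 * a * U := by exact_mod_cast hw
  have hpR : (w : ℝ) * k ≤ p + w * V := by exact_mod_cast hp
  have hch : ((w.choose 2 : ℕ) : ℝ) = w * (w - 1) / 2 := by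
    rw [Nat.cast_choose_two]
  have htR : (p : ℝ) ≤ t + w * (w - 1) / 2 := by
    rw [← hch]; exact_mod_cast ht
  have ha0 : (0 : ℝ) < a := by linarith
  have hV0 : (0 : ℝ) ≤ V := by linarith
  have hk0 : (0 : ℝ) ≤ k := by positivity
  -- p ≥ w (k - V)
  have h1 : (w : ℝ) * (k - V) ≤ p := by linarith
  have h2 : (w : ℝ) * (w - 1) / 2 ≤ w * (8 * a * U) := by
    have : (w : ℝ) * (w - 1) ≤ w * (16 * a * U) :=
      mul_le_mul_of_nonneg_left (by linarith) (by linarith)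
    linarith
  have h3 : (a : ℝ) * (p - w * (8 * a * U)) ≤ a * t :=
    mul_le_mul_of_nonneg_left (by linarith) ha0.le
  have h4 : (a - 1 : ℝ) * (w * (k - V)) ≤ (a - 1) * p :=
    mul_le_mul_of_nonneg_left h1 (by linarith)
  -- size of k
  have haV : (3 : ℝ) ≤ a := by linarith
  have hb1 : (U + 1 : ℝ) * V + U * a + 8 * a ^ 2 * U ≤ 10 * ((a : ℝ) * (V + 1)) ^ 2 := by
    have p1 : (U + 1 : ℝ) * V ≤ (V + 1) * (V + 1) :=
      mul_le_mul (by linarith) (by linarith) hV0 (by linarith)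
    have p2 : (U : ℝ) * a ≤ a * (V + 1) := by nlinarith
    have p3 : 8 * (a : ℝ) ^ 2 * U ≤ 8 * a ^ 2 * (V + 1) :=
      mul_le_mul_of_nonneg_left (by linarith) (by positivity)
    have hV1 : (1 : ℝ) ≤ V + 1 := by linarith
    have q1 : (V + 1 : ℝ) * (V + 1) ≤ ((a : ℝ) * (V + 1)) ^ 2 := by
      have : (V + 1 : ℝ) ≤ a * (V + 1) := by nlinarith
      calc (V + 1 : ℝ) * (V + 1) ≤ (a * (V + 1)) * (a * (V + 1)) :=
            mul_le_mul this this (by linarith) (by positivity)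
        _ = _ := by ring
    have q2 : (a : ℝ) * (V + 1) ≤ ((a : ℝ) * (V + 1)) ^ 2 := by
      have : 1 ≤ (a : ℝ) * (V + 1) := by nlinarith
      nlinarith
    have q3 : 8 * (a : ℝ) ^ 2 * (V + 1) ≤ 8 * ((a : ℝ) * (V + 1)) ^ 2 := by
      have : (V + 1 : ℝ) ≤ (V + 1) ^ 2 := by nlinarith
      have h := mul_le_mul_of_nonneg_left this (show 0 ≤ 8 * (a : ℝ) ^ 2 by positivity)
      calc 8 * (a : ℝ) ^ 2 * (V + 1) ≤ 8 * (a : ℝ) ^ 2 * (V + 1) ^ 2 := h
        _ = _ := by ring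
    linarith
  have hb2 : (U + 1 : ℝ) * V + U * a + 8 * a ^ 2 * U ≤ k := hb1.trans hakR
  -- the bracket
  have hVk : (V : ℝ) ≤ k := by nlinarith
  have h5 : (U + 1 : ℝ) * (k - V) ≤ (a - 1) * (k - V) :=
    mul_le_mul_of_nonneg_right (by linarith) (by linarith)
  have h6 : (U : ℝ) * (k + a) ≤ (a - 1) * (k - V) - 8 * a ^ 2 * U := by nlinarith
  have h7 : (a - 1 : ℝ) * (k - V) - 8 * a ^ 2 * U ≤
      w * ((a - 1) * (k - V) - 8 * a ^ 2 * U) := by
    have h0 : 0 ≤ (a - 1 : ℝ) * (k - V) - 8 * a ^ 2 * U :=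
      le_trans (by positivity) h6
    have := mul_le_mul_of_nonneg_right hw1R h0
    linarith
  have h8 : (U : ℝ) * (k + a) + p ≤ a * t := by
    have e1 : (w : ℝ) * ((a - 1) * (k - V) - 8 * a ^ 2 * U) =
        (a - 1) * (w * (k - V)) - a * (w * (8 * a * U)) := by ring
    rw [e1] at h7
    have e2 : (a : ℝ) * (p - w * (8 * a * U)) = a * p - a * (w * (8 * a * U)) := by ring
    rw [e2] at h3
    have e3 : ((a : ℝ) - 1) * p = a * p - p := by ring
    rw [e3] at h4
    linarith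
  exact_mod_cast h8

private theorem k20_eta {u v k a : ℕ} (hu : 2 ≤ u) (huv : u ≤ v) (hau : u + 1 ≤ a)
    (hak : 10 * (a * v) ^ 2 ≤ k) :
    (((u - 1 : ℕ) : ℝ) * (k + a)) / (a * (k + a - 1).choose a) ≤ ((v - 1 : ℕ) : ℝ) / k := by
  have hv1 : 1 ≤ v := by omega
  have hak0 : 10 * (a * v) ≤ k := k20_ak (by omega) (by omega) hak
  have hak' : 10 * a ≤ k := by nlinarith
  have hk0 : 0 < k := by omega
  -- the identity
  have hid : a * (k + a - 1).choose a = k * (k + a - 1).choose (a - 1) := by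
    obtain ⟨b, rfl⟩ : ∃ b, a = b + 1 := ⟨a - 1, by omega⟩
    have h := Nat.choose_succ_right_eq (k + (b + 1) - 1) b
    have e : k + (b + 1) - 1 - b = k := by omega
    rw [e] at h
    rw [Nat.add_sub_cancel, mul_comm (b + 1), h, mul_comm]
  have hidR : (a : ℝ) * ((k + a - 1).choose a : ℝ) = k * ((k + a - 1).choose (a - 1) : ℝ) := by
    exact_mod_cast hid
  have hCpos : 0 < (k + a - 1).choose (a - 1) := Nat.choose_pos (by omega)
  have hkR : (0 : ℝ) < k := by exact_mod_cast hk0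
  have hCR : (0 : ℝ) < ((k + a - 1).choose (a - 1) : ℝ) := by exact_mod_cast hCpos
  rw [hidR, div_le_div_iff₀ (mul_pos hkR hCR) hkR]
  -- choose bound
  have hch : k + a ≤ (k + a - 1).choose (a - 1) := by
    have h1 : (k + a - 1).choose (a - 1) = (k + a - 1).choose k := by
      apply Nat.choose_symm_of_eq_add
      omega
    rw [h1]
    have h2 : (k + 2).choose k ≤ (k + a - 1).choose k := Nat.choose_le_choose k (by omega)
    have h3 : (k + 2).choose k = (k + 2).choose 2 := by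
      apply Nat.choose_symm_of_eq_add
      omega
    have h4 : (k + 2).choose 2 = (k + 2) * (k + 1) / 2 := by
      rw [Nat.choose_two_right]
      rfl
    have h5 : k + a ≤ (k + 2) * (k + 1) / 2 := by
      rw [Nat.le_div_iff_mul_le (by norm_num)]
      nlinarith
    omega
  have hnat : (u - 1) * (k + a) * k ≤ (v - 1) * (k * (k + a - 1).choose (a - 1)) := by
    have h1 : (u - 1) ≤ (v - 1) := by omega
    calc (u - 1) * (k + a) * k = (u - 1) * (k * (k + a)) := by ring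
      _ ≤ (v - 1) * (k * (k + a - 1).choose (a - 1)) :=
        Nat.mul_le_mul h1 (Nat.mul_le_mul_left k hch)
  exact_mod_cast hnat


private theorem k20_card_le {β : Type*} [Fintype β] [DecidableEq β] {m : ℕ}
    {A : Finset (Finset β)} (hA : ∀ s ∈ A, s.card = m) : A.card ≤ (Fintype.card β).choose m := by
  have : A ⊆ powersetCard m univ := fun s hs =>
    mem_powersetCard.2 ⟨subset_univ _, hA s hs⟩
  calc A.card ≤ (powersetCard m (univ : Finset β)).card := card_le_card this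
    _ = (Fintype.card β).choose m := by rw [card_powersetCard, card_univ]

theorem k20_link {β : Type*} [Fintype β] [DecidableEq β] {u v k a : ℕ} (hu : 2 ≤ u)
    (huv : u ≤ v) (hau : u + 1 ≤ a) (hak : 10 * (a * v) ^ 2 ≤ k) (hN : Fintype.card β = k + a - 1)
    {A M : Finset (Finset β)} (hA : ∀ s ∈ A, s.card = a - 1) (hM : ∀ Y ∈ M, Y.card = a)
    (hne : A.Nonempty) (h : ∀ W ∈ A, (Wᶜ.filter fun z => insert z W ∉ M).card ≤ v - 1) :
    (u - 1) * (k + a) ≤ Jn A M ∅ ∨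
      (1 - 8 * a * v / k : ℝ) * (k + a - 1).choose (a - 1) ≤ A.card := by
  have ha3 : 3 ≤ a := by omega
  have hv2 : 2 ≤ v := by omega
  have hak0 : 10 * (a * v) ≤ k := k20_ak (by omega) (by omega) hak
  have hak' : a ≤ k := by nlinarith
  have hk0 : 0 < k := by omega
  have hM' : ∀ Y ∈ M, Y.card = (a - 1) + 1 := fun Y hY => by rw [hM Y hY]; omega
  have hN' : Fintype.card β = (a - 1) + k := by rw [hN]; omega
  by_cases hJ : (u - 1) * (k + a) ≤ Jn A M ∅
  · exact Or.inl hJ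
  right
  push Not at hJ
  have hw1 : 1 ≤ A.card := hne.card_pos
  -- counts
  have c1 : Jn A M ∅ + Jp A M ∅ = a * M.card := by
    have := jn_add_jp (k := 0) (a := a) A (M := M) (fun Y hY => by rw [hM Y hY]; omega)
      (G := ∅) rfl
    rw [this, filter_true_of_mem fun Y _ => empty_subset Y]
  have c2 := jp_lower (k := k) (v := v) (by omega) hN' hA hM' h
  have c3 := jp_choose hA hM'
  have c4 := jp_upper hN' hA hM'
  have hid : a * (k + a - 1).choose a = k * (k + a - 1).choose (a - 1) := by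
    obtain ⟨b, rfl⟩ : ∃ b, a = b + 1 := ⟨a - 1, by omega⟩
    have h := Nat.choose_succ_right_eq (k + (b + 1) - 1) b
    have e : k + (b + 1) - 1 - b = k := by omega
    rw [e] at h
    rw [Nat.add_sub_cancel, mul_comm (b + 1), h, mul_comm]
  have hidR : (a : ℝ) * ((k + a - 1).choose a : ℝ) = k * ((k + a - 1).choose (a - 1) : ℝ) := by
    exact_mod_cast hid
  obtain ⟨C, hC⟩ : ∃ C : ℝ, C = ((k + a - 1).choose (a - 1) : ℝ) := ⟨_, rfl⟩
  obtain ⟨D, hD⟩ : ∃ D : ℝ, D = ((k + a - 1).choose a : ℝ) := ⟨_, rfl⟩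
  have hC0 : 0 < C := by rw [hC]; exact_mod_cast Nat.choose_pos (by omega)
  have hD0 : 0 < D := by rw [hD]; exact_mod_cast Nat.choose_pos (by omega)
  have hkR : (0 : ℝ) < k := by exact_mod_cast hk0
  have haR : (0 : ℝ) < a := by exact_mod_cast (by omega : 0 < a)
  rw [← hC, ← hD] at hidR
  obtain ⟨w, hw⟩ : ∃ w : ℝ, w = (A.card : ℝ) := ⟨_, rfl⟩
  obtain ⟨t, ht⟩ : ∃ t : ℝ, t = (M.card : ℝ) := ⟨_, rfl⟩
  obtain ⟨p, hp⟩ : ∃ p : ℝ, p = (Jp A M ∅ : ℝ) := ⟨_, rfl⟩
  obtain ⟨J₀, hJ₀⟩ : ∃ J₀ : ℝ, J₀ = ((u - 1 : ℕ) : ℝ) * (k + a) := ⟨_, rfl⟩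
  have hJ₀0 : 0 ≤ J₀ := by rw [hJ₀]; positivity
  have hw1R : 1 ≤ w := by rw [hw]; exact_mod_cast hw1
  have hwC : w ≤ C := by
    rw [hw, hC, ← hN]; exact_mod_cast k20_card_le hA
  have htD : t ≤ D := by
    rw [ht, hD, ← hN]; exact_mod_cast k20_card_le hM
  have ht0 : 0 ≤ t := by rw [ht]; positivity
  have hp0 : 0 ≤ p := by rw [hp]; positivity
  have hpb := pair_bound (r := a - 1) (by omega) (by rw [hN]; omega) hA hM' (x := w / C)
    (y := t / D) (by rw [hN, ← hC, hw]; field_simp)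
    (by rw [hN, show a - 1 + 1 = a by omega, ← hD, ht]; field_simp)
  have hcast : ((a - 1 : ℕ) : ℝ) + 1 = a := by
    have : 1 ≤ a := by omega
    push_cast [this]
    ring
  rw [hcast, hN, show a - 1 + 1 = a by omega, ← hD, ← hp] at hpb
  have hK0 : 0 < (a : ℝ) * D := mul_pos haR hD0
  obtain ⟨q, hq⟩ : ∃ q : ℝ, q = p / (a * D) := ⟨_, rfl⟩
  have hqp : p = a * D * q := by rw [hq]; field_simp
  have hpb' : q ≤ w / C * (t / D) + (1 - 1 / (2 * (a : ℝ))) *
      ((w / C * (1 - t / D) + t / D * (1 - w / C)) / 2) := by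
    rw [hqp] at hpb
    exact le_of_mul_le_mul_left hpb hK0
  -- h1
  have h1 : w / C * (1 - ((v - 1 : ℕ) : ℝ) / k) ≤ q := by
    rw [hq, le_div_iff₀ hK0, hidR]
    have e1 : w / C * (1 - ((v - 1 : ℕ) : ℝ) / k) * (k * C) = w * k - w * ((v - 1 : ℕ) : ℝ) := by
      field_simp
    rw [e1]
    have c2' : w * k ≤ p + w * ((v - 1 : ℕ) : ℝ) := by
      rw [hw, hp]; exact_mod_cast c2
    linarith
  have h2 : t / D - J₀ / (a * D) ≤ q := by
    rw [hq, sub_le_iff_le_add, ← add_div, div_le_div_iff₀ hD0 hK0]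
    have c1' : (a : ℝ) * t ≤ p + J₀ := by
      have hJR : (Jn A M ∅ : ℝ) ≤ J₀ := by
        rw [hJ₀]; exact_mod_cast hJ.le
      have : (Jn A M ∅ : ℝ) + p = a * t := by
        rw [hp, ht]; exact_mod_cast c1
      linarith
    calc t * (a * D) = (a * t) * D := by ring
      _ ≤ (p + J₀) * D := mul_le_mul_of_nonneg_right c1' hD0.le
  have hη : J₀ / (a * D) ≤ ((v - 1 : ℕ) : ℝ) / k := by
    rw [hJ₀, hD]; exact k20_eta hu huv hau hak
  have hη0 : 0 ≤ J₀ / (a * D) := by positivity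
  have hθ0 : 0 ≤ ((v - 1 : ℕ) : ℝ) / k := by positivity
  have hvR : ((v - 1 : ℕ) : ℝ) ≤ v := by exact_mod_cast Nat.sub_le v 1
  have hakR : 10 * ((a : ℝ) * v) ≤ k := by exact_mod_cast hak0
  have hcθ : 8 * (a : ℝ) * (((v - 1 : ℕ) : ℝ) / k) ≤ 1 := by
    have e1 : 8 * (a : ℝ) * (((v - 1 : ℕ) : ℝ) / k) = (8 * a * ((v - 1 : ℕ) : ℝ)) / k := by ring
    rw [e1, div_le_one hkR]
    have : 8 * (a : ℝ) * ((v - 1 : ℕ) : ℝ) ≤ 8 * a * v :=
      mul_le_mul_of_nonneg_left hvR (by positivity)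
    have h0 : 0 ≤ (a : ℝ) * v := by positivity
    linarith
  by_cases hxb : 8 * (a : ℝ) * (J₀ / (a * D)) ≤ w / C
  · have hres := link_num (x := w / C) (y := t / D) (q := q) (θ := ((v - 1 : ℕ) : ℝ) / k)
      (η := J₀ / (a * D)) (c := a) (by positivity) ((div_le_one hC0).2 hwC) (by positivity)
      ((div_le_one hD0).2 htD) (by exact_mod_cast (by omega : 1 ≤ a)) hθ0 hη0 hcθ hη h1 h2 hxb
      hpb'
    have e1 : 8 * (a : ℝ) * (((v - 1 : ℕ) : ℝ) / k) ≤ 8 * a * v / k := by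
      have e2 : 8 * (a : ℝ) * (((v - 1 : ℕ) : ℝ) / k) = (8 * a * ((v - 1 : ℕ) : ℝ)) / k := by
        ring
      rw [e2]
      exact div_le_div_of_nonneg_right (mul_le_mul_of_nonneg_left hvR (by positivity)) hkR.le
    have e3 : 1 - 8 * (a : ℝ) * v / k ≤ w / C := by linarith
    rw [le_div_iff₀ hC0] at e3
    rw [← hw, ← hC]
    exact e3
  · exfalso
    push Not at hxb
    -- w < 16 a (u-1)
    have e1 : 8 * (a : ℝ) * (J₀ / (a * D)) = 8 * a * J₀ / (k * C) := by
      rw [hidR]; ring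
    rw [e1, div_lt_div_iff₀ hC0 (mul_pos hkR hC0)] at hxb
    have e2 : w * k < 8 * a * J₀ := by
      have : w * k * C < 8 * a * J₀ * C := by
        calc w * k * C = w * (k * C) := by ring
          _ < 8 * a * J₀ * C := hxb
      exact lt_of_mul_lt_mul_right this hC0.le
    have e3 : w * k < (16 * a * ((u - 1 : ℕ) : ℝ)) * k := by
      have hak1 : (a : ℝ) ≤ k := by exact_mod_cast hak'
      have : 8 * (a : ℝ) * J₀ ≤ (16 * a * ((u - 1 : ℕ) : ℝ)) * k := by
        rw [hJ₀]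
        have h0 : 0 ≤ 8 * (a : ℝ) * ((u - 1 : ℕ) : ℝ) := by positivity
        have := mul_le_mul_of_nonneg_left hak1 h0
        nlinarith
      linarith
    have e4 : w < 16 * a * ((u - 1 : ℕ) : ℝ) := lt_of_mul_lt_mul_right e3 hkR.le
    have e5 : A.card ≤ 16 * a * (u - 1) := by
      have : ((A.card : ℕ) : ℝ) < ((16 * a * (u - 1) : ℕ) : ℝ) := by
        push_cast
        rw [← hw]; exact e4
      exact_mod_cast this.le
    have e6 := k20_small hu huv hau hak hw1 e5 c2 c3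
    omega



/-- the union of `G` and a set of the link -/
private def k20Phi {β : Type*} [DecidableEq β] (G : Finset β)
    (Q : Finset {y : β // y ∉ G}) : Finset β := G ∪ Q.map (Function.Embedding.subtype _)

private theorem k20_map_disj {β : Type*} [DecidableEq β] (G : Finset β)
    (Q : Finset {y : β // y ∉ G}) : Disjoint G (Q.map (Function.Embedding.subtype _)) := by
  rw [disjoint_left]
  intro y hy hy'
  obtain ⟨q, _, hq⟩ := mem_map.1 hy'
  exact q.2 (by rw [← hq] at hy; exact hy)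

private theorem k20_card {β : Type*} [DecidableEq β] (G : Finset β)
    (Q : Finset {y : β // y ∉ G}) : (k20Phi G Q).card = G.card + Q.card := by
  unfold k20Phi
  rw [card_union_of_disjoint (k20_map_disj G Q), card_map]

private theorem k20_sdiff {β : Type*} [DecidableEq β] (G : Finset β)
    (Q : Finset {y : β // y ∉ G}) :
    k20Phi G Q \ G = Q.map (Function.Embedding.subtype _) := by
  unfold k20Phi
  rw [union_sdiff_left]
  exact sdiff_eq_self_of_disjoint (k20_map_disj G Q).symm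

private theorem k20_inj {β : Type*} [DecidableEq β] (G : Finset β) :
    Function.Injective (k20Phi G) := by
  intro Q Q' h
  have h1 : k20Phi G Q \ G = k20Phi G Q' \ G := by rw [h]
  rw [k20_sdiff, k20_sdiff] at h1
  exact map_injective _ h1

private theorem k20_surj {β : Type*} [DecidableEq β] {G W : Finset β} (h : G ⊆ W) :
    ∃ Q : Finset {y : β // y ∉ G}, k20Phi G Q = W := by
  refine ⟨W.subtype _, ?_⟩
  unfold k20Phi
  ext y
  rw [mem_union, mem_map]
  constructor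
  · rintro (hy | ⟨q, hq, rfl⟩)
    · exact h hy
    · exact mem_subtype.1 hq
  · intro hy
    by_cases hG : y ∈ G
    · exact Or.inl hG
    · exact Or.inr ⟨⟨y, hG⟩, mem_subtype.2 hy, rfl⟩

private theorem k20_sub {β : Type*} [DecidableEq β] (G : Finset β)
    (Q : Finset {y : β // y ∉ G}) : G ⊆ k20Phi G Q := subset_union_left

private theorem k20_mem {β : Type*} [DecidableEq β] (G : Finset β)
    (Q : Finset {y : β // y ∉ G}) (z : {y : β // y ∉ G}) : (z : β) ∈ k20Phi G Q ↔ z ∈ Q := by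
  unfold k20Phi
  rw [mem_union, mem_map]
  constructor
  · rintro (hy | ⟨q, hq, hqz⟩)
    · exact absurd hy z.2
    · have : q = z := Subtype.ext hqz
      rw [← this]; exact hq
  · intro hz
    exact Or.inr ⟨z, hz, rfl⟩

private theorem k20_insert {β : Type*} [DecidableEq β] (G : Finset β)
    (Q : Finset {y : β // y ∉ G}) (z : {y : β // y ∉ G}) :
    k20Phi G (insert z Q) = insert (z : β) (k20Phi G Q) := by
  unfold k20Phi
  rw [map_insert, union_insert]
  rfl

private theorem k20_erase {β : Type*} [DecidableEq β] (G : Finset β)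
    (Q : Finset {y : β // y ∉ G}) (z : {y : β // y ∉ G}) :
    k20Phi G (Q.erase z) = (k20Phi G Q).erase (z : β) := by
  unfold k20Phi
  rw [map_erase, erase_union_distrib, erase_eq_of_notMem z.2]
  rfl

private theorem k20_filter {β : Type*} [Fintype β] [DecidableEq β] (G : Finset β)
    (A : Finset (Finset β)) :
    A.filter (fun W => G ⊆ W) =
      (univ.filter fun Q : Finset {y : β // y ∉ G} => k20Phi G Q ∈ A).image (k20Phi G) := by
  ext W
  rw [mem_filter, mem_image]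
  constructor
  · rintro ⟨hW, hG⟩
    obtain ⟨Q, hQ⟩ := k20_surj hG
    exact ⟨Q, mem_filter.2 ⟨mem_univ _, by rw [hQ]; exact hW⟩, hQ⟩
  · rintro ⟨Q, hQ, rfl⟩
    exact ⟨(mem_filter.1 hQ).2, k20_sub G Q⟩

theorem link_const {β : Type*} [Fintype β] [DecidableEq β] {u v k a : ℕ} (hu : 2 ≤ u)
    (huv : u ≤ v) (hau : u + 1 ≤ a) (hak : 10 * (a * v) ^ 2 ≤ k)
    (hN : Fintype.card β = 2 * k + a - 1) {A M : Finset (Finset β)}
    (hA : ∀ s ∈ A, s.card = k + a - 1) (hM : ∀ Y ∈ M, Y.card = k + a)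
    (h : ∀ W ∈ A, (Wᶜ.filter fun z => insert z W ∉ M).card ≤ v - 1) {G : Finset β}
    (hG : G.card = k) (hne : ∃ W ∈ A, G ⊆ W) :
    (u - 1) * (k + a) ≤ Jn A M G ∨
      (1 - 8 * a * v / k : ℝ) * (k + a - 1).choose (a - 1) ≤
        ((A.filter fun W => G ⊆ W).card : ℝ) := by
  have hcard : Fintype.card {y : β // y ∉ G} = k + a - 1 := by
    rw [Fintype.card_subtype_compl, hN, Fintype.card_coe, hG]
    omega
  obtain ⟨A', hA'⟩ : ∃ A' : Finset (Finset {y : β // y ∉ G}),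
    A' = univ.filter fun Q => k20Phi G Q ∈ A := ⟨_, rfl⟩
  obtain ⟨M', hM'⟩ : ∃ M' : Finset (Finset {y : β // y ∉ G}),
    M' = univ.filter fun Q => k20Phi G Q ∈ M := ⟨_, rfl⟩
  have mA : ∀ Q, Q ∈ A' ↔ k20Phi G Q ∈ A := fun Q => by
    rw [hA', mem_filter]; exact ⟨fun h => h.2, fun h => ⟨mem_univ _, h⟩⟩
  have mM : ∀ Q, Q ∈ M' ↔ k20Phi G Q ∈ M := fun Q => by
    rw [hM', mem_filter]; exact ⟨fun h => h.2, fun h => ⟨mem_univ _, h⟩⟩
  have cA : ∀ s ∈ A', s.card = a - 1 := by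
    intro s hs
    have h1 := hA _ ((mA s).1 hs)
    rw [k20_card, hG] at h1
    omega
  have cM : ∀ s ∈ M', s.card = a := by
    intro s hs
    have h1 := hM _ ((mM s).1 hs)
    rw [k20_card, hG] at h1
    omega
  have hne' : A'.Nonempty := by
    obtain ⟨W, hW, hGW⟩ := hne
    obtain ⟨Q, hQ⟩ := k20_surj hGW
    exact ⟨Q, (mA Q).2 (by rw [hQ]; exact hW)⟩
  have h' : ∀ W ∈ A', (Wᶜ.filter fun z => insert z W ∉ M').card ≤ v - 1 := by
    intro W hW
    refine le_trans ?_ (h _ ((mA W).1 hW))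
    refine card_le_card_of_injOn (fun z => (z : β)) ?_ (fun x _ y _ hxy => Subtype.ext hxy)
    intro z hz
    have hz' := mem_filter.1 (mem_coe.1 hz)
    refine mem_coe.2 (mem_filter.2 ⟨?_, ?_⟩)
    · rw [mem_compl, k20_mem]
      exact mem_compl.1 hz'.1
    · rw [← k20_insert, ← mM]
      exact hz'.2
  have hAcard : A'.card = (A.filter fun W => G ⊆ W).card := by
    rw [k20_filter, card_image_of_injective _ (k20_inj G), hA']
  have hJ : Jn A' M' ∅ = Jn A M G := by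
    unfold Jn
    rw [k20_filter G M, ← hM', sum_image fun x _ y _ hxy => k20_inj G hxy,
      filter_true_of_mem fun Y _ => empty_subset Y]
    refine sum_congr rfl fun Q _ => ?_
    rw [k20_sdiff, sdiff_empty, filter_map, card_map]
    congr 1
    refine filter_congr fun z _ => ?_
    rw [mA, k20_erase]
    rfl
  rw [← hJ, ← hAcard]
  exact k20_link hu huv hau hak hcard cA cM hne' h'


end Pool.Agent.Lib.MP_fffc5a_co
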