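import Mathlib
import Pool.Agent.Lib.MP_fffc5a_co.Defs
import Pool.Agent.Lib.MP_fffc5a_co.DefsC
import Pool.Agent.Lib.MP_fffc5a_co.DefsH
import Pool.Agent.Lib.MP_fffc5a_co.Link

/-!
H9: transfer of the link lemma to the link of a `k`-set.
-/

set_option autoImplicit false

open Finset

namespace Pool.Agent.Lib.MP_fffc5a_co

/-- the union of `G` and a set of the link -/
private def h9Phi {β : Type*} [DecidableEq β] (G : Finset β)
    (Q : Finset {y : β // y ∉ G}) : Finset β := G ∪ Q.map (Function.Embedding.subtype _)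

private theorem h9_map_disj {β : Type*} [DecidableEq β] (G : Finset β)
    (Q : Finset {y : β // y ∉ G}) : Disjoint G (Q.map (Function.Embedding.subtype _)) := by
  rw [disjoint_left]
  intro y hy hy'
  obtain ⟨q, _, hq⟩ := mem_map.1 hy'
  exact q.2 (by rw [← hq] at hy; exact hy)

private theorem h9_card {β : Type*} [DecidableEq β] (G : Finset β)
    (Q : Finset {y : β // y ∉ G}) : (h9Phi G Q).card = G.card + Q.card := by
  unfold h9Phi
  rw [card_union_of_disjoint (h9_map_disj G Q), card_map]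

private theorem h9_sdiff {β : Type*} [DecidableEq β] (G : Finset β)
    (Q : Finset {y : β // y ∉ G}) :
    h9Phi G Q \ G = Q.map (Function.Embedding.subtype _) := by
  unfold h9Phi
  rw [union_sdiff_left]
  exact sdiff_eq_self_of_disjoint (h9_map_disj G Q).symm

private theorem h9_inj {β : Type*} [DecidableEq β] (G : Finset β) :
    Function.Injective (h9Phi G) := by
  intro Q Q' h
  have h1 : h9Phi G Q \ G = h9Phi G Q' \ G := by rw [h]
  rw [h9_sdiff, h9_sdiff] at h1
  exact map_injective _ h1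

private theorem h9_surj {β : Type*} [DecidableEq β] {G W : Finset β} (h : G ⊆ W) :
    ∃ Q : Finset {y : β // y ∉ G}, h9Phi G Q = W := by
  refine ⟨W.subtype _, ?_⟩
  unfold h9Phi
  ext y
  rw [mem_union, mem_map]
  constructor
  · rintro (hy | ⟨q, hq, rfl⟩)
    · exact h hy
    · exact mem_subtype.1 hq
  · intro hy
    by_cases hG : y ∈ G
    · exact Or.inl hG
    · exact Or.inr ⟨⟨y, hG⟩, mem_subtype.2 hy, rfl⟩

private theorem h9_sub {β : Type*} [DecidableEq β] (G : Finset β)
    (Q : Finset {y : β // y ∉ G}) : G ⊆ h9Phi G Q := subset_union_left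

private theorem h9_mem {β : Type*} [DecidableEq β] (G : Finset β)
    (Q : Finset {y : β // y ∉ G}) (z : {y : β // y ∉ G}) : (z : β) ∈ h9Phi G Q ↔ z ∈ Q := by
  unfold h9Phi
  rw [mem_union, mem_map]
  constructor
  · rintro (hy | ⟨q, hq, hqz⟩)
    · exact absurd hy z.2
    · have : q = z := Subtype.ext hqz
      rw [← this]; exact hq
  · intro hz
    exact Or.inr ⟨z, hz, rfl⟩

private theorem h9_insert {β : Type*} [DecidableEq β] (G : Finset β)
    (Q : Finset {y : β // y ∉ G}) (z : {y : β // y ∉ G}) :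
    h9Phi G (insert z Q) = insert (z : β) (h9Phi G Q) := by
  unfold h9Phi
  rw [map_insert, union_insert]
  rfl

private theorem h9_erase {β : Type*} [DecidableEq β] (G : Finset β)
    (Q : Finset {y : β // y ∉ G}) (z : {y : β // y ∉ G}) :
    h9Phi G (Q.erase z) = (h9Phi G Q).erase (z : β) := by
  unfold h9Phi
  rw [map_erase, erase_union_distrib, erase_eq_of_notMem z.2]
  rfl

private theorem h9_filter {β : Type*} [Fintype β] [DecidableEq β] (G : Finset β)
    (A : Finset (Finset β)) :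
    A.filter (fun W => G ⊆ W) =
      (univ.filter fun Q : Finset {y : β // y ∉ G} => h9Phi G Q ∈ A).image (h9Phi G) := by
  ext W
  rw [mem_filter, mem_image]
  constructor
  · rintro ⟨hW, hG⟩
    obtain ⟨Q, hQ⟩ := h9_surj hG
    exact ⟨Q, mem_filter.2 ⟨mem_univ _, by rw [hQ]; exact hW⟩, hQ⟩
  · rintro ⟨Q, hQ, rfl⟩
    exact ⟨(mem_filter.1 hQ).2, h9_sub G Q⟩

theorem link_transfer {β : Type*} [Fintype β] [DecidableEq β] {u v k a : ℕ} (hu : 2 ≤ u)
    (huv : u ≤ v) (hau : 8 * u ≤ a) (hak : 64 * a * v ≤ k)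
    (hN : Fintype.card β = 2 * k + a - 1) {A M : Finset (Finset β)}
    (hA : ∀ s ∈ A, s.card = k + a - 1) (hM : ∀ Y ∈ M, Y.card = k + a)
    (h : ∀ W ∈ A, (Wᶜ.filter fun z => insert z W ∉ M).card ≤ v - 1) {G : Finset β}
    (hG : G.card = k) (hne : ∃ W ∈ A, G ⊆ W) :
    2 * (u - 1) * (k + a) ≤ Jn A M G ∨
      (1 - 8 * a * v / k : ℝ) * (k + a - 1).choose (a - 1) ≤
        ((A.filter fun W => G ⊆ W).card : ℝ) := by
  have ha16 : 16 ≤ a := by omega
  have hcard : Fintype.card {y : β // y ∉ G} = k + a - 1 := by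
    rw [Fintype.card_subtype_compl, hN, Fintype.card_coe, hG]
    omega
  obtain ⟨A', hA'⟩ : ∃ A' : Finset (Finset {y : β // y ∉ G}),
    A' = univ.filter fun Q => h9Phi G Q ∈ A := ⟨_, rfl⟩
  obtain ⟨M', hM'⟩ : ∃ M' : Finset (Finset {y : β // y ∉ G}),
    M' = univ.filter fun Q => h9Phi G Q ∈ M := ⟨_, rfl⟩
  have mA : ∀ Q, Q ∈ A' ↔ h9Phi G Q ∈ A := fun Q => by
    rw [hA', mem_filter]; exact ⟨fun h => h.2, fun h => ⟨mem_univ _, h⟩⟩
  have mM : ∀ Q, Q ∈ M' ↔ h9Phi G Q ∈ M := fun Q => by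
    rw [hM', mem_filter]; exact ⟨fun h => h.2, fun h => ⟨mem_univ _, h⟩⟩
  have cA : ∀ s ∈ A', s.card = a - 1 := by
    intro s hs
    have h1 := hA _ ((mA s).1 hs)
    rw [h9_card, hG] at h1
    omega
  have cM : ∀ s ∈ M', s.card = a := by
    intro s hs
    have h1 := hM _ ((mM s).1 hs)
    rw [h9_card, hG] at h1
    omega
  have hne' : A'.Nonempty := by
    obtain ⟨W, hW, hGW⟩ := hne
    obtain ⟨Q, hQ⟩ := h9_surj hGW
    exact ⟨Q, (mA Q).2 (by rw [hQ]; exact hW)⟩
  have h' : ∀ W ∈ A', (Wᶜ.filter fun z => insert z W ∉ M').card ≤ v - 1 := by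
    intro W hW
    refine le_trans ?_ (h _ ((mA W).1 hW))
    refine card_le_card_of_injOn (fun z => (z : β)) ?_ (fun x _ y _ hxy => Subtype.ext hxy)
    intro z hz
    have hz' := mem_filter.1 (mem_coe.1 hz)
    refine mem_coe.2 (mem_filter.2 ⟨?_, ?_⟩)
    · rw [mem_compl, h9_mem]
      exact mem_compl.1 hz'.1
    · rw [← h9_insert, ← mM]
      exact hz'.2
  have hAcard : A'.card = (A.filter fun W => G ⊆ W).card := by
    rw [h9_filter, card_image_of_injective _ (h9_inj G), hA']
  have hJ : Jn A' M' ∅ = Jn A M G := by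
    unfold Jn
    rw [h9_filter G M, ← hM', sum_image fun x _ y _ hxy => h9_inj G hxy,
      filter_true_of_mem fun Y _ => empty_subset Y]
    refine sum_congr rfl fun Q _ => ?_
    rw [h9_sdiff, sdiff_empty, filter_map, card_map]
    congr 1
    refine filter_congr fun z _ => ?_
    rw [mA, h9_erase]
    rfl
  rw [← hJ, ← hAcard]
  exact link_lemma hu huv hau hak hcard cA cM hne' h'

end Pool.Agent.Lib.MP_fffc5a_co
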