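import Mathlib
import Pool.Agent.Lib.MP_fffc5a_co.Defs
import Pool.Agent.Lib.MP_fffc5a_co.DefsH
import Pool.Agent.Lib.MP_fffc5a_co.DefsK
import Pool.Agent.Lib.MP_fffc5a_co.Proj
import Pool.Agent.Lib.MP_fffc5a_co.UpOrth

/-!
The square norm of `Up^[j] φ` in terms of the square norms of the projection of `φ` to the
functions of degree at most `d` and of the remainder.
-/

set_option autoImplicit false

open Finset

namespace Pool.Agent.Lib.MP_fffc5a_co

private theorem k2b_up_add {β : Type*} [DecidableEq β] (j : ℕ) (φ ψ : Finset β → ℝ) :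
    (Up^[j] (fun Z => φ Z + ψ Z)) = fun Z => (Up^[j] φ) Z + (Up^[j] ψ) Z := by
  induction j with
  | zero => rfl
  | succ j ih =>
    rw [Function.iterate_succ_apply', ih, Function.iterate_succ_apply',
      Function.iterate_succ_apply']
    funext Z
    unfold Up
    rw [← Finset.sum_add_distrib]

private theorem k2b_dn {β : Type*} [Fintype β] [DecidableEq β] {d m : ℕ} {h : Finset β → ℝ}
    (hh : ∀ J : Finset β, J.card = d → (Dn^[m] h) J = 0) (i : ℕ) :
    ∀ J : Finset β, J.card = d → (Dn^[m + i] (Up^[i] h)) J = 0 := by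
  induction i with
  | zero => exact hh
  | succ i ih =>
    intro J hJ
    rw [Function.iterate_succ_apply', ← Nat.add_assoc]
    exact dn_up_zero ih J hJ

theorem up_two {β : Type*} [Fintype β] [DecidableEq β] {d r : ℕ} (hdr : d + 1 ≤ r) (j : ℕ)
    (hr : r + j + d ≤ Fintype.card β) {φ ψ : Finset β → ℝ}
    (hh : ∀ J : Finset β, J.card = d → (Dn^[r - d] (fun Z => φ Z - (Up^[r - d] ψ) Z)) J = 0) :
    nsq (r + j) (Up^[j] φ) ≤
      (∏ i ∈ range j, (((r : ℝ) + 1 + i) * ((Fintype.card β : ℝ) - r - i))) *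
        nsq r (Up^[r - d] ψ) +
      (∏ i ∈ range j, (((r : ℝ) + i - d) * ((Fintype.card β : ℝ) - r - i - d - 1))) *
        nsq r (fun Z => φ Z - (Up^[r - d] ψ) Z) := by
  have hφ : φ = fun Z => (Up^[r - d] ψ) Z + (φ Z - (Up^[r - d] ψ) Z) := by
    funext Z
    ring
  have h1 := up_trivial r j (by omega) (Up^[r - d] ψ)
  have h2 := up_orth hdr j hr hh
  have h3 := k2b_dn hh j
  have h4 : ∑ Z ∈ powersetCard (r + j) univ, (Up^[r + j - d] ψ) Z *
      (Up^[j] (fun Z => φ Z - (Up^[r - d] ψ) Z)) Z = 0 := by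
    refine orth_of_dn (by omega) ?_ ψ
    have e : r + j - d = r - d + j := by omega
    rw [e]
    exact h3
  have e1 : (Up^[r + j - d] ψ) = Up^[j] (Up^[r - d] ψ) := by
    rw [← Function.iterate_add_apply]
    congr 1
    omega
  rw [e1] at h4
  have h5 : nsq (r + j) (Up^[j] φ) = nsq (r + j) (Up^[j] (Up^[r - d] ψ)) +
      nsq (r + j) (Up^[j] (fun Z => φ Z - (Up^[r - d] ψ) Z)) := by
    have e2 : (Up^[j] φ) = fun Z => (Up^[j] (Up^[r - d] ψ)) Z +
        (Up^[j] (fun Z => φ Z - (Up^[r - d] ψ) Z)) Z := by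
      conv_lhs => rw [hφ]
      exact k2b_up_add j _ _
    rw [e2]
    unfold nsq
    have e3 : ∀ Z : Finset β, ((Up^[j] (Up^[r - d] ψ)) Z +
        (Up^[j] (fun Z => φ Z - (Up^[r - d] ψ) Z)) Z) ^ 2 =
        (Up^[j] (Up^[r - d] ψ)) Z ^ 2 + (Up^[j] (fun Z => φ Z - (Up^[r - d] ψ) Z)) Z ^ 2 +
        2 * ((Up^[j] (Up^[r - d] ψ)) Z * (Up^[j] (fun Z => φ Z - (Up^[r - d] ψ) Z)) Z) := by
      intro Z
      ring
    rw [Finset.sum_congr rfl fun Z _ => e3 Z, Finset.sum_add_distrib, Finset.sum_add_distrib,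
      ← Finset.mul_sum, h4]
    ring
  rw [h5]
  exact add_le_add h1 h2

end Pool.Agent.Lib.MP_fffc5a_co
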