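import Mathlib
import Pool.Agent.Lib.MP_fffc5a_co.Defs
import Pool.Agent.Lib.MP_fffc5a_co.DefsH
import Pool.Agent.Lib.MP_fffc5a_co.DefsK
import Pool.Agent.Lib.MP_fffc5a_co.Proj
import Pool.Agent.Lib.MP_fffc5a_co.UpTwo
import Pool.Agent.Lib.MP_fffc5a_co.LevelIneq
import Pool.Agent.Lib.MP_fffc5a_co.OpSums

/-!
A small family on level `k` whose members have almost all their supersets on level `k + a - 1` in
`W` is smaller than `W` by the factor `1 - c / k`.
-/

set_option autoImplicit false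

open Finset

namespace Pool.Agent.Lib.MP_fffc5a_co

/-- the product of the trivial bound -/
theorem k21_P0 (k m : ℕ) :
    ∏ i ∈ range m, (((k : ℝ) + 1 + i) * ((k : ℝ) + m - i)) =
      ((m.factorial : ℝ) * ((k + m).choose m : ℝ)) ^ 2 := by
  have h1 : ∏ i ∈ range m, ((k : ℝ) + 1 + i) = (m.factorial : ℝ) * ((k + m).choose m : ℝ) := by
    have h := Nat.ascFactorial_eq_factorial_mul_choose k m
    have h2 := Nat.ascFactorial_eq_prod_range (k + 1) m
    rw [h2] at h
    have h3 : (((∏ i ∈ range m, (k + 1 + i) : ℕ)) : ℝ) =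
        ((m.factorial * (k + m).choose m : ℕ) : ℝ) := by rw [h]
    push_cast at h3
    exact h3
  have h2 : ∏ i ∈ range m, ((k : ℝ) + m - i) = ∏ i ∈ range m, ((k : ℝ) + 1 + i) := by
    rw [← prod_range_reflect (fun i => (k : ℝ) + 1 + i)]
    apply prod_congr rfl
    intro i hi
    rw [mem_range] at hi
    have e : ((m - 1 - i : ℕ) : ℝ) = m - 1 - i := by
      rw [Nat.cast_sub (by omega), Nat.cast_sub (by omega)]
      simp
    rw [e]
    ring
  rw [prod_mul_distrib, h2, h1, sq]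

/-- the product of the orthogonal bound -/
theorem k21_P1 (k m d : ℕ) (hm : 1 ≤ m) (hd : d + 1 ≤ k) :
    ∏ i ∈ range m, (((k : ℝ) + i - d) * ((k : ℝ) + m - i - d - 1)) ≤
      (1 - ((d : ℝ) + 1) / (k + m + 1)) *
        ∏ i ∈ range m, (((k : ℝ) + 1 + i) * ((k : ℝ) + m - i)) := by
  have hdk : (d : ℝ) + 1 ≤ k := by exact_mod_cast hd
  obtain ⟨m', rfl⟩ : ∃ m', m = m' + 1 := ⟨m - 1, by omega⟩
  rw [prod_range_succ', prod_range_succ']
  have hk0 : (0 : ℝ) < k := by
    have : 0 < k := by omega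
    exact_mod_cast this
  have hd0 : (0 : ℝ) ≤ d := by positivity
  have hm0 : (0 : ℝ) ≤ ((m' + 1 : ℕ) : ℝ) := by positivity
  have hA : ∏ i ∈ range m', (((k : ℝ) + (i + 1 : ℕ) - d) *
        ((k : ℝ) + (m' + 1 : ℕ) - (i + 1 : ℕ) - d - 1)) ≤
      ∏ i ∈ range m', (((k : ℝ) + 1 + (i + 1 : ℕ)) * ((k : ℝ) + (m' + 1 : ℕ) - (i + 1 : ℕ))) := by
    apply prod_le_prod
    · intro i hi
      rw [mem_range] at hi
      have hi' : (i : ℝ) + 1 ≤ m' := by exact_mod_cast hi
      have h0 : (0 : ℝ) ≤ i := by positivity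
      apply mul_nonneg
      · push_cast; linarith
      · push_cast; linarith
    · intro i hi
      rw [mem_range] at hi
      have hi' : (i : ℝ) + 1 ≤ m' := by exact_mod_cast hi
      have h0 : (0 : ℝ) ≤ i := by positivity
      apply mul_le_mul
      · push_cast; linarith
      · push_cast; linarith
      · push_cast; linarith
      · push_cast; linarith
  have hA0 : 0 ≤ ∏ i ∈ range m', (((k : ℝ) + (i + 1 : ℕ) - d) *
        ((k : ℝ) + (m' + 1 : ℕ) - (i + 1 : ℕ) - d - 1)) := by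
    apply prod_nonneg
    intro i hi
    rw [mem_range] at hi
    have hi' : (i : ℝ) + 1 ≤ m' := by exact_mod_cast hi
    have h0 : (0 : ℝ) ≤ i := by positivity
    apply mul_nonneg
    · push_cast; linarith
    · push_cast; linarith
  have hB : ((k : ℝ) + (0 : ℕ) - d) * ((k : ℝ) + (m' + 1 : ℕ) - (0 : ℕ) - d - 1) ≤
      (1 - ((d : ℝ) + 1) / (k + (m' + 1 : ℕ) + 1)) *
        (((k : ℝ) + 1 + (0 : ℕ)) * ((k : ℝ) + (m' + 1 : ℕ) - (0 : ℕ))) := by
    have h1 : (k : ℝ) - d ≤ (1 - ((d : ℝ) + 1) / (k + (m' + 1 : ℕ) + 1)) * ((k : ℝ) + 1) := by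
      have h2 : ((d : ℝ) + 1) / (k + (m' + 1 : ℕ) + 1) * ((k : ℝ) + 1) ≤ d + 1 := by
        rw [div_mul_eq_mul_div, div_le_iff₀ (by positivity)]
        apply mul_le_mul_of_nonneg_left _ (by positivity)
        linarith
      linarith
    have h3 : (k : ℝ) + (m' + 1 : ℕ) - d - 1 ≤ (k : ℝ) + (m' + 1 : ℕ) := by linarith
    have h4 : (0 : ℝ) ≤ (k : ℝ) + (m' + 1 : ℕ) - d - 1 := by linarith
    have h5 : (0 : ℝ) ≤ (1 - ((d : ℝ) + 1) / (k + (m' + 1 : ℕ) + 1)) * ((k : ℝ) + 1) := by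
      linarith
    have h6 := mul_le_mul h1 h3 h4 h5
    simp only [Nat.cast_zero, add_zero, sub_zero]
    calc ((k : ℝ) - d) * ((k : ℝ) + (m' + 1 : ℕ) - d - 1) ≤ _ := h6
      _ = _ := by ring
  have hC0 : 0 ≤ (1 - ((d : ℝ) + 1) / (k + (m' + 1 : ℕ) + 1)) *
        (((k : ℝ) + 1 + (0 : ℕ)) * ((k : ℝ) + (m' + 1 : ℕ) - (0 : ℕ))) := by
    refine le_trans (mul_nonneg ?_ ?_) hB
    · push_cast; linarith
    · push_cast at hm0 ⊢; linarith
  have hfin := mul_le_mul hA hB (mul_nonneg (by push_cast; linarith)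
    (by push_cast at hm0 ⊢; linarith)) (hA0.trans hA)
  refine hfin.trans (le_of_eq ?_)
  ring

theorem shadow_const (a v : ℕ) (ha : 2 ≤ a) : ∃ ε : ℝ, 0 < ε ∧ ∃ k₀ : ℕ, ∀ k : ℕ, k₀ ≤ k →
    ∀ (β : Type) [Fintype β] [DecidableEq β], Fintype.card β = 2 * k + a - 1 →
    ∀ A W : Finset (Finset β), (∀ s ∈ A, s.card = k) → (∀ s ∈ W, s.card = k + a - 1) →
    (A.card : ℝ) ≤ ε * ((2 * k + a - 1).choose k : ℝ) →
    (∀ G ∈ A, (1 - 8 * a * v / k : ℝ) * (k + a - 1).choose (a - 1) ≤
      ((W.filter fun Z => G ⊆ Z).card : ℝ)) →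
    (k + a) * A.card + (v - 1) * W.card ≤ k * W.card := by
  classical
  obtain ⟨m, rfl⟩ : ∃ m, a = m + 1 := ⟨a - 1, by omega⟩
  have hm : 1 ≤ m := by omega
  set d : ℕ := 64 * (m + 1) * (v + 1) with hd
  obtain ⟨ε, hε, r₀, hr₀⟩ := level_ineq d m
  refine ⟨ε, hε, r₀ + d + 1, ?_⟩
  intro k hk β _ _ hN A W hA hW hAε hdeg
  have hN' : Fintype.card β = 2 * k + m := by omega
  have hdk : d + 1 ≤ k := by omega
  have hkv : v + 1 ≤ k := by
    have : v + 1 ≤ d := by
      rw [hd]
      nlinarith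
    omega
  have e1 : 2 * k + (m + 1) - 1 = 2 * k + m := by omega
  have e2 : k + (m + 1) - 1 = k + m := by omega
  have e3 : m + 1 - 1 = m := by omega
  rw [e1] at hAε
  rw [e2] at hW
  rw [e2, e3] at hdeg
  have hk0 : (0 : ℝ) < k := by
    have : 0 < k := by omega
    exact_mod_cast this
  have hkRd : (d : ℝ) + 1 ≤ k := by exact_mod_cast hdk
  have hdR : (d : ℝ) = 64 * (m + 1) * (v + 1) := by rw [hd]; push_cast; ring
  have hmR : (1 : ℝ) ≤ m := by exact_mod_cast hm
  have hvR : (0 : ℝ) ≤ v := by positivity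
  -- the case of an empty family
  rcases Nat.eq_zero_or_pos A.card with hA0 | hApos
  · rw [hA0, mul_zero, zero_add]
    exact Nat.mul_le_mul_right _ (by omega)
  have hAposR : (0 : ℝ) < A.card := by exact_mod_cast hApos
  -- the projection
  obtain ⟨ψ, hψ⟩ := proj (d := d) (r := k) (by omega) (ind A)
  set g : Finset β → ℝ := Up^[k - d] ψ with hg
  set h : Finset β → ℝ := fun Z => ind A Z - g Z with hh
  have horth := orth_of_dn (d := d) (r := k) (by omega) hψ ψ
  have hgf : ∑ Z ∈ powersetCard k univ, g Z * ind A Z = nsq k g := by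
    have h1 : ∑ Z ∈ powersetCard k univ, g Z * ind A Z =
        nsq k g + ∑ Z ∈ powersetCard k univ, g Z * h Z := by
      unfold nsq
      rw [← sum_add_distrib]
      apply sum_congr rfl
      intro Z _
      rw [hh]
      ring
    rw [h1]
    have : ∑ Z ∈ powersetCard k univ, g Z * h Z = 0 := horth
    rw [this, add_zero]
  have hq := hr₀ k (by omega) β hN' A hA hAε ψ hgf
  have hfA : nsq k (ind A) = A.card := by
    unfold nsq
    have h1 : ∀ Z ∈ powersetCard k (univ : Finset β), ind A Z ^ 2 = if Z ∈ A then (1 : ℝ) else 0 := by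
      intro Z _
      unfold ind
      split_ifs <;> norm_num
    rw [sum_congr rfl h1, ← sum_filter, sum_const, nsmul_eq_mul, mul_one]
    congr 2
    ext Z
    rw [mem_filter, mem_powersetCard]
    constructor
    · rintro ⟨_, h⟩
      exact h
    · intro h
      exact ⟨⟨subset_univ _, hA Z h⟩, h⟩
  have hnh : nsq k h = A.card - nsq k g := by
    have h1 : nsq k h = nsq k (ind A) - 2 * (∑ Z ∈ powersetCard k univ, g Z * ind A Z) +
        nsq k g := by
      unfold nsq
      rw [mul_sum, ← sum_sub_distrib, ← sum_add_distrib]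
      apply sum_congr rfl
      intro Z _
      rw [hh]
      ring
    rw [h1, hgf, hfA]
    ring
  have hup := up_two (d := d) (r := k) (by omega) m (by omega) (φ := ind A) (ψ := ψ) hψ
  have hP0' : ∏ i ∈ range m, (((k : ℝ) + 1 + i) * ((Fintype.card β : ℝ) - k - i)) =
      ∏ i ∈ range m, (((k : ℝ) + 1 + i) * ((k : ℝ) + m - i)) := by
    apply prod_congr rfl
    intro i _
    rw [hN']
    push_cast
    ring
  have hP1' : ∏ i ∈ range m, (((k : ℝ) + i - d) * ((Fintype.card β : ℝ) - k - i - d - 1)) =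
      ∏ i ∈ range m, (((k : ℝ) + i - d) * ((k : ℝ) + m - i - d - 1)) := by
    apply prod_congr rfl
    intro i _
    rw [hN']
    push_cast
    ring
  rw [hP0', hP1'] at hup
  have hP1le := k21_P1 k m d hm hdk
  rw [k21_P0] at hup hP1le
  set C : ℝ := (m.factorial : ℝ) * ((k + m).choose m : ℝ) with hC
  have hCpos : 0 < C := by
    have h1 : 0 < (k + m).choose m := Nat.choose_pos (by omega)
    have h2 : (0 : ℝ) < ((k + m).choose m : ℝ) := by exact_mod_cast h1
    positivity
  set P1 : ℝ := ∏ i ∈ range m, (((k : ℝ) + i - d) * ((k : ℝ) + m - i - d - 1)) with hP1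
  set τ : ℝ := ((d : ℝ) + 1) / (k + m + 1) with hτ
  have hτ0 : 0 ≤ τ := by positivity
  have hbound : nsq (k + m) (Up^[m] (ind A)) ≤ A.card * (C ^ 2 * (1 - τ / 2)) := by
    have hq0 : nsq k g ≤ (A.card : ℝ) / 2 := hq
    have hnh' : nsq k (fun Z => ind A Z - (Up^[k - d] ψ) Z) = A.card - nsq k g := hnh
    rw [hnh'] at hup
    have hg' : nsq k (Up^[k - d] ψ) = nsq k g := rfl
    rw [hg'] at hup
    have hC2 : 0 < C ^ 2 := by positivity
    have hP1C : P1 ≤ (1 - τ) * C ^ 2 := hP1le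
    have hnn : 0 ≤ (A.card : ℝ) - nsq k g := by linarith
    calc nsq (k + m) (Up^[m] (ind A)) ≤ C ^ 2 * nsq k g + P1 * (A.card - nsq k g) := hup
      _ ≤ C ^ 2 * nsq k g + (1 - τ) * C ^ 2 * (A.card - nsq k g) := by
          have := mul_le_mul_of_nonneg_right hP1C hnn
          linarith
      _ = C ^ 2 * ((1 - τ) * A.card + τ * nsq k g) := by ring
      _ ≤ C ^ 2 * ((1 - τ) * A.card + τ * (A.card / 2)) := by
          apply mul_le_mul_of_nonneg_left _ hC2.le
          have := mul_le_mul_of_nonneg_left hq0 hτ0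
          linarith
      _ = A.card * (C ^ 2 * (1 - τ / 2)) := by ring
  -- the sum over W
  set D : ℝ := 8 * ((m + 1 : ℕ) : ℝ) * v / k with hD
  have hD0 : 0 ≤ D := by positivity
  have h2D : 0 < 1 - 2 * D := by
    have : 2 * D < 1 := by
      rw [hD, ← mul_div_assoc, div_lt_one hk0]
      push_cast
      nlinarith
    linarith
  have hsumW : (1 - D) * C * A.card ≤ ∑ Z ∈ W, (Up^[m] (ind A)) Z := by
    have h1 : ∀ Z ∈ W, (Up^[m] (ind A)) Z = m.factorial * ((A.filter fun s => s ⊆ Z).card : ℝ) :=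
      fun Z hZ => up_iter_ind hA m (hW Z hZ)
    rw [sum_congr rfl h1, ← mul_sum]
    have h2 : ∑ Z ∈ W, ((A.filter fun s => s ⊆ Z).card : ℝ) =
        ∑ G ∈ A, ((W.filter fun Z => G ⊆ Z).card : ℝ) := by
      have h3 : ∑ Z ∈ W, (A.filter fun s => s ⊆ Z).card =
          ∑ G ∈ A, (W.filter fun Z => G ⊆ Z).card := by
        simp only [card_filter]
        exact sum_comm
      exact_mod_cast h3
    rw [h2]
    have h4 : (A.card : ℝ) * ((1 - D) * ((k + m).choose m : ℝ)) ≤
        ∑ G ∈ A, ((W.filter fun Z => G ⊆ Z).card : ℝ) := by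
      rw [← nsmul_eq_mul]
      exact card_nsmul_le_sum A _ _ hdeg
    calc (1 - D) * C * A.card = m.factorial * ((A.card : ℝ) * ((1 - D) * ((k + m).choose m : ℝ))) := by
          rw [hC]; ring
      _ ≤ _ := mul_le_mul_of_nonneg_left h4 (by positivity)
  have hCS : (∑ Z ∈ W, (Up^[m] (ind A)) Z) ^ 2 ≤ W.card * nsq (k + m) (Up^[m] (ind A)) := by
    refine (sq_sum_le_card_mul_sum_sq).trans ?_
    apply mul_le_mul_of_nonneg_left _ (by positivity)
    unfold nsq
    apply sum_le_sum_of_subset_of_nonneg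
    · intro Z hZ
      rw [mem_powersetCard]
      exact ⟨subset_univ _, hW Z hZ⟩
    · intro Z _ _
      positivity
  have h1D : 0 ≤ 1 - D := by linarith
  have hmain : (1 - D) ^ 2 * A.card ≤ W.card * (1 - τ / 2) := by
    have h1 : ((1 - D) * C * A.card) ^ 2 ≤ W.card * (A.card * (C ^ 2 * (1 - τ / 2))) := by
      calc ((1 - D) * C * A.card) ^ 2 ≤ (∑ Z ∈ W, (Up^[m] (ind A)) Z) ^ 2 :=
            pow_le_pow_left₀ (by positivity) hsumW 2
        _ ≤ W.card * nsq (k + m) (Up^[m] (ind A)) := hCS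
        _ ≤ _ := mul_le_mul_of_nonneg_left hbound (by positivity)
    have h2 : (A.card * C ^ 2) * ((1 - D) ^ 2 * A.card) ≤
        (A.card * C ^ 2) * (W.card * (1 - τ / 2)) := by
      calc (A.card * C ^ 2) * ((1 - D) ^ 2 * A.card) = ((1 - D) * C * A.card) ^ 2 := by ring
        _ ≤ W.card * (A.card * (C ^ 2 * (1 - τ / 2))) := h1
        _ = _ := by ring
    exact le_of_mul_le_mul_left h2 (by positivity)
  have hfinal : ((k : ℝ) + (m + 1)) * A.card ≤ ((k : ℝ) - v) * W.card := by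
    have h1 : (1 - 2 * D) * A.card ≤ W.card * (1 - τ / 2) := by
      refine le_trans (mul_le_mul_of_nonneg_right ?_ hAposR.le) hmain
      nlinarith [sq_nonneg D]
    have hkm : (0 : ℝ) < k + m + 1 := by positivity
    have h2 : (1 - 2 * D) * (((k : ℝ) + m + 1) * A.card) ≤
        W.card * ((k + m + 1) - (d + 1) / 2) := by
      have h3 := mul_le_mul_of_nonneg_left h1 hkm.le
      have h4 : ((k : ℝ) + m + 1) * (W.card * (1 - τ / 2)) =
          W.card * ((k + m + 1) - (d + 1) / 2) := by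
        rw [hτ]
        field_simp
      linarith
    have h5 : ((k : ℝ) + m + 1) - (d + 1) / 2 ≤ ((k : ℝ) - v) * (1 - 2 * D) := by
      have h6 : ((k : ℝ) - v) * (2 * D) ≤ 16 * (m + 1) * v := by
        have h7 : ((k : ℝ) - v) * (2 * D) ≤ k * (2 * D) := by
          apply mul_le_mul_of_nonneg_right _ (by positivity)
          linarith
        have h8 : (k : ℝ) * (2 * D) = 16 * (m + 1) * v := by
          rw [hD]
          push_cast
          field_simp
          ring
        linarith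
      rw [hdR]
      nlinarith
    have h9 : (1 - 2 * D) * (((k : ℝ) + m + 1) * A.card) ≤
        (1 - 2 * D) * (((k : ℝ) - v) * W.card) := by
      refine h2.trans ?_
      have := mul_le_mul_of_nonneg_left h5 (by positivity : (0 : ℝ) ≤ W.card)
      linarith
    have h10 := le_of_mul_le_mul_left h9 h2D
    linarith
  have hfin2 : ((k : ℝ) + (m + 1)) * A.card + v * W.card ≤ k * W.card := by linarith
  have hfin3 : (k + (m + 1)) * A.card + v * W.card ≤ k * W.card := by exact_mod_cast hfin2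
  have : (v - 1) * W.card ≤ v * W.card := Nat.mul_le_mul_right _ (by omega)
  omega

end Pool.Agent.Lib.MP_fffc5a_co
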