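import Mathlib
import Pool.Agent.Lib.MP_fffc5a_co.Defs
import Pool.Agent.Lib.MP_fffc5a_co.DefsC
import Pool.Agent.Lib.MP_fffc5a_co.DefsH
import Pool.Agent.Lib.MP_fffc5a_co.LinkCount
import Pool.Agent.Lib.MP_fffc5a_co.Incid
import Pool.Agent.Lib.MP_fffc5a_co.PartAvg
import Pool.Agent.Lib.MP_fffc5a_co.LinkConst
import Pool.Agent.Lib.MP_fffc5a_co.ShadowConst

/-!
The local theorem for a bounded gap `a = n - 2 k ≥ u + 1`.
-/

set_option autoImplicit false

open Finset

namespace Pool.Agent.Lib.MP_fffc5a_co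

/-- The number of sets of size `|G| + j` which contain `G`. -/
lemma lc_count {β : Type*} [Fintype β] [DecidableEq β] (G : Finset β) (j : ℕ) :
    ((powersetCard (G.card + j) (univ : Finset β)).filter fun W => G ⊆ W).card =
      (Fintype.card β - G.card).choose j := by
  have h := e1_count G ∅ (disjoint_empty_right _) j
  rw [card_empty, Nat.add_zero] at h
  rw [← h]
  congr 1
  ext W
  simp

theorem local_const (u v a : ℕ) (hu : 1 ≤ u) (huv : u ≤ v) (hua : u + 1 ≤ a) :
    ∃ ε : ℝ, 0 < ε ∧ ∃ k₀ : ℕ, ∀ k : ℕ, k₀ ≤ k →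
    ∀ (β : Type) [Fintype β] [DecidableEq β], Fintype.card β = 2 * k + a - 1 →
    ∀ E M : Finset (Finset β), (∀ s ∈ E, s.card = k) → (∀ Y ∈ M, Y.card = k + a) →
    (∀ W ∈ Act E u (k + a - 1), (Wᶜ.filter fun z => insert z W ∉ M).card ≤ v - 1) →
    (E.card : ℝ) ≤ ε * ((2 * k + a - 1).choose k : ℝ) →
    ∃ E₀ ⊆ E, Wide u (k + a) E₀ ∧ E.card ≤ E₀.card + M.card := by
  obtain ⟨ε, hε, k₁, hsh⟩ := shadow_const a v (by omega)
  refine ⟨ε, hε, max k₁ (10 * (a * v) ^ 2), fun k hk β _ _ hN E M hE hM hact hsmall => ?_⟩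
  have hk1 : k₁ ≤ k := le_trans (le_max_left _ _) hk
  have hak : 10 * (a * v) ^ 2 ≤ k := le_trans (le_max_right _ _) hk
  have hav1 : 1 ≤ a * v := Nat.mul_pos (by omega) (by omega)
  have hav2 : a * v ≤ (a * v) ^ 2 := by nlinarith
  have hva : v ≤ a * v := Nat.le_mul_of_pos_left v (by omega)
  have haa : a ≤ a * v := Nat.le_mul_of_pos_right a (by omega)
  have hkv : v ≤ k := by omega
  have hk0 : 1 ≤ k := by omega
  classical
  set A := Act E u (k + a - 1) with hAdef
  have hA : ∀ s ∈ A, s.card = k + a - 1 := by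
    intro s hs
    exact (mem_powersetCard.1 (mem_filter.1 hs).1).2
  have hsplit := card_filter_add_card_filter_not (s := E) (fun G => ∃ W ∈ A, G ⊆ W)
  set E₀ := E.filter fun G => ¬ ∃ W ∈ A, G ⊆ W with hE₀
  set E' := E.filter fun G => ∃ W ∈ A, G ⊆ W with hE'
  refine ⟨E₀, filter_subset _ _, ?_, ?_⟩
  · have h1 := wide_of_inactive (u := u) (w := k + a - 1) (by omega)
      (by rw [hN]; omega) (E := E)
    have h2 : k + a - 1 + 1 = k + a := by omega
    rw [h2] at h1
    exact h1
  have hsplit' := card_filter_add_card_filter_not (s := E') (fun G =>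
    (1 - 8 * a * v / k : ℝ) * (k + a - 1).choose (a - 1) ≤
      ((A.filter fun W => G ⊆ W).card : ℝ))
  set E₂ := E'.filter fun G => (1 - 8 * a * v / k : ℝ) * (k + a - 1).choose (a - 1) ≤
      ((A.filter fun W => G ⊆ W).card : ℝ) with hE₂
  set E₁ := E'.filter fun G => ¬ (1 - 8 * a * v / k : ℝ) * (k + a - 1).choose (a - 1) ≤
      ((A.filter fun W => G ⊆ W).card : ℝ) with hE₁
  have hE'E : E' ⊆ E := filter_subset _ _
  have hE₁E : E₁ ⊆ E := (filter_subset _ _).trans hE'E
  have hE₂E : E₂ ⊆ E := (filter_subset _ _).trans hE'E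
  -- the saturated ones
  have h1 : (k + a) * E₂.card + (v - 1) * A.card ≤ k * A.card := by
    refine hsh k hk1 β hN E₂ A (fun s hs => hE s (hE₂E hs)) hA ?_
      (fun G hG => (mem_filter.1 hG).2)
    refine le_trans ?_ hsmall
    exact_mod_cast card_le_card hE₂E
  -- the others
  have h2 : (k + a) * E₁.card ≤ Jn A M ∅ := by
    rcases Nat.lt_or_ge u 2 with hu1 | hu2
    · obtain rfl : u = 1 := by omega
      have h3 : E₁ = ∅ := by
        rw [hE₁, filter_eq_empty_iff]
        intro G hG hcon
        apply hcon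
        have h4 := mem_filter.1 hG
        have hGk := hE G h4.1
        have h5 : (A.filter fun W => G ⊆ W) =
            (powersetCard (G.card + (a - 1)) (univ : Finset β)).filter fun W => G ⊆ W := by
          ext W
          simp only [hAdef, Act, mem_filter, mem_powersetCard, subset_univ, true_and]
          rw [hGk]
          constructor
          · rintro ⟨⟨h6, -⟩, h7⟩
            exact ⟨by omega, h7⟩
          · rintro ⟨h6, h7⟩
            refine ⟨⟨by omega, ?_⟩, h7⟩
            exact card_pos.2 ⟨G, mem_filter.2 ⟨h4.1, h7⟩⟩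
        rw [h5, lc_count, hN, hGk]
        have h6 : 2 * k + a - 1 - k = k + a - 1 := by omega
        rw [h6]
        have h7 : (0 : ℝ) ≤ ((k + a - 1).choose (a - 1) : ℝ) := Nat.cast_nonneg _
        have h8 : (0 : ℝ) ≤ 8 * a * v / k := by positivity
        nlinarith
      rw [h3, card_empty, Nat.mul_zero]
      exact Nat.zero_le _
    · have h2 : E₁.card * ((u - 1) * (k + a)) ≤ ∑ G ∈ E, Jn A M G := by
        calc E₁.card * ((u - 1) * (k + a)) = ∑ _G ∈ E₁, (u - 1) * (k + a) := by
              rw [sum_const, smul_eq_mul]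
          _ ≤ ∑ G ∈ E₁, Jn A M G := by
              refine sum_le_sum fun G hG => ?_
              have h3 := mem_filter.1 hG
              have h4 := mem_filter.1 h3.1
              exact (link_const hu2 huv hua hak hN hA hM hact (hE G h4.1) h4.2).resolve_right
                h3.2
          _ ≤ ∑ G ∈ E, Jn A M G := sum_le_sum_of_subset hE₁E
      have h3 := incid (u := u) (k := k) (a := a) (by omega) (E := E) hM
      rw [← hAdef] at h3
      have h7 : (u - 1) * ((k + a) * E₁.card) ≤ (u - 1) * Jn A M ∅ := by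
        calc (u - 1) * ((k + a) * E₁.card) = E₁.card * ((u - 1) * (k + a)) := by ring
          _ ≤ _ := h2
          _ ≤ _ := h3
      exact le_of_mul_le_mul_left h7 (by omega)
  have h4 := jn_add_jp (k := 0) (a := k + a) A (M := M) (fun Y hY => by
    rw [hM Y hY]; omega) (G := ∅) card_empty
  have h5 : (M.filter fun Y => ∅ ⊆ Y) = M := filter_true_of_mem fun _ _ => empty_subset _
  rw [h5] at h4
  have h6 := jp_lower (w := k + a - 1) (k := k) (v := v) (by omega) (A := A) (M := M)
    (by rw [hN]; omega) hA (fun Y hY => by rw [hM Y hY]; omega) hact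
  have h9 : A.card * (v - 1) = (v - 1) * A.card := by ring
  have h10 : A.card * k = k * A.card := by ring
  have h11 : (k + a) * (E₁.card + E₂.card) ≤ (k + a) * M.card := by
    have : (k + a) * (E₁.card + E₂.card) = (k + a) * E₁.card + (k + a) * E₂.card := by
      ring
    omega
  have h12 : E₁.card + E₂.card ≤ M.card := le_of_mul_le_mul_left h11 (by omega)
  omega

end Pool.Agent.Lib.MP_fffc5a_co
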