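import Mathlib
import Pool.Agent.Lib.MP_fffc5a_co.DefsC
import Pool.Agent.Lib.MP_fffc5a_co.DefsH

/-!
Task H11: the factorial inequality for the many step bound.
-/

set_option autoImplicit false

open Finset

namespace Pool.Agent.Lib.MP_fffc5a_co

theorem h11_fact_le {r d N : ℕ} (hd : d ≤ r) (hr : r ≤ N) :
    r.factorial ≤ (r - d).factorial * N ^ d := by
  rw [← Nat.factorial_mul_descFactorial hd]
  apply Nat.mul_le_mul_left
  exact (Nat.descFactorial_le_pow r d).trans (Nat.pow_le_pow_left hr d)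

theorem h11_prod1 (N d : ℕ) : ∀ m : ℕ, m + (2 * d + 2) ≤ N →
    (∏ s ∈ Ico (d + 1) (d + 1 + m), (((s : ℝ) - d) * ((N : ℝ) - s - d - 1))) *
      ((N - (2 * d + 2) - m).factorial : ℝ) =
      (m.factorial : ℝ) * ((N - (2 * d + 2)).factorial : ℝ) := by
  intro m
  induction m with
  | zero => intro _; simp
  | succ m ih =>
    intro hm
    have ih' := ih (by omega)
    rw [← add_assoc, prod_Ico_succ_top (by omega)]
    have e1 : N - (2 * d + 2) - m = (N - (2 * d + 2) - (m + 1)) + 1 := by omega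
    rw [e1, Nat.factorial_succ] at ih'
    have e2 : (((N - (2 * d + 2) - (m + 1)) + 1 : ℕ) : ℝ) = (N : ℝ) - ((d + 1 + m : ℕ) : ℝ) - d - 1 := by
      have : N = (N - (2 * d + 2) - (m + 1)) + 1 + (m + (2 * d + 2)) := by omega
      have h := congrArg (fun x : ℕ => (x : ℝ)) this
      push_cast at h ⊢
      linarith
    rw [Nat.cast_mul, e2] at ih'
    rw [Nat.factorial_succ m, Nat.cast_mul (m + 1)]
    push_cast at ih' ⊢
    linear_combination ((m : ℝ) + 1) * ih'

theorem h11_prod2 (N k d : ℕ) (hd : d + 1 ≤ k) : ∀ m : ℕ, m + (k + d + 1) ≤ N →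
    (∏ i ∈ range m, (((k : ℝ) + i - d) * ((N : ℝ) - k - i - d - 1))) *
      (((k - (d + 1)).factorial : ℝ) * ((N - (k + d + 1) - m).factorial : ℝ)) =
      ((k - (d + 1) + m).factorial : ℝ) * ((N - (k + d + 1)).factorial : ℝ) := by
  intro m
  induction m with
  | zero => intro _; simp
  | succ m ih =>
    intro hm
    have ih' := ih (by omega)
    rw [prod_range_succ]
    have e1 : N - (k + d + 1) - m = (N - (k + d + 1) - (m + 1)) + 1 := by omega
    rw [e1, Nat.factorial_succ] at ih'
    have e2 : (((N - (k + d + 1) - (m + 1)) + 1 : ℕ) : ℝ) = (N : ℝ) - k - m - d - 1 := by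
      have : N = (N - (k + d + 1) - (m + 1)) + 1 + (m + (k + d + 1)) := by omega
      have h := congrArg (fun x : ℕ => (x : ℝ)) this
      push_cast at h ⊢
      linarith
    have e3 : ((k - (d + 1) + m + 1 : ℕ) : ℝ) = (k : ℝ) + m - d := by
      have : k + m = (k - (d + 1) + m + 1) + d := by omega
      have h := congrArg (fun x : ℕ => (x : ℝ)) this
      push_cast at h ⊢
      linarith
    rw [Nat.cast_mul, e2] at ih'
    rw [← add_assoc, Nat.factorial_succ (k - (d + 1) + m), Nat.cast_mul (k - (d + 1) + m + 1),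
      e3]
    linear_combination ((k : ℝ) + m - d) * ih'

theorem step_num {N k j d e : ℕ} (hd : d + 1 ≤ k) (hN : k + j + d + 2 ≤ N)
    (he : e * N ^ (5 * d + 6) ≤ N.choose k) :
    (∏ s ∈ Ico (d + 1) (k + j), (((s : ℝ) - d) * ((N : ℝ) - s - d - 1)))⁻¹ *
      (((k + j).factorial / d.factorial : ℝ) * ((N - k).descFactorial j * e)) ^ 2 ≤
      (∏ i ∈ range (j + 1), (((k : ℝ) + i - d) * ((N : ℝ) - k - i - d - 1))) * e / N ^ 2 := by
  have h1 := h11_prod1 N d (k + j - (d + 1)) (by omega)
  have h2 := h11_prod2 N k d hd (j + 1) (by omega)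
  rw [show d + 1 + (k + j - (d + 1)) = k + j by omega,
    show N - (2 * d + 2) - (k + j - (d + 1)) = N - (k + j + d + 1) by omega,
    show k + j - (d + 1) = k + j - (d + 1) from rfl] at h1
  rw [show N - (k + d + 1) - (j + 1) = N - (k + j + d + 2) by omega,
    show k - (d + 1) + (j + 1) = k + j - d by omega] at h2
  set P1 : ℝ := ∏ s ∈ Ico (d + 1) (k + j), (((s : ℝ) - d) * ((N : ℝ) - s - d - 1)) with hP1
  set P2 : ℝ := ∏ i ∈ range (j + 1), (((k : ℝ) + i - d) * ((N : ℝ) - k - i - d - 1)) with hP2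
  have hN0 : (0 : ℝ) < N := by
    have : 0 < N := by omega
    exact_mod_cast this
  have hfp : ∀ n : ℕ, (0 : ℝ) < (n.factorial : ℝ) := fun n => by
    exact_mod_cast Nat.factorial_pos n
  have hf1 := hfp (N - (k + j + d + 1))
  have hP1pos : 0 < P1 := by
    have hr : 0 < P1 * ((N - (k + j + d + 1)).factorial : ℝ) := by
      rw [h1]
      exact mul_pos (hfp _) (hfp _)
    exact (pos_iff_pos_of_mul_pos hr).2 hf1
  have hP2pos : 0 < P2 := by
    have hr : 0 < P2 * (((k - (d + 1)).factorial : ℝ) * ((N - (k + j + d + 2)).factorial : ℝ)) := by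
      rw [h2]
      exact mul_pos (hfp _) (hfp _)
    exact (pos_iff_pos_of_mul_pos hr).2 (mul_pos (hfp _) (hfp _))
  -- the factorial bounds, in the reals
  have cA : ((k + j).factorial : ℝ) ≤ ((k + j - d).factorial : ℝ) * (N : ℝ) ^ d := by
    exact_mod_cast h11_fact_le (r := k + j) (d := d) (N := N) (by omega) (by omega)
  have cB : ((k + j).factorial : ℝ) ≤ ((k + j - (d + 1)).factorial : ℝ) * (N : ℝ) ^ (d + 1) := by
    exact_mod_cast h11_fact_le (r := k + j) (d := d + 1) (N := N) (by omega) (by omega)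
  have cC : ((N - k).factorial : ℝ) ≤ ((N - (k + d + 1)).factorial : ℝ) * (N : ℝ) ^ (d + 1) := by
    have := h11_fact_le (r := N - k) (d := d + 1) (N := N) (by omega) (by omega)
    rw [show N - k - (d + 1) = N - (k + d + 1) by omega] at this
    exact_mod_cast this
  have cD : (N.factorial : ℝ) ≤ ((N - (2 * d + 2)).factorial : ℝ) * (N : ℝ) ^ (2 * d + 2) := by
    exact_mod_cast h11_fact_le (r := N) (d := 2 * d + 2) (N := N) (by omega) le_rfl
  have cE : (e : ℝ) * (N : ℝ) ^ (5 * d + 6) * ((k.factorial : ℝ) * ((N - k).factorial : ℝ)) ≤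
      (N.factorial : ℝ) := by
    have h := Nat.choose_mul_factorial_mul_factorial (show k ≤ N by omega)
    have h' : (N.choose k : ℝ) * (k.factorial : ℝ) * ((N - k).factorial : ℝ) = N.factorial := by
      exact_mod_cast h
    have he' : (e : ℝ) * (N : ℝ) ^ (5 * d + 6) ≤ N.choose k := by exact_mod_cast he
    rw [← h', mul_assoc (N.choose k : ℝ)]
    exact mul_le_mul_of_nonneg_right he' (mul_pos (hfp _) (hfp _)).le
  have cF : ((N - k).descFactorial j : ℝ) * ((N - (k + j)).factorial : ℝ) =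
      ((N - k).factorial : ℝ) := by
    have h := Nat.factorial_mul_descFactorial (show j ≤ N - k by omega)
    rw [show N - k - j = N - (k + j) by omega] at h
    rw [mul_comm]
    exact_mod_cast h
  have cG1 : ((N - (k + j + d + 1)).factorial : ℝ) ≤ ((N - (k + j)).factorial : ℝ) := by
    exact_mod_cast Nat.factorial_le (by omega)
  have cG2 : ((N - (k + j + d + 2)).factorial : ℝ) ≤ ((N - (k + j)).factorial : ℝ) := by
    exact_mod_cast Nat.factorial_le (by omega)
  have cG3 : ((k - (d + 1)).factorial : ℝ) ≤ (k.factorial : ℝ) := by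
    exact_mod_cast Nat.factorial_le (by omega)
  have hdf : (0 : ℝ) ≤ ((N - k).descFactorial j : ℝ) := Nat.cast_nonneg _
  generalize ((N - k).descFactorial j : ℝ) = D at *
  have pf1 := hfp (N - (k + j + d + 2))
  have pf2 := hfp (k - (d + 1))
  have pA := hfp (k + j)
  have pA1 := hfp (k + j - d)
  have pB1 := hfp (k + j - (d + 1))
  have pC := hfp (N - k)
  have pC1 := hfp (N - (k + d + 1))
  have pD := hfp N
  have pD1 := hfp (N - (2 * d + 2))
  have pG := hfp (N - (k + j))
  have pk := hfp k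
  have pd1 : (1 : ℝ) ≤ (d.factorial : ℝ) := by exact_mod_cast Nat.factorial_pos d
  generalize ((N - (k + j + d + 1)).factorial : ℝ) = f1 at *
  generalize ((N - (k + j + d + 2)).factorial : ℝ) = f2 at *
  generalize ((k - (d + 1)).factorial : ℝ) = f3 at *
  generalize ((k + j).factorial : ℝ) = R at *
  generalize ((k + j - d).factorial : ℝ) = R0 at *
  generalize ((k + j - (d + 1)).factorial : ℝ) = R1 at *
  generalize ((N - k).factorial : ℝ) = C at *
  generalize ((N - (k + d + 1)).factorial : ℝ) = C1 at *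
  generalize (N.factorial : ℝ) = F at *
  generalize ((N - (2 * d + 2)).factorial : ℝ) = F1 at *
  generalize ((N - (k + j)).factorial : ℝ) = G at *
  generalize (k.factorial : ℝ) = K at *
  generalize (d.factorial : ℝ) = Q at *
  have he0 : (0 : ℝ) ≤ (e : ℝ) := Nat.cast_nonneg _
  generalize (e : ℝ) = ε at *
  generalize (N : ℝ) = n at *
  -- main chain
  have m1 : R ^ 2 * C * F ≤ (R0 * R1 * C1 * F1) * n ^ (5 * d + 4) := by
    have e1 : R * R ≤ (R0 * n ^ d) * (R1 * n ^ (d + 1)) := mul_le_mul cA cB pA.le (by positivity)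
    have e2 : C * F ≤ (C1 * n ^ (d + 1)) * (F1 * n ^ (2 * d + 2)) :=
      mul_le_mul cC cD pD.le (by positivity)
    calc R ^ 2 * C * F = (R * R) * (C * F) := by ring
      _ ≤ ((R0 * n ^ d) * (R1 * n ^ (d + 1))) * ((C1 * n ^ (d + 1)) * (F1 * n ^ (2 * d + 2))) :=
          mul_le_mul e1 e2 (by positivity) (by positivity)
      _ = (R0 * R1 * C1 * F1) * n ^ (5 * d + 4) := by
          have : n ^ (5 * d + 4) = n ^ d * n ^ (d + 1) * n ^ (d + 1) * n ^ (2 * d + 2) := by
            rw [← pow_add, ← pow_add, ← pow_add]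
            congr 1
            ring
          rw [this]
          ring
  have m2 : P1 * P2 * (f1 * (f3 * f2)) = R0 * R1 * C1 * F1 := by
    calc P1 * P2 * (f1 * (f3 * f2)) = (P1 * f1) * (P2 * (f3 * f2)) := by ring
      _ = R0 * R1 * C1 * F1 := by rw [h1, h2]; ring
  have m3 : (R * D) ^ 2 * ε * n ^ 2 * (f1 * (f3 * f2)) * n ^ (5 * d + 4) ≤
      (P1 * P2 * (f1 * (f3 * f2))) * n ^ (5 * d + 4) := by
    rw [m2]
    refine le_trans ?_ m1
    have g1 : f1 * (f3 * f2) ≤ G * (K * G) :=
      mul_le_mul cG1 (mul_le_mul cG3 cG2 pf1.le pk.le) (by positivity) pG.le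
    calc (R * D) ^ 2 * ε * n ^ 2 * (f1 * (f3 * f2)) * n ^ (5 * d + 4)
        ≤ (R * D) ^ 2 * ε * n ^ 2 * (G * (K * G)) * n ^ (5 * d + 4) := by
          apply mul_le_mul_of_nonneg_right _ (by positivity)
          exact mul_le_mul_of_nonneg_left g1 (by positivity)
      _ = R ^ 2 * C * (ε * n ^ (5 * d + 6) * (K * C)) := by
          rw [← cF]
          have : n ^ (5 * d + 6) = n ^ 2 * n ^ (5 * d + 4) := by
            rw [← pow_add]
            congr 1
            ring
          rw [this]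
          ring
      _ ≤ R ^ 2 * C * F := by
          exact mul_le_mul_of_nonneg_left cE (by positivity)
  have m4 : (R * D) ^ 2 * ε * n ^ 2 ≤ P1 * P2 := by
    have hpos1 : 0 < n ^ (5 * d + 4) := by positivity
    have hpos2 : 0 < f1 * (f3 * f2) := by positivity
    have := le_of_mul_le_mul_right m3 hpos1
    exact le_of_mul_le_mul_right this hpos2
  have m5 : (R / Q * (D * ε)) ^ 2 ≤ (R * (D * ε)) ^ 2 := by
    apply pow_le_pow_left₀ (by positivity)
    apply mul_le_mul_of_nonneg_right _ (by positivity)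
    exact div_le_self pA.le pd1
  rw [inv_mul_le_iff₀ hP1pos, ← mul_div_assoc, le_div_iff₀ (by positivity)]
  calc (R / Q * (D * ε)) ^ 2 * n ^ 2 ≤ (R * (D * ε)) ^ 2 * n ^ 2 :=
        mul_le_mul_of_nonneg_right m5 (by positivity)
    _ = ((R * D) ^ 2 * ε * n ^ 2) * ε := by ring
    _ ≤ (P1 * P2) * ε := mul_le_mul_of_nonneg_right m4 he0
    _ = P1 * (P2 * ε) := by ring

end Pool.Agent.Lib.MP_fffc5a_co
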