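import Mathlib
import Pool.Agent.Lib.MP_fffc5a_co.DefsC
import Pool.Agent.Lib.MP_fffc5a_co.DefsH
import Pool.Agent.Lib.MP_fffc5a_co.Spec
import Pool.Agent.Lib.MP_fffc5a_co.OpSums
import Pool.Agent.Lib.MP_fffc5a_co.StepNum

/-!
Task H12: the many step bound for the iterated up operator on an indicator function.
-/

set_option autoImplicit false

open Finset

namespace Pool.Agent.Lib.MP_fffc5a_co

theorem h12_ind_nonneg {β : Type*} [DecidableEq β] (A : Finset (Finset β)) (Z : Finset β) :
    0 ≤ ind A Z := by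
  unfold ind
  split_ifs <;> norm_num

theorem h12_sum_ind {β : Type*} [Fintype β] [DecidableEq β] {k : ℕ} {A : Finset (Finset β)}
    (hA : ∀ s ∈ A, s.card = k) : ∑ Z ∈ powersetCard k univ, ind A Z = (A.card : ℝ) := by
  unfold ind
  rw [← sum_filter, sum_const, nsmul_eq_mul, mul_one]
  congr 2
  ext s
  rw [mem_filter, mem_powersetCard]
  exact ⟨fun h => h.2, fun h => ⟨⟨subset_univ _, hA s h⟩, h⟩⟩

theorem h12_nsq_ind {β : Type*} [Fintype β] [DecidableEq β] {k : ℕ} {A : Finset (Finset β)}
    (hA : ∀ s ∈ A, s.card = k) : nsq k (ind A) = (A.card : ℝ) := by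
  rw [← h12_sum_ind hA]
  unfold nsq
  apply sum_congr rfl
  intro Z _
  unfold ind
  split_ifs <;> norm_num

theorem many_step {β : Type*} [Fintype β] [DecidableEq β] {k d : ℕ} (hd : d + 1 ≤ k)
    {A : Finset (Finset β)} (hA : ∀ s ∈ A, s.card = k)
    (he : A.card * (Fintype.card β) ^ (5 * d + 6) ≤ (Fintype.card β).choose k) (j : ℕ)
    (hj : k + j + d + 1 ≤ Fintype.card β) :
    nsq (k + j) (Up^[j] (ind A)) ≤ (1 + j / (Fintype.card β : ℝ) ^ 2) *
      ((∏ i ∈ range j, (((k : ℝ) + i - d) * ((Fintype.card β : ℝ) - k - i - d - 1))) *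
        A.card) := by
  induction j with
  | zero =>
    have := h12_nsq_ind hA
    simp only [Function.iterate_zero, id_eq, add_zero, Nat.cast_zero, zero_div, range_zero,
      prod_empty, one_mul]
    exact this.le
  | succ j ih =>
    have ih' := ih (by omega)
    have hs := spec d (k + j) (by omega) (by omega) (Up^[j] (ind A))
    have hn := step_num (N := Fintype.card β) (k := k) (j := j) (d := d) (e := A.card) hd
      (by omega) he
    rw [← Function.iterate_succ_apply' Up j (ind A)] at hs
    set N := Fintype.card β with hNdef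
    have hnsq : nsq d (Dn^[k + j - d] (Up^[j] (ind A))) ≤
        (((k + j).factorial / d.factorial : ℝ) *
          (((N - k).descFactorial j : ℝ) * (A.card : ℝ))) ^ 2 := by
      have h1 := nsq_le_sq (φ := Dn^[k + j - d] (Up^[j] (ind A)))
        (dn_nonneg (up_nonneg (h12_ind_nonneg A) j) (k + j - d)) d
      have h2 := sum_dn_iter (k + j - d) d (Up^[j] (ind A))
      rw [show d + (k + j - d) = k + j by omega] at h2
      rw [sum_up_iter j k (by omega) (ind A), h12_sum_ind hA] at h2
      have h3 : ∑ J ∈ powersetCard d univ, (Dn^[k + j - d] (Up^[j] (ind A))) J =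
          ((k + j).factorial / d.factorial : ℝ) *
          (((N - k).descFactorial j : ℝ) * (A.card : ℝ)) := by
        have hd0 : (d.factorial : ℝ) ≠ 0 := by exact_mod_cast Nat.factorial_ne_zero d
        rw [div_mul_eq_mul_div, eq_div_iff hd0, mul_comm]
        exact h2
      rw [h3] at h1
      exact h1
    have hinv : 0 ≤ (∏ s ∈ Ico (d + 1) (k + j), (((s : ℝ) - d) * ((N : ℝ) - s - d - 1)))⁻¹ := by
      apply inv_nonneg.2
      apply prod_nonneg
      intro s hs
      rw [mem_Ico] at hs
      apply mul_nonneg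
      · have : (d : ℝ) ≤ s := by exact_mod_cast (by omega : d ≤ s)
        linarith
      · have : ((s + d + 1 : ℕ) : ℝ) ≤ N := by exact_mod_cast (by omega : s + d + 1 ≤ N)
        push_cast at this
        linarith
    have hlam : 0 ≤ (((k : ℝ) + j) - d) * ((N : ℝ) - (k + j) - d - 1) := by
      apply mul_nonneg
      · have : (d : ℝ) ≤ ((k + j : ℕ) : ℝ) := by exact_mod_cast (by omega : d ≤ k + j)
        push_cast at this
        linarith
      · have : ((k + j + d + 1 : ℕ) : ℝ) ≤ N := by exact_mod_cast (by omega : k + j + d + 1 ≤ N)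
        push_cast at this
        linarith
    push_cast at hs
    rw [prod_range_succ] at hn ⊢
    set P : ℝ := ∏ i ∈ range j, (((k : ℝ) + i - d) * ((N : ℝ) - k - i - d - 1)) with hP
    have hx : nsq (k + (j + 1)) (Up^[j + 1] (ind A)) ≤
        (((k : ℝ) + j) - d) * ((N : ℝ) - (k + j) - d - 1) *
          ((1 + j / (N : ℝ) ^ 2) * (P * A.card)) +
        P * (((k : ℝ) + j - d) * ((N : ℝ) - k - j - d - 1)) * (A.card : ℝ) / (N : ℝ) ^ 2 := by
      refine le_trans hs (add_le_add ?_ ?_)
      · exact mul_le_mul_of_nonneg_left ih' hlam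
      · refine le_trans (mul_le_mul_of_nonneg_left hnsq hinv) ?_
        exact hn
    refine le_trans hx (le_of_eq ?_)
    push_cast
    ring

end Pool.Agent.Lib.MP_fffc5a_co
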