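import Mathlib
import Pool.Agent.Lib.MP_fffc5a_co.DefsC
import Pool.Agent.Lib.MP_fffc5a_co.DefsH
import Pool.Agent.Lib.MP_fffc5a_co.OpSums
import Pool.Agent.Lib.MP_fffc5a_co.ManyStep

/-!
Task H13: a lower bound for a family of large sets in which every member of a small family of
`k`-sets has almost full degree.
-/

set_option autoImplicit false

open Finset

namespace Pool.Agent.Lib.MP_fffc5a_co

theorem shadow_many {β : Type*} [Fintype β] [DecidableEq β] {k a d : ℕ} (ha : 2 ≤ a)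
    (hd : d + 1 ≤ k) (hN : Fintype.card β = 2 * k + a - 1) {A W : Finset (Finset β)}
    (hA : ∀ s ∈ A, s.card = k) (hW : ∀ s ∈ W, s.card = k + a - 1)
    (he : A.card * (2 * k + a - 1) ^ (5 * d + 6) ≤ (2 * k + a - 1).choose k) {Δ : ℝ} (hΔ : Δ ≤ 1)
    (h : ∀ G ∈ A, (1 - Δ) * (k + a - 1).choose (a - 1) ≤ ((W.filter fun Z => G ⊆ Z).card : ℝ)) :
    (1 - Δ) ^ 2 * (∏ i ∈ range (a - 1), ((k + 1 + i : ℝ) / (k + i - d)) ^ 2) * A.card ≤
      (1 + a / (2 * k + a - 1 : ℝ) ^ 2) * W.card := by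
  classical
  obtain ⟨j, rfl⟩ : ∃ j, a = j + 1 := ⟨a - 1, by omega⟩
  rw [show k + (j + 1) - 1 = k + j by omega, show j + 1 - 1 = j by omega] at *
  rw [show 2 * k + (j + 1) - 1 = 2 * k + j by omega] at *
  have hms := many_step (β := β) hd hA (by rw [hN]; exact he) j (by omega)
  rw [hN] at hms
  set φ : Finset β → ℝ := Up^[j] (ind A) with hφ
  -- the sum over W
  have hsum : ∑ Z ∈ W, φ Z = (j.factorial : ℝ) * ∑ G ∈ A, ((W.filter fun Z => G ⊆ Z).card : ℝ) := by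
    have h1 : ∀ Z ∈ W, φ Z = (j.factorial : ℝ) * ((A.filter fun s => s ⊆ Z).card : ℝ) :=
      fun Z hZ => up_iter_ind hA j (hW Z hZ)
    rw [sum_congr rfl h1, ← mul_sum]
    congr 1
    have h2 : ∑ Z ∈ W, (A.filter fun s => s ⊆ Z).card = ∑ G ∈ A, (W.filter fun Z => G ⊆ Z).card := by
      simp only [card_filter]
      rw [sum_comm]
    exact_mod_cast h2
  have hlow : (j.factorial : ℝ) * ((1 - Δ) * ((k + j).choose j : ℝ) * A.card) ≤ ∑ Z ∈ W, φ Z := by
    rw [hsum]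
    apply mul_le_mul_of_nonneg_left _ (Nat.cast_nonneg _)
    calc (1 - Δ) * ((k + j).choose j : ℝ) * A.card = ∑ _G ∈ A, (1 - Δ) * ((k + j).choose j : ℝ) := by
          rw [sum_const, nsmul_eq_mul]
          ring
      _ ≤ _ := sum_le_sum h
  have hcs : (∑ Z ∈ W, φ Z) ^ 2 ≤ (W.card : ℝ) * nsq (k + j) φ := by
    have h1 : (∑ Z ∈ W, φ Z) ^ 2 ≤ (W.card : ℝ) * ∑ Z ∈ W, φ Z ^ 2 := sq_sum_le_card_mul_sum_sq
    refine le_trans h1 ?_
    apply mul_le_mul_of_nonneg_left _ (Nat.cast_nonneg _)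
    unfold nsq
    apply sum_le_sum_of_subset_of_nonneg
    · intro Z hZ
      rw [mem_powersetCard]
      exact ⟨subset_univ _, hW Z hZ⟩
    · intro _ _ _
      positivity
  -- the product
  have hprod : ∏ i ∈ range j, (((k : ℝ) + i - d) * (((2 * k + j : ℕ) : ℝ) - k - i - d - 1)) =
      (∏ i ∈ range j, ((k : ℝ) + i - d)) ^ 2 := by
    rw [prod_mul_distrib, sq]
    congr 1
    rw [← prod_range_reflect]
    apply prod_congr rfl
    intro i hi
    rw [mem_range] at hi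
    have : ((j - 1 - i : ℕ) : ℝ) = (j : ℝ) - 1 - i := by
      rw [Nat.cast_sub (by omega), Nat.cast_sub (by omega)]
      simp
    rw [this]
    push_cast
    ring
  rw [hprod] at hms
  have hfac : (j.factorial : ℝ) * ((k + j).choose j : ℝ) = ∏ i ∈ range j, ((k : ℝ) + 1 + i) := by
    have h1 := Nat.ascFactorial_eq_factorial_mul_choose k j
    have h2 := Nat.ascFactorial_eq_prod_range (k + 1) j
    have h3 : j.factorial * (k + j).choose j = ∏ i ∈ range j, (k + 1 + i) := by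
      rw [← h1, h2]
    exact_mod_cast h3
  have hPd : 0 < ∏ i ∈ range j, ((k : ℝ) + i - d) := by
    apply prod_pos
    intro i _
    have : ((d + 1 : ℕ) : ℝ) ≤ k := by exact_mod_cast hd
    push_cast at this
    have := Nat.cast_nonneg (α := ℝ) i
    linarith
  rw [prod_pow, prod_div_distrib]
  set P : ℝ := ∏ i ∈ range j, ((k : ℝ) + i - d) with hP
  set Q : ℝ := ∏ i ∈ range j, ((k : ℝ) + 1 + i) with hQ
  have hQ0 : 0 ≤ Q := by
    apply prod_nonneg
    intro i _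
    positivity
  rcases Nat.eq_zero_or_pos A.card with hA0 | hApos
  · rw [hA0]
    simp only [Nat.cast_zero, mul_zero]
    positivity
  have hAr : (0 : ℝ) < A.card := by exact_mod_cast hApos
  have hΔ' : 0 ≤ 1 - Δ := by linarith
  have hmain : ((1 - Δ) * Q * A.card) ^ 2 ≤
      (W.card : ℝ) * ((1 + j / ((2 * k + j : ℕ) : ℝ) ^ 2) * (P ^ 2 * A.card)) := by
    have h1 : ((1 - Δ) * Q * A.card) ^ 2 ≤ (∑ Z ∈ W, φ Z) ^ 2 := by
      apply pow_le_pow_left₀ (by positivity)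
      calc (1 - Δ) * Q * A.card = (j.factorial : ℝ) * ((1 - Δ) * ((k + j).choose j : ℝ) * A.card) := by
            rw [← hfac]
            ring
        _ ≤ _ := hlow
    exact h1.trans (hcs.trans (mul_le_mul_of_nonneg_left hms (Nat.cast_nonneg _)))
  have hmain2 : (1 - Δ) ^ 2 * Q ^ 2 * A.card ≤
      (W.card : ℝ) * ((1 + j / ((2 * k + j : ℕ) : ℝ) ^ 2) * P ^ 2) := by
    have e1 : ((1 - Δ) ^ 2 * Q ^ 2 * A.card) * A.card ≤
        ((W.card : ℝ) * ((1 + j / ((2 * k + j : ℕ) : ℝ) ^ 2) * P ^ 2)) * A.card := by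
      calc ((1 - Δ) ^ 2 * Q ^ 2 * A.card) * A.card = ((1 - Δ) * Q * A.card) ^ 2 := by ring
        _ ≤ _ := hmain
        _ = _ := by ring
    exact le_of_mul_le_mul_right e1 hAr
  have hP2 : 0 < P ^ 2 := by positivity
  rw [div_pow, ← mul_div_assoc, div_mul_eq_mul_div, div_le_iff₀ hP2]
  refine hmain2.trans ?_
  have e2 : ((2 * k + j : ℕ) : ℝ) = 2 * (k : ℝ) + ((j + 1 : ℕ) : ℝ) - 1 := by
    push_cast
    ring
  rw [← e2]
  have e3 : (j : ℝ) / ((2 * k + j : ℕ) : ℝ) ^ 2 ≤ ((j + 1 : ℕ) : ℝ) / ((2 * k + j : ℕ) : ℝ) ^ 2 := by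
    apply div_le_div_of_nonneg_right _ (by positivity)
    push_cast
    linarith
  calc (W.card : ℝ) * ((1 + j / ((2 * k + j : ℕ) : ℝ) ^ 2) * P ^ 2)
      = (1 + j / ((2 * k + j : ℕ) : ℝ) ^ 2) * ((W.card : ℝ) * P ^ 2) := by ring
    _ ≤ (1 + ((j + 1 : ℕ) : ℝ) / ((2 * k + j : ℕ) : ℝ) ^ 2) * ((W.card : ℝ) * P ^ 2) := by
        apply mul_le_mul_of_nonneg_right _ (by positivity)
        linarith
    _ = _ := by ring

end Pool.Agent.Lib.MP_fffc5a_co
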