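import Mathlib

/-! Task H14: numerical comparison for the shadow estimate. -/

set_option autoImplicit false

namespace Pool.Agent.Lib.MP_fffc5a_co

open Finset

theorem h14_prod {k a v : ℕ} (ha : 2 ≤ a) (hv : 2 ≤ v) (hak : 1000 * a * v ≤ k) :
    1 + (a : ℝ) * (64 * v + 1) / (k + a) ≤
      ∏ i ∈ range (a - 1), ((k + 1 + i : ℝ) / (k + i - (64 * v : ℕ))) ^ 2 := by
  have hkv : 2000 * v ≤ k := by nlinarith
  have hkvR : (2000 : ℝ) * v ≤ k := by exact_mod_cast hkv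
  have hvR : (2 : ℝ) ≤ v := by exact_mod_cast hv
  have haR : (2 : ℝ) ≤ a := by exact_mod_cast ha
  have hfac : ∀ i ∈ range (a - 1), (1 + (64 * v + 1 : ℝ) / (k + a)) ^ 2 ≤
      ((k + 1 + i : ℝ) / (k + i - (64 * v : ℕ))) ^ 2 := by
    intro i hi
    have hi' : i + 1 < a := by
      have := mem_range.mp hi
      omega
    have hiR : (i : ℝ) + 1 ≤ a := by exact_mod_cast hi'.le
    have hi0 : (0 : ℝ) ≤ i := Nat.cast_nonneg i
    have hden : (0 : ℝ) < k + i - (64 * v : ℕ) := by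
      push_cast
      nlinarith
    apply pow_le_pow_left₀ (by positivity)
    have h1 : ((k : ℝ) + 1 + i) / (k + i - (64 * v : ℕ)) =
        1 + (64 * v + 1 : ℝ) / (k + i - (64 * v : ℕ)) := by
      rw [div_eq_iff hden.ne', add_mul, one_mul, div_mul_cancel₀ _ hden.ne']
      push_cast
      ring
    rw [h1]
    have h2 : (64 * v + 1 : ℝ) / (k + a) ≤ (64 * v + 1 : ℝ) / (k + i - (64 * v : ℕ)) := by
      apply div_le_div_of_nonneg_left (by positivity) hden
      push_cast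
      nlinarith
    linarith
  have h3 : ∏ _i ∈ range (a - 1), (1 + (64 * v + 1 : ℝ) / (k + a)) ^ 2 ≤
      ∏ i ∈ range (a - 1), ((k + 1 + i : ℝ) / (k + i - (64 * v : ℕ))) ^ 2 :=
    prod_le_prod (fun i _ => by positivity) hfac
  rw [prod_const, card_range, ← pow_mul] at h3
  refine le_trans ?_ h3
  have h4 : (1 : ℝ) + ((2 * (a - 1) : ℕ) : ℝ) * ((64 * v + 1 : ℝ) / (k + a)) ≤
      (1 + (64 * v + 1 : ℝ) / (k + a)) ^ (2 * (a - 1)) := by
    apply one_add_mul_le_pow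
    have : (0 : ℝ) ≤ (64 * v + 1 : ℝ) / (k + a) := by positivity
    linarith
  refine le_trans ?_ h4
  have h5 : (a : ℝ) ≤ ((2 * (a - 1) : ℕ) : ℝ) := by
    exact_mod_cast (by omega : a ≤ 2 * (a - 1))
  have h6 : (0 : ℝ) ≤ (64 * v + 1 : ℝ) / (k + a) := by positivity
  rw [mul_div_assoc]
  nlinarith [mul_le_mul_of_nonneg_right h5 h6]

theorem shadow_num {k a v : ℕ} (ha : 2 ≤ a) (hv : 2 ≤ v) (hak : 1000 * a * v ≤ k) :
    ((k : ℝ) + a) * (1 + a / (2 * k + a - 1 : ℝ) ^ 2) ≤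
      (k - v + 1) * ((1 - 8 * a * v / k) ^ 2 *
        (∏ i ∈ range (a - 1), ((k + 1 + i : ℝ) / (k + i - (64 * v : ℕ))) ^ 2)) := by
  have hP := h14_prod ha hv hak
  set P := ∏ i ∈ range (a - 1), ((k + 1 + i : ℝ) / (k + i - (64 * v : ℕ))) ^ 2 with hPdef
  have hvR : (2 : ℝ) ≤ v := by exact_mod_cast hv
  have haR : (2 : ℝ) ≤ a := by exact_mod_cast ha
  have hakR : (1000 : ℝ) * a * v ≤ k := by exact_mod_cast hak
  have hk4 : (4000 : ℝ) ≤ k := by nlinarith
  have hk : (0 : ℝ) < k := by linarith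
  obtain ⟨X, hX⟩ : ∃ X : ℝ, X = a * v / k := ⟨_, rfl⟩
  have hXk : X * k = a * v := by rw [hX, div_mul_cancel₀ _ hk.ne']
  have hX0 : 0 < X := by rw [hX]; positivity
  have hX1 : X ≤ 1 / 1000 := by
    rw [hX, div_le_iff₀ hk]
    linarith
  -- a and v in terms of X
  have ha2 : (a : ℝ) ≤ X / 2 * k := by nlinarith
  have hv2 : (v : ℝ) ≤ X / 2 * k := by nlinarith
  -- lower bound of P
  have hP2 : 1 + 639 / 10 * X ≤ P := by
    refine le_trans ?_ hP
    have h1 : (0 : ℝ) < k + a := by linarith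
    have h2 : 639 / 10 * X ≤ (a : ℝ) * (64 * v + 1) / (k + a) := by
      rw [le_div_iff₀ h1]
      have h3 : (k : ℝ) + a ≤ (1 + X / 2) * k := by linarith
      have h4 : 639 / 10 * X * (k + a) ≤ 639 / 10 * X * ((1 + X / 2) * k) :=
        mul_le_mul_of_nonneg_left h3 (by positivity)
      have h5 : 639 / 10 * X * ((1 + X / 2) * k) = 639 / 10 * (1 + X / 2) * (a * v) := by
        rw [← hXk]; ring
      have h6 : (0 : ℝ) < a * v := by positivity
      rw [h5] at h4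
      nlinarith
    linarith
  have h16 : 1 - 16 * X ≤ (1 - 8 * a * v / k : ℝ) ^ 2 := by
    have : (8 : ℝ) * a * v / k = 8 * X := by rw [hX]; ring
    rw [this]
    nlinarith [sq_nonneg X]
  have hQ : 1 + 46 * X ≤ (1 - 8 * a * v / k : ℝ) ^ 2 * P := by
    calc 1 + 46 * X ≤ (1 - 16 * X) * (1 + 639 / 10 * X) := by nlinarith
      _ ≤ (1 - 8 * a * v / k : ℝ) ^ 2 * P :=
        mul_le_mul h16 hP2 (by positivity) (by positivity)
  have hR : (k : ℝ) * (1 - X / 2) ≤ k - v + 1 := by nlinarith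
  have hL : ((k : ℝ) + a) * (1 + a / (2 * k + a - 1 : ℝ) ^ 2) ≤
      k * (1 + X / 2) * (1 + X / 2) := by
    apply mul_le_mul (by linarith) _ (by positivity) (by positivity)
    have h1 : (k : ℝ) ^ 2 ≤ (2 * k + a - 1 : ℝ) ^ 2 := by
      apply pow_le_pow_left₀ hk.le
      linarith
    have h2 : (a : ℝ) / (2 * k + a - 1 : ℝ) ^ 2 ≤ a / k ^ 2 :=
      div_le_div_of_nonneg_left (by positivity) (by positivity) h1
    have h3 : (a : ℝ) / k ^ 2 ≤ X / 2 := by
      rw [div_le_iff₀ (by positivity)]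
      nlinarith
    linarith
  calc ((k : ℝ) + a) * (1 + a / (2 * k + a - 1 : ℝ) ^ 2) ≤ k * (1 + X / 2) * (1 + X / 2) := hL
    _ ≤ k * (1 - X / 2) * (1 + 46 * X) := by
        have : (1 + X / 2) * (1 + X / 2) ≤ (1 - X / 2) * (1 + 46 * X) := by nlinarith
        calc (k : ℝ) * (1 + X / 2) * (1 + X / 2) = k * ((1 + X / 2) * (1 + X / 2)) := by ring
          _ ≤ k * ((1 - X / 2) * (1 + 46 * X)) := mul_le_mul_of_nonneg_left this hk.le
          _ = _ := by ring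
    _ ≤ (k - v + 1) * ((1 - 8 * a * v / k : ℝ) ^ 2 * P) :=
        mul_le_mul hR hQ (by positivity) (by nlinarith)

end Pool.Agent.Lib.MP_fffc5a_co
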