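import Mathlib
import Pool.Agent.Lib.MP_fffc5a_co.Defs
import Pool.Agent.Lib.MP_fffc5a_co.DefsC
import Pool.Agent.Lib.MP_fffc5a_co.DefsH
import Pool.Agent.Lib.MP_fffc5a_co.LinkCount
import Pool.Agent.Lib.MP_fffc5a_co.LinkTransfer
import Pool.Agent.Lib.MP_fffc5a_co.Incid
import Pool.Agent.Lib.MP_fffc5a_co.ShadowMany
import Pool.Agent.Lib.MP_fffc5a_co.ShadowNum

/-!
The local theorem: the extras that are in conflict are at most as many as the missing sets.
-/

set_option autoImplicit false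

open Finset

namespace Pool.Agent.Lib.MP_fffc5a_co

/-- The nearly saturated extras are few compared with the active sets. -/
theorem saturated_le {β : Type*} [Fintype β] [DecidableEq β] {v k a : ℕ} (ha : 2 ≤ a)
    (hv : 2 ≤ v) (hak : 1000 * a * v ≤ k) (hN : Fintype.card β = 2 * k + a - 1)
    {E A : Finset (Finset β)} (hE : ∀ s ∈ E, s.card = k) (hA : ∀ s ∈ A, s.card = k + a - 1)
    (hsmall : E.card * (2 * k + a - 1) ^ (5 * (64 * v) + 6) ≤ (2 * k + a - 1).choose k)
    (h : ∀ G ∈ E, (1 - 8 * a * v / k : ℝ) * (k + a - 1).choose (a - 1) ≤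
      ((A.filter fun Z => G ⊆ Z).card : ℝ)) :
    (k + a) * E.card + (v - 1) * A.card ≤ k * A.card := by
  have hav : a * v ≤ k := by
    have : 1000 * a * v = 1000 * (a * v) := by ring
    omega
  have hv64 : 64 * v + 1 ≤ k := by
    have h2 : 2 * v ≤ a * v := Nat.mul_le_mul_right v ha
    have : 1000 * a * v = 1000 * (a * v) := by ring
    omega
  have hvk : v ≤ k := by omega
  have h1 := shadow_many (k := k) (a := a) (d := 64 * v) ha hv64 hN hE hA hsmall
    (Δ := 8 * a * v / k) (by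
      rw [div_le_one (by
        have : 0 < k := by omega
        exact_mod_cast this)]
      have h2 : 8 * (a * v) ≤ k := by
        have : 1000 * a * v = 1000 * (a * v) := by ring
        omega
      have h3 : (8 * (a * v) : ℝ) ≤ k := by exact_mod_cast h2
      linarith) h
  have h2 := shadow_num ha hv hak
  set P : ℝ := (1 - 8 * a * v / k : ℝ) ^ 2 *
    (∏ i ∈ range (a - 1), ((k + 1 + i : ℝ) / (k + i - (64 * v : ℕ))) ^ 2) with hP
  set Q : ℝ := 1 + a / (2 * k + a - 1 : ℝ) ^ 2 with hQ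
  have hQ0 : 0 < Q := by
    rw [hQ]
    positivity
  have h3 : P * E.card ≤ Q * A.card := h1
  have hE0 : (0 : ℝ) ≤ E.card := Nat.cast_nonneg _
  have hvr : (v : ℝ) ≤ k := by exact_mod_cast hvk
  have hkv : (0 : ℝ) ≤ k - v + 1 := by linarith
  have h4 : ((k : ℝ) + a) * Q * E.card ≤ (k - v + 1) * (Q * A.card) := by
    calc ((k : ℝ) + a) * Q * E.card ≤ ((k - v + 1) * P) * E.card :=
          mul_le_mul_of_nonneg_right h2 hE0
      _ = (k - v + 1) * (P * E.card) := by ring
      _ ≤ (k - v + 1) * (Q * A.card) := mul_le_mul_of_nonneg_left h3 hkv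
  have h5 : Q * (((k : ℝ) + a) * E.card) ≤ Q * ((k - v + 1) * A.card) := by linarith
  have h6 : ((k : ℝ) + a) * E.card ≤ (k - v + 1) * A.card := le_of_mul_le_mul_left h5 hQ0
  have h7 : (((k + a) * E.card + (v - 1) * A.card : ℕ) : ℝ) ≤ ((k * A.card : ℕ) : ℝ) := by
    push_cast [Nat.cast_sub (show 1 ≤ v by omega)]
    linarith
  exact_mod_cast h7

theorem local_thm {β : Type*} [Fintype β] [DecidableEq β] {u v k a : ℕ} (hu : 2 ≤ u)
    (huv : u ≤ v) (hau : 8 * u ≤ a) (hak : 1000 * a * v ≤ k)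
    (hN : Fintype.card β = 2 * k + a - 1) {E M : Finset (Finset β)}
    (hE : ∀ s ∈ E, s.card = k) (hM : ∀ Y ∈ M, Y.card = k + a)
    (hact : ∀ W ∈ Act E u (k + a - 1), (Wᶜ.filter fun z => insert z W ∉ M).card ≤ v - 1)
    (hsmall : E.card * (2 * k + a - 1) ^ (5 * (64 * v) + 6) ≤ (2 * k + a - 1).choose k) :
    ∃ E₀ ⊆ E, Wide u (k + a) E₀ ∧ E.card ≤ E₀.card + M.card := by
  classical
  have hav : 1000 * (a * v) ≤ k := by
    have : 1000 * a * v = 1000 * (a * v) := by ring
    omega
  have hak' : 64 * a * v ≤ k := by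
    have : 64 * a * v = 64 * (a * v) := by ring
    omega
  have h2v : 2 * v ≤ a * v := Nat.mul_le_mul_right v (by omega)
  set A := Act E u (k + a - 1) with hAdef
  have hA : ∀ s ∈ A, s.card = k + a - 1 := by
    intro s hs
    exact (mem_powersetCard.1 (mem_filter.1 hs).1).2
  have hsplit := card_filter_add_card_filter_not (s := E) (fun G => ∃ W ∈ A, G ⊆ W)
  set E₀ := E.filter fun G => ¬ ∃ W ∈ A, G ⊆ W with hE₀
  set E' := E.filter fun G => ∃ W ∈ A, G ⊆ W with hE'
  refine ⟨E₀, filter_subset _ _, ?_, ?_⟩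
  · have h1 := wide_of_inactive (u := u) (w := k + a - 1) (by omega)
      (by rw [hN]; omega) (E := E)
    have h2 : k + a - 1 + 1 = k + a := by omega
    rw [h2] at h1
    exact h1
  have hsplit' := card_filter_add_card_filter_not (s := E') (fun G =>
    (1 - 8 * a * v / k : ℝ) * (k + a - 1).choose (a - 1) ≤
      ((A.filter fun W => G ⊆ W).card : ℝ))
  set E₂ := E'.filter fun G => (1 - 8 * a * v / k : ℝ) * (k + a - 1).choose (a - 1) ≤
      ((A.filter fun W => G ⊆ W).card : ℝ) with hE₂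
  set E₁ := E'.filter fun G => ¬ (1 - 8 * a * v / k : ℝ) * (k + a - 1).choose (a - 1) ≤
      ((A.filter fun W => G ⊆ W).card : ℝ) with hE₁
  have hE'E : E' ⊆ E := filter_subset _ _
  have hE₁E : E₁ ⊆ E := (filter_subset _ _).trans hE'E
  have hE₂E : E₂ ⊆ E := (filter_subset _ _).trans hE'E
  -- the saturated ones
  have h1 : (k + a) * E₂.card + (v - 1) * A.card ≤ k * A.card := by
    refine saturated_le (by omega) (by omega) hak hN (fun s hs => hE s (hE₂E hs)) hA ?_
      (fun G hG => (mem_filter.1 hG).2)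
    exact le_trans (Nat.mul_le_mul_right _ (card_le_card hE₂E)) hsmall
  -- the others
  have h2 : E₁.card * (2 * (u - 1) * (k + a)) ≤ ∑ G ∈ E, Jn A M G := by
    calc E₁.card * (2 * (u - 1) * (k + a)) = ∑ _G ∈ E₁, 2 * (u - 1) * (k + a) := by
          rw [sum_const, smul_eq_mul]
      _ ≤ ∑ G ∈ E₁, Jn A M G := by
          refine sum_le_sum fun G hG => ?_
          have h3 := mem_filter.1 hG
          have h4 := mem_filter.1 h3.1
          exact (link_transfer hu huv hau hak' hN hA hM hact (hE G h4.1) h4.2).resolve_right h3.2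
      _ ≤ ∑ G ∈ E, Jn A M G := sum_le_sum_of_subset hE₁E
  have h3 := incid (u := u) (k := k) (a := a) (by omega) (E := E) hM
  rw [← hAdef] at h3
  have h4 := jn_add_jp (k := 0) (a := k + a) A (M := M) (fun Y hY => by
    rw [hM Y hY]; omega) (G := ∅) card_empty
  have h5 : (M.filter fun Y => ∅ ⊆ Y) = M := filter_true_of_mem fun _ _ => empty_subset _
  rw [h5] at h4
  have h6 := jp_lower (w := k + a - 1) (k := k) (v := v) (by omega) (A := A) (M := M)
    (by rw [hN]; omega) hA (fun Y hY => by rw [hM Y hY]; omega) hact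
  have h7 : (u - 1) * (2 * (k + a) * E₁.card) ≤ (u - 1) * Jn A M ∅ := by
    calc (u - 1) * (2 * (k + a) * E₁.card) = E₁.card * (2 * (u - 1) * (k + a)) := by ring
      _ ≤ _ := h2
      _ ≤ _ := h3
  have h8 : 2 * (k + a) * E₁.card ≤ Jn A M ∅ := le_of_mul_le_mul_left h7 (by omega)
  have h9 : A.card * (v - 1) = (v - 1) * A.card := by ring
  have h10 : A.card * k = k * A.card := by ring
  have h11 : (k + a) * (2 * E₁.card + E₂.card) ≤ (k + a) * M.card := by
    have : (k + a) * (2 * E₁.card + E₂.card) = 2 * (k + a) * E₁.card + (k + a) * E₂.card := by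
      ring
    omega
  have h12 : 2 * E₁.card + E₂.card ≤ M.card := le_of_mul_le_mul_left h11 (by omega)
  omega

end Pool.Agent.Lib.MP_fffc5a_co
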