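import Mathlib
import Pool.Agent.Lib.MP_fffc5a_co.Defs
import Pool.Agent.Lib.MP_fffc5a_co.DefsC
import Pool.Agent.Lib.MP_fffc5a_co.DefsH
import Pool.Agent.Lib.MP_fffc5a_co.Kst

/-!
Transfer from a union-intersecting family to extras and missing sets on the complement of a point.
-/

set_option autoImplicit false

open Finset

namespace Pool.Agent.Lib.MP_fffc5a_co

/-- the embedding of the complement of a point -/
private def lt_em {n : ℕ} (x : Fin n) : {y : Fin n // y ≠ x} ↪ Fin n :=
  Function.Embedding.subtype _

private theorem lt_not_mem {n : ℕ} (x : Fin n) (Y : Finset {y : Fin n // y ≠ x}) :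
    x ∉ Y.map (lt_em x) := by
  intro h
  obtain ⟨y, _, hy⟩ := Finset.mem_map.1 h
  exact y.2 hy

private theorem lt_surj {n : ℕ} (x : Fin n) {s : Finset (Fin n)} (hs : x ∉ s) :
    (s.subtype (fun y => y ≠ x)).map (lt_em x) = s := by
  unfold lt_em
  exact Finset.subtype_map_of_mem (fun y hy h => hs (h ▸ hy))

/-- Transfer from a union-intersecting family on `Fin n` to extras and missing sets on the
complement of a point. -/
theorem local_transfer {u v k a : ℕ} (hv : 1 ≤ v) (hk : 1 ≤ k)
    {F : Finset (Finset (Fin (2 * k + a)))} (hF : ∀ s ∈ F, s.card = k) (hUI : UI u v F)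
    (x : Fin (2 * k + a)) :
    ∃ E M : Finset (Finset {y : Fin (2 * k + a) // y ≠ x}),
      (∀ s ∈ E, s.card = k) ∧ (∀ Y ∈ M, Y.card = k + a) ∧
      (∀ W ∈ Act E u (k + a - 1), (Wᶜ.filter fun z => insert z W ∉ M).card ≤ v - 1) ∧
      E.card = (F.filter fun s => x ∉ s).card ∧
      F.card + M.card = E.card + (2 * k + a - 1).choose (k - 1) := by
  have hcardβ : Fintype.card {y : Fin (2 * k + a) // y ≠ x} = 2 * k + a - 1 := by
    rw [Fintype.card_subtype_compl]
    simp
  set E : Finset (Finset {y : Fin (2 * k + a) // y ≠ x}) :=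
    univ.filter (fun Y => Y.map (lt_em x) ∈ F) with hE
  set M : Finset (Finset {y : Fin (2 * k + a) // y ≠ x}) :=
    (powersetCard (k + a) univ).filter (fun Y => (Y.map (lt_em x))ᶜ ∉ F) with hM
  have hEcard : E.card = (F.filter fun s => x ∉ s).card := by
    rw [← Finset.card_image_of_injective E (Finset.map_injective (lt_em x))]
    congr 1
    ext s
    rw [Finset.mem_image, Finset.mem_filter]
    constructor
    · rintro ⟨Y, hY, rfl⟩
      exact ⟨(Finset.mem_filter.1 hY).2, lt_not_mem x Y⟩
    · rintro ⟨hs, hxs⟩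
      refine ⟨s.subtype (fun y => y ≠ x), ?_, lt_surj x hxs⟩
      rw [hE, Finset.mem_filter]
      exact ⟨mem_univ _, by rw [lt_surj x hxs]; exact hs⟩
  have hMcard : (F.filter fun s => x ∈ s).card + M.card = (2 * k + a - 1).choose (k - 1) := by
    have h1 : (F.filter fun s => x ∈ s).card =
        ((powersetCard (k + a) univ).filter
          (fun Y : Finset {y : Fin (2 * k + a) // y ≠ x} => (Y.map (lt_em x))ᶜ ∈ F)).card := by
      symm
      have hinj : Function.Injective
          (fun Y : Finset {y : Fin (2 * k + a) // y ≠ x} => (Y.map (lt_em x))ᶜ) :=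
        fun Y Y' h => Finset.map_injective (lt_em x) (compl_injective h)
      rw [← Finset.card_image_of_injective _ hinj]
      congr 1
      ext s
      rw [Finset.mem_image, Finset.mem_filter]
      constructor
      · rintro ⟨Y, hY, rfl⟩
        exact ⟨(Finset.mem_filter.1 hY).2, Finset.mem_compl.2 (lt_not_mem x Y)⟩
      · rintro ⟨hs, hxs⟩
        have hxs' : x ∉ sᶜ := fun h => (Finset.mem_compl.1 h) hxs
        refine ⟨sᶜ.subtype (fun y => y ≠ x), ?_, by rw [lt_surj x hxs', compl_compl]⟩
        rw [Finset.mem_filter, Finset.mem_powersetCard]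
        refine ⟨⟨subset_univ _, ?_⟩, by rw [lt_surj x hxs', compl_compl]; exact hs⟩
        rw [← Finset.card_map (lt_em x), lt_surj x hxs', Finset.card_compl, hF s hs,
          Fintype.card_fin]
        omega
    rw [h1, hM, Finset.card_filter_add_card_filter_not, Finset.card_powersetCard,
      Finset.card_univ, hcardβ]
    rw [← Nat.choose_symm (show k - 1 ≤ 2 * k + a - 1 by omega)]
    congr 1
    omega
  refine ⟨E, M, ?_, ?_, ?_, hEcard, ?_⟩
  · intro s hs
    rw [← Finset.card_map (lt_em x)]
    exact hF _ (Finset.mem_filter.1 hs).2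
  · intro Y hY
    exact (Finset.mem_powersetCard.1 (Finset.mem_filter.1 hY).1).2
  · intro W hW
    unfold Act at hW
    rw [Finset.mem_filter, Finset.mem_powersetCard] at hW
    obtain ⟨⟨_, hWc⟩, hWu⟩ := hW
    obtain ⟨T, hT, hTu⟩ := Finset.exists_subset_card_eq hWu
    set T' : Finset (Finset (Fin (2 * k + a))) := T.image (fun Y => Y.map (lt_em x)) with hT'
    have hT'u : T'.card = u := by
      rw [hT', Finset.card_image_of_injective _ (Finset.map_injective (lt_em x)), hTu]
    have hT'F : T' ⊆ F := by
      intro s hs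
      obtain ⟨Y, hY, rfl⟩ := Finset.mem_image.1 hs
      exact (Finset.mem_filter.1 (Finset.mem_filter.1 (hT hY)).1).2
    have hcn : (F.filter fun B => ∀ G ∈ T', Disjoint G B).card ≤ v - 1 := by
      convert common_nbrs hv hUI hT'F hT'u
    refine le_trans ?_ hcn
    refine Finset.card_le_card_of_injOn (fun z => ((insert z W).map (lt_em x))ᶜ) ?_ ?_
    · intro z hz
      rw [Finset.mem_coe, Finset.mem_filter] at hz
      obtain ⟨hzW, hzM⟩ := hz
      have hzW' : z ∉ W := Finset.mem_compl.1 hzW
      have hcz : (insert z W).card = k + a := by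
        rw [Finset.card_insert_of_notMem hzW', hWc]; omega
      have hin : ((insert z W).map (lt_em x))ᶜ ∈ F := by
        by_contra hcon
        exact hzM (Finset.mem_filter.2 ⟨Finset.mem_powersetCard.2 ⟨subset_univ _, hcz⟩, hcon⟩)
      rw [Finset.mem_coe, Finset.mem_filter]
      refine ⟨hin, ?_⟩
      intro G hG
      obtain ⟨Y, hY, rfl⟩ := Finset.mem_image.1 hG
      have hYW : Y ⊆ W := (Finset.mem_filter.1 (hT hY)).2
      rw [Finset.disjoint_right]
      intro b hb hbY
      exact (Finset.mem_compl.1 hb)
        (Finset.map_subset_map.2 (hYW.trans (Finset.subset_insert z W)) hbY)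
    · intro z hz z' hz' h
      rw [Finset.mem_coe, Finset.mem_filter] at hz hz'
      have h1 : insert z W = insert z' W :=
        Finset.map_injective (lt_em x) (compl_injective h)
      have hzW : z ∉ W := Finset.mem_compl.1 hz.1
      have h2 : z ∈ insert z' W := h1 ▸ Finset.mem_insert_self z W
      rcases Finset.mem_insert.1 h2 with h3 | h3
      · exact h3
      · exact absurd h3 hzW
  · have hsplit : (F.filter fun s => x ∈ s).card + (F.filter fun s => x ∉ s).card = F.card :=
      Finset.card_filter_add_card_filter_not (fun s => x ∈ s)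
    omega

end Pool.Agent.Lib.MP_fffc5a_co
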