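import Mathlib
import Pool.Agent.Lib.MP_fffc5a_co.Defs

/-!
The lower bound: a star and `u - 1` further sets.
-/

set_option autoImplicit false

open Finset

namespace Pool.Agent.Lib.MP_fffc5a_co

theorem lower_basic {α : Type*} [Fintype α] [DecidableEq α] [Nonempty α] {u v k : ℕ}
    (hk : 1 ≤ k) (hu : 1 ≤ u) (huv : u ≤ v)
    (hn : u - 1 ≤ (Fintype.card α - 1).choose k) :
    ∃ F : Finset (Finset α), (∀ s ∈ F, s.card = k) ∧ UI u v F ∧
      F.card = (Fintype.card α - 1).choose (k - 1) + (u - 1) := by
  obtain ⟨x⟩ : Nonempty α := inferInstance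
  have hcard : (univ.erase x : Finset α).card = Fintype.card α - 1 := by
    rw [Finset.card_erase_of_mem (Finset.mem_univ x), Finset.card_univ]
  obtain ⟨S, hS⟩ : ∃ S : Finset (Finset α),
      S = ((univ.erase x).powersetCard (k - 1)).image (insert x) := ⟨_, rfl⟩
  have hSx : ∀ s ∈ S, x ∈ s ∧ s.card = k := by
    intro s hs
    rw [hS, Finset.mem_image] at hs
    obtain ⟨t, ht, rfl⟩ := hs
    rw [Finset.mem_powersetCard] at ht
    have hxt : x ∉ t := fun h => Finset.notMem_erase x univ (ht.1 h)
    refine ⟨Finset.mem_insert_self x t, ?_⟩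
    rw [Finset.card_insert_of_notMem hxt, ht.2]
    omega
  have hSc : S.card = (Fintype.card α - 1).choose (k - 1) := by
    rw [hS, Finset.card_image_of_injOn, Finset.card_powersetCard, hcard]
    intro s hs t ht hst
    rw [Finset.mem_coe, Finset.mem_powersetCard] at hs ht
    have hxs : x ∉ s := fun h => Finset.notMem_erase x univ (hs.1 h)
    have hxt : x ∉ t := fun h => Finset.notMem_erase x univ (ht.1 h)
    have h1 := congrArg (fun z => Finset.erase z x) hst
    rwa [Finset.erase_insert hxs, Finset.erase_insert hxt] at h1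
  obtain ⟨T, hT, hTc⟩ := Finset.exists_subset_card_eq
    (s := (univ.erase x : Finset α).powersetCard k) (n := u - 1)
    (by rw [Finset.card_powersetCard, hcard]; exact hn)
  have hTx : ∀ s ∈ T, x ∉ s ∧ s.card = k := by
    intro s hs
    have h1 := Finset.mem_powersetCard.mp (hT hs)
    exact ⟨fun h => Finset.notMem_erase x univ (h1.1 h), h1.2⟩
  have key : ∀ A ⊆ S ∪ T, u ≤ A.card → x ∈ A.biUnion id := by
    intro A hA hAu
    have h1 : ¬ A ⊆ T := by
      intro h
      have := Finset.card_le_card h
      omega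
    rw [Finset.not_subset] at h1
    obtain ⟨s, hsA, hsT⟩ := h1
    rcases Finset.mem_union.mp (hA hsA) with h2 | h2
    · exact Finset.mem_biUnion.mpr ⟨s, hsA, (hSx s h2).1⟩
    · exact absurd h2 hsT
  refine ⟨S ∪ T, ?_, ?_, ?_⟩
  · intro s hs
    rcases Finset.mem_union.mp hs with h | h
    · exact (hSx s h).2
    · exact (hTx s h).2
  · intro A hA B hB hAu hBv hdis
    exact Finset.disjoint_left.mp hdis (key A hA hAu.ge) (key B hB (by omega))
  · rw [Finset.card_union_of_disjoint, hSc, hTc]
    rw [Finset.disjoint_left]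
    intro s hs hs'
    exact (hTx s hs').1 (hSx s hs).1

end Pool.Agent.Lib.MP_fffc5a_co
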