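import Mathlib
import Pool.Agent.Lib.MP_fffc5a_co.Defs

set_option autoImplicit false

open Finset

namespace Pool.Agent.Lib.MP_fffc5a_co

/-- the quotient `C(n,k) / C(n-k,k)` -/
theorem quot_le {u k n : ℕ} (hu : 2 ≤ u) (hk : 1 ≤ k) (hn : (u + 1) * k ≤ n) :
    (u - 1) ^ k * n.choose k ≤ u ^ k * (n - k).choose k := by
  have hfac : 0 < k.factorial := Nat.factorial_pos k
  have h1 : (u - 1) ^ k * n.descFactorial k ≤ u ^ k * (n - k).descFactorial k := by
    rw [Nat.descFactorial_eq_prod_range, Nat.descFactorial_eq_prod_range]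
    have e1 : (u - 1) ^ k = ∏ _i ∈ range k, (u - 1) := by simp
    have e2 : u ^ k = ∏ _i ∈ range k, u := by simp
    rw [e1, e2, ← Finset.prod_mul_distrib, ← Finset.prod_mul_distrib]
    refine Finset.prod_le_prod' fun i hi => ?_
    rw [Finset.mem_range] at hi
    obtain ⟨m, rfl⟩ : ∃ m, n = u * k + k + m := ⟨n - (u * k + k), by
      have : (u + 1) * k = u * k + k := by ring
      omega⟩
    obtain ⟨c, rfl⟩ : ∃ c, k = i + 1 + c := ⟨k - (i + 1), by omega⟩
    obtain ⟨w, rfl⟩ : ∃ w, u = w + 1 := ⟨u - 1, by omega⟩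
    have e3 : (w + 1) * (i + 1 + c) + (i + 1 + c) + m - i
        = (w + 1) * (i + 1 + c) + (1 + c) + m := by omega
    have e4 : (w + 1) * (i + 1 + c) + (i + 1 + c) + m - (i + 1 + c) - i
        = w * (i + 1 + c) + (1 + c) + m := by
      have : (w + 1) * (i + 1 + c) = w * (i + 1 + c) + (i + 1 + c) := by ring
      omega
    rw [e3, e4, Nat.add_sub_cancel]
    nlinarith [Nat.zero_le m, Nat.zero_le c]
  rw [Nat.descFactorial_eq_factorial_mul_choose, Nat.descFactorial_eq_factorial_mul_choose] at h1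
  refine Nat.le_of_mul_le_mul_left ?_ hfac
  calc k.factorial * ((u - 1) ^ k * n.choose k)
      = (u - 1) ^ k * (k.factorial * n.choose k) := by ring
    _ ≤ u ^ k * (k.factorial * (n - k).choose k) := h1
    _ = k.factorial * (u ^ k * (n - k).choose k) := by ring

theorem quot_aux (m : ℕ) (hm : 1 ≤ m) : (m + 1) ^ (m + 2) ≤ 8 * m ^ (m + 2) := by
  rcases Nat.eq_or_lt_of_le hm with rfl | hm2
  · norm_num
  · have hm0 : (0 : ℝ) < m := by exact_mod_cast hm
    have h1 : (1 + 1 / (m : ℝ)) ^ m ≤ Real.exp 1 := by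
      have h2 : 1 + 1 / (m : ℝ) ≤ Real.exp (1 / m) := by
        have := Real.add_one_le_exp (1 / (m : ℝ))
        linarith
      calc (1 + 1 / (m : ℝ)) ^ m ≤ (Real.exp (1 / m)) ^ m :=
            pow_le_pow_left₀ (by positivity) h2 m
        _ = Real.exp 1 := by
            rw [← Real.exp_nat_mul]
            congr 1
            field_simp
    have h3 : (1 + 1 / (m : ℝ)) ^ 2 ≤ 9 / 4 := by
      have h4 : 1 / (m : ℝ) ≤ 1 / 2 := by
        apply one_div_le_one_div_of_le (by norm_num)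
        exact_mod_cast hm2
      have h5 : 0 ≤ 1 / (m : ℝ) := by positivity
      nlinarith
    have h6 := Real.exp_one_lt_d9
    have h7 : (1 + 1 / (m : ℝ)) ^ (m + 2) ≤ 8 := by
      rw [pow_add]
      calc (1 + 1 / (m : ℝ)) ^ m * (1 + 1 / (m : ℝ)) ^ 2 ≤ 3 * (9 / 4) := by
            apply mul_le_mul (by linarith) h3 (by positivity) (by norm_num)
        _ ≤ 8 := by norm_num
    have h8 : ((m : ℝ) + 1) ^ (m + 2) ≤ 8 * (m : ℝ) ^ (m + 2) := by
      have h9 : (m : ℝ) + 1 = (1 + 1 / (m : ℝ)) * m := by field_simp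
      rw [h9, mul_pow]
      exact mul_le_mul_of_nonneg_right h7 (by positivity)
    exact_mod_cast h8

theorem pow_quot_le {u j : ℕ} (hu : 2 ≤ u) :
    u ^ ((u + 1) * j) ≤ 8 ^ j * (u - 1) ^ ((u + 1) * j) := by
  obtain ⟨m, rfl⟩ : ∃ m, u = m + 1 := ⟨u - 1, by omega⟩
  rw [Nat.add_sub_cancel, pow_mul, pow_mul, ← mul_pow]
  exact Nat.pow_le_pow_left (quot_aux m (by omega)) j

end Pool.Agent.Lib.MP_fffc5a_co
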