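import Mathlib
import Pool.Agent.Lib.MP_fffc5a_co.Defs
import Pool.Agent.Lib.MP_fffc5a_co.Quot
import Pool.Agent.Lib.MP_fffc5a_co.Step

/-!
# MP_fffc5a_co (C5): the numerical inequality for large `n`
-/

set_option autoImplicit false

open Finset

namespace Pool.Agent.Lib.MP_fffc5a_co

/-- polynomials are smaller than exponentials -/
theorem numLarge_exp (C : ℕ) : ∃ k₀ : ℕ, ∀ k, k₀ ≤ k → C * k ^ 8 < 2 ^ k := by
  have h := tendsto_pow_const_mul_const_pow_of_abs_lt_one 8 (r := (1 / 2 : ℝ))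
    (by rw [abs_of_pos] <;> norm_num)
  have hpos : (0 : ℝ) < 1 / (C + 1) := by positivity
  have h2 := h.eventually (gt_mem_nhds hpos)
  obtain ⟨k₀, hk₀⟩ := Filter.eventually_atTop.1 h2
  refine ⟨k₀, fun k hk => ?_⟩
  have h3 := hk₀ k hk
  have h4 : (C : ℝ) * (k : ℝ) ^ 8 < 2 ^ k := by
    have h5 : (k : ℝ) ^ 8 * (1 / 2) ^ k * (C + 1) < 1 := by
      rwa [lt_div_iff₀ (by positivity)] at h3
    have h6 : (0 : ℝ) < 2 ^ k := by positivity
    have h7 : (k : ℝ) ^ 8 * (C + 1) < 2 ^ k := by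
      have h8 : (k : ℝ) ^ 8 * (1 / 2) ^ k * (C + 1) = (k : ℝ) ^ 8 * (C + 1) / 2 ^ k := by
        rw [one_div, inv_pow]; field_simp
      rw [h8, div_lt_one h6] at h5
      exact h5
    have h9 : (0 : ℝ) ≤ (k : ℝ) ^ 8 := by positivity
    nlinarith
  exact_mod_cast h4

/-- the base case -/
theorem numLarge_base (u : ℕ) : ∃ k₀ : ℕ, ∀ k, k₀ ≤ k →
    13 * ((u + 2) * k) ^ 6 * k * 2 ^ k < (2 * k - 1).choose (k - 1) := by
  obtain ⟨k₀, hk₀⟩ := numLarge_exp (52 * (u + 2) ^ 6)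
  refine ⟨max k₀ 1, fun k hk => ?_⟩
  have hk1 : 1 ≤ k := le_trans (le_max_right _ _) hk
  have h1 := hk₀ k (le_trans (le_max_left _ _) hk)
  have h2 : 2 * (2 * k - 1).choose (k - 1) = k.centralBinom := by
    obtain ⟨j, rfl⟩ : ∃ j, k = j + 1 := ⟨k - 1, by omega⟩
    have e1 : 2 * (j + 1) - 1 = 2 * j + 1 := by omega
    rw [Nat.centralBinom, e1, Nat.add_sub_cancel]
    have e2 : 2 * (j + 1) = 2 * j + 1 + 1 := by ring
    rw [e2, Nat.choose_succ_succ]
    have e3 : (2 * j + 1).choose (j + 1) = (2 * j + 1).choose j := by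
      rw [← Nat.choose_symm_of_eq_add]
      omega
    rw [e3]; ring
  have h3 : 4 ^ k ≤ 2 * k * k.centralBinom := Nat.four_pow_le_two_mul_self_mul_centralBinom k hk1
  rw [← h2] at h3
  by_contra hcon
  push Not at hcon
  have h4 : 4 ^ k ≤ 2 * k * (2 * (13 * ((u + 2) * k) ^ 6 * k * 2 ^ k)) :=
    h3.trans (Nat.mul_le_mul_left _ (Nat.mul_le_mul_left _ hcon))
  have h5 : 2 * k * (2 * (13 * ((u + 2) * k) ^ 6 * k * 2 ^ k))
      = 52 * (u + 2) ^ 6 * k ^ 8 * 2 ^ k := by ring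
  have h6 : (4 : ℕ) ^ k = 2 ^ k * 2 ^ k := by rw [← mul_pow]; norm_num
  rw [h5, h6] at h4
  have h7 : 2 ^ k ≤ 52 * (u + 2) ^ 6 * k ^ 8 := Nat.le_of_mul_le_mul_right h4 (by positivity)
  omega

/-- the induction step -/
theorem numLarge_step {u k n : ℕ} (hk : 15 ≤ k) (hn : (u + 2) * k ≤ n)
    (h : 13 * n ^ 6 * k * 2 ^ k < (n - 1 - u * k).choose (k - 1)) :
    13 * (n + 1) ^ 6 * k * 2 ^ k < (n + 1 - 1 - u * k).choose (k - 1) := by
  have hn2 : u * k + 2 * k ≤ n := by nlinarith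
  obtain ⟨A, hA⟩ : ∃ A, n = u * k + 1 + A := ⟨n - (u * k + 1), by omega⟩
  have e1 : n - 1 - u * k = A := by omega
  have e2 : n + 1 - 1 - u * k = A + 1 := by omega
  rw [e1] at h
  rw [e2]
  have hAk : 2 * k ≤ A + 1 := by omega
  have hs : (A + 1).choose (k - 1) * (A + 1 - (k - 1)) = (A + 1) * A.choose (k - 1) := by
    have h1 := Nat.choose_mul_succ_eq A (k - 1)
    rw [← h1]; ring
  have hp := pow_step (m := 6) (k := k - 1) (n := n) (by omega) (by omega)
  have e3 : n + 1 + (k - 1) = n + k := by omega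
  rw [e3] at hp
  obtain ⟨B, hB⟩ : ∃ B, A + 1 - (k - 1) = B := ⟨_, rfl⟩
  have hB' : A + 1 = B + (k - 1) := by omega
  rw [hB] at hs
  have hBpos : 0 < B := by omega
  -- multiply by `(n + 1) * B`
  have key : (n + k) * B ≤ (n + 1) * (A + 1) := by
    have hk' : k = (k - 1) + 1 := by omega
    have hAn : A + 1 ≤ n := by omega
    nlinarith [Nat.zero_le ((k - 1) * (n - A))]
  by_contra hcon
  push Not at hcon
  have h1 : (n + 1) * B * (A + 1).choose (k - 1) ≤ (n + 1) * B * (13 * (n + 1) ^ 6 * k * 2 ^ k) :=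
    Nat.mul_le_mul_left _ hcon
  have h2 : (n + 1) * B * (A + 1).choose (k - 1) = (n + 1) * (A + 1) * A.choose (k - 1) := by
    rw [mul_assoc, mul_comm B, hs]; ring
  have h3 : (n + 1) * B * (13 * (n + 1) ^ 6 * k * 2 ^ k)
      = (13 * B * k * 2 ^ k) * ((n + 1) * (n + 1) ^ 6) := by ring
  have h4 : (13 * B * k * 2 ^ k) * ((n + 1) * (n + 1) ^ 6)
      ≤ (13 * B * k * 2 ^ k) * ((n + k) * n ^ 6) := Nat.mul_le_mul_left _ hp
  have h5 : (13 * B * k * 2 ^ k) * ((n + k) * n ^ 6) = (n + k) * B * (13 * n ^ 6 * k * 2 ^ k) := by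
    ring
  have h6 : (n + k) * B * (13 * n ^ 6 * k * 2 ^ k) < (n + k) * B * A.choose (k - 1) :=
    Nat.mul_lt_mul_of_pos_left h (by positivity)
  have h7 : (n + k) * B * A.choose (k - 1) ≤ (n + 1) * (A + 1) * A.choose (k - 1) :=
    Nat.mul_le_mul_right _ key
  omega

/-- large `n` -/
theorem num_large (u : ℕ) (hu : 2 ≤ u) : ∃ k₀ : ℕ, ∀ k, k₀ ≤ k → ∀ n, (u + 2) * k ≤ n →
    12 * n ^ 6 * k * n.choose k + k * (n - k).choose k <
        (n - 1 - u * k).choose (k - 1) * (n - k).choose k := by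
  obtain ⟨k₀, hk₀⟩ := numLarge_base u
  refine ⟨max k₀ 15, fun k hk => ?_⟩
  have hk1 : 15 ≤ k := le_trans (le_max_right _ _) hk
  have hbase := hk₀ k (le_trans (le_max_left _ _) hk)
  have hmain : ∀ n, (u + 2) * k ≤ n → 13 * n ^ 6 * k * 2 ^ k < (n - 1 - u * k).choose (k - 1) := by
    intro n hn
    induction n, hn using Nat.le_induction with
    | base =>
      have e : (u + 2) * k - 1 - u * k = 2 * k - 1 := by
        have : (u + 2) * k = u * k + 2 * k := by ring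
        omega
      rw [e]
      exact hbase
    | succ n hn ih => exact numLarge_step hk1 hn ih
  intro n hn
  have hn1 : (u + 1) * k ≤ n := le_trans (Nat.mul_le_mul_right _ (by omega)) hn
  have hnk : k ≤ n - k := by
    have : (u + 2) * k = u * k + 2 * k := by ring
    omega
  have hc : 0 < (n - k).choose k := Nat.choose_pos hnk
  have hq := quot_le hu (by omega : 1 ≤ k) hn1
  have hq2 : n.choose k ≤ 2 ^ k * (n - k).choose k := by
    have h1 : u ^ k ≤ 2 ^ k * (u - 1) ^ k := by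
      rw [← mul_pow]
      exact Nat.pow_le_pow_left (by omega) k
    have h2 : (u - 1) ^ k * n.choose k ≤ (u - 1) ^ k * (2 ^ k * (n - k).choose k) := by
      refine hq.trans ?_
      calc u ^ k * (n - k).choose k ≤ 2 ^ k * (u - 1) ^ k * (n - k).choose k :=
            Nat.mul_le_mul_right _ h1
        _ = (u - 1) ^ k * (2 ^ k * (n - k).choose k) := by ring
    exact Nat.le_of_mul_le_mul_left h2 (by have : 0 < u - 1 := by omega
                                           positivity)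
  have hm := hmain n hn
  have hn6 : 1 ≤ n ^ 6 * 2 ^ k := Nat.one_le_iff_ne_zero.2 (by
    have : 0 < n := by omega
    positivity)
  calc 12 * n ^ 6 * k * n.choose k + k * (n - k).choose k
      ≤ 12 * n ^ 6 * k * (2 ^ k * (n - k).choose k) + k * (n - k).choose k * (n ^ 6 * 2 ^ k) := by
        refine Nat.add_le_add (Nat.mul_le_mul_left _ hq2) ?_
        exact Nat.le_mul_of_pos_right _ hn6
    _ = 13 * n ^ 6 * k * 2 ^ k * (n - k).choose k := by ring
    _ < (n - 1 - u * k).choose (k - 1) * (n - k).choose k := Nat.mul_lt_mul_of_pos_right hm hc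

end Pool.Agent.Lib.MP_fffc5a_co
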