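import Mathlib
import Pool.Agent.Lib.MP_fffc5a_co.Step

/-!
The block size `b` in the robust argument.
-/

set_option autoImplicit false

open Finset

namespace Pool.Agent.Lib.MP_fffc5a_co

theorem num_one (u : ℕ) (hu : 2 ≤ u) : ∃ k₀ : ℕ, ∀ k, k₀ ≤ k → ∀ n, (u + 1) * k ≤ n →
    ∃ b : ℕ, 1 ≤ b ∧ b ^ u ≤ n.choose k ∧
      12 * n ^ 6 * k * n.choose k ≤ b * (n - k).choose k := by
  obtain ⟨k₁, hk₁⟩ := all_ineq hu (8 * u)
  refine ⟨max k₁ 3, fun k hk n hn => ?_⟩
  have hka : k₁ ≤ k := le_trans (le_max_left _ _) hk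
  have hkb : 3 ≤ k := le_trans (le_max_right _ _) hk
  have h1 := hk₁ k hka n hn
  have h3k : 3 * k ≤ n := by nlinarith
  have hC : 1 ≤ n.choose k := Nat.choose_pos (by omega)
  set C := n.choose k with hCdef
  set A := (n - k).choose k with hAdef
  -- maximal b
  have hb1 : 1 ^ u ≤ C := by simpa using hC
  set b := Nat.findGreatest (fun b => b ^ u ≤ C) C with hb
  have hbpos : 1 ≤ b := Nat.le_findGreatest hC hb1
  have hbu : b ^ u ≤ C := Nat.findGreatest_spec (P := fun b => b ^ u ≤ C) hC hb1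
  have hbig : C < (b + 1) ^ u := by
    by_contra hcon
    push Not at hcon
    have h2 : b + 1 ≤ C := by
      calc b + 1 = (b + 1) ^ 1 := by ring
        _ ≤ (b + 1) ^ u := Nat.pow_le_pow_right (by omega) (by omega)
        _ ≤ C := hcon
    have := Nat.le_findGreatest (P := fun b => b ^ u ≤ C) h2 hcon
    omega
  refine ⟨b, hbpos, hbu, ?_⟩
  have h2 : C ≤ (2 * b) ^ u := hbig.le.trans (Nat.pow_le_pow_left (by omega) u)
  have h3 : (n ^ 8 * C) ^ u ≤ (2 * b * A) ^ u := by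
    have e1 : C ^ u = C * C ^ (u - 1) := by
      rw [← pow_succ']
      congr 1
      omega
    calc (n ^ 8 * C) ^ u = n ^ (8 * u) * C ^ u := by rw [mul_pow, ← pow_mul]
      _ = C * (n ^ (8 * u) * C ^ (u - 1)) := by rw [e1]; ring
      _ ≤ (2 * b) ^ u * A ^ u := Nat.mul_le_mul h2 h1
      _ = (2 * b * A) ^ u := by rw [← mul_pow]
  have h4 : n ^ 8 * C ≤ 2 * b * A := by
    by_contra hcon
    push Not at hcon
    have := Nat.pow_lt_pow_left hcon (by omega : u ≠ 0)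
    omega
  have h5 : 24 * k ≤ n ^ 2 := by nlinarith
  have h6 : 2 * (12 * n ^ 6 * k * C) ≤ 2 * (b * A) := by
    calc 2 * (12 * n ^ 6 * k * C) = (24 * k) * (n ^ 6 * C) := by ring
      _ ≤ n ^ 2 * (n ^ 6 * C) := Nat.mul_le_mul_right _ h5
      _ = n ^ 8 * C := by ring
      _ ≤ 2 * b * A := h4
      _ = 2 * (b * A) := by ring
  omega

end Pool.Agent.Lib.MP_fffc5a_co
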