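import Mathlib
import Pool.Agent.Lib.MP_fffc5a_co.Defs
import Pool.Agent.Lib.MP_fffc5a_co.DefsC

/-!
The numerical sum in the coding formula: a quasi-convex sequence is at most the sum of its two
ends.
-/

set_option autoImplicit false

open Finset

namespace Pool.Agent.Lib.MP_fffc5a_co

/-- The terms of the sum. -/
noncomputable def e13R (k a i : ℕ) : ℝ :=
  ((k + a).choose (i + 1) : ℝ) / (a.choose (i + 1) * (k - 1 + i).choose i)

theorem e13_nonneg (k a i : ℕ) : 0 ≤ e13R k a i := by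
  unfold e13R; positivity

theorem e13_ratio (k a i : ℕ) (hi : i + 2 ≤ a) :
    e13R (k + 1) a (i + 1) * (((a : ℝ) - i - 1) * (k + 1 + i)) =
      e13R (k + 1) a i * (((k : ℝ) + 1 + a - i - 1) * (i + 1)) := by
  unfold e13R
  have h1 : ((k + 1 + a).choose (i + 1 + 1) : ℝ) * ((i : ℝ) + 1 + 1) =
      (k + 1 + a).choose (i + 1) * ((k : ℝ) + 1 + a - i - 1) := by
    have := Nat.choose_succ_right_eq (k + 1 + a) (i + 1)
    have h : (((k + 1 + a).choose (i + 1 + 1) * (i + 1 + 1) : ℕ) : ℝ) =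
      (((k + 1 + a).choose (i + 1) * (k + 1 + a - (i + 1)) : ℕ) : ℝ) := by rw [this]
    rw [Nat.cast_mul, Nat.cast_mul, Nat.cast_sub (by omega)] at h
    push_cast at h
    linarith
  have h2 : (a.choose (i + 1 + 1) : ℝ) * ((i : ℝ) + 1 + 1) =
      a.choose (i + 1) * ((a : ℝ) - i - 1) := by
    have := Nat.choose_succ_right_eq a (i + 1)
    have h : ((a.choose (i + 1 + 1) * (i + 1 + 1) : ℕ) : ℝ) =
      ((a.choose (i + 1) * (a - (i + 1)) : ℕ) : ℝ) := by rw [this]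
    rw [Nat.cast_mul, Nat.cast_mul, Nat.cast_sub (by omega)] at h
    push_cast at h
    linarith
  have h3 : ((k + 1 - 1 + (i + 1)).choose (i + 1) : ℝ) * ((i : ℝ) + 1) =
      ((k : ℝ) + 1 + i) * (k + 1 - 1 + i).choose i := by
    have := Nat.add_one_mul_choose_eq (k + i) i
    have h : (((k + i + 1) * (k + i).choose i : ℕ) : ℝ) =
      (((k + i + 1).choose (i + 1) * (i + 1) : ℕ) : ℝ) := by rw [this]
    rw [Nat.cast_mul, Nat.cast_mul] at h
    have e1 : k + 1 - 1 + (i + 1) = k + i + 1 := by omega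
    have e2 : k + 1 - 1 + i = k + i := by omega
    rw [e1, e2]
    push_cast at h
    linarith
  have p1 : (0 : ℝ) < a.choose (i + 1 + 1) := by exact_mod_cast Nat.choose_pos (by omega)
  have p2 : (0 : ℝ) < a.choose (i + 1) := by exact_mod_cast Nat.choose_pos (by omega)
  have p3 : (0 : ℝ) < (k + 1 - 1 + (i + 1)).choose (i + 1) := by
    exact_mod_cast Nat.choose_pos (by omega)
  have p4 : (0 : ℝ) < (k + 1 - 1 + i).choose i := by exact_mod_cast Nat.choose_pos (by omega)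
  have q1 : (0 : ℝ) < (i : ℝ) + 1 := by positivity
  have q2 : (0 : ℝ) < (i : ℝ) + 1 + 1 := by positivity
  rw [div_mul_eq_mul_div, div_mul_eq_mul_div, div_eq_div_iff (by positivity) (by positivity)]
  have q3 : (0 : ℝ) < ((i : ℝ) + 1) * ((i : ℝ) + 1 + 1) := by positivity
  apply mul_right_cancel₀ q3.ne'
  set A := ((k + 1 + a).choose (i + 1 + 1) : ℝ)
  set A' := ((k + 1 + a).choose (i + 1) : ℝ)
  set B := (a.choose (i + 1 + 1) : ℝ)
  set B' := (a.choose (i + 1) : ℝ)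
  set G := ((k + 1 - 1 + (i + 1)).choose (i + 1) : ℝ)
  set G' := ((k + 1 - 1 + i).choose i : ℝ)
  calc A * (((a : ℝ) - i - 1) * (k + 1 + i)) * (B' * G') * (((i : ℝ) + 1) * ((i : ℝ) + 1 + 1))
      = (A * ((i : ℝ) + 1 + 1)) * (B' * ((a : ℝ) - i - 1)) * (((k : ℝ) + 1 + i) * G') *
        ((i : ℝ) + 1) := by ring
    _ = (A' * ((k : ℝ) + 1 + a - i - 1)) * (B * ((i : ℝ) + 1 + 1)) * (G * ((i : ℝ) + 1)) *
        ((i : ℝ) + 1) := by rw [h1, ← h2, h3]
    _ = _ := by ring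

theorem e13_quasi (f : ℕ → ℝ) (p q : ℕ) (P : ℕ → Prop) (hP : ∀ i j, i ≤ j → P j → P i)
    (h1 : ∀ i, p ≤ i → i < q → P i → f (i + 1) ≤ f i)
    (h2 : ∀ i, p ≤ i → i < q → ¬ P i → f i ≤ f (i + 1)) (h : ℕ) (hp : p ≤ h) (hq : h ≤ q) :
    f h ≤ f p ∨ f h ≤ f q := by
  by_cases hh : P h
  · left
    have : ∀ d, p + d ≤ h → f (p + d) ≤ f p := by
      intro d
      induction d with
      | zero => intro _; exact le_rfl
      | succ d ih =>
        intro hd
        have := h1 (p + d) (by omega) (by omega) (hP _ h (by omega) hh)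
        have e : p + (d + 1) = p + d + 1 := by ring
        rw [e]
        exact this.trans (ih (by omega))
    have h3 := this (h - p) (by omega)
    rwa [Nat.add_sub_cancel' hp] at h3
  · right
    have : ∀ d, h ≤ q - d → f (q - d) ≤ f q := by
      intro d
      induction d with
      | zero => intro _; exact le_rfl
      | succ d ih =>
        intro hd
        by_cases hz : q ≤ d
        · have e : q - (d + 1) = q - d := by omega
          rw [e]
          exact ih (by omega)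
        · have := h2 (q - (d + 1)) (by omega) (by omega) (fun hc => hh (hP h _ hd hc))
          have e : q - (d + 1) + 1 = q - d := by omega
          rw [e] at this
          exact this.trans (ih (by omega))
    have h3 := this (q - h) (by omega)
    rwa [Nat.sub_sub_self hq] at h3

theorem e13_one (k a : ℕ) (ha : 2 ≤ a) :
    e13R (k + 1) a 1 = (((k : ℝ) + 1 + a) * (k + a)) / (a * (a - 1) * (k + 1)) := by
  unfold e13R
  rw [Nat.choose_one_right, show 1 + 1 = 2 from rfl, Nat.cast_choose_two, Nat.cast_choose_two]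
  have h1 : (0 : ℝ) < (a : ℝ) - 1 := by
    have : (2 : ℝ) ≤ a := by exact_mod_cast ha
    linarith
  have h2 : (0 : ℝ) < a := by linarith
  push_cast
  field_simp
  ring

theorem e13_last (k m : ℕ) :
    e13R (k + 1) (m + 2) m = (((k : ℝ) + m + 3) * (k + m + 2) * (k + m + 1)) /
      ((m + 2) * (m + 1) * (k + 2) * (k + 1)) := by
  unfold e13R
  have e0 : (m + 2).choose (m + 1) = m + 2 := Nat.choose_succ_self_right (m + 1)
  rw [e0]
  have h1 := Nat.add_one_mul_choose_eq (k + m + 2) m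
  have h2 := Nat.choose_mul_succ_eq (k + m + 1) m
  have h3 := Nat.choose_mul_succ_eq (k + m) m
  rw [show k + m + 1 + 1 - m = k + 2 from by omega] at h2
  rw [show k + m + 1 - m = k + 1 from by omega] at h3
  rw [show k + 1 + (m + 2) = k + m + 2 + 1 from by ring,
    show k + 1 - 1 + m = k + m from by omega]
  have h1' : ((k : ℝ) + m + 3) * ((k + m + 2).choose m : ℝ) =
      ((k + m + 2 + 1).choose (m + 1) : ℝ) * (m + 1) := by
    have : (((k + m + 2 + 1) * (k + m + 2).choose m : ℕ) : ℝ) =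
      (((k + m + 2 + 1).choose (m + 1) * (m + 1) : ℕ) : ℝ) := by rw [h1]
    push_cast at this
    linarith
  have h2' : ((k + m + 1).choose m : ℝ) * (k + m + 2) = ((k + m + 2).choose m : ℝ) * (k + 2) := by
    have : (((k + m + 1).choose m * (k + m + 1 + 1) : ℕ) : ℝ) =
      (((k + m + 1 + 1).choose m * (k + 2) : ℕ) : ℝ) := by rw [h2]
    push_cast at this
    rw [show k + m + 1 + 1 = k + m + 2 from rfl] at this
    linarith
  have h3' : ((k + m).choose m : ℝ) * (k + m + 1) = ((k + m + 1).choose m : ℝ) * (k + 1) := by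
    have : (((k + m).choose m * (k + m + 1) : ℕ) : ℝ) =
      (((k + m + 1).choose m * (k + 1) : ℕ) : ℝ) := by rw [h3]
    push_cast at this
    linarith
  have p1 : (0 : ℝ) < (k + m).choose m := by exact_mod_cast Nat.choose_pos (by omega)
  rw [div_eq_div_iff (by positivity) (by positivity)]
  set X := ((k + m + 2 + 1).choose (m + 1) : ℝ)
  set Y := ((k + m + 2).choose m : ℝ)
  set Z := ((k + m + 1).choose m : ℝ)
  set W := ((k + m).choose m : ℝ)
  calc X * ((m + 2) * (m + 1) * (k + 2) * (k + 1))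
      = (X * (m + 1)) * ((m + 2) * (k + 2) * (k + 1)) := by ring
    _ = ((k : ℝ) + m + 3) * (Y * (k + 2)) * ((m + 2) * (k + 1)) := by rw [← h1']; ring
    _ = ((k : ℝ) + m + 3) * (k + m + 2) * (Z * (k + 1)) * (m + 2) := by rw [← h2']; ring
    _ = _ := by rw [← h3']; push_cast; ring

theorem e13_mid (k a h : ℕ) (ha : 5 ≤ a) (h2 : 2 ≤ h) (h3 : h ≤ a - 3) :
    e13R (k + 1) a h ≤ e13R (k + 1) a 2 ∨ e13R (k + 1) a h ≤ e13R (k + 1) a (a - 3) := by
  refine e13_quasi (e13R (k + 1) a) 2 (a - 3)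
    (fun i => ((i : ℝ) + 1) * (2 * k + 1) ≤ a * k) ?_ ?_ ?_ h h2 h3
  · intro i j hij hj
    have : (i : ℝ) ≤ j := by exact_mod_cast hij
    have hk : (0 : ℝ) ≤ k := Nat.cast_nonneg k
    show ((i : ℝ) + 1) * (2 * k + 1) ≤ a * k
    have hj' : ((j : ℝ) + 1) * (2 * k + 1) ≤ a * k := hj
    nlinarith
  · intro i hi hi' hP
    have hP' : ((i : ℝ) + 1) * (2 * k + 1) ≤ a * k := hP
    have hr := e13_ratio k a i (by omega)
    have hX : (0 : ℝ) < ((a : ℝ) - i - 1) * (k + 1 + i) := by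
      have : ((i + 2 : ℕ) : ℝ) ≤ a := by exact_mod_cast (by omega : i + 2 ≤ a)
      push_cast at this
      have h1 : (0 : ℝ) < (a : ℝ) - i - 1 := by linarith
      positivity
    have hXY : ((k : ℝ) + 1 + a - i - 1) * (i + 1) ≤ ((a : ℝ) - i - 1) * (k + 1 + i) := by
      nlinarith
    have h0 := e13_nonneg (k + 1) a i
    apply le_of_mul_le_mul_right _ hX
    rw [hr]
    exact mul_le_mul_of_nonneg_left hXY h0
  · intro i hi hi' hP
    have hP' : a * k < ((i : ℝ) + 1) * (2 * k + 1) := not_le.mp hP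
    have hr := e13_ratio k a i (by omega)
    have hia : ((i + 2 : ℕ) : ℝ) ≤ a := by exact_mod_cast (by omega : i + 2 ≤ a)
    push_cast at hia
    have hY : (0 : ℝ) < ((k : ℝ) + 1 + a - i - 1) * (i + 1) := by
      have h1 : (0 : ℝ) < (k : ℝ) + 1 + a - i - 1 := by
        have : (0 : ℝ) ≤ k := Nat.cast_nonneg k
        linarith
      positivity
    have hXY : ((a : ℝ) - i - 1) * (k + 1 + i) ≤ ((k : ℝ) + 1 + a - i - 1) * (i + 1) := by
      nlinarith
    have h0 := e13_nonneg (k + 1) a (i + 1)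
    apply le_of_mul_le_mul_right _ hY
    rw [← hr]
    exact mul_le_mul_of_nonneg_left hXY h0

theorem num_sum (u : ℕ) (hu : 2 ≤ u) : ∃ C k₀ : ℕ, ∀ k, k₀ ≤ k → ∀ a, a ≤ (u - 1) * k →
    C * k ≤ a ^ 2 →
    2 * ((u - 1 : ℕ) : ℝ) * ∑ i ∈ Icc 1 (a - 2), ((k + a).choose (i + 1) : ℝ) /
      (a.choose (i + 1) * (k - 1 + i).choose i) ≤ 1 / 2 := by
  refine ⟨40 * u ^ 5, 1, ?_⟩
  intro k hk a hak hC
  obtain ⟨k, rfl⟩ : ∃ k', k = k' + 1 := ⟨k - 1, by omega⟩
  have hu5 : 32 ≤ u ^ 5 := by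
    calc 32 = 2 ^ 5 := by norm_num
      _ ≤ u ^ 5 := Nat.pow_le_pow_left hu 5
  have ha : 5 ≤ a := by
    by_contra h
    have h1 : a ^ 2 ≤ 4 ^ 2 := Nat.pow_le_pow_left (by omega) 2
    have h2 : 40 * 32 * 1 ≤ 40 * u ^ 5 * (k + 1) :=
      Nat.mul_le_mul (Nat.mul_le_mul le_rfl hu5) (by omega)
    omega
  have hb : ((k : ℝ) + 1 + a) ≤ u * (k + 1) := by
    have h1 : ((a : ℕ) : ℝ) ≤ (((u - 1) * (k + 1) : ℕ) : ℝ) := by exact_mod_cast hak
    rw [Nat.cast_mul, Nat.cast_sub (by omega)] at h1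
    push_cast at h1
    linarith
  have hkR : (0 : ℝ) ≤ k := Nat.cast_nonneg k
  have haR : (5 : ℝ) ≤ a := by exact_mod_cast ha
  have huR : (2 : ℝ) ≤ u := by exact_mod_cast hu
  have hK : (0 : ℝ) < (k : ℝ) + 1 := by positivity
  have hCR : 40 * (u : ℝ) ^ 5 * ((k : ℝ) + 1) ≤ (a : ℝ) ^ 2 := by exact_mod_cast hC
  -- abbreviate `κ = k / a ^ 2`
  obtain ⟨κ, hκ⟩ : ∃ κ : ℝ, κ = ((k : ℝ) + 1) / (a : ℝ) ^ 2 := ⟨_, rfl⟩
  have hκ0 : 0 ≤ κ := by rw [hκ]; positivity
  have hκa : κ * (a : ℝ) ^ 2 = (k : ℝ) + 1 := by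
    rw [hκ]; field_simp
  have t1 : e13R (k + 1) a 1 ≤ 2 * (u : ℝ) ^ 2 * κ := by
    rw [e13_one k a (by omega), div_le_iff₀ (by
      have : (0 : ℝ) < (a : ℝ) - 1 := by linarith
      positivity)]
    have h1 : ((k : ℝ) + 1 + a) * (k + a) ≤ (u * (k + 1)) * (u * (k + 1)) :=
      mul_le_mul hb (by linarith) (by positivity) (by positivity)
    have h2 : (a : ℝ) ^ 2 ≤ 2 * (a * (a - 1)) := by nlinarith
    calc ((k : ℝ) + 1 + a) * (k + a) ≤ (u * (k + 1)) * (u * (k + 1)) := h1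
      _ = (u : ℝ) ^ 2 * (k + 1) * ((k : ℝ) + 1) := by ring
      _ = (u : ℝ) ^ 2 * (k + 1) * (κ * (a : ℝ) ^ 2) := by rw [hκa]
      _ ≤ (u : ℝ) ^ 2 * (k + 1) * (κ * (2 * (a * (a - 1)))) := by gcongr
      _ = _ := by ring
  have t2 : a * e13R (k + 1) a 2 ≤ 8 * (u : ℝ) ^ 4 * κ := by
    have hr := e13_ratio k a 1 (by omega)
    push_cast at hr
    have h0 := e13_nonneg (k + 1) a 2
    have h1 : e13R (k + 1) a (1 + 1) * (((a : ℝ) - 1 - 1) * (k + 1 + 1)) ≤
        2 * (u : ℝ) ^ 2 * κ * ((u * (k + 1)) * 2) := by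
      rw [hr]
      have : (1 : ℝ) + 1 = 2 := by norm_num
      rw [this]
      refine mul_le_mul t1 ?_ ?_ (by positivity)
      · have : (k : ℝ) + 1 + a - 1 - 1 ≤ u * (k + 1) := by linarith
        linarith
      · have : 0 ≤ (k : ℝ) + 1 + a - 1 - 1 := by linarith
        linarith
    have h2 : a * e13R (k + 1) a 2 * ((k : ℝ) + 1) ≤ 8 * (u : ℝ) ^ 3 * κ * (k + 1) := by
      calc a * e13R (k + 1) a 2 * ((k : ℝ) + 1)
          = e13R (k + 1) a 2 * (a * ((k : ℝ) + 1)) := by ring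
        _ ≤ e13R (k + 1) a 2 * (2 * (((a : ℝ) - 1 - 1) * (k + 1 + 1))) := by
            apply mul_le_mul_of_nonneg_left _ h0
            nlinarith
        _ = 2 * (e13R (k + 1) a (1 + 1) * (((a : ℝ) - 1 - 1) * (k + 1 + 1))) := by
            rw [show 1 + 1 = 2 from rfl]; ring
        _ ≤ 2 * (2 * (u : ℝ) ^ 2 * κ * ((u * (k + 1)) * 2)) := by gcongr
        _ = _ := by ring
    have h3 := le_of_mul_le_mul_right h2 hK
    have h4 : (u : ℝ) ^ 3 ≤ (u : ℝ) ^ 4 := pow_le_pow_right₀ (by linarith) (by norm_num)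
    calc a * e13R (k + 1) a 2 ≤ 8 * (u : ℝ) ^ 3 * κ := h3
      _ ≤ _ := by gcongr
  have t3 : e13R (k + 1) a (a - 2) ≤ 2 * (u : ℝ) ^ 3 * κ := by
    obtain ⟨m, rfl⟩ : ∃ m, a = m + 2 := ⟨a - 2, by omega⟩
    rw [show m + 2 - 2 = m from rfl, e13_last, div_le_iff₀ (by positivity)]
    push_cast at *
    have h1 : ((k : ℝ) + m + 3) * (k + m + 2) * (k + m + 1) ≤
        (u * (k + 1)) * (u * (k + 1)) * (u * (k + 1)) := by
      have hm0 : (0 : ℝ) ≤ m := Nat.cast_nonneg m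
      refine mul_le_mul (mul_le_mul ?_ ?_ ?_ ?_) ?_ ?_ ?_ <;> first | linarith | positivity
    have h2 : ((m : ℝ) + 2) ^ 2 ≤ 2 * ((m + 2) * (m + 1)) := by
      have hm0 : (0 : ℝ) ≤ m := Nat.cast_nonneg m
      nlinarith
    calc ((k : ℝ) + m + 3) * (k + m + 2) * (k + m + 1)
        ≤ (u * (k + 1)) * (u * (k + 1)) * (u * (k + 1)) := h1
      _ = (u : ℝ) ^ 3 * (k + 1) * (k + 1) * ((k : ℝ) + 1) := by ring
      _ ≤ (u : ℝ) ^ 3 * (k + 2) * (k + 1) * ((k : ℝ) + 1) := by gcongr; norm_num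
      _ = (u : ℝ) ^ 3 * (k + 2) * (k + 1) * (κ * ((m : ℝ) + 2) ^ 2) := by rw [hκa]
      _ ≤ (u : ℝ) ^ 3 * (k + 2) * (k + 1) * (κ * (2 * ((m + 2) * (m + 1)))) := by gcongr
      _ = _ := by ring
  have t4 : a * e13R (k + 1) a (a - 3) ≤ 8 * (u : ℝ) ^ 4 * κ := by
    have hr := e13_ratio k a (a - 3) (by omega)
    have e1 : ((a - 3 : ℕ) : ℝ) = (a : ℝ) - 3 := by
      rw [Nat.cast_sub (by omega)]; norm_num
    rw [e1, show a - 3 + 1 = a - 2 from by omega] at hr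
    have h0 := e13_nonneg (k + 1) a (a - 3)
    have h1 : e13R (k + 1) a (a - 3) * (((k : ℝ) + 1 + 2) * (a - 2)) ≤
        2 * (u : ℝ) ^ 3 * κ * (2 * (u * (k + 1))) := by
      have e2 : e13R (k + 1) a (a - 3) * (((k : ℝ) + 1 + 2) * (a - 2)) =
          e13R (k + 1) a (a - 2) * (2 * ((k : ℝ) + 1 + (a - 3))) := by
        have e3 : ((k : ℝ) + 1 + a - (a - 3) - 1) * (a - 3 + 1) =
          ((k : ℝ) + 1 + 2) * (a - 2) := by ring
        have e4 : ((a : ℝ) - (a - 3) - 1) * (k + 1 + (a - 3)) =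
          (2 * ((k : ℝ) + 1 + (a - 3))) := by ring
        rw [← e3, ← e4, hr]
      rw [e2]
      refine mul_le_mul t3 ?_ ?_ (by positivity)
      · linarith
      · linarith
    have h2 : a * e13R (k + 1) a (a - 3) * ((k : ℝ) + 1) ≤ 8 * (u : ℝ) ^ 4 * κ * (k + 1) := by
      calc a * e13R (k + 1) a (a - 3) * ((k : ℝ) + 1)
          = e13R (k + 1) a (a - 3) * (a * ((k : ℝ) + 1)) := by ring
        _ ≤ e13R (k + 1) a (a - 3) * (2 * (((k : ℝ) + 1 + 2) * (a - 2))) := by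
            apply mul_le_mul_of_nonneg_left _ h0
            nlinarith
        _ = 2 * (e13R (k + 1) a (a - 3) * (((k : ℝ) + 1 + 2) * (a - 2))) := by ring
        _ ≤ 2 * (2 * (u : ℝ) ^ 3 * κ * (2 * (u * (k + 1)))) := by gcongr
        _ = _ := by ring
    exact le_of_mul_le_mul_right h2 hK
  have hmid : ∀ h ∈ Icc 2 (a - 3), e13R (k + 1) a h ≤ 8 * (u : ℝ) ^ 4 * κ / a := by
    intro h hh
    rw [mem_Icc] at hh
    rw [le_div_iff₀ (by linarith)]
    rcases e13_mid k a h ha hh.1 hh.2 with h1 | h1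
    · calc e13R (k + 1) a h * a ≤ e13R (k + 1) a 2 * a := by gcongr
        _ = a * e13R (k + 1) a 2 := by ring
        _ ≤ _ := t2
    · calc e13R (k + 1) a h * a ≤ e13R (k + 1) a (a - 3) * a := by gcongr
        _ = a * e13R (k + 1) a (a - 3) := by ring
        _ ≤ _ := t4
  have hsum : ∑ i ∈ Icc 1 (a - 2), e13R (k + 1) a i ≤ 10 * (u : ℝ) ^ 4 * κ := by
    have e1 : Icc 1 (a - 2) = insert 1 (insert (a - 2) (Icc 2 (a - 3))) := by
      ext i
      simp only [mem_Icc, mem_insert]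
      omega
    rw [e1, sum_insert (by simp only [mem_Icc, mem_insert]; omega),
      sum_insert (by simp only [mem_Icc]; omega)]
    have h1 : ∑ i ∈ Icc 2 (a - 3), e13R (k + 1) a i ≤ 8 * (u : ℝ) ^ 4 * κ := by
      calc ∑ i ∈ Icc 2 (a - 3), e13R (k + 1) a i
          ≤ (Icc 2 (a - 3)).card • (8 * (u : ℝ) ^ 4 * κ / a) := sum_le_card_nsmul _ _ _ hmid
        _ = ((Icc 2 (a - 3)).card : ℝ) * (8 * (u : ℝ) ^ 4 * κ / a) := by rw [nsmul_eq_mul]
        _ ≤ (a : ℝ) * (8 * (u : ℝ) ^ 4 * κ / a) := by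
            gcongr
            rw [Nat.card_Icc]
            omega
        _ = _ := by
            have : (a : ℝ) ≠ 0 := by linarith
            field_simp
    have h2 : 2 * (u : ℝ) ^ 2 + 2 * (u : ℝ) ^ 3 ≤ 2 * (u : ℝ) ^ 4 := by
      have h3 : (0 : ℝ) ≤ (u : ℝ) ^ 2 := by positivity
      nlinarith [mul_nonneg h3 (by nlinarith : (0 : ℝ) ≤ (u : ℝ) ^ 2 - u - 1)]
    have h3 : (2 * (u : ℝ) ^ 2 + 2 * (u : ℝ) ^ 3) * κ ≤ 2 * (u : ℝ) ^ 4 * κ := by gcongr
    nlinarith [t1, t3, h1, h3]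
  have hfin : 2 * ((u - 1 : ℕ) : ℝ) * ∑ i ∈ Icc 1 (a - 2), e13R (k + 1) a i ≤ 1 / 2 := by
    rw [Nat.cast_sub (by omega)]
    push_cast
    have h1 : (0 : ℝ) ≤ (u : ℝ) - 1 := by linarith
    calc 2 * ((u : ℝ) - 1) * ∑ i ∈ Icc 1 (a - 2), e13R (k + 1) a i
        ≤ 2 * ((u : ℝ) - 1) * (10 * (u : ℝ) ^ 4 * κ) := by gcongr
      _ ≤ 2 * (u : ℝ) * (10 * (u : ℝ) ^ 4 * κ) := by gcongr; linarith
      _ = 20 * (u : ℝ) ^ 5 * κ := by ring
      _ ≤ 1 / 2 := by
        rw [hκ, ← mul_div_assoc, div_le_iff₀ (by positivity)]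
        linarith
  exact hfin

end Pool.Agent.Lib.MP_fffc5a_co
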