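import Mathlib
import Pool.Agent.Lib.MP_fffc5a_co.Quot
import Pool.Agent.Lib.MP_fffc5a_co.Four
import Pool.Agent.Lib.MP_fffc5a_co.NumLarge

/-!
Numerics: the second numerical inequality.
-/

set_option autoImplicit false

open Finset

namespace Pool.Agent.Lib.MP_fffc5a_co

/-- an exponential beats a polynomial -/
theorem c2_exp_beats (C : ℕ) : ∃ J : ℕ, ∀ m, J ≤ m → C * (m ^ 7 * 8 ^ m) < 9 ^ m := by
  have h := tendsto_pow_const_mul_const_pow_of_abs_lt_one 7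
    (show |(8 / 9 : ℝ)| < 1 by rw [abs_of_pos] <;> norm_num)
  have hC : (0 : ℝ) < 1 / ((C : ℝ) + 1) := by positivity
  obtain ⟨J, hJ⟩ := Filter.eventually_atTop.1 (h.eventually (gt_mem_nhds hC))
  refine ⟨J, fun m hm => ?_⟩
  have h1 := hJ m hm
  have h2 : (0 : ℝ) < (C : ℝ) + 1 := by positivity
  rw [lt_div_iff₀ h2, div_pow, mul_div_assoc', div_mul_eq_mul_div,
    div_lt_one (by positivity)] at h1
  have h3 : (C : ℝ) * ((m : ℝ) ^ 7 * 8 ^ m) < 9 ^ m := by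
    have h4 : (0 : ℝ) ≤ (m : ℝ) ^ 7 * 8 ^ m := by positivity
    nlinarith
  exact_mod_cast h3

/-- `C(n, k) ≤ 8 ^ (j + 1) C(n - k, k)` -/
theorem c2_quot {u k n j : ℕ} (hu : 2 ≤ u) (hk : 1 ≤ k) (hn : (u + 1) * k ≤ n)
    (hj : k ≤ (u + 1) * (j + 1)) : n.choose k ≤ 8 ^ (j + 1) * (n - k).choose k := by
  obtain ⟨e, he⟩ := Nat.exists_eq_add_of_le hj
  have h1 := quot_le hu hk hn
  have h2 := pow_quot_le (j := j + 1) hu
  rw [he] at h2
  have hpos : 0 < (u - 1) ^ (k + e) := Nat.pow_pos (by omega)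
  have h3 : (u - 1) ^ e ≤ u ^ e := Nat.pow_le_pow_left (by omega) e
  apply Nat.le_of_mul_le_mul_left _ hpos
  calc (u - 1) ^ (k + e) * n.choose k
      = (u - 1) ^ e * ((u - 1) ^ k * n.choose k) := by rw [pow_add]; ring
    _ ≤ u ^ e * (u ^ k * (n - k).choose k) := Nat.mul_le_mul h3 h1
    _ = u ^ (k + e) * (n - k).choose k := by rw [pow_add]; ring
    _ ≤ (8 ^ (j + 1) * (u - 1) ^ (k + e)) * (n - k).choose k := Nat.mul_le_mul_right _ h2
    _ = (u - 1) ^ (k + e) * (8 ^ (j + 1) * (n - k).choose k) := by ring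

/-- the lower bound of `C(n - 1 - u k + t, k - 1)` -/
theorem c2_choose {k j N : ℕ} (hj : 2 ≤ j) (hjk : 3 * j ≤ k) (hN : k + j ≤ N + 3) :
    9 ^ (j + 1) ≤ N.choose (k - 1) * 9 ^ 12 := by
  have h1 := choose_four (j - 2)
  have h2 : (4 * (j - 2)).choose (j - 2) ≤ (k + j - 3).choose (j - 2) :=
    Nat.choose_le_choose _ (by omega)
  have h3 : (k + j - 3).choose (j - 2) = (k + j - 3).choose (k - 1) := by
    apply Nat.choose_symm_of_eq_add
    omega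
  have h4 : (k + j - 3).choose (k - 1) ≤ N.choose (k - 1) := Nat.choose_le_choose _ (by omega)
  have h5 : 9 ^ (j + 1) = 9 ^ (j - 2) * 9 ^ 3 := by
    rw [← pow_add]
    congr 1
    omega
  rw [h5]
  calc 9 ^ (j - 2) * 9 ^ 3 ≤ ((4 * (j - 2)).choose (j - 2) * 9 ^ 9) * 9 ^ 3 :=
        Nat.mul_le_mul_right _ h1
    _ = (4 * (j - 2)).choose (j - 2) * 9 ^ 12 := by ring
    _ ≤ N.choose (k - 1) * 9 ^ 12 := Nat.mul_le_mul_right _ ((h2.trans h3.le).trans h4)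

theorem num_two (u : ℕ) (hu : 2 ≤ u) : ∃ k₀ : ℕ, ∀ k, k₀ ≤ k → ∀ n, (u + 1) * k ≤ n →
    ∀ t, k ^ 2 ≤ (t + 2) * (n - 1) →
      12 * n ^ 6 * k * n.choose k + k * (n - k).choose k <
        (n - 1 - u * k + t).choose (k - 1) * (n - k).choose k := by
  obtain ⟨k₁, hk₁⟩ := num_large u hu
  obtain ⟨J, hJ⟩ := c2_exp_beats (9 ^ 12 * (13 * (u + 2) ^ 6 * (u + 1) ^ 7))
  refine ⟨max k₁ ((u + 1) * (J + 2)), fun k hk n hn t ht => ?_⟩
  have hkk₁ : k₁ ≤ k := (le_max_left _ _).trans hk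
  have hkJ : (u + 1) * (J + 2) ≤ k := (le_max_right _ _).trans hk
  have hk1 : 1 ≤ k := by
    have : 1 ≤ (u + 1) * (J + 2) := Nat.mul_pos (by omega) (by omega)
    omega
  have h2k : 2 * k ≤ n := by
    have : 2 * k ≤ (u + 1) * k := Nat.mul_le_mul_right _ (by omega)
    omega
  have hpos : 0 < (n - k).choose k := Nat.choose_pos (by omega)
  rcases le_or_gt ((u + 2) * k) n with hn2 | hn2
  · refine (hk₁ k hkk₁ n hn2).trans_le ?_
    exact Nat.mul_le_mul_right _ (Nat.choose_le_choose _ (by omega))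
  · -- small `n`
    obtain ⟨j, hj⟩ : ∃ j, j = k / (u + 1) := ⟨_, rfl⟩
    have hj1 : (u + 1) * j ≤ k := by rw [hj]; exact Nat.mul_div_le k (u + 1)
    have hj2 : k ≤ (u + 1) * (j + 1) := by
      rw [hj]
      exact (Nat.lt_mul_div_succ k (by omega)).le
    have hjJ : J + 2 ≤ j := by
      rw [hj, Nat.le_div_iff_mul_le (by omega), mul_comm]
      exact hkJ
    have hj3 : 3 * j ≤ k := le_trans (Nat.mul_le_mul_right j (by omega)) hj1
    have h1 := st_ge hu hn hk1 hj1 ht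
    have h2 := c2_choose (by omega) hj3 h1
    have h3 := c2_quot hu hk1 hn hj2
    have h4 := hJ (j + 1) (by omega)
    -- the main estimate
    have h5 : 12 * n ^ 6 * k * 8 ^ (j + 1) + k ≤
        (13 * (u + 2) ^ 6 * (u + 1) ^ 7) * ((j + 1) ^ 7 * 8 ^ (j + 1)) := by
      have h6 : n ^ 6 ≤ ((u + 2) * k) ^ 6 := Nat.pow_le_pow_left hn2.le 6
      have h7 : k ^ 7 ≤ ((u + 1) * (j + 1)) ^ 7 := Nat.pow_le_pow_left hj2 7
      have h8 : k ≤ n ^ 6 * k * 8 ^ (j + 1) := by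
        have : 1 ≤ n ^ 6 * 8 ^ (j + 1) := Nat.mul_pos (Nat.pow_pos (by omega))
          (Nat.pow_pos (by omega))
        calc k = 1 * k := (one_mul k).symm
          _ ≤ (n ^ 6 * 8 ^ (j + 1)) * k := Nat.mul_le_mul_right _ this
          _ = n ^ 6 * k * 8 ^ (j + 1) := by ring
      calc 12 * n ^ 6 * k * 8 ^ (j + 1) + k
          ≤ 12 * n ^ 6 * k * 8 ^ (j + 1) + n ^ 6 * k * 8 ^ (j + 1) := Nat.add_le_add_left h8 _
        _ = (13 * 8 ^ (j + 1)) * (n ^ 6 * k) := by ring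
        _ ≤ (13 * 8 ^ (j + 1)) * (((u + 2) * k) ^ 6 * k) :=
            Nat.mul_le_mul_left _ (Nat.mul_le_mul_right _ h6)
        _ = (13 * 8 ^ (j + 1) * (u + 2) ^ 6) * k ^ 7 := by ring
        _ ≤ (13 * 8 ^ (j + 1) * (u + 2) ^ 6) * ((u + 1) * (j + 1)) ^ 7 :=
            Nat.mul_le_mul_left _ h7
        _ = (13 * (u + 2) ^ 6 * (u + 1) ^ 7) * ((j + 1) ^ 7 * 8 ^ (j + 1)) := by ring
    have h9 : 12 * n ^ 6 * k * 8 ^ (j + 1) + k < (n - 1 - u * k + t).choose (k - 1) := by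
      have h10 : (12 * n ^ 6 * k * 8 ^ (j + 1) + k) * 9 ^ 12 <
          (n - 1 - u * k + t).choose (k - 1) * 9 ^ 12 := by
        calc (12 * n ^ 6 * k * 8 ^ (j + 1) + k) * 9 ^ 12
            ≤ ((13 * (u + 2) ^ 6 * (u + 1) ^ 7) * ((j + 1) ^ 7 * 8 ^ (j + 1))) * 9 ^ 12 :=
              Nat.mul_le_mul_right _ h5
          _ = 9 ^ 12 * (13 * (u + 2) ^ 6 * (u + 1) ^ 7) * ((j + 1) ^ 7 * 8 ^ (j + 1)) := by ring
          _ < 9 ^ (j + 1) := h4
          _ ≤ _ := h2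
      exact lt_of_mul_lt_mul_right h10 (Nat.zero_le _)
    calc 12 * n ^ 6 * k * n.choose k + k * (n - k).choose k
        ≤ 12 * n ^ 6 * k * (8 ^ (j + 1) * (n - k).choose k) + k * (n - k).choose k :=
          Nat.add_le_add_right (Nat.mul_le_mul_left _ h3) _
      _ = (12 * n ^ 6 * k * 8 ^ (j + 1) + k) * (n - k).choose k := by ring
      _ < (n - 1 - u * k + t).choose (k - 1) * (n - k).choose k :=
          Nat.mul_lt_mul_of_pos_right h9 hpos

end Pool.Agent.Lib.MP_fffc5a_co
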