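import Mathlib
import Pool.Agent.Lib.MP_fffc5a_co.Defs
import Pool.Agent.Lib.MP_fffc5a_co.DefsC
import Pool.Agent.Lib.MP_fffc5a_co.DefsH

/-!
A numeric estimate for large `k`.
-/

set_option autoImplicit false

open Finset

namespace Pool.Agent.Lib.MP_fffc5a_co

theorem small_num (D : ℕ) : ∃ a₀ k₀ : ℕ, ∀ k, k₀ ≤ k → ∀ a, a₀ ≤ a → a ≤ k → ∀ e : ℕ,
    e * (k + a / 2).choose k ≤ 3 * (2 * k + a) ^ 6 * (k * (2 * k + a).choose k) →
    e * (2 * k + a - 1) ^ D ≤ (2 * k + a - 1).choose k := by
  refine ⟨2 * (D + 8), (D + 8).factorial * (6 * 3 ^ (D + 6)) + 1, ?_⟩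
  intro k hk a ha hak e he
  set s := D + 8 with hs
  have hkpos : 0 < k := by omega
  -- the lower bound for the binomial coefficient
  have hB1 : (k + s).choose k ≤ (k + a / 2).choose k :=
    Nat.choose_le_choose k (by omega)
  have hB2 : (k + s).choose k = (k + s).choose s := by
    rw [Nat.choose_symm_add]
  have hB3 : (k + 1) ^ s ≤ s.factorial * (k + s).choose s := by
    have h2 := Nat.pow_sub_le_descFactorial (k + s) s
    rw [Nat.descFactorial_eq_factorial_mul_choose] at h2
    have e1 : k + s + 1 - s = k + 1 := by omega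
    rw [e1] at h2
    exact h2
  have hBpos : 0 < (k + a / 2).choose k := Nat.choose_pos (by omega)
  -- the main bound
  have hY : 6 * k * (2 * k + a) ^ 6 * (2 * k + a - 1) ^ D ≤ (k + a / 2).choose k := by
    have h1 : (2 * k + a) ^ 6 ≤ (3 * k) ^ 6 := Nat.pow_le_pow_left (by omega) 6
    have h2 : (2 * k + a - 1) ^ D ≤ (3 * k) ^ D := Nat.pow_le_pow_left (by omega) D
    have h3 : 6 * k * (2 * k + a) ^ 6 * (2 * k + a - 1) ^ D ≤ 6 * k * (3 * k) ^ 6 * (3 * k) ^ D :=
      Nat.mul_le_mul (Nat.mul_le_mul le_rfl h1) h2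
    have h4 : s.factorial * (6 * k * (3 * k) ^ 6 * (3 * k) ^ D) ≤
        s.factorial * (k + a / 2).choose k := by
      calc s.factorial * (6 * k * (3 * k) ^ 6 * (3 * k) ^ D)
          = (s.factorial * (6 * 3 ^ (D + 6))) * k ^ (D + 7) := by
            rw [mul_pow, mul_pow]; ring
        _ ≤ k * k ^ (D + 7) := Nat.mul_le_mul (by omega) le_rfl
        _ = k ^ s := by rw [hs]; ring
        _ ≤ (k + 1) ^ s := Nat.pow_le_pow_left (by omega) s
        _ ≤ s.factorial * (k + s).choose s := hB3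
        _ ≤ s.factorial * (k + a / 2).choose k :=
            Nat.mul_le_mul le_rfl (hB2 ▸ hB1)
    exact h3.trans (Nat.le_of_mul_le_mul_left h4 (Nat.factorial_pos s))
  -- consecutive binomial coefficients
  have hC : (2 * k + a).choose k ≤ 2 * (2 * k + a - 1).choose k := by
    have h := Nat.choose_mul_succ_eq (2 * k + a - 1) k
    have e1 : 2 * k + a - 1 + 1 = 2 * k + a := by omega
    have e2 : 2 * k + a - k = k + a := by omega
    simp only [e1, e2] at h
    have h2 : (2 * k + a).choose k * (k + a) ≤ (2 * (2 * k + a - 1).choose k) * (k + a) := by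
      rw [← h]
      have : (2 * k + a - 1).choose k * (2 * k + a) ≤ (2 * k + a - 1).choose k * (2 * (k + a)) :=
        Nat.mul_le_mul le_rfl (by omega)
      calc (2 * k + a - 1).choose k * (2 * k + a)
          ≤ (2 * k + a - 1).choose k * (2 * (k + a)) := this
        _ = _ := by ring
    exact Nat.le_of_mul_le_mul_right h2 (by omega)
  have hfin : (e * (2 * k + a - 1) ^ D) * (k + a / 2).choose k ≤
      (2 * k + a - 1).choose k * (k + a / 2).choose k := by
    calc (e * (2 * k + a - 1) ^ D) * (k + a / 2).choose k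
        = (e * (k + a / 2).choose k) * (2 * k + a - 1) ^ D := by ring
      _ ≤ (3 * (2 * k + a) ^ 6 * (k * (2 * k + a).choose k)) * (2 * k + a - 1) ^ D :=
          Nat.mul_le_mul he le_rfl
      _ ≤ (3 * (2 * k + a) ^ 6 * (k * (2 * (2 * k + a - 1).choose k))) * (2 * k + a - 1) ^ D :=
          Nat.mul_le_mul (Nat.mul_le_mul le_rfl (Nat.mul_le_mul le_rfl hC)) le_rfl
      _ = (2 * k + a - 1).choose k * (6 * k * (2 * k + a) ^ 6 * (2 * k + a - 1) ^ D) := by ring
      _ ≤ (2 * k + a - 1).choose k * (k + a / 2).choose k := Nat.mul_le_mul le_rfl hY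
  exact Nat.le_of_mul_le_mul_right hfin hBpos

end Pool.Agent.Lib.MP_fffc5a_co
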