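import Mathlib
import Pool.Agent.Lib.MP_fffc5a_co.Defs
import Pool.Agent.Lib.MP_fffc5a_co.DefsH
import Pool.Agent.Lib.MP_fffc5a_co.DefsK
import Pool.Agent.Lib.MP_fffc5a_co.Proj
import Pool.Agent.Lib.MP_fffc5a_co.UpFormula
import Pool.Agent.Lib.MP_fffc5a_co.Hoffman
import Pool.Agent.Lib.MP_fffc5a_co.FknSlice
import Pool.Agent.Lib.MP_fffc5a_co.Endgame

/-!
Stability for a bounded gap: a family with few disjoint pairs and at least as many members as a
star is close to a star.
-/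

set_option autoImplicit false

open Finset

namespace Pool.Agent.Lib.MP_fffc5a_co

theorem k17_choose {k a : ℕ} (hk : 1 ≤ k) (ha : 1 ≤ a) :
    (2 * k + a).choose k ≤ 2 * (2 * k + a - 1).choose k := by
  obtain ⟨j, rfl⟩ : ∃ j, k = j + 1 := ⟨k - 1, by omega⟩
  have e0 : 2 * (j + 1) + a = (2 * (j + 1) + a - 1) + 1 := by omega
  rw [e0, Nat.add_sub_cancel, Nat.choose_succ_succ]
  have : (2 * (j + 1) + a - 1).choose j ≤ (2 * (j + 1) + a - 1).choose (j + 1) :=
    Nat.choose_le_succ_of_lt_half_left (by omega)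
  rw [Nat.succ_eq_add_one]
  omega

theorem stab_const (a C₁ : ℕ) (ha : 2 ≤ a) {ε : ℝ} (hε : 0 < ε) : ∃ k₀ : ℕ, ∀ k : ℕ, k₀ ≤ k →
    ∀ (β : Type) [Fintype β] [DecidableEq β], Fintype.card β = 2 * k + a →
    ∀ F : Finset (Finset β), (∀ s ∈ F, s.card = k) →
    (2 * k + a - 1).choose (k - 1) ≤ F.card → dp F F ≤ C₁ * k ^ (a - 2) * F.card →
    ∃ x : β, ((F.filter fun s => x ∉ s).card : ℝ) ≤ ε * ((2 * k + a - 1).choose k : ℝ) := by
  set ε' : ℝ := min (1 / 16) (ε / 8) with hε'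
  have hε'0 : 0 < ε' := by rw [hε']; exact lt_min (by norm_num) (by linarith)
  have hε'1 : ε' ≤ 1 / 16 := min_le_left _ _
  have hε'2 : ε' ≤ ε / 8 := min_le_right _ _
  obtain ⟨δ, hδ, k1, hk1⟩ := fkn_slice a (by omega) hε'0
  obtain ⟨k2, hk2⟩ := endgame a C₁ ha
  obtain ⟨k3, hk3⟩ := exists_nat_gt ((C₁ : ℝ) * (a - 1).factorial / δ)
  refine ⟨max (max k1 k2) (max k3 2), ?_⟩
  intro k hk β _ _ hN F hF hcard hdp
  have hkk1 : k1 ≤ k := le_trans (le_trans (le_max_left _ _) (le_max_left _ _)) hk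
  have hkk2 : k2 ≤ k := le_trans (le_trans (le_max_right _ _) (le_max_left _ _)) hk
  have hkk3 : k3 ≤ k := le_trans (le_trans (le_max_left _ _) (le_max_right _ _)) hk
  have hk2' : 2 ≤ k := le_trans (le_trans (le_max_right _ _) (le_max_right _ _)) hk
  have hkR : (0 : ℝ) < k := by exact_mod_cast (by omega : 0 < k)
  obtain ⟨ψ, hψ⟩ := proj (β := β) (d := 1) (r := k) (by omega) (ind F)
  have hoff := hoffman hk2' (by omega) hN hF hψ
  set h := nsq k (fun Z => ind F Z - (Up^[k - 1] ψ) Z) with hh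
  set C : ℝ := ((2 * k + a).choose k : ℝ) with hC
  have hCpos : 0 < C := by rw [hC]; exact_mod_cast Nat.choose_pos (by omega)
  -- number of members
  have hFC : (F.card : ℝ) ≤ C := by
    have h1 : F ⊆ powersetCard k univ := fun s hs => mem_powersetCard.2 ⟨subset_univ _, hF s hs⟩
    have h2 := card_le_card h1
    rw [card_powersetCard, card_univ, hN] at h2
    rw [hC]
    exact_mod_cast h2
  -- the first term of the bound of Hoffman is nonnegative
  have hL : (0 : ℝ) < ((2 * k + a - 1).choose (k - 1) : ℝ) := by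
    exact_mod_cast Nat.choose_pos (by omega)
  have hLF : ((2 * k + a - 1).choose (k - 1) : ℝ) ≤ F.card := by exact_mod_cast hcard
  have hfirst : 0 ≤ ((k + a - 1).choose a : ℝ) *
      ((F.card : ℝ) ^ 2 / ((2 * k + a - 1).choose (k - 1) : ℝ) - F.card) := by
    refine mul_nonneg (by positivity) ?_
    rw [sub_nonneg, le_div_iff₀ hL, sq]
    exact mul_le_mul_of_nonneg_left hLF (by positivity)
  have hdpR : (dp F F : ℝ) ≤ C₁ * k ^ (a - 2) * F.card := by exact_mod_cast hdp
  have hmain : ((k + a - 2).choose (a - 1) : ℝ) * h ≤ C₁ * k ^ (a - 2) * C := by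
    have h1 : (C₁ : ℝ) * k ^ (a - 2) * F.card ≤ C₁ * k ^ (a - 2) * C :=
      mul_le_mul_of_nonneg_left hFC (by positivity)
    linarith
  have hchoose : (k : ℝ) ^ (a - 1) ≤ (a - 1).factorial * ((k + a - 2).choose (a - 1) : ℝ) := by
    have h1 := Nat.pow_sub_le_descFactorial (k + a - 2) (a - 1)
    have e : k + a - 2 + 1 - (a - 1) = k := by omega
    rw [e, Nat.descFactorial_eq_factorial_mul_choose] at h1
    exact_mod_cast h1
  have hh0 : 0 ≤ h := Finset.sum_nonneg fun _ _ => sq_nonneg _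
  have hpow : (k : ℝ) ^ (a - 1) = k * k ^ (a - 2) := by
    have e : a - 1 = (a - 2) + 1 := by omega
    rw [e, pow_succ]
    ring
  have hkh : k * h ≤ C₁ * (a - 1).factorial * C := by
    have h1 : (k : ℝ) ^ (a - 1) * h ≤
        (a - 1).factorial * ((k + a - 2).choose (a - 1) : ℝ) * h :=
      mul_le_mul_of_nonneg_right hchoose hh0
    have h2 : ((a - 1).factorial : ℝ) * (((k + a - 2).choose (a - 1) : ℝ) * h) ≤
        (a - 1).factorial * (C₁ * k ^ (a - 2) * C) :=
      mul_le_mul_of_nonneg_left hmain (by positivity)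
    have h3 : (k : ℝ) ^ (a - 2) * (k * h) ≤
        (k : ℝ) ^ (a - 2) * (C₁ * (a - 1).factorial * C) := by
      rw [hpow] at h1
      calc (k : ℝ) ^ (a - 2) * (k * h) = k * k ^ (a - 2) * h := by ring
        _ ≤ (a - 1).factorial * ((k + a - 2).choose (a - 1) : ℝ) * h := h1
        _ = (a - 1).factorial * (((k + a - 2).choose (a - 1) : ℝ) * h) := by ring
        _ ≤ (a - 1).factorial * (C₁ * k ^ (a - 2) * C) := h2
        _ = _ := by ring
    exact le_of_mul_le_mul_left h3 (by positivity)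
  have hhδ : h ≤ δ * C := by
    have h1 : (C₁ : ℝ) * (a - 1).factorial ≤ δ * k := by
      have h2 : (C₁ : ℝ) * (a - 1).factorial / δ < k :=
        lt_of_lt_of_le hk3 (by exact_mod_cast hkk3)
      rw [div_lt_iff₀ hδ] at h2
      linarith
    have h3 : k * h ≤ k * (δ * C) := by
      calc k * h ≤ C₁ * (a - 1).factorial * C := hkh
        _ ≤ δ * k * C := mul_le_mul_of_nonneg_right h1 hCpos.le
        _ = _ := by ring
    exact le_of_mul_le_mul_left h3 hkR
  -- the linear function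
  have hlin : ∀ Z ∈ powersetCard k (univ : Finset β),
      (Up^[k - 1] ψ) Z = ∑ i ∈ Z, ((k - 1).factorial : ℝ) * ψ {i} := by
    intro Z hZ
    have hc := (mem_powersetCard.1 hZ).2
    rw [up_iter_formula ψ (k - 1) 1 Z (by omega), powersetCard_one, Finset.sum_map,
      Finset.mul_sum]
    rfl
  have hsq : ∑ Z ∈ powersetCard k univ,
      (ind F Z - ∑ i ∈ Z, ((k - 1).factorial : ℝ) * ψ {i}) ^ 2 ≤ δ * ((2 * k + a).choose k : ℝ) := by
    refine le_trans (le_of_eq ?_) hhδ
    rw [hh]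
    unfold nsq
    refine Finset.sum_congr rfl fun Z hZ => ?_
    show _ = (ind F Z - (Up^[k - 1] ψ) Z) ^ 2
    rw [hlin Z hZ]
  obtain ⟨x, c, hxc⟩ := hk1 k hkk1 β hN F _ hsq
  have hend := hk2 k hkk2 β hN F hF hdp x c ε' hε'1 hxc
  refine ⟨x, hend.trans ?_⟩
  have h2 := k17_choose (k := k) (a := a) (by omega) (by omega)
  have h3 : C ≤ 2 * ((2 * k + a - 1).choose k : ℝ) := by rw [hC]; exact_mod_cast h2
  calc 4 * ε' * C ≤ 4 * (ε / 8) * (2 * ((2 * k + a - 1).choose k : ℝ)) :=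
        mul_le_mul (by linarith) h3 hCpos.le (by positivity)
    _ = ε * ((2 * k + a - 1).choose k : ℝ) := by ring

end Pool.Agent.Lib.MP_fffc5a_co
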