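import Mathlib
import Pool.Agent.Lib.MP_fffc5a_co.Defs
import Pool.Agent.Lib.MP_fffc5a_co.DefsC

set_option autoImplicit false

/-!
Transfer of a wide family to a larger set.
-/

open Finset

namespace Pool.Agent.Lib.MP_fffc5a_co

theorem code_transfer {α β : Type*} [DecidableEq α] [DecidableEq β] {u w k : ℕ} {Y : Finset α}
    {Z : Finset β} (hYZ : Y.card ≤ Z.card) {E : Finset (Finset α)}
    (hE : ∀ s ∈ E, s ⊆ Y ∧ s.card = k) (hW : Wide u w E) :
    ∃ E' : Finset (Finset β), (∀ s ∈ E', s ⊆ Z ∧ s.card = k) ∧ Wide u w E' ∧
      E'.card = E.card := by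
  classical
  -- an embedding of `Y` into `Z`
  obtain ⟨Z', hZ'Z, hZ'c⟩ := exists_subset_card_eq hYZ
  let e : Y ≃ Z' := Finset.equivOfCardEq hZ'c.symm
  by_cases hY : Y.Nonempty
  · obtain ⟨y0, hy0⟩ := hY
    let f : α → β := fun y => if h : y ∈ Y then (e ⟨y, h⟩ : β) else (e ⟨y0, hy0⟩ : β)
    have hf1 : ∀ y ∈ Y, f y ∈ Z := by
      intro y hy
      simp only [f, dif_pos hy]
      exact hZ'Z (e ⟨y, hy⟩).2
    have hf2 : Set.InjOn f (Y : Set α) := by
      intro y hy z hz hyz
      rw [mem_coe] at hy hz
      simp only [f, dif_pos hy, dif_pos hz] at hyz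
      have := e.injective (Subtype.ext hyz)
      exact congrArg Subtype.val this
    have hinj : Set.InjOn (fun s : Finset α => s.image f) (E : Set (Finset α)) := by
      intro s hs t ht hst
      have hsY := (hE s hs).1
      have htY := (hE t ht).1
      ext y
      constructor
      · intro hy
        have : f y ∈ t.image f := by
          have h : s.image f = t.image f := hst
          rw [← h]
          exact mem_image_of_mem f hy
        obtain ⟨z, hz, hzy⟩ := mem_image.1 this
        rw [← hf2 (htY hz) (hsY hy) hzy]
        exact hz
      · intro hy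
        have : f y ∈ s.image f := by
          have h : s.image f = t.image f := hst
          rw [h]
          exact mem_image_of_mem f hy
        obtain ⟨z, hz, hzy⟩ := mem_image.1 this
        rw [← hf2 (hsY hz) (htY hy) hzy]
        exact hz
    refine ⟨E.image fun s => s.image f, ?_, ?_, card_image_of_injOn hinj⟩
    · intro s hs
      obtain ⟨t, ht, rfl⟩ := mem_image.1 hs
      refine ⟨?_, ?_⟩
      · intro z hz
        obtain ⟨y, hy, rfl⟩ := mem_image.1 hz
        exact hf1 y ((hE t ht).1 hy)
      · rw [card_image_of_injOn (hf2.mono (by exact_mod_cast (hE t ht).1)), (hE t ht).2]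
    · intro T hT hTu
      -- pull back
      let T0 : Finset (Finset α) := E.filter fun s => s.image f ∈ T
      have hT0E : T0 ⊆ E := filter_subset _ _
      have hT0T : T0.image (fun s => s.image f) = T := by
        ext t
        rw [mem_image]
        constructor
        · rintro ⟨s, hs, rfl⟩
          exact (mem_filter.1 hs).2
        · intro ht
          obtain ⟨s, hs, hst⟩ := mem_image.1 (hT ht)
          refine ⟨s, mem_filter.2 ⟨hs, ?_⟩, hst⟩
          rw [hst]
          exact ht
      have hT0c : T0.card = u := by
        rw [← hTu, ← hT0T, card_image_of_injOn]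
        exact hinj.mono (by exact_mod_cast hT0E)
      have hUY : T0.biUnion id ⊆ Y := by
        intro y hy
        rw [mem_biUnion] at hy
        obtain ⟨s, hs, hys⟩ := hy
        exact (hE s (hT0E hs)).1 hys
      have hUT : T.biUnion id = (T0.biUnion id).image f := by
        rw [← hT0T, image_biUnion, biUnion_image]
        rfl
      rw [hUT, card_image_of_injOn (hf2.mono (by exact_mod_cast hUY))]
      exact hW T0 hT0E hT0c
  · -- `Y` is empty
    rw [not_nonempty_iff_eq_empty] at hY
    subst hY
    have hE0 : ∀ s ∈ E, s = ∅ := fun s hs => subset_empty.1 (hE s hs).1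
    by_cases hEe : E = ∅
    · subst hEe
      refine ⟨∅, by simp, ?_, rfl⟩
      intro T hT hTu
      have hT' : T = ∅ := subset_empty.1 hT
      subst hT'
      have := hW ∅ (Subset.refl _) (by simpa using hTu)
      simpa using this
    · obtain ⟨s, hs⟩ := nonempty_iff_ne_empty.2 hEe
      have hE1 : E = {∅} := by
        ext t
        rw [mem_singleton]
        refine ⟨hE0 t, ?_⟩
        rintro rfl
        rw [← hE0 s hs]
        exact hs
      have hk : k = 0 := by
        rw [← (hE s hs).2, hE0 s hs, card_empty]
      subst hE1
      refine ⟨{∅}, ?_, ?_, rfl⟩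
      · intro t ht
        rw [mem_singleton] at ht
        subst ht
        exact ⟨empty_subset _, by rw [hk, card_empty]⟩
      · intro T hT hTu
        have h0 : T.biUnion id = ∅ := by
          apply subset_empty.1
          intro y hy
          rw [mem_biUnion] at hy
          obtain ⟨t, ht, hyt⟩ := hy
          rw [mem_singleton.1 (hT ht)] at hyt
          exact hyt
        rw [h0, card_empty]
        rcases subset_singleton_iff.1 hT with rfl | rfl
        · have := hW ∅ (empty_subset _) (by simpa using hTu)
          simpa using this
        · have := hW {∅} (Subset.refl _) (by simpa using hTu)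
          simpa using this

end Pool.Agent.Lib.MP_fffc5a_co
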