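import Mathlib
import Pool.Agent.Lib.MP_fffc5a_co.Defs
import Pool.Agent.Lib.MP_fffc5a_co.Stab
import Pool.Agent.Lib.MP_fffc5a_co.Kst
import Pool.Agent.Lib.MP_fffc5a_co.Miss
import Pool.Agent.Lib.MP_fffc5a_co.Overlap
import Pool.Agent.Lib.MP_fffc5a_co.NumOne
import Pool.Agent.Lib.MP_fffc5a_co.NumTwo

/-!
The upper bound for `(u + 1) k ≤ n`, `u ≥ 2`, `k` large.
-/

set_option autoImplicit false

open Finset

namespace Pool.Agent.Lib.MP_fffc5a_co

theorem upper (u : ℕ) (hu : 2 ≤ u) : ∃ k₀ : ℕ, ∀ k, k₀ ≤ k → ∀ v, u ≤ v → 2 * v ≤ k →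
    ∀ n, (u + 1) * k ≤ n → ∀ F : Finset (Finset (Fin n)), (∀ s ∈ F, s.card = k) → UI u v F →
      F.card ≤ (n - 1).choose (k - 1) + (if (u + 1) * k < n then u - 1 else u) := by
  obtain ⟨k₁, h1⟩ := num_one u hu
  obtain ⟨k₂, h2⟩ := num_two u hu
  refine ⟨max k₁ k₂, fun k hk v huv hvk n hn F hF hUI => ?_⟩
  have hk1 : 1 ≤ k := by omega
  have hkk₁ : k₁ ≤ k := le_trans (le_max_left _ _) hk
  have hkk₂ : k₂ ≤ k := le_trans (le_max_right _ _) hk
  have h3k : 3 * k ≤ (u + 1) * k := Nat.mul_le_mul_right k (by omega)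
  have hukk : (u + 1) * k = u * k + k := by ring
  have hn2 : 2 * k + 1 ≤ n := by omega
  have hv1 : 1 ≤ v := by omega
  by_contra hcon
  push Not at hcon
  set A := (if (u + 1) * k < n then u - 1 else u) with hA
  have hLF : (n - 1).choose (k - 1) ≤ F.card := by omega
  obtain ⟨x, hx⟩ := stability (α := Fin n) hk1 (by rw [Fintype.card_fin]; exact hn2) F hF
    (by rw [Fintype.card_fin]; exact hLF)
  rw [Fintype.card_fin] at hx
  set E := F.filter fun s => x ∉ s with hE
  set P := F.filter fun s => x ∈ s with hP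
  have hEF : E ⊆ F := filter_subset _ _
  have hPE : P.card + E.card = F.card := card_filter_add_card_filter_not _
  have hPL : P.card ≤ (n - 1).choose (k - 1) := by
    have := card_star_le (α := Fin n) hk1 hF x
    rwa [Fintype.card_fin] at this
  have hFC : F.card ≤ n.choose k := by
    have h3 : F ⊆ powersetCard k univ := fun s hs =>
      mem_powersetCard.2 ⟨subset_univ _, hF s hs⟩
    have := card_le_card h3
    rwa [card_powersetCard, card_univ, Fintype.card_fin] at this
  -- bound for the number of extras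
  have hEb : E.card * (n - k).choose k ≤ 12 * n ^ 6 * k * n.choose k := by
    obtain ⟨b, hb1, hb2, hb3⟩ := h1 k hkk₁ n hn
    have h3 := block_bound (by omega : 1 ≤ u) hv1 hUI hb1 hEF
    have h4 := dp_le F x
    have h5 : (u - 1) * F.card + (v - 1) * b ^ u ≤ k * n.choose k := by
      calc (u - 1) * F.card + (v - 1) * b ^ u
          ≤ (u - 1) * n.choose k + (v - 1) * n.choose k := by gcongr
        _ = ((u - 1) + (v - 1)) * n.choose k := by ring
        _ ≤ k * n.choose k := Nat.mul_le_mul_right _ (by omega)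
    have h6 : b * (E.card * (n - k).choose k) ≤
        6 * n ^ 6 * ((E.card + b) * (k * n.choose k)) := by
      calc b * (E.card * (n - k).choose k) ≤ b * (3 * n ^ 6 * dp F F) := by gcongr
        _ ≤ b * (3 * n ^ 6 * (2 * dp E F)) := by gcongr
        _ = 6 * n ^ 6 * (b * dp E F) := by ring
        _ ≤ 6 * n ^ 6 * ((E.card + b) * ((u - 1) * F.card + (v - 1) * b ^ u)) := by gcongr
        _ ≤ 6 * n ^ 6 * ((E.card + b) * (k * n.choose k)) := by gcongr
    have h7 : E.card * (12 * n ^ 6 * k * n.choose k) ≤ E.card * (b * (n - k).choose k) := by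
      gcongr
    have h8 : b * (E.card * (n - k).choose k) ≤ b * (12 * n ^ 6 * k * n.choose k) := by
      nlinarith
    exact le_of_mul_le_mul_left h8 hb1
  have hEA : A + 1 ≤ E.card := by omega
  have hAu : u ≤ A + 1 := by
    rw [hA]; split_ifs <;> omega
  -- first, many extras
  have hE2 : k + 2 ≤ 2 * E.card := by
    have h3 : ∃ T ⊆ E, T.card = u ∧ k ≤ n - 1 - (T.biUnion id).card := by
      by_cases hlt : (u + 1) * k < n
      · obtain ⟨T, hT, hTu⟩ := exists_subset_card_eq (show u ≤ E.card by omega)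
        refine ⟨T, hT, hTu, ?_⟩
        have h4 : (T.biUnion id).card ≤ T.card * k :=
          card_biUnion_le_card_mul _ _ _ fun s hs => (hF s (hEF (hT hs))).le
        rw [hTu] at h4
        omega
      · have hAu' : A = u := by rw [hA, if_neg hlt]
        by_contra h4
        push Not at h4
        have h5 := card_mul_le_of_unions (k := k) (Y := univ.erase x) hu
          (fun s hs => ⟨hF s (hEF hs), fun y hy => mem_erase.2
            ⟨fun h => (mem_filter.1 hs).2 (h ▸ hy), mem_univ _⟩⟩)
          (show u ≤ E.card by omega) (fun T hT hTu => by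
            have h5 := h4 T hT hTu
            omega)
        rw [card_erase_of_mem (mem_univ _), card_univ, Fintype.card_fin] at h5
        have h6 : (u + 1) * k ≤ E.card * k := Nat.mul_le_mul_right k (by omega)
        omega
    obtain ⟨T, hT, hTu, hTk⟩ := h3
    have h4 := missing_bound (α := Fin n) hk1 hv1 hF hUI x hT hTu
    rw [Fintype.card_fin] at h4
    replace h4 : (n - 1 - (T.biUnion id).card).choose (k - 1) + P.card ≤
      (n - 1).choose (k - 1) + (v - 1) := h4
    have h5 : k ≤ (n - 1 - (T.biUnion id).card).choose (k - 1) := by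
      calc k = k.choose (k - 1) := by
            rw [Nat.choose_symm hk1]
            exact (Nat.choose_one_right k).symm
        _ ≤ _ := Nat.choose_le_choose _ hTk
    omega
  -- two extras with a large intersection
  obtain ⟨G, hG, G', hG', hne, ht⟩ := overlap (Y := univ.erase x) hk1
    (fun s hs => ⟨hF s (hEF hs), fun y hy => mem_erase.2
      ⟨fun h => (mem_filter.1 hs).2 (h ▸ hy), mem_univ _⟩⟩) hE2
  rw [card_erase_of_mem (mem_univ _), card_univ, Fintype.card_fin] at ht
  obtain ⟨T, hGT, hT, hTu⟩ := exists_subsuperset_card_eq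
    (show ({G, G'} : Finset (Finset (Fin n))) ⊆ E from by
      intro s hs
      rcases mem_insert.1 hs with rfl | hs
      · exact hG
      · rw [mem_singleton.1 hs]; exact hG')
    (show ({G, G'} : Finset (Finset (Fin n))).card ≤ u by rw [card_pair hne]; exact hu)
    (show u ≤ E.card by omega)
  have h4 := missing_bound (α := Fin n) hk1 hv1 hF hUI x hT hTu
  rw [Fintype.card_fin] at h4
  replace h4 : (n - 1 - (T.biUnion id).card).choose (k - 1) + P.card ≤
      (n - 1).choose (k - 1) + (v - 1) := h4
  have h5 := union_le (k := k) (T := T) (fun s hs => hF s (hEF (hT hs)))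
    (hGT (by simp)) (hGT (by simp)) hne
  rw [hTu] at h5
  have h6 : (n - 1 - u * k + (G ∩ G').card).choose (k - 1) ≤
      (n - 1 - (T.biUnion id).card).choose (k - 1) := Nat.choose_le_choose _ (by omega)
  have h7 : (n - 1 - u * k + (G ∩ G').card).choose (k - 1) ≤ E.card + k := by omega
  have h8 := h2 k hkk₂ n hn (G ∩ G').card ht
  have h9 : (n - 1 - u * k + (G ∩ G').card).choose (k - 1) * (n - k).choose k ≤
      (E.card + k) * (n - k).choose k := Nat.mul_le_mul_right _ h7
  rw [add_mul] at h9
  omega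

end Pool.Agent.Lib.MP_fffc5a_co
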