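import Mathlib
import Pool.Agent.Lib.MP_fffc5a_co.Defs
import Pool.Agent.Lib.MP_fffc5a_co.DefsC
import Pool.Agent.Lib.MP_fffc5a_co.Stab
import Pool.Agent.Lib.MP_fffc5a_co.ExtrasLe
import Pool.Agent.Lib.MP_fffc5a_co.MissCard
import Pool.Agent.Lib.MP_fffc5a_co.Adj
import Pool.Agent.Lib.MP_fffc5a_co.KKTouched
import Pool.Agent.Lib.MP_fffc5a_co.KKNum
import Pool.Agent.Lib.MP_fffc5a_co.Descend
import Pool.Agent.Lib.MP_fffc5a_co.NumSum

/-!
The upper bound of the coding formula.
-/

set_option autoImplicit false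

open Finset

namespace Pool.Agent.Lib.MP_fffc5a_co

/-- Adjacent clusters of extra sets are paid for by missing sets of the star. -/
theorem adj_final (u : ℕ) (hu : 2 ≤ u) : ∃ C k₀ : ℕ, ∀ k, k₀ ≤ k → ∀ v, u ≤ v → 2 * v ≤ k →
    ∀ a : ℕ, a ≤ (u - 1) * k → 3 ≤ a → (C : ℝ) * (k * Real.log k) ≤ (a : ℝ) ^ 2 →
    ∀ F : Finset (Finset (Fin (2 * k + a))), (∀ s ∈ F, s.card = k) → UI u v F →
    ∀ x : Fin (2 * k + a),
    (F.filter fun s => x ∉ s).card * (k + a / 2).choose k ≤
      3 * (2 * k + a) ^ 6 * (k * (2 * k + a).choose k) →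
    2 * ((F.filter fun s => x ∉ s).filter fun s =>
      ∃ K ∈ Dense (F.filter fun s => x ∉ s) u k x, s ⊆ K).card ≤ (Miss F x k).card := by
  obtain ⟨C, k₁, h1⟩ := kk_num u hu
  refine ⟨C, max k₁ 2, fun k hk v huv hvk a ha ha3 hCa F hF hUI x hEQ => ?_⟩
  have hk1 : k₁ ≤ k := le_trans (le_max_left _ _) hk
  have hk2 : 2 ≤ k := le_trans (le_max_right _ _) hk
  set E := F.filter fun s => x ∉ s with hE
  have hEF : E ⊆ F := filter_subset _ _
  have hEk : ∀ s ∈ E, s.card = k := fun s hs => hF s (hEF hs)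
  set K := Dense E u k x with hK
  have hKs : K ⊆ powersetCard (k + 1) (univ.erase x) := filter_subset _ _
  have hadj := adj_members_le (u := u) (x := x) hEk
  have htou := touched_le (u := u) (v := v) k (by omega) hUI (x := x) hEF
  have hden := dense_card_le (u := u) (k := k) (by omega) (x := x) hEk
  rw [← hK] at hadj htou hden
  rw [Fintype.card_fin] at hden
  rcases Nat.eq_zero_or_pos K.card with h0 | hpos
  · rw [h0, Nat.mul_zero] at hadj
    omega
  -- the Lovasz parameter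
  set r := k + a - 2 with hr
  set N := 2 * k + a - 1 with hN
  set P : ℕ → Prop := fun y => y.choose r ≤ K.card with hP
  have hrN : r ≤ N := by omega
  have hPr : P r := by
    change r.choose r ≤ K.card
    rw [Nat.choose_self]
    exact hpos
  set y := Nat.findGreatest P N with hy
  have hyr : r ≤ y := Nat.le_findGreatest hrN hPr
  have hyN : y ≤ N := Nat.findGreatest_le N
  have hPy : P y := Nat.findGreatest_spec hrN hPr
  have hKc : K.card ≤ N.choose r := by
    have h2 := card_le_card hKs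
    rw [card_powersetCard, card_erase_of_mem (mem_univ _), card_univ, Fintype.card_fin] at h2
    rw [← Nat.choose_symm hrN]
    have h3 : N - r = k + 1 := by omega
    rw [h3]
    exact h2
  have hKy : K.card ≤ (y + 1).choose r := by
    rcases Nat.lt_or_ge y N with h2 | h2
    · have h3 : ¬ P (y + 1) :=
        Nat.findGreatest_is_greatest (P := P) (n := N) (k := y + 1) (Nat.lt_succ_self y) h2
      exact (not_le.1 h3).le
    · have h3 : y = N := le_antisymm hyN h2
      rw [h3]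
      exact hKc.trans (Nat.choose_le_choose _ (Nat.le_succ _))
  have h2 := kk_touched (k := k) (a := a) (by omega) (by omega) (by rw [Fintype.card_fin]) hKs
    hyr hyN hPy
  have h3 : y.choose r * (k + a / 2).choose k ≤
      3 * (2 * k + a) ^ 7 * (k * (2 * k + a).choose k) := by
    calc y.choose r * (k + a / 2).choose k
        ≤ K.card * (k + a / 2).choose k := Nat.mul_le_mul_right _ hPy
      _ ≤ (E.card * (2 * k + a)) * (k + a / 2).choose k := Nat.mul_le_mul_right _ hden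
      _ = (2 * k + a) * (E.card * (k + a / 2).choose k) := by ring
      _ ≤ (2 * k + a) * (3 * (2 * k + a) ^ 6 * (k * (2 * k + a).choose k)) :=
        Nat.mul_le_mul_left _ hEQ
      _ = 3 * (2 * k + a) ^ 7 * (k * (2 * k + a).choose k) := by ring
  have h4 := h1 k hk1 a ha hCa y hyr h3
  have h5 : 3 * k * K.card ≤ (Miss F x k).card + (v - 1) * K.card := by
    calc 3 * k * K.card ≤ 3 * k * (y + 1).choose r := Nat.mul_le_mul_left _ hKy
      _ ≤ y.choose (k - 1) := h4
      _ ≤ _ := h2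
      _ ≤ _ := htou
  have h6 : (v - 1) * K.card ≤ (k - 2) * K.card := Nat.mul_le_mul_right _ (by omega)
  have h7 : 3 * k * K.card = (2 * k + 2) * K.card + (k - 2) * K.card := by
    rw [← add_mul]
    congr 1
    omega
  have h8 : 2 * ((k + 1) * K.card) = (2 * k + 2) * K.card := by ring
  omega

theorem upper_code (u : ℕ) (hu : 2 ≤ u) : ∃ C k₀ : ℕ, 1 ≤ C ∧ ∀ k, k₀ ≤ k → ∀ v, u ≤ v →
    2 * v ≤ k → ∀ a : ℕ, a ≤ (u - 1) * k → (C : ℝ) * (k * Real.log k) ≤ (a : ℝ) ^ 2 →
    ∀ F : Finset (Finset (Fin (2 * k + a))), (∀ s ∈ F, s.card = k) → UI u v F →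
    ∃ x : Fin (2 * k + a), ∃ E₀ : Finset (Finset (Fin (2 * k + a))),
      (∀ s ∈ E₀, s.card = k ∧ x ∉ s) ∧ Wide u (k + a) E₀ ∧
      F.card ≤ (2 * k + a - 1).choose (k - 1) + E₀.card := by
  obtain ⟨C₁, k₁, h1⟩ := adj_final u hu
  obtain ⟨C₂, k₂, h2⟩ := num_sum u hu
  refine ⟨C₁ + C₂ + 9, max (max k₁ k₂) 3, by omega, fun k hk v huv hvk a ha hCa F hF hUI => ?_⟩
  have hk1 : k₁ ≤ k := le_trans (le_max_left _ _) (le_trans (le_max_left _ _) hk)
  have hk2 : k₂ ≤ k := le_trans (le_max_right _ _) (le_trans (le_max_left _ _) hk)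
  have hk3 : 3 ≤ k := le_trans (le_max_right _ _) hk
  -- the logarithm is at least one
  have hlog : 1 ≤ Real.log k := by
    rw [Real.le_log_iff_exp_le (by positivity)]
    have h3 := Real.exp_one_lt_d9
    have h4 : (3 : ℝ) ≤ k := by exact_mod_cast hk3
    linarith
  have hkr : (k : ℝ) ≤ k * Real.log k := by
    have h4 : (0 : ℝ) ≤ k := Nat.cast_nonneg k
    nlinarith
  have hkr0 : (0 : ℝ) ≤ k * Real.log k := le_trans (Nat.cast_nonneg k) hkr
  have hc : ∀ c : ℕ, c ≤ C₁ + C₂ + 9 → (c : ℝ) * (k * Real.log k) ≤ (a : ℝ) ^ 2 := by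
    intro c hc
    refine le_trans (mul_le_mul_of_nonneg_right ?_ hkr0) hCa
    exact_mod_cast hc
  have hc' : ∀ c : ℕ, c ≤ C₁ + C₂ + 9 → c * k ≤ a ^ 2 := by
    intro c hc1
    have h3 := hc c hc1
    have h4 : (c : ℝ) * k ≤ (a : ℝ) ^ 2 :=
      le_trans (mul_le_mul_of_nonneg_left hkr (Nat.cast_nonneg c)) h3
    exact_mod_cast h4
  have ha3 : 3 ≤ a := by
    have h3 := hc' 9 (by omega)
    by_contra h4
    push Not at h4
    have h5 : a ^ 2 ≤ 2 ^ 2 := Nat.pow_le_pow_left (by omega) 2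
    omega
  have hn0 : 0 < 2 * k + a := by omega
  rcases Nat.lt_or_ge F.card ((2 * k + a - 1).choose (k - 1)) with hlt | hge
  · refine ⟨⟨0, hn0⟩, ∅, by simp, ?_, by simpa using hlt.le⟩
    intro T hT hTu
    rw [subset_empty.1 hT] at hTu
    simp at hTu
    omega
  obtain ⟨x, hx⟩ := stability (α := Fin (2 * k + a)) (k := k) (by omega)
    (by rw [Fintype.card_fin]; omega) F hF (by rw [Fintype.card_fin]; exact hge)
  rw [Fintype.card_fin] at hx
  have hnk : 2 * k + a - k = k + a := by omega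
  rw [hnk] at hx
  have hEQ := extras_le (u := u) (v := v) (k := k) (a := a) (by omega) (by omega) (by omega)
    (by rw [Fintype.card_fin]) hF hUI hx
  have hadj := h1 k hk1 v huv hvk a ha ha3 (hc _ (by omega)) F hF hUI x hEQ
  have hstar := card_add_miss (k := k) (by omega) hF x
  rw [Fintype.card_fin] at hstar
  set E := F.filter fun s => x ∉ s with hE
  have hEF : E ⊆ F := filter_subset _ _
  have hEx : ∀ s ∈ E, s.card = k ∧ x ∉ s := fun s hs => ⟨hF s (hEF hs), (mem_filter.1 hs).2⟩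
  have hsplit := card_filter_add_card_filter_not (s := E) (fun s => ∃ K ∈ Dense E u k x, s ⊆ K)
  have hwide := wide_of_not_dense hu hEx
  set E₁ := E.filter fun s => ∃ K ∈ Dense E u k x, s ⊆ K with hE₁
  set E₂ := E.filter fun s => ¬ ∃ K ∈ Dense E u k x, s ⊆ K with hE₂
  obtain ⟨X₀, hX₀, hXw, hXc⟩ := descend (u := u) (v := v) (k := k) (a := a) (by omega) (by omega)
    (by omega) (by omega) (by rw [Fintype.card_fin]) hF hUI (x := x) (a - 2) (by omega) E₂
    (filter_subset _ _) (fun T hT hTu => by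
      have h3 := hwide T hT hTu
      omega)
  have hsum := h2 k hk2 a ha (hc' _ (by omega))
  refine ⟨x, X₀, fun s hs => hEx s (filter_subset _ _ (hX₀ hs)), hXw, ?_⟩
  have h3 : ((Miss F x k).card : ℝ) * (2 * ((u - 1 : ℕ) : ℝ) * ∑ i ∈ Icc 1 (a - 2),
      ((k + a).choose (i + 1) : ℝ) / (a.choose (i + 1) * (k - 1 + i).choose i)) ≤
      (Miss F x k).card * (1 / 2) := mul_le_mul_of_nonneg_left hsum (Nat.cast_nonneg _)
  have h4 : (2 * E₂.card : ℝ) ≤ 2 * X₀.card + (Miss F x k).card := by linarith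
  have h5 : 2 * E₂.card ≤ 2 * X₀.card + (Miss F x k).card := by exact_mod_cast h4
  omega

end Pool.Agent.Lib.MP_fffc5a_co
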