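import Mathlib
import Pool.Agent.Lib.MP_fffc5a_co.Defs
import Pool.Agent.Lib.MP_fffc5a_co.DefsC
import Pool.Agent.Lib.MP_fffc5a_co.DefsH
import Pool.Agent.Lib.MP_fffc5a_co.Transfer
import Pool.Agent.Lib.MP_fffc5a_co.LocalTransfer
import Pool.Agent.Lib.MP_fffc5a_co.LocalConst
import Pool.Agent.Lib.MP_fffc5a_co.DpBound
import Pool.Agent.Lib.MP_fffc5a_co.StabConst

/-!
The upper bound of the coding formula for a bounded gap `a = n - 2 k ≥ u + 1`.
-/

set_option autoImplicit false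

open Finset

namespace Pool.Agent.Lib.MP_fffc5a_co

theorem upper_const (u v a : ℕ) (hu : 1 ≤ u) (huv : u ≤ v) (hua : u + 1 ≤ a) :
    ∃ k₀ : ℕ, ∀ k : ℕ, k₀ ≤ k →
    ∀ F : Finset (Finset (Fin (2 * k + a))), (∀ s ∈ F, s.card = k) → UI u v F →
    ∃ E₀ : Finset (Finset (Fin (2 * k + a - 1))), (∀ s ∈ E₀, s.card = k) ∧ Wide u (k + a) E₀ ∧
      F.card ≤ (2 * k + a - 1).choose (k - 1) + E₀.card := by
  obtain ⟨C₁, k₁, h1⟩ := dp_bound u v a hu huv hua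
  obtain ⟨ε, hε, k₂, h2⟩ := local_const u v a hu huv hua
  obtain ⟨k₃, h3⟩ := stab_const a C₁ (by omega) hε
  refine ⟨max (max k₁ k₂) (max k₃ 1), fun k hk F hF hUI => ?_⟩
  have hk1 : k₁ ≤ k := by omega
  have hk2 : k₂ ≤ k := by omega
  have hk3 : k₃ ≤ k := by omega
  have hk0 : 1 ≤ k := by omega
  rcases Nat.lt_or_ge F.card ((2 * k + a - 1).choose (k - 1)) with hlt | hge
  · refine ⟨∅, by simp, ?_, by simpa using hlt.le⟩
    intro T hT hTu
    rw [subset_empty.1 hT] at hTu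
    simp at hTu
    omega
  have hdp := h1 k hk1 (Fin (2 * k + a)) (Fintype.card_fin _) F hF hUI hge
  obtain ⟨x, hx⟩ := h3 k hk3 (Fin (2 * k + a)) (Fintype.card_fin _) F hF hge hdp
  obtain ⟨E, M, h4, h5, h6, h7, h8⟩ := local_transfer (u := u) (v := v) (k := k) (a := a)
    (by omega) (by omega) hF hUI x
  have hcard : Fintype.card {y : Fin (2 * k + a) // y ≠ x} = 2 * k + a - 1 := by
    rw [Fintype.card_subtype_compl, Fintype.card_subtype_eq, Fintype.card_fin]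
  obtain ⟨E₀, h9, h10, h11⟩ := h2 k hk2 {y : Fin (2 * k + a) // y ≠ x} hcard E M h4 h5 h6
    (by rw [h7]; exact hx)
  obtain ⟨E', h12, h13, h14⟩ := code_transfer (u := u) (w := k + a) (k := k)
    (Y := (univ : Finset {y : Fin (2 * k + a) // y ≠ x}))
    (Z := (univ : Finset (Fin (2 * k + a - 1))))
    (by rw [card_univ, card_univ, hcard, Fintype.card_fin])
    (E := E₀) (fun s hs => ⟨subset_univ _, h4 s (h9 hs)⟩) h10
  refine ⟨E', fun s hs => (h12 s hs).2, h13, ?_⟩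
  omega

/-- All bounded gaps at once. -/
theorem upper_const_all (u v a₀ : ℕ) (hu : 1 ≤ u) (huv : u ≤ v) :
    ∃ k₀ : ℕ, ∀ k : ℕ, k₀ ≤ k → ∀ a : ℕ, u + 1 ≤ a → a < a₀ →
    ∀ F : Finset (Finset (Fin (2 * k + a))), (∀ s ∈ F, s.card = k) → UI u v F →
    ∃ E₀ : Finset (Finset (Fin (2 * k + a - 1))), (∀ s ∈ E₀, s.card = k) ∧ Wide u (k + a) E₀ ∧
      F.card ≤ (2 * k + a - 1).choose (k - 1) + E₀.card := by
  have h : ∀ a : ℕ, ∃ k₀ : ℕ, u + 1 ≤ a → ∀ k : ℕ, k₀ ≤ k →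
      ∀ F : Finset (Finset (Fin (2 * k + a))), (∀ s ∈ F, s.card = k) → UI u v F →
      ∃ E₀ : Finset (Finset (Fin (2 * k + a - 1))), (∀ s ∈ E₀, s.card = k) ∧
        Wide u (k + a) E₀ ∧ F.card ≤ (2 * k + a - 1).choose (k - 1) + E₀.card := by
    intro a
    by_cases ha : u + 1 ≤ a
    · obtain ⟨k₀, h1⟩ := upper_const u v a hu huv ha
      exact ⟨k₀, fun _ => h1⟩
    · exact ⟨0, fun h => absurd h ha⟩
  choose K hK using h
  refine ⟨(range a₀).sup K, fun k hk a ha ha' => hK a ha k (le_trans ?_ hk)⟩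
  exact le_sup (f := K) (mem_range.2 ha')

end Pool.Agent.Lib.MP_fffc5a_co
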