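import Mathlib
import Pool.Agent.Lib.MP_fffc5a_co.Defs
import Pool.Agent.Lib.MP_fffc5a_co.DefsC
import Pool.Agent.Lib.MP_fffc5a_co.DefsH
import Pool.Agent.Lib.MP_fffc5a_co.Stab
import Pool.Agent.Lib.MP_fffc5a_co.ExtrasLe
import Pool.Agent.Lib.MP_fffc5a_co.Transfer
import Pool.Agent.Lib.MP_fffc5a_co.LocalThm
import Pool.Agent.Lib.MP_fffc5a_co.SmallNum
import Pool.Agent.Lib.MP_fffc5a_co.LocalTransfer

/-!
The upper bound of the coding formula for `n ≥ 2 k + a₀`, `n - 2 k` at most a small multiple of `k`.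
-/

set_option autoImplicit false

open Finset

namespace Pool.Agent.Lib.MP_fffc5a_co

theorem upper_small (u v : ℕ) (hu : 2 ≤ u) (huv : u ≤ v) : ∃ a₀ k₀ : ℕ, ∀ k, k₀ ≤ k →
    ∀ a : ℕ, a₀ ≤ a → 1000 * a * v ≤ k →
    ∀ F : Finset (Finset (Fin (2 * k + a))), (∀ s ∈ F, s.card = k) → UI u v F →
    ∃ E₀ : Finset (Finset (Fin (2 * k + a - 1))), (∀ s ∈ E₀, s.card = k) ∧ Wide u (k + a) E₀ ∧
      F.card ≤ (2 * k + a - 1).choose (k - 1) + E₀.card := by
  obtain ⟨a₀, k₀, h1⟩ := small_num (5 * (64 * v) + 6)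
  refine ⟨max a₀ (8 * u), max k₀ (u + v + 1), fun k hk a ha hak F hF hUI => ?_⟩
  have hk0 : k₀ ≤ k := le_trans (le_max_left _ _) hk
  have hk1 : u + v + 1 ≤ k := le_trans (le_max_right _ _) hk
  have ha0 : a₀ ≤ a := le_trans (le_max_left _ _) ha
  have ha1 : 8 * u ≤ a := le_trans (le_max_right _ _) ha
  have hak' : 1000 * (a * v) ≤ k := by
    have : 1000 * a * v = 1000 * (a * v) := by ring
    omega
  have hav : a ≤ a * v := Nat.le_mul_of_pos_right a (by omega)
  rcases Nat.lt_or_ge F.card ((2 * k + a - 1).choose (k - 1)) with hlt | hge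
  · refine ⟨∅, by simp, ?_, by simpa using hlt.le⟩
    intro T hT hTu
    rw [subset_empty.1 hT] at hTu
    simp at hTu
    omega
  obtain ⟨x, hx⟩ := stability (α := Fin (2 * k + a)) (k := k) (by omega)
    (by rw [Fintype.card_fin]; omega) F hF (by rw [Fintype.card_fin]; exact hge)
  rw [Fintype.card_fin] at hx
  have hnk : 2 * k + a - k = k + a := by omega
  rw [hnk] at hx
  have hEQ := extras_le (u := u) (v := v) (k := k) (a := a) (by omega) (by omega) (by omega)
    (by rw [Fintype.card_fin]) hF hUI hx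
  have hsm := h1 k hk0 a ha0 (by omega) _ hEQ
  obtain ⟨E, M, h2, h3, h4, h5, h6⟩ := local_transfer (u := u) (v := v) (k := k) (a := a)
    (by omega) (by omega) hF hUI x
  have hcard : Fintype.card {y : Fin (2 * k + a) // y ≠ x} = 2 * k + a - 1 := by
    rw [Fintype.card_subtype_compl, Fintype.card_subtype_eq, Fintype.card_fin]
  obtain ⟨E₀, h7, h8, h9⟩ := local_thm hu huv ha1 hak hcard h2 h3 h4 (by rw [h5]; exact hsm)
  obtain ⟨E', h10, h11, h12⟩ := code_transfer (u := u) (w := k + a) (k := k)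
    (Y := (univ : Finset {y : Fin (2 * k + a) // y ≠ x}))
    (Z := (univ : Finset (Fin (2 * k + a - 1))))
    (by rw [card_univ, card_univ, hcard, Fintype.card_fin])
    (E := E₀) (fun s hs => ⟨subset_univ _, h2 s (h7 hs)⟩) h8
  refine ⟨E', fun s hs => (h10 s hs).2, h11, ?_⟩
  omega

end Pool.Agent.Lib.MP_fffc5a_co
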